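import Pool.Agent.Lib.MP_45349e_nt.JG.Defs

/-!
# JG-Bas (45 min): elementary properties of the definitions

All statements are immediate from the definitions. `zs D = ⌊D^(1/3)⌋ + 1`; `p < zs D` iff
`p ≤ D^(1/3)` iff `p^3 ≤ D`. `0 ≤ EE, OO`, and `EE D z ≤ ⌊D⌋ ≤ D`. `Gm, Gp` are differences of two
numbers in `[0, D]`. `Real.floor` facts: `Nat.floor_le`, `Nat.lt_floor_add_one`, `Nat.le_floor`.
`ell`: with `L = log D`, `l = log p`, `0 ≤ l ≤ L/2`: `1 ≤ (1 - l/L)^(-1/2) ≤ √2 ≤ 2` and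
`(1-u)^(-1/2) ≥ 1 + u/2` (`(1+u/2)^2 (1-u) ≤ 1`).
-/

open Finset

namespace Pool.Agent.Lib.MP_45349e_nt.JG

open Pool.Agent.Lib.MP_45349e_nt.LS (P lam Lsum V)
open Pool.Agent.Lib.MP_45349e_nt
open Pool.Agent.Lib.MP_45349e_nt
open Pool.Agent.Lib.MP_45349e_nt

theorem mem_P {a b p : ℕ} : p ∈ P a b ↔ a ≤ p ∧ p < b ∧ p.Prime := by
  unfold LS.P
  rw [Finset.mem_filter, Finset.mem_Ico, and_assoc]

theorem Bas_cube_rt {D : ℝ} (hD : 0 ≤ D) : (D ^ (1 / 3 : ℝ)) ^ 3 = D := by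
  rw [← Real.rpow_natCast, ← Real.rpow_mul hD]
  norm_num

theorem lt_zs {D : ℝ} (hD : 0 ≤ D) (p : ℕ) : p < zs D ↔ (p : ℝ) ^ 3 ≤ D := by
  unfold zs
  have h0 : 0 ≤ D ^ (1 / 3 : ℝ) := Real.rpow_nonneg hD _
  rw [Nat.lt_add_one_iff, Nat.le_floor_iff h0]
  constructor
  · intro h
    calc (p : ℝ) ^ 3 ≤ (D ^ (1 / 3 : ℝ)) ^ 3 := pow_le_pow_left₀ (Nat.cast_nonneg p) h 3
      _ = D := Bas_cube_rt hD
  · intro h
    rw [← Bas_cube_rt hD] at h
    exact le_of_pow_le_pow_left₀ (by norm_num) h0 h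

theorem zs_cube {D : ℝ} (hD : 0 ≤ D) : D < (zs D : ℝ) ^ 3 := by
  by_contra h
  have h1 := (lt_zs hD (zs D)).2 (not_lt.1 h)
  exact lt_irrefl _ h1

theorem zs_le {D : ℝ} (hD : 0 ≤ D) : (zs D : ℝ) ≤ D ^ (1 / 3 : ℝ) + 1 := by
  unfold zs
  have h0 : 0 ≤ D ^ (1 / 3 : ℝ) := Real.rpow_nonneg hD _
  have h1 := Nat.floor_le h0
  push_cast
  linarith

theorem zs_mono {D D' : ℝ} (hD : 0 ≤ D) (h : D ≤ D') : zs D ≤ zs D' := by
  unfold zs
  have h1 : D ^ (1 / 3 : ℝ) ≤ D' ^ (1 / 3 : ℝ) := Real.rpow_le_rpow hD h (by norm_num)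
  exact Nat.add_le_add_right (Nat.floor_mono h1) 1

theorem EE_nonneg (D : ℝ) (z : ℕ) : 0 ≤ EE D z := Nat.cast_nonneg _

theorem OO_nonneg (D : ℝ) (z : ℕ) : 0 ≤ OO D z := Nat.cast_nonneg _

theorem EE_le {D : ℝ} (hD : 0 ≤ D) (z : ℕ) : EE D z ≤ D := by
  classical
  unfold EE
  refine le_trans ?_ (Nat.floor_le hD)
  refine (Nat.cast_le.2 (Finset.card_filter_le _ _)).trans (le_of_eq ?_)
  rw [Nat.card_Icc, Nat.add_sub_cancel]

theorem OO_le {D : ℝ} (hD : 0 ≤ D) (z : ℕ) : OO D z ≤ D := by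
  classical
  unfold OO
  refine le_trans ?_ (Nat.floor_le hD)
  refine (Nat.cast_le.2 (Finset.card_filter_le _ _)).trans (le_of_eq ?_)
  rw [Nat.card_Icc, Nat.add_sub_cancel]

theorem Gm_abs {D : ℝ} (hD : 0 ≤ D) (z : ℕ) : |Gm D z| ≤ D := by
  unfold Gm
  have hk : (0 : ℝ) < kap := by unfold kap; norm_num
  have h1 := EE_nonneg D z
  have h2 := EE_le hD z
  have h3 := EE_nonneg (D / kap) z
  have h4 := EE_le (div_nonneg hD hk.le) z
  have h5 : kap * EE (D / kap) z ≤ D := by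
    rw [le_div_iff₀ hk] at h4
    linarith
  have h6 : 0 ≤ kap * EE (D / kap) z := mul_nonneg hk.le h3
  rw [abs_le]
  constructor <;> linarith

theorem Gp_abs {D : ℝ} (hD : 0 ≤ D) (z : ℕ) : |Gp D z| ≤ D := by
  unfold Gp
  have hk : (0 : ℝ) < kap := by unfold kap; norm_num
  have h1 := OO_nonneg D z
  have h2 := OO_le hD z
  have h3 := OO_nonneg (D / kap) z
  have h4 := OO_le (div_nonneg hD hk.le) z
  have h5 : kap * OO (D / kap) z ≤ D := by
    rw [le_div_iff₀ hk] at h4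
    linarith
  have h6 : 0 ≤ kap * OO (D / kap) z := mul_nonneg hk.le h3
  rw [abs_le]
  constructor <;> linarith

theorem Tc_nonneg (n z : ℕ) (c : ℕ → ℤ) : 0 ≤ Tc n z c := Nat.cast_nonneg _

theorem Tc_le (n z : ℕ) (c : ℕ → ℤ) : Tc n z c ≤ n := by
  unfold Tc
  have h := Finset.card_filter_le (Finset.Icc 1 n)
    (fun j : ℕ => ∀ p ∈ P 2 z, ¬ (p : ℤ) ∣ (j : ℤ) - c p)
  rw [Nat.card_Icc, Nat.add_sub_cancel] at h
  exact_mod_cast h

theorem Tc_anti {z z' : ℕ} (h : z ≤ z') (n : ℕ) (c : ℕ → ℤ) : Tc n z' c ≤ Tc n z c := by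
  unfold Tc
  have h1 : ((Finset.Icc 1 n).filter
      (fun j : ℕ => ∀ p ∈ P 2 z', ¬ (p : ℤ) ∣ (j : ℤ) - c p)) ⊆
      ((Finset.Icc 1 n).filter (fun j : ℕ => ∀ p ∈ P 2 z, ¬ (p : ℤ) ∣ (j : ℤ) - c p)) := by
    intro j hj
    rw [Finset.mem_filter] at hj ⊢
    refine ⟨hj.1, fun p hp => hj.2 p ?_⟩
    rw [mem_P] at hp ⊢
    exact ⟨hp.1, lt_of_lt_of_le hp.2.1 h, hp.2.2⟩
  exact_mod_cast Finset.card_le_card h1

theorem piw_nonneg (w z : ℕ) : 0 ≤ piw w z := Nat.cast_nonneg _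

theorem piw_mono {w z z' : ℕ} (h : z ≤ z') : piw w z ≤ piw w z' := by
  unfold piw
  have h1 : P w z ⊆ P w z' := by
    intro p hp
    rw [mem_P] at hp ⊢
    exact ⟨hp.1, lt_of_lt_of_le hp.2.1 h, hp.2.2⟩
  exact_mod_cast Finset.card_le_card h1

theorem Bas_P_succ (w z : ℕ) :
    P w (z + 1) = if w ≤ z ∧ z.Prime then insert z (P w z) else P w z := by
  split_ifs with h
  · ext p
    rw [mem_P, Finset.mem_insert, mem_P]
    constructor
    · rintro ⟨h1, h2, h3⟩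
      by_cases h4 : p = z
      · exact Or.inl h4
      · exact Or.inr ⟨h1, by omega, h3⟩
    · rintro (h1 | ⟨h1, h2, h3⟩)
      · subst h1
        exact ⟨h.1, by omega, h.2⟩
      · exact ⟨h1, by omega, h3⟩
  · ext p
    rw [mem_P, mem_P]
    constructor
    · rintro ⟨h1, h2, h3⟩
      refine ⟨h1, ?_, h3⟩
      by_contra h4
      have h5 : p = z := by omega
      subst h5
      exact h ⟨h1, h3⟩
    · rintro ⟨h1, h2, h3⟩
      exact ⟨h1, by omega, h3⟩

/-- the sum of the first odd numbers -/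
theorem sum_piw (w z : ℕ) : ∑ p ∈ P w z, (1 + 2 * piw w p) = (piw w z) ^ 2 := by
  induction z with
  | zero =>
    have h : P w 0 = ∅ := by
      ext p
      rw [mem_P]
      constructor
      · rintro ⟨h1, h2, h3⟩
        omega
      · intro h
        exact absurd h (Finset.notMem_empty p)
    unfold piw
    rw [h]
    simp
  | succ z ih =>
    have h0 := Bas_P_succ w z
    by_cases h : w ≤ z ∧ z.Prime
    · rw [if_pos h] at h0
      have hz : z ∉ P w z := by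
        rw [mem_P]
        rintro ⟨h1, h2, h3⟩
        omega
      rw [h0, Finset.sum_insert hz, ih]
      have h1 : piw w (z + 1) = piw w z + 1 := by
        unfold piw
        rw [h0, Finset.card_insert_of_notMem hz]
        push_cast
        rfl
      rw [h1]
      ring
    · rw [if_neg h] at h0
      have h1 : piw w (z + 1) = piw w z := by
        unfold piw
        rw [h0]
      rw [h0, ih, h1]

/-- floors and division by a prime -/
theorem floor_div (D : ℝ) (p : ℕ) : ⌊D / p⌋₊ = ⌊D⌋₊ / p := Nat.floor_div_natCast D p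

theorem JJ_nonneg {D : ℝ} (hD : 1 ≤ D) {z : ℕ} : 0 ≤ JJ D z := by
  have h1 : 0 ≤ Real.log D := Real.log_nonneg hD
  have h2 : 0 ≤ Real.log z := Real.log_natCast_nonneg z
  have h3 : 0 ≤ eta := by unfold eta; norm_num
  unfold JJ
  split_ifs
  · positivity
  · positivity

/-- (F14) -/
theorem ell_diff {D : ℝ} {p : ℕ} (hp : 1 ≤ p) (hD : 1 < D) (h : (p : ℝ) ^ 2 ≤ D) :
    0 ≤ ell (D / p) - ell D ∧ ell (D / p) - ell D ≤ ell D ∧
      ell D * (Real.log p / (2 * Real.log D)) ≤ ell (D / p) - ell D := by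
  have hpR : (1 : ℝ) ≤ p := by exact_mod_cast hp
  have hL : 0 < Real.log D := Real.log_pos hD
  have hl : 0 ≤ Real.log p := Real.log_nonneg hpR
  have hl2 : 2 * Real.log p ≤ Real.log D := by
    have h1 := Real.log_le_log (by positivity) h
    rw [Real.log_pow] at h1
    push_cast at h1
    exact h1
  have hq : Real.log (D / p) = Real.log D - Real.log p :=
    Real.log_div (by linarith) (by linarith)
  set L := Real.log D with hLd
  set l := Real.log p with hld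
  have hM : 0 < L - l := by linarith
  unfold ell
  rw [hq]
  set a := Real.sqrt L with ha
  set b := Real.sqrt (L - l) with hb
  have ha0 : 0 < a := Real.sqrt_pos.2 hL
  have hb0 : 0 < b := Real.sqrt_pos.2 hM
  have ha2 : a ^ 2 = L := Real.sq_sqrt hL.le
  have hb2 : b ^ 2 = L - l := Real.sq_sqrt hM.le
  have hab : b ≤ a := Real.sqrt_le_sqrt (by linarith)
  have h2b : a ≤ 2 * b := by
    apply le_of_pow_le_pow_left₀ (n := 2) (by norm_num) (by positivity)
    nlinarith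
  refine ⟨?_, ?_, ?_⟩
  · rw [sub_nonneg]
    exact one_div_le_one_div_of_le hb0 hab
  · have h3 : 1 / b ≤ 2 / a := by
      rw [div_le_div_iff₀ hb0 ha0]
      linarith
    have h4 : 2 / a = 2 * (1 / a) := by ring
    linarith
  · -- 1/a * (l / (2 a^2)) ≤ 1/b - 1/a
    have h5 : 1 / b - 1 / a = (a - b) / (a * b) := by
      field_simp
    have h6 : (a - b) * (a + b) = l := by nlinarith
    have h7 : a - b = l / (a + b) := by
      rw [eq_div_iff (by positivity)]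
      exact h6
    rw [h5, h7, ← ha2]
    have h8 : 1 / a * (l / (2 * a ^ 2)) = l / (2 * a ^ 3) := by
      field_simp
    have h9 : l / (a + b) / (a * b) = l / ((a + b) * (a * b)) := by
      rw [div_div]
    rw [h8, h9]
    refine div_le_div_of_nonneg_left hl (by positivity) ?_
    have h10 : a * b ≤ a * a := mul_le_mul_of_nonneg_left hab ha0.le
    have h11 : (a + b) * (a * b) ≤ (a + a) * (a * a) :=
      mul_le_mul (by linarith) h10 (by positivity) (by positivity)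
    calc (a + b) * (a * b) ≤ (a + a) * (a * a) := h11
      _ = 2 * a ^ 3 := by ring

theorem ell_bd {D : ℝ} (hD : Real.exp 4 ≤ D) : 0 < ell D ∧ ell D ≤ 1 / 2 := by
  have h1 : 4 ≤ Real.log D := by
    rw [Real.le_log_iff_exp_le (lt_of_lt_of_le (Real.exp_pos 4) hD)]
    exact hD
  have h2 : 2 ≤ Real.sqrt (Real.log D) := by
    have h3 : Real.sqrt (2 ^ 2) ≤ Real.sqrt (Real.log D) := Real.sqrt_le_sqrt (by linarith)
    rwa [Real.sqrt_sq (by norm_num)] at h3
  unfold ell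
  refine ⟨by positivity, ?_⟩
  exact one_div_le_one_div_of_le (by norm_num) h2

end Pool.Agent.Lib.MP_45349e_nt.JG
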