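import Pool.Agent.Lib.MP_45349e_nt.LS.Defs

/-!
# JG: definitions (the sharp linear sieve and the additive energy of a sifted set)

The complete proof on paper is JG_PROOF.md (team-store). `P a b` is the set of the primes in `[a, b)`.
-/

open Finset

namespace Pool.Agent.Lib.MP_45349e_nt.JG

open Pool.Agent.Lib.MP_45349e_nt.LS (P lam Lsum V)

/-- all prime factors of `m` are `≥ z` -/
def Rough (z m : ℕ) : Prop := ∀ p : ℕ, p.Prime → p ∣ m → z ≤ p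

open Classical in
/-- number of the `z`-rough `m ≤ D` with an even number of prime factors -/
noncomputable def EE (D : ℝ) (z : ℕ) : ℝ :=
  (((Finset.Icc 1 ⌊D⌋₊).filter
    (fun m : ℕ => Rough z m ∧ Even (ArithmeticFunction.cardFactors m))).card : ℝ)

open Classical in
/-- number of the `z`-rough `m ≤ D` with an odd number of prime factors -/
noncomputable def OO (D : ℝ) (z : ℕ) : ℝ :=
  (((Finset.Icc 1 ⌊D⌋₊).filter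
    (fun m : ℕ => Rough z m ∧ Odd (ArithmeticFunction.cardFactors m))).card : ℝ)

/-- the dilation factor -/
noncomputable def kap : ℝ := 21 / 20

/-- the main function of the even model -/
noncomputable def Gm (D : ℝ) (z : ℕ) : ℝ := EE D z - kap * EE (D / kap) z

/-- the main function of the odd model -/
noncomputable def Gp (D : ℝ) (z : ℕ) : ℝ := kap * OO (D / kap) z - OO D z

/-- `p < zs D` iff `p ^ 3 ≤ D` -/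
noncomputable def zs (D : ℝ) : ℕ := ⌊D ^ (1 / 3 : ℝ)⌋₊ + 1

open Classical in
/-- number of the `j ∈ [1, n]` which avoid the class `c p` mod `p` for all primes `p < z` -/
noncomputable def Tc (n z : ℕ) (c : ℕ → ℤ) : ℝ :=
  (((Finset.Icc 1 n).filter (fun j : ℕ => ∀ p ∈ P 2 z, ¬ (p : ℤ) ∣ (j : ℤ) - c p)).card : ℝ)

/-- number of the primes in `[w, z)` -/
noncomputable def piw (w z : ℕ) : ℝ := ((P w z).card : ℝ)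

/-- number of the primes `≤ t` -/
noncomputable def pc (t : ℝ) : ℝ := (((Finset.Icc 1 ⌊t⌋₊).filter Nat.Prime).card : ℝ)

/-- the difference of prime counts -/
noncomputable def Del (y : ℝ) : ℝ := kap * pc (y / kap) - pc y

/-- the constant of the second branch of `JJ` -/
noncomputable def eta : ℝ := 9 / 1000

open Classical in
/-- the small correction -/
noncomputable def JJ (D : ℝ) (z : ℕ) : ℝ :=
  if (z : ℝ) ^ 4 ≤ D then D * (Real.log z) ^ 3 / (Real.log D) ^ 6 else eta * D / (Real.log D) ^ 3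

/-- `(log D) ^ (-1/2)` -/
noncomputable def ell (D : ℝ) : ℝ := 1 / Real.sqrt (Real.log D)

/-- the error function of the lower bound sieve -/
noncomputable def Um (w : ℕ) (K C2 D : ℝ) (z : ℕ) : ℝ :=
  K * ((1 - ell D) * Gm D z + 3 / 2 * (piw w z) ^ 2) + C2 * JJ D z

/-- the error function of the upper bound sieve -/
noncomputable def Up (w : ℕ) (K C2 D : ℝ) (z : ℕ) : ℝ :=
  K * ((1 - ell D) * Gp D (min z (zs D))) + C2 * JJ D z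

/-- the constant `c4` -/
noncomputable def c4 : ℝ := Real.log kap / 2

/-- the list of all facts used for the supersolution (`w` is a parameter of `piw` only in `f10`,
`f15`) -/
structure Facts (w : ℕ) (Cw c7 C8 eps C5 C6 C9 c13 D0 : ℝ) : Prop where
  hw : 3 ≤ w
  pos : 0 < Cw ∧ 0 < c7 ∧ 0 < C8 ∧ 0 < eps ∧ eps < 1 ∧ 0 < C5 ∧ 0 < C6 ∧ 0 < C9 ∧ 0 < c13
  hD0 : (w : ℝ) ^ 12 ≤ D0 ∧ Real.exp 16 ≤ D0
  f1 : ∀ D : ℝ, D0 ≤ D → |Gm D w| ≤ Cw * D / (Real.log D) ^ 6 ∧ |Gp D w| ≤ Cw * D / (Real.log D) ^ 6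
  f2a : ∀ D : ℝ, D0 ≤ D → ∀ z : ℕ, (z : ℝ) ^ 2 ≤ D → D < (z : ℝ) ^ 4 → -1 ≤ Gm D z
  f2b : ∀ D : ℝ, D0 ≤ D → ∀ z : ℕ, kap * (z : ℝ) ^ 2 ≤ D → D < (z : ℝ) ^ 4 →
    c7 * D / (Real.log D) ^ 2 ≤ Gm D z
  f3 : ∀ D : ℝ, D0 ≤ D → ∀ z : ℕ, (z : ℝ) ^ 2 ≤ D → D < (z : ℝ) ^ 4 →
    Gm D z ≤ C8 * D / (Real.log D) ^ 2
  f4 : ∀ D : ℝ, D0 ≤ D → c4 * D / (Real.log D) ^ 2 ≤ Gp D (zs D)
  f5 : ∀ D : ℝ, D0 ≤ D → ∀ z : ℕ, z ≤ zs D → D ≤ (z : ℝ) ^ (3 + eps) →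
    c4 / 2 * D / (Real.log D) ^ 2 ≤ Gp D z
  f6 : ∀ D : ℝ, D0 ≤ D → ∀ z : ℕ, w ≤ z → (z : ℝ) ^ 4 ≤ D →
    ∑ p ∈ P w z, JJ (D / p) p ≤ 24 / 25 * JJ D z
  f7 : ∀ D : ℝ, D0 ≤ D → ∀ s : Finset ℕ, (∀ p ∈ s, p.Prime ∧ w ≤ p ∧ (p : ℝ) ^ 5 ≤ D) →
    ∑ p ∈ s, JJ (D / p) p ≤ 24 / 25 * (eta * D / (Real.log D) ^ 3)
  f8 : ∀ D : ℝ, D0 ≤ D → ∀ s : Finset ℕ, (∀ p ∈ s, p.Prime ∧ w ≤ p ∧ (p : ℝ) ^ 2 ≤ D) →
    ∑ p ∈ s, JJ (D / p) p ≤ C6 * D / (Real.log D) ^ 3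
  f10 : ∀ D : ℝ, D0 ≤ D → ∀ z : ℕ, z ≤ zs D →
    ∑ p ∈ P w z, (piw w p) ^ 2 ≤ C9 * D / (Real.log D) ^ 3 ∧
    ((z : ℝ) ^ 4 ≤ D → ∑ p ∈ P w z, (piw w p) ^ 2 ≤ D ^ (4 / 5 : ℝ))
  f12m : ∀ D : ℝ, D0 ≤ D → ∀ z : ℕ, w ≤ z → (z : ℝ) ^ 2 ≤ D → -(C5 * JJ D z) ≤ Gm D z
  f12p : ∀ D : ℝ, D0 ≤ D → ∀ z : ℕ, w ≤ z → z ≤ zs D → -(C5 * JJ D z) ≤ Gp D z
  f13a : ∀ D : ℝ, D0 ≤ D →
    c13 ≤ ∑ p ∈ P ⌈D ^ (1 / (4 + eps))⌉₊ ⌈D ^ (1 / 4 : ℝ)⌉₊, 1 / (p : ℝ)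
  f13b : ∀ D : ℝ, D0 ≤ D →
    c13 ≤ ∑ p ∈ P (⌊D ^ (1 / 5 : ℝ)⌋₊ + 1) ⌈D ^ (1 / 4 : ℝ)⌉₊, 1 / (p : ℝ)
  f15 : ∀ z : ℕ, D0 ≤ 2 * (z : ℝ) ^ 2 → (z : ℝ) / (2 * Real.log z) ≤ piw w z
  f16 : ∀ z : ℕ, D0 ≤ 2 * (z : ℝ) ^ 4 → piw w z ≤ C9 * z / Real.log z

end Pool.Agent.Lib.MP_45349e_nt.JG
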