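import Pool.Agent.Lib.MP_45349e_nt.JG.Defs
import Pool.Agent.Lib.BV.Farey
import Pool.Agent.Lib.MP_7b7e48_nt.GT.ExpTools

/-!
# JG: definitions for the additive energy
-/

open Finset

namespace Pool.Agent.Lib.MP_45349e_nt.JG

open Pool.Agent.Lib.GT (e)
open Pool.Agent.Lib.MP_45349e_nt.LS (P lam Lsum V)

/-- the reduced residues mod `m` -/
def rr (m : ℕ) : Finset ℕ := (Finset.range m).filter (fun b => b.Coprime m)

/-- the Farey fractions `b / q` with `1 ≤ q ≤ Q`, as pairs `(q, b)` -/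
def FQ (Q : ℕ) : Finset ((_ : ℕ) × ℕ) := (Finset.Icc 1 Q).sigma rr

open Classical in
/-- squarefree `m ≤ R` all of whose prime factors are `> Q` -/
noncomputable def SQ (Q R : ℕ) : Finset ℕ :=
  (Finset.Icc 1 R).filter (fun m : ℕ => Squarefree m ∧ ∀ q : ℕ, q.Prime → q ∣ m → Q < q)

/-- the sum of `1 / φ(m)` over `SQ Q R` -/
noncomputable def GQ (Q R : ℕ) : ℝ := ∑ m ∈ SQ Q R, 1 / (Nat.totient m : ℝ)

/-- the exponential sum over `T` -/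
noncomputable def Th (T : Finset ℕ) (α : ℝ) : ℂ := ∑ t ∈ T, e ((t : ℝ) * α)

/-- the additive energy: number of `(t1, t2, t3, t4) ∈ T^4` with `t1 + t4 = t2 + t3` -/
def E4 (T : Finset ℕ) : ℕ :=
  (((T ×ˢ T) ×ˢ (T ×ˢ T)).filter
    (fun u : (ℕ × ℕ) × (ℕ × ℕ) => u.1.1 + u.2.2 = u.1.2 + u.2.1)).card

/-- the sum of `1/p` -/
noncomputable def sg (PP : Finset ℕ) : ℝ := ∑ p ∈ PP, 1 / (p : ℝ)

/-- `3 ^ ω(q) / φ(q)` -/
noncomputable def f3 (q : ℕ) : ℝ := 3 ^ q.primeFactors.card / (Nat.totient q : ℝ)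

/-- the denominator of `g / M` in lowest terms -/
def den (M g : ℕ) : ℕ := M / Nat.gcd g M

open Classical in
/-- the product of the primes `≤ R` -/
noncomputable def PR (R : ℕ) : ℕ := ∏ p ∈ (Finset.Icc 1 R).filter Nat.Prime, p

/-- Selberg's function: it is `1` at all integers which are prime to all primes `≤ R` -/
noncomputable def LamR (R : ℕ) (s : ℤ) : ℂ :=
  (1 / GQ 1 R : ℝ) * ∑ g ∈ (Finset.range (PR R)).filter (fun g => den (PR R) g ≤ R),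
    (((ArithmeticFunction.moebius (den (PR R) g) : ℤ) : ℝ) / (Nat.totient (den (PR R) g) : ℝ) : ℝ) *
      e ((g : ℝ) * s / (PR R : ℕ))

/-- the data: a set `T ⊆ [1, N]` which avoids the classes `c q` of the primes `q ≤ R` and is covered
by the classes of the primes `p ∈ PP ⊆ [z, x]` -/
structure Dat (N R : ℕ) (c : ℕ → ℤ) (PP T : Finset ℕ) (z x : ℝ) : Prop where
  sub : T ⊆ Finset.Icc 1 N
  av : ∀ t ∈ T, ∀ q : ℕ, q.Prime → q ≤ R → ¬ (q : ℤ) ∣ (t : ℤ) - c q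
  cov : ∀ t ∈ T, ∃ p ∈ PP, (p : ℤ) ∣ (t : ℤ) - c p
  pr : ∀ p ∈ PP, p.Prime ∧ R ^ 3 < p ∧ z ≤ (p : ℝ) ∧ (p : ℝ) ≤ x
  hR : R = ⌊(N : ℝ) ^ (1 / 20 : ℝ)⌋₊
  hz : (N : ℝ) ^ (3 / 20 : ℝ) ≤ z
  hx : x ≤ (N : ℝ) ^ (3 / 5 : ℝ)
  hxz : x ^ 2 * (R : ℝ) ^ 4 ≤ z * (N : ℝ) ^ (9 / 10 : ℝ)

end Pool.Agent.Lib.MP_45349e_nt.JG
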