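import Pool.Agent.Lib.MP_45349e_nt.JG.Defs

/-!
# JG-M01 (60 min): Buchstab's identity for the model

PROOF. Let `2 ≤ w ≤ z`. The `m ∈ [1, ⌊D⌋]`, `w`-rough with `Ω(m)` even, which are not `z`-rough: let
`p = Nat.minFac m` (`m > 1`), `p ∈ P w z`. `m = p * m'`, `m'` is `p`-rough, `m' ≤ D / p`, `Ω(m')` odd
(`ArithmeticFunction.cardFactors_mul`, `cardFactors_apply_prime`). Conversely for `p ∈ P w z` and `m'`
`p`-rough, `m' ≤ D / p`, `Ω(m')` odd: `p * m' ≤ D`, `w`-rough, not `z`-rough, least prime factor `p`,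
so the decomposition is a bijection (disjoint union over `p`). Use `Finset.card_biUnion` or
`Finset.card_eq_sum_card_fiberwise` with the map `Nat.minFac`, and for each `p` the bijection
`m' ↦ p * m'`. `p * m' ≤ ⌊D⌋₊ ↔ m' ≤ ⌊D / p⌋₊` by `Nat.floor_div_natCast` and `Nat.le_div_iff_mul_le`.
`buchGm`: apply `buchE` to `D` and to `D / kap` and note `D / kap / p = D / p / kap`:
`Gm D z = EE D z - kap EE (D/kap) z = [EE D w - ∑ OO (D/p) p] - kap [EE (D/kap) w - ∑ OO (D/kap/p) p]`.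
-/

open Finset

namespace Pool.Agent.Lib.MP_45349e_nt.JG

open Pool.Agent.Lib.MP_45349e_nt.LS (P lam Lsum V)

private lemma m01_memP {a b p : ℕ} : p ∈ P a b ↔ p.Prime ∧ a ≤ p ∧ p < b := by
  unfold P
  simp only [Finset.mem_filter, Finset.mem_Ico]
  tauto

open Classical in
private lemma m01_fib (Q Q' : ℕ → Prop) [DecidablePred Q] [DecidablePred Q'] (hQ : ∀ k, Q (k + 1) ↔ Q' k) (D : ℝ) {w z p : ℕ}
    (hp : p ∈ P w z) :
    (((Finset.Icc 1 ⌊D⌋₊).filter (fun m : ℕ => (Rough w m ∧ Q (ArithmeticFunction.cardFactors m)) ∧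
      ¬ Rough z m)).filter (fun m => m.minFac = p)).card =
    ((Finset.Icc 1 ⌊D / p⌋₊).filter
      (fun m : ℕ => Rough p m ∧ Q' (ArithmeticFunction.cardFactors m))).card := by
  obtain ⟨hpp, hwp, hpz⟩ := m01_memP.mp hp
  rw [Nat.floor_div_natCast]
  symm
  refine Finset.card_nbij' (fun m => p * m) (fun m => m / p) ?_ ?_ ?_ ?_
  · intro m hm
    rw [Finset.mem_coe, Finset.mem_filter, Finset.mem_Icc] at hm
    obtain ⟨⟨h1, h2⟩, hr, hq⟩ := hm
    have hm0 : m ≠ 0 := by omega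
    have hle : p * m ≤ ⌊D⌋₊ := by
      rw [Nat.le_div_iff_mul_le hpp.pos, mul_comm] at h2
      exact h2
    rw [Finset.mem_coe, Finset.mem_filter, Finset.mem_filter, Finset.mem_Icc]
    refine ⟨⟨⟨Nat.mul_pos hpp.pos (by omega), hle⟩, ⟨?_, ?_⟩, ?_⟩, ?_⟩
    · intro q hq' hdvd
      rcases (Nat.Prime.dvd_mul hq').mp hdvd with h | h
      · rw [(Nat.prime_dvd_prime_iff_eq hq' hpp).mp h]
        exact hwp
      · exact hwp.trans (hr q hq' h)
    · rw [ArithmeticFunction.cardFactors_mul hpp.ne_zero hm0,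
        ArithmeticFunction.cardFactors_apply_prime hpp, add_comm]
      exact (hQ _).mpr hq
    · intro hz
      have := hz p hpp (dvd_mul_right p m)
      omega
    · have hne : p * m ≠ 1 := by
        intro h
        exact hpp.one_lt.ne' (Nat.eq_one_of_mul_eq_one_right h)
      apply le_antisymm
      · exact Nat.minFac_le_of_dvd hpp.two_le (dvd_mul_right p m)
      · have h3 := Nat.minFac_prime hne
        rcases (Nat.Prime.dvd_mul h3).mp (Nat.minFac_dvd (p * m)) with h | h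
        · rw [(Nat.prime_dvd_prime_iff_eq h3 hpp).mp h]
        · exact hr _ h3 h
  · intro m hm
    rw [Finset.mem_coe, Finset.mem_filter, Finset.mem_filter, Finset.mem_Icc] at hm
    obtain ⟨⟨⟨h1, h2⟩, ⟨hr, hq⟩, hz⟩, hmf⟩ := hm
    have hpd : p ∣ m := by
      rw [← hmf]
      exact Nat.minFac_dvd m
    obtain ⟨k, rfl⟩ := hpd
    have hk0 : k ≠ 0 := by
      rintro rfl
      simp at h1
    rw [Finset.mem_coe, Finset.mem_filter, Finset.mem_Icc]
    show (1 ≤ p * k / p ∧ p * k / p ≤ ⌊D⌋₊ / p) ∧ Rough p (p * k / p) ∧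
      Q' (ArithmeticFunction.cardFactors (p * k / p))
    rw [Nat.mul_div_cancel_left k hpp.pos]
    refine ⟨⟨by omega, ?_⟩, ?_, ?_⟩
    · rw [Nat.le_div_iff_mul_le hpp.pos, mul_comm]
      exact h2
    · intro q hq' hdvd
      rw [← hmf]
      exact Nat.minFac_le_of_dvd hq'.two_le (dvd_mul_of_dvd_right hdvd p)
    · rw [ArithmeticFunction.cardFactors_mul hpp.ne_zero hk0,
        ArithmeticFunction.cardFactors_apply_prime hpp, add_comm] at hq
      exact (hQ _).mp hq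
  · intro m _
    show p * m / p = m
    exact Nat.mul_div_cancel_left m hpp.pos
  · intro m hm
    rw [Finset.mem_coe, Finset.mem_filter] at hm
    show p * (m / p) = m
    apply Nat.mul_div_cancel'
    rw [← hm.2]
    exact Nat.minFac_dvd m

open Classical in
private lemma m01_main (Q Q' : ℕ → Prop) [DecidablePred Q] [DecidablePred Q'] (hQ : ∀ k, Q (k + 1) ↔ Q' k) (D : ℝ) {w z : ℕ}
    (hwz : w ≤ z) :
    ((Finset.Icc 1 ⌊D⌋₊).filter
      (fun m : ℕ => Rough w m ∧ Q (ArithmeticFunction.cardFactors m))).card =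
    ((Finset.Icc 1 ⌊D⌋₊).filter
      (fun m : ℕ => Rough z m ∧ Q (ArithmeticFunction.cardFactors m))).card +
    ∑ p ∈ P w z, ((Finset.Icc 1 ⌊D / p⌋₊).filter
      (fun m : ℕ => Rough p m ∧ Q' (ArithmeticFunction.cardFactors m))).card := by
  have h1 : ((Finset.Icc 1 ⌊D⌋₊).filter
      (fun m : ℕ => Rough z m ∧ Q (ArithmeticFunction.cardFactors m))) =
      ((Finset.Icc 1 ⌊D⌋₊).filter
      (fun m : ℕ => Rough w m ∧ Q (ArithmeticFunction.cardFactors m))).filter (fun m => Rough z m) := by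
    ext m
    rw [Finset.mem_filter, Finset.mem_filter, Finset.mem_filter]
    constructor
    · rintro ⟨h, hr, hq⟩
      exact ⟨⟨h, fun q hq' hd => hwz.trans (hr q hq' hd), hq⟩, hr⟩
    · rintro ⟨⟨h, -, hq⟩, hr⟩
      exact ⟨h, hr, hq⟩
  have h2 : ∑ p ∈ P w z, ((Finset.Icc 1 ⌊D / p⌋₊).filter
      (fun m : ℕ => Rough p m ∧ Q' (ArithmeticFunction.cardFactors m))).card =
      (((Finset.Icc 1 ⌊D⌋₊).filter
      (fun m : ℕ => Rough w m ∧ Q (ArithmeticFunction.cardFactors m))).filter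
        (fun m => ¬ Rough z m)).card := by
    rw [Finset.filter_filter, Finset.card_eq_sum_card_fiberwise (f := Nat.minFac) (t := P w z)]
    · refine Finset.sum_congr rfl fun p hp => ?_
      rw [← m01_fib Q Q' hQ D hp]
    · intro m hm
      rw [Finset.mem_coe, Finset.mem_filter, Finset.mem_Icc] at hm
      obtain ⟨⟨h1, h2⟩, ⟨hr, hq⟩, hz⟩ := hm
      unfold Rough at hz
      push Not at hz
      obtain ⟨q, hq', hd, hlt⟩ := hz
      have hm1 : m ≠ 1 := by
        rintro rfl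
        exact hq'.one_lt.ne' (Nat.dvd_one.mp hd)
      have hmp := Nat.minFac_prime hm1
      rw [Finset.mem_coe, m01_memP]
      exact ⟨hmp, hr _ hmp (Nat.minFac_dvd m),
        lt_of_le_of_lt (Nat.minFac_le_of_dvd hq'.two_le hd) hlt⟩
  rw [h1, h2]
  exact (Finset.card_filter_add_card_filter_not (fun m => Rough z m)).symm

theorem buchE (D : ℝ) {w z : ℕ} (hw : 2 ≤ w) (hwz : w ≤ z) :
    EE D w = EE D z + ∑ p ∈ P w z, OO (D / p) p := by
  unfold EE OO
  rw [m01_main Even Odd (fun k => by rw [Nat.even_add_one, Nat.not_even_iff_odd]) D hwz]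
  push_cast
  rfl

theorem buchO (D : ℝ) {w z : ℕ} (hw : 2 ≤ w) (hwz : w ≤ z) :
    OO D w = OO D z + ∑ p ∈ P w z, EE (D / p) p := by
  unfold EE OO
  rw [m01_main Odd Even (fun k => by rw [Nat.odd_add_one, Nat.not_odd_iff_even]) D hwz]
  push_cast
  rfl

theorem buchGm (D : ℝ) {w z : ℕ} (hw : 2 ≤ w) (hwz : w ≤ z) :
    Gm D z = Gm D w + ∑ p ∈ P w z, Gp (D / p) p := by
  unfold Gm Gp
  rw [buchE D hw hwz, buchE (D / kap) hw hwz, Finset.sum_sub_distrib, ← Finset.mul_sum]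
  have e : ∑ p ∈ P w z, OO (D / kap / p) p = ∑ p ∈ P w z, OO (D / p / kap) p :=
    Finset.sum_congr rfl fun p _ => by rw [div_right_comm]
  rw [e]
  ring

theorem buchGp (D : ℝ) {w z : ℕ} (hw : 2 ≤ w) (hwz : w ≤ z) :
    Gp D z = Gp D w + ∑ p ∈ P w z, Gm (D / p) p := by
  unfold Gm Gp
  rw [buchO D hw hwz, buchO (D / kap) hw hwz, Finset.sum_sub_distrib, ← Finset.mul_sum]
  have e : ∑ p ∈ P w z, EE (D / kap / p) p = ∑ p ∈ P w z, EE (D / p / kap) p :=
    Finset.sum_congr rfl fun p _ => by rw [div_right_comm]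
  rw [e]
  ring

end Pool.Agent.Lib.MP_45349e_nt.JG
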