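import Pool.Agent.Lib.MP_45349e_nt.JG.Defs

/-!
# JG-M02 (75 min): Buchstab's inequalities for the configurations

PROOF. The `j ∈ [1, n]` counted by `Tc n w c` and not by `Tc n z c`: they avoid the classes of all
primes `< w` and lie in the class of some prime of `[w, z)`; let `p` be the least one. So
`Tc n w c - Tc n z c = ∑_{p ∈ P w z} B_p`, `B_p = #{j ∈ [1, n] : p ∣ j - c p, q ∤ j - c q for all primes
q < p}`. For fixed `p` let `r ∈ {0, ..., p-1}` be with `r + 1 ≡ c p mod p`; the `j ∈ [1, n]` with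
`p ∣ j - c p` are `j = r + 1 + p i`, `i = 0, 1, ...` with `r + 1 + p i ≤ n`; there are `n / p` or
`n / p + 1` of them (all `i < n / p` are allowed, since `r + 1 + p (n/p - 1) ≤ p (n / p) ≤ n`, and no
`i > n / p` is allowed, since then `p i ≥ p (n/p + 1) > n`). For a prime `q < p` choose `u` with
`p u ≡ 1 mod q`; `q ∣ (r + 1 + p i) - c q` iff `q ∣ (i + 1) - c' q`,
`c' q := (c q - (r + 1)) u + 1` (multiply by `u`). So with `c' = c'_p`:
`Tc (n / p) p c' ≤ B_p ≤ Tc (n / p) p c' + 1` (the `i + 1 ∈ [1, n/p]` are counted by `Tc (n/p) p c'`).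
-/

open Finset

namespace Pool.Agent.Lib.MP_45349e_nt.JG

open Pool.Agent.Lib.MP_45349e_nt.LS (P lam Lsum V)

private theorem m02_memP {w y p : ℕ} : p ∈ P w y ↔ (w ≤ p ∧ p < y) ∧ p.Prime := by
  unfold P
  rw [mem_filter, mem_Ico]

open Classical in
/-- the `j` whose least class is that of `p` -/
private noncomputable def m02B (n : ℕ) (c : ℕ → ℤ) (p : ℕ) : Finset ℕ :=
  (Finset.Icc 1 n).filter (fun j : ℕ => (p : ℤ) ∣ (j : ℤ) - c p ∧
    ∀ q ∈ P 2 p, ¬ (q : ℤ) ∣ (j : ℤ) - c q)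

open Classical in
private theorem m02_one (n : ℕ) (c : ℕ → ℤ) {p : ℕ} (hp : p.Prime) :
    ∃ c' : ℕ → ℤ, Tc (n / p) p c' ≤ ((m02B n c p).card : ℝ) ∧
      ((m02B n c p).card : ℝ) ≤ Tc (n / p) p c' + 1 := by
  have hp0 : (0 : ℤ) < p := by exact_mod_cast hp.pos
  obtain ⟨r, hr, hrc⟩ : ∃ r : ℕ, r < p ∧ (p : ℤ) ∣ ((r : ℤ) + 1) - c p := by
    refine ⟨((c p - 1) % p).toNat, ?_, ?_⟩
    · have h1 := Int.emod_lt_of_pos (c p - 1) hp0
      have h2 := Int.emod_nonneg (c p - 1) hp0.ne'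
      zify
      rw [Int.toNat_of_nonneg h2]
      exact h1
    · rw [Int.toNat_of_nonneg (Int.emod_nonneg _ hp0.ne')]
      have h := Int.mul_ediv_add_emod (c p - 1) p
      exact ⟨-((c p - 1) / p), by linarith⟩
  have hu : ∀ q : ℕ, ∃ u : ℤ, q ∈ P 2 p → (q : ℤ) ∣ (p : ℤ) * u - 1 := by
    intro q
    by_cases hq : q ∈ P 2 p
    · have h1 := m02_memP.mp hq
      have hcop : IsCoprime (p : ℤ) (q : ℤ) := by
        rw [Nat.isCoprime_iff_coprime]
        exact (Nat.coprime_primes hp h1.2).mpr (ne_of_gt h1.1.2)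
      obtain ⟨a, b, hab⟩ := hcop
      exact ⟨a, fun _ => ⟨-b, by linarith⟩⟩
    · exact ⟨0, fun h => absurd h hq⟩
  choose u hu using hu
  refine ⟨fun q => (c q - (r + 1)) * u q + 1, ?_⟩
  set c' : ℕ → ℤ := fun q => (c q - (r + 1)) * u q + 1 with hc'
  have key : ∀ q ∈ P 2 p, ∀ i : ℤ, ((q : ℤ) ∣ ((r : ℤ) + 1 + p * (i - 1)) - c q ↔ (q : ℤ) ∣ i - c' q) := by
    intro q hq i
    have h1 := hu q hq
    have e : i - c' q = u q * (((r : ℤ) + 1 + p * (i - 1)) - c q) - ((p : ℤ) * u q - 1) * (i - 1) := by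
      simp only [hc']
      ring
    constructor
    · intro h
      rw [e]
      exact dvd_sub (Dvd.dvd.mul_left h _) (Dvd.dvd.mul_right h1 _)
    · intro h
      rw [e] at h
      have h2 : (q : ℤ) ∣ u q * (((r : ℤ) + 1 + p * (i - 1)) - c q) := by
        have := dvd_add h (Dvd.dvd.mul_right h1 (i - 1))
        simpa using this
      have h3 : (q : ℤ) ∣ (p : ℤ) * (u q * (((r : ℤ) + 1 + p * (i - 1)) - c q)) :=
        Dvd.dvd.mul_left h2 _
      have h4 := dvd_sub h3 (Dvd.dvd.mul_right h1 (((r : ℤ) + 1 + p * (i - 1)) - c q))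
      have e2 : (p : ℤ) * (u q * (((r : ℤ) + 1 + p * (i - 1)) - c q)) -
          ((p : ℤ) * u q - 1) * (((r : ℤ) + 1 + p * (i - 1)) - c q) =
          ((r : ℤ) + 1 + p * (i - 1)) - c q := by ring
      rw [e2] at h4
      exact h4
  set F : Finset ℕ := (Finset.Icc 1 (n / p)).filter
    (fun j : ℕ => ∀ q ∈ P 2 p, ¬ (q : ℤ) ∣ (j : ℤ) - c' q) with hF
  have hTc : Tc (n / p) p c' = (F.card : ℝ) := rfl
  rw [hTc]
  have hmap : ∀ i : ℕ, 1 ≤ i → ((r + 1 + p * (i - 1) : ℕ) : ℤ) = (r : ℤ) + 1 + p * ((i : ℤ) - 1) := by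
    intro i hi
    push_cast [Nat.cast_sub hi]
    ring
  constructor
  · have h1 : F.card ≤ (m02B n c p).card := by
      refine Finset.card_le_card_of_injOn (fun i => r + 1 + p * (i - 1)) ?_ ?_
      · intro i hi
        have hi1 := Finset.mem_filter.mp (Finset.mem_coe.mp hi)
        have hi2 := Finset.mem_Icc.mp hi1.1
        refine Finset.mem_coe.mpr (Finset.mem_filter.mpr ⟨Finset.mem_Icc.mpr ⟨?_, ?_⟩, ?_, ?_⟩)
        · change 1 ≤ r + 1 + p * (i - 1)
          omega
        · change r + 1 + p * (i - 1) ≤ n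
          have h2 : p * (i - 1) + p = p * i := by
            obtain ⟨k, rfl⟩ : ∃ k, i = k + 1 := ⟨i - 1, by omega⟩
            simp
            ring
          have h3 : p * i ≤ p * (n / p) := Nat.mul_le_mul_left p hi2.2
          have h4 := Nat.mul_div_le n p
          omega
        · rw [hmap i hi2.1]
          have := dvd_add hrc (Dvd.intro ((i : ℤ) - 1) rfl : (p : ℤ) ∣ p * ((i : ℤ) - 1))
          have e : (r : ℤ) + 1 + p * ((i : ℤ) - 1) - c p = (r : ℤ) + 1 - c p + p * ((i : ℤ) - 1) := by ring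
          rw [e]
          exact this
        · intro q hq
          rw [hmap i hi2.1, key q hq]
          exact hi1.2 q hq
      · intro i hi j hj hij
        have hi2 := Finset.mem_Icc.mp (Finset.mem_filter.mp (Finset.mem_coe.mp hi)).1
        have hj2 := Finset.mem_Icc.mp (Finset.mem_filter.mp (Finset.mem_coe.mp hj)).1
        have h1 : p * (i - 1) = p * (j - 1) := by
          have : r + 1 + p * (i - 1) = r + 1 + p * (j - 1) := hij
          omega
        have h2 := Nat.eq_of_mul_eq_mul_left hp.pos h1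
        omega
    exact_mod_cast h1
  · have h1 : (m02B n c p).card ≤ F.card + 1 := by
      have hsub : m02B n c p ⊆ insert (r + 1 + p * (n / p)) (F.image (fun i => r + 1 + p * (i - 1))) := by
        intro j hj
        have hj1 := Finset.mem_filter.mp hj
        have hj2 := Finset.mem_Icc.mp hj1.1
        have hd : (p : ℤ) ∣ (j : ℤ) - (r + 1) := by
          have := dvd_sub hj1.2.1 hrc
          have e : (j : ℤ) - c p - ((r : ℤ) + 1 - c p) = (j : ℤ) - (r + 1) := by ring
          rw [e] at this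
          exact this
        obtain ⟨t, ht⟩ := hd
        have ht0 : 0 ≤ t := by
          by_contra hneg
          have h2 : t ≤ -1 := by omega
          have h3 : (p : ℤ) * t ≤ p * (-1) := mul_le_mul_of_nonneg_left h2 hp0.le
          have h4 : (r : ℤ) < p := by exact_mod_cast hr
          have h5 : (1 : ℤ) ≤ j := by exact_mod_cast hj2.1
          linarith
        obtain ⟨i, rfl⟩ := Int.eq_ofNat_of_zero_le ht0
        have hji : j = r + 1 + p * i := by
          zify
          linarith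
        have hin : i ≤ n / p := by
          rw [Nat.le_div_iff_mul_le hp.pos]
          have : j ≤ n := hj2.2
          have e : i * p = p * i := Nat.mul_comm _ _
          omega
        rcases Nat.lt_or_ge i (n / p) with hlt | hge
        · refine Finset.mem_insert_of_mem (Finset.mem_image.mpr ⟨i + 1, ?_, ?_⟩)
          · refine Finset.mem_filter.mpr ⟨Finset.mem_Icc.mpr ⟨by omega, by omega⟩, ?_⟩
            intro q hq
            rw [← key q hq]
            have h2 := hj1.2.2 q hq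
            rw [hji] at h2
            have e : ((r + 1 + p * i : ℕ) : ℤ) = (r : ℤ) + 1 + p * (((i + 1 : ℕ) : ℤ) - 1) := by
              push_cast
              ring
            rw [e] at h2
            exact h2
          · simp [hji]
        · have : i = n / p := le_antisymm hin hge
          rw [hji, this]
          exact Finset.mem_insert_self _ _
      calc (m02B n c p).card ≤ _ := Finset.card_le_card hsub
        _ ≤ (F.image (fun i => r + 1 + p * (i - 1))).card + 1 := Finset.card_insert_le _ _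
        _ ≤ F.card + 1 := Nat.add_le_add_right Finset.card_image_le 1
    exact_mod_cast h1

open Classical in
private theorem m02_sum (n : ℕ) {w z : ℕ} (hw : 2 ≤ w) (hwz : w ≤ z) (c : ℕ → ℤ) :
    Tc n w c = Tc n z c + ∑ p ∈ P w z, ((m02B n c p).card : ℝ) := by
  set Fw : Finset ℕ := (Finset.Icc 1 n).filter
    (fun j : ℕ => ∀ p ∈ P 2 w, ¬ (p : ℤ) ∣ (j : ℤ) - c p) with hFw
  set Fz : Finset ℕ := (Finset.Icc 1 n).filter
    (fun j : ℕ => ∀ p ∈ P 2 z, ¬ (p : ℤ) ∣ (j : ℤ) - c p) with hFz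
  have h1 : Tc n w c = (Fw.card : ℝ) := rfl
  have h2 : Tc n z c = (Fz.card : ℝ) := rfl
  rw [h1, h2]
  have hdisj : ∀ p ∈ P w z, ∀ q ∈ P w z, p ≠ q → Disjoint (m02B n c p) (m02B n c q) := by
    intro p hp q hq hpq
    rw [Finset.disjoint_left]
    intro j hj hj'
    have a1 := (Finset.mem_filter.mp hj).2
    have a2 := (Finset.mem_filter.mp hj').2
    have hp1 := m02_memP.mp hp
    have hq1 := m02_memP.mp hq
    rcases Nat.lt_or_ge p q with h | h
    · exact a2.2 p (m02_memP.mpr ⟨⟨hp1.2.two_le, h⟩, hp1.2⟩) a1.1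
    · have h' : q < p := lt_of_le_of_ne h (Ne.symm hpq)
      exact a1.2 q (m02_memP.mpr ⟨⟨hq1.2.two_le, h'⟩, hq1.2⟩) a2.1
  have hU : Fw = Fz ∪ (P w z).biUnion (m02B n c) := by
    ext j
    constructor
    · intro hj
      have hj1 := Finset.mem_filter.mp hj
      by_cases hz : ∀ p ∈ P 2 z, ¬ (p : ℤ) ∣ (j : ℤ) - c p
      · exact Finset.mem_union_left _ (Finset.mem_filter.mpr ⟨hj1.1, hz⟩)
      · refine Finset.mem_union_right _ ?_
        push Not at hz
        obtain ⟨p, hp, hpj⟩ := hz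
        have hne : ((P 2 z).filter (fun p : ℕ => (p : ℤ) ∣ (j : ℤ) - c p)).Nonempty :=
          ⟨p, Finset.mem_filter.mpr ⟨hp, hpj⟩⟩
        set p₀ := ((P 2 z).filter (fun p : ℕ => (p : ℤ) ∣ (j : ℤ) - c p)).min' hne with hp₀
        have hm := Finset.min'_mem _ hne
        rw [← hp₀] at hm
        have hm1 := Finset.mem_filter.mp hm
        have hm2 := m02_memP.mp hm1.1
        have hwp : w ≤ p₀ := by
          by_contra hcon
          exact hj1.2 p₀ (m02_memP.mpr ⟨⟨hm2.1.1, by omega⟩, hm2.2⟩) hm1.2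
        refine Finset.mem_biUnion.mpr ⟨p₀, m02_memP.mpr ⟨⟨hwp, hm2.1.2⟩, hm2.2⟩, ?_⟩
        refine Finset.mem_filter.mpr ⟨hj1.1, hm1.2, ?_⟩
        intro q hq hqj
        have hq1 := m02_memP.mp hq
        have hq2 : q ∈ (P 2 z).filter (fun p : ℕ => (p : ℤ) ∣ (j : ℤ) - c p) :=
          Finset.mem_filter.mpr ⟨m02_memP.mpr ⟨⟨hq1.1.1, lt_trans hq1.1.2 hm2.1.2⟩, hq1.2⟩, hqj⟩
        have := Finset.min'_le _ q hq2
        rw [← hp₀] at this
        omega
    · intro hj
      rcases Finset.mem_union.mp hj with h | h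
      · have h3 := Finset.mem_filter.mp h
        refine Finset.mem_filter.mpr ⟨h3.1, fun p hp => h3.2 p ?_⟩
        have hp1 := m02_memP.mp hp
        exact m02_memP.mpr ⟨⟨hp1.1.1, lt_of_lt_of_le hp1.1.2 hwz⟩, hp1.2⟩
      · obtain ⟨p, hp, hpj⟩ := Finset.mem_biUnion.mp h
        have h3 := Finset.mem_filter.mp hpj
        refine Finset.mem_filter.mpr ⟨h3.1, fun q hq => h3.2.2 q ?_⟩
        have hp1 := m02_memP.mp hp
        have hq1 := m02_memP.mp hq
        exact m02_memP.mpr ⟨⟨hq1.1.1, lt_of_lt_of_le hq1.1.2 hp1.1.1⟩, hq1.2⟩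
  have hD : Disjoint Fz ((P w z).biUnion (m02B n c)) := by
    rw [Finset.disjoint_left]
    intro j hj hj'
    obtain ⟨p, hp, hpj⟩ := Finset.mem_biUnion.mp hj'
    have h3 := Finset.mem_filter.mp hj
    have h4 := Finset.mem_filter.mp hpj
    have hp1 := m02_memP.mp hp
    exact h3.2 p (m02_memP.mpr ⟨⟨le_trans hw hp1.1.1, hp1.1.2⟩, hp1.2⟩) h4.2.1
  rw [hU, Finset.card_union_of_disjoint hD, Finset.card_biUnion hdisj]
  push_cast
  rfl

theorem buchT (n : ℕ) {w z : ℕ} (hw : 2 ≤ w) (hwz : w ≤ z) (c : ℕ → ℤ) :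
    ∃ c' : ℕ → ℕ → ℤ,
      Tc n w c - ∑ p ∈ P w z, (Tc (n / p) p (c' p) + 1) ≤ Tc n z c ∧
      Tc n z c ≤ Tc n w c - ∑ p ∈ P w z, Tc (n / p) p (c' p) := by
  have h : ∀ p : ℕ, ∃ c' : ℕ → ℤ, p.Prime → (Tc (n / p) p c' ≤ ((m02B n c p).card : ℝ) ∧
      ((m02B n c p).card : ℝ) ≤ Tc (n / p) p c' + 1) := by
    intro p
    by_cases hp : p.Prime
    · obtain ⟨c', h1⟩ := m02_one n c hp
      exact ⟨c', fun _ => h1⟩
    · exact ⟨c, fun h => absurd h hp⟩
  choose c' hc' using h
  refine ⟨c', ?_, ?_⟩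
  · have h1 : ∑ p ∈ P w z, ((m02B n c p).card : ℝ) ≤ ∑ p ∈ P w z, (Tc (n / p) p (c' p) + 1) :=
      Finset.sum_le_sum (fun p hp => (hc' p (m02_memP.mp hp).2).2)
    have h2 := m02_sum n hw hwz c
    linarith
  · have h1 : ∑ p ∈ P w z, Tc (n / p) p (c' p) ≤ ∑ p ∈ P w z, ((m02B n c p).card : ℝ) :=
      Finset.sum_le_sum (fun p hp => (hc' p (m02_memP.mp hp).2).1)
    have h2 := m02_sum n hw hwz c
    linarith

end Pool.Agent.Lib.MP_45349e_nt.JG
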