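import Pool.Agent.Lib.MP_45349e_nt.JG.Defs
import Pool.Agent.Lib.MP_45349e_nt.LS.Liou
import Pool.Agent.Lib.SW.SWFinal

/-!
# JG-M03 (60 min): the summatory function of the Liouville function, all exponents

PROOF. Exactly as `LS/Liou.lean` (read it; `Liou_id`, `Liou_M`): `Lsum Y = ∑_{d ≤ Y} M(Y / d^2)`, and
`|M(y)| ≤ C y / (log y)^A` (`SW.mu_sum A`, `y ≥ 2`). For `d ≤ Y^(1/4)`: `Y / d^2 ≥ √Y - 1`, sum over `d`
at most `C' Y / (log Y)^A`; for `d > Y^(1/4)`: `|M(Y / d^2)| ≤ Y / d^2`, sum at most `2 Y^(3/4)`. (There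
the exponent is 3 with Davenport's theorem; here `A` is any natural number.)
-/

open Finset

namespace Pool.Agent.Lib.MP_45349e_nt.JG

open Pool.Agent.Lib.MP_45349e_nt.LS (P lam Lsum V)
open Pool.Agent.Lib.MP_45349e_nt

theorem M03_M_bound (A : ℕ) : ∃ C : ℝ, 0 < C ∧ ∀ Y : ℕ, 2 ≤ Y →
    |LS.Liou_M Y| ≤ C * Y / (Real.log Y) ^ A := by
  obtain ⟨C, hC, h⟩ := Pool.Agent.Lib.SW.mu_sum A
  refine ⟨C, hC, fun Y hY => ?_⟩
  have h1 := h (Y : ℝ) (by exact_mod_cast hY)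
  rw [Nat.floor_natCast] at h1
  exact h1

theorem liouA (A : ℕ) : ∃ C : ℝ, 0 < C ∧ ∀ Y : ℕ, 2 ≤ Y →
    |Lsum Y| ≤ C * Y / (Real.log Y) ^ A := by
  obtain ⟨C, hC, hM⟩ := M03_M_bound A
  refine ⟨2 * 4 ^ A * C + 2 * 4 ^ A * (Nat.factorial A : ℝ) + 3 ^ A, by positivity,
    fun Y hY => ?_⟩
  have hYR : (2 : ℝ) ≤ Y := by exact_mod_cast hY
  have hL : 0 < Real.log Y := Real.log_pos (by linarith)
  have hL3 : 0 < Real.log Y ^ A := by positivity
  by_cases h16 : Y < 16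
  · have h1 : Real.log Y ≤ 3 := by
      have h2 : Real.log Y ≤ Real.log (2 ^ 4 : ℝ) := by
        apply Real.log_le_log (by linarith)
        have : (Y : ℝ) < 16 := by exact_mod_cast h16
        linarith
      rw [Real.log_pow] at h2
      have h3 := Real.log_two_lt_d9
      norm_num at h2
      linarith
    have h2 : Real.log Y ^ A ≤ 3 ^ A := pow_le_pow_left₀ hL.le h1 A
    refine (LS.Liou_Lsum_triv Y).trans ?_
    rw [le_div_iff₀ hL3]
    have h3 : (Y : ℝ) * Real.log Y ^ A ≤ Y * 3 ^ A := mul_le_mul_of_nonneg_left h2 (by linarith)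
    have h4 : 0 ≤ (2 * 4 ^ A * C + 2 * 4 ^ A * (Nat.factorial A : ℝ)) * (Y : ℝ) := by positivity
    linarith
  · set k := Nat.sqrt (Nat.sqrt Y) with hk
    have hk1 : k ^ 4 ≤ Y := by
      calc k ^ 4 = (k ^ 2) ^ 2 := by ring
        _ ≤ (Nat.sqrt Y) ^ 2 := Nat.pow_le_pow_left (Nat.sqrt_le' _) 2
        _ ≤ Y := Nat.sqrt_le' Y
    have hk2 : Y < (k + 1) ^ 4 := by
      have h1 : Nat.sqrt Y < (k + 1) ^ 2 := Nat.lt_succ_sqrt' (Nat.sqrt Y)
      have h2 : Y < (Nat.sqrt Y + 1) ^ 2 := Nat.lt_succ_sqrt' Y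
      calc Y < (Nat.sqrt Y + 1) ^ 2 := h2
        _ ≤ ((k + 1) ^ 2) ^ 2 := Nat.pow_le_pow_left h1 2
        _ = (k + 1) ^ 4 := by ring
    have hk3 : 2 ≤ k := by
      by_contra h
      have h1 : (k + 1) ^ 4 ≤ 2 ^ 4 := Nat.pow_le_pow_left (by omega) 4
      omega
    have hkY : k ≤ Y := le_trans (Nat.le_self_pow (by norm_num) k) hk1
    have hlogk : Real.log Y ≤ 4 * Real.log ((k + 1 : ℕ) : ℝ) := by
      have h1 : Real.log Y ≤ Real.log (((k + 1 : ℕ) : ℝ) ^ 4) := by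
        apply Real.log_le_log (by linarith)
        exact_mod_cast hk2.le
      rwa [Real.log_pow] at h1
    -- large divisors
    have hbig : Real.log Y ^ A ≤ 4 ^ A * (Nat.factorial A : ℝ) * ((k + 1 : ℕ) : ℝ) := by
      have h1 : 0 ≤ Real.log ((k + 1 : ℕ) : ℝ) := Real.log_natCast_nonneg _
      have h2 := Real.pow_div_factorial_le_exp _ h1 A
      have hf : (0 : ℝ) < (Nat.factorial A : ℝ) := by exact_mod_cast Nat.factorial_pos A
      rw [Real.exp_log (by positivity), div_le_iff₀ hf] at h2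
      calc Real.log Y ^ A ≤ (4 * Real.log ((k + 1 : ℕ) : ℝ)) ^ A := pow_le_pow_left₀ hL.le hlogk A
        _ = 4 ^ A * Real.log ((k + 1 : ℕ) : ℝ) ^ A := mul_pow _ _ _
        _ ≤ 4 ^ A * (((k + 1 : ℕ) : ℝ) * (Nat.factorial A : ℝ)) :=
            mul_le_mul_of_nonneg_left h2 (by positivity)
        _ = _ := by ring
    have hsplit : Finset.Icc 1 Y = Finset.Ioo 0 (k + 1) ∪ Finset.Ioo k (Y + 1) := by
      ext d
      rw [Finset.mem_union, Finset.mem_Icc, Finset.mem_Ioo, Finset.mem_Ioo]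
      omega
    have hdisj : Disjoint (Finset.Ioo 0 (k + 1)) (Finset.Ioo k (Y + 1)) := by
      rw [Finset.disjoint_left]
      intro d h1 h2
      rw [Finset.mem_Ioo] at h1 h2
      omega
    rw [LS.Liou_id, hsplit, Finset.sum_union hdisj]
    have hA : |∑ d ∈ Finset.Ioo 0 (k + 1), LS.Liou_M (Y / d ^ 2)| ≤
        2 * 4 ^ A * C * Y / Real.log Y ^ A := by
      have h1 : ∀ d ∈ Finset.Ioo 0 (k + 1), |LS.Liou_M (Y / d ^ 2)| ≤
          4 ^ A * C * Y / Real.log Y ^ A * ((d : ℝ) ^ 2)⁻¹ := by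
        intro d hd
        rw [Finset.mem_Ioo] at hd
        have hd2 : 0 < d ^ 2 := pow_pos hd.1 2
        set Z := Y / d ^ 2 with hZ
        have hZk : k ^ 2 ≤ Z := by
          rw [hZ, Nat.le_div_iff_mul_le hd2]
          calc k ^ 2 * d ^ 2 ≤ k ^ 2 * k ^ 2 :=
                Nat.mul_le_mul_left _ (Nat.pow_le_pow_left (by omega) 2)
            _ = k ^ 4 := by ring
            _ ≤ Y := hk1
        have hZ2 : 2 ≤ Z := by nlinarith
        have hZR : (2 : ℝ) ≤ Z := by exact_mod_cast hZ2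
        have hlogZ : Real.log Y ≤ 4 * Real.log Z := by
          have h2 : Real.log ((k + 1 : ℕ) : ℝ) ≤ Real.log Z := by
            apply Real.log_le_log (by positivity)
            have : k + 1 ≤ Z := by nlinarith
            exact_mod_cast this
          linarith
        have hLZ : 0 < Real.log Z := Real.log_pos (by linarith)
        have h3 := hM Z hZ2
        refine h3.trans ?_
        have h4 : (Z : ℝ) ≤ Y * ((d : ℝ) ^ 2)⁻¹ := by
          have h5 : ((Y / d ^ 2 : ℕ) : ℝ) ≤ (Y : ℝ) / ((d ^ 2 : ℕ) : ℝ) := Nat.cast_div_le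
          rw [Nat.cast_pow] at h5
          rw [← div_eq_mul_inv]
          exact h5
        have h5 : Real.log Y ^ A ≤ 4 ^ A * Real.log Z ^ A := by
          calc Real.log Y ^ A ≤ (4 * Real.log Z) ^ A := pow_le_pow_left₀ hL.le hlogZ A
            _ = _ := mul_pow _ _ _
        have hdR : (0 : ℝ) < (d : ℝ) ^ 2 := by exact_mod_cast hd2
        have h6 : C * Z / Real.log Z ^ A ≤ C * (Y * ((d : ℝ) ^ 2)⁻¹) / Real.log Z ^ A := by
          gcongr
        refine h6.trans ?_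
        rw [div_le_iff₀ (by positivity)]
        have h7 : 4 ^ A * C * Y / Real.log Y ^ A * ((d : ℝ) ^ 2)⁻¹ * Real.log Z ^ A =
            C * (Y * ((d : ℝ) ^ 2)⁻¹) * ((4 ^ A * Real.log Z ^ A) / Real.log Y ^ A) := by
          ring
        rw [h7]
        have h8 : 1 ≤ (4 ^ A * Real.log Z ^ A) / Real.log Y ^ A := by
          rw [one_le_div hL3]
          exact h5
        have h9 : 0 ≤ C * (Y * ((d : ℝ) ^ 2)⁻¹) := by positivity
        nlinarith
      refine (Finset.abs_sum_le_sum_abs _ _).trans ((Finset.sum_le_sum h1).trans ?_)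
      rw [← Finset.mul_sum]
      have h2 := sum_Ioo_inv_sq_le (α := ℝ) 0 (k + 1)
      rw [Nat.cast_zero, zero_add, div_one] at h2
      calc 4 ^ A * C * Y / Real.log Y ^ A * ∑ d ∈ Finset.Ioo 0 (k + 1), ((d : ℝ) ^ 2)⁻¹
          ≤ 4 ^ A * C * Y / Real.log Y ^ A * 2 := mul_le_mul_of_nonneg_left h2 (by positivity)
        _ = _ := by ring
    have hB : |∑ d ∈ Finset.Ioo k (Y + 1), LS.Liou_M (Y / d ^ 2)| ≤
        2 * 4 ^ A * (Nat.factorial A : ℝ) * Y / Real.log Y ^ A := by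
      have h1 : ∀ d ∈ Finset.Ioo k (Y + 1), |LS.Liou_M (Y / d ^ 2)| ≤ Y * ((d : ℝ) ^ 2)⁻¹ := by
        intro d _
        refine (LS.Liou_M_triv _).trans ?_
        have h5 : ((Y / d ^ 2 : ℕ) : ℝ) ≤ (Y : ℝ) / ((d ^ 2 : ℕ) : ℝ) := Nat.cast_div_le
        rw [Nat.cast_pow] at h5
        rw [← div_eq_mul_inv]
        exact h5
      refine (Finset.abs_sum_le_sum_abs _ _).trans ((Finset.sum_le_sum h1).trans ?_)
      rw [← Finset.mul_sum]
      have h2 := sum_Ioo_inv_sq_le (α := ℝ) k (Y + 1)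
      have hk0 : (0 : ℝ) < (k : ℝ) + 1 := by positivity
      rw [le_div_iff₀ hL3]
      calc (Y : ℝ) * (∑ d ∈ Finset.Ioo k (Y + 1), ((d : ℝ) ^ 2)⁻¹) * Real.log Y ^ A
          ≤ Y * (2 / (k + 1)) * (4 ^ A * (Nat.factorial A : ℝ) * ((k + 1 : ℕ) : ℝ)) := by
            rw [mul_assoc, mul_assoc]
            refine mul_le_mul_of_nonneg_left ?_ (by positivity)
            exact mul_le_mul h2 hbig hL3.le (by positivity)
        _ = 2 * 4 ^ A * (Nat.factorial A : ℝ) * Y := by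
            push_cast
            field_simp
    refine (abs_add_le _ _).trans ((add_le_add hA hB).trans ?_)
    rw [← add_div]
    refine div_le_div_of_nonneg_right ?_ hL3.le
    have h10 : (0 : ℝ) ≤ 3 ^ A * Y := by positivity
    linarith

end Pool.Agent.Lib.MP_45349e_nt.JG
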