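import Pool.Agent.Lib.MP_45349e_nt.JG.M03
import Pool.Agent.Lib.MP_45349e_nt.LS.LamB
import Pool.Agent.Lib.MP_45349e_nt.LS.Rough

/-!
# JG-M04 (90 min): the base of the model

PROOF. Fix `w ≥ 2`. For a finite set `S` of primes and a completely multiplicative `f`, the sum `F S n`
of `f` over the `m ≤ n` without prime factors in `S` satisfies
`F (S ∪ {p}) n = F S n - f p * F S (n / p)`. By induction on `S`: for `f = 1` it is `n ∏ (1 - 1/p) + O(1)`,
for `f = λ` it is `O(n / (log n)^6)`. `EE D w + OO D w` and `EE D w - OO D w` are the two sums.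
-/

open Finset

namespace Pool.Agent.Lib.MP_45349e_nt.JG

open Pool.Agent.Lib.MP_45349e_nt.LS (P lam Lsum V)

open Classical in
/-- the sum of `f` over the integers `m ≤ n` without prime factors in `S` -/
noncomputable def M04F (f : ℕ → ℝ) (S : Finset ℕ) (n : ℕ) : ℝ :=
  ∑ m ∈ Finset.Icc 1 n, if ∀ p ∈ S, ¬ p ∣ m then f m else 0

theorem M04_step (f : ℕ → ℝ) (hf : ∀ a b : ℕ, a ≠ 0 → b ≠ 0 → f (a * b) = f a * f b)
    (S : Finset ℕ) (hS : ∀ q ∈ S, q.Prime) (p : ℕ) (hp : p.Prime) (hpS : p ∉ S) (n : ℕ) :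
    M04F f (insert p S) n = M04F f S n - f p * M04F f S (n / p) := by
  classical
  unfold M04F
  have h1 : f p * ∑ m ∈ Finset.Icc 1 (n / p), (if ∀ q ∈ S, ¬ q ∣ m then f m else 0) =
      ∑ m ∈ (Finset.Icc 1 n).filter (fun m => p ∣ m), (if ∀ q ∈ S, ¬ q ∣ m then f m else 0) := by
    rw [Finset.mul_sum]
    apply Finset.sum_bij (fun m _ => p * m)
    · intro m hm
      rw [Finset.mem_Icc] at hm
      rw [Finset.mem_filter, Finset.mem_Icc]
      refine ⟨⟨Nat.mul_pos hp.pos hm.1, ?_⟩, Dvd.intro m rfl⟩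
      have := (Nat.le_div_iff_mul_le hp.pos).1 hm.2
      rw [mul_comm]
      exact this
    · intro a _ b _ h
      exact Nat.eq_of_mul_eq_mul_left hp.pos h
    · intro k hk
      rw [Finset.mem_filter, Finset.mem_Icc] at hk
      obtain ⟨⟨h1, h2⟩, m, rfl⟩ := hk
      refine ⟨m, ?_, rfl⟩
      rw [Finset.mem_Icc]
      refine ⟨Nat.pos_of_ne_zero ?_,
        (Nat.le_div_iff_mul_le hp.pos).2 (by rw [mul_comm]; exact h2)⟩
      rintro rfl
      simp at h1
    · intro m hm
      rw [Finset.mem_Icc] at hm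
      have hiff : (∀ q ∈ S, ¬ q ∣ p * m) ↔ ∀ q ∈ S, ¬ q ∣ m := by
        refine forall₂_congr fun q hq => ?_
        have hqp := hS q hq
        rw [hqp.dvd_mul]
        have hne : ¬ q ∣ p := by
          intro h
          have := (Nat.prime_dvd_prime_iff_eq hqp hp).1 h
          exact hpS (this ▸ hq)
        tauto
      simp only [hiff]
      rw [hf p m hp.ne_zero (by omega)]
      split_ifs
      · rfl
      · rw [mul_zero]
  rw [h1, Finset.sum_filter, ← Finset.sum_sub_distrib]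
  apply Finset.sum_congr rfl
  intro m _
  by_cases hpm : p ∣ m
  · have h2 : ¬ (∀ q ∈ insert p S, ¬ q ∣ m) := fun h => h p (Finset.mem_insert_self _ _) hpm
    rw [if_neg h2, if_pos hpm, sub_self]
  · have h2 : (∀ q ∈ insert p S, ¬ q ∣ m) ↔ ∀ q ∈ S, ¬ q ∣ m := by
      rw [Finset.forall_mem_insert]
      tauto
    simp only [h2, if_neg hpm, sub_zero]

theorem M04_triv (f : ℕ → ℝ) (hf : ∀ n, |f n| ≤ 1) (S : Finset ℕ) (n : ℕ) :
    |M04F f S n| ≤ n := by
  classical
  unfold M04F
  refine (Finset.abs_sum_le_sum_abs _ _).trans ?_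
  have h1 : ∀ m ∈ Finset.Icc 1 n, |if ∀ p ∈ S, ¬ p ∣ m then f m else 0| ≤ (1 : ℝ) := by
    intro m _
    split_ifs
    · exact hf m
    · simp
  refine (Finset.sum_le_sum h1).trans ?_
  simp

theorem M04_one (S : Finset ℕ) (hS : ∀ q ∈ S, q.Prime) : ∃ C : ℝ, 0 < C ∧ ∀ n : ℕ,
    |M04F (fun _ => 1) S n - n * ∏ p ∈ S, (1 - 1 / (p : ℝ))| ≤ C := by
  classical
  induction S using Finset.induction_on with
  | empty =>
    refine ⟨1, one_pos, fun n => ?_⟩
    unfold M04F
    simp
  | insert p S hpS ih =>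
    obtain ⟨C, hC, h⟩ := ih (fun q hq => hS q (Finset.mem_insert_of_mem hq))
    have hp := hS p (Finset.mem_insert_self p S)
    have hpR : (0 : ℝ) < p := by exact_mod_cast hp.pos
    refine ⟨2 * C + 1, by linarith, fun n => ?_⟩
    rw [M04_step (fun _ => 1) (fun _ _ _ _ => (one_mul _).symm) S
      (fun q hq => hS q (Finset.mem_insert_of_mem hq)) p hp hpS n, Finset.prod_insert hpS]
    set Q := ∏ q ∈ S, (1 - 1 / (q : ℝ)) with hQ
    have hQ0 : 0 ≤ Q := Finset.prod_nonneg fun q hq => by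
      have h2 : (1 : ℝ) ≤ q := by
        exact_mod_cast (hS q (Finset.mem_insert_of_mem hq)).one_le
      have h3 : 1 / (q : ℝ) ≤ 1 := by
        rw [div_le_one (by linarith)]
        exact h2
      linarith
    have hQ1 : Q ≤ 1 := Finset.prod_le_one (fun q hq => by
      have h2 : (1 : ℝ) ≤ q := by
        exact_mod_cast (hS q (Finset.mem_insert_of_mem hq)).one_le
      have h3 : 1 / (q : ℝ) ≤ 1 := by
        rw [div_le_one (by linarith)]
        exact h2
      linarith) (fun q hq => by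
      have h3 : 0 ≤ 1 / (q : ℝ) := by positivity
      linarith)
    have a1 := h n
    have a2 := h (n / p)
    have hY1 : (((n / p : ℕ) : ℝ)) ≤ (n : ℝ) / p := Nat.cast_div_le
    have hY2 : (n : ℝ) / p - 1 ≤ ((n / p : ℕ) : ℝ) := by
      have h1 : n < p * (n / p + 1) := Nat.lt_mul_div_succ _ hp.pos
      have h2 : (n : ℝ) < p * (((n / p : ℕ) : ℝ) + 1) := by exact_mod_cast h1
      have h3 : (n : ℝ) / p < ((n / p : ℕ) : ℝ) + 1 := by
        rw [div_lt_iff₀ hpR]; linarith
      linarith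
    have a3 : |(((n / p : ℕ) : ℝ) - (n : ℝ) / p) * Q| ≤ 1 := by
      rw [abs_mul, abs_of_nonneg hQ0]
      have : |((n / p : ℕ) : ℝ) - (n : ℝ) / p| ≤ 1 := abs_le.2 ⟨by linarith, by linarith⟩
      calc |((n / p : ℕ) : ℝ) - (n : ℝ) / p| * Q ≤ 1 * 1 :=
            mul_le_mul this hQ1 hQ0 (by norm_num)
        _ = 1 := by norm_num
    have e1 : M04F (fun _ => 1) S n - 1 * M04F (fun _ => 1) S (n / p) -
        n * ((1 - 1 / (p : ℝ)) * Q) =
        (M04F (fun _ => 1) S n - n * Q) -
          (M04F (fun _ => 1) S (n / p) - ((n / p : ℕ) : ℝ) * Q) -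
          (((n / p : ℕ) : ℝ) - (n : ℝ) / p) * Q := by
      ring
    rw [e1]
    have b1 := abs_le.1 a1
    have b2 := abs_le.1 a2
    have b3 := abs_le.1 a3
    rw [abs_le]
    constructor <;> linarith [b1.1, b1.2, b2.1, b2.2, b3.1, b3.2]

theorem M04_lam (S : Finset ℕ) (hS : ∀ q ∈ S, q.Prime) : ∃ C : ℝ, 0 < C ∧ ∀ n : ℕ, 2 ≤ n →
    |M04F lam S n| ≤ C * n / (Real.log n) ^ 6 := by
  classical
  induction S using Finset.induction_on with
  | empty =>
    obtain ⟨C, hC, h⟩ := liouA 6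
    refine ⟨C, hC, fun n hn => ?_⟩
    have e : M04F lam ∅ n = Lsum n := by
      unfold M04F Lsum
      simp
    rw [e]
    exact h n hn
  | insert p S hpS ih =>
    obtain ⟨C, hC, h⟩ := ih (fun q hq => hS q (Finset.mem_insert_of_mem hq))
    have hp := hS p (Finset.mem_insert_self p S)
    have hpR : (1 : ℝ) < p := by exact_mod_cast hp.one_lt
    have hlp : 0 < Real.log p := Real.log_pos hpR
    refine ⟨C + 365 * C + 64 * (Real.log p) ^ 6, by positivity, fun n hn => ?_⟩
    have hnR : (2 : ℝ) ≤ n := by exact_mod_cast hn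
    have hL : 0 < Real.log n := Real.log_pos (by linarith)
    have hL6 : 0 < Real.log n ^ 6 := by positivity
    rw [M04_step lam LS.lam_mul S
      (fun q hq => hS q (Finset.mem_insert_of_mem hq)) p hp hpS n, LS.lam_prime p hp]
    have a1 := h n hn
    have a2 : |M04F lam S (n / p)| ≤ (365 * C + 64 * (Real.log p) ^ 6) * n / Real.log n ^ 6 := by
      by_cases hc : p ^ 2 ≤ n
      · have h2 : p ≤ n / p := by
          rw [Nat.le_div_iff_mul_le hp.pos, ← pow_two]
          exact hc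
        have h3 : 2 ≤ n / p := hp.two_le.trans h2
        have h4 := h (n / p) h3
        set m := n / p with hm
        have hmR : (2 : ℝ) ≤ m := by exact_mod_cast h3
        have hLm : 0 < Real.log m := Real.log_pos (by linarith)
        have hnm : n ≤ m ^ 3 := by
          have h5 : n < p * (m + 1) := Nat.lt_mul_div_succ _ hp.pos
          have h6 : p * (m + 1) ≤ m * (m + 1) := Nat.mul_le_mul_right _ h2
          have h7 : m * (m + 1) ≤ m ^ 3 := by
            have : m + 1 ≤ m * m := by nlinarith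
            calc m * (m + 1) ≤ m * (m * m) := Nat.mul_le_mul_left _ this
              _ = m ^ 3 := by ring
          omega
        have hmp : (m : ℝ) * p ≤ n := by
          exact_mod_cast Nat.div_mul_le_self n p
        have hmn : 2 * (m : ℝ) ≤ n := by
          have h2p : (2 : ℝ) ≤ p := by exact_mod_cast hp.two_le
          nlinarith
        have hlog3 : Real.log n ≤ 3 * Real.log m := by
          have h5 : Real.log n ≤ Real.log ((m : ℝ) ^ 3) :=
            Real.log_le_log (by linarith) (by exact_mod_cast hnm)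
          rw [Real.log_pow] at h5
          push_cast at h5
          exact h5
        refine h4.trans ?_
        have h5 : Real.log n ^ 6 ≤ 729 * Real.log m ^ 6 := by
          calc Real.log n ^ 6 ≤ (3 * Real.log m) ^ 6 := pow_le_pow_left₀ hL.le hlog3 6
            _ = 729 * Real.log m ^ 6 := by ring
        rw [div_le_div_iff₀ (by positivity) hL6]
        have h6 : C * m * Real.log n ^ 6 ≤ C * (n / 2) * (729 * Real.log m ^ 6) := by
          have h7 : C * (m : ℝ) ≤ C * (n / 2) := mul_le_mul_of_nonneg_left (by linarith) hC.le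
          exact mul_le_mul h7 h5 hL6.le (by positivity)
        have h8 : 0 ≤ C * n * Real.log m ^ 6 := by positivity
        have h9 : 0 ≤ (Real.log p) ^ 6 * n * Real.log m ^ 6 := by positivity
        nlinarith
      · have h2 : Real.log n ≤ 2 * Real.log p := by
          have h3 : (n : ℝ) ≤ (p : ℝ) ^ 2 := by
            have : n ≤ p ^ 2 := by omega
            exact_mod_cast this
          have h5 : Real.log n ≤ Real.log ((p : ℝ) ^ 2) := Real.log_le_log (by linarith) h3
          rw [Real.log_pow] at h5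
          push_cast at h5
          exact h5
        have h5 : Real.log n ^ 6 ≤ 64 * Real.log p ^ 6 := by
          calc Real.log n ^ 6 ≤ (2 * Real.log p) ^ 6 := pow_le_pow_left₀ hL.le h2 6
            _ = 64 * Real.log p ^ 6 := by ring
        have h6 := M04_triv lam (fun k => (LS.abs_lam k).le) S (n / p)
        have h7 : ((n / p : ℕ) : ℝ) ≤ n := by exact_mod_cast Nat.div_le_self n p
        refine (h6.trans h7).trans ?_
        rw [le_div_iff₀ hL6]
        have h8 : (n : ℝ) * Real.log n ^ 6 ≤ n * (64 * Real.log p ^ 6) :=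
          mul_le_mul_of_nonneg_left h5 (by linarith)
        have h9 : 0 ≤ C * (n : ℝ) := by positivity
        nlinarith
    have e1 : M04F lam S n - -1 * M04F lam S (n / p) = M04F lam S n + M04F lam S (n / p) := by ring
    rw [e1]
    refine (abs_add_le _ _).trans ?_
    have e2 : (C + 365 * C + 64 * (Real.log p) ^ 6) * n / Real.log n ^ 6 =
      C * n / Real.log n ^ 6 + (365 * C + 64 * (Real.log p) ^ 6) * n / Real.log n ^ 6 := by ring
    rw [e2]
    exact add_le_add a1 a2

theorem M04_rough (w m : ℕ) (_hm : 1 ≤ m) : Rough w m ↔ ∀ p ∈ P 2 w, ¬ p ∣ m := by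
  unfold Rough P
  constructor
  · intro h p hp hd
    rw [Finset.mem_filter, Finset.mem_Ico] at hp
    have := h p hp.2 hd
    omega
  · intro h p hp hd
    by_contra hc
    refine h p ?_ hd
    rw [Finset.mem_filter, Finset.mem_Ico]
    exact ⟨⟨hp.two_le, by omega⟩, hp⟩

theorem M04_add (D : ℝ) (w : ℕ) : EE D w + OO D w = M04F (fun _ => 1) (P 2 w) ⌊D⌋₊ := by
  classical
  unfold EE OO M04F
  rw [Finset.card_filter, Finset.card_filter, Nat.cast_sum, Nat.cast_sum, ← Finset.sum_add_distrib]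
  apply Finset.sum_congr rfl
  intro m hm
  rw [Finset.mem_Icc] at hm
  have hr := M04_rough w m hm.1
  by_cases h1 : Rough w m
  · rw [if_pos (hr.1 h1)]
    by_cases h2 : Even (ArithmeticFunction.cardFactors m)
    · have h3 : ¬ Odd (ArithmeticFunction.cardFactors m) := Nat.not_odd_iff_even.2 h2
      simp [h1, h2]
    · have h3 : Odd (ArithmeticFunction.cardFactors m) := Nat.not_even_iff_odd.1 h2
      simp [h1, h2, h3]
  · rw [if_neg (fun h => h1 (hr.2 h))]
    simp [h1]

theorem M04_sub (D : ℝ) (w : ℕ) : EE D w - OO D w = M04F lam (P 2 w) ⌊D⌋₊ := by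
  classical
  unfold EE OO M04F
  rw [Finset.card_filter, Finset.card_filter, Nat.cast_sum, Nat.cast_sum, ← Finset.sum_sub_distrib]
  apply Finset.sum_congr rfl
  intro m hm
  rw [Finset.mem_Icc] at hm
  have hr := M04_rough w m hm.1
  by_cases h1 : Rough w m
  · rw [if_pos (hr.1 h1)]
    unfold LS.lam
    by_cases h2 : Even (ArithmeticFunction.cardFactors m)
    · have h3 : ¬ Odd (ArithmeticFunction.cardFactors m) := Nat.not_odd_iff_even.2 h2
      rw [h2.neg_one_pow]
      simp [h1, h2]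
    · have h3 : Odd (ArithmeticFunction.cardFactors m) := Nat.not_even_iff_odd.1 h2
      rw [h3.neg_one_pow]
      simp [h1, h2, h3]
  · rw [if_neg (fun h => h1 (hr.2 h))]
    simp [h1]

theorem M04_log (D : ℝ) (hD : 2 ≤ D) : (Real.log D) ^ 6 ≤ 720 * D := by
  have h1 : 0 ≤ Real.log D := Real.log_nonneg (by linarith)
  have h2 := Real.pow_div_factorial_le_exp _ h1 6
  rw [Real.exp_log (by linarith)] at h2
  have h3 : ((Nat.factorial 6 : ℕ) : ℝ) = 720 := by norm_num [Nat.factorial]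
  rw [h3, div_le_iff₀ (by norm_num)] at h2
  linarith

theorem M04_two (w : ℕ) (_hw : 2 ≤ w) : ∃ C : ℝ, 0 < C ∧ ∀ D : ℝ, 2 ≤ D →
    |EE D w + OO D w - V w * D| ≤ C * D / (Real.log D) ^ 6 ∧
    |EE D w - OO D w| ≤ C * D / (Real.log D) ^ 6 := by
  have hS : ∀ q ∈ P 2 w, q.Prime := by
    intro q hq
    unfold P at hq
    exact (Finset.mem_filter.1 hq).2
  obtain ⟨C1, hC1, h1⟩ := M04_one (P 2 w) hS
  obtain ⟨C2, hC2, h2⟩ := M04_lam (P 2 w) hS
  refine ⟨720 * (C1 + 1) + 64 * C2, by positivity, fun D hD => ?_⟩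
  have hL : 0 < Real.log D := Real.log_pos (by linarith)
  have hL6 : 0 < Real.log D ^ 6 := by positivity
  have hlog := M04_log D hD
  set n := ⌊D⌋₊ with hn
  have hn1 : (n : ℝ) ≤ D := Nat.floor_le (by linarith)
  have hn2 : D < n + 1 := Nat.lt_floor_add_one D
  have hn3 : 2 ≤ n := Nat.le_floor (by exact_mod_cast hD)
  have hnR : (2 : ℝ) ≤ n := by exact_mod_cast hn3
  have hLn : 0 < Real.log n := Real.log_pos (by linarith)
  constructor
  · rw [M04_add, ← hn]
    have a1 := h1 n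
    have hV : V w = ∏ p ∈ P 2 w, (1 - 1 / (p : ℝ)) := rfl
    rw [← hV] at a1
    have hV0 := LS.V_pos w
    have hV1 := LS.V_le_one w
    have a2 : |M04F (fun _ => 1) (P 2 w) n - V w * D| ≤ C1 + 1 := by
      have b1 := abs_le.1 a1
      have b2 : (D - n) * V w ≤ 1 := by
        have : (D - n) * V w ≤ 1 * 1 := mul_le_mul (by linarith) hV1 hV0.le (by norm_num)
        linarith
      have b3 : 0 ≤ (D - n) * V w := mul_nonneg (by linarith) hV0.le
      rw [abs_le]
      constructor <;> nlinarith [b1.1, b1.2]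
    refine a2.trans ?_
    rw [le_div_iff₀ hL6]
    have a3 : (C1 + 1) * Real.log D ^ 6 ≤ (C1 + 1) * (720 * D) :=
      mul_le_mul_of_nonneg_left hlog (by linarith)
    have a4 : 0 ≤ C2 * D := by positivity
    nlinarith
  · rw [M04_sub, ← hn]
    refine (h2 n hn3).trans ?_
    have a1 : Real.log D ≤ 2 * Real.log n := by
      have b1 : D ≤ (n : ℝ) ^ 2 := by nlinarith
      have b2 := Real.log_le_log (by linarith) b1
      rw [Real.log_pow] at b2
      push_cast at b2
      exact b2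
    have a2 : Real.log D ^ 6 ≤ 64 * Real.log n ^ 6 := by
      calc Real.log D ^ 6 ≤ (2 * Real.log n) ^ 6 := pow_le_pow_left₀ hL.le a1 6
        _ = 64 * Real.log n ^ 6 := by ring
    rw [div_le_div_iff₀ (by positivity) hL6]
    have a3 : C2 * n * Real.log D ^ 6 ≤ C2 * D * (64 * Real.log n ^ 6) := by
      have b1 : C2 * (n : ℝ) ≤ C2 * D := mul_le_mul_of_nonneg_left hn1 hC2.le
      exact mul_le_mul b1 a2 hL6.le (by positivity)
    have a4 : 0 ≤ (720 * (C1 + 1)) * D * Real.log n ^ 6 := by positivity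
    nlinarith

theorem baseEO (w : ℕ) (hw : 2 ≤ w) : ∃ C : ℝ, 0 < C ∧ ∀ D : ℝ, 2 ≤ D →
    |2 * EE D w - V w * D| ≤ C * D / (Real.log D) ^ 6 ∧
    |2 * OO D w - V w * D| ≤ C * D / (Real.log D) ^ 6 := by
  obtain ⟨C, hC, h⟩ := M04_two w hw
  refine ⟨2 * C, by linarith, fun D hD => ?_⟩
  obtain ⟨h1, h2⟩ := h D hD
  have e : 2 * C * D / (Real.log D) ^ 6 = C * D / (Real.log D) ^ 6 + C * D / (Real.log D) ^ 6 := by
    ring
  rw [e]
  have b1 := abs_le.1 h1
  have b2 := abs_le.1 h2
  constructor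
  · rw [abs_le]
    constructor <;> linarith [b1.1, b1.2, b2.1, b2.2]
  · rw [abs_le]
    constructor <;> linarith [b1.1, b1.2, b2.1, b2.2]

theorem M04_base (w : ℕ) (X : ℝ → ℝ) (hX0 : ∀ D, 0 ≤ X D) (hX : ∀ D : ℝ, 0 ≤ D → X D ≤ D)
    (C : ℝ) (hC : 0 < C)
    (h : ∀ D : ℝ, 2 ≤ D → |2 * X D - V w * D| ≤ C * D / (Real.log D) ^ 6) :
    ∀ D : ℝ, 2 ≤ D → |X D - kap * X (D / kap)| ≤ (50 * C + 10) * D / (Real.log D) ^ 6 := by
  intro D hD
  have hk : kap = 21 / 20 := rfl
  have hL : 0 < Real.log D := Real.log_pos (by linarith)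
  have hL6 : 0 < Real.log D ^ 6 := by positivity
  have hDk : D / kap = 20 / 21 * D := by rw [hk]; ring
  rw [hDk, hk]
  by_cases hc : 2 ≤ 20 / 21 * D
  · have h1 := h D hD
    have h2 := h (20 / 21 * D) hc
    have hL' : 0 < Real.log (20 / 21 * D) := Real.log_pos (by linarith)
    have a1 : Real.log D ≤ 2 * Real.log (20 / 21 * D) := by
      have b1 : D ≤ (20 / 21 * D) ^ 2 := by nlinarith
      have b2 := Real.log_le_log (by linarith) b1
      rw [Real.log_pow] at b2
      push_cast at b2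
      exact b2
    have a2 : Real.log D ^ 6 ≤ 64 * Real.log (20 / 21 * D) ^ 6 := by
      calc Real.log D ^ 6 ≤ (2 * Real.log (20 / 21 * D)) ^ 6 := pow_le_pow_left₀ hL.le a1 6
        _ = 64 * Real.log (20 / 21 * D) ^ 6 := by ring
    have a3 : C * (20 / 21 * D) / Real.log (20 / 21 * D) ^ 6 ≤ 64 * C * (20 / 21 * D) / Real.log D ^ 6 := by
      rw [div_le_div_iff₀ (by positivity) hL6]
      have b1 : C * (20 / 21 * D) * Real.log D ^ 6 ≤
          C * (20 / 21 * D) * (64 * Real.log (20 / 21 * D) ^ 6) :=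
        mul_le_mul_of_nonneg_left a2 (by positivity)
      linarith
    have h3 := h2.trans a3
    have e : (50 * C + 10) * D / (Real.log D) ^ 6 = 1 / 2 * (C * D / (Real.log D) ^ 6) +
        21 / 40 * (64 * C * (20 / 21 * D) / Real.log D ^ 6) + (35 / 2 * C + 10) * D / (Real.log D) ^ 6 := by
      ring
    have e2 : 0 ≤ (35 / 2 * C + 10) * D / (Real.log D) ^ 6 := by positivity
    rw [e]
    have b1 := abs_le.1 h1
    have b3 := abs_le.1 h3
    rw [abs_le]
    constructor <;> linarith [b1.1, b1.2, b3.1, b3.2]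
  · push Not at hc
    have h1 : D < 21 / 10 := by linarith
    have h2 : Real.log D ≤ 1 := by
      have b1 : D ≤ Real.exp 1 := by
        have := Real.exp_one_gt_d9
        linarith
      have b2 := Real.log_le_log (by linarith) b1
      rwa [Real.log_exp] at b2
    have h3 : Real.log D ^ 6 ≤ 1 := pow_le_one₀ hL.le h2
    have a1 := hX0 D
    have a2 := hX D (by linarith)
    have a3 := hX0 (20 / 21 * D)
    have a4 := hX (20 / 21 * D) (by linarith)
    have a5 : |X D - 21 / 20 * X (20 / 21 * D)| ≤ D := by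
      rw [abs_le]
      constructor <;> linarith
    refine a5.trans ?_
    rw [le_div_iff₀ hL6]
    have a6 : D * Real.log D ^ 6 ≤ D * 1 := mul_le_mul_of_nonneg_left h3 (by linarith)
    have a7 : 0 ≤ C * D := by positivity
    nlinarith

theorem M04_EE (w : ℕ) : (∀ D, 0 ≤ EE D w) ∧ ∀ D : ℝ, 0 ≤ D → EE D w ≤ D := by
  classical
  refine ⟨fun D => Nat.cast_nonneg _, fun D hD => ?_⟩
  unfold EE
  have h1 : ((Finset.Icc 1 ⌊D⌋₊).filter
    (fun m : ℕ => Rough w m ∧ Even (ArithmeticFunction.cardFactors m))).card ≤ ⌊D⌋₊ := by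
    refine (Finset.card_filter_le _ _).trans ?_
    simp
  have h2 : ((((Finset.Icc 1 ⌊D⌋₊).filter
    (fun m : ℕ => Rough w m ∧ Even (ArithmeticFunction.cardFactors m))).card : ℕ) : ℝ) ≤
      ((⌊D⌋₊ : ℕ) : ℝ) := by exact_mod_cast h1
  exact h2.trans (Nat.floor_le hD)

theorem M04_OO (w : ℕ) : (∀ D, 0 ≤ OO D w) ∧ ∀ D : ℝ, 0 ≤ D → OO D w ≤ D := by
  classical
  refine ⟨fun D => Nat.cast_nonneg _, fun D hD => ?_⟩
  unfold OO
  have h1 : ((Finset.Icc 1 ⌊D⌋₊).filter
    (fun m : ℕ => Rough w m ∧ Odd (ArithmeticFunction.cardFactors m))).card ≤ ⌊D⌋₊ := by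
    refine (Finset.card_filter_le _ _).trans ?_
    simp
  have h2 : ((((Finset.Icc 1 ⌊D⌋₊).filter
    (fun m : ℕ => Rough w m ∧ Odd (ArithmeticFunction.cardFactors m))).card : ℕ) : ℝ) ≤
      ((⌊D⌋₊ : ℕ) : ℝ) := by exact_mod_cast h1
  exact h2.trans (Nat.floor_le hD)

theorem baseG (w : ℕ) (hw : 2 ≤ w) : ∃ C : ℝ, 0 < C ∧ ∀ D : ℝ, 2 ≤ D →
    |Gm D w| ≤ C * D / (Real.log D) ^ 6 ∧ |Gp D w| ≤ C * D / (Real.log D) ^ 6 := by
  obtain ⟨C, hC, h⟩ := baseEO w hw
  refine ⟨50 * C + 10, by positivity, fun D hD => ⟨?_, ?_⟩⟩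
  · exact M04_base w (fun D => EE D w) (M04_EE w).1 (M04_EE w).2 C hC (fun D hD => (h D hD).1) D hD
  · have h1 := M04_base w (fun D => OO D w) (M04_OO w).1 (M04_OO w).2 C hC
      (fun D hD => (h D hD).2) D hD
    rw [abs_sub_comm] at h1
    exact h1

end Pool.Agent.Lib.MP_45349e_nt.JG
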