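import Pool.Agent.Lib.MP_45349e_nt.JG.M04

/-!
# JG-M05 (60 min): the base of the configurations

PROOF of `baseT`. Let `W = ∏_{p < w} p` and `a` with `a ≡ c p mod p` for all primes `p < w` (CRT,
`Nat.chineseRemainderOfFinset` or `Ideal`-free: as in `AA/Cover.lean`). `j` avoids all classes iff
`(j - a, W) = 1`. Among `W` consecutive integers exactly `φ(W) = V w * W` do. So
`|Tc n w c - V w n| ≤ W`. (Or by induction over the primes / inclusion-exclusion: `Tc n w c =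
∑_{d ∣ W} μ(d) #{j ≤ n : j ≡ a mod d}` and each count is `n/d + O(1)`.)
`srcW`: `baseT` and `baseEO`; `|⌊D⌋ - D| ≤ 1`; `1 ≤ C D / (log D)^6` for `D ≥ 2`.
-/

open Finset

namespace Pool.Agent.Lib.MP_45349e_nt.JG

open Pool.Agent.Lib.MP_45349e_nt.LS (P lam Lsum V)

open Classical in
/-- the number of the `j ∈ [1, n]` in a class modulo `M` -/
theorem ap_card (M : ℕ) (hM : 1 ≤ M) (b : ℤ) (n : ℕ) :
    |((((Finset.Icc 1 n).filter (fun j : ℕ => (M : ℤ) ∣ (j : ℤ) - b)).card : ℕ) : ℝ) -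
      (n : ℝ) / M| ≤ 1 := by
  have hM0 : (0 : ℤ) < M := by exact_mod_cast hM
  set v : ℕ := (b % M).toNat with hv
  have hvb : (v : ℤ) = b % M := Int.toNat_of_nonneg (Int.emod_nonneg _ hM0.ne')
  have hset : (Finset.Icc 1 n).filter (fun j : ℕ => (M : ℤ) ∣ (j : ℤ) - b) =
      (Finset.Ioc 0 n).filter (fun j : ℕ => j ≡ v [MOD M]) := by
    ext j
    simp only [Finset.mem_filter, Finset.mem_Icc, Finset.mem_Ioc]
    have hiff : ((M : ℤ) ∣ (j : ℤ) - b) ↔ j ≡ v [MOD M] := by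
      rw [← Int.natCast_modEq_iff, hvb]
      constructor
      · intro h
        have h1 : b ≡ (j : ℤ) [ZMOD M] := Int.modEq_iff_dvd.mpr h
        exact (h1.symm).trans (Int.mod_modEq b M).symm
      · intro h
        have h1 : (j : ℤ) ≡ b [ZMOD M] := h.trans (Int.mod_modEq b M)
        exact Int.modEq_iff_dvd.mp h1.symm
    rw [hiff]
    constructor
    · rintro ⟨⟨h1, h2⟩, h3⟩; exact ⟨⟨by omega, h2⟩, h3⟩
    · rintro ⟨⟨h1, h2⟩, h3⟩; exact ⟨⟨by omega, h2⟩, h3⟩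
  have hcard := Nat.Ioc_filter_modEq_card 0 n (show 0 < M from hM) v
  rw [← hset] at hcard
  set x : ℚ := ((n : ℚ) - v) / (M : ℚ) with hx
  set y : ℚ := (((0 : ℕ) : ℚ) - v) / (M : ℚ) with hy
  have hMq : (0 : ℚ) < M := by exact_mod_cast hM
  have hxy : x - y = (n : ℚ) / M := by
    rw [hx, hy]
    field_simp
    push_cast
    ring
  have hnM : (0 : ℚ) ≤ (n : ℚ) / M := by positivity
  have hle : ⌊y⌋ ≤ ⌊x⌋ := Int.floor_le_floor (by linarith)
  rw [max_eq_left (by omega)] at hcard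
  have h1 := Int.floor_le x
  have h2 := Int.lt_floor_add_one x
  have h3 := Int.floor_le y
  have h4 := Int.lt_floor_add_one y
  set cc : ℕ := ((Finset.Icc 1 n).filter (fun j : ℕ => (M : ℤ) ∣ (j : ℤ) - b)).card with hcc
  have hcq : (cc : ℚ) = (⌊x⌋ : ℚ) - (⌊y⌋ : ℚ) := by
    have : ((cc : ℤ) : ℚ) = ((⌊x⌋ - ⌊y⌋ : ℤ) : ℚ) := by exact_mod_cast congrArg (Int.cast : ℤ → ℚ) hcard
    push_cast at this
    exact this
  have hq : |(cc : ℚ) - (n : ℚ) / M| ≤ 1 := by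
    rw [abs_le]
    constructor <;> linarith
  have hr : |((cc : ℚ) : ℝ) - (((n : ℚ) / M : ℚ) : ℝ)| ≤ ((1 : ℚ) : ℝ) := by
    exact_mod_cast hq
  push_cast at hr
  exact hr

open Classical in
/-- inclusion-exclusion: one class for every prime of `S` removed from a class modulo `M` -/
theorem sift_ap (c : ℕ → ℤ) (n : ℕ) (S : Finset ℕ) : (∀ p ∈ S, p.Prime) → ∀ (M : ℕ), 1 ≤ M →
    (∀ p ∈ S, Nat.Coprime M p) → ∀ b : ℤ,
    |((((Finset.Icc 1 n).filter (fun j : ℕ => (M : ℤ) ∣ (j : ℤ) - b ∧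
        ∀ p ∈ S, ¬ (p : ℤ) ∣ (j : ℤ) - c p)).card : ℕ) : ℝ) -
      (n : ℝ) / M * ∏ p ∈ S, (1 - 1 / (p : ℝ))| ≤ 2 ^ S.card := by
  induction S using Finset.induction_on with
  | empty =>
    intro _ M hM _ b
    simp only [Finset.notMem_empty, false_imp_iff, implies_true, and_true, Finset.prod_empty,
      mul_one, Finset.card_empty, pow_zero]
    exact ap_card M hM b n
  | insert q S hq ih =>
    intro hS M hM hcop b
    have hS' : ∀ p ∈ S, p.Prime := fun p hp => hS p (Finset.mem_insert_of_mem hp)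
    have hqp : q.Prime := hS q (Finset.mem_insert_self _ _)
    have hMq : Nat.Coprime M q := hcop q (Finset.mem_insert_self _ _)
    have hcop' : ∀ p ∈ S, Nat.Coprime M p := fun p hp => hcop p (Finset.mem_insert_of_mem hp)
    have hMqcop : ∀ p ∈ S, Nat.Coprime (M * q) p := by
      intro p hp
      refine Nat.Coprime.mul_left (hcop' p hp) ?_
      refine (Nat.coprime_primes hqp (hS' p hp)).mpr ?_
      rintro rfl
      exact hq hp
    -- the class modulo `M * q`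
    have hic : IsCoprime (M : ℤ) (q : ℤ) := Nat.isCoprime_iff_coprime.mpr hMq
    obtain ⟨u, v, huv⟩ := hic
    set b' : ℤ := b + u * M * (c q - b) with hb'
    have hdiv : ∀ j : ℤ, ((M : ℤ) ∣ j - b ∧ (q : ℤ) ∣ j - c q) ↔ ((M * q : ℕ) : ℤ) ∣ j - b' := by
      intro j
      have e1 : j - b' = (j - b) - M * (u * (c q - b)) := by rw [hb']; ring
      have e2 : j - b' = (j - c q) + q * (v * (c q - b)) := by
        have h1 : u * (M : ℤ) = 1 - v * q := by linarith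
        rw [hb', h1]
        ring
      push_cast
      constructor
      · rintro ⟨h1, h2⟩
        refine IsCoprime.mul_dvd ⟨u, v, huv⟩ ?_ ?_
        · rw [e1]; exact dvd_sub h1 (dvd_mul_right _ _)
        · rw [e2]; exact dvd_add h2 (dvd_mul_right _ _)
      · intro h
        constructor
        · have h1 : (M : ℤ) ∣ j - b' := (dvd_mul_right _ _).trans h
          rw [e1] at h1
          exact (dvd_sub_left (dvd_mul_right _ _)).mp h1
        · have h1 : (q : ℤ) ∣ j - b' := (dvd_mul_left _ _).trans h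
          rw [e2] at h1
          exact (dvd_add_left (dvd_mul_right _ _)).mp h1
    have hsplit : ((Finset.Icc 1 n).filter (fun j : ℕ => (M : ℤ) ∣ (j : ℤ) - b ∧
        ∀ p ∈ S, ¬ (p : ℤ) ∣ (j : ℤ) - c p)).card =
        ((Finset.Icc 1 n).filter (fun j : ℕ => ((M * q : ℕ) : ℤ) ∣ (j : ℤ) - b' ∧
        ∀ p ∈ S, ¬ (p : ℤ) ∣ (j : ℤ) - c p)).card +
        ((Finset.Icc 1 n).filter (fun j : ℕ => (M : ℤ) ∣ (j : ℤ) - b ∧
        ∀ p ∈ insert q S, ¬ (p : ℤ) ∣ (j : ℤ) - c p)).card := by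
      rw [← Finset.card_filter_add_card_filter_not
        (s := (Finset.Icc 1 n).filter (fun j : ℕ => (M : ℤ) ∣ (j : ℤ) - b ∧
        ∀ p ∈ S, ¬ (p : ℤ) ∣ (j : ℤ) - c p)) (fun j : ℕ => (q : ℤ) ∣ (j : ℤ) - c q)]
      rw [Finset.filter_filter, Finset.filter_filter]
      congr 2
      · refine Finset.filter_congr fun j _ => ?_
        rw [← hdiv]
        tauto
      · refine Finset.filter_congr fun j _ => ?_
        rw [Finset.forall_mem_insert]
        tauto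
    have h1 := ih hS' M hM hcop' b
    have h2 := ih hS' (M * q) (Nat.mul_pos hM hqp.pos) hMqcop b'
    rw [Finset.card_insert_of_notMem hq, Finset.prod_insert hq]
    have hq0 : (q : ℝ) ≠ 0 := by exact_mod_cast hqp.ne_zero
    have hM0 : (M : ℝ) ≠ 0 := by
      have : M ≠ 0 := by omega
      exact_mod_cast this
    set A : ℝ := ∏ p ∈ S, (1 - 1 / (p : ℝ)) with hA
    have hprod : (n : ℝ) / M * ((1 - 1 / (q : ℝ)) * A) =
        (n : ℝ) / M * A - (n : ℝ) / ((M * q : ℕ) : ℝ) * A := by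
      push_cast
      field_simp
    rw [hprod]
    have hsr : (((Finset.Icc 1 n).filter (fun j : ℕ => (M : ℤ) ∣ (j : ℤ) - b ∧
        ∀ p ∈ insert q S, ¬ (p : ℤ) ∣ (j : ℤ) - c p)).card : ℝ) =
        (((Finset.Icc 1 n).filter (fun j : ℕ => (M : ℤ) ∣ (j : ℤ) - b ∧
        ∀ p ∈ S, ¬ (p : ℤ) ∣ (j : ℤ) - c p)).card : ℝ) -
        (((Finset.Icc 1 n).filter (fun j : ℕ => ((M * q : ℕ) : ℤ) ∣ (j : ℤ) - b' ∧
        ∀ p ∈ S, ¬ (p : ℤ) ∣ (j : ℤ) - c p)).card : ℝ) := by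
      rw [hsplit]
      push_cast
      ring
    rw [hsr, pow_succ]
    rw [abs_le] at h1 h2 ⊢
    constructor <;> linarith [h1.1, h1.2, h2.1, h2.2]

theorem baseT (w : ℕ) : ∃ C : ℝ, 0 < C ∧ ∀ (n : ℕ) (c : ℕ → ℤ), |Tc n w c - V w * n| ≤ C := by
  classical
  refine ⟨2 ^ (P 2 w).card, by positivity, fun n c => ?_⟩
  have h := sift_ap c n (P 2 w) (fun p hp => (Finset.mem_filter.mp hp).2) 1 le_rfl
    (fun p _ => Nat.coprime_one_left p) 0
  have hset : (Finset.Icc 1 n).filter (fun j : ℕ => ((1 : ℕ) : ℤ) ∣ (j : ℤ) - 0 ∧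
      ∀ p ∈ P 2 w, ¬ (p : ℤ) ∣ (j : ℤ) - c p) =
      (Finset.Icc 1 n).filter (fun j : ℕ => ∀ p ∈ P 2 w, ¬ (p : ℤ) ∣ (j : ℤ) - c p) := by
    refine Finset.filter_congr fun j _ => ?_
    simp
  rw [hset] at h
  have e : V w * (n : ℝ) = (n : ℝ) / ((1 : ℕ) : ℝ) * ∏ p ∈ P 2 w, (1 - 1 / (p : ℝ)) := by
    unfold V
    push_cast
    ring
  unfold Tc
  rw [e]
  convert h using 4

/-- `(log D)^6 ≤ 6^6 D` -/
theorem log_six_le {D : ℝ} (hD : 2 ≤ D) : (Real.log D) ^ 6 ≤ 6 ^ 6 * D := by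
  have hD0 : 0 ≤ D := by linarith
  have h := Real.log_le_rpow_div hD0 (by norm_num : (0 : ℝ) < 1 / 6)
  have hl : 0 ≤ Real.log D := Real.log_nonneg (by linarith)
  have h2 := pow_le_pow_left₀ hl h 6
  have e : (D ^ (1 / 6 : ℝ) / (1 / 6)) ^ 6 = 6 ^ 6 * D := by
    rw [div_pow, ← Real.rpow_natCast, ← Real.rpow_mul hD0]
    norm_num
    ring
  rwa [e] at h2

theorem srcW (w : ℕ) (hw : 2 ≤ w) : ∃ C : ℝ, 0 < C ∧ ∀ D : ℝ, 2 ≤ D → ∀ c : ℕ → ℤ,
    |Tc ⌊D⌋₊ w c - 2 * EE D w| ≤ C * D / (Real.log D) ^ 6 ∧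
    |Tc ⌊D⌋₊ w c - 2 * OO D w| ≤ C * D / (Real.log D) ^ 6 := by
  obtain ⟨C1, hC1, h1⟩ := baseT w
  obtain ⟨C2, hC2, h2⟩ := baseEO w hw
  refine ⟨C2 + (C1 + 1) * 6 ^ 6, by positivity, fun D hD c => ?_⟩
  have hD0 : 0 < D := by linarith
  have hl : 0 < Real.log D := Real.log_pos (by linarith)
  have hl6 : 0 < (Real.log D) ^ 6 := by positivity
  have hone : 1 ≤ 6 ^ 6 * D / (Real.log D) ^ 6 := by
    rw [le_div_iff₀ hl6, one_mul]
    exact log_six_le hD
  have hV0 : 0 ≤ V w := by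
    unfold V
    refine Finset.prod_nonneg fun p hp => ?_
    have h2p : (2 : ℝ) ≤ p := by
      exact_mod_cast (Finset.mem_filter.mp hp).2.two_le
    have : 1 / (p : ℝ) ≤ 1 / 2 := one_div_le_one_div_of_le (by norm_num) h2p
    linarith
  have hV1 : V w ≤ 1 := by
    unfold V
    refine Finset.prod_le_one (fun p hp => ?_) (fun p hp => ?_)
    · have h2p : (2 : ℝ) ≤ p := by
        exact_mod_cast (Finset.mem_filter.mp hp).2.two_le
      have : 1 / (p : ℝ) ≤ 1 / 2 := one_div_le_one_div_of_le (by norm_num) h2p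
      linarith
    · have : 0 ≤ 1 / (p : ℝ) := by positivity
      linarith
  have hfl1 : (⌊D⌋₊ : ℝ) ≤ D := Nat.floor_le hD0.le
  have hfl2 : D < ⌊D⌋₊ + 1 := Nat.lt_floor_add_one D
  have h3 : |V w * (⌊D⌋₊ : ℝ) - V w * D| ≤ 1 := by
    rw [← mul_sub, abs_mul, abs_of_nonneg hV0]
    have h4 : |(⌊D⌋₊ : ℝ) - D| ≤ 1 := by
      rw [abs_le]
      constructor <;> linarith
    calc V w * |(⌊D⌋₊ : ℝ) - D| ≤ 1 * 1 := mul_le_mul hV1 h4 (abs_nonneg _) (by norm_num)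
      _ = 1 := by ring
  have h5 := h1 ⌊D⌋₊ c
  obtain ⟨h6, h7⟩ := h2 D hD
  have hC : (C1 + 1) ≤ (C1 + 1) * (6 ^ 6 * D / (Real.log D) ^ 6) :=
    le_mul_of_one_le_right (by positivity) hone
  have hsum : C2 * D / (Real.log D) ^ 6 + (C1 + 1) * (6 ^ 6 * D / (Real.log D) ^ 6) =
      (C2 + (C1 + 1) * 6 ^ 6) * D / (Real.log D) ^ 6 := by
    field_simp
  rw [← hsum]
  constructor
  · rw [abs_le] at *
    constructor <;> linarith [h3.1, h3.2, h5.1, h5.2, h6.1, h6.2]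
  · rw [abs_le] at *
    constructor <;> linarith [h3.1, h3.2, h5.1, h5.2, h7.1, h7.2]

end Pool.Agent.Lib.MP_45349e_nt.JG
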