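import Pool.Agent.Lib.MP_45349e_nt.JG.Bas
import Pool.Agent.Lib.MP_45349e_nt.JG.M01
import Pool.Agent.Lib.MP_45349e_nt.JG.M02

/-!
# JG-M06 (90 min): Theorem I, the induction

PROOF. Strong induction on `⌊D⌋₊` (or on `n` with `D < 2^n`: `D / p ≤ D / 2`). For `B ≤ D < B^2`:
`0 ≤ Tc ≤ D`, `0 ≤ 2 OO, 2 EE ≤ 2 D`, (hb1), (hb2). Let `D ≥ B^2`, `B ≥ w^6`.
(C+): `z' = min z (zs D)`; `w ≤ z'` (`w^3 ≤ D`). `Tc _ z c ≤ Tc _ z' c ≤` (buchT, between `w` and `z'`)
`Tc _ w c - ∑_{p ∈ P w z'} Tc (⌊D⌋/p) p (c' p)`, `⌊D⌋/p = ⌊D/p⌋`. For `p < zs D`: `p^3 ≤ D`, `p^2 ≤ D/p`,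
`D/p ≥ D^(2/3) ≥ B` (`(D/p)^3 ≥ D^2 ≥ B^4 ≥ B^3`), so (C-) of `(D/p, p)` holds (`w ≤ p`): `Tc (⌊D/p⌋) p _ ≥
2 EE (D/p) p - Um (D/p) p`. With `buchO`: `∑ 2 EE (D/p) p = 2 OO D w - 2 OO D z'`. So
`Tc ≤ Tc _ w c - 2 OO D w + 2 OO D z' + ∑ Um (D/p) p ≤ src D + 2 OO D z' + ∑ Um ≤ 2 OO D z' + Up D z`.
(C-): `z^2 ≤ D`. `Tc _ z c ≥ Tc _ w c - ∑_{p ∈ P w z} (Tc (⌊D/p⌋) p (c' p) + 1)`; `p < z`, `p^2 ≤ D`,
`D/p ≥ √D ≥ B`; (C+) of `(D/p, p)`: `Tc ≤ 2 OO (D/p) (min p (zs (D/p))) + Up (D/p) p`.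
CLAIM `OO (D/p) (min p (zs (D/p))) ≤ OO (D/p) p + piw w p`: if `y := zs (D/p) < p`, the `m ≤ D/p`,
`y`-rough, `Ω` odd, not `p`-rough are primes in `[y, p)`: `Ω(m) ≥ 3` would give `m ≥ y^3 > D/p`, so
`Ω(m) = 1`, `m` prime, `m ≥ y`, `m < p`; and `y ≥ w` as `D/p ≥ B ≥ w^6`.
So `Tc ≥ 2 EE D w - src D - ∑ 2 OO (D/p) p - ∑ (1 + 2 piw w p) - ∑ Up (D/p) p =
2 EE D z - src D - (piw w z)^2 - ∑ Up (D/p) p` (`buchE`, `sum_piw`) `≥ 2 EE D z - Um D z`.
-/

open Finset

namespace Pool.Agent.Lib.MP_45349e_nt.JG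

open Pool.Agent.Lib.MP_45349e_nt.LS (P lam Lsum V)

/-- comparison of `OO` at `min p (zs X)` and at `p` -/
theorem OO_min_le {X : ℝ} {w p : ℕ} (hX : 0 ≤ X) (hw : w < zs X) :
    OO X (min p (zs X)) ≤ OO X p + piw w p := by
  classical
  rcases le_or_gt p (zs X) with h | h
  · rw [min_eq_left h]
    have := piw_nonneg w p
    linarith
  · rw [min_eq_right h.le]
    have hsub : (Finset.Icc 1 ⌊X⌋₊).filter
          (fun m : ℕ => Rough (zs X) m ∧ Odd (ArithmeticFunction.cardFactors m)) ⊆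
        ((Finset.Icc 1 ⌊X⌋₊).filter
          (fun m : ℕ => Rough p m ∧ Odd (ArithmeticFunction.cardFactors m))) ∪ P w p := by
      intro m hm
      rw [Finset.mem_filter, Finset.mem_Icc] at hm
      obtain ⟨⟨hm1, hmX⟩, hr, hodd⟩ := hm
      rw [Finset.mem_union, Finset.mem_filter, Finset.mem_Icc]
      by_cases hp : Rough p m
      · exact Or.inl ⟨⟨hm1, hmX⟩, hp, hodd⟩
      right
      unfold Rough at hp
      push Not at hp
      obtain ⟨q, hq, hqm, hqp⟩ := hp
      -- `Ω(m) = 1`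
      have hlen : (Nat.primeFactorsList m).length = ArithmeticFunction.cardFactors m :=
        (ArithmeticFunction.cardFactors_apply).symm
      have hprod : (Nat.primeFactorsList m).prod = m := Nat.prod_primeFactorsList (by omega)
      have hpow : (zs X) ^ (Nat.primeFactorsList m).length ≤ (Nat.primeFactorsList m).prod := by
        refine List.pow_card_le_prod _ _ fun r hr' => ?_
        exact hr r (Nat.prime_of_mem_primeFactorsList hr') (Nat.dvd_of_mem_primeFactorsList hr')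
      rw [hlen, hprod] at hpow
      have hzs1 : 1 ≤ zs X := by unfold zs; omega
      have hlt3 : ArithmeticFunction.cardFactors m < 3 := by
        by_contra hc
        push Not at hc
        have h1 : (zs X) ^ 3 ≤ m := (Nat.pow_le_pow_right hzs1 hc).trans hpow
        have h2 : (m : ℝ) ≤ X := (Nat.le_floor_iff hX).mp hmX
        have h3 := zs_cube hX
        have h4 : ((zs X : ℕ) : ℝ) ^ 3 ≤ m := by exact_mod_cast h1
        linarith
      have hone : ArithmeticFunction.cardFactors m = 1 := by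
        obtain ⟨k, hk⟩ := hodd
        omega
      have hmp : m.Prime := ArithmeticFunction.cardFactors_eq_one_iff_prime.mp hone
      have hqm' : q = m := (Nat.prime_dvd_prime_iff_eq hq hmp).mp hqm
      rw [mem_P]
      refine ⟨?_, by omega, hmp⟩
      have := hr m hmp (dvd_refl m)
      omega
    have hc := (Finset.card_le_card hsub).trans (Finset.card_union_le _ _)
    unfold OO piw
    exact_mod_cast hc

theorem indI {w : ℕ} (hw : 2 ≤ w) {B : ℝ} (hB : (w : ℝ) ^ 6 ≤ B) (src : ℝ → ℝ)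
    (um up : ℝ → ℕ → ℝ)
    (hs : ∀ D : ℝ, B ≤ D → ∀ c : ℕ → ℤ,
      |Tc ⌊D⌋₊ w c - 2 * EE D w| ≤ src D ∧ |Tc ⌊D⌋₊ w c - 2 * OO D w| ≤ src D)
    (hRm : ∀ D : ℝ, B ^ 2 ≤ D → ∀ z : ℕ, w ≤ z → (z : ℝ) ^ 2 ≤ D →
      src D + (piw w z) ^ 2 + ∑ p ∈ P w z, up (D / p) p ≤ um D z)
    (hRp : ∀ D : ℝ, B ^ 2 ≤ D → ∀ z : ℕ, w ≤ z →
      src D + ∑ p ∈ P w (min z (zs D)), um (D / p) p ≤ up D z)
    (hb1 : ∀ D : ℝ, B ≤ D → D < B ^ 2 → ∀ z : ℕ, w ≤ z → (z : ℝ) ^ 2 ≤ D → 2 * D ≤ um D z)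
    (hb2 : ∀ D : ℝ, B ≤ D → D < B ^ 2 → ∀ z : ℕ, w ≤ z → D ≤ up D z) :
    ∀ D : ℝ, B ≤ D → ∀ z : ℕ, w ≤ z → ∀ c : ℕ → ℤ,
      Tc ⌊D⌋₊ z c ≤ 2 * OO D (min z (zs D)) + up D z ∧
      ((z : ℝ) ^ 2 ≤ D → 2 * EE D z - um D z ≤ Tc ⌊D⌋₊ z c) := by
  have hwr : (2 : ℝ) ≤ w := by exact_mod_cast hw
  have hB64 : (64 : ℝ) ≤ B := by
    have : (2 : ℝ) ^ 6 ≤ (w : ℝ) ^ 6 := pow_le_pow_left₀ (by norm_num) hwr 6
    linarith
  have hB0 : (0 : ℝ) < B := by linarith
  have hw3 : (w : ℝ) ^ 3 ≤ B := by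
    have h1 : (w : ℝ) ^ 3 ≤ (w : ℝ) ^ 6 := pow_le_pow_right₀ (by linarith) (by norm_num)
    linarith
  intro D hD
  induction hn : ⌊D⌋₊ using Nat.strong_induction_on generalizing D with
  | _ n ih =>
    intro z hz c
    have hD0 : 0 < D := lt_of_lt_of_le hB0 hD
    have hD0' : 0 ≤ D := hD0.le
    have hn1 : 1 ≤ n := by
      rw [← hn]
      exact Nat.le_floor (by push_cast; linarith)
    have hnD : (n : ℝ) ≤ D := by
      rw [← hn]
      exact Nat.floor_le hD0'
    rcases lt_or_ge D (B ^ 2) with hlt | hge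
    · constructor
      · have h1 := Tc_le n z c
        have h2 := OO_nonneg D (min z (zs D))
        have h3 := hb2 D hD hlt z hz
        linarith
      · intro hz2
        have h1 := Tc_nonneg n z c
        have h2 := EE_le hD0' z
        have h3 := hb1 D hD hlt z hz hz2
        linarith
    · -- `D ≥ B ^ 2`
      have hfl : ∀ p : ℕ, ⌊D / p⌋₊ = n / p := fun p => by rw [floor_div, hn]
      have hlt : ∀ p : ℕ, p.Prime → n / p < n := fun p hp => Nat.div_lt_self (by omega) hp.one_lt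
      constructor
      · -- upper bound
        set z' := min z (zs D) with hz'
        have hwz : w < zs D := (lt_zs hD0' w).mpr (hw3.trans hD)
        have hwz' : w ≤ z' := le_min hz hwz.le
        obtain ⟨c', -, hc'⟩ := buchT n hw hwz' c
        have h1 := Tc_anti (min_le_left z (zs D)) n c
        rw [← hz'] at h1
        have h2 := buchO D hw hwz'
        have h3 : Tc n w c ≤ 2 * OO D w + src D := by
          have := (hs D hD c).2
          rw [hn] at this
          have := (abs_le.mp this).2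
          linarith
        have h4 : ∑ p ∈ P w z', (2 * EE (D / p) p - um (D / p) p) ≤
            ∑ p ∈ P w z', Tc (n / p) p (c' p) := by
          refine Finset.sum_le_sum fun p hp => ?_
          rw [mem_P] at hp
          obtain ⟨hwp, hpz, hpp⟩ := hp
          have hp0 : (0 : ℝ) < p := by exact_mod_cast hpp.pos
          have hp3 : (p : ℝ) ^ 3 ≤ D :=
            (lt_zs hD0' p).mp (lt_of_lt_of_le hpz (min_le_right _ _))
          have hBp : B * p ≤ D := by
            refine le_of_pow_le_pow_left₀ (n := 3) (by norm_num) hD0' ?_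
            have h5 : B ^ 3 * (p : ℝ) ^ 3 ≤ B ^ 3 * D :=
              mul_le_mul_of_nonneg_left hp3 (by positivity)
            have h6 : B ^ 3 ≤ D ^ 2 := by
              have h7 : (B ^ 2) ^ 2 ≤ D ^ 2 := pow_le_pow_left₀ (by positivity) hge 2
              have h8 : B ^ 3 ≤ B ^ 4 := pow_le_pow_right₀ (by linarith) (by norm_num)
              nlinarith [h7, h8]
            have h9 : B ^ 3 * D ≤ D ^ 2 * D := mul_le_mul_of_nonneg_right h6 hD0'
            calc (B * p) ^ 3 = B ^ 3 * (p : ℝ) ^ 3 := by ring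
              _ ≤ B ^ 3 * D := h5
              _ ≤ D ^ 2 * D := h9
              _ = D ^ 3 := by ring
          have hBD : B ≤ D / p := by rwa [le_div_iff₀ hp0]
          have hp2 : (p : ℝ) ^ 2 ≤ D / p := by
            rw [le_div_iff₀ hp0]
            calc (p : ℝ) ^ 2 * p = (p : ℝ) ^ 3 := by ring
              _ ≤ D := hp3
          have := (ih (n / p) (hlt p hpp) (D / p) hBD (hfl p) p hwp (c' p)).2 hp2
          exact this
        rw [Finset.sum_sub_distrib, ← Finset.mul_sum] at h4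
        have h5 := hRp D hge z hz
        rw [← hz'] at h5
        linarith
      · -- lower bound
        intro hz2
        obtain ⟨c', hc', -⟩ := buchT n hw hz c
        have h2 := buchE D hw hz
        have h3 : 2 * EE D w - src D ≤ Tc n w c := by
          have := (hs D hD c).1
          rw [hn] at this
          have := (abs_le.mp this).1
          linarith
        have h4 : ∑ p ∈ P w z, (Tc (n / p) p (c' p) + 1) ≤
            ∑ p ∈ P w z, (2 * OO (D / p) p + ((1 + 2 * piw w p) + up (D / p) p)) := by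
          refine Finset.sum_le_sum fun p hp => ?_
          rw [mem_P] at hp
          obtain ⟨hwp, hpz, hpp⟩ := hp
          have hp0 : (0 : ℝ) < p := by exact_mod_cast hpp.pos
          have hpz' : (p : ℝ) ≤ z := by exact_mod_cast hpz.le
          have hp2 : (p : ℝ) ^ 2 ≤ D := (pow_le_pow_left₀ hp0.le hpz' 2).trans hz2
          have hBp : B * p ≤ D := by
            refine le_of_pow_le_pow_left₀ (n := 2) (by norm_num) hD0' ?_
            calc (B * p) ^ 2 = B ^ 2 * (p : ℝ) ^ 2 := by ring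
              _ ≤ D * D := mul_le_mul hge hp2 (by positivity) hD0'
              _ = D ^ 2 := by ring
          have hBD : B ≤ D / p := by rwa [le_div_iff₀ hp0]
          have hX0 : 0 ≤ D / p := by positivity
          have h5 := (ih (n / p) (hlt p hpp) (D / p) hBD (hfl p) p hwp (c' p)).1
          have h6 : w < zs (D / p) := (lt_zs hX0 w).mpr (hw3.trans hBD)
          have h7 := OO_min_le (p := p) hX0 h6
          linarith
        have h8 : ∑ p ∈ P w z, (2 * OO (D / p) p + ((1 + 2 * piw w p) + up (D / p) p)) =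
            2 * ∑ p ∈ P w z, OO (D / p) p + ((piw w z) ^ 2 + ∑ p ∈ P w z, up (D / p) p) := by
          rw [Finset.sum_add_distrib, Finset.sum_add_distrib, sum_piw, ← Finset.mul_sum]
        rw [h8] at h4
        have h5 := hRm D hge z hz hz2
        linarith

end Pool.Agent.Lib.MP_45349e_nt.JG
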