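import Pool.Agent.Lib.MP_45349e_nt.JG.Defs
import Pool.Agent.Lib.SW.SWFinal

/-!
# JG-M07 (90 min): the prime number theorem with two terms

PROOF of `pnt2`. `SW.pnt k` (`k = 4`): `|ψ(x) - x| ≤ C x / (log x)^4`, `x ≥ 2`. `θ(x) = ∑_{p ≤ x} log p`:
`0 ≤ ψ - θ ≤ C √x log x` or so (prime powers: Mathlib has `Chebyshev.psi`, `Chebyshev.theta`,
`Chebyshev.abs_psi_sub_theta_le...`; or bound directly the number of prime powers `p^j ≤ x`, `j ≥ 2`, by
`√x log x`). So `|θ(x) - x| ≤ C x / (log x)^3`. Partial summation: `π(x) = θ(x)/log x +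
∫_2^x θ(t) / (t (log t)^2) dt`, hence `|π(x) - x / log x - ∫_2^x dt / (log t)^2| ≤ C x / (log x)^4 + C +
∫_2^x C dt / (log t)^5 ≤ C' x / (log x)^3`, and `|∫_2^x dt/(log t)^2 - x/(log x)^2| ≤ C x / (log x)^3`
(antiderivative: `d/dt (t / (log t)^2) = 1/(log t)^2 - 2/(log t)^3`).
The other three follow.
-/

open Finset

namespace Pool.Agent.Lib.MP_45349e_nt.JG

open Pool.Agent.Lib.MP_45349e_nt.LS (P lam Lsum V)

private lemma m7_logpos {x : ℝ} (hx : 2 ≤ x) : 0 < Real.log x := Real.log_pos (by linarith)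

private lemma m7_log2 {x : ℝ} (hx : 2 ≤ x) : 1 / 2 ≤ Real.log x := by
  have h1 := Real.log_two_gt_d9
  have h2 := Real.log_le_log (by norm_num) hx
  linarith

private lemma m7_theta : ∃ C : ℝ, 0 < C ∧ ∀ x : ℝ, 2 ≤ x →
    |Chebyshev.theta x - x| ≤ C * x / (Real.log x) ^ 3 := by
  obtain ⟨C, hC, h⟩ := Pool.Agent.Lib.SW.theta_ap 3 1 one_pos
  refine ⟨C, hC, fun x hx => ?_⟩
  have h1 := h 1 0 le_rfl (Nat.coprime_one_right 0) x hx
  rw [Nat.cast_one, Real.one_rpow, mul_one, Nat.totient_one, Nat.cast_one, div_one] at h1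
  have h2 : ∑ n ∈ (Finset.Icc 1 ⌊x⌋₊).filter (fun n => n.Prime ∧ n ≡ 0 [MOD 1]), Real.log n =
      Chebyshev.theta x := by
    rw [Chebyshev.theta_eq_sum_Icc]
    apply Finset.sum_congr _ (fun _ _ => rfl)
    ext n
    simp only [Finset.mem_filter, Finset.mem_Icc, Nat.modEq_one, and_true]
    constructor
    · rintro ⟨⟨_, h3⟩, h4⟩
      exact ⟨⟨Nat.zero_le _, h3⟩, h4⟩
    · rintro ⟨⟨_, h3⟩, h4⟩
      exact ⟨⟨h4.one_lt.le, h3⟩, h4⟩
  rw [h2] at h1
  exact h1

private lemma m7_pc (t : ℝ) : pc t = (Nat.primeCounting ⌊t⌋₊ : ℝ) := by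
  unfold pc
  congr 1
  rw [Nat.primeCounting, Nat.primeCounting', Nat.count_eq_card_filter_range]
  congr 1
  ext n
  simp only [Finset.mem_filter, Finset.mem_Icc, Finset.mem_range]
  constructor
  · rintro ⟨⟨_, h3⟩, h4⟩
    exact ⟨by omega, h4⟩
  · rintro ⟨h3, h4⟩
    exact ⟨⟨h4.one_lt.le, by omega⟩, h4⟩

/-- an explicit function whose derivative is at least `(log t)^(-3)` -/
private noncomputable def m7H (t : ℝ) : ℝ := 2 * t / (Real.log t) ^ 3 + 2000 * √t

private lemma m7_der2 {t : ℝ} (ht : 2 ≤ t) :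
    HasDerivAt (fun t : ℝ => t / (Real.log t) ^ 2) (1 / (Real.log t) ^ 2 - 2 / (Real.log t) ^ 3) t := by
  have h0 : t ≠ 0 := by linarith
  have h1 := (m7_logpos ht).ne'
  have h2 := (hasDerivAt_id t).div ((Real.hasDerivAt_log h0).pow 2) (pow_ne_zero 2 h1)
  refine h2.congr_deriv ?_
  simp only [Pi.pow_apply, id, Nat.cast_ofNat]
  field_simp
  ring

private lemma m7_derH {t : ℝ} (ht : 2 ≤ t) :
    HasDerivAt m7H (2 / (Real.log t) ^ 3 - 6 / (Real.log t) ^ 4 + 1000 / √t) t := by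
  have h0 : t ≠ 0 := by linarith
  have h1 := (m7_logpos ht).ne'
  have hs : √t ≠ 0 := (Real.sqrt_pos.2 (by linarith)).ne'
  have h2 := (((hasDerivAt_id t).const_mul 2).div ((Real.hasDerivAt_log h0).pow 3)
    (pow_ne_zero 3 h1)).add ((Real.hasDerivAt_sqrt h0).const_mul 2000)
  refine h2.congr_deriv ?_
  simp only [Pi.pow_apply, id, Nat.cast_ofNat]
  field_simp
  ring

private lemma m7_derH_ge {t : ℝ} (ht : 2 ≤ t) :
    1 / (Real.log t) ^ 3 ≤ 2 / (Real.log t) ^ 3 - 6 / (Real.log t) ^ 4 + 1000 / √t := by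
  have h1 := m7_logpos ht
  have h2 := m7_log2 ht
  have hs : 0 < √t := Real.sqrt_pos.2 (by linarith)
  rcases le_total 6 (Real.log t) with h6 | h6
  · have h3 : 6 / (Real.log t) ^ 4 ≤ 1 / (Real.log t) ^ 3 := by
      rw [div_le_div_iff₀ (by positivity) (by positivity)]
      have h4 : (Real.log t) ^ 4 = Real.log t * (Real.log t) ^ 3 := by ring
      rw [h4, one_mul]
      exact mul_le_mul_of_nonneg_right h6 (by positivity)
    have h4 : 2 / (Real.log t) ^ 3 = 1 / (Real.log t) ^ 3 + 1 / (Real.log t) ^ 3 := by ring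
    have h5 : 0 ≤ 1000 / √t := by positivity
    linarith
  · -- `√t ≤ e^3 ≤ 21`, `6/(log t)^4 ≤ 6/(0.69)^4 ≤ 27`
    have hl : 0.69 ≤ Real.log t := by
      have h3 := Real.log_two_gt_d9
      have h4 := Real.log_le_log (by norm_num) ht
      linarith
    have h3 : √t ≤ 21 := by
      have h4 : t ≤ Real.exp 6 := by
        rw [← Real.exp_log (by linarith : (0 : ℝ) < t)]
        exact Real.exp_le_exp.2 h6
      have h5 : Real.exp 6 = (Real.exp 1) ^ 6 := by
        rw [← Real.exp_nat_mul]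
        norm_num
      have h6 : (Real.exp 1) ^ 6 ≤ 2.72 ^ 6 :=
        pow_le_pow_left₀ (Real.exp_pos 1).le (by linarith [Real.exp_one_lt_d9]) 6
      rw [Real.sqrt_le_left (by norm_num)]
      rw [h5] at h4
      refine h4.trans (h6.trans ?_)
      norm_num
    have h4 : 6 / (Real.log t) ^ 4 ≤ 27 := by
      rw [div_le_iff₀ (by positivity)]
      have h5 : (0.69 : ℝ) ^ 4 ≤ (Real.log t) ^ 4 := pow_le_pow_left₀ (by norm_num) hl 4
      nlinarith
    have h5 : 27 ≤ 1000 / √t := by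
      rw [le_div_iff₀ hs]
      nlinarith
    have h6 : 0 ≤ 1 / (Real.log t) ^ 3 := by positivity
    have h7 : 2 / (Real.log t) ^ 3 = 1 / (Real.log t) ^ 3 + 1 / (Real.log t) ^ 3 := by ring
    linarith

private lemma m7_sqrt : ∃ C : ℝ, 0 < C ∧ ∀ x : ℝ, 2 ≤ x → √x ≤ C * x / (Real.log x) ^ 3 := by
  obtain ⟨C, hC, h⟩ := Pool.Agent.Lib.SW.SWF_sqrt 3
  refine ⟨C, hC, fun x hx => ?_⟩
  have h1 := h x hx
  have h2 := m7_log2 hx
  have h3 : 0 ≤ √x := Real.sqrt_nonneg x
  nlinarith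

private lemma m7_int : ∃ C : ℝ, 0 < C ∧ ∀ x : ℝ, 2 ≤ x →
    ∫ t in (2 : ℝ)..x, 1 / (Real.log t) ^ 3 ≤ C * x / (Real.log x) ^ 3 := by
  obtain ⟨C, hC, h⟩ := m7_sqrt
  refine ⟨2 + 2000 * C, by positivity, fun x hx => ?_⟩
  have hcont : ContinuousOn (fun t : ℝ => 1 / (Real.log t) ^ 3) (Set.uIcc 2 x) := by
    intro t ht
    rw [Set.uIcc_of_le hx] at ht
    have h0 : t ≠ 0 := by linarith [ht.1]
    have h1 := (m7_logpos ht.1).ne'
    exact (continuousAt_const.div ((Real.continuousAt_log h0).pow 3)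
      (pow_ne_zero 3 h1)).continuousWithinAt
  have hcont2 : ContinuousOn (fun t : ℝ => 2 / (Real.log t) ^ 3 - 6 / (Real.log t) ^ 4 + 1000 / √t)
      (Set.uIcc 2 x) := by
    intro t ht
    rw [Set.uIcc_of_le hx] at ht
    have h0 : t ≠ 0 := by linarith [ht.1]
    have h1 := (m7_logpos ht.1).ne'
    have hs : √t ≠ 0 := (Real.sqrt_pos.2 (by linarith [ht.1])).ne'
    exact (((continuousAt_const.div ((Real.continuousAt_log h0).pow 3) (pow_ne_zero 3 h1)).sub
      (continuousAt_const.div ((Real.continuousAt_log h0).pow 4) (pow_ne_zero 4 h1))).add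
      (continuousAt_const.div Real.continuous_sqrt.continuousAt hs)).continuousWithinAt
  have h1 : ∫ t in (2 : ℝ)..x, 1 / (Real.log t) ^ 3 ≤
      ∫ t in (2 : ℝ)..x, (2 / (Real.log t) ^ 3 - 6 / (Real.log t) ^ 4 + 1000 / √t) := by
    apply intervalIntegral.integral_mono_on hx hcont.intervalIntegrable hcont2.intervalIntegrable
    intro t ht
    exact m7_derH_ge ht.1
  have h2 : ∫ t in (2 : ℝ)..x, (2 / (Real.log t) ^ 3 - 6 / (Real.log t) ^ 4 + 1000 / √t) =
      m7H x - m7H 2 := by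
    apply intervalIntegral.integral_eq_sub_of_hasDerivAt
    · intro t ht
      rw [Set.uIcc_of_le hx] at ht
      exact m7_derH ht.1
    · exact hcont2.intervalIntegrable
  have h3 : 0 ≤ m7H 2 := by
    unfold m7H
    have h4 := m7_logpos (le_refl (2 : ℝ))
    positivity
  have h4 : m7H x ≤ (2 + 2000 * C) * x / (Real.log x) ^ 3 := by
    unfold m7H
    have h5 := h x hx
    have h6 : (2 + 2000 * C) * x / (Real.log x) ^ 3 =
        2 * x / (Real.log x) ^ 3 + 2000 * (C * x / (Real.log x) ^ 3) := by ring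
    rw [h6]
    linarith
  linarith

theorem pnt2 : ∃ C : ℝ, 0 < C ∧ ∀ t : ℝ, 2 ≤ t →
    |pc t - t / Real.log t - t / (Real.log t) ^ 2| ≤ C * t / (Real.log t) ^ 3 := by
  obtain ⟨C1, hC1, hth⟩ := m7_theta
  obtain ⟨C2, hC2, hint⟩ := m7_int
  obtain ⟨C3, hC3, hsq⟩ := m7_sqrt
  refine ⟨2 * C1 + (4 * C1 + 2) * C2 + 16 * C3, by positivity, fun x hx => ?_⟩
  have hl := m7_logpos hx
  have hl2 := m7_log2 hx
  have hE : 0 ≤ x / (Real.log x) ^ 3 := by positivity
  rw [m7_pc, Chebyshev.primeCounting_eq_theta_div_log_add_integral hx]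
  have i1 : IntervalIntegrable (fun t : ℝ => Chebyshev.theta t / (t * Real.log t ^ 2))
      MeasureTheory.volume 2 x := by
    rw [intervalIntegrable_iff_integrableOn_Icc_of_le hx]
    exact Chebyshev.integrableOn_theta_div_id_mul_log_sq x
  have hcont : ContinuousOn (fun t : ℝ => 1 / (Real.log t) ^ 2 - 2 / (Real.log t) ^ 3)
      (Set.uIcc 2 x) := by
    intro t ht
    rw [Set.uIcc_of_le hx] at ht
    have h0 : t ≠ 0 := by linarith [ht.1]
    have h1 := (m7_logpos ht.1).ne'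
    exact ((continuousAt_const.div ((Real.continuousAt_log h0).pow 2) (pow_ne_zero 2 h1)).sub
      (continuousAt_const.div ((Real.continuousAt_log h0).pow 3)
        (pow_ne_zero 3 h1))).continuousWithinAt
  have hcont3 : ContinuousOn (fun t : ℝ => (4 * C1 + 2) * (1 / (Real.log t) ^ 3))
      (Set.uIcc 2 x) := by
    intro t ht
    rw [Set.uIcc_of_le hx] at ht
    have h0 : t ≠ 0 := by linarith [ht.1]
    have h1 := (m7_logpos ht.1).ne'
    exact (continuousAt_const.mul (continuousAt_const.div ((Real.continuousAt_log h0).pow 3)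
      (pow_ne_zero 3 h1))).continuousWithinAt
  have i2 : ∫ t in (2 : ℝ)..x, (1 / (Real.log t) ^ 2 - 2 / (Real.log t) ^ 3) =
      x / (Real.log x) ^ 2 - 2 / (Real.log 2) ^ 2 := by
    apply intervalIntegral.integral_eq_sub_of_hasDerivAt
    · intro t ht
      rw [Set.uIcc_of_le hx] at ht
      exact m7_der2 ht.1
    · exact hcont.intervalIntegrable
  have i3 : |(∫ t in (2 : ℝ)..x, Chebyshev.theta t / (t * Real.log t ^ 2)) -
      (x / (Real.log x) ^ 2 - 2 / (Real.log 2) ^ 2)| ≤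
      (4 * C1 + 2) * (C2 * x / (Real.log x) ^ 3) := by
    rw [← i2, ← intervalIntegral.integral_sub i1 hcont.intervalIntegrable]
    have j1 : ‖∫ t in (2 : ℝ)..x, (Chebyshev.theta t / (t * Real.log t ^ 2) -
        (1 / (Real.log t) ^ 2 - 2 / (Real.log t) ^ 3))‖ ≤
        ∫ t in (2 : ℝ)..x, (4 * C1 + 2) * (1 / (Real.log t) ^ 3) := by
      apply intervalIntegral.norm_integral_le_of_norm_le hx
      · filter_upwards with t ht
        have ht2 : 2 ≤ t := ht.1.le
        have k0 := m7_logpos ht2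
        have k1 := m7_log2 ht2
        have k2 := hth t ht2
        have k3 : Chebyshev.theta t / (t * Real.log t ^ 2) -
            (1 / (Real.log t) ^ 2 - 2 / (Real.log t) ^ 3) =
            (Chebyshev.theta t - t) / (t * Real.log t ^ 2) + 2 / (Real.log t) ^ 3 := by
          have : t ≠ 0 := by linarith
          field_simp
          ring
        rw [k3, Real.norm_eq_abs]
        refine (abs_add_le _ _).trans ?_
        rw [abs_div, abs_of_pos (by positivity : 0 < t * Real.log t ^ 2),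
          abs_of_pos (by positivity : 0 < 2 / (Real.log t) ^ 3)]
        have k4 : |Chebyshev.theta t - t| / (t * Real.log t ^ 2) ≤
            (C1 * t / (Real.log t) ^ 3) / (t * Real.log t ^ 2) :=
          div_le_div_of_nonneg_right k2 (by positivity)
        have k5 : (C1 * t / (Real.log t) ^ 3) / (t * Real.log t ^ 2) =
            C1 * (1 / (Real.log t) ^ 2) * (1 / (Real.log t) ^ 3) := by
          have : t ≠ 0 := by linarith
          field_simp
        have k6 : 1 / (Real.log t) ^ 2 ≤ 4 := by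
          rw [div_le_iff₀ (by positivity)]
          nlinarith
        have k7 : 0 ≤ 1 / (Real.log t) ^ 3 := by positivity
        have k8 : C1 * (1 / (Real.log t) ^ 2) * (1 / (Real.log t) ^ 3) ≤
            4 * C1 * (1 / (Real.log t) ^ 3) := by
          apply mul_le_mul_of_nonneg_right _ k7
          nlinarith
        have k9 : 2 / (Real.log t) ^ 3 = 2 * (1 / (Real.log t) ^ 3) := by ring
        rw [k9]
        linarith
      · exact hcont3.intervalIntegrable
    rw [Real.norm_eq_abs] at j1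
    refine j1.trans ?_
    rw [intervalIntegral.integral_const_mul]
    exact mul_le_mul_of_nonneg_left (hint x hx) (by positivity)
  have i4 : |Chebyshev.theta x / Real.log x - x / Real.log x| ≤
      2 * C1 * (x / (Real.log x) ^ 3) := by
    rw [← sub_div, abs_div, abs_of_pos hl]
    have k2 := hth x hx
    rw [div_le_iff₀ hl]
    refine k2.trans ?_
    have k3 : C1 * x / (Real.log x) ^ 3 = C1 * (x / (Real.log x) ^ 3) := by ring
    rw [k3]
    have k4 : C1 * (x / (Real.log x) ^ 3) * (1 / 2) ≤ C1 * (x / (Real.log x) ^ 3) * Real.log x :=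
      mul_le_mul_of_nonneg_left hl2 (by positivity)
    linarith
  have i5 : 2 / (Real.log 2) ^ 2 ≤ 16 * C3 * (x / (Real.log x) ^ 3) := by
    have k1 := m7_log2 (le_refl (2 : ℝ))
    have k2 : 2 / (Real.log 2) ^ 2 ≤ 8 := by
      rw [div_le_iff₀ (by positivity)]
      nlinarith
    have k3 := hsq x hx
    have k4 : 1 ≤ √x := Real.one_le_sqrt.2 (by linarith)
    have k5 : C3 * x / (Real.log x) ^ 3 = C3 * (x / (Real.log x) ^ 3) := by ring
    rw [k5] at k3
    linarith
  have i6 : 0 ≤ 2 / (Real.log 2) ^ 2 := by positivity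
  have e1 : C2 * x / (Real.log x) ^ 3 = C2 * (x / (Real.log x) ^ 3) := by ring
  rw [e1] at i3
  have e2 : (2 * C1 + (4 * C1 + 2) * C2 + 16 * C3) * x / (Real.log x) ^ 3 =
      2 * C1 * (x / (Real.log x) ^ 3) + (4 * C1 + 2) * (C2 * (x / (Real.log x) ^ 3)) +
        16 * C3 * (x / (Real.log x) ^ 3) := by ring
  rw [e2]
  rw [abs_le] at i3 i4 ⊢
  constructor <;> linarith [i3.1, i3.2, i4.1, i4.2]

theorem pc_up : ∃ C : ℝ, 0 < C ∧ ∀ t : ℝ, 2 ≤ t →
    pc t ≤ t / Real.log t + C * t / (Real.log t) ^ 2 ∧ pc t ≤ C * t / Real.log t := by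
  obtain ⟨C, hC, h⟩ := pnt2
  refine ⟨3 + 4 * C, by positivity, fun t ht => ?_⟩
  have h1 := (abs_le.1 (h t ht)).2
  have hl := m7_logpos ht
  have hl2 := m7_log2 ht
  have e1 : C * t / (Real.log t) ^ 3 = C * (t / (Real.log t) ^ 2) * (1 / Real.log t) := by
    field_simp
  have e2 : 1 / Real.log t ≤ 2 := by
    rw [div_le_iff₀ hl]
    linarith
  have e3 : 0 ≤ t / (Real.log t) ^ 2 := by positivity
  have e4 : C * t / (Real.log t) ^ 3 ≤ 2 * C * (t / (Real.log t) ^ 2) := by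
    rw [e1]
    have : C * (t / (Real.log t) ^ 2) * (1 / Real.log t) ≤ C * (t / (Real.log t) ^ 2) * 2 :=
      mul_le_mul_of_nonneg_left e2 (by positivity)
    linarith
  have e5 : t / (Real.log t) ^ 2 = t / Real.log t * (1 / Real.log t) := by
    field_simp
  have e6 : t / (Real.log t) ^ 2 ≤ 2 * (t / Real.log t) := by
    rw [e5]
    have : t / Real.log t * (1 / Real.log t) ≤ t / Real.log t * 2 :=
      mul_le_mul_of_nonneg_left e2 (by positivity)
    linarith
  have e7 : (3 + 4 * C) * t / (Real.log t) ^ 2 = (3 + 4 * C) * (t / (Real.log t) ^ 2) := by ring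
  have e8 : (3 + 4 * C) * t / Real.log t = (3 + 4 * C) * (t / Real.log t) := by ring
  rw [e7, e8]
  constructor
  · nlinarith
  · nlinarith

theorem pc_low : ∃ t0 : ℝ, 2 ≤ t0 ∧ ∀ t : ℝ, t0 ≤ t → t / Real.log t ≤ pc t := by
  obtain ⟨C, hC, h⟩ := pnt2
  refine ⟨max 2 (Real.exp C), le_max_left _ _, fun t ht => ?_⟩
  have ht2 : 2 ≤ t := (le_max_left _ _).trans ht
  have h1 := (abs_le.1 (h t ht2)).1
  have hl := m7_logpos ht2
  have h2 : C ≤ Real.log t := by
    rw [Real.le_log_iff_exp_le (by linarith)]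
    exact (le_max_right _ _).trans ht
  have e1 : C * t / (Real.log t) ^ 3 ≤ t / (Real.log t) ^ 2 := by
    rw [div_le_div_iff₀ (by positivity) (by positivity)]
    have : t * (Real.log t) ^ 3 = (Real.log t * t) * (Real.log t) ^ 2 := by ring
    rw [this]
    apply mul_le_mul_of_nonneg_right _ (by positivity)
    nlinarith
  linarith

private lemma m7_piw_le (w z : ℕ) : piw w z ≤ pc z := by
  unfold piw pc P
  rw [Nat.floor_natCast]
  apply Nat.cast_le.2
  apply Finset.card_le_card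
  intro p hp
  simp only [Finset.mem_filter, Finset.mem_Ico, Finset.mem_Icc] at hp ⊢
  exact ⟨⟨hp.2.one_lt.le, hp.1.2.le⟩, hp.2⟩

private lemma m7_piw_ge (w z : ℕ) : pc z - w - 1 ≤ piw w z := by
  have h1 : pc z ≤ piw w z + w + 1 := by
    unfold piw pc P
    rw [Nat.floor_natCast]
    have h2 : (Finset.Icc 1 z).filter Nat.Prime ⊆
        ((Finset.Ico w z).filter Nat.Prime ∪ Finset.range w) ∪ {z} := by
      intro p hp
      simp only [Finset.mem_filter, Finset.mem_Ico, Finset.mem_Icc, Finset.mem_union,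
        Finset.mem_range, Finset.mem_singleton] at hp ⊢
      rcases lt_or_ge p w with h3 | h3
      · exact Or.inl (Or.inr h3)
      · rcases Nat.lt_or_ge p z with h4 | h4
        · exact Or.inl (Or.inl ⟨⟨h3, h4⟩, hp.2⟩)
        · exact Or.inr (le_antisymm hp.1.2 h4)
    have h3 := (Finset.card_le_card h2).trans ((Finset.card_union_le _ _).trans
      (Nat.add_le_add_right (Finset.card_union_le _ _) _))
    rw [Finset.card_range, Finset.card_singleton] at h3
    exact_mod_cast h3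
  linarith

/-- primes in `[w, z)` for `z` large in terms of `w` -/
theorem piw_low (w : ℕ) : ∃ z0 : ℕ, ∀ z : ℕ, z0 ≤ z → (z : ℝ) / (2 * Real.log z) ≤ piw w z := by
  obtain ⟨t0, ht0, h⟩ := pc_low
  obtain ⟨C, hC, hsq⟩ := m7_sqrt
  refine ⟨⌈max t0 ((2 * C * (w + 1) + 1) ^ 2 + (4 * (w + 1)) ^ 2)⌉₊ + 2, fun z hz => ?_⟩
  have hz1 : (⌈max t0 ((2 * C * (w + 1) + 1) ^ 2 + (4 * (w + 1)) ^ 2)⌉₊ : ℝ) ≤ z := by
    exact_mod_cast (Nat.le_add_right _ 2).trans hz
  have hz2 := (Nat.le_ceil _).trans hz1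
  have hz3 : t0 ≤ z := (le_max_left _ _).trans hz2
  have hz4 : (2 * C * (w + 1) + 1) ^ 2 + (4 * (w + 1)) ^ 2 ≤ (z : ℝ) := (le_max_right _ _).trans hz2
  have hz5 : (2 : ℝ) ≤ z := ht0.trans hz3
  have h1 := h z hz3
  have h2 := m7_piw_ge w z
  have hl := m7_logpos hz5
  -- `w + 1 ≤ z/(2 log z)` since `log z ≤ 2 √z`
  have h3 : Real.log z ≤ 2 * √z := by
    have h4 := Real.log_le_sub_one_of_pos (Real.sqrt_pos.2 (by linarith : (0 : ℝ) < z))
    rw [Real.log_sqrt (by linarith)] at h4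
    linarith
  have h4 : 4 * ((w : ℝ) + 1) ≤ √z := by
    apply Real.le_sqrt_of_sq_le
    have : 0 ≤ (2 * C * ((w : ℝ) + 1) + 1) ^ 2 := sq_nonneg _
    linarith
  have h5 : (w : ℝ) + 1 ≤ z / (2 * Real.log z) := by
    rw [le_div_iff₀ (by positivity)]
    have h6 : √(z : ℝ) * √z = z := Real.mul_self_sqrt (by linarith)
    have h7 : 0 ≤ √(z : ℝ) := Real.sqrt_nonneg _
    have h8 : (0 : ℝ) ≤ (w : ℝ) + 1 := by positivity
    calc ((w : ℝ) + 1) * (2 * Real.log z) ≤ ((w : ℝ) + 1) * (2 * (2 * √z)) := by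
          apply mul_le_mul_of_nonneg_left _ h8
          linarith
      _ = (4 * ((w : ℝ) + 1)) * √z := by ring
      _ ≤ √z * √z := mul_le_mul_of_nonneg_right h4 h7
      _ = z := h6
  have h6 : (z : ℝ) / Real.log z = z / (2 * Real.log z) + z / (2 * Real.log z) := by
    field_simp
    ring
  linarith

theorem piw_up : ∃ C : ℝ, 0 < C ∧ ∀ w z : ℕ, 2 ≤ z → piw w z ≤ C * z / Real.log z := by
  obtain ⟨C, hC, h⟩ := pc_up
  refine ⟨C, hC, fun w z hz => ?_⟩
  exact (m7_piw_le w z).trans (h z (by exact_mod_cast hz)).2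

end Pool.Agent.Lib.MP_45349e_nt.JG
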