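import Pool.Agent.Lib.MP_45349e_nt.JG.M07

/-!
# JG-M08 (60 min): the difference `Del y = kap π(y/kap) - π(y)`

PROOF of `del_bd`. `pnt2` at `y` and at `y / kap` (for `3 ≤ y`, `y / kap ≥ 2`): `kap π(y/kap) =
y / log(y/kap) + y / (log (y/kap))^2 + O(y / (log y)^3)`; with `l = log y`, `k = log kap ∈ (0, 1/20)`:
`1/(l-k) - 1/l = k/(l(l-k)) = k/l^2 + k^2/(l^2 (l-k))`, `1/(l-k)^2 - 1/l^2 = O(1/l^3)`. (`l ≥ log 3 > 1`.)
`del_low`: from `del_bd`: `-C y/(log y)^3 ≤ Del y`; for `1 ≤ y < 3` trivial.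
-/

open Finset

namespace Pool.Agent.Lib.MP_45349e_nt.JG

open Pool.Agent.Lib.MP_45349e_nt.LS (P lam Lsum V)

theorem log_kap : 0.04879 < Real.log kap ∧ Real.log kap < 0.048791 := by
  have h1 : Real.log kap = - Real.log (1 - 1 / 21) := by
    rw [← Real.log_inv]
    norm_num [kap]
  have h2 := Real.abs_log_sub_add_sum_range_le (x := (1 / 21 : ℝ)) (by norm_num [abs_of_pos]) 5
  rw [abs_le] at h2
  have h3 : |(1 / 21 : ℝ)| = 1 / 21 := abs_of_pos (by norm_num)
  rw [h3] at h2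
  simp only [Finset.sum_range_succ, Finset.sum_range_zero] at h2
  norm_num at h2
  rw [h1]
  norm_num
  constructor
  · linarith [h2.1, h2.2]
  · linarith [h2.1, h2.2]

theorem del_bd : ∃ C : ℝ, 0 < C ∧ ∀ y : ℝ, 3 ≤ y →
    |Del y - Real.log kap * y / (Real.log y) ^ 2| ≤ C * y / (Real.log y) ^ 3 := by
  obtain ⟨C0, hC0, h⟩ := pnt2
  refine ⟨3 * C0 + 2, by positivity, fun y hy => ?_⟩
  have hkap : (0 : ℝ) < kap := by norm_num [kap]
  have hy0 : 0 < y := by linarith
  have hyk : 2 ≤ y / kap := by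
    rw [le_div_iff₀ hkap]
    norm_num [kap]
    linarith
  have hlog : Real.log (y / kap) = Real.log y - Real.log kap :=
    Real.log_div hy0.ne' hkap.ne'
  have hl1 : 1 ≤ Real.log y := by
    rw [Real.le_log_iff_exp_le hy0]
    linarith [Real.exp_one_lt_d9]
  have hk := log_kap
  have h1 := h y (by linarith)
  have h2 := h (y / kap) hyk
  rw [hlog] at h2
  unfold Del
  generalize Real.log y = l at *
  generalize Real.log kap = k at *
  generalize pc y = a at *
  generalize pc (y / kap) = b at *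
  have hk0 : 0 < k := by linarith [hk.1]
  have hk1 : k ≤ 1 / 20 := by linarith [hk.2]
  have hl0 : 0 < l := by linarith
  have hlk : 0 < l - k := by linarith
  have e2 : kap * b - y / (l - k) - y / (l - k) ^ 2
      = kap * (b - y / kap / (l - k) - y / kap / (l - k) ^ 2) := by
    field_simp
  have h2' : |kap * b - y / (l - k) - y / (l - k) ^ 2| ≤ C0 * y / (l - k) ^ 3 := by
    rw [e2, abs_mul, abs_of_pos hkap]
    calc kap * |b - y / kap / (l - k) - y / kap / (l - k) ^ 2|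
        ≤ kap * (C0 * (y / kap) / (l - k) ^ 3) := mul_le_mul_of_nonneg_left h2 hkap.le
      _ = C0 * y / (l - k) ^ 3 := by field_simp
  have h95 : 19 / 20 * l ≤ l - k := by nlinarith
  have hpow : l ^ 3 ≤ 2 * (l - k) ^ 3 := by
    have := pow_le_pow_left₀ (by positivity) h95 3
    nlinarith [pow_pos hl0 3]
  have h3 : C0 * y / (l - k) ^ 3 ≤ 2 * (C0 * y / l ^ 3) := by
    rw [← mul_div_assoc, div_le_div_iff₀ (by positivity) (by positivity)]
    have : 0 < C0 * y := by positivity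
    nlinarith
  have eA : y / (l - k) + y / (l - k) ^ 2 - y / l - y / l ^ 2 - k * y / l ^ 2
      = k ^ 2 * y / (l ^ 2 * (l - k)) + k * y * (2 * l - k) / (l ^ 2 * (l - k) ^ 2) := by
    field_simp
    ring
  have hA1 : k ^ 2 * y / (l ^ 2 * (l - k)) ≤ y / l ^ 3 := by
    rw [div_le_div_iff₀ (by positivity) (by positivity)]
    have hk2 : k ^ 2 ≤ 1 / 400 := by nlinarith
    have : k ^ 2 * l ≤ l - k := by
      have := mul_le_mul_of_nonneg_right hk2 hl0.le
      linarith
    have h5 : 0 ≤ y * l ^ 2 := by positivity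
    nlinarith
  have hA2 : k * y * (2 * l - k) / (l ^ 2 * (l - k) ^ 2) ≤ y / l ^ 3 := by
    rw [div_le_div_iff₀ (by positivity) (by positivity)]
    have hsq : (19 / 20 * l) ^ 2 ≤ (l - k) ^ 2 := pow_le_pow_left₀ (by positivity) h95 2
    have hkl : k * l ^ 2 ≤ 1 / 20 * l ^ 2 := mul_le_mul_of_nonneg_right hk1 (by positivity)
    have hkk : 0 ≤ k ^ 2 * l := by positivity
    have : k * (2 * l - k) * l ≤ (l - k) ^ 2 := by nlinarith
    have h5 : 0 ≤ y * l ^ 2 := by positivity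
    nlinarith
  have hA0 : 0 ≤ k ^ 2 * y / (l ^ 2 * (l - k)) := by positivity
  have hA00 : 0 ≤ k * y * (2 * l - k) / (l ^ 2 * (l - k) ^ 2) := by
    have : 0 ≤ 2 * l - k := by linarith
    positivity
  have hfin : (3 * C0 + 2) * y / l ^ 3 = 3 * (C0 * y / l ^ 3) + 2 * (y / l ^ 3) := by ring
  rw [hfin]
  rw [abs_le] at *
  constructor <;> linarith [h1.1, h1.2, h2'.1, h2'.2]

end Pool.Agent.Lib.MP_45349e_nt.JG
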