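import Pool.Agent.Lib.MP_45349e_nt.JG.Bas
import Pool.Agent.Lib.MP_45349e_nt.JG.M01

/-!
# JG-M09 (90 min): the model between `D^(1/4)` and `D^(1/2)`

PROOF of `E_formula`. Let `z ≥ 2`, `1 ≤ D < z^4`. A `z`-rough `m ≤ D` with `Ω(m)` even has `Ω(m) = 0`
(`m = 1`) or `Ω(m) = 2` (`Ω ≥ 4` gives `m ≥ z^4 > D`): `m = q r`, `q ≤ r` primes, `z ≤ q`, `q^2 ≤ D`,
`q ≤ r ≤ D/q`; the pair is unique (`q = minFac m`). For given `q` there are `π(D/q) - π(q) + 1` such `r`.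
(If `z^2 > D` the sum is empty.)
`Gm_small`: `D < kap z^2`, `kap ≤ D`: then `1 ≤ D/kap < z^2`, so `EE (D/kap) z = 1`;
`Gm D z = 1 - kap + ∑ (...) ≥ 1 - kap ≥ -1` (each term is `≥ 1` as `q ≤ D/q`).
`Gm_formula`: `kap z^2 ≤ D < z^4`: both `EE D z` and `EE (D/kap) z` by `E_formula`; split the sum over
`q ≤ √D` at `√(D/kap)` and combine (`D / kap / q = D / q / kap`): for `q ≤ √(D/kap)`:
`π(D/q) - π(q) + 1 - kap (π(D/(q kap)) - π(q) + 1) = -Del(D/q) + (kap - 1)(π(q) - 1)`.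
-/

open Finset

namespace Pool.Agent.Lib.MP_45349e_nt.JG

open Pool.Agent.Lib.MP_45349e_nt.LS (P lam Lsum V)

private lemma m09_pow_le {z m : ℕ} (hm : m ≠ 0) (hr : Rough z m) :
    z ^ (ArithmeticFunction.cardFactors m) ≤ m := by
  rw [ArithmeticFunction.cardFactors_apply]
  have h : z ^ m.primeFactorsList.length ≤ m.primeFactorsList.prod := by
    apply List.pow_card_le_prod
    intro q hq
    exact hr q (Nat.prime_of_mem_primeFactorsList hq) (Nat.dvd_of_mem_primeFactorsList hq)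
  rwa [Nat.prod_primeFactorsList hm] at h

private lemma m09_EE_one {D : ℝ} {z : ℕ} (hz : 2 ≤ z) (h1 : 1 ≤ D) (h2 : D < (z : ℝ) ^ 2) :
    EE D z = 1 := by
  classical
  unfold EE
  have h : ((Finset.Icc 1 ⌊D⌋₊).filter
      (fun m : ℕ => Rough z m ∧ Even (ArithmeticFunction.cardFactors m))) = {1} := by
    ext m
    rw [Finset.mem_filter, Finset.mem_Icc, Finset.mem_singleton]
    constructor
    · rintro ⟨⟨hm1, hmD⟩, hr, he⟩
      have hm0 : m ≠ 0 := by omega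
      have hle := m09_pow_le hm0 hr
      have hmD' : (m : ℝ) ≤ D := (Nat.le_floor_iff (by linarith)).1 hmD
      have hlt : m < z ^ 2 := by
        have : (m : ℝ) < (z : ℝ) ^ 2 := lt_of_le_of_lt hmD' h2
        exact_mod_cast this
      have hO : ArithmeticFunction.cardFactors m < 2 := by
        by_contra hO
        have h3 : z ^ 2 ≤ z ^ (ArithmeticFunction.cardFactors m) :=
          Nat.pow_le_pow_right (by omega) (not_lt.1 hO)
        omega
      have hO0 : ArithmeticFunction.cardFactors m = 0 := by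
        rcases he with ⟨k, hk⟩
        omega
      rcases ArithmeticFunction.cardFactors_eq_zero_iff_eq_zero_or_one.1 hO0 with h | h
      · exact absurd h hm0
      · exact h
    · rintro rfl
      refine ⟨⟨le_refl 1, ?_⟩, ?_, ?_⟩
      · rw [Nat.le_floor_iff (by linarith)]
        exact_mod_cast h1
      · intro p hp hd
        exact absurd (Nat.dvd_one.1 hd) hp.one_lt.ne'
      · rw [ArithmeticFunction.cardFactors_one]
        exact Even.zero
  rw [h]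
  simp

private lemma m09_card_split {q n : ℕ} (hq : q.Prime) (hqn : q ≤ n) :
    ((Finset.Icc 1 n).filter Nat.Prime).card =
      ((Finset.Icc 1 (q - 1)).filter Nat.Prime).card + ((Finset.Icc q n).filter Nat.Prime).card := by
  have h : (Finset.Icc 1 n).filter Nat.Prime =
      (Finset.Icc 1 (q - 1)).filter Nat.Prime ∪ (Finset.Icc q n).filter Nat.Prime := by
    ext m
    rw [Finset.mem_union, Finset.mem_filter, Finset.mem_filter, Finset.mem_filter, Finset.mem_Icc,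
      Finset.mem_Icc, Finset.mem_Icc]
    have := hq.two_le
    constructor
    · rintro ⟨⟨h1, h2⟩, h3⟩
      by_cases h4 : m < q
      · exact Or.inl ⟨⟨h1, by omega⟩, h3⟩
      · exact Or.inr ⟨⟨by omega, h2⟩, h3⟩
    · rintro (⟨⟨h1, h2⟩, h3⟩ | ⟨⟨h1, h2⟩, h3⟩)
      · exact ⟨⟨h1, by omega⟩, h3⟩
      · exact ⟨⟨by omega, h2⟩, h3⟩
  rw [h, Finset.card_union_of_disjoint]
  rw [Finset.disjoint_left]
  intro m hm hm'
  rw [Finset.mem_filter, Finset.mem_Icc] at hm hm'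
  have := hq.two_le
  omega

private lemma m09_pc_nat (q : ℕ) : pc (q : ℝ) = (((Finset.Icc 1 q).filter Nat.Prime).card : ℝ) := by
  unfold pc
  rw [Nat.floor_natCast]

private lemma m09_OO {y : ℝ} {q : ℕ} (hq : q.Prime) (h1 : (q : ℝ) ≤ y) (h3 : y < (q : ℝ) ^ 3) :
    OO y q = pc y - pc q + 1 := by
  classical
  have hy0 : 0 ≤ y := le_trans (Nat.cast_nonneg q) h1
  have hqy : q ≤ ⌊y⌋₊ := (Nat.le_floor_iff hy0).2 h1
  have h : ((Finset.Icc 1 ⌊y⌋₊).filter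
      (fun m : ℕ => Rough q m ∧ Odd (ArithmeticFunction.cardFactors m))) =
      (Finset.Icc q ⌊y⌋₊).filter Nat.Prime := by
    ext m
    rw [Finset.mem_filter, Finset.mem_Icc, Finset.mem_filter, Finset.mem_Icc]
    constructor
    · rintro ⟨⟨hm1, hmy⟩, hr, ho⟩
      have hm0 : m ≠ 0 := by omega
      have hle := m09_pow_le hm0 hr
      have hmy' : (m : ℝ) ≤ y := (Nat.le_floor_iff hy0).1 hmy
      have hlt : m < q ^ 3 := by
        have : (m : ℝ) < (q : ℝ) ^ 3 := lt_of_le_of_lt hmy' h3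
        exact_mod_cast this
      have hO : ArithmeticFunction.cardFactors m < 3 := by
        by_contra hO
        have h4 : q ^ 3 ≤ q ^ (ArithmeticFunction.cardFactors m) :=
          Nat.pow_le_pow_right hq.pos (not_lt.1 hO)
        omega
      have hO1 : ArithmeticFunction.cardFactors m = 1 := by
        rcases ho with ⟨k, hk⟩
        omega
      have hp : m.Prime := ArithmeticFunction.cardFactors_eq_one_iff_prime.1 hO1
      exact ⟨⟨hr m hp (dvd_refl m), hmy⟩, hp⟩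
    · rintro ⟨⟨hqm, hmy⟩, hp⟩
      have := hq.two_le
      refine ⟨⟨by omega, hmy⟩, ?_, ?_⟩
      · intro p hp' hd
        rw [(Nat.prime_dvd_prime_iff_eq hp' hp).1 hd]
        exact hqm
      · rw [ArithmeticFunction.cardFactors_apply_prime hp]
        exact odd_one
  have e1 : OO y q = (((Finset.Icc q ⌊y⌋₊).filter Nat.Prime).card : ℝ) := by
    unfold OO
    rw [h]
  have e2 : pc y = (((Finset.Icc 1 (q - 1)).filter Nat.Prime).card : ℝ) +
      (((Finset.Icc q ⌊y⌋₊).filter Nat.Prime).card : ℝ) := by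
    unfold pc
    rw [m09_card_split hq hqy]
    push_cast
    rfl
  have e3 : pc (q : ℝ) = (((Finset.Icc 1 (q - 1)).filter Nat.Prime).card : ℝ) + 1 := by
    rw [m09_pc_nat, m09_card_split hq (le_refl q)]
    have e4 : (Finset.Icc q q).filter Nat.Prime = {q} := by
      rw [Finset.Icc_self, Finset.filter_singleton, if_pos hq]
    rw [e4]
    push_cast
    simp
  rw [e1, e2, e3]
  ring

private lemma m09_sq_le {D : ℝ} {q : ℕ} (hD : 0 ≤ D) (h : q < ⌊Real.sqrt D⌋₊ + 1) :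
    (q : ℝ) ^ 2 ≤ D := by
  have h1 : q ≤ ⌊Real.sqrt D⌋₊ := by omega
  have h2 : (q : ℝ) ≤ Real.sqrt D := (Nat.le_floor_iff (Real.sqrt_nonneg D)).1 h1
  calc (q : ℝ) ^ 2 ≤ (Real.sqrt D) ^ 2 := pow_le_pow_left₀ (Nat.cast_nonneg q) h2 2
    _ = D := Real.sq_sqrt hD

private lemma m09_lt_sq {D : ℝ} (hD : 0 ≤ D) : D < ((⌊Real.sqrt D⌋₊ + 1 : ℕ) : ℝ) ^ 2 := by
  have h1 : Real.sqrt D < ((⌊Real.sqrt D⌋₊ + 1 : ℕ) : ℝ) := by
    push_cast
    exact Nat.lt_floor_add_one _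
  calc D = (Real.sqrt D) ^ 2 := (Real.sq_sqrt hD).symm
    _ < ((⌊Real.sqrt D⌋₊ + 1 : ℕ) : ℝ) ^ 2 :=
      pow_lt_pow_left₀ h1 (Real.sqrt_nonneg D) (by norm_num)

private lemma m09_le_div {D : ℝ} {q : ℕ} (hq : 0 < q) (h : (q : ℝ) ^ 2 ≤ D) : (q : ℝ) ≤ D / q := by
  have hq' : (0 : ℝ) < q := by exact_mod_cast hq
  rw [le_div_iff₀ hq']
  nlinarith

theorem E_formula {D : ℝ} {z : ℕ} (hz : 2 ≤ z) (h1 : 1 ≤ D) (h4 : D < (z : ℝ) ^ 4) :
    EE D z = 1 + ∑ q ∈ P z (⌊Real.sqrt D⌋₊ + 1), (pc (D / q) - pc q + 1) := by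
  have hD0 : (0 : ℝ) ≤ D := by linarith
  by_cases hzZ : z ≤ ⌊Real.sqrt D⌋₊ + 1
  · have hZ2 : 2 ≤ ⌊Real.sqrt D⌋₊ + 1 := by omega
    rw [buchE D hz hzZ, m09_EE_one hZ2 h1 (m09_lt_sq hD0)]
    congr 1
    refine Finset.sum_congr rfl fun q hq => ?_
    obtain ⟨hzq, hqZ, hqp⟩ := mem_P.1 hq
    have hsq := m09_sq_le hD0 hqZ
    refine m09_OO hqp (m09_le_div hqp.pos hsq) ?_
    have hq' : (0 : ℝ) < q := by exact_mod_cast hqp.pos
    rw [div_lt_iff₀ hq']
    have hzq' : (z : ℝ) ≤ q := by exact_mod_cast hzq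
    calc D < (z : ℝ) ^ 4 := h4
      _ ≤ (q : ℝ) ^ 4 := pow_le_pow_left₀ (Nat.cast_nonneg z) hzq' 4
      _ = (q : ℝ) ^ 3 * q := by ring
  · have hP : P z (⌊Real.sqrt D⌋₊ + 1) = ∅ := by
      ext p
      rw [mem_P]
      constructor
      · rintro ⟨h1, h2, h3⟩
        omega
      · intro h
        exact absurd h (Finset.notMem_empty p)
    rw [hP, Finset.sum_empty, add_zero]
    refine m09_EE_one hz h1 (lt_of_lt_of_le (m09_lt_sq hD0) ?_)
    have h5 : ((⌊Real.sqrt D⌋₊ + 1 : ℕ) : ℝ) ≤ z := by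
      exact_mod_cast (not_le.1 hzZ).le
    exact pow_le_pow_left₀ (Nat.cast_nonneg _) h5 2

/-- the third sum has nonnegative terms -/
theorem term_pos {D : ℝ} {q : ℕ} (hD : 0 ≤ D) (hq : q ∈ P 2 (⌊Real.sqrt D⌋₊ + 1)) :
    1 ≤ pc (D / q) - pc q + 1 := by
  obtain ⟨h2, hqZ, hqp⟩ := mem_P.1 hq
  have hle := m09_le_div hqp.pos (m09_sq_le hD hqZ)
  have h : pc (q : ℝ) ≤ pc (D / q) := by
    unfold pc
    have h3 : (Finset.Icc 1 ⌊(q : ℝ)⌋₊).filter Nat.Prime ⊆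
        (Finset.Icc 1 ⌊D / q⌋₊).filter Nat.Prime := by
      intro m hm
      rw [Finset.mem_filter, Finset.mem_Icc] at hm ⊢
      exact ⟨⟨hm.1.1, hm.1.2.trans (Nat.floor_mono hle)⟩, hm.2⟩
    exact_mod_cast Finset.card_le_card h3
  linarith

theorem Gm_small {D : ℝ} {z : ℕ} (hz : 2 ≤ z) (h1 : kap ≤ D) (h4 : D < (z : ℝ) ^ 4)
    (h2 : D < kap * (z : ℝ) ^ 2) :
    Gm D z = 1 - kap + ∑ q ∈ P z (⌊Real.sqrt D⌋₊ + 1), (pc (D / q) - pc q + 1) ∧ -1 ≤ Gm D z := by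
  have hk : (1 : ℝ) < kap := by unfold kap; norm_num
  have hk2 : kap ≤ 2 := by unfold kap; norm_num
  have hk0 : (0 : ℝ) < kap := by linarith
  have hD1 : 1 ≤ D := by linarith
  have e1 : EE (D / kap) z = 1 := by
    refine m09_EE_one hz ?_ ?_
    · rw [le_div_iff₀ hk0]
      linarith
    · rw [div_lt_iff₀ hk0]
      linarith
  have e2 : Gm D z = 1 - kap + ∑ q ∈ P z (⌊Real.sqrt D⌋₊ + 1), (pc (D / q) - pc q + 1) := by
    unfold Gm
    rw [e1, E_formula hz hD1 h4]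
    ring
  refine ⟨e2, ?_⟩
  rw [e2]
  have h5 : 0 ≤ ∑ q ∈ P z (⌊Real.sqrt D⌋₊ + 1), (pc (D / q) - pc q + 1) := by
    refine Finset.sum_nonneg fun q hq => ?_
    obtain ⟨hzq, hqZ, hqp⟩ := mem_P.1 hq
    have h6 := term_pos (D := D) (q := q) (by linarith) (mem_P.2 ⟨by omega, hqZ, hqp⟩)
    linarith
  linarith

theorem Gm_formula {D : ℝ} {z : ℕ} (hz : 2 ≤ z) (h1 : kap ≤ D) (h4 : D < (z : ℝ) ^ 4)
    (h2 : kap * (z : ℝ) ^ 2 ≤ D) :
    Gm D z = 1 - kap
      + ∑ q ∈ P z (⌊Real.sqrt (D / kap)⌋₊ + 1), (-Del (D / q) + (kap - 1) * (pc q - 1))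
      + ∑ q ∈ P (⌊Real.sqrt (D / kap)⌋₊ + 1) (⌊Real.sqrt D⌋₊ + 1), (pc (D / q) - pc q + 1) := by
  have hk : (1 : ℝ) < kap := by unfold kap; norm_num
  have hk0 : (0 : ℝ) < kap := by linarith
  have hD1 : 1 ≤ D := by linarith
  have hD0 : 0 ≤ D := by linarith
  have hd1 : 1 ≤ D / kap := by
    rw [le_div_iff₀ hk0]
    linarith
  have hdle : D / kap ≤ D := div_le_self hD0 hk.le
  have hd4 : D / kap < (z : ℝ) ^ 4 := lt_of_le_of_lt hdle h4
  set b := ⌊Real.sqrt (D / kap)⌋₊ with hb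
  set a := ⌊Real.sqrt D⌋₊ with ha
  have hba : b ≤ a := Nat.floor_mono (Real.sqrt_le_sqrt hdle)
  have hzb : z ≤ b := by
    rw [hb, Nat.le_floor_iff (Real.sqrt_nonneg _)]
    apply Real.le_sqrt_of_sq_le
    rw [le_div_iff₀ hk0]
    linarith
  have hsplit : P z (a + 1) = P z (b + 1) ∪ P (b + 1) (a + 1) := by
    ext p
    rw [Finset.mem_union, mem_P, mem_P, mem_P]
    constructor
    · rintro ⟨h5, h6, h7⟩
      by_cases h8 : p < b + 1
      · exact Or.inl ⟨h5, h8, h7⟩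
      · exact Or.inr ⟨by omega, h6, h7⟩
    · rintro (⟨h5, h6, h7⟩ | ⟨h5, h6, h7⟩)
      · exact ⟨h5, by omega, h7⟩
      · exact ⟨by omega, h6, h7⟩
  have hdisj : Disjoint (P z (b + 1)) (P (b + 1) (a + 1)) := by
    rw [Finset.disjoint_left]
    intro p hp hp'
    rw [mem_P] at hp hp'
    omega
  have e1 : EE D z = 1 + (∑ q ∈ P z (b + 1), (pc (D / q) - pc q + 1)
      + ∑ q ∈ P (b + 1) (a + 1), (pc (D / q) - pc q + 1)) := by
    rw [E_formula hz hD1 h4, ← ha, hsplit, Finset.sum_union hdisj]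
  have e2 : EE (D / kap) z = 1 + ∑ q ∈ P z (b + 1), (pc (D / kap / q) - pc q + 1) := by
    rw [E_formula hz hd1 hd4]
  have e3 : ∑ q ∈ P z (b + 1), (-Del (D / q) + (kap - 1) * (pc q - 1)) =
      ∑ q ∈ P z (b + 1), (pc (D / q) - pc q + 1)
        - kap * ∑ q ∈ P z (b + 1), (pc (D / kap / q) - pc q + 1) := by
    rw [Finset.mul_sum, ← Finset.sum_sub_distrib]
    refine Finset.sum_congr rfl fun q _ => ?_
    unfold Del
    rw [div_right_comm D kap (q : ℝ)]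
    ring
  unfold Gm
  rw [e1, e2, e3]
  ring

end Pool.Agent.Lib.MP_45349e_nt.JG
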