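import Pool.Agent.Lib.MP_45349e_nt.JG.Bas
import Pool.Agent.Lib.MP_45349e_nt.LS.PSum

/-!
# JG-M11a (75 min): two block sums

Let `L = log D`, `s` a finite set of primes in `[D^(1/4), D^(1/2)]`. PROOF of `blockA`: cut `[1/4, 1/2]` into
10 blocks `u = j/40 ≤ log q / L ≤ (j+1)/40`, `j = 10, ..., 19`. In block `j`, `(1 - log q/L)^(-2) ≤
(40/(39-j))^2` and `∑ 1/q ≤ log((j+1)/j) + C/(L/4) ≤ 1/j + 4C/L` (`LS.psum2` with `u = D^(j/40)`,
`v = D^((j+1)/40)`; `log (1+x) ≤ x`). Total `∑_{j=10}^{19} (1/j)(40/(39-j))^2 + C'/L`, and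
`∑_{j=10}^{19} (1/j)(40/(39-j))^2 = 1.904368...` (`norm_num`). `blockB`: blocks `j = 18, 19`:
`0.412088... ≤ 0.4121`. `blockC`: primes in `[√(D/2), √D]`: `log v / log u ≤ 1 + log 2 / (L - log 2)`, so the
sum of `1/q` is `≤ C/L`; factor `(1 - log q/L)^(-2) ≤ 4`. `blockD`: the sum of `1/q` over primes of
`[D^(1/5), D^(1/2)]` is bounded: `psum2`, `log (5/2) ≤ 1`.
-/

open Finset

namespace Pool.Agent.Lib.MP_45349e_nt.JG

open Pool.Agent.Lib.MP_45349e_nt.LS (P lam Lsum V)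

private lemma blk : ∃ C : ℝ, 0 < C ∧ ∀ a b D : ℝ, 1 / 10 ≤ a → a ≤ b → b < 1 → 20 ≤ Real.log D →
    ∀ s : Finset ℕ,
    (∀ q ∈ s, q.Prime ∧ a * Real.log D ≤ Real.log q ∧ Real.log q ≤ b * Real.log D) →
    ∑ q ∈ s, 1 / (q : ℝ) / (1 - Real.log q / Real.log D) ^ 2 ≤
      1 / (1 - b) ^ 2 * ((b / a - 1) + C / Real.log D) := by
  obtain ⟨C, hC, h⟩ := LS.psum2
  refine ⟨10 * C, by positivity, fun a b D ha hab hb hL s hs => ?_⟩
  set L := Real.log D with hLdef
  have hL0 : 0 < L := by linarith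
  have ha0 : 0 < a := by linarith
  have hb0 : 0 < b := by linarith
  have haL : 2 ≤ a * L := by nlinarith
  have h1 := h (Real.exp (a * L)) (Real.exp (b * L))
    (by have := Real.add_one_le_exp (a * L); linarith)
    (Real.exp_le_exp.mpr (mul_le_mul_of_nonneg_right hab hL0.le)) s (fun p hp => by
      obtain ⟨h1, h2, h3⟩ := hs p hp
      have hp0 : (0 : ℝ) < p := by exact_mod_cast h1.pos
      refine ⟨h1, ?_, ?_⟩
      · rw [← Real.le_log_iff_exp_le hp0]; exact h2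
      · rw [← Real.log_le_iff_le_exp hp0]; exact h3)
  rw [Real.log_exp, Real.log_exp, mul_div_mul_right _ _ hL0.ne'] at h1
  have h2 : Real.log (b / a) ≤ b / a - 1 := Real.log_le_sub_one_of_pos (by positivity)
  have h3 : C / (a * L) ≤ 10 * C / L := by
    rw [div_le_div_iff₀ (by positivity) hL0]
    have : C * L ≤ 10 * (C * (a * L)) := by
      have : 0 < C * L := by positivity
      nlinarith
    linarith
  have hb1 : 0 < 1 - b := by linarith
  calc ∑ q ∈ s, 1 / (q : ℝ) / (1 - Real.log q / L) ^ 2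
      ≤ ∑ q ∈ s, 1 / (1 - b) ^ 2 * (1 / (q : ℝ)) := by
        refine Finset.sum_le_sum fun q hq => ?_
        obtain ⟨h4, h5, h6⟩ := hs q hq
        have hq0 : (0 : ℝ) < q := by exact_mod_cast h4.pos
        have h7 : Real.log q / L ≤ b := by rw [div_le_iff₀ hL0]; exact h6
        have h8 : (1 - b) ^ 2 ≤ (1 - Real.log q / L) ^ 2 :=
          pow_le_pow_left₀ hb1.le (by linarith) 2
        rw [div_le_iff₀ (by have : 0 < 1 - Real.log q / L := by linarith
                            positivity)]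
        have h9 : 1 ≤ 1 / (1 - b) ^ 2 * (1 - Real.log q / L) ^ 2 := by
          rw [one_div, ← div_eq_inv_mul, one_le_div (by positivity)]
          exact h8
        have : 0 < 1 / (q : ℝ) := by positivity
        nlinarith
    _ = 1 / (1 - b) ^ 2 * ∑ q ∈ s, (1 / (q : ℝ)) := by rw [Finset.mul_sum]
    _ ≤ 1 / (1 - b) ^ 2 * ((b / a - 1) + 10 * C / L) := by
        refine mul_le_mul_of_nonneg_left ?_ (by positivity)
        linarith

private lemma blkSum (k n : ℕ) (hk : 4 ≤ k) (hn : k + n ≤ 39) : ∃ C : ℝ, 0 < C ∧ ∀ D : ℝ,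
    20 ≤ Real.log D → ∀ s : Finset ℕ,
    (∀ q ∈ s, q.Prime ∧ (k : ℝ) / 40 * Real.log D ≤ Real.log q ∧
      Real.log q ≤ ((k + n : ℕ) : ℝ) / 40 * Real.log D) →
    ∑ q ∈ s, 1 / (q : ℝ) / (1 - Real.log q / Real.log D) ^ 2 ≤
      ∑ j ∈ Finset.Ico k (k + n), 1 / (j : ℝ) * (40 / (39 - (j : ℝ))) ^ 2 + C / Real.log D := by
  obtain ⟨C, hC, h⟩ := blk
  induction n with
  | zero =>
    refine ⟨1 + 1600 * C, by positivity, fun D hL s hs => ?_⟩
    have hL0 : 0 < Real.log D := by linarith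
    have hk39 : (k : ℝ) ≤ 39 := by exact_mod_cast (show k ≤ 39 by omega)
    have hk4 : (4 : ℝ) ≤ k := by exact_mod_cast hk
    have h1 := h (k / 40) (k / 40) D (by linarith) le_rfl (by linarith) hL s (fun q hq => by
      have := hs q hq
      simpa using this)
    have h2 : (k : ℝ) / 40 / (k / 40) - 1 = 0 := by
      rw [div_self (by positivity)]; ring
    rw [h2, zero_add] at h1
    have h3 : 1 / (1 - (k : ℝ) / 40) ^ 2 ≤ 1600 := by
      rw [div_le_iff₀ (by have : 0 < 1 - (k : ℝ) / 40 := by linarith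
                          positivity)]
      have : 1 / 40 ≤ 1 - (k : ℝ) / 40 := by linarith
      nlinarith
    have h4 : 1 / (1 - (k : ℝ) / 40) ^ 2 * (C / Real.log D) ≤ 1600 * (C / Real.log D) :=
      mul_le_mul_of_nonneg_right h3 (by positivity)
    have h5 : (1 + 1600 * C) / Real.log D = 1 / Real.log D + 1600 * (C / Real.log D) := by ring
    have h6 : 0 < 1 / Real.log D := by positivity
    simp only [Nat.add_zero, Finset.Ico_self, Finset.sum_empty]
    rw [h5]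
    linarith
  | succ n ih =>
    obtain ⟨C1, hC1, h1⟩ := ih (by omega)
    refine ⟨C1 + 1600 * C, by positivity, fun D hL s hs => ?_⟩
    have hL0 : 0 < Real.log D := by linarith
    have hk4 : (4 : ℝ) ≤ k := by exact_mod_cast hk
    have hkn : ((k + n : ℕ) : ℝ) ≤ 38 := by exact_mod_cast (show k + n ≤ 38 by omega)
    have hkn4 : (4 : ℝ) ≤ ((k + n : ℕ) : ℝ) := by exact_mod_cast (show 4 ≤ k + n by omega)
    set m : ℝ := ((k + n : ℕ) : ℝ) with hm
    have hsum := Finset.sum_filter_add_sum_filter_not s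
      (fun q : ℕ => Real.log q ≤ m / 40 * Real.log D)
      (fun q => 1 / (q : ℝ) / (1 - Real.log q / Real.log D) ^ 2)
    have h2 := h1 D hL (s.filter (fun q : ℕ => Real.log q ≤ m / 40 * Real.log D)) (fun q hq => by
      rw [Finset.mem_filter] at hq
      exact ⟨(hs q hq.1).1, (hs q hq.1).2.1, hq.2⟩)
    have h3 := h (m / 40) ((m + 1) / 40) D (by linarith) (by linarith) (by linarith) hL
      (s.filter (fun q : ℕ => ¬ Real.log q ≤ m / 40 * Real.log D)) (fun q hq => by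
      rw [Finset.mem_filter, not_le] at hq
      refine ⟨(hs q hq.1).1, hq.2.le, ?_⟩
      have := (hs q hq.1).2.2
      have h4 : ((k + (n + 1) : ℕ) : ℝ) = m + 1 := by rw [hm]; push_cast; ring
      rw [h4] at this
      exact this)
    have h5 : (m + 1) / 40 / (m / 40) - 1 = 1 / m := by
      field_simp; ring
    have h6 : 1 / (1 - (m + 1) / 40) ^ 2 = (40 / (39 - m)) ^ 2 := by
      have : 39 - m ≠ 0 := by linarith
      have h7 : 1 - (m + 1) / 40 = (39 - m) / 40 := by ring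
      rw [h7, div_pow, div_pow, one_div_div]
    have h8 : (40 / (39 - m)) ^ 2 ≤ 1600 := by
      have h7 : 40 / (39 - m) ≤ 40 := by
        rw [div_le_iff₀ (by linarith)]; linarith
      have h9 : 0 ≤ 40 / (39 - m) := div_nonneg (by norm_num) (by linarith)
      nlinarith
    rw [h5, h6] at h3
    rw [show k + (n + 1) = (k + n) + 1 by ring, Finset.sum_Ico_succ_top (by omega)]
    rw [← hsum]
    have h10 : (40 / (39 - m)) ^ 2 * (1 / m + C / Real.log D) ≤
        1 / m * (40 / (39 - m)) ^ 2 + 1600 * (C / Real.log D) := by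
      have : (40 / (39 - m)) ^ 2 * (C / Real.log D) ≤ 1600 * (C / Real.log D) :=
        mul_le_mul_of_nonneg_right h8 (by positivity)
      linarith
    have h11 : (C1 + 1600 * C) / Real.log D = C1 / Real.log D + 1600 * (C / Real.log D) := by ring
    rw [h11]
    linarith

theorem blockA : ∃ C D0 : ℝ, 0 < C ∧ ∀ D : ℝ, D0 ≤ D → ∀ s : Finset ℕ,
    (∀ q ∈ s, q.Prime ∧ D ≤ (q : ℝ) ^ 4 ∧ (q : ℝ) ^ 2 ≤ D) →
    ∑ q ∈ s, 1 / (q : ℝ) / (1 - Real.log q / Real.log D) ^ 2 ≤ 1.9044 + C / Real.log D := by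
  obtain ⟨C, hC, h⟩ := blkSum 10 10 (by norm_num) (by norm_num)
  refine ⟨C, Real.exp 20, hC, fun D hD s hs => ?_⟩
  have hD0 : 0 < D := lt_of_lt_of_le (Real.exp_pos _) hD
  have hL : 20 ≤ Real.log D := by
    rw [Real.le_log_iff_exp_le hD0]; exact hD
  refine (h D hL s (fun q hq => ?_)).trans ?_
  · obtain ⟨h1, h2, h3⟩ := hs q hq
    have hq0 : (0 : ℝ) < q := by exact_mod_cast h1.pos
    have h4 := Real.log_le_log hD0 h2
    have h5 := Real.log_le_log (by positivity) h3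
    rw [Real.log_pow] at h4 h5
    push_cast at h4 h5 ⊢
    exact ⟨h1, by linarith, by linarith⟩
  · have : ∑ j ∈ Finset.Ico (10 : ℕ) (10 + 10), 1 / (j : ℝ) * (40 / (39 - (j : ℝ))) ^ 2 ≤ 1.9044 := by
      simp only [Finset.sum_Ico_eq_sum_range]
      norm_num [Finset.sum_range_succ]
    linarith

theorem blockB : ∃ C D0 : ℝ, 0 < C ∧ ∀ D : ℝ, D0 ≤ D → ∀ s : Finset ℕ,
    (∀ q ∈ s, q.Prime ∧ 9 / 20 * Real.log D ≤ Real.log q ∧ (q : ℝ) ^ 2 ≤ D) →
    ∑ q ∈ s, 1 / (q : ℝ) / (1 - Real.log q / Real.log D) ^ 2 ≤ 0.4121 + C / Real.log D := by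
  obtain ⟨C, hC, h⟩ := blkSum 18 2 (by norm_num) (by norm_num)
  refine ⟨C, Real.exp 20, hC, fun D hD s hs => ?_⟩
  have hD0 : 0 < D := lt_of_lt_of_le (Real.exp_pos _) hD
  have hL : 20 ≤ Real.log D := by
    rw [Real.le_log_iff_exp_le hD0]; exact hD
  refine (h D hL s (fun q hq => ?_)).trans ?_
  · obtain ⟨h1, h2, h3⟩ := hs q hq
    have hq0 : (0 : ℝ) < q := by exact_mod_cast h1.pos
    have h5 := Real.log_le_log (by positivity) h3
    rw [Real.log_pow] at h5
    push_cast at h5 ⊢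
    exact ⟨h1, by linarith, by linarith⟩
  · have : ∑ j ∈ Finset.Ico (18 : ℕ) (18 + 2), 1 / (j : ℝ) * (40 / (39 - (j : ℝ))) ^ 2 ≤ 0.4121 := by
      simp only [Finset.sum_Ico_eq_sum_range]
      norm_num [Finset.sum_range_succ]
    linarith

theorem blockC : ∃ C D0 : ℝ, 0 < C ∧ ∀ D : ℝ, D0 ≤ D → ∀ s : Finset ℕ,
    (∀ q ∈ s, q.Prime ∧ D ≤ 2 * (q : ℝ) ^ 2 ∧ (q : ℝ) ^ 2 ≤ D) →
    ∑ q ∈ s, 1 / (q : ℝ) / (1 - Real.log q / Real.log D) ^ 2 ≤ C / Real.log D := by
  obtain ⟨C, hC, h⟩ := blk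
  refine ⟨8 + 4 * C, Real.exp 20, by positivity, fun D hD s hs => ?_⟩
  have hD0 : 0 < D := lt_of_lt_of_le (Real.exp_pos _) hD
  have hL : 20 ≤ Real.log D := by
    rw [Real.le_log_iff_exp_le hD0]; exact hD
  set L := Real.log D with hLdef
  have hL0 : 0 < L := by linarith
  have hl2 : Real.log 2 < 1 := by have := Real.log_two_lt_d9; linarith
  have hl2' : 0 < Real.log 2 := Real.log_pos (by norm_num)
  have hx : Real.log 2 / L ≤ 1 / 20 := by
    rw [div_le_div_iff₀ hL0 (by norm_num)]; linarith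
  have hx0 : 0 < Real.log 2 / L := by positivity
  have h1 := h ((1 - Real.log 2 / L) / 2) (1 / 2) D (by linarith) (by linarith) (by norm_num)
    hL s (fun q hq => by
      obtain ⟨h1, h2, h3⟩ := hs q hq
      have hq0 : (0 : ℝ) < q := by exact_mod_cast h1.pos
      have h4 := Real.log_le_log hD0 h2
      have h5 := Real.log_le_log (by positivity) h3
      rw [Real.log_mul (by norm_num) (by positivity), Real.log_pow] at h4
      rw [Real.log_pow] at h5
      push_cast at h4 h5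
      refine ⟨h1, ?_, ?_⟩
      · have h6 : (1 - Real.log 2 / L) / 2 * L = (L - Real.log 2) / 2 := by
          field_simp
        rw [← hLdef, h6]
        linarith
      · rw [← hLdef]
        linarith)
  rw [← hLdef] at h1
  have h2 : 1 / (1 - (1 / 2 : ℝ)) ^ 2 = 4 := by norm_num
  rw [h2] at h1
  have h3 : 1 / 2 / ((1 - Real.log 2 / L) / 2) - 1 ≤ 2 / L := by
    have h4 : 0 < 1 - Real.log 2 / L := by linarith
    have h5 : 1 / 2 / ((1 - Real.log 2 / L) / 2) - 1 = (Real.log 2 / L) / (1 - Real.log 2 / L) := by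
      generalize Real.log 2 / L = x at h4 ⊢
      field_simp
      ring
    rw [h5, div_le_iff₀ h4]
    have h6 : Real.log 2 / L ≤ 1 / L := by
      rw [div_le_div_iff₀ hL0 hL0]; nlinarith
    have h7 : 0 < 1 / L := by positivity
    have h8 : 2 / L = 2 * (1 / L) := by ring
    rw [h8]
    nlinarith
  have h4 : (8 + 4 * C) / L = 4 * (2 / L + C / L) := by ring
  rw [h4]
  linarith

theorem blockD : ∃ C D0 : ℝ, 0 < C ∧ ∀ D : ℝ, D0 ≤ D → ∀ s : Finset ℕ,
    (∀ q ∈ s, q.Prime ∧ D ≤ (q : ℝ) ^ 5 ∧ (q : ℝ) ^ 2 ≤ D) → ∑ q ∈ s, 1 / (q : ℝ) ≤ C := by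
  obtain ⟨C, hC, h⟩ := blk
  refine ⟨8 + 4 * C, Real.exp 20, by positivity, fun D hD s hs => ?_⟩
  have hD0 : 0 < D := lt_of_lt_of_le (Real.exp_pos _) hD
  have hL : 20 ≤ Real.log D := by
    rw [Real.le_log_iff_exp_le hD0]; exact hD
  set L := Real.log D with hLdef
  have hL0 : 0 < L := by linarith
  have hs' : ∀ q ∈ s, q.Prime ∧ 1 / 5 * L ≤ Real.log q ∧ Real.log q ≤ 1 / 2 * L := by
    intro q hq
    obtain ⟨h1, h2, h3⟩ := hs q hq
    have hq0 : (0 : ℝ) < q := by exact_mod_cast h1.pos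
    have h4 := Real.log_le_log hD0 h2
    have h5 := Real.log_le_log (by positivity) h3
    rw [Real.log_pow] at h4 h5
    push_cast at h4 h5
    exact ⟨h1, by linarith, by linarith⟩
  have h1 := h (1 / 5) (1 / 2) D (by norm_num) (by norm_num) (by norm_num) hL s hs'
  rw [← hLdef] at h1
  have h2 : ∑ q ∈ s, 1 / (q : ℝ) ≤ ∑ q ∈ s, 1 / (q : ℝ) / (1 - Real.log q / L) ^ 2 := by
    refine Finset.sum_le_sum fun q hq => ?_
    obtain ⟨h4, h5, h6⟩ := hs' q hq
    have hq0 : (0 : ℝ) < q := by exact_mod_cast h4.pos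
    have h7 : Real.log q / L ≤ 1 / 2 := by rw [div_le_iff₀ hL0]; exact h6
    have h8 : 0 ≤ Real.log q / L := by
      have : 0 ≤ Real.log q := by nlinarith
      positivity
    rw [le_div_iff₀ (by have : 0 < 1 - Real.log q / L := by linarith
                        positivity)]
    have h9 : (1 - Real.log q / L) ^ 2 ≤ 1 := by nlinarith
    have : 0 < 1 / (q : ℝ) := by positivity
    nlinarith
  have h3 : C / L ≤ C := by
    rw [div_le_iff₀ hL0]; nlinarith
  have h4 : 1 / (1 - (1 / 2 : ℝ)) ^ 2 * ((1 / 2 / (1 / 5) - 1) + C / L) = 6 + 4 * (C / L) := by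
    norm_num; ring
  rw [h4] at h1
  linarith

end Pool.Agent.Lib.MP_45349e_nt.JG
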