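import Pool.Agent.Lib.MP_45349e_nt.JG.Bas
import Pool.Agent.Lib.MP_45349e_nt.JG.M07

/-!
# JG-M11b (90 min): the second and the third sum of `Gm`

`L = log D`. PROOF of `sumS2`. The primes `q` in `[z, Y]`, `Y = ⌊√(D/kap)⌋`, are numbered by
`pc q = pc(z-1) + 1, ..., pc Y`; `∑ (pc q - 1) = [A(A-1) - a(a-1)]/2`, `A = pc √(D/kap)`, `a = pc (z-1) ≤ pc z`.
So `≥ (A^2 - A - (pc z)^2)/2` . `A ≥ √(D/kap)/log √(D/kap) ≥ 2 √(D/kap)/L` (`pc_low`), `A ≤ C √D / L`.
`pc z ≤ z/log z + C z/(log z)^2` (`pc_up`). Let `h = D/z^2 ≥ kap`, `log z = (L - log h)/2 ≥ L/4`: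
`(pc z)^2 ≤ 4 (D/h)/(L - log h)^2 (1 + C/L)`; if `h ≤ D^(1/10)`: `(1 - log h/L)^(-2) ≤ 1 + 3 log h / L` and
`log h / h ≤ 1`: `(pc z)^2 ≤ 4 D/(h L^2) + C D/L^3`; if `h > D^(1/10)`: `(pc z)^2 ≤ z^2 = D/h ≤ D^(9/10) ≤
C D/L^3`. Together `∑ (pc q - 1) ≥ 2 (1/kap - 1/h) D/L^2 - C D/L^3`.
PROOF of `sumS3`. All terms are `≥ 1`. `a = 99/100`. For primes `q` in `(√(D/kap), a √D]`: `D/q ≥ √D/a`, so
`pc(D/q) - pc q + 1 ≥ pc(√D/a) - pc(a√D)`. So the sum is `≥ (pc(a√D) - pc √(D/kap)) (pc(√D/a) - pc(a√D))`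
`≥ (2√D/L)^2 (a - kap^(-1/2))(1/a - a) - C D/L^3` (with `pnt2`: `pc(b √D) - pc(b' √D) =
2 (b - b') √D/L + O(√D/L^2)`), `4 (a - kap^(-1/2))(1/a - a) = 0.001134 > 0.00111` (`kap^(-1/2) < 0.9759002`).
-/

open Finset

namespace Pool.Agent.Lib.MP_45349e_nt.JG

open Pool.Agent.Lib.MP_45349e_nt.LS (P lam Lsum V)

private lemma mem_P0 {n p : ℕ} : p ∈ P 0 n ↔ p < n ∧ p.Prime := by
  simp [P]

private lemma pc_eq (t : ℝ) : pc t = ((P 0 (⌊t⌋₊ + 1)).card : ℝ) := by
  have h : (Finset.Icc 1 ⌊t⌋₊).filter Nat.Prime = P 0 (⌊t⌋₊ + 1) := by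
    ext p
    simp only [Finset.mem_filter, Finset.mem_Icc, mem_P0]
    constructor
    · rintro ⟨⟨_, h2⟩, h3⟩
      exact ⟨by omega, h3⟩
    · rintro ⟨h1, h2⟩
      exact ⟨⟨h2.one_le, by omega⟩, h2⟩
  unfold pc
  rw [h]

private lemma pc_nat (n : ℕ) : pc (n : ℝ) = ((P 0 (n + 1)).card : ℝ) := by
  rw [pc_eq, Nat.floor_natCast]

private lemma P0_succ_of (n : ℕ) (h : n.Prime) : P 0 (n + 1) = insert n (P 0 n) := by
  ext p
  simp only [mem_P0, Finset.mem_insert]
  constructor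
  · rintro ⟨h1, h2⟩
    by_cases hp : p = n
    · exact Or.inl hp
    · exact Or.inr ⟨by omega, h2⟩
  · rintro (h1 | ⟨h1, h2⟩)
    · subst h1
      exact ⟨by omega, h⟩
    · exact ⟨by omega, h2⟩

private lemma P0_succ_not (n : ℕ) (h : ¬ n.Prime) : P 0 (n + 1) = P 0 n := by
  ext p
  simp only [mem_P0]
  constructor
  · rintro ⟨h1, h2⟩
    have : p ≠ n := fun hp => h (hp ▸ h2)
    exact ⟨by omega, h2⟩
  · rintro ⟨h1, h2⟩
    exact ⟨by omega, h2⟩

private lemma sum_tri (n : ℕ) :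
    ∑ q ∈ P 0 n, (pc q - 1) = ((P 0 n).card : ℝ) * (((P 0 n).card : ℝ) - 1) / 2 := by
  induction n with
  | zero => simp [P]
  | succ n ih =>
    by_cases h : n.Prime
    · have hn : n ∉ P 0 n := by simp [mem_P0]
      rw [P0_succ_of n h, Finset.sum_insert hn, ih, pc_nat, P0_succ_of n h,
        Finset.card_insert_of_notMem hn]
      push_cast
      ring
    · rw [P0_succ_not n h, ih]

private lemma P_union {a b : ℕ} (h : a ≤ b) : P 0 a ∪ P a b = P 0 b := by
  ext p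
  simp only [Finset.mem_union, P, Finset.mem_filter, Finset.mem_Ico]
  constructor
  · rintro (⟨⟨h0, h1⟩, h2⟩ | ⟨⟨h1, h3⟩, h2⟩)
    · exact ⟨⟨by omega, by omega⟩, h2⟩
    · exact ⟨⟨by omega, by omega⟩, h2⟩
  · rintro ⟨⟨h0, h1⟩, h2⟩
    by_cases hp : p < a
    · exact Or.inl ⟨⟨by omega, hp⟩, h2⟩
    · exact Or.inr ⟨⟨by omega, h1⟩, h2⟩

private lemma P_disj (a b : ℕ) : Disjoint (P 0 a) (P a b) := by
  rw [Finset.disjoint_left]
  intro p h1 h2
  rw [mem_P0] at h1
  simp only [P, Finset.mem_filter, Finset.mem_Ico] at h2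
  omega

private lemma sum_range {a b : ℕ} (h : a ≤ b) :
    ∑ q ∈ P a b, (pc q - 1) = ((P 0 b).card : ℝ) * (((P 0 b).card : ℝ) - 1) / 2 -
      ((P 0 a).card : ℝ) * (((P 0 a).card : ℝ) - 1) / 2 := by
  rw [← sum_tri, ← sum_tri, ← P_union h, Finset.sum_union (P_disj a b)]
  ring

private lemma card_range {a b : ℕ} (h : a ≤ b) :
    ((P a b).card : ℝ) = ((P 0 b).card : ℝ) - ((P 0 a).card : ℝ) := by
  rw [← P_union h, Finset.card_union_of_disjoint (P_disj a b)]
  push_cast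
  ring

private lemma pc_mono {s t : ℝ} (h : s ≤ t) : pc s ≤ pc t := by
  rw [pc_eq, pc_eq]
  norm_cast
  apply Finset.card_le_card
  intro p
  rw [mem_P0, mem_P0]
  rintro ⟨h1, h2⟩
  have := Nat.floor_le_floor h
  exact ⟨by omega, h2⟩

private lemma pc_nonneg (t : ℝ) : 0 ≤ pc t := by
  rw [pc_eq]
  positivity

private lemma kap_pos : 0 < kap := by
  unfold kap
  norm_num

private lemma log_kap_pos : 0 < Real.log kap := by
  apply Real.log_pos
  unfold kap
  norm_num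

theorem sumS2 : ∃ C D0 : ℝ, 0 < C ∧ ∀ D : ℝ, D0 ≤ D → ∀ z : ℕ,
    kap * (z : ℝ) ^ 2 ≤ D → D < (z : ℝ) ^ 4 →
    2 * (1 / kap - (z : ℝ) ^ 2 / D) * D / (Real.log D) ^ 2 - C * D / (Real.log D) ^ 3 ≤
      ∑ q ∈ P z (⌊Real.sqrt (D / kap)⌋₊ + 1), (pc q - 1) := by
  obtain ⟨C, hC, hup⟩ := pc_up
  obtain ⟨t0, ht0, hlow⟩ := pc_low
  -- A / 2 is small
  have hlim : ∀ᶠ D : ℝ in Filter.atTop, (Real.log D) ^ 6 ≤ D := by
    have h := (Real.isLittleO_pow_log_id_atTop (n := 6)).bound (show (0 : ℝ) < 1 by norm_num)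
    filter_upwards [h, Filter.eventually_ge_atTop (1 : ℝ)] with D hD h1
    have h2 : (0 : ℝ) ≤ (Real.log D) ^ 6 := by positivity
    simp only [Real.norm_eq_abs, id, one_mul] at hD
    rwa [abs_of_nonneg h2, abs_of_nonneg (by linarith)] at hD
  obtain ⟨D1, hD1⟩ := Filter.eventually_atTop.1 hlim
  refine ⟨C / 2 + 32 * (2 * C + C ^ 2) + 16, max (max D1 (Real.exp 16)) (kap * t0 ^ 2), by positivity, ?_⟩
  intro D hD z hz1 hz2
  have hDD1 : D1 ≤ D := (le_max_left _ _).trans ((le_max_left _ _).trans hD)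
  have hDe : Real.exp 16 ≤ D := (le_max_right _ _).trans ((le_max_left _ _).trans hD)
  have hDt : kap * t0 ^ 2 ≤ D := (le_max_right _ _).trans hD
  have hkap := kap_pos
  have hDpos : 0 < D := lt_of_lt_of_le (Real.exp_pos _) hDe
  set L := Real.log D with hL
  have hL16 : 16 ≤ L := by
    rw [hL, Real.le_log_iff_exp_le hDpos]
    exact hDe
  set s := Real.sqrt (D / kap) with hs
  have hDk : 0 < D / kap := by positivity
  have hspos : 0 < s := Real.sqrt_pos.2 hDk
  have hs2 : s ^ 2 = D / kap := Real.sq_sqrt hDk.le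
  have hst : t0 ≤ s := by
    apply Real.le_sqrt_of_sq_le
    rw [le_div_iff₀ hkap]
    linarith
  have hs2' : 2 ≤ s := ht0.trans hst
  have hlogs : Real.log s = (L - Real.log kap) / 2 := by
    rw [hs, Real.log_sqrt hDk.le, Real.log_div hDpos.ne' hkap.ne']
  have hlk := log_kap_pos
  have hlogspos : 0 < Real.log s := Real.log_pos (by linarith)
  have hlogs1 : Real.log s ≤ L / 2 := by rw [hlogs]; linarith
  -- z
  have hzs : (z : ℝ) ≤ s := by
    apply Real.le_sqrt_of_sq_le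
    rw [le_div_iff₀ hkap]
    linarith
  have hzpos : 0 < (z : ℝ) := by
    rcases Nat.eq_zero_or_pos z with h | h
    · subst h
      norm_num at hz2
      linarith
    · exact_mod_cast h
  set l := Real.log (z : ℝ) with hl
  have hl4 : L < 4 * l := by
    have := Real.log_lt_log hDpos hz2
    rw [Real.log_pow] at this
    exact_mod_cast this
  have hl1 : 4 ≤ l := by linarith
  have hz2' : (2 : ℝ) ≤ z := by
    by_contra hcon
    push Not at hcon
    have h1 : (z : ℝ) ≤ 1 := by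
      have : z < 2 := by exact_mod_cast hcon
      have : z ≤ 1 := by omega
      exact_mod_cast this
    have := Real.log_nonpos hzpos.le h1
    linarith
  have hz2D : (z : ℝ) ^ 2 ≤ D := by
    have : (1 : ℝ) ≤ kap := by unfold kap; norm_num
    nlinarith [sq_nonneg (z : ℝ)]
  have hLl : 2 * l ≤ L := by
    have := Real.log_le_log (by positivity) hz2D
    rw [Real.log_pow] at this
    exact_mod_cast this
  -- z ^ 2 (L - 2 l) ≤ D
  have hkey : (z : ℝ) ^ 2 * (L - 2 * l) ≤ D := by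
    have h1 : L - 2 * l = Real.log (D / (z : ℝ) ^ 2) := by
      rw [Real.log_div hDpos.ne' (by positivity), Real.log_pow]
      push_cast
      rfl
    have h2 : Real.log (D / (z : ℝ) ^ 2) ≤ D / (z : ℝ) ^ 2 :=
      (Real.log_le_sub_one_of_pos (by positivity)).trans (by linarith)
    rw [h1]
    calc (z : ℝ) ^ 2 * Real.log (D / (z : ℝ) ^ 2) ≤ (z : ℝ) ^ 2 * (D / (z : ℝ) ^ 2) := by gcongr
      _ = D := by field_simp
  -- the sum
  have hzY : z ≤ ⌊s⌋₊ + 1 := by
    have : z ≤ ⌊s⌋₊ := Nat.le_floor hzs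
    omega
  rw [sum_range hzY, ← pc_eq s]
  set A := pc s with hA
  set a := ((P 0 z).card : ℝ) with ha
  have ha0 : 0 ≤ a := by positivity
  have haz : a ≤ pc z := by
    rw [pc_nat, ha]
    norm_cast
    apply Finset.card_le_card
    intro p
    rw [mem_P0, mem_P0]
    rintro ⟨h1, h2⟩
    exact ⟨by omega, h2⟩
  have hA1 : 2 * s / L ≤ A := by
    refine le_trans ?_ (hlow s hst)
    rw [div_le_div_iff₀ (by linarith) hlogspos]
    nlinarith
  have hA1sq : 4 * (D / kap) / L ^ 2 ≤ A ^ 2 := by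
    have h1 : 0 ≤ 2 * s / L := by positivity
    have h2 := pow_le_pow_left₀ h1 hA1 2
    have h3 : (2 * s / L) ^ 2 = 4 * (D / kap) / L ^ 2 := by
      rw [div_pow, mul_pow, hs2]
      norm_num
    rw [← h3]
    exact h2
  have hlogs2 : 1 ≤ Real.log s := by
    have hk : Real.log kap ≤ 1 := by
      have := Real.log_le_sub_one_of_pos hkap
      unfold kap at this ⊢
      norm_num at this ⊢
      linarith
    rw [hlogs]
    linarith
  have hA2 : A ≤ C * D / L ^ 3 := by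
    have h1 := (hup s hs2').2
    have h2 : A ≤ C * s := by
      refine h1.trans ?_
      rw [div_le_iff₀ (by linarith)]
      have : 0 ≤ C * s := by positivity
      nlinarith
    have h3 : s ≤ D / L ^ 3 := by
      have h5 : s ^ 2 ≤ D := by
        rw [hs2, div_le_iff₀ hkap]
        have : (1 : ℝ) ≤ kap := by unfold kap; norm_num
        nlinarith
      have h6 : L ^ 6 ≤ D := hD1 D hDD1
      have h7 : (s * L ^ 3) ^ 2 ≤ D ^ 2 := by
        calc (s * L ^ 3) ^ 2 = s ^ 2 * L ^ 6 := by ring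
          _ ≤ D * D := by gcongr
          _ = D ^ 2 := by ring
      have h8 : s * L ^ 3 ≤ D := le_of_sq_le_sq h7 hDpos.le
      rw [le_div_iff₀ (by positivity)]
      exact h8
    calc A ≤ C * s := h2
      _ ≤ C * (D / L ^ 3) := by gcongr
      _ = C * D / L ^ 3 := by ring
  -- the square of pc z
  have hpz : (pc z) ^ 2 ≤ 4 * (z : ℝ) ^ 2 / L ^ 2 + (64 * (2 * C + C ^ 2) + 32) * D / L ^ 3 := by
    have h1 := (hup z hz2').1
    rw [← hl] at h1
    have hlpos : 0 < l := by linarith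
    have h2 : pc z ≤ z / l * (1 + C / l) := by
      refine h1.trans (le_of_eq ?_)
      field_simp
    have h3 : (pc z) ^ 2 ≤ (z / l * (1 + C / l)) ^ 2 := pow_le_pow_left₀ (pc_nonneg _) h2 2
    have h4 : (z / l * (1 + C / l)) ^ 2 ≤ (z : ℝ) ^ 2 / l ^ 2 + (2 * C + C ^ 2) * (z : ℝ) ^ 2 / l ^ 3 := by
      have h5 : (1 + C / l) ^ 2 ≤ 1 + (2 * C + C ^ 2) / l := by
        have h6 : (C / l) ^ 2 ≤ C ^ 2 / l := by
          rw [div_pow]
          apply div_le_div_of_nonneg_left (by positivity) hlpos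
          nlinarith
        calc (1 + C / l) ^ 2 = 1 + 2 * C / l + (C / l) ^ 2 := by ring
          _ ≤ 1 + 2 * C / l + C ^ 2 / l := by linarith
          _ = 1 + (2 * C + C ^ 2) / l := by ring
      calc (z / l * (1 + C / l)) ^ 2 = (z : ℝ) ^ 2 / l ^ 2 * (1 + C / l) ^ 2 := by ring
        _ ≤ (z : ℝ) ^ 2 / l ^ 2 * (1 + (2 * C + C ^ 2) / l) := by gcongr
        _ = (z : ℝ) ^ 2 / l ^ 2 + (2 * C + C ^ 2) * (z : ℝ) ^ 2 / l ^ 3 := by
          field_simp
    have h5 : (2 * C + C ^ 2) * (z : ℝ) ^ 2 / l ^ 3 ≤ 64 * (2 * C + C ^ 2) * D / L ^ 3 := by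
      rw [div_le_div_iff₀ (by positivity) (by positivity)]
      have h6 : L ^ 3 ≤ 64 * l ^ 3 := by
        calc L ^ 3 ≤ (4 * l) ^ 3 := by gcongr
          _ = 64 * l ^ 3 := by ring
      have h7 : 0 ≤ 2 * C + C ^ 2 := by positivity
      calc (2 * C + C ^ 2) * (z : ℝ) ^ 2 * L ^ 3 ≤ (2 * C + C ^ 2) * D * (64 * l ^ 3) := by gcongr
        _ = 64 * (2 * C + C ^ 2) * D * l ^ 3 := by ring
    have h6 : (z : ℝ) ^ 2 / l ^ 2 ≤ 4 * (z : ℝ) ^ 2 / L ^ 2 + 32 * D / L ^ 3 := by
      have h7 : (z : ℝ) ^ 2 / l ^ 2 - 4 * (z : ℝ) ^ 2 / L ^ 2 =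
          (z : ℝ) ^ 2 * (L - 2 * l) * (L + 2 * l) / (l ^ 2 * L ^ 2) := by
        have : L ≠ 0 := by linarith
        field_simp
        ring
      have h8 : (z : ℝ) ^ 2 * (L - 2 * l) * (L + 2 * l) / (l ^ 2 * L ^ 2) ≤ 32 * D / L ^ 3 := by
        rw [div_le_div_iff₀ (by positivity) (by positivity)]
        have h9 : (z : ℝ) ^ 2 * (L - 2 * l) * (L + 2 * l) ≤ D * (2 * L) := by
          have h10 : 0 ≤ (z : ℝ) ^ 2 * (L - 2 * l) := by
            have : 0 ≤ L - 2 * l := by linarith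
            positivity
          apply mul_le_mul hkey (by linarith) (by linarith) hDpos.le
        have h11 : L ^ 2 ≤ 16 * l ^ 2 := by nlinarith
        calc (z : ℝ) ^ 2 * (L - 2 * l) * (L + 2 * l) * L ^ 3 ≤ D * (2 * L) * L ^ 3 := by
              gcongr
          _ = 2 * D * L ^ 2 * L ^ 2 := by ring
          _ ≤ 2 * D * (16 * l ^ 2) * L ^ 2 := by gcongr
          _ = 32 * D * (l ^ 2 * L ^ 2) := by ring
      linarith
    calc (pc z) ^ 2 ≤ _ := h3.trans h4
      _ ≤ (4 * (z : ℝ) ^ 2 / L ^ 2 + 32 * D / L ^ 3) + 64 * (2 * C + C ^ 2) * D / L ^ 3 :=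
        add_le_add h6 h5
      _ = 4 * (z : ℝ) ^ 2 / L ^ 2 + (64 * (2 * C + C ^ 2) + 32) * D / L ^ 3 := by ring
  have ha2 : a ^ 2 ≤ (pc z) ^ 2 := pow_le_pow_left₀ ha0 haz 2
  have hfin : 2 * (1 / kap - (z : ℝ) ^ 2 / D) * D / L ^ 2 -
      (C / 2 + 32 * (2 * C + C ^ 2) + 16) * D / L ^ 3 =
      (4 * (D / kap) / L ^ 2 - C * D / L ^ 3 -
        (4 * (z : ℝ) ^ 2 / L ^ 2 + (64 * (2 * C + C ^ 2) + 32) * D / L ^ 3)) / 2 := by
    have : L ≠ 0 := by linarith
    field_simp
    ring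
  rw [hfin]
  nlinarith

private lemma pc_ratio : Filter.Tendsto (fun t : ℝ => pc t * Real.log t / t) Filter.atTop
    (nhds 1) := by
  obtain ⟨C, hC, h⟩ := pnt2
  have hlog := Real.tendsto_log_atTop
  have h1 : Filter.Tendsto (fun t : ℝ => 1 / Real.log t + C / (Real.log t) ^ 2) Filter.atTop
      (nhds 0) := by
    have h2 : Filter.Tendsto (fun t : ℝ => 1 / Real.log t) Filter.atTop (nhds 0) := by
      simpa only [one_div, Function.comp_def] using tendsto_inv_atTop_zero.comp hlog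
    have h3 : Filter.Tendsto (fun t : ℝ => C / (Real.log t) ^ 2) Filter.atTop (nhds 0) := by
      have h4 := (h2.mul h2).const_mul C
      simp only [mul_zero] at h4
      refine h4.congr (fun t => ?_)
      ring
    simpa using h2.add h3
  rw [tendsto_iff_dist_tendsto_zero]
  refine squeeze_zero' (Filter.Eventually.of_forall fun t => dist_nonneg) ?_ h1
  filter_upwards [Filter.eventually_ge_atTop (2 : ℝ)] with t ht
  have hl : 0 < Real.log t := Real.log_pos (by linarith)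
  have htp : 0 < t := by linarith
  have h2 := h t ht
  rw [Real.dist_eq]
  have h3 : pc t * Real.log t / t - 1 =
      (pc t - t / Real.log t - t / (Real.log t) ^ 2) * (Real.log t / t) + 1 / Real.log t := by
    field_simp
    ring
  rw [h3]
  have h4 : |(pc t - t / Real.log t - t / (Real.log t) ^ 2) * (Real.log t / t)| ≤
      C / (Real.log t) ^ 2 := by
    rw [abs_mul, abs_of_pos (show 0 < Real.log t / t by positivity)]
    calc |pc t - t / Real.log t - t / (Real.log t) ^ 2| * (Real.log t / t) ≤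
        C * t / (Real.log t) ^ 3 * (Real.log t / t) := by gcongr
      _ = C / (Real.log t) ^ 2 := by field_simp
  calc |(pc t - t / Real.log t - t / (Real.log t) ^ 2) * (Real.log t / t) + 1 / Real.log t|
      ≤ |(pc t - t / Real.log t - t / (Real.log t) ^ 2) * (Real.log t / t)| + |1 / Real.log t| :=
        abs_add_le _ _
    _ ≤ C / (Real.log t) ^ 2 + 1 / Real.log t := by
        rw [abs_of_pos (show 0 < 1 / Real.log t by positivity)]
        linarith
    _ = 1 / Real.log t + C / (Real.log t) ^ 2 := by ring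

private lemma pc_scale {b : ℝ} (hb : 0 < b) :
    Filter.Tendsto (fun x : ℝ => pc (b * x) * Real.log x / x) Filter.atTop (nhds b) := by
  have h1 : Filter.Tendsto (fun x : ℝ => b * x) Filter.atTop Filter.atTop :=
    Filter.tendsto_id.const_mul_atTop hb
  have h2 := pc_ratio.comp h1
  have hlog := Real.tendsto_log_atTop
  have h3 : Filter.Tendsto (fun x : ℝ => Real.log x / Real.log (b * x)) Filter.atTop
      (nhds 1) := by
    have h4 : Filter.Tendsto (fun x : ℝ => Real.log b / Real.log x + 1) Filter.atTop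
        (nhds (0 + 1)) := (hlog.const_div_atTop _).add_const _
    have h5 := h4.inv₀ (by norm_num)
    simp only [zero_add, inv_one] at h5
    refine h5.congr' ?_
    filter_upwards [Filter.eventually_gt_atTop (1 : ℝ)] with x hx
    have hl : 0 < Real.log x := Real.log_pos hx
    rw [Real.log_mul hb.ne' (by linarith)]
    rw [div_add_one hl.ne', inv_div]
  have h6 := (h2.mul h3).const_mul b
  simp only [mul_one] at h6
  refine h6.congr' ?_
  filter_upwards [Filter.eventually_gt_atTop (1 : ℝ), Filter.eventually_gt_atTop (1 / b)] with x hx hx2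
  have hl : 0 < Real.log x := Real.log_pos hx
  have hbx : 1 < b * x := by
    rw [div_lt_iff₀ hb] at hx2
    linarith
  have hl2 : 0 < Real.log (b * x) := Real.log_pos hbx
  simp only [Function.comp]
  have hx0 : 0 < x := by linarith
  field_simp

theorem sumS3 : ∃ D0 : ℝ, ∀ D : ℝ, D0 ≤ D →
    D / (1000 * (Real.log D) ^ 2) ≤
      ∑ q ∈ P (⌊Real.sqrt (D / kap)⌋₊ + 1) (⌊Real.sqrt D⌋₊ + 1), (pc (D / q) - pc q + 1) := by
  set b : ℝ := Real.sqrt (1 / kap) with hb
  have hkap := kap_pos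
  have hbpos : 0 < b := Real.sqrt_pos.2 (by positivity)
  have hb2 : b ≤ 9760 / 10000 := by
    rw [hb]
    apply Real.sqrt_le_iff.2
    constructor
    · norm_num
    · unfold kap
      norm_num
  set a : ℝ := 99 / 100 with ha
  have hapos : 0 < a := by rw [ha]; norm_num
  have h1 : Filter.Tendsto (fun x : ℝ => (pc (a * x) * Real.log x / x - pc (b * x) * Real.log x / x) *
      (pc (1 / a * x) * Real.log x / x - pc (a * x) * Real.log x / x)) Filter.atTop
      (nhds ((a - b) * (1 / a - a))) :=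
    ((pc_scale hapos).sub (pc_scale hbpos)).mul
      ((pc_scale (show 0 < 1 / a by positivity)).sub (pc_scale hapos))
  have h2 : (1 : ℝ) / 4000 < (a - b) * (1 / a - a) := by
    have h3 : (1 : ℝ) / 4000 < (99 / 100 - 9760 / 10000) * (1 / (99 / 100) - 99 / 100) := by norm_num
    have h4 : (99 / 100 - 9760 / 10000) * (1 / (99 / 100) - 99 / 100) ≤ (a - b) * (1 / a - a) := by
      rw [ha]
      apply mul_le_mul_of_nonneg_right _ (by norm_num)
      linarith
    linarith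
  have h3 := h1.eventually (lt_mem_nhds h2)
  have h4 := Real.tendsto_sqrt_atTop.eventually h3
  have h5 : ∀ᶠ D : ℝ in Filter.atTop, D / (1000 * (Real.log D) ^ 2) ≤
      ∑ q ∈ P (⌊Real.sqrt (D / kap)⌋₊ + 1) (⌊Real.sqrt D⌋₊ + 1), (pc (D / q) - pc q + 1) := by
    filter_upwards [h4, Filter.eventually_gt_atTop (1 : ℝ)] with D hD hD1
    have hDpos : 0 < D := by linarith
    set x := Real.sqrt D with hx
    have hxpos : 0 < x := Real.sqrt_pos.2 hDpos
    have hx2 : x ^ 2 = D := Real.sq_sqrt hDpos.le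
    have hlx : Real.log D = 2 * Real.log x := by
      rw [← hx2, Real.log_pow]
      push_cast
      ring
    have hLpos : 0 < Real.log D := Real.log_pos hD1
    have hlpos : 0 < Real.log x := by linarith
    have hsb : Real.sqrt (D / kap) = b * x := by
      rw [hb, hx, ← Real.sqrt_mul (by positivity)]
      congr 1
      ring
    rw [hsb]
    have hba : b ≤ a := by
      rw [ha]
      linarith
    have hfl1 : ⌊b * x⌋₊ + 1 ≤ ⌊a * x⌋₊ + 1 := by
      have : ⌊b * x⌋₊ ≤ ⌊a * x⌋₊ := Nat.floor_le_floor (by gcongr)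
      omega
    have hfl2 : ⌊a * x⌋₊ + 1 ≤ ⌊x⌋₊ + 1 := by
      have : ⌊a * x⌋₊ ≤ ⌊x⌋₊ := Nat.floor_le_floor (by rw [ha]; linarith)
      omega
    have hsub : P (⌊b * x⌋₊ + 1) (⌊a * x⌋₊ + 1) ⊆ P (⌊b * x⌋₊ + 1) (⌊x⌋₊ + 1) := by
      intro p hp
      simp only [P, Finset.mem_filter, Finset.mem_Ico] at hp ⊢
      exact ⟨⟨hp.1.1, by omega⟩, hp.2⟩
    have hstep1 : ∑ q ∈ P (⌊b * x⌋₊ + 1) (⌊a * x⌋₊ + 1), (pc (D / q) - pc q + 1) ≤
        ∑ q ∈ P (⌊b * x⌋₊ + 1) (⌊x⌋₊ + 1), (pc (D / q) - pc q + 1) := by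
      apply Finset.sum_le_sum_of_subset_of_nonneg hsub
      intro q hq _
      simp only [P, Finset.mem_filter, Finset.mem_Ico] at hq
      have hqx : (q : ℝ) ≤ x := (Nat.le_floor_iff hxpos.le).1 (by omega)
      have hq0 : 0 < (q : ℝ) := by exact_mod_cast hq.2.pos
      have : (q : ℝ) ≤ D / q := by
        rw [le_div_iff₀ hq0, ← hx2]
        nlinarith
      have := pc_mono this
      linarith
    have hstep2 : ((P (⌊b * x⌋₊ + 1) (⌊a * x⌋₊ + 1)).card : ℝ) * (pc (1 / a * x) - pc (a * x)) ≤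
        ∑ q ∈ P (⌊b * x⌋₊ + 1) (⌊a * x⌋₊ + 1), (pc (D / q) - pc q + 1) := by
      rw [← nsmul_eq_mul]
      apply Finset.card_nsmul_le_sum
      intro q hq
      simp only [P, Finset.mem_filter, Finset.mem_Ico] at hq
      have hqx : (q : ℝ) ≤ a * x := (Nat.le_floor_iff (by positivity)).1 (by omega)
      have hq0 : 0 < (q : ℝ) := by exact_mod_cast hq.2.pos
      have h6 : 1 / a * x ≤ D / q := by
        rw [le_div_iff₀ hq0, ← hx2]
        calc 1 / a * x * q ≤ 1 / a * x * (a * x) := by gcongr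
          _ = x ^ 2 := by field_simp
      have h7 := pc_mono h6
      have h8 := pc_mono hqx
      linarith
    have hcard : ((P (⌊b * x⌋₊ + 1) (⌊a * x⌋₊ + 1)).card : ℝ) = pc (a * x) - pc (b * x) := by
      rw [card_range hfl1, ← pc_eq, ← pc_eq]
    rw [hcard] at hstep2
    refine le_trans ?_ (hstep2.trans hstep1)
    have h6 : (pc (a * x) * Real.log x / x - pc (b * x) * Real.log x / x) *
        (pc (1 / a * x) * Real.log x / x - pc (a * x) * Real.log x / x) =
        (pc (a * x) - pc (b * x)) * (pc (1 / a * x) - pc (a * x)) * ((Real.log x) ^ 2 / x ^ 2) := by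
      ring
    rw [h6] at hD
    have h7 : D / (1000 * (Real.log D) ^ 2) = 1 / 4000 * (x ^ 2 / (Real.log x) ^ 2) := by
      rw [hlx, ← hx2]
      field_simp
      ring
    rw [h7]
    have h8 : (pc (a * x) - pc (b * x)) * (pc (1 / a * x) - pc (a * x)) =
        (pc (a * x) - pc (b * x)) * (pc (1 / a * x) - pc (a * x)) * ((Real.log x) ^ 2 / x ^ 2) *
          (x ^ 2 / (Real.log x) ^ 2) := by
      field_simp
    rw [h8]
    exact mul_le_mul_of_nonneg_right hD.le (by positivity)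
  exact Filter.eventually_atTop.1 h5

end Pool.Agent.Lib.MP_45349e_nt.JG
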