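import Pool.Agent.Lib.MP_45349e_nt.JG.M08
import Pool.Agent.Lib.MP_45349e_nt.JG.M09
import Pool.Agent.Lib.MP_45349e_nt.JG.M11a
import Pool.Agent.Lib.MP_45349e_nt.JG.M11b

/-!
# JG-M11: (F2b) and (F2a)

The lower bound of `Gm` for `kap z^2 ≤ D < z^4` from the formula of M09 and the prime sums M11a, M11b.
-/

open Finset

namespace Pool.Agent.Lib.MP_45349e_nt.JG

open Pool.Agent.Lib.MP_45349e_nt.LS (P lam Lsum V)

private theorem M11_memP {a b p : ℕ} : p ∈ P a b ↔ a ≤ p ∧ p < b ∧ p.Prime := by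
  simp only [P, mem_filter, mem_Ico]
  tauto

private theorem M11_fl {D : ℝ} (hD : 0 ≤ D) {q : ℕ} (hq : q < ⌊Real.sqrt (D / kap)⌋₊ + 1) :
    kap * (q : ℝ) ^ 2 ≤ D := by
  have hk : (0 : ℝ) < kap := by rw [kap]; norm_num
  have h1 : (q : ℝ) ≤ Real.sqrt (D / kap) := by
    have h2 : q ≤ ⌊Real.sqrt (D / kap)⌋₊ := by omega
    exact (Nat.le_floor_iff (Real.sqrt_nonneg _)).1 h2
  have h3 : (q : ℝ) ^ 2 ≤ D / kap := by
    have h4 := pow_le_pow_left₀ (Nat.cast_nonneg q) h1 2
    rwa [Real.sq_sqrt (div_nonneg hD hk.le)] at h4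
  rw [le_div_iff₀ hk] at h3
  linarith

/-- one term of the first sum -/
private theorem M11_term {C D : ℝ} (hC : 0 < C) (hdel : ∀ y : ℝ, 3 ≤ y →
    |Del y - Real.log kap * y / (Real.log y) ^ 2| ≤ C * y / (Real.log y) ^ 3)
    (hD : Real.exp 4 ≤ D) {q : ℕ} (hq1 : 2 ≤ q) (hq2 : (q : ℝ) ^ 2 ≤ D) :
    Del (D / q) ≤ Real.log kap * (D / (Real.log D) ^ 2) *
      (1 / (q : ℝ) / (1 - Real.log q / Real.log D) ^ 2) +
      8 * C * (D / (Real.log D) ^ 3) * (1 / (q : ℝ)) := by
  have hD0 : 0 < D := (Real.exp_pos 4).trans_le hD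
  have hL : 4 ≤ Real.log D := by
    rw [Real.le_log_iff_exp_le hD0]; exact hD
  have hq0 : (0 : ℝ) < q := by
    have : 0 < q := by omega
    exact_mod_cast this
  have hy3 : 3 ≤ D / q := by
    rw [le_div_iff₀ hq0]
    have h1 : (7 : ℝ) ≤ Real.exp 2 := by
      have := Real.quadratic_le_exp_of_nonneg (x := 2) (by norm_num)
      have h2 := Real.exp_one_gt_d9
      have h3 : Real.exp 2 = Real.exp 1 * Real.exp 1 := by rw [← Real.exp_add]; norm_num
      nlinarith
    have h4 : Real.exp 4 = Real.exp 2 * Real.exp 2 := by rw [← Real.exp_add]; norm_num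
    have h5 : (9 : ℝ) ≤ D := by nlinarith
    by_cases h6 : (q : ℝ) ≤ 3
    · nlinarith
    · push Not at h6
      nlinarith
  have hlq : Real.log q ≤ Real.log D / 2 := by
    have h1 := Real.log_le_log (by positivity) hq2
    rw [Real.log_pow] at h1
    push_cast at h1
    linarith
  have hly : Real.log (D / q) = Real.log D - Real.log q :=
    Real.log_div hD0.ne' hq0.ne'
  have h1 := (abs_le.1 (hdel (D / q) hy3)).2
  rw [hly] at h1
  set L := Real.log D with hLdef
  set l := Real.log q with hldef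
  have hLpos : 0 < L := by linarith
  have hLl : L / 2 ≤ L - l := by linarith
  have hLl0 : 0 < L - l := by linarith
  have e1 : Real.log kap * (D / q) / (L - l) ^ 2 =
      Real.log kap * (D / L ^ 2) * (1 / (q : ℝ) / (1 - l / L) ^ 2) := by
    have h2 : 1 - l / L = (L - l) / L := by field_simp
    rw [h2]
    have h3 := hLl0.ne'
    field_simp
  have e2 : C * (D / q) / (L - l) ^ 3 ≤ 8 * C * (D / L ^ 3) * (1 / (q : ℝ)) := by
    have h2 : (L / 2) ^ 3 ≤ (L - l) ^ 3 := pow_le_pow_left₀ (by positivity) hLl 3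
    have h3 : C * (D / q) / (L - l) ^ 3 ≤ C * (D / q) / (L / 2) ^ 3 := by
      apply div_le_div_of_nonneg_left _ (by positivity) h2
      positivity
    refine h3.trans (le_of_eq ?_)
    field_simp
    norm_num
  rw [e1] at h1
  linarith

theorem F2b : ∃ c7 D0 : ℝ, 0 < c7 ∧ ∀ D : ℝ, D0 ≤ D → ∀ z : ℕ,
    kap * (z : ℝ) ^ 2 ≤ D → D < (z : ℝ) ^ 4 → c7 * D / (Real.log D) ^ 2 ≤ Gm D z := by
  obtain ⟨C, hC, hdel⟩ := del_bd
  obtain ⟨CA, DA, hCA, hA⟩ := blockA
  obtain ⟨CB, DB, hCB, hB⟩ := blockB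
  obtain ⟨CC, DC, hCC, hCc⟩ := blockC
  obtain ⟨CD, DD, hCD, hDd⟩ := blockD
  obtain ⟨C2, D2, hC2, h2⟩ := sumS2
  obtain ⟨D3, h3⟩ := sumS3
  obtain ⟨hk1, hk2⟩ := log_kap
  set K : ℝ := CA + CB + CC + 8 * C * CD + C2 with hK
  have hKpos : 0 < K := by positivity
  refine ⟨1 / 2000, max (max (max DA DB) (max DC DD)) (max (max D2 D3)
    (Real.exp (4000 * K + 1200))), by norm_num, ?_⟩
  intro D hD z hz1 hz2
  simp only [max_le_iff] at hD
  obtain ⟨⟨⟨hDA, hDB⟩, hDC, hDD⟩, ⟨hD2, hD3⟩, hDe⟩ := hD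
  have hD0 : 0 < D := (Real.exp_pos _).trans_le hDe
  set L := Real.log D with hL
  have hLK : 4000 * K + 1200 ≤ L := by
    rw [hL, Real.le_log_iff_exp_le hD0]; exact hDe
  have hLpos : 0 < L := by linarith
  have hDL : D = Real.exp L := by rw [hL, Real.exp_log hD0]
  set X : ℝ := D / L ^ 2 with hX
  have hXbig : 200 ≤ X := by
    have h4 := Real.pow_div_factorial_le_exp L hLpos.le 3
    rw [← hDL] at h4
    rw [hX, le_div_iff₀ (by positivity)]
    have h5 : ((Nat.factorial 3 : ℕ) : ℝ) = 6 := by norm_num [Nat.factorial]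
    rw [h5] at h4
    have h6 : 200 * L ^ 2 ≤ L ^ 3 / 6 := by
      rw [le_div_iff₀ (by norm_num)]
      nlinarith [sq_nonneg L]
    linarith
  have hXpos : 0 < X := by linarith
  have hDe4 : Real.exp 4 ≤ D := by
    refine le_trans (Real.exp_le_exp.2 ?_) hDe
    linarith
  have hD16 : 16 ≤ D := by
    have h4 := Real.add_one_le_exp L
    rw [← hDL] at h4
    linarith
  have hz : 2 ≤ z := by
    by_contra hcon
    have h4 : z ≤ 1 := by omega
    have h5 : (z : ℝ) ≤ 1 := by exact_mod_cast h4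
    have h6 : (z : ℝ) ^ 4 ≤ 1 := pow_le_one₀ (Nat.cast_nonneg z) h5
    linarith
  have hzpos : (0 : ℝ) < z := by
    have : 0 < z := by omega
    exact_mod_cast this
  have hkap : kap = 21 / 20 := rfl
  have hkD : kap ≤ D := by rw [hkap]; linarith
  have hform := Gm_formula hz hkD hz2 hz1
  set s := P z (⌊Real.sqrt (D / kap)⌋₊ + 1) with hs
  have hmem : ∀ q ∈ s, q.Prime ∧ z ≤ q ∧ kap * (q : ℝ) ^ 2 ≤ D ∧ (q : ℝ) ^ 2 ≤ D := by
    intro q hq
    rw [hs, M11_memP] at hq
    have h4 := M11_fl hD0.le hq.2.1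
    refine ⟨hq.2.2, hq.1, h4, ?_⟩
    rw [hkap] at h4
    nlinarith [sq_nonneg (q : ℝ)]
  have hS1 : ∑ q ∈ s, Del (D / q) ≤ Real.log kap * X *
      (∑ q ∈ s, 1 / (q : ℝ) / (1 - Real.log q / L) ^ 2) + 8 * C * (D / L ^ 3) * CD := by
    have h4 : ∑ q ∈ s, Del (D / q) ≤ ∑ q ∈ s, (Real.log kap * X *
        (1 / (q : ℝ) / (1 - Real.log q / L) ^ 2) + 8 * C * (D / L ^ 3) * (1 / (q : ℝ))) := by
      refine sum_le_sum fun q hq => ?_
      obtain ⟨a1, a2, a3, a4⟩ := hmem q hq
      exact M11_term hC hdel hDe4 a1.two_le a4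
    rw [sum_add_distrib, ← mul_sum, ← mul_sum] at h4
    have h5 : ∑ q ∈ s, 1 / (q : ℝ) ≤ CD := by
      refine hDd D hDD s fun q hq => ?_
      obtain ⟨a1, a2, a3, a4⟩ := hmem q hq
      refine ⟨a1, ?_, a4⟩
      have h6 : (z : ℝ) ≤ q := by exact_mod_cast a2
      have h7 : (1 : ℝ) ≤ q := by exact_mod_cast a1.one_lt.le
      have h8 : (z : ℝ) ^ 4 ≤ (q : ℝ) ^ 4 := pow_le_pow_left₀ hzpos.le h6 4
      have h9 : (q : ℝ) ^ 4 ≤ (q : ℝ) ^ 5 := pow_le_pow_right₀ h7 (by norm_num)
      linarith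
    have h6 : 8 * C * (D / L ^ 3) * (∑ q ∈ s, 1 / (q : ℝ)) ≤ 8 * C * (D / L ^ 3) * CD := by
      apply mul_le_mul_of_nonneg_left h5
      positivity
    linarith
  have hS2 := h2 D hD2 z hz1 hz2
  have hS3 := h3 D hD3
  rw [← hs] at hS2
  have e1 : D / L ^ 3 = X / L := by rw [hX]; field_simp
  have e2 : C2 * D / L ^ 3 = C2 * (X / L) := by rw [← e1]; ring
  have e3 : 2 * (1 / kap - (z : ℝ) ^ 2 / D) * D / L ^ 2 =
      2 * (1 / kap - (z : ℝ) ^ 2 / D) * X := by rw [hX]; ring
  have e4 : D / (1000 * L ^ 2) = X / 1000 := by rw [hX]; field_simp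
  rw [← hL] at hS2 hS3
  rw [e2, e3] at hS2
  rw [e4] at hS3
  rw [e1] at hS1
  have e5 : (1 : ℝ) / kap = 20 / 21 := by rw [hkap]; norm_num
  rw [e5] at hS2
  set Y : ℝ := X / L with hY
  have hYpos : 0 < Y := by positivity
  have hYX : K * Y ≤ X / 4000 := by
    rw [hY, mul_div_assoc', div_le_div_iff₀ hLpos (by norm_num)]
    nlinarith
  set B := ∑ q ∈ s, 1 / (q : ℝ) / (1 - Real.log q / L) ^ 2 with hBdef
  set Q : ℝ := (z : ℝ) ^ 2 / D with hQ
  have hQpos : 0 < Q := by positivity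
  have hQ1 : Q ≤ 20 / 21 := by
    rw [hQ, div_le_iff₀ hD0]
    rw [hkap] at hz1
    linarith
  -- the main inequality
  have hmain : Real.log kap * X * B ≤ 1 / 20 * (2 * (20 / 21 - Q) * X) + (CA + CB + CC) * Y := by
    have hlk : 0 < Real.log kap := by linarith
    by_cases hc1 : Real.log z ≤ 9 / 20 * L
    · -- case A
      have hB1 : B ≤ 1.9044 + CA / L := by
        refine hA D hDA s fun q hq => ?_
        obtain ⟨a1, a2, a3, a4⟩ := hmem q hq
        refine ⟨a1, ?_, a4⟩
        have h6 : (z : ℝ) ≤ q := by exact_mod_cast a2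
        have h8 : (z : ℝ) ^ 4 ≤ (q : ℝ) ^ 4 := pow_le_pow_left₀ hzpos.le h6 4
        linarith
      have hQ2 : Q ≤ 1 / 50 := by
        have h6 : (z : ℝ) ^ 2 ≤ Real.exp (9 / 10 * L) := by
          have h7 : (z : ℝ) = Real.exp (Real.log z) := (Real.exp_log hzpos).symm
          rw [h7, ← Real.exp_nat_mul]
          apply Real.exp_le_exp.2
          push_cast
          linarith
        have h8 : Real.exp (9 / 10 * L) * 50 ≤ D := by
          rw [hDL]
          have h9 : (50 : ℝ) ≤ Real.exp (1 / 10 * L) := by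
            have h10 := Real.add_one_le_exp (1 / 10 * L)
            linarith
          calc Real.exp (9 / 10 * L) * 50 ≤ Real.exp (9 / 10 * L) * Real.exp (1 / 10 * L) :=
                mul_le_mul_of_nonneg_left h9 (Real.exp_pos _).le
            _ = Real.exp L := by rw [← Real.exp_add]; congr 1; ring
        rw [hQ, div_le_div_iff₀ hD0 (by norm_num)]
        linarith
      have h6 : Real.log kap * X * B ≤ 0.048791 * X * (1.9044 + CA / L) := by
        apply mul_le_mul _ hB1 _ (by positivity)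
        · exact mul_le_mul_of_nonneg_right hk2.le hXpos.le
        · rw [hBdef]
          exact sum_nonneg fun q _ => by positivity
      have h7 : 0.048791 * X * (1.9044 + CA / L) = 0.048791 * 1.9044 * X + 0.048791 * CA * Y := by
        rw [hY]; ring
      have h8 : 0.048791 * CA * Y ≤ (CA + CB + CC) * Y := by
        apply mul_le_mul_of_nonneg_right _ hYpos.le
        linarith
      have h9 : 0.048791 * 1.9044 * X ≤ 1 / 20 * (2 * (20 / 21 - Q) * X) := by
        have : 0.048791 * 1.9044 ≤ 1 / 20 * (2 * (20 / 21 - Q)) := by linarith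
        nlinarith
      linarith
    · push Not at hc1
      by_cases hc2 : 2 * (z : ℝ) ^ 2 ≤ D
      · -- case B
        have hB1 : B ≤ 0.4121 + CB / L := by
          refine hB D hDB s fun q hq => ?_
          obtain ⟨a1, a2, a3, a4⟩ := hmem q hq
          refine ⟨a1, ?_, a4⟩
          have h6 : (z : ℝ) ≤ q := by exact_mod_cast a2
          have h7 := Real.log_le_log hzpos h6
          linarith
        have hQ2 : Q ≤ 1 / 2 := by
          rw [hQ, div_le_div_iff₀ hD0 (by norm_num)]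
          linarith
        have h6 : Real.log kap * X * B ≤ 0.048791 * X * (0.4121 + CB / L) := by
          apply mul_le_mul _ hB1 _ (by positivity)
          · exact mul_le_mul_of_nonneg_right hk2.le hXpos.le
          · rw [hBdef]
            exact sum_nonneg fun q _ => by positivity
        have h7 : 0.048791 * X * (0.4121 + CB / L) = 0.048791 * 0.4121 * X + 0.048791 * CB * Y := by
          rw [hY]; ring
        have h8 : 0.048791 * CB * Y ≤ (CA + CB + CC) * Y := by
          apply mul_le_mul_of_nonneg_right _ hYpos.le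
          linarith
        have h9 : 0.048791 * 0.4121 * X ≤ 1 / 20 * (2 * (20 / 21 - Q) * X) := by
          have : 0.048791 * 0.4121 ≤ 1 / 20 * (2 * (20 / 21 - Q)) := by linarith
          nlinarith
        linarith
      · -- case C
        push Not at hc2
        have hB1 : B ≤ CC / L := by
          refine hCc D hDC s fun q hq => ?_
          obtain ⟨a1, a2, a3, a4⟩ := hmem q hq
          refine ⟨a1, ?_, a4⟩
          have h6 : (z : ℝ) ≤ q := by exact_mod_cast a2
          have h8 : (z : ℝ) ^ 2 ≤ (q : ℝ) ^ 2 := pow_le_pow_left₀ hzpos.le h6 2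
          linarith
        have h6 : Real.log kap * X * B ≤ 1 * X * (CC / L) := by
          apply mul_le_mul _ hB1 _ (by positivity)
          · exact mul_le_mul_of_nonneg_right (by linarith) hXpos.le
          · rw [hBdef]
            exact sum_nonneg fun q _ => by positivity
        have h7 : 1 * X * (CC / L) = CC * Y := by
          rw [hY]; ring
        have h8 : CC * Y ≤ (CA + CB + CC) * Y := by
          apply mul_le_mul_of_nonneg_right _ hYpos.le
          linarith
        have h9 : 0 ≤ 1 / 20 * (2 * (20 / 21 - Q) * X) := by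
          have : 0 ≤ 20 / 21 - Q := by linarith
          positivity
        linarith
  have hsum : ∑ q ∈ s, (-Del (D / q) + (kap - 1) * (pc q - 1)) =
      -∑ q ∈ s, Del (D / q) + 1 / 20 * ∑ q ∈ s, (pc q - 1) := by
    rw [sum_add_distrib, sum_neg_distrib, ← mul_sum, hkap]
    norm_num
  rw [hform, hsum]
  have hgoal : 1 / 2000 * D / L ^ 2 = X / 2000 := by rw [hX]; ring
  rw [hgoal]
  have hKY : (CA + CB + CC) * Y + 8 * C * Y * CD + 1 / 20 * (C2 * Y) ≤ K * Y := by
    have h0 : 0 ≤ C2 * Y := by positivity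
    have h4 : K * Y = (CA + CB + CC) * Y + 8 * C * Y * CD + C2 * Y := by rw [hK]; ring
    linarith
  have hk0 : 1 - kap = -(1 / 20) := by rw [hkap]; norm_num
  rw [hk0]
  have hX2 : 1 / 20 ≤ X / 4000 := by linarith
  linarith

theorem F2a : ∃ D0 : ℝ, ∀ D : ℝ, D0 ≤ D → ∀ z : ℕ,
    (z : ℝ) ^ 2 ≤ D → D < (z : ℝ) ^ 4 → -1 ≤ Gm D z := by
  obtain ⟨c7, D0, hc, h⟩ := F2b
  refine ⟨max D0 16, ?_⟩
  intro D hD z hz1 hz2
  have hD0 : D0 ≤ D := (le_max_left _ _).trans hD
  have hD1 : 16 ≤ D := (le_max_right _ _).trans hD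
  by_cases hk : kap * (z : ℝ) ^ 2 ≤ D
  · have h1 := h D hD0 z hk hz2
    have h2 : 0 ≤ c7 * D / (Real.log D) ^ 2 := by positivity
    linarith
  · push Not at hk
    have hz : 2 ≤ z := by
      by_contra hcon
      have h4 : z ≤ 1 := by omega
      have h5 : (z : ℝ) ≤ 1 := by exact_mod_cast h4
      have h6 : (z : ℝ) ^ 4 ≤ 1 := pow_le_one₀ (Nat.cast_nonneg z) h5
      linarith
    exact (Gm_small hz (by rw [kap]; linarith) hz2 hk).2

end Pool.Agent.Lib.MP_45349e_nt.JG
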