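import Pool.Agent.Lib.MP_45349e_nt.JG.M08
import Pool.Agent.Lib.MP_45349e_nt.JG.M09
import Pool.Agent.Lib.MP_45349e_nt.JG.M11a

/-!
# JG-M12 (60 min): (F3)

PROOF. `L = log D`. If `kap z^2 ≤ D`: `Gm_formula`: `-Del(D/q) ≤ C (D/q)/(L/2)^3` (`del_bd`, `log kap ≥ 0`,
`D/q ≥ √D`), `∑ 1/q ≤ C` (`blockD`); `∑ (pc q - 1) ≤ (pc √D)^2 ≤ C D/L^2`; third sum: at most `pc √D` terms,
each `≤ pc (D/q) + 1 ≤ pc (√kap √D) + 1 ≤ C √D / L` (`q > √(D/kap)`).
If `D < kap z^2`: `Gm_small`: all `q ≥ z > √(D/kap)`, as the third sum.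
-/

open Finset

namespace Pool.Agent.Lib.MP_45349e_nt.JG

open Pool.Agent.Lib.MP_45349e_nt.LS (P lam Lsum V)

private lemma m12_sqrt {D : ℝ} (hD : Real.exp 20 ≤ D) : 0 < D ∧ 20 ≤ Real.log D ∧
    3 ≤ Real.sqrt D ∧ Real.log (Real.sqrt D) = Real.log D / 2 ∧ Real.log D ≤ Real.sqrt D ∧
    Real.sqrt D ^ 2 = D := by
  have hD0 : 0 < D := lt_of_lt_of_le (Real.exp_pos _) hD
  have hL : 20 ≤ Real.log D := by
    rw [Real.le_log_iff_exp_le hD0]; exact hD
  have h1 : Real.log (Real.sqrt D) = Real.log D / 2 := Real.log_sqrt hD0.le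
  have hs0 : 0 < Real.sqrt D := Real.sqrt_pos.mpr hD0
  have h2 : Real.sqrt D = Real.exp (Real.log D / 2) := by
    rw [← h1, Real.exp_log hs0]
  have h3 : Real.log D ≤ Real.sqrt D := by
    rw [h2]
    have h4 := Real.quadratic_le_exp_of_nonneg (x := Real.log D / 2) (by linarith)
    nlinarith
  exact ⟨hD0, hL, by linarith, h1, h3, Real.sq_sqrt hD0.le⟩

private lemma m12_card {D : ℝ} (hD : Real.exp 20 ≤ D) {C2 : ℝ}
    (h2 : ∀ t : ℝ, 2 ≤ t → pc t ≤ C2 * t / Real.log t) (s : Finset ℕ)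
    (hs : ∀ q ∈ s, q.Prime ∧ (q : ℝ) ^ 2 ≤ D) :
    (s.card : ℝ) ≤ 2 * C2 * Real.sqrt D / Real.log D := by
  obtain ⟨hD0, hL, h3, h4, h5, h6⟩ := m12_sqrt hD
  have h7 := h2 (Real.sqrt D) (by linarith)
  rw [h4] at h7
  have h8 : (s.card : ℝ) ≤ pc (Real.sqrt D) := by
    unfold pc
    refine Nat.cast_le.mpr (Finset.card_le_card fun q hq => ?_)
    obtain ⟨h9, h10⟩ := hs q hq
    rw [Finset.mem_filter, Finset.mem_Icc]
    exact ⟨⟨h9.pos, Nat.le_floor (Real.le_sqrt_of_sq_le h10)⟩, h9⟩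
  have h9 : C2 * Real.sqrt D / (Real.log D / 2) = 2 * C2 * Real.sqrt D / Real.log D := by
    field_simp
  rw [h9] at h7
  linarith

private lemma m12_T {D : ℝ} (hD : Real.exp 20 ≤ D) {C2 : ℝ} (hC2 : 0 < C2)
    (h2 : ∀ t : ℝ, 2 ≤ t → pc t ≤ C2 * t / Real.log t) (s : Finset ℕ)
    (hs : ∀ q ∈ s, q.Prime ∧ (q : ℝ) ^ 2 ≤ D ∧ D ≤ 2 * (q : ℝ) ^ 2) :
    ∑ q ∈ s, (pc (D / q) - pc q + 1) ≤ (4 * C2 + 1) * (2 * C2) * D / (Real.log D) ^ 2 := by
  obtain ⟨hD0, hL, h3, h4, h5, h6⟩ := m12_sqrt hD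
  set L := Real.log D
  have hL0 : 0 < L := by linarith
  have hc := m12_card hD h2 s (fun q hq => ⟨(hs q hq).1, (hs q hq).2.1⟩)
  have ht : ∀ q ∈ s, pc (D / q) - pc q + 1 ≤ (4 * C2 + 1) * Real.sqrt D / L := by
    intro q hq
    obtain ⟨h7, h8, h9⟩ := hs q hq
    have hq0 : (0 : ℝ) < q := by exact_mod_cast h7.pos
    have hqs : (q : ℝ) ≤ Real.sqrt D := Real.le_sqrt_of_sq_le h8
    have h10 : Real.sqrt D ≤ D / q := by
      rw [le_div_iff₀ hq0]; nlinarith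
    have h11 : D / q ≤ 2 * Real.sqrt D := by
      rw [div_le_iff₀ hq0]; nlinarith
    have h12 : L / 2 ≤ Real.log (D / q) := by
      rw [← h4]; exact Real.log_le_log (by linarith) h10
    have h13 := h2 (D / q) (by linarith)
    have h14 : C2 * (D / q) / Real.log (D / q) ≤ C2 * (2 * Real.sqrt D) / (L / 2) :=
      div_le_div₀ (by positivity) (mul_le_mul_of_nonneg_left h11 hC2.le) (by positivity) h12
    have h15 : 0 ≤ pc q := Nat.cast_nonneg _
    have h16 : 1 ≤ Real.sqrt D / L := by rw [one_le_div hL0]; exact h5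
    have h17 : C2 * (2 * Real.sqrt D) / (L / 2) = 4 * C2 * (Real.sqrt D / L) := by
      field_simp; ring
    have h18 : (4 * C2 + 1) * Real.sqrt D / L = 4 * C2 * (Real.sqrt D / L) + Real.sqrt D / L := by
      ring
    rw [h18]
    linarith
  have h7 := Finset.sum_le_card_nsmul s _ _ ht
  rw [nsmul_eq_mul] at h7
  refine h7.trans ?_
  calc (s.card : ℝ) * ((4 * C2 + 1) * Real.sqrt D / L)
      ≤ (2 * C2 * Real.sqrt D / L) * ((4 * C2 + 1) * Real.sqrt D / L) :=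
        mul_le_mul_of_nonneg_right hc (by positivity)
    _ = (4 * C2 + 1) * (2 * C2) * (Real.sqrt D ^ 2) / L ^ 2 := by ring
    _ = _ := by rw [h6]

theorem F3 : ∃ C8 D0 : ℝ, 0 < C8 ∧ ∀ D : ℝ, D0 ≤ D → ∀ z : ℕ,
    (z : ℝ) ^ 2 ≤ D → D < (z : ℝ) ^ 4 → Gm D z ≤ C8 * D / (Real.log D) ^ 2 := by
  obtain ⟨C1, hC1, h1⟩ := del_bd
  obtain ⟨C2, hC2, h2'⟩ := pc_up
  obtain ⟨C3, D3, hC3, h3'⟩ := blockD
  have h2 : ∀ t : ℝ, 2 ≤ t → pc t ≤ C2 * t / Real.log t := fun t ht => (h2' t ht).2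
  refine ⟨(4 * C2 + 1) * (2 * C2) + 8 * C1 * C3 + 10 * C2 ^ 2, max D3 (Real.exp 20), by positivity,
    fun D hDD z hz2 hz4 => ?_⟩
  have hD3 := (le_max_left _ _).trans hDD
  have hD := (le_max_right _ _).trans hDD
  obtain ⟨hD0, hL, hs3, h4, h5, h6⟩ := m12_sqrt hD
  have hD1 : 21 ≤ D := by
    have := Real.add_one_le_exp 20
    linarith
  have hz : 2 ≤ z := by
    by_contra h
    have : z ≤ 1 := by omega
    have h7 : (z : ℝ) ≤ 1 := by exact_mod_cast this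
    have h8 : (z : ℝ) ^ 4 ≤ 1 := pow_le_one₀ (Nat.cast_nonneg _) h7
    linarith
  have hk : kap ≤ D := by
    have : kap = 21 / 20 := rfl
    linarith
  have hk0 : kap = 21 / 20 := rfl
  set L := Real.log D with hLdef
  have hL0 : 0 < L := by linarith
  have hsplit : ((4 * C2 + 1) * (2 * C2) + 8 * C1 * C3 + 10 * C2 ^ 2) * D / L ^ 2 =
      (4 * C2 + 1) * (2 * C2) * D / L ^ 2 + 8 * C1 * C3 * D / L ^ 2 + 10 * C2 ^ 2 * D / L ^ 2 := by
    ring
  have hp1 : 0 ≤ 8 * C1 * C3 * D / L ^ 2 := by positivity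
  have hp2 : 0 ≤ 10 * C2 ^ 2 * D / L ^ 2 := by positivity
  rw [hsplit]
  rcases lt_or_ge D (kap * (z : ℝ) ^ 2) with hc | hc
  · obtain ⟨h7, -⟩ := Gm_small hz hk hz4 hc
    rw [h7]
    have h8 := m12_T hD hC2 h2 (P z (⌊Real.sqrt D⌋₊ + 1)) (fun q hq => by
      obtain ⟨h9, h10, h11⟩ := mem_P.mp hq
      have h12 : q ≤ ⌊Real.sqrt D⌋₊ := by omega
      have h13 : (q : ℝ) ≤ Real.sqrt D := (Nat.le_floor_iff (Real.sqrt_nonneg _)).mp h12
      have h14 : (z : ℝ) ≤ q := by exact_mod_cast h9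
      have h15 : (z : ℝ) ^ 2 ≤ (q : ℝ) ^ 2 := pow_le_pow_left₀ (Nat.cast_nonneg _) h14 2
      refine ⟨h11, ?_, ?_⟩
      · have := pow_le_pow_left₀ (Nat.cast_nonneg q) h13 2
        linarith
      · rw [hk0] at hc
        nlinarith [sq_nonneg (q : ℝ)])
    linarith
  · rw [Gm_formula hz hk hz4 hc]
    have hDk : D / kap ≤ D := by rw [hk0]; linarith
    have h8 := m12_T hD hC2 h2 (P (⌊Real.sqrt (D / kap)⌋₊ + 1) (⌊Real.sqrt D⌋₊ + 1)) (fun q hq => by
      obtain ⟨h9, h10, h11⟩ := mem_P.mp hq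
      have h12 : q ≤ ⌊Real.sqrt D⌋₊ := by omega
      have h13 : (q : ℝ) ≤ Real.sqrt D := (Nat.le_floor_iff (Real.sqrt_nonneg _)).mp h12
      have h14 : Real.sqrt (D / kap) < q := by
        have := Nat.lt_floor_add_one (Real.sqrt (D / kap))
        have h15 : ((⌊Real.sqrt (D / kap)⌋₊ + 1 : ℕ) : ℝ) ≤ q := by exact_mod_cast h9
        push_cast at h15
        linarith
      have h15 : D / kap < (q : ℝ) ^ 2 := (Real.sqrt_lt' (by exact_mod_cast h11.pos)).mp h14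
      refine ⟨h11, ?_, ?_⟩
      · have := pow_le_pow_left₀ (Nat.cast_nonneg q) h13 2
        linarith
      · rw [hk0] at h15
        nlinarith [sq_nonneg (q : ℝ)])
    set s := P z (⌊Real.sqrt (D / kap)⌋₊ + 1) with hs
    have hmem : ∀ q ∈ s, q.Prime ∧ D < (q : ℝ) ^ 4 ∧ (q : ℝ) ≤ Real.sqrt D := by
      intro q hq
      obtain ⟨h9, h10, h11⟩ := mem_P.mp hq
      have h12 : q ≤ ⌊Real.sqrt (D / kap)⌋₊ := by omega
      have h13 : (q : ℝ) ≤ Real.sqrt (D / kap) := (Nat.le_floor_iff (Real.sqrt_nonneg _)).mp h12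
      have h14 : (z : ℝ) ≤ q := by exact_mod_cast h9
      refine ⟨h11, hz4.trans_le (pow_le_pow_left₀ (Nat.cast_nonneg _) h14 4),
        h13.trans (Real.sqrt_le_sqrt hDk)⟩
    have hmem2 : ∀ q ∈ s, q.Prime ∧ (q : ℝ) ^ 2 ≤ D := by
      intro q hq
      obtain ⟨h9, h10, h11⟩ := hmem q hq
      have := pow_le_pow_left₀ (Nat.cast_nonneg q) h11 2
      exact ⟨h9, by linarith⟩
    have hc1 := m12_card hD h2 s hmem2
    have hb := h3' D hD3 s (fun q hq => by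
      obtain ⟨h9, h10, h11⟩ := hmem q hq
      refine ⟨h9, ?_, (hmem2 q hq).2⟩
      have h12 : (1 : ℝ) ≤ q := by exact_mod_cast h9.one_le
      exact h10.le.trans (pow_le_pow_right₀ h12 (by norm_num)))
    have hterm : ∀ q ∈ s, -Del (D / q) + (kap - 1) * (pc q - 1) ≤
        8 * C1 * D / L ^ 3 * (1 / (q : ℝ)) + 5 * C2 * Real.sqrt D / L := by
      intro q hq
      obtain ⟨h9, h10, h11⟩ := hmem q hq
      have hq0 : (0 : ℝ) < q := by exact_mod_cast h9.pos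
      have hq2 : (2 : ℝ) ≤ q := by exact_mod_cast h9.two_le
      have h12 : Real.sqrt D ≤ D / q := by
        rw [le_div_iff₀ hq0]; nlinarith [Real.sqrt_nonneg D]
      have h13 : L / 2 ≤ Real.log (D / q) := by
        rw [← h4]; exact Real.log_le_log (by linarith) h12
      have h14 := h1 (D / q) (by linarith)
      have h15 : 0 ≤ Real.log kap * (D / q) / (Real.log (D / q)) ^ 2 := by
        have := log_kap.1
        positivity
      have h16 : -Del (D / q) ≤ C1 * (D / q) / (Real.log (D / q)) ^ 3 := by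
        have := (abs_le.mp h14).1
        linarith
      have h17 : C1 * (D / q) / (Real.log (D / q)) ^ 3 ≤ C1 * (D / q) / (L / 2) ^ 3 :=
        div_le_div_of_nonneg_left (by positivity) (by positivity)
          (pow_le_pow_left₀ (by positivity) h13 3)
      have h18 : C1 * (D / q) / (L / 2) ^ 3 = 8 * C1 * D / L ^ 3 * (1 / (q : ℝ)) := by
        field_simp; ring
      have h19 : L / 5 ≤ Real.log q := by
        have h20 := Real.log_le_log hD0 h10.le
        rw [Real.log_pow] at h20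
        push_cast at h20
        linarith
      have h20 := h2 q hq2
      have h21 : C2 * (q : ℝ) / Real.log q ≤ C2 * Real.sqrt D / (L / 5) :=
        div_le_div₀ (by positivity) (mul_le_mul_of_nonneg_left h11 hC2.le) (by positivity) h19
      have h22 : C2 * Real.sqrt D / (L / 5) = 5 * C2 * Real.sqrt D / L := by
        field_simp
      have h23 : 0 ≤ pc q := Nat.cast_nonneg _
      have h24 : (kap - 1) * (pc q - 1) ≤ pc q := by rw [hk0]; linarith
      rw [← h18, ← h22]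
      linarith
    have hsum := Finset.sum_le_sum hterm
    have hR : ∑ i ∈ s, (8 * C1 * D / L ^ 3 * (1 / (i : ℝ)) + 5 * C2 * Real.sqrt D / L) =
        8 * C1 * D / L ^ 3 * ∑ q ∈ s, (1 / (q : ℝ)) +
          (s.card : ℝ) * (5 * C2 * Real.sqrt D / L) := by
      rw [Finset.sum_add_distrib, ← Finset.mul_sum, Finset.sum_const, nsmul_eq_mul]
    rw [hR] at hsum
    have e1 : 8 * C1 * D / L ^ 3 * ∑ q ∈ s, (1 / (q : ℝ)) ≤ 8 * C1 * C3 * D / L ^ 2 := by
      calc 8 * C1 * D / L ^ 3 * ∑ q ∈ s, (1 / (q : ℝ)) ≤ 8 * C1 * D / L ^ 3 * C3 :=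
            mul_le_mul_of_nonneg_left hb (by positivity)
        _ = 8 * C1 * C3 * D / L ^ 3 := by ring
        _ ≤ 8 * C1 * C3 * D / L ^ 2 :=
            div_le_div_of_nonneg_left (by positivity) (by positivity)
              (pow_le_pow_right₀ (by linarith) (by norm_num))
    have e2 : (s.card : ℝ) * (5 * C2 * Real.sqrt D / L) ≤ 10 * C2 ^ 2 * D / L ^ 2 := by
      calc (s.card : ℝ) * (5 * C2 * Real.sqrt D / L)
          ≤ (2 * C2 * Real.sqrt D / L) * (5 * C2 * Real.sqrt D / L) :=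
            mul_le_mul_of_nonneg_right hc1 (by positivity)
        _ = 10 * C2 ^ 2 * (Real.sqrt D ^ 2) / L ^ 2 := by ring
        _ = _ := by rw [h6]
    have e3 : 1 - kap ≤ 0 := by rw [hk0]; norm_num
    linarith

end Pool.Agent.Lib.MP_45349e_nt.JG
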