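import Pool.Agent.Lib.MP_45349e_nt.JG.M01
import Pool.Agent.Lib.MP_45349e_nt.JG.M12

/-!
# JG-M13 (75 min): (F4) and (F5)

PROOF of `F4`. `z* = zs D`, `z*^3 > D`: a `z*`-rough `m ≤ D` with `Ω(m)` odd is a prime `≥ z*`, so
`OO y z* = pc y - pc (z* - 1)` for `z* - 1 ≤ y ≤ D`. So `Gp D z* = Del D - (kap - 1) pc (z* - 1)`,
`pc (z* - 1) ≤ D^(1/3)`, and `del_bd`: `Del D ≥ log kap D/L^2 - C D/L^3`; `c4 = log kap / 2`.
PROOF of `F5`. Take `eps` small. `buchGp` between `z` and `z* = zs D` (`z ≤ z*`; `z ≥ 2` since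
`z^(3+eps) ≥ D`): `Gp D z* = Gp D z + ∑_{p ∈ P z z*} Gm (D/p) p`, so
`Gp D z = Gp D z* - ∑ Gm (D/p) p`. For these `p`: `p^3 ≤ D` (`p^2 ≤ D/p`), `p ≥ z ≥ D^(1/(3+eps))` so
`p^5 > D` (`D/p < p^4`), `D/p ≥ D^(2/3)`: `F3`: `Gm (D/p) p ≤ C8 (D/p)/(log (D/p))^2 ≤ (9/4) C8 (D/p)/L^2`.
`∑ 1/p` over the primes in `[D^(1/(3+eps)), D^(1/3)]` is `≤ log((3+eps)/3) + C/L ≤ eps/3 + C/L` (`LS.psum2`).
Choose `eps` with `(9/4) C8 eps/3 ≤ c4/8`. And need `Gp D z* ≥ (3/4)` of ... : use in the proof of `F4` the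
stronger `Gp D z* ≥ (3/2) c4 D/L^2`.
-/

open Finset

namespace Pool.Agent.Lib.MP_45349e_nt.JG

open Pool.Agent.Lib.MP_45349e_nt.LS (P lam Lsum V)

private lemma m13_pow {z m : ℕ} (hm : m ≠ 0) (h : Rough z m) :
    z ^ (ArithmeticFunction.cardFactors m) ≤ m := by
  rw [ArithmeticFunction.cardFactors_apply]
  calc z ^ m.primeFactorsList.length ≤ m.primeFactorsList.prod :=
        List.pow_card_le_prod _ _ (fun p hp => h p (Nat.prime_of_mem_primeFactorsList hp)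
          (Nat.dvd_of_mem_primeFactorsList hp))
    _ = m := Nat.prod_primeFactorsList hm

private lemma m13_iff {D : ℝ} (hD : 0 ≤ D) {m : ℕ} (hm : m ≠ 0) (hmD : (m : ℝ) ≤ D) :
    (Rough (zs D) m ∧ Odd (ArithmeticFunction.cardFactors m)) ↔ (m.Prime ∧ zs D ≤ m) := by
  constructor
  · rintro ⟨h1, h2⟩
    have h3 := m13_pow hm h1
    have h4 : ArithmeticFunction.cardFactors m < 3 := by
      by_contra h5
      have h5' : 3 ≤ ArithmeticFunction.cardFactors m := by omega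
      have h6 : (zs D) ^ 3 ≤ (zs D) ^ (ArithmeticFunction.cardFactors m) :=
        Nat.pow_le_pow_right (by unfold zs; omega) h5'
      have h7 : ((zs D : ℕ) : ℝ) ^ 3 ≤ m := by exact_mod_cast h6.trans h3
      have h8 := zs_cube hD
      linarith
    have h5 : ArithmeticFunction.cardFactors m = 1 := by
      obtain ⟨k, hk⟩ := h2
      omega
    have h6 : m.Prime := ArithmeticFunction.cardFactors_eq_one_iff_prime.mp h5
    exact ⟨h6, h1 m h6 dvd_rfl⟩
  · rintro ⟨h1, h2⟩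
    refine ⟨fun p hp hpm => ?_, ?_⟩
    · rw [(Nat.prime_dvd_prime_iff_eq hp h1).mp hpm]; exact h2
    · rw [ArithmeticFunction.cardFactors_apply_prime h1]; exact odd_one

private lemma m13_OO {D y : ℝ} (hD : 0 ≤ D) (hy : y ≤ D) (hy0 : 0 ≤ y)
    (hN : zs D ≤ ⌊y⌋₊ + 1) :
    OO y (zs D) = pc y - pc ((zs D - 1 : ℕ) : ℝ) := by
  have e1 : OO y (zs D) =
      (((Finset.Icc 1 ⌊y⌋₊).filter (fun m : ℕ => m.Prime ∧ zs D ≤ m)).card : ℝ) := by
    unfold OO
    refine congrArg (fun s : Finset ℕ => (s.card : ℝ)) ?_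
    ext m
    simp only [Finset.mem_filter, Finset.mem_Icc]
    constructor
    · rintro ⟨h1, h2⟩
      exact ⟨h1, (m13_iff hD (by omega) (((Nat.le_floor_iff hy0).mp h1.2).trans hy)).mp h2⟩
    · rintro ⟨h1, h2⟩
      exact ⟨h1, (m13_iff hD (by omega) (((Nat.le_floor_iff hy0).mp h1.2).trans hy)).mpr h2⟩
  have e2 : (Finset.Icc 1 ⌊y⌋₊).filter Nat.Prime =
      (Finset.Icc 1 ⌊y⌋₊).filter (fun m : ℕ => m.Prime ∧ zs D ≤ m) ∪
        (Finset.Icc 1 (zs D - 1)).filter Nat.Prime := by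
    ext m
    simp only [Finset.mem_filter, Finset.mem_Icc, Finset.mem_union]
    constructor
    · rintro ⟨⟨h1, h2⟩, h3⟩
      by_cases h : zs D ≤ m
      · exact Or.inl ⟨⟨h1, h2⟩, h3, h⟩
      · exact Or.inr ⟨⟨h1, by omega⟩, h3⟩
    · rintro (⟨⟨h1, h2⟩, h3, h4⟩ | ⟨⟨h1, h2⟩, h3⟩)
      · exact ⟨⟨h1, h2⟩, h3⟩
      · exact ⟨⟨h1, by omega⟩, h3⟩
  rw [e1]
  unfold pc
  rw [Nat.floor_natCast, e2, Finset.card_union_of_disjoint]
  · push_cast; ring
  · rw [Finset.disjoint_left]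
    intro m hm1 hm2
    simp only [Finset.mem_filter, Finset.mem_Icc] at hm1 hm2
    have : 1 ≤ zs D := by unfold zs; omega
    omega

private lemma m13_pc (N : ℕ) : pc (N : ℝ) ≤ N := by
  unfold pc
  rw [Nat.floor_natCast]
  refine Nat.cast_le.mpr ((Finset.card_filter_le _ _).trans (le_of_eq ?_))
  rw [Nat.card_Icc, Nat.add_sub_cancel]

private lemma m13_F4 : ∃ D0 : ℝ, ∀ D : ℝ, D0 ≤ D →
    3 / 2 * c4 * D / (Real.log D) ^ 2 ≤ Gp D (zs D) := by
  obtain ⟨C, hC, h⟩ := del_bd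
  refine ⟨max (Real.exp (C / 0.006)) (300 ^ 3), fun D hD => ?_⟩
  have hDa : Real.exp (C / 0.006) ≤ D := (le_max_left _ _).trans hD
  have hDb : (300 : ℝ) ^ 3 ≤ D := (le_max_right _ _).trans hD
  have hD0 : 0 < D := lt_of_lt_of_le (by norm_num) hDb
  have hL1 : C / 0.006 ≤ Real.log D := by
    rw [Real.le_log_iff_exp_le hD0]; exact hDa
  have ht3 : (D ^ (1 / 3 : ℝ)) ^ 3 = D := Bas_cube_rt hD0.le
  have ht0 : 0 ≤ D ^ (1 / 3 : ℝ) := Real.rpow_nonneg hD0.le _
  have hzs : zs D = ⌊D ^ (1 / 3 : ℝ)⌋₊ + 1 := rfl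
  set t := D ^ (1 / 3 : ℝ) with htdef
  have ht : 300 ≤ t := by
    refine le_of_pow_le_pow_left₀ (n := 3) (by norm_num) ht0 ?_
    rw [ht3]; exact hDb
  have hk : kap = 21 / 20 := rfl
  have hN1 : zs D - 1 = ⌊t⌋₊ := by rw [hzs]; rfl
  have hNt : (⌊t⌋₊ : ℝ) ≤ t := Nat.floor_le ht0
  have htD : t ≤ D / kap := by
    rw [hk, ← ht3]
    nlinarith [mul_self_nonneg t, mul_nonneg ht0 (mul_self_nonneg t)]
  have hkD : D / kap ≤ D := by rw [hk]; linarith
  have e1 := m13_OO (D := D) (y := D) hD0.le le_rfl hD0.le (by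
    rw [hzs]; exact Nat.add_le_add_right (Nat.floor_mono (htD.trans hkD)) 1)
  have e2 := m13_OO (D := D) (y := D / kap) hD0.le hkD (by linarith) (by
    rw [hzs]; exact Nat.add_le_add_right (Nat.floor_mono htD) 1)
  rw [hN1] at e1 e2
  have e3 : Gp D (zs D) = Del D - (kap - 1) * pc (⌊t⌋₊ : ℝ) := by
    unfold Gp Del
    rw [e1, e2]; ring
  have h1 := (abs_le.mp (h D (by linarith))).1
  have h2 : pc (⌊t⌋₊ : ℝ) ≤ t := (m13_pc _).trans hNt
  have hlt : Real.log D = 6 * Real.log (Real.sqrt t) := by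
    rw [Real.log_sqrt ht0, ← ht3, Real.log_pow]; push_cast; ring
  have hst : 0 < Real.sqrt t := Real.sqrt_pos.mpr (by linarith)
  have hst2 : Real.sqrt t ^ 2 = t := Real.sq_sqrt ht0
  have hls : Real.log (Real.sqrt t) ≤ Real.sqrt t := by
    have := Real.log_le_sub_one_of_pos hst; linarith
  have hL0 : 0 < Real.log D := Real.log_pos (by linarith)
  have hL2 : (Real.log D) ^ 2 ≤ 36 * t := by
    have h3 : Real.log D ≤ 6 * Real.sqrt t := by rw [hlt]; linarith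
    calc (Real.log D) ^ 2 ≤ (6 * Real.sqrt t) ^ 2 := pow_le_pow_left₀ hL0.le h3 2
      _ = 36 * t := by rw [mul_pow, hst2]; norm_num
  have hlk := log_kap.1
  set L := Real.log D with hL
  have hX : 0 < D / L ^ 2 := by positivity
  have h4 : C * D / L ^ 3 ≤ 0.006 * (D / L ^ 2) := by
    have h5 : C * D / L ^ 3 = C / L * (D / L ^ 2) := by field_simp
    rw [h5]
    refine mul_le_mul_of_nonneg_right ?_ hX.le
    rw [div_le_iff₀ hL0]
    rw [div_le_iff₀ (by norm_num)] at hL1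
    linarith
  have h6 : t ≤ 0.12 * (D / L ^ 2) := by
    rw [← mul_div_assoc, le_div_iff₀ (by positivity)]
    calc t * L ^ 2 ≤ t * (36 * t) := mul_le_mul_of_nonneg_left hL2 ht0
      _ ≤ 0.12 * t ^ 3 := by nlinarith [mul_self_nonneg t]
      _ = 0.12 * D := by rw [ht3]
  have h7 : 3 / 2 * c4 * D / L ^ 2 = 3 / 4 * Real.log kap * (D / L ^ 2) := by
    unfold c4; ring
  have h8 : Real.log kap * D / L ^ 2 = Real.log kap * (D / L ^ 2) := by ring
  rw [e3, h7, hk]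
  rw [h8] at h1
  rw [hk] at h1 hlk
  nlinarith [mul_le_mul_of_nonneg_right hlk.le hX.le]

theorem F4 : ∃ D0 : ℝ, ∀ D : ℝ, D0 ≤ D → c4 * D / (Real.log D) ^ 2 ≤ Gp D (zs D) := by
  obtain ⟨D0, h⟩ := m13_F4
  refine ⟨max D0 1, fun D hD => (le_trans ?_ (h D ((le_max_left _ _).trans hD)))⟩
  have h1 : (1 : ℝ) ≤ D := (le_max_right _ _).trans hD
  have h2 : 0 < c4 := by
    have := log_kap.1
    unfold c4; linarith
  refine div_le_div_of_nonneg_right ?_ (by positivity)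
  nlinarith

theorem F5 : ∃ eps D0 : ℝ, 0 < eps ∧ eps < 1 ∧ ∀ D : ℝ, D0 ≤ D → ∀ z : ℕ, z ≤ zs D →
    D ≤ (z : ℝ) ^ (3 + eps) → c4 / 2 * D / (Real.log D) ^ 2 ≤ Gp D z := by
  obtain ⟨D4, h4⟩ := m13_F4
  obtain ⟨C8, D3, hC8, h3⟩ := F3
  obtain ⟨C, hC, hps⟩ := LS.psum2
  have hc4 : 0 < c4 := by
    have := log_kap.1
    unfold c4; linarith
  have heps0 : 0 < min (1 / 2) (c4 / (2 * C8)) := lt_min (by norm_num) (by positivity)
  have heps1 : min (1 / 2) (c4 / (2 * C8)) ≤ 1 / 2 := min_le_left _ _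
  have heps2 : min (1 / 2) (c4 / (2 * C8)) ≤ c4 / (2 * C8) := min_le_right _ _
  set eps := min (1 / 2) (c4 / (2 * C8)) with heps
  refine ⟨eps, max (max D4 ((|D3| + 1) ^ 2)) (max (Real.exp 4) (Real.exp (18 * C8 * C / c4))),
    heps0, by linarith, fun D hD z hz hzD => ?_⟩
  have hD4 : D4 ≤ D := ((le_max_left _ _).trans (le_max_left _ _)).trans hD
  have hD3 : (|D3| + 1) ^ 2 ≤ D := ((le_max_right _ _).trans (le_max_left _ _)).trans hD
  have hDe : Real.exp 4 ≤ D := ((le_max_left _ _).trans (le_max_right _ _)).trans hD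
  have hDf : Real.exp (18 * C8 * C / c4) ≤ D := ((le_max_right _ _).trans (le_max_right _ _)).trans hD
  have hD0 : 0 < D := lt_of_lt_of_le (Real.exp_pos _) hDe
  have hL4 : 4 ≤ Real.log D := by
    rw [Real.le_log_iff_exp_le hD0]; exact hDe
  have hLf : 18 * C8 * C / c4 ≤ Real.log D := by
    rw [Real.le_log_iff_exp_le hD0]; exact hDf
  have hD1 : 1 < D := by
    have := Real.add_one_le_exp (4 : ℝ)
    linarith
  set L := Real.log D with hL
  have hL0 : 0 < L := by linarith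
  have hz2 : 2 ≤ z := by
    by_contra hz1
    have h5 : (z : ℝ) ≤ 1 := by
      have : z ≤ 1 := by omega
      exact_mod_cast this
    have h6 : (z : ℝ) ^ (3 + eps) ≤ 1 := Real.rpow_le_one (Nat.cast_nonneg z) h5 (by linarith)
    linarith
  have hz0 : (0 : ℝ) < z := by
    have : (2 : ℝ) ≤ z := by exact_mod_cast hz2
    linarith
  have hlz : L ≤ (3 + eps) * Real.log z := by
    have := Real.log_le_log hD0 hzD
    rwa [Real.log_rpow hz0] at this
  have hB := buchGp D hz2 hz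
  have hmem : ∀ p ∈ P z (zs D), p.Prime ∧ L / (3 + eps) ≤ Real.log p ∧ 3 * Real.log p ≤ L ∧
      (p : ℝ) ^ 3 ≤ D := by
    intro p hp
    obtain ⟨h5, h6, h7⟩ := mem_P.mp hp
    have h8 := (lt_zs hD0.le p).mp h6
    have hp0 : (0 : ℝ) < p := by exact_mod_cast h7.pos
    refine ⟨h7, ?_, ?_, h8⟩
    · rw [div_le_iff₀ (by linarith)]
      have h9 : Real.log z ≤ Real.log p := Real.log_le_log hz0 (by exact_mod_cast h5)
      nlinarith
    · have := Real.log_le_log (by positivity) h8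
      rw [Real.log_pow] at this
      push_cast at this
      linarith
  have hterm : ∀ p ∈ P z (zs D), Gm (D / p) p ≤ 9 / 4 * C8 * (D / L ^ 2) * (1 / (p : ℝ)) := by
    intro p hp
    obtain ⟨h5, h6, h7, h8⟩ := hmem p hp
    have hp0 : (0 : ℝ) < p := by exact_mod_cast h5.pos
    have hp1 : (1 : ℝ) ≤ p := by exact_mod_cast h5.one_le
    have hp2 : (p : ℝ) ^ 2 ≤ D := (pow_le_pow_right₀ hp1 (by norm_num)).trans h8
    have h9 : Real.sqrt D ≤ D / p := by
      rw [le_div_iff₀ hp0]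
      have h10 : (p : ℝ) ≤ Real.sqrt D := Real.le_sqrt_of_sq_le hp2
      have h11 := Real.sq_sqrt hD0.le
      nlinarith [Real.sqrt_nonneg D]
    have h10 : D3 ≤ D / p := by
      have h11 : |D3| + 1 ≤ Real.sqrt D := Real.le_sqrt_of_sq_le hD3
      have := le_abs_self D3
      linarith
    have h11 : (p : ℝ) ^ 2 ≤ D / p := by
      rw [le_div_iff₀ hp0]
      calc (p : ℝ) ^ 2 * p = (p : ℝ) ^ 3 := by ring
        _ ≤ D := h8
    have h12 : D / p < (p : ℝ) ^ 4 := by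
      rw [div_lt_iff₀ hp0]
      have h13 : L < Real.log ((p : ℝ) ^ 4 * p) := by
        rw [show (p : ℝ) ^ 4 * p = (p : ℝ) ^ 5 by ring, Real.log_pow]
        push_cast
        rw [div_le_iff₀ (by linarith)] at h6
        have h14 : 0 < Real.log p := by
          by_contra h15
          have : Real.log p * (3 + eps) ≤ 0 := mul_nonpos_of_nonpos_of_nonneg (not_lt.mp h15) (by linarith)
          linarith
        nlinarith
      exact (Real.log_lt_log_iff hD0 (by positivity)).mp h13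
    have h13 := h3 (D / p) h10 p h11 h12
    have h14 : Real.log (D / p) = L - Real.log p := Real.log_div hD0.ne' hp0.ne'
    rw [h14] at h13
    refine h13.trans ?_
    have h15 : 2 / 3 * L ≤ L - Real.log p := by linarith
    have h16 : C8 * (D / p) / (L - Real.log p) ^ 2 ≤ C8 * (D / p) / (2 / 3 * L) ^ 2 :=
      div_le_div_of_nonneg_left (by positivity) (by positivity)
        (pow_le_pow_left₀ (by positivity) h15 2)
    refine h16.trans (le_of_eq ?_)
    field_simp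
    ring
  have hsum := Finset.sum_le_sum hterm
  rw [← Finset.mul_sum] at hsum
  have hu : (2 : ℝ) ≤ Real.exp (L / (3 + eps)) := by
    have h5 : 1 ≤ L / (3 + eps) := by
      rw [le_div_iff₀ (by linarith)]; linarith
    have := Real.add_one_le_exp (L / (3 + eps))
    linarith
  have huv : Real.exp (L / (3 + eps)) ≤ Real.exp (L / 3) := by
    refine Real.exp_le_exp.mpr (div_le_div_of_nonneg_left hL0.le (by norm_num) (by linarith))
  have hps' := hps (Real.exp (L / (3 + eps))) (Real.exp (L / 3)) hu huv (P z (zs D)) (fun p hp => by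
    obtain ⟨h5, h6, h7, h8⟩ := hmem p hp
    have hp0 : (0 : ℝ) < p := by exact_mod_cast h5.pos
    refine ⟨h5, ?_, ?_⟩
    · rw [← Real.le_log_iff_exp_le hp0]; exact h6
    · rw [← Real.log_le_iff_le_exp hp0]; linarith)
  rw [Real.log_exp, Real.log_exp] at hps'
  have h5 : L / 3 / (L / (3 + eps)) = 1 + eps / 3 := by
    field_simp
  rw [h5] at hps'
  have h6 : Real.log (1 + eps / 3) ≤ eps / 3 := by
    have := Real.log_le_sub_one_of_pos (x := 1 + eps / 3) (by linarith)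
    linarith
  have h7 : C / (L / (3 + eps)) ≤ 4 * C / L := by
    rw [div_div_eq_mul_div]
    refine div_le_div_of_nonneg_right ?_ hL0.le
    nlinarith
  have h8 : ∑ p ∈ P z (zs D), 1 / (p : ℝ) ≤ eps / 3 + 4 * C / L := by linarith
  have h9 := h4 D hD4
  have hX : 0 < D / L ^ 2 := by positivity
  have h10 : 9 / 4 * C8 * (eps / 3 + 4 * C / L) ≤ c4 := by
    have h11 : C8 * eps ≤ c4 / 2 := by
      rw [le_div_iff₀ (by positivity)] at heps2
      linarith
    have h12 : C8 * (C / L) ≤ c4 / 18 := by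
      rw [div_le_iff₀ hc4] at hLf
      rw [← mul_div_assoc, div_le_iff₀ hL0]
      linarith
    have h13 : 9 / 4 * C8 * (eps / 3 + 4 * C / L) = 3 / 4 * (C8 * eps) + 9 * (C8 * (C / L)) := by
      ring
    rw [h13]
    linarith
  have h11 : 9 / 4 * C8 * (D / L ^ 2) * ∑ p ∈ P z (zs D), 1 / (p : ℝ) ≤ c4 * (D / L ^ 2) := by
    calc 9 / 4 * C8 * (D / L ^ 2) * ∑ p ∈ P z (zs D), 1 / (p : ℝ)
        ≤ 9 / 4 * C8 * (D / L ^ 2) * (eps / 3 + 4 * C / L) :=
          mul_le_mul_of_nonneg_left h8 (by positivity)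
      _ = 9 / 4 * C8 * (eps / 3 + 4 * C / L) * (D / L ^ 2) := by ring
      _ ≤ c4 * (D / L ^ 2) := mul_le_mul_of_nonneg_right h10 hX.le
  have h12 : 3 / 2 * c4 * D / L ^ 2 = 3 / 2 * (c4 * (D / L ^ 2)) := by ring
  have h13 : c4 / 2 * D / L ^ 2 = 1 / 2 * (c4 * (D / L ^ 2)) := by ring
  rw [h12] at h9
  rw [h13]
  linarith

end Pool.Agent.Lib.MP_45349e_nt.JG
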