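import Pool.Agent.Lib.MP_45349e_nt.JG.Bas
import Pool.Agent.Lib.MP_45349e_nt.LS.PSum

/-!
# JG-M15 (75 min): partial summation with a nondecreasing function

PROOF of `msum`. `PSum_c n = log n / n` on the primes, `PSum_S n = ∑_{m ≤ n} PSum_c m = log n + r(n)`,
`|r| ≤ C` (`LS.PSum_bound`). `∑_{a ≤ n < b} PSum_c n f(log n) = ∑ (log n - log (n-1)) f(log n) +
∑ (r(n) - r(n-1)) f(log n)`. Second sum, Abel summation: `= r(b-1) f(log (b-1)) - r(a-1) f(log a) -
∑_{n=a}^{b-2} r(n) (f(log (n+1)) - f(log n)) ≤ 3 C f(log b)` (`f ≥ 0` nondecreasing). First sum: for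
`a ≤ n < b`: `F(log (n+1)) - F(log n) ≥ (log (n+1) - log n) f(log n)` (mean value theorem, `f` nondecreasing),
and `∑ [(log n - log (n-1)) - (log (n+1) - log n)] f(log n) ≤ f(log b) ∑ (...) ≤ f(log b) log 2` (telescoping,
the terms are `≥ 0`, `n ≥ 2`). (Induction on `b` is possible for both parts.)
`f13`: `LS.psum3` with `u = D^a`, `v = D^b`: the sum is `≥ log(b/a) - C/(a L) ≥ log(b/a)/2`.
`f13'`: the lower limit is `⌊D^a⌋ + 1` (at most one prime less: `1/p ≤ D^(-a)`).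
-/

open Finset

namespace Pool.Agent.Lib.MP_45349e_nt.JG

open Pool.Agent.Lib.MP_45349e_nt.LS (P lam Lsum V)

open Pool.Agent.Lib.MP_45349e_nt.LS (PSum_c PSum_d PSum_S PSum_bound PSum_S_step PSum_d_nonneg
  PSum_d_le psum3)

private theorem m15_d_anti {n : ℕ} (hn : 2 ≤ n) : PSum_d (n + 1) ≤ PSum_d n := by
  unfold PSum_d
  rw [Nat.add_sub_cancel]
  have h4 : (0 : ℝ) < ((n - 1 : ℕ) : ℝ) := by exact_mod_cast (show 0 < n - 1 by omega)
  have h5 : (0 : ℝ) < (n : ℝ) := by exact_mod_cast (show 0 < n by omega)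
  have h6 : (0 : ℝ) < ((n + 1 : ℕ) : ℝ) := by exact_mod_cast Nat.succ_pos n
  have h7 : Real.log (((n + 1 : ℕ) : ℝ) * ((n - 1 : ℕ) : ℝ)) ≤ Real.log ((n : ℝ) * n) := by
    apply Real.log_le_log (by positivity)
    have h8 : (n + 1) * (n - 1) ≤ n * n := by
      obtain ⟨m, rfl⟩ : ∃ m, n = m + 1 := ⟨n - 1, by omega⟩
      rw [Nat.add_sub_cancel]
      nlinarith
    exact_mod_cast h8
  rw [Real.log_mul h6.ne' h4.ne', Real.log_mul h5.ne' h5.ne'] at h7
  linarith

private theorem m15_mem {a b n : ℕ} (ha : 2 ≤ a) (h1 : a ≤ n) (h2 : n ≤ b) :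
    Real.log (n : ℝ) ∈ Set.Icc (Real.log a) (Real.log b) := by
  constructor
  · exact Real.log_le_log (by exact_mod_cast (show 0 < a by omega)) (by exact_mod_cast h1)
  · exact Real.log_le_log (by exact_mod_cast (show 0 < n by omega)) (by exact_mod_cast h2)

/-- the smooth part -/
private theorem m15_smooth {a b : ℕ} (ha : 2 ≤ a) {f F : ℝ → ℝ}
    (hf : MonotoneOn f (Set.Icc (Real.log a) (Real.log b)))
    (hF : ∀ v ∈ Set.Icc (Real.log a) (Real.log b), HasDerivAt F (f v) v) (m : ℕ) (ham : a ≤ m)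
    (hmb : m ≤ b) :
    ∑ n ∈ Finset.Ico a m, PSum_d n * f (Real.log n) ≤
      F (Real.log m) - F (Real.log a) + (PSum_d a - PSum_d m) * f (Real.log b) := by
  induction m, ham using Nat.le_induction with
  | base => rw [Finset.Ico_self, Finset.sum_empty]; simp
  | succ m ham ih =>
    rw [Finset.sum_Ico_succ_top ham]
    have ih' := ih (by omega)
    have e1 := m15_mem ha ham (show m ≤ b by omega)
    have e2 := m15_mem ha (show a ≤ m + 1 by omega) hmb
    have e3 := m15_mem ha (show a ≤ b by omega) (le_refl b)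
    have hlt : Real.log (m : ℝ) < Real.log ((m + 1 : ℕ) : ℝ) :=
      Real.log_lt_log (by exact_mod_cast (show 0 < m by omega)) (by exact_mod_cast Nat.lt_succ_self m)
    obtain ⟨c, hc, hc2⟩ := exists_hasDerivAt_eq_slope F f hlt
      (fun x hx => (hF x ⟨e1.1.trans hx.1, hx.2.trans e2.2⟩).continuousAt.continuousWithinAt)
      (fun x hx => hF x ⟨e1.1.trans hx.1.le, hx.2.le.trans e2.2⟩)
    have h1 : f (Real.log m) ≤ f c := hf e1 ⟨e1.1.trans hc.1.le, hc.2.le.trans e2.2⟩ hc.1.le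
    have h2 : f (Real.log m) * (Real.log ((m + 1 : ℕ) : ℝ) - Real.log m) ≤
        F (Real.log ((m + 1 : ℕ) : ℝ)) - F (Real.log m) := by
      rw [eq_div_iff (by linarith)] at hc2
      rw [← hc2]
      exact mul_le_mul_of_nonneg_right h1 (by linarith)
    have h3 : PSum_d (m + 1) = Real.log ((m + 1 : ℕ) : ℝ) - Real.log m := by
      unfold PSum_d
      rw [Nat.add_sub_cancel]
    rw [← h3] at h2
    have h4 : (PSum_d m - PSum_d (m + 1)) * f (Real.log m) ≤
        (PSum_d m - PSum_d (m + 1)) * f (Real.log b) :=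
      mul_le_mul_of_nonneg_left (hf e1 e3 e1.2)
        (by linarith [m15_d_anti (n := m) (by omega)])
    linarith

/-- the remainder -/
private theorem m15_rest {C : ℝ} (hC : ∀ n : ℕ, 1 ≤ n → |PSum_S n - Real.log n| ≤ C) {a b : ℕ}
    (ha : 2 ≤ a) {f : ℝ → ℝ} (hf : MonotoneOn f (Set.Icc (Real.log a) (Real.log b)))
    (hf0 : ∀ v ∈ Set.Icc (Real.log a) (Real.log b), 0 ≤ f v) (m : ℕ) (ham : a ≤ m) (hmb : m ≤ b) :
    |(∑ n ∈ Finset.Ico a m, PSum_c n * f (Real.log n) -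
      ∑ n ∈ Finset.Ico a m, PSum_d n * f (Real.log n)) -
      (PSum_S (m - 1) - Real.log ((m - 1 : ℕ) : ℝ)) * f (Real.log m)| ≤ C * f (Real.log m) := by
  induction m, ham using Nat.le_induction with
  | base =>
    have e0 := m15_mem ha (le_refl a) hmb
    rw [Finset.Ico_self, Finset.sum_empty, Finset.sum_empty, sub_zero, zero_sub, abs_neg,
      abs_mul, abs_of_nonneg (hf0 _ e0)]
    exact mul_le_mul_of_nonneg_right (hC (a - 1) (by omega)) (hf0 _ e0)
  | succ m ham ih =>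
    have ih' := ih (by omega)
    have e1 := m15_mem ha ham (show m ≤ b by omega)
    have e2 := m15_mem ha (show a ≤ m + 1 by omega) hmb
    have hle : Real.log (m : ℝ) ≤ Real.log ((m + 1 : ℕ) : ℝ) :=
      Real.log_le_log (by exact_mod_cast (show 0 < m by omega)) (by exact_mod_cast Nat.le_succ m)
    rw [Finset.sum_Ico_succ_top ham, Finset.sum_Ico_succ_top ham, Nat.add_sub_cancel]
    have h1 := PSum_S_step m (by omega)
    have h2 : (∑ n ∈ Finset.Ico a m, PSum_c n * f (Real.log n) + PSum_c m * f (Real.log m)) -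
        (∑ n ∈ Finset.Ico a m, PSum_d n * f (Real.log n) + PSum_d m * f (Real.log m)) -
        (PSum_S m - Real.log (m : ℝ)) * f (Real.log ((m + 1 : ℕ) : ℝ)) =
        ((∑ n ∈ Finset.Ico a m, PSum_c n * f (Real.log n) -
          ∑ n ∈ Finset.Ico a m, PSum_d n * f (Real.log n)) -
          (PSum_S (m - 1) - Real.log ((m - 1 : ℕ) : ℝ)) * f (Real.log m)) -
        (PSum_S m - Real.log (m : ℝ)) * (f (Real.log ((m + 1 : ℕ) : ℝ)) - f (Real.log m)) := by
      have h3 : PSum_c m = PSum_S m - PSum_S (m - 1) := by rw [h1]; ring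
      rw [h3]
      unfold PSum_d
      ring
    rw [h2]
    refine (abs_sub _ _).trans ?_
    have h4 : |(PSum_S m - Real.log (m : ℝ)) *
        (f (Real.log ((m + 1 : ℕ) : ℝ)) - f (Real.log m))| ≤
        C * (f (Real.log ((m + 1 : ℕ) : ℝ)) - f (Real.log m)) := by
      have h5 : 0 ≤ f (Real.log ((m + 1 : ℕ) : ℝ)) - f (Real.log m) := by
        linarith [hf e1 e2 hle]
      rw [abs_mul, abs_of_nonneg h5]
      exact mul_le_mul_of_nonneg_right (hC m (by omega)) h5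
    linarith

theorem msum : ∃ C : ℝ, 0 < C ∧ ∀ a b : ℕ, 2 ≤ a → a ≤ b → ∀ f F : ℝ → ℝ,
    MonotoneOn f (Set.Icc (Real.log a) (Real.log b)) →
    (∀ v ∈ Set.Icc (Real.log a) (Real.log b), 0 ≤ f v) →
    (∀ v ∈ Set.Icc (Real.log a) (Real.log b), HasDerivAt F (f v) v) →
    ∑ p ∈ P a b, Real.log p / p * f (Real.log p) ≤
      F (Real.log b) - F (Real.log a) + C * f (Real.log b) := by
  obtain ⟨C, hC0, hC⟩ := PSum_bound
  have hl2 : 0 < Real.log 2 := Real.log_pos (by norm_num)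
  refine ⟨2 * C + Real.log 2, by positivity, fun a b ha hab f F hf hf0 hF => ?_⟩
  have h1 := m15_smooth ha hf hF b hab le_rfl
  have h2 := m15_rest hC ha hf hf0 b hab le_rfl
  have e3 := m15_mem ha hab (le_refl b)
  have h0 := hf0 _ e3
  have h3 : ∑ p ∈ P a b, Real.log p / p * f (Real.log p) =
      ∑ n ∈ Finset.Ico a b, PSum_c n * f (Real.log n) := by
    unfold P
    rw [Finset.sum_filter]
    refine Finset.sum_congr rfl fun n _ => ?_
    unfold PSum_c
    split_ifs with h4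
    · rfl
    · rw [zero_mul]
  rw [h3]
  have h4 : (PSum_S (b - 1) - Real.log ((b - 1 : ℕ) : ℝ)) * f (Real.log b) ≤
      C * f (Real.log b) :=
    mul_le_mul_of_nonneg_right ((le_abs_self _).trans (hC (b - 1) (by omega))) h0
  have h5 : (PSum_d a - PSum_d b) * f (Real.log b) ≤ Real.log 2 * f (Real.log b) := by
    refine mul_le_mul_of_nonneg_right ?_ h0
    linarith [PSum_d_le ha, PSum_d_nonneg (ha.trans hab)]
  have h6 := (abs_le.mp h2).2
  linarith

theorem f13 {a b : ℝ} (ha : 0 < a) (hab : a < b) : ∃ c D0 : ℝ, 0 < c ∧ ∀ D : ℝ, D0 ≤ D →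
    c ≤ ∑ p ∈ P ⌈D ^ a⌉₊ ⌈D ^ b⌉₊, 1 / (p : ℝ) := by
  obtain ⟨C, hC0, hC⟩ := psum3
  have hc : 0 < Real.log (b / a) / 2 := by
    have h1 : 1 < b / a := by rwa [one_lt_div ha]
    have := Real.log_pos h1
    positivity
  have hev : ∀ᶠ D : ℝ in Filter.atTop, 2 ≤ D ^ a ∧ 1 < D ∧ C / (a * Real.log D) <
      Real.log (b / a) / 2 := by
    refine Filter.Eventually.and ((tendsto_rpow_atTop ha).eventually_ge_atTop 2)
      (Filter.Eventually.and (Filter.eventually_gt_atTop 1) ?_)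
    have h1 : Filter.Tendsto (fun D : ℝ => C / (a * Real.log D)) Filter.atTop (nhds 0) :=
      (Filter.Tendsto.const_mul_atTop ha Real.tendsto_log_atTop).const_div_atTop C
    exact h1.eventually_lt_const hc
  obtain ⟨D0, hD0⟩ := Filter.eventually_atTop.mp hev
  refine ⟨Real.log (b / a) / 2, D0, hc, fun D hD => ?_⟩
  obtain ⟨h2, h1, h3⟩ := hD0 D hD
  have hlD : 0 < Real.log D := Real.log_pos h1
  have hD : 0 < D := by linarith
  have h4 := hC (D ^ a) (D ^ b) h2 (Real.rpow_le_rpow_of_exponent_le h1.le hab.le)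
  rw [Real.log_rpow hD, Real.log_rpow hD, mul_div_mul_right b a hlD.ne'] at h4
  unfold P
  linarith

theorem f13' {a b : ℝ} (ha : 0 < a) (hab : a < b) : ∃ c D0 : ℝ, 0 < c ∧ ∀ D : ℝ, D0 ≤ D →
    c ≤ ∑ p ∈ P (⌊D ^ a⌋₊ + 1) ⌈D ^ b⌉₊, 1 / (p : ℝ) := by
  obtain ⟨c, D0, hc, h⟩ := f13 (a := (a + b) / 2) (b := b) (by linarith) (by linarith)
  have hev : ∀ᶠ D : ℝ in Filter.atTop, 2 ≤ D ^ ((b - a) / 2) ∧ 1 < D :=
    Filter.Eventually.and ((tendsto_rpow_atTop (by linarith)).eventually_ge_atTop 2)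
      (Filter.eventually_gt_atTop 1)
  obtain ⟨D1, hD1⟩ := Filter.eventually_atTop.mp hev
  refine ⟨c, max D0 D1, hc, fun D hD => ?_⟩
  obtain ⟨h2, h1⟩ := hD1 D ((le_max_right _ _).trans hD)
  refine (h D ((le_max_left _ _).trans hD)).trans ?_
  refine Finset.sum_le_sum_of_subset_of_nonneg ?_ (fun p _ _ => by positivity)
  unfold P
  refine Finset.filter_subset_filter _ (Finset.Ico_subset_Ico_left ?_)
  have hD : 0 < D := by linarith
  have h3 : D ^ ((a + b) / 2) = D ^ a * D ^ ((b - a) / 2) := by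
    rw [← Real.rpow_add hD]
    congr 1
    ring
  have h4 : 1 ≤ D ^ a := Real.one_le_rpow h1.le ha.le
  have h5 : D ^ a + 1 ≤ D ^ ((a + b) / 2) := by
    rw [h3]
    nlinarith
  have h6 : (⌊D ^ a⌋₊ : ℝ) ≤ D ^ a := Nat.floor_le (by linarith)
  have h7 : (((⌊D ^ a⌋₊ + 1 : ℕ)) : ℝ) ≤ (⌈D ^ ((a + b) / 2)⌉₊ : ℝ) := by
    push_cast
    exact (add_le_add_left h6 1).trans (h5.trans (Nat.le_ceil _))
  exact_mod_cast h7

end Pool.Agent.Lib.MP_45349e_nt.JG
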