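import Pool.Agent.Lib.MP_45349e_nt.JG.M15

/-!
# JG-M16 (90 min): the sums of `J` over small primes

`L = log D`. For a prime `p` with `p^5 ≤ D`: `p^4 ≤ D/p`, so `JJ (D/p) p = (D/p) (log p)^3 / (L - log p)^6`.
PROOF of `Jsum`. `msum` with `f v = v^2 (L-v)^(-6)` (nonneg, nondecreasing for `0 ≤ v < L`) and
`F v = L^(-3) A(v/L)`, `A(u) = (1/5)(1-u)^(-5) - (1/2)(1-u)^(-4) + (1/3)(1-u)^(-3)`, `A'(u) = u^2 (1-u)^(-6)`
(`u^2 = (1-u)^2 - 2(1-u) + 1`). The sum over the primes `p ∈ [w, z)`, `Z = log z ≤ L/5`, is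
`≤ F(Z) - F(log w) + C Z^2 (L-Z)^(-6) ≤ L^(-3)(A(Z/L) - A(0)) + C (5/4)^6 Z^2 L^(-6)`, `A(0) = 1/30`.
CLAIM `A(s) - A(0) ≤ (23/25) s^3`, `0 ≤ s ≤ 1/5`: with `x = 1 - s`:
multiply by `30 x^5`: `6 - 15 x + 10 x^2 - x^5 ≤ (23/25) 30 s^3 x^5`; left side `= s^3 (10 - 15 s + ...)`:
precisely `6 - 15(1-s) + 10 (1-s)^2 - (1-s)^5 = s^3 (10 - 5 s + s^2)`; so the claim is
`10 - 5 s + s^2 ≤ 27.6 (1-s)^5` for `0 ≤ s ≤ 1/5`: at `s = 1/5`: `9.04 ≤ 27.6 * 0.32768 = 9.04397`; both sides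
decreasing, the right side is convex and ... (`nlinarith`, or: `27.6 (1-s)^5 - (10 - 5 s + s^2)` is
decreasing on `[0, 1/5]`: derivative `-138 (1-s)^4 + 5 - 2 s ≤ -138 * 0.4096 + 5 < 0`).
`Jsum1` is this for a set of primes in `[w, z]`, `z^5 ≤ D`; `Jsum2` is the case `z = D^(1/5)` (`A(1/5) - A(0) =
113/15360`), for any set of primes `p` with `p^5 ≤ D` (compare with all primes of `[2, D^(1/5)]`;
`b = ⌊D^(1/5)⌋ + 1` is slightly larger than `D^(1/5)`: sum over `p < b`, use `msum` with `b' = ⌊D^(1/5)⌋` and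
add one term, or absorb into `C/L`).
-/

open Finset

namespace Pool.Agent.Lib.MP_45349e_nt.JG

open Pool.Agent.Lib.MP_45349e_nt.LS (P lam Lsum V)

/-- the primitive of `v^2 (L-v)^(-6)` -/
private noncomputable def m16F (L v : ℝ) : ℝ :=
  L ^ 2 / 5 * (L - v) ^ (-5 : ℤ) - L / 2 * (L - v) ^ (-4 : ℤ) + 1 / 3 * (L - v) ^ (-3 : ℤ)

private lemma m16_pow (L v : ℝ) (h : v < L) (n : ℤ) :
    HasDerivAt (fun v : ℝ => (L - v) ^ n) (-((n : ℝ) * (L - v) ^ (n - 1))) v := by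
  have h1 : HasDerivAt (fun v : ℝ => L - v) (-1) v := by
    simpa using (hasDerivAt_id v).const_sub L
  have h2 : HasDerivAt (fun x : ℝ => x ^ n) ((n : ℝ) * (L - v) ^ (n - 1)) (L - v) :=
    hasDerivAt_zpow n (L - v) (Or.inl (by linarith [sub_pos.mpr h] : L - v ≠ 0 ) )
  have h3 := h2.comp v h1
  rw [mul_neg_one] at h3
  exact h3

private lemma m16F_deriv (L v : ℝ) (h : v < L) :
    HasDerivAt (m16F L) (v ^ 2 / (L - v) ^ 6) v := by
  have h5 := (m16_pow L v h (-5)).const_mul (L ^ 2 / 5)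
  have h4 := (m16_pow L v h (-4)).const_mul (L / 2)
  have h3 := (m16_pow L v h (-3)).const_mul (1 / 3 : ℝ)
  have h6 := (h5.sub h4).add h3
  have hx : (L - v) ≠ 0 := by linarith [sub_pos.mpr h]
  have e : L ^ 2 / 5 * -(((-5 : ℤ) : ℝ) * (L - v) ^ ((-5 : ℤ) - 1)) -
      L / 2 * -(((-4 : ℤ) : ℝ) * (L - v) ^ ((-4 : ℤ) - 1)) +
      1 / 3 * -(((-3 : ℤ) : ℝ) * (L - v) ^ ((-3 : ℤ) - 1)) = v ^ 2 / (L - v) ^ 6 := by
    have a1 : (L - v) ^ ((-5 : ℤ) - 1) = ((L - v) ^ 6)⁻¹ := by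
      rw [show ((-5 : ℤ) - 1) = -((6 : ℕ) : ℤ) by norm_num, zpow_neg, zpow_natCast]
    have a2 : (L - v) ^ ((-4 : ℤ) - 1) = ((L - v) ^ 5)⁻¹ := by
      rw [show ((-4 : ℤ) - 1) = -((5 : ℕ) : ℤ) by norm_num, zpow_neg, zpow_natCast]
    have a3 : (L - v) ^ ((-3 : ℤ) - 1) = ((L - v) ^ 4)⁻¹ := by
      rw [show ((-3 : ℤ) - 1) = -((4 : ℕ) : ℤ) by norm_num, zpow_neg, zpow_natCast]
    rw [a1, a2, a3]
    push_cast
    field_simp
    ring
  rw [e] at h6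
  exact h6

/-- the function `A(s) - A(0)` -/
private noncomputable def m16A (s : ℝ) : ℝ := s ^ 3 * (10 - 5 * s + s ^ 2) / (30 * (1 - s) ^ 5)

private lemma m16F_eq (L s : ℝ) (hL : 0 < L) (hs : s < 1) :
    m16F L (s * L) - 1 / (30 * L ^ 3) = m16A s / L ^ 3 := by
  have hx : (1 - s) ≠ 0 := by linarith [sub_pos.mpr hs]
  have hL' : L ≠ 0 := hL.ne'
  unfold m16F m16A
  have e1 : L - s * L = L * (1 - s) := by ring
  have a1 : (L - s * L) ^ (-5 : ℤ) = ((L * (1 - s)) ^ 5)⁻¹ := by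
    rw [e1, show (-5 : ℤ) = -((5 : ℕ) : ℤ) by norm_num, zpow_neg, zpow_natCast]
  have a2 : (L - s * L) ^ (-4 : ℤ) = ((L * (1 - s)) ^ 4)⁻¹ := by
    rw [e1, show (-4 : ℤ) = -((4 : ℕ) : ℤ) by norm_num, zpow_neg, zpow_natCast]
  have a3 : (L - s * L) ^ (-3 : ℤ) = ((L * (1 - s)) ^ 3)⁻¹ := by
    rw [e1, show (-3 : ℤ) = -((3 : ℕ) : ℤ) by norm_num, zpow_neg, zpow_natCast]
  rw [a1, a2, a3, mul_pow, mul_pow, mul_pow]
  field_simp
  ring

private lemma m16_poly (s : ℝ) (h0 : 0 ≤ s) (h1 : s ≤ 1 / 5) :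
    10 - 5 * s + s ^ 2 ≤ 138 / 5 * (1 - s) ^ 5 := by
  obtain ⟨t, ht⟩ : ∃ t : ℝ, t = 1 / 5 - s := ⟨_, rfl⟩
  have ht0 : 0 ≤ t := by linarith
  have ht1 : t ≤ 1 / 5 := by linarith
  have hs : s = 1 / 5 - t := by linarith
  subst hs
  have e : (1 - (1 / 5 - t)) ^ 5 = 1024 / 3125 + 256 / 125 * t + t ^ 2 * (128 / 25 + 32 / 5 * t + 4 * t ^ 2 + t ^ 3) := by
    ring
  rw [e]
  have h2 : 0 ≤ t ^ 2 * (128 / 25 + 32 / 5 * t + 4 * t ^ 2 + t ^ 3) := by positivity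
  nlinarith

private lemma m16A_le (s : ℝ) (h0 : 0 ≤ s) (h1 : s ≤ 1 / 5) : m16A s ≤ 23 / 25 * s ^ 3 := by
  unfold m16A
  have hx : 0 < 1 - s := by linarith
  rw [div_le_iff₀ (by positivity)]
  have h := m16_poly s h0 h1
  have h3 : 0 ≤ s ^ 3 := by positivity
  nlinarith [mul_le_mul_of_nonneg_left h h3]

private lemma m16A_nonneg (s : ℝ) (h0 : 0 ≤ s) (h1 : s ≤ 1 / 5) : 0 ≤ m16A s := by
  unfold m16A
  have hx : 0 < 1 - s := by linarith
  have h2 : 0 ≤ 10 - 5 * s + s ^ 2 := by nlinarith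
  positivity

private lemma m16A_le' (s : ℝ) (h0 : 0 ≤ s) (h1 : s ≤ 1 / 5) : m16A s ≤ 113 / 15360 := by
  unfold m16A
  have hx : 4 / 5 ≤ 1 - s := by linarith
  have hx5 : (4 / 5 : ℝ) ^ 5 ≤ (1 - s) ^ 5 := pow_le_pow_left₀ (by norm_num) hx 5
  have hx' : 0 < 1 - s := by linarith
  rw [div_le_iff₀ (by positivity)]
  have h2 : s ^ 3 * (10 - 5 * s + s ^ 2) ≤ 226 / 3125 := by
    obtain ⟨t, ht⟩ : ∃ t : ℝ, t = 1 / 5 - s := ⟨_, rfl⟩
    have ht0 : 0 ≤ t := by linarith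
    have ht1 : t ≤ 1 / 5 := by linarith
    have hs2 : s ^ 3 ≤ (1 / 5) ^ 2 * s := by
      have : s ^ 2 ≤ (1 / 5) ^ 2 := pow_le_pow_left₀ h0 h1 2
      nlinarith
    -- g(s) = s^3 (10 - 5 s + s^2) is nondecreasing
    have e : 226 / 3125 - s ^ 3 * (10 - 5 * s + s ^ 2) =
        (1 / 5 - s) * (10 * ((1 / 5) ^ 2 + 1 / 5 * s + s ^ 2)
          - 5 * ((1 / 5) ^ 3 + (1 / 5) ^ 2 * s + 1 / 5 * s ^ 2 + s ^ 3)
          + ((1 / 5) ^ 4 + (1 / 5) ^ 3 * s + (1 / 5) ^ 2 * s ^ 2 + 1 / 5 * s ^ 3 + s ^ 4)) := by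
      ring
    have h3 : 0 ≤ 10 * ((1 / 5) ^ 2 + 1 / 5 * s + s ^ 2)
          - 5 * ((1 / 5) ^ 3 + (1 / 5) ^ 2 * s + 1 / 5 * s ^ 2 + s ^ 3)
          + ((1 / 5) ^ 4 + (1 / 5) ^ 3 * s + (1 / 5) ^ 2 * s ^ 2 + 1 / 5 * s ^ 3 + s ^ 4) := by
      have h4 : 0 ≤ s ^ 4 := by positivity
      have h5 : 0 ≤ s ^ 3 := by positivity
      have h6 : 0 ≤ s ^ 2 := by positivity
      nlinarith
    have h4 : 0 ≤ (1 / 5 - s) := by linarith
    have h5 := mul_nonneg h4 h3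
    linarith
  nlinarith

private lemma m16_term (D : ℝ) (p : ℕ) (hp : p.Prime) (h5 : (p : ℝ) ^ 5 ≤ D) :
    JJ (D / p) p = D * (Real.log p / p * ((Real.log p) ^ 2 / (Real.log D - Real.log p) ^ 6)) := by
  have hp0 : (0 : ℝ) < p := by exact_mod_cast hp.pos
  have hD : 0 < D := lt_of_lt_of_le (by positivity) h5
  have h4 : (p : ℝ) ^ 4 ≤ D / p := by
    rw [le_div_iff₀ hp0]
    calc (p : ℝ) ^ 4 * p = (p : ℝ) ^ 5 := by ring
      _ ≤ D := h5
  unfold JJ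
  rw [if_pos h4, Real.log_div hD.ne' hp0.ne']
  rw [div_mul_eq_mul_div, div_div, div_mul_div_comm, mul_div_assoc']
  congr 1
  ring

private lemma m16_JJ_nonneg (D : ℝ) (p : ℕ) (hp : p.Prime) (h5 : (p : ℝ) ^ 5 ≤ D) :
    0 ≤ JJ (D / p) p := by
  have hp0 : (0 : ℝ) < p := by exact_mod_cast hp.pos
  have hD : 0 < D := lt_of_lt_of_le (by positivity) h5
  rw [m16_term D p hp h5]
  have hl : 0 ≤ Real.log p := Real.log_natCast_nonneg p
  have h6 : (0 : ℝ) ≤ (Real.log D - Real.log p) ^ 6 := by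
    have : (Real.log D - Real.log p) ^ 6 = ((Real.log D - Real.log p) ^ 3) ^ 2 := by ring
    rw [this]; positivity
  positivity

private lemma m16_core : ∃ C : ℝ, 0 < C ∧ ∀ (D : ℝ) (w z : ℕ), 2 ≤ w → w ≤ z → (z : ℝ) ^ 5 ≤ D →
    0 < Real.log D ∧ 0 ≤ Real.log z / Real.log D ∧ Real.log z / Real.log D ≤ 1 / 5 ∧
    ∑ p ∈ P w z, JJ (D / p) p ≤
      D * (m16A (Real.log z / Real.log D) / (Real.log D) ^ 3 +
        C * (Real.log z) ^ 2 / (Real.log D) ^ 6) := by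
  obtain ⟨C, hC, hms⟩ := msum
  refine ⟨C * (5 / 4) ^ 6, by positivity, ?_⟩
  intro D w z hw hwz hz
  have hz2 : 2 ≤ z := le_trans hw hwz
  have hzr : (2 : ℝ) ≤ z := by exact_mod_cast hz2
  have hz0 : (0 : ℝ) < z := by linarith
  have hD : 0 < D := lt_of_lt_of_le (by positivity) hz
  have hwr : (2 : ℝ) ≤ w := by exact_mod_cast hw
  have hw0 : (0 : ℝ) < w := by linarith
  obtain ⟨L, hL⟩ : ∃ L : ℝ, L = Real.log D := ⟨_, rfl⟩
  obtain ⟨Z, hZ⟩ : ∃ Z : ℝ, Z = Real.log z := ⟨_, rfl⟩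
  obtain ⟨W, hW⟩ : ∃ W : ℝ, W = Real.log w := ⟨_, rfl⟩
  have hZ0 : 0 < Z := by rw [hZ]; exact Real.log_pos (by linarith)
  have hW0 : 0 < W := by rw [hW]; exact Real.log_pos (by linarith)
  have hWZ : W ≤ Z := by
    rw [hW, hZ]; exact Real.log_le_log hw0 (by exact_mod_cast hwz)
  have hZL : 5 * Z ≤ L := by
    have h1 : Real.log ((z : ℝ) ^ 5) ≤ Real.log D := Real.log_le_log (by positivity) hz
    rw [Real.log_pow] at h1
    rw [hZ, hL]
    push_cast at h1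
    exact h1
  have hL0 : 0 < L := by linarith
  rw [← hL, ← hZ]
  have hs0 : 0 ≤ Z / L := by positivity
  have hs1 : Z / L ≤ 1 / 5 := by
    rw [div_le_iff₀ hL0]; linarith
  refine ⟨hL0, hs0, hs1, ?_⟩
  -- rewrite the terms
  have hterm : ∀ p ∈ P w z, JJ (D / p) p =
      D * (Real.log p / p * ((fun v : ℝ => v ^ 2 / (L - v) ^ 6) (Real.log p))) := by
    intro p hp
    unfold P at hp
    rw [Finset.mem_filter, Finset.mem_Ico] at hp
    obtain ⟨⟨hp1, hp2⟩, hp3⟩ := hp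
    have hpz : (p : ℝ) ≤ z := by exact_mod_cast hp2.le
    have h5 : (p : ℝ) ^ 5 ≤ D := le_trans (pow_le_pow_left₀ (by positivity) hpz 5) hz
    rw [m16_term D p hp3 h5, hL]
  rw [Finset.sum_congr rfl hterm, ← Finset.mul_sum]
  apply mul_le_mul_of_nonneg_left _ hD.le
  have hmono : MonotoneOn (fun v : ℝ => v ^ 2 / (L - v) ^ 6) (Set.Icc (Real.log w) (Real.log z)) := by
    intro u hu v hv huv
    rw [← hW, ← hZ] at hu hv
    have hu0 : 0 ≤ u := le_trans hW0.le hu.1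
    have hv0 : 0 ≤ v := le_trans hW0.le hv.1
    have hvL : 0 < L - v := by linarith [hv.2]
    have huL : L - v ≤ L - u := by linarith
    show u ^ 2 / (L - u) ^ 6 ≤ v ^ 2 / (L - v) ^ 6
    apply div_le_div₀ (by positivity) (pow_le_pow_left₀ hu0 huv 2) (by positivity)
    exact pow_le_pow_left₀ hvL.le huL 6
  have hnn : ∀ v ∈ Set.Icc (Real.log w) (Real.log z), 0 ≤ (fun v : ℝ => v ^ 2 / (L - v) ^ 6) v := by
    intro v hv
    rw [← hW, ← hZ] at hv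
    have hvL : 0 < L - v := by linarith [hv.2]
    show 0 ≤ v ^ 2 / (L - v) ^ 6
    positivity
  have hder : ∀ v ∈ Set.Icc (Real.log w) (Real.log z),
      HasDerivAt (m16F L) ((fun v : ℝ => v ^ 2 / (L - v) ^ 6) v) v := by
    intro v hv
    rw [← hW, ← hZ] at hv
    exact m16F_deriv L v (by linarith [hv.2])
  have hmain := hms w z hw hwz (fun v : ℝ => v ^ 2 / (L - v) ^ 6) (m16F L) hmono hnn hder
  refine le_trans hmain ?_
  rw [← hZ, ← hW]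
  -- F(Z) - 1/(30 L^3)
  have e1 : m16F L Z - 1 / (30 * L ^ 3) = m16A (Z / L) / L ^ 3 := by
    have := m16F_eq L (Z / L) hL0 (by linarith)
    rwa [div_mul_cancel₀ Z hL0.ne'] at this
  have hWL : W / L ≤ 1 / 5 := by
    rw [div_le_iff₀ hL0]; linarith
  have e2 : m16F L W - 1 / (30 * L ^ 3) = m16A (W / L) / L ^ 3 := by
    have := m16F_eq L (W / L) hL0 (by linarith)
    rwa [div_mul_cancel₀ W hL0.ne'] at this
  have e3 : 0 ≤ m16A (W / L) / L ^ 3 :=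
    div_nonneg (m16A_nonneg _ (by positivity) hWL) (by positivity)
  have e4 : C * ((fun v : ℝ => v ^ 2 / (L - v) ^ 6) Z) ≤ C * (5 / 4) ^ 6 * Z ^ 2 / L ^ 6 := by
    show C * (Z ^ 2 / (L - Z) ^ 6) ≤ C * (5 / 4) ^ 6 * Z ^ 2 / L ^ 6
    have h1 : 4 / 5 * L ≤ L - Z := by linarith
    have h2 : (4 / 5 * L) ^ 6 ≤ (L - Z) ^ 6 := pow_le_pow_left₀ (by positivity) h1 6
    have h3 : Z ^ 2 / (L - Z) ^ 6 ≤ Z ^ 2 / (4 / 5 * L) ^ 6 :=
      div_le_div_of_nonneg_left (by positivity) (by positivity) h2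
    calc C * (Z ^ 2 / (L - Z) ^ 6) ≤ C * (Z ^ 2 / (4 / 5 * L) ^ 6) :=
          mul_le_mul_of_nonneg_left h3 hC.le
      _ = C * (5 / 4) ^ 6 * Z ^ 2 / L ^ 6 := by
          field_simp
  linarith

theorem Jsum1 : ∃ C : ℝ, 0 < C ∧ ∀ (D : ℝ) (w z : ℕ), 2 ≤ w → w ≤ z → (z : ℝ) ^ 5 ≤ D →
    ∑ p ∈ P w z, JJ (D / p) p ≤
      D * (23 / 25 * (Real.log z) ^ 3 + C * (Real.log z) ^ 2) / (Real.log D) ^ 6 := by
  obtain ⟨C, hC, h⟩ := m16_core
  refine ⟨C, hC, ?_⟩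
  intro D w z hw hwz hz
  obtain ⟨hL0, hs0, hs1, hsum⟩ := h D w z hw hwz hz
  refine le_trans hsum ?_
  have hD : 0 < D := by
    have hz2 : (2 : ℝ) ≤ z := by exact_mod_cast le_trans hw hwz
    exact lt_of_lt_of_le (by positivity) hz
  rw [mul_div_assoc D]
  apply mul_le_mul_of_nonneg_left _ hD.le
  rw [add_div]
  have h1 : m16A (Real.log z / Real.log D) / (Real.log D) ^ 3 ≤
      23 / 25 * (Real.log z) ^ 3 / (Real.log D) ^ 6 := by
    have h2 := m16A_le _ hs0 hs1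
    calc m16A (Real.log z / Real.log D) / (Real.log D) ^ 3
        ≤ (23 / 25 * (Real.log z / Real.log D) ^ 3) / (Real.log D) ^ 3 :=
          div_le_div_of_nonneg_right h2 (by positivity)
      _ = 23 / 25 * (Real.log z) ^ 3 / (Real.log D) ^ 6 := by
          field_simp
  linarith

theorem Jsum2 : ∃ C D0 : ℝ, 0 < C ∧ ∀ D : ℝ, D0 ≤ D → ∀ s : Finset ℕ,
    (∀ p ∈ s, p.Prime ∧ (p : ℝ) ^ 5 ≤ D) →
    ∑ p ∈ s, JJ (D / p) p ≤ 113 / 15360 * D / (Real.log D) ^ 3 + C * D / (Real.log D) ^ 4 := by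
  obtain ⟨C, hC, h⟩ := m16_core
  refine ⟨C + 1, 32, by positivity, ?_⟩
  intro D hD s hs
  have hD0 : 0 < D := by linarith
  obtain ⟨y, hy⟩ : ∃ y : ℝ, y = D ^ (1 / 5 : ℝ) := ⟨_, rfl⟩
  have hy5 : y ^ 5 = D := by
    rw [hy, ← Real.rpow_natCast, ← Real.rpow_mul hD0.le]
    norm_num
  have hy0 : 0 < y := by rw [hy]; exact Real.rpow_pos_of_pos hD0 _
  have hy2 : 2 ≤ y := by
    by_contra hcon
    push Not at hcon
    have : y ^ 5 < 2 ^ 5 := pow_lt_pow_left₀ hcon hy0.le (by norm_num)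
    rw [hy5] at this
    norm_num at this
    linarith
  obtain ⟨b, hb⟩ : ∃ b : ℕ, b = ⌊y⌋₊ := ⟨_, rfl⟩
  have hb2 : 2 ≤ b := by rw [hb]; exact Nat.le_floor (by exact_mod_cast hy2)
  have hby : (b : ℝ) ≤ y := by rw [hb]; exact Nat.floor_le hy0.le
  have hyb : y < b + 1 := by rw [hb]; exact Nat.lt_floor_add_one y
  have hbr : (2 : ℝ) ≤ b := by exact_mod_cast hb2
  have hb5 : (b : ℝ) ^ 5 ≤ D := by
    rw [← hy5]; exact pow_le_pow_left₀ (by positivity) hby 5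
  obtain ⟨hL0, hs0, hs1, hsum⟩ := h D 2 b le_rfl hb2 hb5
  obtain ⟨L, hL⟩ : ∃ L : ℝ, L = Real.log D := ⟨_, rfl⟩
  obtain ⟨Z, hZ⟩ : ∃ Z : ℝ, Z = Real.log b := ⟨_, rfl⟩
  rw [← hL] at hL0
  rw [← hL, ← hZ] at hs0 hs1 hsum
  rw [← hL]
  have hZ0 : 0 < Z := by rw [hZ]; exact Real.log_pos (by linarith)
  have hZL : Z ≤ L / 5 := by
    rw [div_le_iff₀ hL0] at hs1; linarith
  -- s is contained in P 2 b with the point b
  have hsub : s ⊆ insert b (P 2 b) := by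
    intro p hp
    obtain ⟨hp1, hp2⟩ := hs p hp
    have hpy : (p : ℝ) ≤ y := by
      by_contra hcon
      push Not at hcon
      have : y ^ 5 < (p : ℝ) ^ 5 := pow_lt_pow_left₀ hcon hy0.le (by norm_num)
      rw [hy5] at this
      linarith
    have hpb : p ≤ b := by rw [hb]; exact Nat.le_floor hpy
    rw [Finset.mem_insert]
    rcases Nat.lt_or_ge p b with hlt | hge
    · right
      unfold P
      rw [Finset.mem_filter, Finset.mem_Ico]
      exact ⟨⟨hp1.two_le, hlt⟩, hp1⟩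
    · left; omega
  have hsplit : ∑ p ∈ s, JJ (D / p) p ≤
      ∑ p ∈ P 2 b, JJ (D / p) p + D * (Z / b * (Z ^ 2 / (L - Z) ^ 6)) := by
    have hPnn : ∀ p ∈ P 2 b, 0 ≤ JJ (D / p) p := by
      intro p hp
      unfold P at hp
      rw [Finset.mem_filter, Finset.mem_Ico] at hp
      obtain ⟨⟨hp1, hp2⟩, hp3⟩ := hp
      apply m16_JJ_nonneg D p hp3
      have hpb : (p : ℝ) ≤ b := by exact_mod_cast hp2.le
      exact le_trans (pow_le_pow_left₀ (by positivity) hpb 5) hb5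
    have hbnn : 0 ≤ D * (Z / b * (Z ^ 2 / (L - Z) ^ 6)) := by
      have : 0 < L - Z := by linarith
      positivity
    by_cases hbs : b ∈ s
    · have hbp : b.Prime := (hs b hbs).1
      have hle : ∑ p ∈ s, JJ (D / p) p ≤ ∑ p ∈ insert b (P 2 b), JJ (D / p) p := by
        apply Finset.sum_le_sum_of_subset_of_nonneg hsub
        intro p hp _
        rw [Finset.mem_insert] at hp
        rcases hp with hp | hp
        · rw [hp]; exact m16_JJ_nonneg D b hbp hb5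
        · exact hPnn p hp
      have hnot : b ∉ P 2 b := by
        unfold P
        rw [Finset.mem_filter, Finset.mem_Ico]
        rintro ⟨⟨_, h2⟩, _⟩
        omega
      rw [Finset.sum_insert hnot, m16_term D b hbp hb5, ← hL, ← hZ] at hle
      linarith
    · have hsub2 : s ⊆ P 2 b := by
        intro p hp
        have := hsub hp
        rw [Finset.mem_insert] at this
        rcases this with h1 | h1
        · exact absurd (h1 ▸ hp) hbs
        · exact h1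
      have hle : ∑ p ∈ s, JJ (D / p) p ≤ ∑ p ∈ P 2 b, JJ (D / p) p :=
        Finset.sum_le_sum_of_subset_of_nonneg hsub2 (fun p hp _ => hPnn p hp)
      linarith
  -- the main part
  have hmain : ∑ p ∈ P 2 b, JJ (D / p) p ≤ D * (113 / 15360 / L ^ 3 + C / L ^ 4) := by
    refine le_trans hsum ?_
    apply mul_le_mul_of_nonneg_left _ hD0.le
    have h1 : m16A (Z / L) / L ^ 3 ≤ 113 / 15360 / L ^ 3 :=
      div_le_div_of_nonneg_right (m16A_le' _ hs0 hs1) (by positivity)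
    have h2 : C * Z ^ 2 / L ^ 6 ≤ C / L ^ 4 := by
      have h3 : Z ^ 2 ≤ L ^ 2 := pow_le_pow_left₀ hZ0.le (by linarith) 2
      calc C * Z ^ 2 / L ^ 6 ≤ C * L ^ 2 / L ^ 6 :=
            div_le_div_of_nonneg_right (mul_le_mul_of_nonneg_left h3 hC.le) (by positivity)
        _ = C / L ^ 4 := by field_simp
    linarith
  -- the additional term
  have hlogy : L = 5 * Real.log y := by
    rw [hL, ← hy5, Real.log_pow]; push_cast; ring
  have hLy : L ≤ 5 * y := by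
    have := Real.log_le_self hy0.le
    linarith
  have hLb : L ≤ 10 * b := by linarith
  have hextra : D * (Z / b * (Z ^ 2 / (L - Z) ^ 6)) ≤ D * (1 / L ^ 4) := by
    apply mul_le_mul_of_nonneg_left _ hD0.le
    have h1 : 4 / 5 * L ≤ L - Z := by linarith
    have h2 : (4 / 5 * L) ^ 6 ≤ (L - Z) ^ 6 := pow_le_pow_left₀ (by positivity) h1 6
    have h3 : Z ^ 2 / (L - Z) ^ 6 ≤ (L / 5) ^ 2 / (4 / 5 * L) ^ 6 :=
      div_le_div₀ (by positivity) (pow_le_pow_left₀ hZ0.le hZL 2) (by positivity) h2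
    have h4 : Z / b ≤ 2 := by
      rw [div_le_iff₀ (by linarith)]; linarith
    have h4' : Z / b ≤ (L / 5) / (L / 10) := by
      apply div_le_div₀ (by positivity) hZL (by positivity) (by linarith)
    -- use the sharper bound Z/b * ... with L/b ≤ 10
    have h5 : Z / b * (Z ^ 2 / (L - Z) ^ 6) ≤ (L / 5) / (L / 10) * ((L / 5) ^ 2 / (4 / 5 * L) ^ 6) :=
      mul_le_mul h4' h3 (by have : 0 < L - Z := by linarith
                            positivity) (by positivity)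
    refine le_trans h5 ?_
    have e : (L / 5) / (L / 10) * ((L / 5) ^ 2 / (4 / 5 * L) ^ 6) = (625 / 2048) * (1 / L ^ 4) := by
      field_simp
      ring
    rw [e]
    have : 0 < 1 / L ^ 4 := by positivity
    linarith
  calc ∑ p ∈ s, JJ (D / p) p
      ≤ ∑ p ∈ P 2 b, JJ (D / p) p + D * (Z / b * (Z ^ 2 / (L - Z) ^ 6)) := hsplit
    _ ≤ D * (113 / 15360 / L ^ 3 + C / L ^ 4) + D * (1 / L ^ 4) := add_le_add hmain hextra
    _ = 113 / 15360 * D / L ^ 3 + (C + 1) * D / L ^ 4 := by ring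

end Pool.Agent.Lib.MP_45349e_nt.JG
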