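import Pool.Agent.Lib.MP_45349e_nt.JG.M16
import Pool.Agent.Lib.MP_45349e_nt.JG.M11a

/-!
# JG-M17 (75 min): (F6), (F7), (F8)

`L = log D`, `Z = log z`, `s = Z/L`. PROOF of `F6`. `z^4 ≤ D`: `JJ D z = D Z^3/L^6`. Case `z^5 ≤ D`: `Jsum1`:
`≤ (D/L^6) Z^3 (23/25 + C/Z) ≤ (24/25) JJ D z` for `Z ≥ log w ≥ 25 C`. Case `z^5 > D` (`1/5 < s ≤ 1/4`): the
primes with `p^5 ≤ D`: `Jsum2`, `≤ (113/15360) D/L^3 + C D/L^4`. The primes with `p^5 > D`, `p < z`: `p^4 ≤ D`,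
`p^4 > D/p`: `JJ (D/p) p = eta (D/p)/(L - log p)^3 ≤ (9/1000)(64/27) (D/p)/L^3 = (8/375) (D/p) / L^3`, and the
sum of `1/p` over primes of `(D^(1/5), z]` is `≤ log (5 s) + 5 C/L` (`LS.psum2`). Total
`≤ (D/L^3) (113/15360 + (8/375) log (5 s) + C/L)`. Claim: `113/15360 + (8/375) log(5 s) + 1/4000 ≤ (24/25) s^3` for
`1/5 ≤ s ≤ 1/4`: with `log (5 s) ≤ 5 s - 1`: `113/15360 + (8/375)(5 s - 1) + 1/4000 ≤ 0.96 s^3`: at `s = 1/5`:
`0.0073568 + 0.00025 = 0.0076068 < 0.00768`; the derivative of the left side is `8/75 = 0.106667 < 0.1152 ≤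
2.88 s^2`. And `D ≥ w^4` large, so `C/L ≤ 1/4000`.
PROOF of `F7`: `Jsum2`: `113/15360 < 0.0074 < 0.00864 = (24/25)(9/1000)`.
PROOF of `F8`: `p^5 ≤ D` part by `Jsum2`; `p^5 > D`, `p^2 ≤ D`: `JJ (D/p) p = eta (D/p)/(log(D/p))^3 ≤
8 eta (D/p)/L^3` and `blockD`.
-/

open Finset

namespace Pool.Agent.Lib.MP_45349e_nt.JG

open Pool.Agent.Lib.MP_45349e_nt.LS (P lam Lsum V)

private theorem m17_big {D θ : ℝ} {p : ℕ} (hp : p.Prime) (hD : 1 < D) (h5 : D < (p : ℝ) ^ 5)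
    (hθ : 0 < θ) (h : Real.log p ≤ (1 - θ) * Real.log D) :
    JJ (D / p) p ≤ eta / θ ^ 3 * (D / (Real.log D) ^ 3) * (1 / (p : ℝ)) := by
  have hp0 : (0 : ℝ) < p := by exact_mod_cast hp.pos
  have hD0 : 0 < D := by linarith
  have hL : 0 < Real.log D := Real.log_pos hD
  have h1 : ¬ ((p : ℝ) ^ 4 ≤ D / p) := by
    intro h2
    rw [le_div_iff₀ hp0] at h2
    have e : (p : ℝ) ^ 4 * p = (p : ℝ) ^ 5 := by ring
    rw [e] at h2
    linarith
  unfold JJ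
  rw [if_neg h1]
  have h2 : Real.log (D / p) = Real.log D - Real.log p := Real.log_div hD0.ne' hp0.ne'
  have h3 : θ * Real.log D ≤ Real.log (D / p) := by
    rw [h2]
    nlinarith
  have h4 : 0 < θ * Real.log D := mul_pos hθ hL
  have h5 : (θ * Real.log D) ^ 3 ≤ (Real.log (D / p)) ^ 3 := pow_le_pow_left₀ h4.le h3 3
  have he : 0 < eta := by
    unfold eta
    norm_num
  calc eta * (D / p) / (Real.log (D / p)) ^ 3 ≤ eta * (D / p) / (θ * Real.log D) ^ 3 :=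
        div_le_div_of_nonneg_left (by positivity) (by positivity) h5
    _ = eta / θ ^ 3 * (D / (Real.log D) ^ 3) * (1 / (p : ℝ)) := by
        field_simp

private theorem m17_poly {s : ℝ} (h : 1 / 5 ≤ s) :
    113 / 15360 + 8 / 375 * (5 * s - 1) + 1 / 4000 ≤ 24 / 25 * s ^ 3 := by
  have e : 24 / 25 * s ^ 3 - (113 / 15360 + 8 / 375 * (5 * s - 1) + 1 / 4000) =
      (s - 1 / 5) * (24 / 25 * (s ^ 2 + s / 5 + 1 / 25) - 8 / 75) +
        (24 / 3125 - 113 / 15360 - 1 / 4000) := by ring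
  have h1 : 0 ≤ (s - 1 / 5) * (24 / 25 * (s ^ 2 + s / 5 + 1 / 25) - 8 / 75) := by
    apply mul_nonneg (by linarith)
    nlinarith
  have h2 : (0 : ℝ) ≤ 24 / 3125 - 113 / 15360 - 1 / 4000 := by norm_num
  linarith

theorem F6 : ∃ w0 : ℕ, 3 ≤ w0 ∧ ∀ w z : ℕ, w0 ≤ w → w ≤ z → ∀ D : ℝ, (z : ℝ) ^ 4 ≤ D →
    ∑ p ∈ P w z, JJ (D / p) p ≤ 24 / 25 * JJ D z := by
  obtain ⟨C1, hC1, J1⟩ := Jsum1
  obtain ⟨C2, D2, hC2, J2⟩ := Jsum2
  obtain ⟨C3, hC3, S3⟩ := LS.psum2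
  obtain ⟨K, hK⟩ : ∃ K : ℝ, K = 25 * C1 + 4000 * (C2 + C3) + 10 := ⟨_, rfl⟩
  refine ⟨max 3 (max ⌈Real.exp K⌉₊ ⌈D2⌉₊), le_max_left _ _, fun w z hw hwz D hD => ?_⟩
  rw [max_le_iff, max_le_iff] at hw
  obtain ⟨hw3, hwK, hwD⟩ := hw
  have hz3 : 3 ≤ z := hw3.trans hwz
  have hzR : (3 : ℝ) ≤ z := by exact_mod_cast hz3
  have hz0 : (0 : ℝ) < z := by linarith
  have hzK : Real.exp K ≤ z := (Nat.le_ceil _).trans (by exact_mod_cast hwK.trans hwz)
  have hzD : D2 ≤ z := (Nat.le_ceil _).trans (by exact_mod_cast hwD.trans hwz)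
  have hzz : (z : ℝ) ≤ (z : ℝ) ^ 4 := by
    calc (z : ℝ) = (z : ℝ) ^ 1 := (pow_one _).symm
      _ ≤ (z : ℝ) ^ 4 := pow_le_pow_right₀ (by linarith) (by norm_num)
  have hDz : (z : ℝ) ≤ D := hzz.trans hD
  have hD1 : 1 < D := by linarith
  have hD0 : 0 < D := by linarith
  have hZ : K ≤ Real.log z := by
    rw [Real.le_log_iff_exp_le hz0]
    exact hzK
  obtain ⟨Z, hZd⟩ : ∃ Z, Z = Real.log z := ⟨_, rfl⟩
  obtain ⟨L, hLd⟩ : ∃ L, L = Real.log D := ⟨_, rfl⟩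
  rw [← hZd] at hZ
  have hZL : 4 * Z ≤ L := by
    have h1 := Real.log_le_log (by positivity) hD
    rw [Real.log_pow, ← hZd, ← hLd] at h1
    exact_mod_cast h1
  have hK0 : 0 < K := by
    rw [hK]
    positivity
  have hZ0 : 0 < Z := by linarith
  have hL0 : 0 < L := by linarith
  have hJ : JJ D z = D * Z ^ 3 / L ^ 6 := by
    unfold JJ
    rw [if_pos hD, ← hZd, ← hLd]
  rw [hJ]
  by_cases h5 : (z : ℝ) ^ 5 ≤ D
  · have h1 := J1 D w z (by omega) hwz h5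
    rw [← hZd, ← hLd] at h1
    refine h1.trans ?_
    rw [← mul_div_assoc]
    apply div_le_div_of_nonneg_right _ (by positivity)
    have h2 : C1 * Z ^ 2 ≤ 1 / 25 * Z ^ 3 := by
      have h3 : 25 * C1 ≤ Z := by linarith
      have h4 : 0 ≤ Z ^ 2 := by positivity
      nlinarith
    have h3 : D * (23 / 25 * Z ^ 3 + C1 * Z ^ 2) ≤ D * (24 / 25 * Z ^ 3) := by
      apply mul_le_mul_of_nonneg_left _ hD0.le
      linarith
    linarith
  · rw [not_le] at h5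
    have hs5 : L < 5 * Z := by
      have h1 := Real.log_lt_log hD0 h5
      rw [Real.log_pow, ← hZd, ← hLd] at h1
      exact_mod_cast h1
    classical
    rw [← Finset.sum_filter_add_sum_filter_not (P w z) (fun p : ℕ => (p : ℝ) ^ 5 ≤ D)]
    have hA := J2 D (hzD.trans hDz) ((P w z).filter (fun p : ℕ => (p : ℝ) ^ 5 ≤ D)) (by
      intro p hp
      rw [Finset.mem_filter] at hp
      exact ⟨(Finset.mem_filter.mp hp.1).2, hp.2⟩)
    rw [← hLd] at hA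
    have hB : ∑ p ∈ (P w z).filter (fun p : ℕ => ¬ (p : ℝ) ^ 5 ≤ D), JJ (D / p) p ≤
        8 / 375 * (D / L ^ 3) *
          ∑ p ∈ (P w z).filter (fun p : ℕ => ¬ (p : ℝ) ^ 5 ≤ D), 1 / (p : ℝ) := by
      rw [Finset.mul_sum]
      apply Finset.sum_le_sum
      intro p hp
      rw [Finset.mem_filter] at hp
      obtain ⟨hp1, hp2⟩ := hp
      obtain ⟨hp3, hp4⟩ := Finset.mem_filter.mp hp1
      rw [Finset.mem_Ico] at hp3
      have hp0 : (0 : ℝ) < p := by exact_mod_cast hp4.pos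
      have h1 := m17_big (θ := 3 / 4) hp4 hD1 (not_le.mp hp2) (by norm_num) (by
        have h2 : Real.log p ≤ Real.log z :=
          Real.log_le_log hp0 (by exact_mod_cast hp3.2.le)
        rw [← hZd] at h2
        rw [← hLd]
        linarith)
      rw [← hLd] at h1
      have h2 : eta / (3 / 4) ^ 3 = 8 / 375 := by
        unfold eta
        norm_num
      rwa [h2] at h1
    have hu2 : (2 : ℝ) ≤ D ^ (1 / 5 : ℝ) := by
      have h1 : (2 : ℝ) ^ 5 ≤ D := by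
        have h2 : (3 : ℝ) ^ 4 ≤ (z : ℝ) ^ 4 := pow_le_pow_left₀ (by norm_num) hzR 4
        norm_num at h2 ⊢
        linarith
      calc (2 : ℝ) = ((2 : ℝ) ^ 5) ^ (1 / 5 : ℝ) := by
            rw [← Real.rpow_natCast, ← Real.rpow_mul (by norm_num)]
            norm_num
        _ ≤ D ^ (1 / 5 : ℝ) := Real.rpow_le_rpow (by positivity) h1 (by norm_num)
    have hlu : Real.log (D ^ (1 / 5 : ℝ)) = L / 5 := by
      rw [Real.log_rpow hD0, ← hLd]
      ring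
    have hlep : ∀ y : ℝ, 0 < y → D ≤ y ^ 5 → D ^ (1 / 5 : ℝ) ≤ y := by
      intro y hy h
      calc D ^ (1 / 5 : ℝ) ≤ (y ^ 5) ^ (1 / 5 : ℝ) :=
            Real.rpow_le_rpow hD0.le h (by norm_num)
        _ = y := by
            rw [← Real.rpow_natCast, ← Real.rpow_mul hy.le]
            norm_num
    have hC := S3 (D ^ (1 / 5 : ℝ)) z hu2 (hlep z hz0 h5.le)
      ((P w z).filter (fun p : ℕ => ¬ (p : ℝ) ^ 5 ≤ D)) (by
        intro p hp
        rw [Finset.mem_filter] at hp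
        obtain ⟨hp1, hp2⟩ := hp
        obtain ⟨hp3, hp4⟩ := Finset.mem_filter.mp hp1
        rw [Finset.mem_Ico] at hp3
        have hp0 : (0 : ℝ) < p := by exact_mod_cast hp4.pos
        exact ⟨hp4, hlep p hp0 (not_le.mp hp2).le, by exact_mod_cast hp3.2.le⟩)
    rw [hlu, ← hZd] at hC
    obtain ⟨s, hs⟩ : ∃ s, s = Z / L := ⟨_, rfl⟩
    have hZs : Z = s * L := by
      rw [hs, div_mul_cancel₀ _ hL0.ne']
    have hs1 : 1 / 5 ≤ s := by
      rw [hs, le_div_iff₀ hL0]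
      linarith
    have hlog : Real.log (Z / (L / 5)) ≤ 5 * s - 1 := by
      have e : Z / (L / 5) = 5 * s := by
        rw [hs]
        field_simp
      rw [e]
      have h1 := Real.log_le_sub_one_of_pos (show 0 < 5 * s by linarith)
      exact h1
    have hS : ∑ p ∈ (P w z).filter (fun p : ℕ => ¬ (p : ℝ) ^ 5 ≤ D), 1 / (p : ℝ) ≤
        5 * s - 1 + 5 * C3 / L := by
      refine hC.trans ?_
      have e : C3 / (L / 5) = 5 * C3 / L := by
        field_simp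
      rw [e]
      linarith
    have hDL : 0 < D / L ^ 3 := by positivity
    have hB2 := hB.trans (mul_le_mul_of_nonneg_left hS (by positivity :
      0 ≤ 8 / 375 * (D / L ^ 3)))
    refine (add_le_add hA hB2).trans ?_
    have hLK : 4000 * (C2 + C3) ≤ L := by linarith
    have e1 : 113 / 15360 * D / L ^ 3 + C2 * D / L ^ 4 +
        8 / 375 * (D / L ^ 3) * (5 * s - 1 + 5 * C3 / L) =
        D / L ^ 3 * (113 / 15360 + 8 / 375 * (5 * s - 1) + (C2 + 8 / 75 * C3) / L) := by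
      field_simp
      ring
    have e2 : 24 / 25 * (D * Z ^ 3 / L ^ 6) = D / L ^ 3 * (24 / 25 * s ^ 3) := by
      rw [hZs]
      field_simp
    rw [e1, e2]
    apply mul_le_mul_of_nonneg_left _ hDL.le
    have h9 : (C2 + 8 / 75 * C3) / L ≤ 1 / 4000 := by
      rw [div_le_iff₀ hL0]
      linarith
    linarith [m17_poly hs1]

theorem F7 : ∃ D0 : ℝ, ∀ D : ℝ, D0 ≤ D → ∀ s : Finset ℕ,
    (∀ p ∈ s, p.Prime ∧ (p : ℝ) ^ 5 ≤ D) →
    ∑ p ∈ s, JJ (D / p) p ≤ 24 / 25 * (eta * D / (Real.log D) ^ 3) := by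
  obtain ⟨C, D0, hC, h⟩ := Jsum2
  refine ⟨max D0 (Real.exp (1000 * C)), fun D hD s hs => (h D (le_of_max_le_left hD) s hs).trans ?_⟩
  have hD2 : Real.exp (1000 * C) ≤ D := le_of_max_le_right hD
  have hD0 : 0 < D := (Real.exp_pos _).trans_le hD2
  have hL : 1000 * C ≤ Real.log D := by
    rw [Real.le_log_iff_exp_le hD0]
    exact hD2
  have hL0 : 0 < Real.log D := by linarith
  have e1 : 113 / 15360 * D / (Real.log D) ^ 3 + C * D / (Real.log D) ^ 4 =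
      D / (Real.log D) ^ 3 * (113 / 15360 + C / Real.log D) := by
    field_simp
  have e2 : 24 / 25 * (eta * D / (Real.log D) ^ 3) = D / (Real.log D) ^ 3 * (24 / 25 * eta) := by
    ring
  rw [e1, e2]
  apply mul_le_mul_of_nonneg_left _ (by positivity)
  have h9 : C / Real.log D ≤ 1 / 1000 := by
    rw [div_le_iff₀ hL0]
    linarith
  unfold eta
  norm_num at h9 ⊢
  linarith

theorem F8 : ∃ C6 D0 : ℝ, 0 < C6 ∧ ∀ D : ℝ, D0 ≤ D → ∀ s : Finset ℕ,
    (∀ p ∈ s, p.Prime ∧ (p : ℝ) ^ 2 ≤ D) →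
    ∑ p ∈ s, JJ (D / p) p ≤ C6 * D / (Real.log D) ^ 3 := by
  obtain ⟨C, D1, hC, h⟩ := Jsum2
  obtain ⟨C', D2, hC', h'⟩ := blockD
  refine ⟨1 + C + C', max (max D1 D2) (Real.exp 1), by positivity, fun D hD s hs => ?_⟩
  have hD1 : D1 ≤ D := (le_max_left _ _).trans (le_of_max_le_left hD)
  have hD2 : D2 ≤ D := (le_max_right _ _).trans (le_of_max_le_left hD)
  have hD3 : Real.exp 1 ≤ D := le_of_max_le_right hD
  have hD0 : 0 < D := (Real.exp_pos _).trans_le hD3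
  have hL : 1 ≤ Real.log D := by
    rw [Real.le_log_iff_exp_le hD0]
    exact hD3
  have hL0 : 0 < Real.log D := by linarith
  have hD4 : 1 < D := by
    have h1 := Real.add_one_le_exp 1
    linarith
  classical
  rw [← Finset.sum_filter_add_sum_filter_not s (fun p : ℕ => (p : ℝ) ^ 5 ≤ D)]
  have hA := h D hD1 (s.filter (fun p : ℕ => (p : ℝ) ^ 5 ≤ D)) (by
    intro p hp
    rw [Finset.mem_filter] at hp
    exact ⟨(hs p hp.1).1, hp.2⟩)
  have hS := h' D hD2 (s.filter (fun p : ℕ => ¬ (p : ℝ) ^ 5 ≤ D)) (by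
    intro p hp
    rw [Finset.mem_filter] at hp
    exact ⟨(hs p hp.1).1, (not_le.mp hp.2).le, (hs p hp.1).2⟩)
  have hB : ∑ p ∈ s.filter (fun p : ℕ => ¬ (p : ℝ) ^ 5 ≤ D), JJ (D / p) p ≤
      eta / (1 / 2) ^ 3 * (D / (Real.log D) ^ 3) *
        ∑ p ∈ s.filter (fun p : ℕ => ¬ (p : ℝ) ^ 5 ≤ D), 1 / (p : ℝ) := by
    rw [Finset.mul_sum]
    apply Finset.sum_le_sum
    intro p hp
    rw [Finset.mem_filter] at hp
    obtain ⟨hp1, hp2⟩ := hs p hp.1
    have hp0 : (0 : ℝ) < p := by exact_mod_cast hp1.pos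
    refine m17_big hp1 hD4 (not_le.mp hp.2) (by norm_num) ?_
    have h2 := Real.log_le_log (by positivity) hp2
    rw [Real.log_pow] at h2
    push_cast at h2
    linarith
  have hDL : 0 < D / (Real.log D) ^ 3 := by positivity
  have h8 : eta / (1 / 2) ^ 3 ≤ 1 := by
    unfold eta
    norm_num
  have h80 : 0 ≤ eta / (1 / 2) ^ 3 := by
    unfold eta
    norm_num
  have hB2 : ∑ p ∈ s.filter (fun p : ℕ => ¬ (p : ℝ) ^ 5 ≤ D), JJ (D / p) p ≤
      D / (Real.log D) ^ 3 * C' := by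
    refine hB.trans ?_
    calc eta / (1 / 2) ^ 3 * (D / (Real.log D) ^ 3) *
          ∑ p ∈ s.filter (fun p : ℕ => ¬ (p : ℝ) ^ 5 ≤ D), 1 / (p : ℝ)
        ≤ eta / (1 / 2) ^ 3 * (D / (Real.log D) ^ 3) * C' :=
          mul_le_mul_of_nonneg_left hS (by positivity)
      _ ≤ 1 * (D / (Real.log D) ^ 3) * C' := by
          apply mul_le_mul_of_nonneg_right _ hC'.le
          exact mul_le_mul_of_nonneg_right h8 hDL.le
      _ = D / (Real.log D) ^ 3 * C' := by ring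
  refine (add_le_add hA hB2).trans ?_
  have e1 : 113 / 15360 * D / (Real.log D) ^ 3 + C * D / (Real.log D) ^ 4 +
      D / (Real.log D) ^ 3 * C' =
      D / (Real.log D) ^ 3 * (113 / 15360 + C / Real.log D + C') := by
    field_simp
  have e2 : (1 + C + C') * D / (Real.log D) ^ 3 = D / (Real.log D) ^ 3 * (1 + C + C') := by
    ring
  rw [e1, e2]
  apply mul_le_mul_of_nonneg_left _ hDL.le
  have h9 : C / Real.log D ≤ C := by
    rw [div_le_iff₀ hL0]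
    nlinarith
  linarith

end Pool.Agent.Lib.MP_45349e_nt.JG
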