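import Pool.Agent.Lib.MP_45349e_nt.JG.Bas
import Pool.Agent.Lib.MP_45349e_nt.JG.M01
import Pool.Agent.Lib.MP_45349e_nt.JG.M07

/-!
# JG-M19 (75 min): (F10) and (F11)

PROOF of `F10`. `piw w p ≤ piw w z ≤ #primes < z =: A`, the sum is `≤ A^3`; `z ≤ zs D ≤ D^(1/3) + 1`,
`A ≤ C z/log z` (`piw_up`; for small `z` trivially `A ≤ z`): if `z ≤ D^(1/6)` then `A^3 ≤ √D ≤ C D/L^3`, else
`A ≤ C D^(1/3)/L`. If `z^4 ≤ D`: `A^3 ≤ z^3 ≤ D^(3/4) ≤ D^(4/5)`.
PROOF of `F11`. `buchGm`: `∑_{p ∈ P w z} Gp (D/p) p = Gm D z - Gm D w`. CLAIM for `p ∈ P w z`: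
`Gp (D/p) (min p (zs (D/p))) ≤ Gp (D/p) p + piw w p`. If `y := zs (D/p) < p`: `buchGp` between `y` and `p`
(`y ≥ w` since `(D/p)^(1/3) ≥ D^(1/6) ≥ w`): `Gp (D/p) p = Gp (D/p) y + ∑_{q ∈ P y p} Gm (D/p/q) q`.
`X := D/(p q)`: `X ≥ 1` (`p q < z^2 ≤ D`) and `X < y^3/q ≤ q^2` (`D/p < y^3`, `q ≥ y`): the `q`-rough `m ≤ X` with
`Ω` even are `m = 1` only, so `EE X q = 1`, `EE (X/kap) q ≤ 1`, `Gm X q ≥ 1 - kap ≥ -1`. So the sum is
`≥ - #P y p ≥ - piw w p`. Sum over `p`: `∑_{p ∈ P w z} piw w p = (A^2 - A)/2 ≤ A^2/2`, `A = piw w z` (`sum_piw`).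
-/

open Finset

namespace Pool.Agent.Lib.MP_45349e_nt.JG

open Pool.Agent.Lib.MP_45349e_nt.LS (P lam Lsum V)

private lemma m19_piw_le (w z : ℕ) : piw w z ≤ z := by
  unfold piw
  have h2 : P w z ⊆ Finset.range z := by
    intro p hp
    rw [mem_P] at hp
    exact Finset.mem_range.2 hp.2.1
  have h3 := Finset.card_le_card h2
  rw [Finset.card_range] at h3
  exact_mod_cast h3

private lemma m19_sum_le (w z : ℕ) :
    ∑ p ∈ P w z, (piw w p) ^ 2 ≤ (piw w z) ^ 3 := by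
  have h : ∑ p ∈ P w z, (piw w p) ^ 2 ≤ ∑ _p ∈ P w z, (piw w z) ^ 2 := by
    apply Finset.sum_le_sum
    intro p hp
    rw [mem_P] at hp
    exact pow_le_pow_left₀ (piw_nonneg w p) (piw_mono hp.2.1.le) 2
  rw [Finset.sum_const, nsmul_eq_mul] at h
  have h2 : ((P w z).card : ℝ) = piw w z := rfl
  rw [h2] at h
  calc ∑ p ∈ P w z, (piw w p) ^ 2 ≤ piw w z * (piw w z) ^ 2 := h
    _ = (piw w z) ^ 3 := by ring

private lemma m19_sqrt {D : ℝ} (hD : 1 < D) : D ^ (1 / 2 : ℝ) ≤ 216 * D / (Real.log D) ^ 3 := by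
  have hL : 0 < Real.log D := Real.log_pos hD
  have h0 : (0 : ℝ) ≤ D := by linarith
  have h1 := Real.log_le_rpow_div h0 (by norm_num : (0 : ℝ) < 1 / 6)
  have h2 : Real.log D ≤ 6 * D ^ (1 / 6 : ℝ) := by
    have : D ^ (1 / 6 : ℝ) / (1 / 6) = 6 * D ^ (1 / 6 : ℝ) := by ring
    linarith
  have h3 : (Real.log D) ^ 3 ≤ (6 * D ^ (1 / 6 : ℝ)) ^ 3 := pow_le_pow_left₀ hL.le h2 3
  have h4 : (D ^ (1 / 6 : ℝ)) ^ 3 = D ^ (1 / 2 : ℝ) := by
    rw [← Real.rpow_natCast, ← Real.rpow_mul h0]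
    norm_num
  have h5 : D ^ (1 / 2 : ℝ) * D ^ (1 / 2 : ℝ) = D := by
    rw [← Real.rpow_add (by linarith)]
    norm_num
  rw [le_div_iff₀ (by positivity)]
  have h6 : (6 * D ^ (1 / 6 : ℝ)) ^ 3 = 216 * D ^ (1 / 2 : ℝ) := by
    rw [mul_pow, h4]
    norm_num
  rw [h6] at h3
  have h7 : 0 ≤ D ^ (1 / 2 : ℝ) := Real.rpow_nonneg h0 _
  calc D ^ (1 / 2 : ℝ) * (Real.log D) ^ 3 ≤ D ^ (1 / 2 : ℝ) * (216 * D ^ (1 / 2 : ℝ)) :=
        mul_le_mul_of_nonneg_left h3 h7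
    _ = 216 * (D ^ (1 / 2 : ℝ) * D ^ (1 / 2 : ℝ)) := by ring
    _ = 216 * D := by rw [h5]

theorem F10 : ∃ C9 D0 : ℝ, 0 < C9 ∧ ∀ D : ℝ, D0 ≤ D → ∀ w z : ℕ, 2 ≤ w → z ≤ zs D →
    ∑ p ∈ P w z, (piw w p) ^ 2 ≤ C9 * D / (Real.log D) ^ 3 ∧
    ((z : ℝ) ^ 4 ≤ D → ∑ p ∈ P w z, (piw w p) ^ 2 ≤ D ^ (4 / 5 : ℝ)) := by
  obtain ⟨C, hC, hup⟩ := piw_up
  refine ⟨216 + (12 * C) ^ 3, 64, by positivity, fun D hD w z hw hz => ⟨?_, fun hz4 => ?_⟩⟩
  · have hD0 : (0 : ℝ) < D := by linarith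
    have hD1 : (1 : ℝ) < D := by linarith
    have hL : 0 < Real.log D := Real.log_pos hD1
    refine (m19_sum_le w z).trans ?_
    have hA0 := piw_nonneg w z
    have e1 : (216 + (12 * C) ^ 3) * D / (Real.log D) ^ 3 =
        216 * D / (Real.log D) ^ 3 + (12 * C) ^ 3 * D / (Real.log D) ^ 3 := by ring
    have e2 : 0 ≤ 216 * D / (Real.log D) ^ 3 := by positivity
    have e3 : 0 ≤ (12 * C) ^ 3 * D / (Real.log D) ^ 3 := by positivity
    rw [e1]
    rcases lt_or_ge (z : ℝ) (D ^ (1 / 6 : ℝ)) with h | h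
    · have h1 : (piw w z) ^ 3 ≤ (D ^ (1 / 6 : ℝ)) ^ 3 :=
        pow_le_pow_left₀ hA0 ((m19_piw_le w z).trans h.le) 3
      have h2 : (D ^ (1 / 6 : ℝ)) ^ 3 = D ^ (1 / 2 : ℝ) := by
        rw [← Real.rpow_natCast, ← Real.rpow_mul hD0.le]
        norm_num
      have h3 := m19_sqrt hD1
      linarith
    · have h6 : (2 : ℝ) ≤ D ^ (1 / 6 : ℝ) := by
        have h7 : (64 : ℝ) ^ (1 / 6 : ℝ) ≤ D ^ (1 / 6 : ℝ) :=
          Real.rpow_le_rpow (by norm_num) hD (by norm_num)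
        have h8 : (64 : ℝ) ^ (1 / 6 : ℝ) = 2 := by
          rw [show (64 : ℝ) = 2 ^ (6 : ℝ) by norm_num, ← Real.rpow_mul (by norm_num)]
          norm_num
        linarith
      have hz2R : (2 : ℝ) ≤ z := h6.trans h
      have hz2 : 2 ≤ z := by exact_mod_cast hz2R
      have h1 := hup w z hz2
      have hlz : Real.log D / 6 ≤ Real.log z := by
        have h2 := Real.log_le_log (by positivity) h
        rw [Real.log_rpow hD0] at h2
        linarith
      have hlz0 : 0 < Real.log z := by linarith [div_pos hL (by norm_num : (0 : ℝ) < 6)]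
      have h2 : (zs D : ℝ) ≤ D ^ (1 / 3 : ℝ) + 1 := zs_le hD0.le
      have h3 : (z : ℝ) ≤ zs D := by exact_mod_cast hz
      have h4 : (1 : ℝ) ≤ D ^ (1 / 3 : ℝ) := Real.one_le_rpow hD1.le (by norm_num)
      have h5 : (z : ℝ) ≤ 2 * D ^ (1 / 3 : ℝ) := by linarith
      have h7 : piw w z ≤ 12 * C * D ^ (1 / 3 : ℝ) / Real.log D := by
        refine h1.trans ?_
        rw [div_le_div_iff₀ hlz0 hL]
        have h8 : 0 ≤ D ^ (1 / 3 : ℝ) := Real.rpow_nonneg hD0.le _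
        calc C * z * Real.log D ≤ C * (2 * D ^ (1 / 3 : ℝ)) * (6 * Real.log z) := by
              apply mul_le_mul _ (by linarith) hL.le (by positivity)
              exact mul_le_mul_of_nonneg_left h5 hC.le
          _ = 12 * C * D ^ (1 / 3 : ℝ) * Real.log z := by ring
      have h8 : (piw w z) ^ 3 ≤ (12 * C * D ^ (1 / 3 : ℝ) / Real.log D) ^ 3 :=
        pow_le_pow_left₀ hA0 h7 3
      have h9 : (12 * C * D ^ (1 / 3 : ℝ) / Real.log D) ^ 3 =
          (12 * C) ^ 3 * D / (Real.log D) ^ 3 := by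
        rw [div_pow, mul_pow, Bas_cube_rt hD0.le]
      linarith
  · have hD0 : (0 : ℝ) < D := by linarith
    have hD1 : (1 : ℝ) < D := by linarith
    refine (m19_sum_le w z).trans ?_
    have hz0 : (0 : ℝ) ≤ z := Nat.cast_nonneg z
    have h1 : (z : ℝ) ≤ D ^ (1 / 4 : ℝ) := by
      have h2 : ((z : ℝ) ^ 4) ^ (1 / 4 : ℝ) ≤ D ^ (1 / 4 : ℝ) :=
        Real.rpow_le_rpow (by positivity) hz4 (by norm_num)
      have h3 : ((z : ℝ) ^ 4) ^ (1 / 4 : ℝ) = z := by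
        rw [← Real.rpow_natCast, ← Real.rpow_mul hz0]
        norm_num
      rwa [h3] at h2
    have h2 : (piw w z) ^ 3 ≤ (D ^ (1 / 4 : ℝ)) ^ 3 :=
      pow_le_pow_left₀ (piw_nonneg w z) ((m19_piw_le w z).trans h1) 3
    have h3 : (D ^ (1 / 4 : ℝ)) ^ 3 = D ^ (3 / 4 : ℝ) := by
      rw [← Real.rpow_natCast, ← Real.rpow_mul hD0.le]
      norm_num
    have h4 : D ^ (3 / 4 : ℝ) ≤ D ^ (4 / 5 : ℝ) :=
      Real.rpow_le_rpow_of_exponent_le hD1.le (by norm_num)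
    linarith

/-- a rough number with an even number of prime factors is `1` or at least `q ^ 2` -/
private lemma m19_one {q m : ℕ} (hm : 1 ≤ m) (hr : Rough q m)
    (he : Even (ArithmeticFunction.cardFactors m)) : m = 1 ∨ q ^ 2 ≤ m := by
  rcases Nat.lt_or_ge 1 m with h1 | h1
  · right
    have hp := Nat.minFac_prime h1.ne'
    obtain ⟨k, hk⟩ := Nat.minFac_dvd m
    have hk0 : k ≠ 0 := by
      rintro rfl
      omega
    have hk1 : k ≠ 1 := by
      rintro rfl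
      rw [hk, mul_one, ArithmeticFunction.cardFactors_apply_prime hp] at he
      exact absurd he (by decide)
    have hp2 := Nat.minFac_prime hk1
    have hq1 : q ≤ m.minFac := hr _ hp (Nat.minFac_dvd m)
    have hq2 : q ≤ k.minFac := hr _ hp2 (by
      rw [hk]
      exact dvd_mul_of_dvd_right (Nat.minFac_dvd k) _)
    have hq3 : q ≤ k := hq2.trans (Nat.minFac_le (Nat.pos_of_ne_zero hk0))
    calc q ^ 2 = q * q := by ring
      _ ≤ m.minFac * k := Nat.mul_le_mul hq1 hq3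
      _ = m := hk.symm
  · left
    omega

private lemma m19_EE_le {X : ℝ} {q : ℕ} (hX : X < (q : ℝ) ^ 2) : EE X q ≤ 1 := by
  classical
  unfold EE
  have h : ((Finset.Icc 1 ⌊X⌋₊).filter
      (fun m : ℕ => Rough q m ∧ Even (ArithmeticFunction.cardFactors m))) ⊆ {1} := by
    intro m hm
    rw [Finset.mem_filter, Finset.mem_Icc] at hm
    rw [Finset.mem_singleton]
    rcases m19_one hm.1.1 hm.2.1 hm.2.2 with h1 | h1
    · exact h1
    · exfalso
      have h2 : (q : ℝ) ^ 2 ≤ m := by exact_mod_cast h1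
      have h3 : m ≤ ⌊X⌋₊ := hm.1.2
      rw [Nat.le_floor_iff' (by omega)] at h3
      linarith
  have h2 := Finset.card_le_card h
  rw [Finset.card_singleton] at h2
  exact_mod_cast h2

private lemma m19_EE_ge {X : ℝ} {q : ℕ} (hX : 1 ≤ X) : 1 ≤ EE X q := by
  classical
  unfold EE
  have h : ({1} : Finset ℕ) ⊆ ((Finset.Icc 1 ⌊X⌋₊).filter
      (fun m : ℕ => Rough q m ∧ Even (ArithmeticFunction.cardFactors m))) := by
    intro m hm
    rw [Finset.mem_singleton] at hm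
    subst hm
    rw [Finset.mem_filter, Finset.mem_Icc]
    refine ⟨⟨le_rfl, ?_⟩, ?_, ?_⟩
    · rw [Nat.le_floor_iff' (by norm_num)]
      exact_mod_cast hX
    · intro p hp hd
      exact absurd (Nat.dvd_one.1 hd) hp.one_lt.ne'
    · rw [ArithmeticFunction.cardFactors_one]
      exact ⟨0, rfl⟩
  have h2 := Finset.card_le_card h
  rw [Finset.card_singleton] at h2
  exact_mod_cast h2

private lemma m19_Gm {X : ℝ} {q : ℕ} (h1 : 1 ≤ X) (hX : X < (q : ℝ) ^ 2) : -1 ≤ Gm X q := by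
  have h2 := m19_EE_ge (q := q) h1
  have hk : (1 : ℝ) ≤ kap := by unfold kap; norm_num
  have hk2 : kap ≤ 2 := by unfold kap; norm_num
  have h3 : X / kap < (q : ℝ) ^ 2 := lt_of_le_of_lt (div_le_self (by linarith) hk) hX
  have h4 := m19_EE_le h3
  have h5 := EE_nonneg (X / kap) q
  unfold Gm
  nlinarith

private lemma m19_claim {D : ℝ} {w z p : ℕ} (hw : 2 ≤ w) (hD : (w : ℝ) ^ 6 ≤ D)
    (hz : (z : ℝ) ^ 2 ≤ D) (hp : p ∈ P w z) :
    Gp (D / p) (min p (zs (D / p))) ≤ Gp (D / p) p + piw w p := by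
  rw [mem_P] at hp
  obtain ⟨hwp, hpz, hpp⟩ := hp
  rcases Nat.lt_or_ge (zs (D / p)) p with h | h
  · have hD0 : 0 ≤ D := le_trans (by positivity) hz
    have hp0 : (0 : ℝ) < p := by exact_mod_cast hpp.pos
    have hpzR : (p : ℝ) < z := by exact_mod_cast hpz
    have hp2 : (p : ℝ) ^ 2 < D := lt_of_lt_of_le (by nlinarith) hz
    have hDp : 0 ≤ D / p := div_nonneg hD0 hp0.le
    have hwy : w < zs (D / p) := by
      rw [lt_zs hDp]
      have h1 : (p : ℝ) ≤ D / p := by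
        rw [le_div_iff₀ hp0]
        nlinarith
      have h2 : D = (D / p) * p := by field_simp
      have h3 : (w : ℝ) ^ 6 ≤ (D / p) ^ 2 := by
        calc (w : ℝ) ^ 6 ≤ D := hD
          _ = (D / p) * p := h2
          _ ≤ (D / p) * (D / p) := mul_le_mul_of_nonneg_left h1 hDp
          _ = (D / p) ^ 2 := by ring
      have h4 : ((w : ℝ) ^ 3) ^ 2 ≤ (D / p) ^ 2 := by
        rw [← pow_mul]
        exact h3
      exact le_of_pow_le_pow_left₀ (by norm_num) hDp h4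
    rw [min_eq_right h.le, buchGp (D / p) (w := zs (D / p)) (z := p) (by omega) h.le]
    have h1 : -(piw w p) ≤ ∑ q ∈ P (zs (D / p)) p, Gm (D / p / q) q := by
      have h2 : ∑ _q ∈ P (zs (D / p)) p, (-1 : ℝ) ≤ ∑ q ∈ P (zs (D / p)) p, Gm (D / p / q) q := by
        apply Finset.sum_le_sum
        intro q hq
        rw [mem_P] at hq
        obtain ⟨hyq, hqp, hqq⟩ := hq
        have hq0 : (0 : ℝ) < q := by exact_mod_cast hqq.pos
        have hqpR : (q : ℝ) < p := by exact_mod_cast hqp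
        apply m19_Gm
        · rw [div_div, le_div_iff₀ (by positivity), one_mul]
          nlinarith
        · have h3 : ¬ (q < zs (D / p)) := by omega
          rw [lt_zs hDp, not_le] at h3
          rw [div_lt_iff₀ hq0]
          calc D / p < (q : ℝ) ^ 3 := h3
            _ = (q : ℝ) ^ 2 * q := by ring
      rw [Finset.sum_const, nsmul_eq_mul] at h2
      have h3 : ((P (zs (D / p)) p).card : ℝ) ≤ piw w p := by
        unfold piw
        have h4 : P (zs (D / p)) p ⊆ P w p := by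
          intro q hq
          rw [mem_P] at hq ⊢
          exact ⟨by omega, hq.2.1, hq.2.2⟩
        exact_mod_cast Finset.card_le_card h4
      linarith
    linarith
  · rw [min_eq_left h]
    linarith [piw_nonneg w p]

theorem F11 {D : ℝ} {w z : ℕ} (hw : 2 ≤ w) (hwz : w ≤ z) (hD : (w : ℝ) ^ 6 ≤ D)
    (hz : (z : ℝ) ^ 2 ≤ D) :
    ∑ p ∈ P w z, Gp (D / p) (min p (zs (D / p))) ≤ Gm D z - Gm D w + (piw w z) ^ 2 / 2 := by
  have h1 := buchGm D hw hwz
  have h2 : ∑ p ∈ P w z, Gp (D / p) (min p (zs (D / p))) ≤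
      ∑ p ∈ P w z, (Gp (D / p) p + piw w p) :=
    Finset.sum_le_sum fun p hp => m19_claim hw hD hz hp
  rw [Finset.sum_add_distrib] at h2
  have h3 := sum_piw w z
  rw [Finset.sum_add_distrib, ← Finset.mul_sum, Finset.sum_const, nsmul_eq_mul, mul_one] at h3
  have h4 : (0 : ℝ) ≤ ((P w z).card : ℝ) := Nat.cast_nonneg _
  linarith

end Pool.Agent.Lib.MP_45349e_nt.JG
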