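import Pool.Agent.Lib.MP_45349e_nt.JG.Bas
import Pool.Agent.Lib.MP_45349e_nt.JG.M01

/-!
# JG-M20: (F12), the lower bound of the main functions by `-C5 J`

Induction on `D` (`D/p ≤ D/2`) for both statements simultaneously, with the recursions of M01.
-/

open Finset

namespace Pool.Agent.Lib.MP_45349e_nt.JG

open Pool.Agent.Lib.MP_45349e_nt.LS (P lam Lsum V)

private theorem M20_log_w {w z : ℕ} (hw : 3 ≤ w) (hwz : w ≤ z) : 1 ≤ Real.log z := by
  have h1 : Real.exp 1 ≤ z := by
    have h2 : (3 : ℝ) ≤ z := by exact_mod_cast hw.trans hwz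
    have h3 := Real.exp_one_lt_d9
    linarith
  have h4 := Real.log_le_log (Real.exp_pos 1) h1
  rwa [Real.log_exp] at h4

/-- `p D0 ≤ D` if `p ^ 2 ≤ D` and `D0 ^ 2 ≤ D` -/
private theorem M20_div {D D0 : ℝ} (h0 : 0 < D0) (hD : D0 ^ 2 ≤ D) {p : ℕ} (hp : 1 ≤ p)
    (h2 : (p : ℝ) ^ 2 ≤ D) : D0 ≤ D / p := by
  have hp0 : (0 : ℝ) < p := by exact_mod_cast hp
  rw [le_div_iff₀ hp0]
  have hDpos : 0 < D := lt_of_lt_of_le (by positivity) hD
  have h3 : (D0 * p) ^ 2 ≤ D ^ 2 := by
    rw [mul_pow, sq D]
    exact mul_le_mul hD h2 (by positivity) hDpos.le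
  exact (abs_le_of_sq_le_sq' h3 hDpos.le).2

private theorem M20_cube {L : ℝ} (hL : 0 ≤ L) : L ^ 3 ≤ 6 * Real.exp L := by
  have h := Real.pow_div_factorial_le_exp L hL 3
  have h5 : ((Nat.factorial 3 : ℕ) : ℝ) = 6 := by norm_num [Nat.factorial]
  rw [h5, div_le_iff₀ (by norm_num)] at h
  linarith

theorem F12 {w : ℕ} (hw : 3 ≤ w) {Cw D0 : ℝ} (hCw : 0 < Cw) (hD0 : (w : ℝ) ^ 12 ≤ D0)
    (h16 : Real.exp 16 ≤ D0)
    (hf1 : ∀ D : ℝ, D0 ≤ D →
      |Gm D w| ≤ Cw * D / (Real.log D) ^ 6 ∧ |Gp D w| ≤ Cw * D / (Real.log D) ^ 6)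
    (hf2a : ∀ D : ℝ, D0 ≤ D → ∀ z : ℕ, (z : ℝ) ^ 2 ≤ D → D < (z : ℝ) ^ 4 → -1 ≤ Gm D z)
    (hf6 : ∀ D : ℝ, D0 ≤ D → ∀ z : ℕ, w ≤ z → (z : ℝ) ^ 4 ≤ D →
      ∑ p ∈ P w z, JJ (D / p) p ≤ 24 / 25 * JJ D z)
    (hf7 : ∀ D : ℝ, D0 ≤ D → ∀ s : Finset ℕ, (∀ p ∈ s, p.Prime ∧ w ≤ p ∧ (p : ℝ) ^ 5 ≤ D) →
      ∑ p ∈ s, JJ (D / p) p ≤ 24 / 25 * (eta * D / (Real.log D) ^ 3)) :
    ∃ C5 : ℝ, 0 < C5 ∧
      (∀ D : ℝ, D0 ≤ D → ∀ z : ℕ, w ≤ z → (z : ℝ) ^ 2 ≤ D → -(C5 * JJ D z) ≤ Gm D z) ∧
      (∀ D : ℝ, D0 ≤ D → ∀ z : ℕ, w ≤ z → z ≤ zs D → -(C5 * JJ D z) ≤ Gp D z) := by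
  have hD0pos : 0 < D0 := (Real.exp_pos 16).trans_le h16
  set L0 := Real.log D0 with hL0
  have hL0' : 16 ≤ L0 := by rw [hL0, Real.le_log_iff_exp_le hD0pos]; exact h16
  have hD01 : 1 ≤ D0 := by
    have := Real.add_one_le_exp (16 : ℝ)
    linarith
  have heta : eta = 9 / 1000 := rfl
  have hetapos : 0 < eta := by rw [heta]; norm_num
  set A1 : ℝ := (2 * L0) ^ 6 / eta with hA1
  set A2 : ℝ := 25 * (Cw + 41) / eta with hA2
  have hA1pos : 0 < A1 := by positivity
  have hA2pos : 0 < A2 := by positivity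
  set C5 : ℝ := A1 + A2 + 25 * Cw with hC5
  have hC5pos : 0 < C5 := by positivity
  -- facts about `L = log D`
  have hlogD : ∀ D : ℝ, D0 ≤ D → 16 ≤ Real.log D ∧ 0 < D := by
    intro D hD
    have h1 : 0 < D := hD0pos.trans_le hD
    exact ⟨hL0'.trans (Real.log_le_log hD0pos hD), h1⟩
  -- the base case
  have hbase : ∀ D : ℝ, D0 ≤ D → D < D0 ^ 2 → ∀ z : ℕ, w ≤ z → D ≤ C5 * JJ D z := by
    intro D hD hD2 z hwz
    obtain ⟨hL, hDpos⟩ := hlogD D hD
    set L := Real.log D with hLdef
    have hL2 : L ≤ 2 * L0 := by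
      have h1 := Real.log_le_log hDpos hD2.le
      rw [Real.log_pow] at h1
      push_cast at h1
      exact h1
    have hLpos : 0 < L := by linarith
    have hJ : eta * D / (2 * L0) ^ 6 ≤ JJ D z := by
      rw [JJ]
      split_ifs with h4
      · have h1 := M20_log_w hw hwz
        have h2 : (1 : ℝ) ≤ Real.log z ^ 3 := one_le_pow₀ h1
        have h3 : L ^ 6 ≤ (2 * L0) ^ 6 := pow_le_pow_left₀ hLpos.le hL2 6
        rw [div_le_div_iff₀ (by positivity) (by positivity)]
        have h5 : eta * D * L ^ 6 ≤ D * (2 * L0) ^ 6 := by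
          have h6 : eta * D ≤ D := by rw [heta]; linarith
          exact mul_le_mul h6 h3 (by positivity) hDpos.le
        have h7 : D * (2 * L0) ^ 6 ≤ D * Real.log z ^ 3 * (2 * L0) ^ 6 := by
          apply mul_le_mul_of_nonneg_right _ (by positivity)
          nlinarith
        linarith
      · have h3 : L ^ 3 ≤ (2 * L0) ^ 6 := by
          have h8 : L ^ 3 ≤ (2 * L0) ^ 3 := pow_le_pow_left₀ hLpos.le hL2 3
          have h9 : (2 * L0) ^ 3 ≤ (2 * L0) ^ 6 := pow_le_pow_right₀ (by linarith) (by norm_num)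
          linarith
        exact div_le_div_of_nonneg_left (by positivity) (by positivity) h3
    have h1 : A1 * (eta * D / (2 * L0) ^ 6) = D := by
      rw [hA1]
      field_simp
    have h2 : A1 * (eta * D / (2 * L0) ^ 6) ≤ C5 * JJ D z := by
      apply mul_le_mul _ hJ (by positivity) hC5pos.le
      rw [hC5]
      have : 0 < 25 * Cw := by positivity
      linarith
    linarith
  -- the induction
  have hind : ∀ n : ℕ, ∀ D : ℝ, D0 ≤ D → D < D0 ^ 2 * 2 ^ n → ∀ z : ℕ, w ≤ z →
      ((z : ℝ) ^ 2 ≤ D → -(C5 * JJ D z) ≤ Gm D z) ∧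
      (z ≤ zs D → -(C5 * JJ D z) ≤ Gp D z) := by
    intro n
    induction n with
    | zero =>
      intro D hD hD2 z hwz
      rw [pow_zero, mul_one] at hD2
      obtain ⟨-, hDpos⟩ := hlogD D hD
      have h1 := hbase D hD hD2 z hwz
      have h2 := (abs_le.1 (Gm_abs hDpos.le z)).1
      have h3 := (abs_le.1 (Gp_abs hDpos.le z)).1
      exact ⟨fun _ => by linarith, fun _ => by linarith⟩
    | succ n ih =>
      intro D hD hDn z hwz
      obtain ⟨hL, hDpos⟩ := hlogD D hD
      by_cases hD2 : D < D0 ^ 2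
      · have h1 := hbase D hD hD2 z hwz
        have h2 := (abs_le.1 (Gm_abs hDpos.le z)).1
        have h3 := (abs_le.1 (Gp_abs hDpos.le z)).1
        exact ⟨fun _ => by linarith, fun _ => by linarith⟩
      push Not at hD2
      set L := Real.log D with hLdef
      have hLpos : 0 < L := by linarith
      have hDL : D = Real.exp L := by rw [hLdef, Real.exp_log hDpos]
      have hstep : ∀ p : ℕ, p.Prime → (p : ℝ) ^ 2 ≤ D →
          D0 ≤ D / p ∧ D / p < D0 ^ 2 * 2 ^ n := by
        intro p hp h2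
        refine ⟨M20_div hD0pos hD2 hp.one_lt.le h2, ?_⟩
        have h3 : (2 : ℝ) ≤ p := by exact_mod_cast hp.two_le
        rw [div_lt_iff₀ (by linarith)]
        have h4 : D0 ^ 2 * 2 ^ (n + 1) ≤ D0 ^ 2 * 2 ^ n * p := by
          rw [pow_succ (2 : ℝ) n, ← mul_assoc]
          exact mul_le_mul_of_nonneg_left h3 (by positivity)
        linarith
      have hpp : ∀ p : ℕ, p.Prime → (p : ℝ) ^ 3 ≤ D → (p : ℝ) ^ 2 ≤ D ∧ (p : ℝ) ^ 2 ≤ D / p := by
        intro p hp h3
        have h4 : (1 : ℝ) ≤ p := by exact_mod_cast hp.one_lt.le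
        refine ⟨(pow_le_pow_right₀ h4 (by norm_num)).trans h3, ?_⟩
        rw [le_div_iff₀ (by linarith)]
        calc (p : ℝ) ^ 2 * p = (p : ℝ) ^ 3 := by ring
          _ ≤ D := h3
      obtain ⟨hw1, hw2⟩ := hf1 D hD
      have hw1' := (abs_le.1 hw1).1
      have hw2' := (abs_le.1 hw2).1
      by_cases hz4 : (z : ℝ) ^ 4 ≤ D
      · -- (i)
        have hJ : JJ D z = D * Real.log z ^ 3 / L ^ 6 := by
          rw [JJ, if_pos hz4]
        have hJ1 : D / L ^ 6 ≤ JJ D z := by
          rw [hJ]
          apply div_le_div_of_nonneg_right _ (by positivity)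
          have h2 : (1 : ℝ) ≤ Real.log z ^ 3 := one_le_pow₀ (M20_log_w hw hwz)
          nlinarith
        have hCJ : Cw * D / L ^ 6 ≤ C5 / 25 * JJ D z := by
          have h1 : Cw * D / L ^ 6 = Cw * (D / L ^ 6) := by ring
          rw [h1]
          apply mul_le_mul _ hJ1 (by positivity) (by positivity)
          rw [hC5]
          linarith
        have hp4 : ∀ p ∈ P w z, p.Prime ∧ w ≤ p ∧ (p : ℝ) ^ 4 ≤ D ∧ (p : ℝ) ^ 3 ≤ D := by
          intro p hp
          rw [mem_P] at hp
          have h1 : (p : ℝ) ≤ z := by exact_mod_cast hp.2.1.le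
          have h2 : (p : ℝ) ^ 4 ≤ (z : ℝ) ^ 4 := pow_le_pow_left₀ (Nat.cast_nonneg p) h1 4
          have h4 : (1 : ℝ) ≤ p := by exact_mod_cast hp.2.2.one_lt.le
          exact ⟨hp.2.2, hp.1, h2.trans hz4,
            (pow_le_pow_right₀ h4 (by norm_num)).trans (h2.trans hz4)⟩
        have hsum := hf6 D hD z hwz hz4
        have hsum2 : C5 * ∑ p ∈ P w z, JJ (D / p) p ≤ 24 / 25 * C5 * JJ D z := by
          have := mul_le_mul_of_nonneg_left hsum hC5pos.le
          linarith
        constructor
        · intro _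
          rw [buchGm D (by omega : 2 ≤ w) hwz]
          have h1 : -(C5 * ∑ p ∈ P w z, JJ (D / p) p) ≤ ∑ p ∈ P w z, Gp (D / p) p := by
            rw [mul_sum, ← sum_neg_distrib]
            refine sum_le_sum fun p hp => ?_
            obtain ⟨a1, a2, a3, a4⟩ := hp4 p hp
            obtain ⟨b1, b2⟩ := hstep p a1 (hpp p a1 a4).1
            refine (ih (D / p) b1 b2 p a2).2 ?_
            apply le_of_lt
            rw [lt_zs (by linarith)]
            have h4 : (0 : ℝ) < p := by exact_mod_cast a1.pos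
            rw [le_div_iff₀ h4]
            calc (p : ℝ) ^ 3 * p = (p : ℝ) ^ 4 := by ring
              _ ≤ D := a3
          linarith
        · intro _
          rw [buchGp D (by omega : 2 ≤ w) hwz]
          have h1 : -(C5 * ∑ p ∈ P w z, JJ (D / p) p) ≤ ∑ p ∈ P w z, Gm (D / p) p := by
            rw [mul_sum, ← sum_neg_distrib]
            refine sum_le_sum fun p hp => ?_
            obtain ⟨a1, a2, a3, a4⟩ := hp4 p hp
            obtain ⟨b1, b2⟩ := hstep p a1 (hpp p a1 a4).1
            exact (ih (D / p) b1 b2 p a2).1 (hpp p a1 a4).2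
          linarith
      · have hJ : JJ D z = eta * D / L ^ 3 := by
          rw [JJ, if_neg hz4]
        push Not at hz4
        have hX : 1 / 6 ≤ D / L ^ 3 := by
          rw [div_le_div_iff₀ (by norm_num) (by positivity)]
          have := M20_cube hLpos.le
          rw [← hDL] at this
          linarith
        have hCe : 25 * (Cw + 41) ≤ C5 * eta := by
          have h1 : A2 * eta = 25 * (Cw + 41) := by rw [hA2]; field_simp
          have h2 : A2 * eta ≤ C5 * eta := by
            apply mul_le_mul_of_nonneg_right _ hetapos.le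
            rw [hC5]
            have : 0 < 25 * Cw := by positivity
            linarith
          linarith
        set X : ℝ := D / L ^ 3 with hXdef
        have hJX : JJ D z = eta * X := by rw [hJ, hXdef]; ring
        constructor
        · -- (ii)
          intro hz2
          have h1 := hf2a D hD z hz2 hz4
          rw [hJX]
          have h2 : 25 * 41 * (1 / 6) ≤ C5 * (eta * X) := by
            calc 25 * 41 * (1 / 6 : ℝ) ≤ 25 * (Cw + 41) * X := by
                  apply mul_le_mul _ hX (by norm_num) (by positivity)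
                  linarith
              _ ≤ C5 * eta * X := mul_le_mul_of_nonneg_right hCe (by linarith)
              _ = C5 * (eta * X) := by ring
          linarith
        · -- (iii)
          intro hzs
          rw [buchGp D (by omega : 2 ≤ w) hwz]
          have hp3 : ∀ p ∈ P w z, p.Prime ∧ w ≤ p ∧ (p : ℝ) ^ 3 ≤ D := by
            intro p hp
            rw [mem_P] at hp
            refine ⟨hp.2.2, hp.1, ?_⟩
            rw [← lt_zs hDpos.le]
            omega
          classical
          set s1 := (P w z).filter (fun p : ℕ => (p : ℝ) ^ 5 ≤ D) with hs1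
          set s2 := (P w z).filter (fun p : ℕ => ¬ (p : ℝ) ^ 5 ≤ D) with hs2
          have hsplit : ∑ p ∈ P w z, Gm (D / p) p =
              ∑ p ∈ s1, Gm (D / p) p + ∑ p ∈ s2, Gm (D / p) p :=
            (sum_filter_add_sum_filter_not _ _ _).symm
          have hS1 : -(C5 * (24 / 25 * (eta * X))) ≤ ∑ p ∈ s1, Gm (D / p) p := by
            have h1 : -(C5 * ∑ p ∈ s1, JJ (D / p) p) ≤ ∑ p ∈ s1, Gm (D / p) p := by
              rw [mul_sum, ← sum_neg_distrib]
              refine sum_le_sum fun p hp => ?_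
              rw [hs1, mem_filter] at hp
              obtain ⟨a1, a2, a4⟩ := hp3 p hp.1
              obtain ⟨b1, b2⟩ := hstep p a1 (hpp p a1 a4).1
              exact (ih (D / p) b1 b2 p a2).1 (hpp p a1 a4).2
            have h2 := hf7 D hD s1 (by
              intro p hp
              rw [hs1, mem_filter] at hp
              obtain ⟨a1, a2, a4⟩ := hp3 p hp.1
              exact ⟨a1, a2, hp.2⟩)
            have h3 : eta * D / L ^ 3 = eta * X := by rw [hXdef]; ring
            rw [← hLdef, h3] at h2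
            have h4 := mul_le_mul_of_nonneg_left h2 hC5pos.le
            linarith
          have hS2 : -(zs D : ℝ) ≤ ∑ p ∈ s2, Gm (D / p) p := by
            have h1 : ∑ p ∈ s2, (-1 : ℝ) ≤ ∑ p ∈ s2, Gm (D / p) p := by
              refine sum_le_sum fun p hp => ?_
              rw [hs2, mem_filter] at hp
              obtain ⟨a1, a2, a4⟩ := hp3 p hp.1
              obtain ⟨b1, b2⟩ := hstep p a1 (hpp p a1 a4).1
              refine hf2a (D / p) b1 p (hpp p a1 a4).2 ?_
              have h4 : (0 : ℝ) < p := by exact_mod_cast a1.pos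
              rw [div_lt_iff₀ h4]
              have h5 := hp.2
              push Not at h5
              calc D < (p : ℝ) ^ 5 := h5
                _ = (p : ℝ) ^ 4 * p := by ring
            have h2 : s2.card ≤ zs D := by
              have h3 : s2 ⊆ Finset.range (zs D) := by
                intro p hp
                rw [hs2, mem_filter, mem_P] at hp
                rw [mem_range]
                omega
              have := card_le_card h3
              rwa [card_range] at this
            have h3 : ∑ p ∈ s2, (-1 : ℝ) = -(s2.card : ℝ) := by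
              rw [sum_const, nsmul_eq_mul]; ring
            have h4 : (s2.card : ℝ) ≤ zs D := by exact_mod_cast h2
            rw [h3] at h1
            linarith
          have hzs2 : (zs D : ℝ) ≤ 41 * X := by
            have h1 := zs_le hDpos.le
            have h2 : D ^ (1 / 3 : ℝ) = Real.exp (L / 3) := by
              rw [Real.rpow_def_of_pos hDpos, ← hLdef]
              congr 1
              ring
            have h3 : 1 ≤ Real.exp (L / 3) := Real.one_le_exp (by linarith)
            have h4 : Real.exp (L / 3) * L ^ 3 ≤ 81 / 4 * D := by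
              have h5 := M20_cube (L := 2 * L / 3) (by linarith)
              have h6 : L ^ 3 ≤ 81 / 4 * Real.exp (2 * L / 3) := by
                have h7 : (2 * L / 3) ^ 3 = 8 / 27 * L ^ 3 := by ring
                rw [h7] at h5
                linarith
              calc Real.exp (L / 3) * L ^ 3 ≤ Real.exp (L / 3) * (81 / 4 * Real.exp (2 * L / 3)) :=
                    mul_le_mul_of_nonneg_left h6 (Real.exp_pos _).le
                _ = 81 / 4 * (Real.exp (L / 3) * Real.exp (2 * L / 3)) := by ring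
                _ = 81 / 4 * D := by
                    rw [← Real.exp_add, hDL]
                    congr 2
                    ring
            have h8 : Real.exp (L / 3) ≤ 81 / 4 * X := by
              rw [hXdef, mul_div_assoc', le_div_iff₀ (by positivity)]
              exact h4
            rw [h2] at h1
            linarith
          have hCw6 : Cw * D / L ^ 6 ≤ Cw * X := by
            have h1 : Cw * X = Cw * D / L ^ 3 := by rw [hXdef]; ring
            rw [h1]
            apply div_le_div_of_nonneg_left (by positivity) (by positivity)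
            exact pow_le_pow_right₀ (by linarith) (by norm_num)
          have hfin : (Cw + 41) * X ≤ C5 * (1 / 25 * (eta * X)) := by
            have h1 : C5 * (1 / 25 * (eta * X)) = C5 * eta / 25 * X := by ring
            rw [h1]
            apply mul_le_mul_of_nonneg_right _ (by linarith)
            linarith
          rw [hsplit, hJX]
          nlinarith
  refine ⟨C5, hC5pos, ?_, ?_⟩
  · intro D hD z hwz hz2
    obtain ⟨n, hn⟩ : ∃ n : ℕ, D < D0 ^ 2 * 2 ^ n := by
      obtain ⟨n, hn⟩ := pow_unbounded_of_one_lt D (by norm_num : (1 : ℝ) < 2)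
      refine ⟨n, hn.trans_le ?_⟩
      have h1 : (1 : ℝ) ≤ D0 ^ 2 := one_le_pow₀ hD01
      have h2 : (0 : ℝ) < 2 ^ n := by positivity
      nlinarith
    exact (hind n D hD hn z hwz).1 hz2
  · intro D hD z hwz hzs
    obtain ⟨n, hn⟩ : ∃ n : ℕ, D < D0 ^ 2 * 2 ^ n := by
      obtain ⟨n, hn⟩ := pow_unbounded_of_one_lt D (by norm_num : (1 : ℝ) < 2)
      refine ⟨n, hn.trans_le ?_⟩
      have h1 : (1 : ℝ) ≤ D0 ^ 2 := one_le_pow₀ hD01
      have h2 : (0 : ℝ) < 2 ^ n := by positivity
      nlinarith
    exact (hind n D hD hn z hwz).2 hzs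

end Pool.Agent.Lib.MP_45349e_nt.JG
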