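import Pool.Agent.Lib.MP_45349e_nt.JG.M05
import Pool.Agent.Lib.MP_45349e_nt.JG.M11
import Pool.Agent.Lib.MP_45349e_nt.JG.M13
import Pool.Agent.Lib.MP_45349e_nt.JG.M17
import Pool.Agent.Lib.MP_45349e_nt.JG.M19
import Pool.Agent.Lib.MP_45349e_nt.JG.M20

/-!
# JG-M21 (30 min): all facts together

PROOF. Take `w = max 3 w0` with `w0` of `F6`; `Cw` the maximum of the constants of `baseG w` and `srcW w`;
`D0` the maximum of all thresholds (`w^12`, `exp 16`, of `F2a, F2b, F3, F4, F5, F7, F8, F10, f13, f13'`,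
`2 z0^2` with `z0` of `piw_low w`). `f6`: `F6`. `f16`: `piw_up` (`z ≥ 2`). `C9` the maximum.
-/

open Finset

namespace Pool.Agent.Lib.MP_45349e_nt.JG

open Pool.Agent.Lib.MP_45349e_nt.LS (P lam Lsum V)

theorem facts : ∃ (w : ℕ) (Cw c7 C8 eps C5 C6 C9 c13 D0 : ℝ),
    Facts w Cw c7 C8 eps C5 C6 C9 c13 D0 ∧
    ∀ D : ℝ, D0 ≤ D → ∀ c : ℕ → ℤ,
      |Tc ⌊D⌋₊ w c - 2 * EE D w| ≤ Cw * D / (Real.log D) ^ 6 ∧
      |Tc ⌊D⌋₊ w c - 2 * OO D w| ≤ Cw * D / (Real.log D) ^ 6 := by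
  obtain ⟨w, hw3, h6⟩ := F6
  obtain ⟨Cg, hCg, hg⟩ := baseG w (by omega)
  obtain ⟨Cs, hCs, hs⟩ := srcW w (by omega)
  obtain ⟨Da, h2a⟩ := F2a
  obtain ⟨c7, Db, hc7, h2b⟩ := F2b
  obtain ⟨C8, Dc, hC8, h3⟩ := F3
  obtain ⟨Dd, h4⟩ := F4
  obtain ⟨eps, De, he0, he1, h5⟩ := F5
  obtain ⟨Df, h7⟩ := F7
  obtain ⟨C6, Dg, hC6, h8⟩ := F8
  obtain ⟨C9, Dh, hC9, h10⟩ := F10
  obtain ⟨ca, Di, hca, h13a⟩ := f13 (a := 1 / (4 + eps)) (b := 1 / 4) (by positivity)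
    (one_div_lt_one_div_of_lt (by norm_num) (by linarith))
  obtain ⟨cb, Dj, hcb, h13b⟩ := f13' (a := 1 / 5) (b := 1 / 4) (by norm_num) (by norm_num)
  obtain ⟨z0, h15⟩ := piw_low w
  obtain ⟨C16, hC16, h16⟩ := piw_up
  obtain ⟨D0, q1, q2, q3, q4, q5, q6, q7, q8, q9, q10, q11, q12, q13⟩ : ∃ D0 : ℝ,
      (w : ℝ) ^ 12 ≤ D0 ∧ Real.exp 16 ≤ D0 ∧ Da ≤ D0 ∧ Db ≤ D0 ∧ Dc ≤ D0 ∧ Dd ≤ D0 ∧ De ≤ D0 ∧
      Df ≤ D0 ∧ Dg ≤ D0 ∧ Dh ≤ D0 ∧ Di ≤ D0 ∧ Dj ≤ D0 ∧ 2 * (z0 : ℝ) ^ 2 ≤ D0 := by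
    refine ⟨(w : ℝ) ^ 12 + Real.exp 16 + |Da| + |Db| + |Dc| + |Dd| + |De| + |Df| + |Dg| + |Dh| +
      |Di| + |Dj| + 2 * (z0 : ℝ) ^ 2, ?_⟩
    have a1 : (0 : ℝ) ≤ (w : ℝ) ^ 12 := by positivity
    have a2 := Real.exp_pos 16
    have a3 : (0 : ℝ) ≤ 2 * (z0 : ℝ) ^ 2 := by positivity
    have b1 := abs_nonneg Da
    have b2 := abs_nonneg Db
    have b3 := abs_nonneg Dc
    have b4 := abs_nonneg Dd
    have b5 := abs_nonneg De
    have b6 := abs_nonneg Df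
    have b7 := abs_nonneg Dg
    have b8 := abs_nonneg Dh
    have b9 := abs_nonneg Di
    have b10 := abs_nonneg Dj
    have d1 := le_abs_self Da
    have d2 := le_abs_self Db
    have d3 := le_abs_self Dc
    have d4 := le_abs_self Dd
    have d5 := le_abs_self De
    have d6 := le_abs_self Df
    have d7 := le_abs_self Dg
    have d8 := le_abs_self Dh
    have d9 := le_abs_self Di
    have d10 := le_abs_self Dj
    refine ⟨?_, ?_, ?_, ?_, ?_, ?_, ?_, ?_, ?_, ?_, ?_, ?_, ?_⟩ <;> linarith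
  have h2 : (2 : ℝ) ≤ D0 := by
    have h := Real.add_one_le_exp (16 : ℝ)
    linarith
  obtain ⟨Cw, hCw, r1, r2⟩ : ∃ Cw : ℝ, 0 < Cw ∧ Cg ≤ Cw ∧ Cs ≤ Cw :=
    ⟨max Cg Cs, lt_max_of_lt_left hCg, le_max_left _ _, le_max_right _ _⟩
  have hmono : ∀ C : ℝ, C ≤ Cw → ∀ D : ℝ, D0 ≤ D →
      C * D / (Real.log D) ^ 6 ≤ Cw * D / (Real.log D) ^ 6 := by
    intro C hC D hD
    have hlog : 0 ≤ Real.log D := Real.log_nonneg (by linarith)
    exact div_le_div_of_nonneg_right (mul_le_mul_of_nonneg_right hC (by linarith)) (pow_nonneg hlog 6)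
  have f1 : ∀ D : ℝ, D0 ≤ D →
      |Gm D w| ≤ Cw * D / (Real.log D) ^ 6 ∧ |Gp D w| ≤ Cw * D / (Real.log D) ^ 6 := by
    intro D hD
    obtain ⟨e1, e2⟩ := hg D (by linarith)
    exact ⟨e1.trans (hmono Cg r1 D hD), e2.trans (hmono Cg r1 D hD)⟩
  have f2a : ∀ D : ℝ, D0 ≤ D → ∀ z : ℕ, (z : ℝ) ^ 2 ≤ D → D < (z : ℝ) ^ 4 → -1 ≤ Gm D z :=
    fun D hD => h2a D (q3.trans hD)
  have f6 : ∀ D : ℝ, D0 ≤ D → ∀ z : ℕ, w ≤ z → (z : ℝ) ^ 4 ≤ D →
      ∑ p ∈ P w z, JJ (D / p) p ≤ 24 / 25 * JJ D z :=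
    fun D _ z hz hz4 => h6 w z le_rfl hz D hz4
  have f7 : ∀ D : ℝ, D0 ≤ D → ∀ s : Finset ℕ, (∀ p ∈ s, p.Prime ∧ w ≤ p ∧ (p : ℝ) ^ 5 ≤ D) →
      ∑ p ∈ s, JJ (D / p) p ≤ 24 / 25 * (eta * D / (Real.log D) ^ 3) :=
    fun D hD s hs' => h7 D (q8.trans hD) s (fun p hp => ⟨(hs' p hp).1, (hs' p hp).2.2⟩)
  obtain ⟨C5, hC5, f12m, f12p⟩ := F12 hw3 hCw q1 q2 f1 f2a f6 f7
  refine ⟨w, Cw, c7, C8, eps, C5, C6, max C9 C16, min ca cb, D0, ?_, ?_⟩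
  · exact
    { hw := hw3
      pos := ⟨hCw, hc7, hC8, he0, he1, hC5, hC6, lt_max_of_lt_left hC9, lt_min hca hcb⟩
      hD0 := ⟨q1, q2⟩
      f1 := f1
      f2a := f2a
      f2b := fun D hD => h2b D (q4.trans hD)
      f3 := fun D hD => h3 D (q5.trans hD)
      f4 := fun D hD => h4 D (q6.trans hD)
      f5 := fun D hD => h5 D (q7.trans hD)
      f6 := f6
      f7 := f7
      f8 := fun D hD s hs' => h8 D (q9.trans hD) s (fun p hp => ⟨(hs' p hp).1, (hs' p hp).2.2⟩)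
      f10 := by
        intro D hD z hz
        obtain ⟨e1, e2⟩ := h10 D (q10.trans hD) w z (by omega) hz
        refine ⟨e1.trans ?_, e2⟩
        have hlog : 0 ≤ Real.log D := Real.log_nonneg (by linarith)
        exact div_le_div_of_nonneg_right
          (mul_le_mul_of_nonneg_right (le_max_left _ _) (by linarith)) (pow_nonneg hlog 3)
      f12m := f12m
      f12p := f12p
      f13a := fun D hD => (min_le_left _ _).trans (h13a D (q11.trans hD))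
      f13b := fun D hD => (min_le_right _ _).trans (h13b D (q12.trans hD))
      f15 := by
        intro z hz
        refine h15 z ?_
        by_contra hlt
        push Not at hlt
        have h1 : (z : ℝ) < z0 := by exact_mod_cast hlt
        have h3 : (z : ℝ) ^ 2 < (z0 : ℝ) ^ 2 := pow_lt_pow_left₀ h1 (Nat.cast_nonneg z) two_ne_zero
        linarith
      f16 := by
        intro z hz
        have hz2 : 2 ≤ z := by
          by_contra hlt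
          have h1 : z ≤ 1 := by omega
          have h3 : (z : ℝ) ≤ 1 := by exact_mod_cast h1
          have h4 : (z : ℝ) ^ 4 ≤ 1 := pow_le_one₀ (Nat.cast_nonneg z) h3
          have h := Real.add_one_le_exp (16 : ℝ)
          linarith
        refine (h16 w z hz2).trans ?_
        exact div_le_div_of_nonneg_right
          (mul_le_mul_of_nonneg_right (le_max_right _ _) (Nat.cast_nonneg z))
          (Real.log_natCast_nonneg z) }
  · intro D hD c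
    obtain ⟨e1, e2⟩ := hs D (by linarith) c
    exact ⟨e1.trans (hmono Cs r2 D hD), e2.trans (hmono Cs r2 D hD)⟩

end Pool.Agent.Lib.MP_45349e_nt.JG
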