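import Pool.Agent.Lib.MP_45349e_nt.JG.Bas
import Pool.Agent.Lib.MP_45349e_nt.JG.M01
import Pool.Agent.Lib.MP_45349e_nt.JG.M19

/-!
# JG-M22 (90 min): the inequality (R-)

`L = log D`. PROOF. Put `g p = Gp (D/p) (min p (zs (D/p)))`, `A = piw w z`. For `p ∈ P w z`: `p^2 ≤ D`,
`D/p ≥ √D ≥ B ≥ D0`. `Up (D/p) p = K (1 - ell (D/p)) g p + C2 JJ (D/p) p`. `F11`:
`∑ g p ≤ Gm D z - Gm D w + A^2/2`. With `Mg = ∑ (ell (D/p) - ell D) g p`:
`∑ (1 - ell(D/p)) g p = (1 - ell D) ∑ g p - Mg ≤ (1 - ell D)(Gm D z - Gm D w + A^2/2) - Mg`. So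
`Um - [src + A^2 + ∑ Up] ≥ -K |Gm D w| - src + (K - 1) A^2 + K Mg + C2 (JJ D z - ∑ JJ (D/p) p)`.
(`(3/2) K A^2 - K A^2/2 - A^2 ≥ 0`.) LOWER BOUND of `Mg`: for `p ≤ zs (D/p)`: `g p ≥ -C5 JJ (D/p) p` (`f12p`),
for `p > zs (D/p)`: `g p ≥ 0` (`f4`); `0 ≤ ell(D/p) - ell D ≤ ell D` (`ell_diff`). So each term is
`≥ -C5 ell D JJ (D/p) p`.
CASE `z^4 ≤ D`: `f6`: the total is `≥ C2 JJ/25 - K C5 JJ - (K+1) Cw D/L^6 ≥ 0` with `C2 ≥ 100 K C5`,
`C2 ≥ 100 (K+1) Cw`, `JJ D z ≥ D/L^6` (`log z ≥ log 3 ≥ 1`).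
CASE `z^4 > D`: the primes `p` with `D^(1/(4+eps)) ≤ p < D^(1/4)` are in `P w z` (`B` large) and satisfy
`p^4 ≤ D`, `p ≤ zs (D/p)`, `p^(3+eps) ≥ D/p`: `f5`: `g p ≥ (c4/2)(D/p)/(log (D/p))^2 ≥ (c4/2)(D/p)/L^2`, and
`ell (D/p) - ell D ≥ ell D log p/(2 L) ≥ ell D/(2 (4 + eps)) ≥ ell D/10`. With `f13a` and `f8`:
`Mg ≥ (c4 c13/20) ell D D/L^2 - C5 ell D C6 D/L^3`. `f8`: `∑ JJ (D/p) p ≤ C6 D/L^3`. So the total is
`≥ K (c4 c13/20) D/L^(5/2) - K C5 C6 D/L^(7/2) - C2 C6 D/L^3 - (K+1) Cw D/L^6`, and with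
`C2 ≤ K a0 √(log B)`, `L ≥ 2 log B`, `a0 C6 ≤ c4 c13/80` it is `≥ 0` for `B` large.
-/

open Finset

namespace Pool.Agent.Lib.MP_45349e_nt.JG

open Pool.Agent.Lib.MP_45349e_nt.LS (P lam Lsum V)

private lemma m22_term {w : ℕ} {Cw c7 C8 eps C5 C6 C9 c13 D0 : ℝ}
    (h : Facts w Cw c7 C8 eps C5 C6 C9 c13 D0) {D : ℝ} (hD1 : 1 < D) {p : ℕ} (hwp : w ≤ p)
    (hp2 : (p : ℝ) ^ 2 ≤ D) (hDp : D0 ≤ D / p) :
    -(ell D * (C5 * JJ (D / p) p)) ≤
      (ell (D / p) - ell D) * Gp (D / p) (min p (zs (D / p))) := by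
  obtain ⟨pCw, pc7, pC8, peps, peps1, pC5, pC6, pC9, pc13⟩ := h.pos
  have hw := h.hw
  have hp1 : 1 ≤ p := by omega
  obtain ⟨e0, e1, -⟩ := ell_diff hp1 hD1 hp2
  have hD0 : (1 : ℝ) ≤ D0 := (Real.one_le_exp (by norm_num)).trans h.hD0.2
  have hJ : 0 ≤ JJ (D / p) p := JJ_nonneg (hD0.trans hDp)
  have hg : -(C5 * JJ (D / p) p) ≤ Gp (D / p) (min p (zs (D / p))) := by
    rcases le_total p (zs (D / p)) with h1 | h1
    · rw [min_eq_left h1]
      exact h.f12p _ hDp p hwp h1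
    · rw [min_eq_right h1]
      have h2 := h.f4 _ hDp
      have h3 : 0 ≤ c4 * (D / p) / (Real.log (D / p)) ^ 2 := by
        have h4 : 0 ≤ c4 := by
          unfold c4 kap
          have : 0 ≤ Real.log (21 / 20) := Real.log_nonneg (by norm_num)
          linarith
        have h5 : 0 ≤ D / (p : ℝ) := by linarith
        positivity
      have h4 : 0 ≤ C5 * JJ (D / p) p := mul_nonneg pC5.le hJ
      linarith
  have h6 : 0 ≤ C5 * JJ (D / p) p := mul_nonneg pC5.le hJ
  have h7 := mul_le_mul_of_nonneg_left hg e0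
  have h8 := mul_le_mul_of_nonneg_right e1 h6
  have h9 : (ell (D / p) - ell D) * -(C5 * JJ (D / p) p) =
      -((ell (D / p) - ell D) * (C5 * JJ (D / p) p)) := by ring
  linarith

private lemma m22_big {w : ℕ} {Cw c7 C8 eps C5 C6 C9 c13 D0 : ℝ}
    (h : Facts w Cw c7 C8 eps C5 C6 C9 c13 D0) {D : ℝ} (hD1 : Real.exp 4 ≤ D) {p : ℕ}
    (hwp : w ≤ p) (hp4 : (p : ℝ) ^ 4 ≤ D) (hp5 : D ≤ (p : ℝ) ^ (4 + eps)) (hDp : D0 ≤ D / p) :
    ell D * c4 / 20 * (D / (Real.log D) ^ 2) * (1 / (p : ℝ)) ≤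
      (ell (D / p) - ell D) * Gp (D / p) (min p (zs (D / p))) := by
  obtain ⟨pCw, pc7, pC8, peps, peps1, pC5, pC6, pC9, pc13⟩ := h.pos
  have hw := h.hw
  have hp1 : 1 ≤ p := by omega
  have hp3 : (3 : ℝ) ≤ p := by exact_mod_cast hw.trans hwp
  have hp0 : (0 : ℝ) < p := by linarith
  have hc4 : 0 < c4 := by
    unfold c4 kap
    have : 0 < Real.log (21 / 20) := Real.log_pos (by norm_num)
    linarith
  have hD0 : (1 : ℝ) < D := by
    have := Real.one_lt_exp_iff.2 (show (0 : ℝ) < 4 by norm_num)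
    linarith
  have hDpos : 0 < D := by linarith
  have hp2 : (p : ℝ) ^ 2 ≤ D := by nlinarith [sq_nonneg ((p : ℝ) ^ 2)]
  obtain ⟨e0, e1, e2⟩ := ell_diff hp1 hD0 hp2
  have hL : 4 ≤ Real.log D := (Real.le_log_iff_exp_le hDpos).2 hD1
  have hlp : Real.log D ≤ 5 * Real.log p := by
    have h1 := Real.log_le_log hDpos hp5
    rw [Real.log_rpow hp0] at h1
    have h2 : 0 ≤ Real.log p := Real.log_nonneg (by linarith)
    exact h1.trans (mul_le_mul_of_nonneg_right (by linarith) h2)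
  have hlp2 : Real.log p ≤ Real.log D / 4 := by
    have h1 := Real.log_le_log (by positivity) hp4
    rw [Real.log_pow] at h1
    push_cast at h1
    linarith
  have hell := ell_bd hD1
  have e3 : ell D / 10 ≤ ell (D / p) - ell D := by
    refine le_trans ?_ e2
    have h1 : 1 / 10 ≤ Real.log p / (2 * Real.log D) := by
      rw [div_le_div_iff₀ (by norm_num) (by linarith)]
      linarith
    have := mul_le_mul_of_nonneg_left h1 hell.1.le
    linarith
  have hlt : p < zs (D / p) := by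
    rw [lt_zs (by positivity), le_div_iff₀ hp0]
    calc (p : ℝ) ^ 3 * p = (p : ℝ) ^ 4 := by ring
      _ ≤ D := hp4
  have h5 := h.f5 _ hDp p hlt.le (by
    rw [div_le_iff₀ hp0]
    calc D ≤ (p : ℝ) ^ (4 + eps) := hp5
      _ = (p : ℝ) ^ (3 + eps) * p := by
        rw [← Real.rpow_add_one hp0.ne']
        congr 1
        ring)
  rw [min_eq_left hlt.le]
  have hlog : Real.log (D / p) = Real.log D - Real.log p := Real.log_div hDpos.ne' hp0.ne'
  have hlog0 : 0 < Real.log (D / p) := by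
    rw [hlog]
    linarith
  have hlog1 : Real.log (D / p) ≤ Real.log D := by
    rw [hlog]
    have h2 : 0 ≤ Real.log p := Real.log_nonneg (by linarith)
    linarith
  have h6 : c4 / 2 * (D / p) / (Real.log D) ^ 2 ≤ Gp (D / p) p := by
    refine le_trans ?_ h5
    have : (Real.log (D / p)) ^ 2 ≤ (Real.log D) ^ 2 := pow_le_pow_left₀ hlog0.le hlog1 2
    exact div_le_div_of_nonneg_left (by positivity) (by positivity) this
  have h7 : 0 ≤ c4 / 2 * (D / p) / (Real.log D) ^ 2 := by positivity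
  calc ell D * c4 / 20 * (D / (Real.log D) ^ 2) * (1 / (p : ℝ)) =
        ell D / 10 * (c4 / 2 * (D / p) / (Real.log D) ^ 2) := by
        field_simp
        ring
    _ ≤ (ell (D / p) - ell D) * (c4 / 2 * (D / p) / (Real.log D) ^ 2) :=
        mul_le_mul_of_nonneg_right e3 h7
    _ ≤ (ell (D / p) - ell D) * Gp (D / p) p := mul_le_mul_of_nonneg_left h6 e0

private lemma m22_final {K C2 C5 C6 Cw m L b s : ℝ} (hK : 1 ≤ K) (pC6 : 0 < C6)
    (pCw : 0 < Cw) (hm : 0 < m) (hL : 1 ≤ L) (hs : s * s = L) (hs1 : 1 ≤ s) (hb : b ≤ s)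
    (ha : C2 ≤ K * (m / (80 * C6)) * b) (k0 : 80 * (C5 * C6 + 2 * Cw) ≤ L * m) :
    (K + 1) * Cw * s / L ^ 4 + C2 * C6 * s / L + K * (C5 * C6) / L ≤ K * m / 20 := by
  have hL0 : 0 < L := by linarith
  have hs0 : 0 < s := by linarith
  have hK0 : 0 < K := by linarith
  have k1 : C2 * C6 * s / L ≤ K * m / 80 := by
    have e1 : C2 * C6 * s / L = C2 * C6 / s := by
      rw [← hs]
      field_simp
    rw [e1, div_le_iff₀ hs0]
    calc C2 * C6 ≤ (K * (m / (80 * C6)) * b) * C6 := mul_le_mul_of_nonneg_right ha pC6.le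
      _ = K * m / 80 * b := by
          field_simp
      _ ≤ K * m / 80 * s := mul_le_mul_of_nonneg_left hb (by positivity)
  have k2 : K * (C5 * C6) / L + 2 * K * Cw / L ≤ K * m / 80 := by
    rw [← add_div, div_le_iff₀ hL0]
    have := mul_le_mul_of_nonneg_left k0 hK0.le
    calc K * (C5 * C6) + 2 * K * Cw = K * (80 * (C5 * C6 + 2 * Cw)) / 80 := by ring
      _ ≤ K * (L * m) / 80 := by linarith
      _ = K * m / 80 * L := by ring
  have k3 : (K + 1) * Cw * s / L ^ 4 ≤ 2 * K * Cw / L := by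
    rw [div_le_div_iff₀ (by positivity) hL0]
    have l1 : s ≤ L := by
      rw [← hs]
      exact le_mul_of_one_le_left hs0.le hs1
    have l3 : s * L ≤ L ^ 4 := by
      calc s * L ≤ L * L := mul_le_mul_of_nonneg_right l1 hL0.le
        _ = L ^ 2 := by ring
        _ ≤ L ^ 4 := pow_le_pow_right₀ hL (by norm_num)
    calc (K + 1) * Cw * s * L = ((K + 1) * Cw) * (s * L) := by ring
      _ ≤ (2 * K * Cw) * (L ^ 4) := by
          refine mul_le_mul ?_ l3 (by positivity) (by positivity)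
          exact mul_le_mul_of_nonneg_right (by linarith) pCw.le
  have k4 : 0 ≤ K * m / 80 := by positivity
  linarith

theorem Rminus {w : ℕ} {Cw c7 C8 eps C5 C6 C9 c13 D0 : ℝ}
    (h : Facts w Cw c7 C8 eps C5 C6 C9 c13 D0) :
    ∃ a0 B0 : ℝ, 0 < a0 ∧ D0 ≤ B0 ∧ ∀ B : ℝ, B0 ≤ B → ∀ K C2 : ℝ, 1 ≤ K →
      100 * K * C5 ≤ C2 → 100 * (K + 1) * Cw ≤ C2 → C2 ≤ K * a0 * Real.sqrt (Real.log B) →
      ∀ D : ℝ, B ^ 2 ≤ D → ∀ z : ℕ, w ≤ z → (z : ℝ) ^ 2 ≤ D →
        Cw * D / (Real.log D) ^ 6 + (piw w z) ^ 2 + ∑ p ∈ P w z, Up w K C2 (D / p) p ≤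
          Um w K C2 D z := by
  have hpos := h.pos
  obtain ⟨pCw, pc7, pC8, peps, peps1, pC5, pC6, pC9, pc13⟩ := hpos
  have hw := h.hw
  have hc4 : 0 < c4 := by
    unfold c4 kap
    have : 0 < Real.log (21 / 20) := Real.log_pos (by norm_num)
    linarith
  have hm0 : 0 < c4 * c13 := mul_pos hc4 pc13
  refine ⟨c4 * c13 / (80 * C6), max D0 (Real.exp (80 * (C5 * C6 + 2 * Cw) / (c4 * c13))),
    by positivity, le_max_left _ _, ?_⟩
  intro B hB K C2 hK h5 hCw ha D hD z hwz hz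
  have hBD0 : D0 ≤ B := (le_max_left _ _).trans hB
  have hBexp : Real.exp (80 * (C5 * C6 + 2 * Cw) / (c4 * c13)) ≤ B := (le_max_right _ _).trans hB
  have hB16 : Real.exp 16 ≤ B := h.hD0.2.trans hBD0
  have he : (1 : ℝ) < Real.exp 16 := Real.one_lt_exp_iff.2 (by norm_num)
  have hB1 : 1 < B := he.trans_le hB16
  have hB0 : 0 < B := by linarith
  have hBD : B ≤ D := by
    refine le_trans ?_ hD
    rw [sq]
    exact le_mul_of_one_le_left hB0.le hB1.le
  have hDD0 : D0 ≤ D := hBD0.trans hBD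
  have hD1 : 1 < D := hB1.trans_le hBD
  have hDpos : 0 < D := by linarith
  have hlB : 16 ≤ Real.log B := (Real.le_log_iff_exp_le hB0).2 hB16
  have hlB2 : 80 * (C5 * C6 + 2 * Cw) / (c4 * c13) ≤ Real.log B :=
    (Real.le_log_iff_exp_le hB0).2 hBexp
  have hLB : 2 * Real.log B ≤ Real.log D := by
    have h1 := Real.log_le_log (by positivity) hD
    rw [Real.log_pow] at h1
    push_cast at h1
    exact h1
  have hD4 : Real.exp 4 ≤ D := by
    have : Real.exp 4 ≤ Real.exp 16 := Real.exp_le_exp.2 (by norm_num)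
    linarith
  have hell := ell_bd hD4
  have hz3 : (3 : ℝ) ≤ z := by exact_mod_cast hw.trans hwz
  -- the primes
  have hP : ∀ p ∈ P w z, w ≤ p ∧ (p : ℝ) ^ 2 ≤ D ∧ B ≤ D / p := by
    intro p hp
    obtain ⟨h1, h2, h3⟩ := mem_P.1 hp
    have h4 : (p : ℝ) ≤ z := by exact_mod_cast h2.le
    have h5 : (0 : ℝ) < p := by exact_mod_cast h3.pos
    have h6 : (p : ℝ) ^ 2 ≤ D := (pow_le_pow_left₀ h5.le h4 2).trans hz
    refine ⟨h1, h6, ?_⟩
    rw [le_div_iff₀ h5]
    have h7 : (B * p) ^ 2 ≤ D ^ 2 := by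
      rw [mul_pow, sq D]
      exact mul_le_mul hD h6 (by positivity) hDpos.le
    exact le_of_sq_le_sq h7 hDpos.le
  have hDw : (w : ℝ) ^ 6 ≤ D := by
    have h1 : (1 : ℝ) ≤ w := by
      have : (1 : ℕ) ≤ w := by omega
      exact_mod_cast this
    have h2 : (w : ℝ) ^ 6 ≤ (w : ℝ) ^ 12 := pow_le_pow_right₀ h1 (by norm_num)
    linarith [h.hD0.1]
  have h11 := F11 (show 2 ≤ w by omega) hwz hDw hz
  have h1 := (h.f1 D hDD0).1
  -- the sum of the JJ
  set SJ : ℝ := ∑ p ∈ P w z, JJ (D / p) p with hSJ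
  set Sg : ℝ := ∑ p ∈ P w z, Gp (D / p) (min p (zs (D / p))) with hSg
  set Mg : ℝ := ∑ p ∈ P w z, (ell (D / p) - ell D) * Gp (D / p) (min p (zs (D / p))) with hMg
  have hJ0 : ∀ p ∈ P w z, 0 ≤ JJ (D / p) p := fun p hp =>
    JJ_nonneg (hB1.le.trans (hP p hp).2.2)
  have hSJ0 : 0 ≤ SJ := Finset.sum_nonneg hJ0
  have hJD : 0 ≤ JJ D z := JJ_nonneg hD1.le
  have hUp : ∑ p ∈ P w z, Up w K C2 (D / p) p = K * ((1 - ell D) * Sg - Mg) + C2 * SJ := by
    rw [hSJ, hSg, hMg, Finset.mul_sum, Finset.mul_sum, ← Finset.sum_sub_distrib, Finset.mul_sum,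
      ← Finset.sum_add_distrib]
    refine Finset.sum_congr rfl fun p _ => ?_
    unfold Up
    ring
  have hC2 : 0 ≤ C2 := by
    have : 0 ≤ 100 * K * C5 := by positivity
    linarith
  -- reduction
  suffices hs : (K + 1) * (Cw * D / (Real.log D) ^ 6) + C2 * SJ ≤ K * Mg + C2 * JJ D z by
    rw [hUp]
    unfold Um
    have a1 : (1 - ell D) * Sg ≤
        (1 - ell D) * Gm D z + |Gm D w| + (piw w z) ^ 2 / 2 := by
      have b1 : (1 - ell D) * Sg ≤ (1 - ell D) * (Gm D z - Gm D w + (piw w z) ^ 2 / 2) :=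
        mul_le_mul_of_nonneg_left h11 (by linarith)
      have b2 : -((1 - ell D) * Gm D w) ≤ |Gm D w| := by
        have b3 : |(1 - ell D) * Gm D w| ≤ |Gm D w| := by
          rw [abs_mul]
          have b4 : |1 - ell D| ≤ 1 := by
            rw [abs_le]
            constructor <;> linarith
          exact mul_le_of_le_one_left (abs_nonneg _) b4
        have := neg_abs_le ((1 - ell D) * Gm D w)
        linarith
      have b5 : (1 - ell D) * ((piw w z) ^ 2 / 2) ≤ (piw w z) ^ 2 / 2 :=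
        mul_le_of_le_one_left (by positivity) (by linarith)
      have b6 : (1 - ell D) * (Gm D z - Gm D w + (piw w z) ^ 2 / 2) = (1 - ell D) * Gm D z +
          -((1 - ell D) * Gm D w) + (1 - ell D) * ((piw w z) ^ 2 / 2) := by ring
      linarith
    have a2 : K * ((1 - ell D) * Sg) ≤
        K * ((1 - ell D) * Gm D z + Cw * D / (Real.log D) ^ 6 + (piw w z) ^ 2 / 2) :=
      mul_le_mul_of_nonneg_left (by linarith) (by linarith)
    have a3 : 0 ≤ (K - 1) * (piw w z) ^ 2 := mul_nonneg (by linarith) (sq_nonneg _)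
    have a4 : K * ((1 - ell D) * Gm D z + Cw * D / (Real.log D) ^ 6 + (piw w z) ^ 2 / 2) =
        K * ((1 - ell D) * Gm D z) + K * (Cw * D / (Real.log D) ^ 6) + K * (piw w z) ^ 2 / 2 := by
      ring
    have a5 : (K - 1) * (piw w z) ^ 2 = K * (piw w z) ^ 2 - (piw w z) ^ 2 := by ring
    have a6 : (K + 1) * (Cw * D / (Real.log D) ^ 6) =
        K * (Cw * D / (Real.log D) ^ 6) + Cw * D / (Real.log D) ^ 6 := by ring
    have a7 : K * ((1 - ell D) * Sg - Mg) = K * ((1 - ell D) * Sg) - K * Mg := by ring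
    have a8 : K * ((1 - ell D) * Gm D z + 3 / 2 * (piw w z) ^ 2) =
        K * ((1 - ell D) * Gm D z) + 3 / 2 * (K * (piw w z) ^ 2) := by ring
    linarith
  have hCwD : 0 < Cw * D / (Real.log D) ^ 6 := by
    have : 0 < Real.log D := by linarith
    positivity
  have hterm : ∀ p ∈ P w z, -(ell D * (C5 * JJ (D / p) p)) ≤
      (ell (D / p) - ell D) * Gp (D / p) (min p (zs (D / p))) := fun p hp =>
    m22_term h hD1 (hP p hp).1 (hP p hp).2.1 (hBD0.trans (hP p hp).2.2)
  by_cases hz4 : (z : ℝ) ^ 4 ≤ D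
  · -- first case
    have h6 := h.f6 D hDD0 z hwz hz4
    rw [← hSJ] at h6
    have hM : -(ell D * (C5 * SJ)) ≤ Mg := by
      rw [hSJ, hMg, Finset.mul_sum, Finset.mul_sum, ← Finset.sum_neg_distrib]
      exact Finset.sum_le_sum hterm
    have hJ1 : D / (Real.log D) ^ 6 ≤ JJ D z := by
      unfold JJ
      rw [if_pos hz4]
      have hlz : 1 ≤ Real.log z := by
        rw [Real.le_log_iff_exp_le (by linarith)]
        have := Real.exp_one_lt_d9
        linarith
      have : (1 : ℝ) ≤ (Real.log z) ^ 3 := one_le_pow₀ hlz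
      have h0 : 0 < Real.log D := by linarith
      exact div_le_div_of_nonneg_right (le_mul_of_one_le_right hDpos.le this) (by positivity)
    have a1 : ell D * (C5 * SJ) ≤ C5 * JJ D z := by
      have b1 : C5 * SJ ≤ C5 * JJ D z := mul_le_mul_of_nonneg_left (by linarith) pC5.le
      have b2 : 0 ≤ C5 * SJ := mul_nonneg pC5.le hSJ0
      exact (mul_le_of_le_one_left b2 (by linarith)).trans b1
    have a2 : K * (C5 * JJ D z) ≤ C2 / 100 * JJ D z := by
      have : K * C5 ≤ C2 / 100 := by linarith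
      calc K * (C5 * JJ D z) = (K * C5) * JJ D z := by ring
        _ ≤ C2 / 100 * JJ D z := mul_le_mul_of_nonneg_right this hJD
    have a3 : (K + 1) * (Cw * D / (Real.log D) ^ 6) ≤ C2 / 100 * JJ D z := by
      have b1 : (K + 1) * Cw ≤ C2 / 100 := by linarith
      calc (K + 1) * (Cw * D / (Real.log D) ^ 6) = ((K + 1) * Cw) * (D / (Real.log D) ^ 6) := by
            ring
        _ ≤ C2 / 100 * JJ D z := by
            refine mul_le_mul b1 hJ1 ?_ (by linarith)
            have h0 : 0 < Real.log D := by linarith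
            positivity
    have a4 : C2 * SJ ≤ C2 * (24 / 25 * JJ D z) := mul_le_mul_of_nonneg_left h6 hC2
    have a5 : K * (-(C5 * JJ D z)) ≤ K * Mg :=
      mul_le_mul_of_nonneg_left (by linarith) (by linarith)
    have a6 : K * (-(C5 * JJ D z)) = -(K * (C5 * JJ D z)) := by ring
    have a7 : C2 * (24 / 25 * JJ D z) = C2 * JJ D z - 4 * (C2 / 100 * JJ D z) := by ring
    have a8 : 0 ≤ C2 / 100 * JJ D z := by positivity
    linarith
  · -- second case
    push Not at hz4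
    have h8 := h.f8 D hDD0 (P w z) (fun p hp =>
      ⟨(mem_P.1 hp).2.2, (hP p hp).1, (hP p hp).2.1⟩)
    rw [← hSJ] at h8
    have h13 := h.f13a D hDD0
    set Q := P ⌈D ^ (1 / (4 + eps))⌉₊ ⌈D ^ (1 / 4 : ℝ)⌉₊ with hQ
    have he4 : 0 < 4 + eps := by linarith
    have hQP : Q ⊆ P w z := by
      intro p hp
      obtain ⟨h1, h2, h3⟩ := mem_P.1 hp
      rw [Nat.ceil_le] at h1
      rw [Nat.lt_ceil] at h2
      refine mem_P.2 ⟨?_, ?_, h3⟩
      · have h4 : (w : ℝ) ≤ p := by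
          refine le_trans ?_ h1
          have h5 : (1 : ℝ) ≤ w := by
            have : (1 : ℕ) ≤ w := by omega
            exact_mod_cast this
          calc (w : ℝ) = ((w : ℝ) ^ (4 + eps)) ^ (1 / (4 + eps)) := by
                rw [← Real.rpow_mul (by linarith), mul_one_div_cancel he4.ne', Real.rpow_one]
            _ ≤ D ^ (1 / (4 + eps)) := by
                refine Real.rpow_le_rpow (by positivity) ?_ (by positivity)
                calc (w : ℝ) ^ (4 + eps) ≤ (w : ℝ) ^ (6 : ℝ) :=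
                      Real.rpow_le_rpow_of_exponent_le h5 (by linarith)
                  _ = (w : ℝ) ^ 6 := by
                      rw [← Real.rpow_natCast]
                      norm_num
                  _ ≤ D := hDw
        exact_mod_cast h4
      · have h4 : (p : ℝ) ^ 4 < D := by
          calc (p : ℝ) ^ 4 < (D ^ (1 / 4 : ℝ)) ^ 4 := pow_lt_pow_left₀ h2 (by positivity) (by norm_num)
            _ = D := by
              rw [← Real.rpow_natCast, ← Real.rpow_mul hDpos.le]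
              norm_num
        have h5 : (p : ℝ) < z := lt_of_pow_lt_pow_left₀ 4 (by positivity) (h4.trans hz4)
        exact_mod_cast h5
    have hbig : ∀ p ∈ Q, ell D * c4 / 20 * (D / (Real.log D) ^ 2) * (1 / (p : ℝ)) ≤
        (ell (D / p) - ell D) * Gp (D / p) (min p (zs (D / p))) := by
      intro p hp
      have hpP := hQP hp
      obtain ⟨h1, h2, h3⟩ := mem_P.1 hp
      rw [Nat.ceil_le] at h1
      rw [Nat.lt_ceil] at h2
      refine m22_big h hD4 (hP p hpP).1 ?_ ?_ (hBD0.trans (hP p hpP).2.2)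
      · calc (p : ℝ) ^ 4 ≤ (D ^ (1 / 4 : ℝ)) ^ 4 := pow_le_pow_left₀ (by positivity) h2.le 4
          _ = D := by
            rw [← Real.rpow_natCast, ← Real.rpow_mul hDpos.le]
            norm_num
      · calc D = (D ^ (1 / (4 + eps))) ^ (4 + eps) := by
              rw [← Real.rpow_mul hDpos.le, one_div_mul_cancel he4.ne', Real.rpow_one]
          _ ≤ (p : ℝ) ^ (4 + eps) := Real.rpow_le_rpow (by positivity) h1 he4.le
    have hL0 : 0 < Real.log D := by linarith
    have hM : ell D * c4 / 20 * (D / (Real.log D) ^ 2) * c13 - ell D * (C5 * SJ) ≤ Mg := by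
      have hsplit : Mg = ∑ p ∈ Q, (ell (D / p) - ell D) * Gp (D / p) (min p (zs (D / p))) +
          ∑ p ∈ P w z \ Q, (ell (D / p) - ell D) * Gp (D / p) (min p (zs (D / p))) := by
        rw [hMg, add_comm]
        exact (Finset.sum_sdiff hQP).symm
      have c1 : ell D * c4 / 20 * (D / (Real.log D) ^ 2) * c13 ≤
          ∑ p ∈ Q, (ell (D / p) - ell D) * Gp (D / p) (min p (zs (D / p))) := by
        calc ell D * c4 / 20 * (D / (Real.log D) ^ 2) * c13 ≤
              ell D * c4 / 20 * (D / (Real.log D) ^ 2) * ∑ p ∈ Q, 1 / (p : ℝ) := by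
              refine mul_le_mul_of_nonneg_left h13 ?_
              have := hell.1
              positivity
          _ ≤ _ := by
              rw [Finset.mul_sum]
              exact Finset.sum_le_sum hbig
      have c2 : -(ell D * (C5 * SJ)) ≤
          ∑ p ∈ P w z \ Q, (ell (D / p) - ell D) * Gp (D / p) (min p (zs (D / p))) := by
        have d1 : ∑ p ∈ P w z \ Q, JJ (D / p) p ≤ SJ := by
          rw [hSJ]
          exact Finset.sum_le_sum_of_subset_of_nonneg Finset.sdiff_subset fun p hp _ => hJ0 p hp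
        calc -(ell D * (C5 * SJ)) ≤ -(ell D * (C5 * ∑ p ∈ P w z \ Q, JJ (D / p) p)) := by
              have := mul_le_mul_of_nonneg_left (mul_le_mul_of_nonneg_left d1 pC5.le) hell.1.le
              linarith
          _ = ∑ p ∈ P w z \ Q, -(ell D * (C5 * JJ (D / p) p)) := by
              rw [Finset.sum_neg_distrib, Finset.mul_sum, Finset.mul_sum]
          _ ≤ _ := Finset.sum_le_sum fun p hp => hterm p (Finset.mem_sdiff.1 hp).1
      linarith
    -- the final inequality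
    set L := Real.log D with hLdef
    have hs : Real.sqrt L * Real.sqrt L = L := Real.mul_self_sqrt hL0.le
    have hs0 : 0 < Real.sqrt L := Real.sqrt_pos.2 hL0
    have hellv : ell D = 1 / Real.sqrt L := by rw [hLdef]; rfl
    set s := Real.sqrt L with hsdef
    have hsB : Real.sqrt (Real.log B) ≤ s := Real.sqrt_le_sqrt (by linarith)
    have hs1 : 1 ≤ s := by
      rw [hsdef]
      exact Real.one_le_sqrt.2 (by linarith)
    have hkey : (K + 1) * Cw * s / L ^ 4 + C2 * C6 * s / L + K * (C5 * C6) / L ≤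
        K * (c4 * c13) / 20 := by
      refine m22_final hK pC6 pCw hm0 (by linarith) hs hs1 hsB ha ?_
      rw [div_le_iff₀ hm0] at hlB2
      exact hlB2.trans (mul_le_mul_of_nonneg_right (by linarith) hm0.le)
    have e1 : (K + 1) * (Cw * D / L ^ 6) = (D / (s * L ^ 2)) * ((K + 1) * Cw * s / L ^ 4) := by
      field_simp
    have e2 : C2 * (C6 * D / L ^ 3) = (D / (s * L ^ 2)) * (C2 * C6 * s / L) := by
      field_simp
    have e3 : K * (ell D * (C5 * (C6 * D / L ^ 3))) =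
        (D / (s * L ^ 2)) * (K * (C5 * C6) / L) := by
      rw [hellv]
      field_simp
    have e4 : K * (ell D * c4 / 20 * (D / L ^ 2) * c13) =
        (D / (s * L ^ 2)) * (K * (c4 * c13) / 20) := by
      rw [hellv]
      field_simp
    have e5 : 0 ≤ D / (s * L ^ 2) := by positivity
    have e6 := mul_le_mul_of_nonneg_left hkey e5
    rw [mul_add, mul_add, ← e1, ← e2, ← e3, ← e4] at e6
    have e7 : C2 * SJ ≤ C2 * (C6 * D / L ^ 3) := mul_le_mul_of_nonneg_left h8 hC2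
    have e8 : K * (ell D * (C5 * SJ)) ≤ K * (ell D * (C5 * (C6 * D / L ^ 3))) := by
      refine mul_le_mul_of_nonneg_left ?_ (by linarith)
      refine mul_le_mul_of_nonneg_left ?_ hell.1.le
      exact mul_le_mul_of_nonneg_left h8 pC5.le
    have e9 := mul_le_mul_of_nonneg_left hM (show 0 ≤ K by linarith)
    rw [mul_sub] at e9
    have e10 : 0 ≤ C2 * JJ D z := mul_nonneg hC2 hJD
    linarith

end Pool.Agent.Lib.MP_45349e_nt.JG
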