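import Pool.Agent.Lib.MP_45349e_nt.JG.Bas
import Pool.Agent.Lib.MP_45349e_nt.JG.M01

/-!
# JG-M23 (90 min): the inequality (R+)

`L = log D`, `z' = min z (zs D)`, `w ≤ z'`. PROOF. `buchGp`: `Gp D z' = Gp D w + ∑_{p ∈ P w z'} Gm (D/p) p`.
`Um (D/p) p = K ((1 - ell (D/p)) Gm (D/p) p + (3/2) (piw w p)^2) + C2 JJ (D/p) p`. So
`Up D z - [src + ∑_{p ∈ P w z'} Um (D/p) p] ≥ -K |Gp D w| - src + K Mg - (3/2) K ∑ (piw w p)^2 +
C2 (JJ D z - ∑ JJ (D/p) p)`, `Mg = ∑_{p ∈ P w z'} (ell (D/p) - ell D) Gm (D/p) p`.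
For `p < zs D`: `p^3 ≤ D`, `p^2 ≤ D/p`, `D/p ≥ D^(2/3) ≥ B ≥ D0`.
CASE `z^4 ≤ D` (`z' = z`): `f12m`: `Gm (D/p) p ≥ -C5 JJ (D/p) p`, `Mg ≥ -C5 ∑ JJ (D/p) p`; `f10`:
`∑ (piw w p)^2 ≤ D^(4/5) ≤ D/L^6` (`B` large); `f6`. Total `≥ C2 JJ/25 - K C5 JJ - (K+1) Cw D/L^6 -
(3/2) K D^(4/5) ≥ 0` (`C2 ≥ 100 K C5`, `C2 ≥ 100 (K+1) Cw`, `C2 ≥ 200 K`, `JJ ≥ D/L^6`).
CASE `z^4 > D`: the primes `p` with `D^(1/5) < p < D^(1/4)` are in `P w z'` and satisfy
`kap p^2 ≤ D/p < p^4`: `f2b`: `Gm (D/p) p ≥ c7 (D/p)/L^2`, `ell (D/p) - ell D ≥ ell D/10`. Other `p`: if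
`p^5 ≤ D`: `≥ -C5 JJ (D/p) p` (`f12m`), if `p^5 > D` (then `p^4 ≥ D`): `f2a`: `≥ -1`, at most `zs D ≤ 2 D^(1/3)`
of them, factor `≤ ell D ≤ 1`. With `f13b`, `f8` (`p^2 ≤ D`), `f10`:
`Mg ≥ (c7 c13/10) ell D D/L^2 - C5 ell D C6 D/L^3 - 2 D^(1/3)`, total
`≥ K (c7 c13/10) D/L^(5/2) - K C5 C6 D/L^(7/2) - 2 K D^(1/3) - (3/2) K C9 D/L^3 - C2 C6 D/L^3 - (K+1) Cw D/L^6`,
`≥ 0` for `B` large if `C2 ≤ K a0 √(log B)`, `a0 C6 ≤ c7 c13/40` (`L ≥ 2 log B`; `JJ D z ≥ 0`).
-/

open Finset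

namespace Pool.Agent.Lib.MP_45349e_nt.JG

open Pool.Agent.Lib.MP_45349e_nt.LS (P lam Lsum V)

private lemma m23_term {w : ℕ} {Cw c7 C8 eps C5 C6 C9 c13 D0 : ℝ}
    (h : Facts w Cw c7 C8 eps C5 C6 C9 c13 D0) {D : ℝ} (hD1 : 1 < D) {p : ℕ} (hwp : w ≤ p)
    (hp2 : (p : ℝ) ^ 2 ≤ D) (hp3 : (p : ℝ) ^ 2 ≤ D / p) (hDp : D0 ≤ D / p) :
    -(ell D * (C5 * JJ (D / p) p)) ≤ (ell (D / p) - ell D) * Gm (D / p) p := by
  obtain ⟨pCw, pc7, pC8, peps, peps1, pC5, pC6, pC9, pc13⟩ := h.pos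
  have hw := h.hw
  have hp1 : 1 ≤ p := by omega
  obtain ⟨e0, e1, -⟩ := ell_diff hp1 hD1 hp2
  have hD0 : (1 : ℝ) ≤ D0 := (Real.one_le_exp (by norm_num)).trans h.hD0.2
  have hJ : 0 ≤ JJ (D / p) p := JJ_nonneg (hD0.trans hDp)
  have hg : -(C5 * JJ (D / p) p) ≤ Gm (D / p) p := h.f12m _ hDp p hwp hp3
  have h6 : 0 ≤ C5 * JJ (D / p) p := mul_nonneg pC5.le hJ
  nlinarith [mul_le_mul_of_nonneg_left hg e0, mul_le_mul_of_nonneg_right e1 h6]

private lemma m23_big {w : ℕ} {Cw c7 C8 eps C5 C6 C9 c13 D0 : ℝ}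
    (h : Facts w Cw c7 C8 eps C5 C6 C9 c13 D0) {D : ℝ} (hD1 : Real.exp 4 ≤ D) {p : ℕ}
    (hwp : w ≤ p) (hp4 : (p : ℝ) ^ 4 ≤ D) (hp5 : D < (p : ℝ) ^ 5) (hDp : D0 ≤ D / p) :
    ell D * c7 / 10 * (D / (Real.log D) ^ 2) * (1 / (p : ℝ)) ≤
      (ell (D / p) - ell D) * Gm (D / p) p := by
  obtain ⟨pCw, pc7, pC8, peps, peps1, pC5, pC6, pC9, pc13⟩ := h.pos
  have hw := h.hw
  have hp1 : 1 ≤ p := by omega
  have hp3 : (3 : ℝ) ≤ p := by exact_mod_cast hw.trans hwp
  have hp0 : (0 : ℝ) < p := by linarith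
  have hD0 : (1 : ℝ) < D := by
    have := Real.one_lt_exp_iff.2 (show (0 : ℝ) < 4 by norm_num)
    linarith
  have hDpos : 0 < D := by linarith
  have hp2 : (p : ℝ) ^ 2 ≤ D := by nlinarith [sq_nonneg ((p : ℝ) ^ 2)]
  obtain ⟨e0, e1, e2⟩ := ell_diff hp1 hD0 hp2
  have hL : 4 ≤ Real.log D := (Real.le_log_iff_exp_le hDpos).2 hD1
  have hlp : Real.log D ≤ 5 * Real.log p := by
    have h1 := Real.log_le_log hDpos hp5.le
    rw [Real.log_pow] at h1
    push_cast at h1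
    exact h1
  have hlp2 : Real.log p ≤ Real.log D / 4 := by
    have h1 := Real.log_le_log (by positivity) hp4
    rw [Real.log_pow] at h1
    push_cast at h1
    linarith
  have hell := ell_bd hD1
  have e3 : ell D / 10 ≤ ell (D / p) - ell D := by
    refine le_trans ?_ e2
    have h1 : 1 / 10 ≤ Real.log p / (2 * Real.log D) := by
      rw [div_le_div_iff₀ (by norm_num) (by linarith)]
      linarith
    have := mul_le_mul_of_nonneg_left h1 hell.1.le
    linarith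
  have h5 := h.f2b _ hDp p (by
    rw [le_div_iff₀ hp0]
    have hk : kap ≤ p := by
      unfold kap
      linarith
    have h3 : (0 : ℝ) ≤ (p : ℝ) ^ 3 := by positivity
    calc kap * (p : ℝ) ^ 2 * p = kap * (p : ℝ) ^ 3 := by ring
      _ ≤ p * (p : ℝ) ^ 3 := mul_le_mul_of_nonneg_right hk h3
      _ = (p : ℝ) ^ 4 := by ring
      _ ≤ D := hp4) (by
    rw [div_lt_iff₀ hp0]
    calc D < (p : ℝ) ^ 5 := hp5
      _ = (p : ℝ) ^ 4 * p := by ring)
  have hlog : Real.log (D / p) = Real.log D - Real.log p := Real.log_div hDpos.ne' hp0.ne'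
  have hlog0 : 0 < Real.log (D / p) := by
    rw [hlog]
    linarith
  have hlog1 : Real.log (D / p) ≤ Real.log D := by
    rw [hlog]
    have h2 : 0 ≤ Real.log p := Real.log_nonneg (by linarith)
    linarith
  have h6 : c7 * (D / p) / (Real.log D) ^ 2 ≤ Gm (D / p) p := by
    refine le_trans ?_ h5
    have : (Real.log (D / p)) ^ 2 ≤ (Real.log D) ^ 2 := pow_le_pow_left₀ hlog0.le hlog1 2
    exact div_le_div_of_nonneg_left (by positivity) (by positivity) this
  have h7 : 0 ≤ c7 * (D / p) / (Real.log D) ^ 2 := by positivity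
  calc ell D * c7 / 10 * (D / (Real.log D) ^ 2) * (1 / (p : ℝ)) =
        ell D / 10 * (c7 * (D / p) / (Real.log D) ^ 2) := by
        field_simp
    _ ≤ (ell (D / p) - ell D) * (c7 * (D / p) / (Real.log D) ^ 2) :=
        mul_le_mul_of_nonneg_right e3 h7
    _ ≤ (ell (D / p) - ell D) * Gm (D / p) p := mul_le_mul_of_nonneg_left h6 e0

private lemma m23_log : ∃ D1 : ℝ, ∀ D : ℝ, D1 ≤ D → (Real.log D) ^ 6 ≤ D ^ (1 / 5 : ℝ) := by
  have h1 := isLittleO_log_rpow_rpow_atTop (6 : ℝ) (show (0 : ℝ) < 1 / 5 by norm_num)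
  have h2 := h1.bound (show (0 : ℝ) < 1 by norm_num)
  obtain ⟨D1, hD1⟩ := Filter.eventually_atTop.1 h2
  refine ⟨max D1 1, fun D hD => ?_⟩
  have h3 := hD1 D ((le_max_left _ _).trans hD)
  have h4 : 1 ≤ D := (le_max_right _ _).trans hD
  have h5 : 0 ≤ Real.log D := Real.log_nonneg h4
  have h6 : 0 ≤ D ^ (1 / 5 : ℝ) := Real.rpow_nonneg (by linarith) _
  have h7 : (Real.log D) ^ (6 : ℝ) = (Real.log D) ^ 6 := by
    rw [← Real.rpow_natCast]
    norm_num
  rw [h7, one_mul, Real.norm_of_nonneg (by positivity), Real.norm_of_nonneg h6] at h3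
  exact h3

theorem Rplus {w : ℕ} {Cw c7 C8 eps C5 C6 C9 c13 D0 : ℝ}
    (h : Facts w Cw c7 C8 eps C5 C6 C9 c13 D0) :
    ∃ a0 B0 : ℝ, 0 < a0 ∧ D0 ≤ B0 ∧ ∀ B : ℝ, B0 ≤ B → ∀ K C2 : ℝ, 1 ≤ K →
      100 * K * C5 ≤ C2 → 100 * (K + 1) * Cw ≤ C2 → 200 * K ≤ C2 →
      C2 ≤ K * a0 * Real.sqrt (Real.log B) →
      ∀ D : ℝ, B ^ 2 ≤ D → ∀ z : ℕ, w ≤ z →
        Cw * D / (Real.log D) ^ 6 + ∑ p ∈ P w (min z (zs D)), Um w K C2 (D / p) p ≤
          Up w K C2 D z := by
  have hpos := h.pos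
  obtain ⟨pCw, pc7, pC8, peps, peps1, pC5, pC6, pC9, pc13⟩ := hpos
  have hw := h.hw
  have hm0 : 0 < c7 * c13 := mul_pos pc7 pc13
  obtain ⟨D1, hD1log⟩ := m23_log
  refine ⟨c7 * c13 / (40 * C6), max (max D0 D1) (max
    (Real.exp (40 * (C5 * C6 + 2 * Cw) / (c7 * c13))) (Real.exp ((60 * C9 / (c7 * c13)) ^ 2))),
    by positivity, (le_max_left _ _).trans (le_max_left _ _), ?_⟩
  intro B hB K C2 hK h5 hCw hK2 ha D hD z hwz
  have hBD0 : D0 ≤ B := (le_max_left _ _).trans ((le_max_left _ _).trans hB)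
  have hBD1 : D1 ≤ B := (le_max_right _ _).trans ((le_max_left _ _).trans hB)
  have hBexp : Real.exp (40 * (C5 * C6 + 2 * Cw) / (c7 * c13)) ≤ B :=
    (le_max_left _ _).trans ((le_max_right _ _).trans hB)
  have hBexp2 : Real.exp ((60 * C9 / (c7 * c13)) ^ 2) ≤ B :=
    (le_max_right _ _).trans ((le_max_right _ _).trans hB)
  have hB16 : Real.exp 16 ≤ B := h.hD0.2.trans hBD0
  have he : (1 : ℝ) < Real.exp 16 := Real.one_lt_exp_iff.2 (by norm_num)
  have hB1 : 1 < B := he.trans_le hB16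
  have hB0 : 0 < B := by linarith
  have hBD : B ≤ D := by nlinarith
  have hDD0 : D0 ≤ D := hBD0.trans hBD
  have hD1 : 1 < D := hB1.trans_le hBD
  have hDpos : 0 < D := by linarith
  have hlB : 16 ≤ Real.log B := (Real.le_log_iff_exp_le hB0).2 hB16
  have hlB2 : 40 * (C5 * C6 + 2 * Cw) / (c7 * c13) ≤ Real.log B :=
    (Real.le_log_iff_exp_le hB0).2 hBexp
  have hlB3 : (60 * C9 / (c7 * c13)) ^ 2 ≤ Real.log B :=
    (Real.le_log_iff_exp_le hB0).2 hBexp2
  have hLB : 2 * Real.log B ≤ Real.log D := by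
    have h1 := Real.log_le_log (by positivity) hD
    rw [Real.log_pow] at h1
    push_cast at h1
    exact h1
  have hD4 : Real.exp 4 ≤ D := by
    have : Real.exp 4 ≤ Real.exp 16 := Real.exp_le_exp.2 (by norm_num)
    linarith
  have hell := ell_bd hD4
  have hz3 : (3 : ℝ) ≤ z := by exact_mod_cast hw.trans hwz
  have hw1 : (1 : ℝ) ≤ w := by
    have : (1 : ℕ) ≤ w := by omega
    exact_mod_cast this
  have hDw : ∀ k : ℕ, k ≤ 12 → (w : ℝ) ^ k ≤ D := by
    intro k hk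
    have h2 : (w : ℝ) ^ k ≤ (w : ℝ) ^ 12 := pow_le_pow_right₀ hw1 hk
    linarith [h.hD0.1]
  have hwzs : w < zs D := (lt_zs hDpos.le w).2 (hDw 3 (by norm_num))
  set z' := min z (zs D) with hz'
  have hwz' : w ≤ z' := le_min hwz hwzs.le
  -- the primes
  have hP : ∀ p ∈ P w z', w ≤ p ∧ (p : ℝ) ^ 2 ≤ D ∧ (p : ℝ) ^ 2 ≤ D / p ∧ B ≤ D / p := by
    intro p hp
    obtain ⟨h1, h2, h3⟩ := mem_P.1 hp
    have h4 : p < zs D := h2.trans_le (min_le_right _ _)
    have h5 : (0 : ℝ) < p := by exact_mod_cast h3.pos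
    have h51 : (1 : ℝ) ≤ p := by exact_mod_cast h3.one_lt.le
    have h6 : (p : ℝ) ^ 3 ≤ D := (lt_zs hDpos.le p).1 h4
    refine ⟨h1, ?_, ?_, ?_⟩
    · calc (p : ℝ) ^ 2 ≤ (p : ℝ) ^ 3 := pow_le_pow_right₀ h51 (by norm_num)
        _ ≤ D := h6
    · rw [le_div_iff₀ h5]
      calc (p : ℝ) ^ 2 * p = (p : ℝ) ^ 3 := by ring
        _ ≤ D := h6
    · rw [le_div_iff₀ h5]
      have h7 : (B * p) ^ 6 ≤ D ^ 6 := by
        calc (B * p) ^ 6 = (B ^ 2) ^ 3 * ((p : ℝ) ^ 3) ^ 2 := by ring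
          _ ≤ D ^ 3 * D ^ 2 := by
              refine mul_le_mul (pow_le_pow_left₀ (by positivity) hD 3)
                (pow_le_pow_left₀ (by positivity) h6 2) (by positivity) (by positivity)
          _ = D ^ 5 := by ring
          _ ≤ D ^ 6 := pow_le_pow_right₀ hD1.le (by norm_num)
      exact le_of_pow_le_pow_left₀ (by norm_num) hDpos.le h7
  have hbuch := buchGp D (show 2 ≤ w by omega) hwz'
  have h1 := (h.f1 D hDD0).2
  -- the sums
  set SJ : ℝ := ∑ p ∈ P w z', JJ (D / p) p with hSJ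
  set Sp : ℝ := ∑ p ∈ P w z', (piw w p) ^ 2 with hSp
  set Sg : ℝ := ∑ p ∈ P w z', Gm (D / p) p with hSg
  set Mg : ℝ := ∑ p ∈ P w z', (ell (D / p) - ell D) * Gm (D / p) p with hMg
  have hJ0 : ∀ p ∈ P w z', 0 ≤ JJ (D / p) p := fun p hp =>
    JJ_nonneg (hB1.le.trans (hP p hp).2.2.2)
  have hSJ0 : 0 ≤ SJ := Finset.sum_nonneg hJ0
  have hJD : 0 ≤ JJ D z := JJ_nonneg hD1.le
  have hUm : ∑ p ∈ P w z', Um w K C2 (D / p) p =
      K * ((1 - ell D) * Sg - Mg + 3 / 2 * Sp) + C2 * SJ := by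
    rw [hSJ, hSg, hMg, hSp, Finset.mul_sum, Finset.mul_sum, Finset.mul_sum,
      ← Finset.sum_sub_distrib, ← Finset.sum_add_distrib, Finset.mul_sum,
      ← Finset.sum_add_distrib]
    refine Finset.sum_congr rfl fun p _ => ?_
    unfold Um
    ring
  have hC2 : 0 ≤ C2 := by
    have : 0 ≤ 100 * K * C5 := by positivity
    linarith
  -- reduction
  suffices hs : (K + 1) * (Cw * D / (Real.log D) ^ 6) + 3 / 2 * K * Sp + C2 * SJ ≤
      K * Mg + C2 * JJ D z by
    rw [hUm]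
    unfold Up
    rw [← hz', hbuch]
    have b2 : -((1 - ell D) * Gp D w) ≤ |Gp D w| := by
      have b3 : |(1 - ell D) * Gp D w| ≤ |Gp D w| := by
        rw [abs_mul]
        have b4 : |1 - ell D| ≤ 1 := by
          rw [abs_le]
          constructor <;> linarith
        exact mul_le_of_le_one_left (abs_nonneg _) b4
      have := neg_abs_le ((1 - ell D) * Gp D w)
      linarith
    have a2 : K * (-((1 - ell D) * Gp D w)) ≤ K * (Cw * D / (Real.log D) ^ 6) :=
      mul_le_mul_of_nonneg_left (by linarith) (by linarith)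
    linarith
  have hCwD : 0 < Cw * D / (Real.log D) ^ 6 := by
    have : 0 < Real.log D := by linarith
    positivity
  have hterm : ∀ p ∈ P w z', -(ell D * (C5 * JJ (D / p) p)) ≤
      (ell (D / p) - ell D) * Gm (D / p) p := fun p hp =>
    m23_term h hD1 (hP p hp).1 (hP p hp).2.1 (hP p hp).2.2.1 (hBD0.trans (hP p hp).2.2.2)
  have h10 := h.f10 D hDD0 z' (min_le_right _ _)
  rw [← hSp] at h10
  by_cases hz4 : (z : ℝ) ^ 4 ≤ D
  · -- first case
    have hzz : z' = z := by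
      refine min_eq_left (((lt_zs hDpos.le z).2 ?_).le)
      calc (z : ℝ) ^ 3 ≤ (z : ℝ) ^ 4 := pow_le_pow_right₀ (by linarith) (by norm_num)
        _ ≤ D := hz4
    have h6 := h.f6 D hDD0 z hwz hz4
    rw [← hzz, ← hSJ, hzz] at h6
    have h10' := h10.2 (by rw [hzz]; exact hz4)
    have hM : -(ell D * (C5 * SJ)) ≤ Mg := by
      rw [hSJ, hMg, Finset.mul_sum, Finset.mul_sum, ← Finset.sum_neg_distrib]
      exact Finset.sum_le_sum hterm
    have h0 : 0 < Real.log D := by linarith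
    have hJ1 : D / (Real.log D) ^ 6 ≤ JJ D z := by
      unfold JJ
      rw [if_pos hz4]
      have hlz : 1 ≤ Real.log z := by
        rw [Real.le_log_iff_exp_le (by linarith)]
        have := Real.exp_one_lt_d9
        linarith
      have : (1 : ℝ) ≤ (Real.log z) ^ 3 := one_le_pow₀ hlz
      exact div_le_div_of_nonneg_right (le_mul_of_one_le_right hDpos.le this) (by positivity)
    have hJ2 : D ^ (4 / 5 : ℝ) ≤ JJ D z := by
      refine le_trans ?_ hJ1
      rw [le_div_iff₀ (by positivity)]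
      calc D ^ (4 / 5 : ℝ) * (Real.log D) ^ 6 ≤ D ^ (4 / 5 : ℝ) * D ^ (1 / 5 : ℝ) :=
            mul_le_mul_of_nonneg_left (hD1log D (hBD1.trans hBD)) (by positivity)
        _ = D := by
            rw [← Real.rpow_add hDpos]
            norm_num
    have a1 : ell D * (C5 * SJ) ≤ C5 * JJ D z := by
      have b1 : C5 * SJ ≤ C5 * JJ D z := mul_le_mul_of_nonneg_left (by linarith) pC5.le
      have b2 : 0 ≤ C5 * SJ := mul_nonneg pC5.le hSJ0
      exact (mul_le_of_le_one_left b2 (by linarith)).trans b1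
    have a2 : K * (C5 * JJ D z) ≤ C2 / 100 * JJ D z := by
      have : K * C5 ≤ C2 / 100 := by linarith
      calc K * (C5 * JJ D z) = (K * C5) * JJ D z := by ring
        _ ≤ C2 / 100 * JJ D z := mul_le_mul_of_nonneg_right this hJD
    have a3 : (K + 1) * (Cw * D / (Real.log D) ^ 6) ≤ C2 / 100 * JJ D z := by
      have b1 : (K + 1) * Cw ≤ C2 / 100 := by linarith
      calc (K + 1) * (Cw * D / (Real.log D) ^ 6) = ((K + 1) * Cw) * (D / (Real.log D) ^ 6) := by
            ring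
        _ ≤ C2 / 100 * JJ D z := by
            refine mul_le_mul b1 hJ1 ?_ (by linarith)
            positivity
    have a4 : C2 * SJ ≤ C2 * (24 / 25 * JJ D z) := mul_le_mul_of_nonneg_left h6 hC2
    have a5 : K * (-(C5 * JJ D z)) ≤ K * Mg :=
      mul_le_mul_of_nonneg_left (by linarith) (by linarith)
    have a6 : 3 / 2 * K * Sp ≤ C2 / 100 * JJ D z := by
      have b1 : 3 / 2 * K ≤ C2 / 100 := by linarith
      calc 3 / 2 * K * Sp ≤ 3 / 2 * K * JJ D z :=
            mul_le_mul_of_nonneg_left (h10'.trans hJ2) (by linarith)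
        _ ≤ C2 / 100 * JJ D z := mul_le_mul_of_nonneg_right b1 hJD
    linarith [mul_nonneg hC2 hJD]
  · -- second case
    push Not at hz4
    have h8 := h.f8 D hDD0 (P w z') (fun p hp =>
      ⟨(mem_P.1 hp).2.2, (hP p hp).1, (hP p hp).2.1⟩)
    rw [← hSJ] at h8
    have h13 := h.f13b D hDD0
    set Q := P (⌊D ^ (1 / 5 : ℝ)⌋₊ + 1) ⌈D ^ (1 / 4 : ℝ)⌉₊ with hQ
    have hr4 : (D ^ (1 / 4 : ℝ)) ^ 4 = D := by
      rw [← Real.rpow_natCast, ← Real.rpow_mul hDpos.le]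
      norm_num
    have hr5 : (D ^ (1 / 5 : ℝ)) ^ 5 = D := by
      rw [← Real.rpow_natCast, ← Real.rpow_mul hDpos.le]
      norm_num
    have hQ4 : ∀ p ∈ Q, (p : ℝ) ^ 4 < D := by
      intro p hp
      obtain ⟨h1, h2, h3⟩ := mem_P.1 hp
      rw [Nat.lt_ceil] at h2
      calc (p : ℝ) ^ 4 < (D ^ (1 / 4 : ℝ)) ^ 4 :=
            pow_lt_pow_left₀ h2 (by positivity) (by norm_num)
        _ = D := hr4
    have hQ5 : ∀ p ∈ Q, D < (p : ℝ) ^ 5 := by
      intro p hp
      obtain ⟨h1, h2, h3⟩ := mem_P.1 hp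
      have h4 : D ^ (1 / 5 : ℝ) < p := by
        have := Nat.lt_floor_add_one (D ^ (1 / 5 : ℝ))
        have h5 : ((⌊D ^ (1 / 5 : ℝ)⌋₊ + 1 : ℕ) : ℝ) ≤ p := by exact_mod_cast h1
        push_cast at h5
        linarith
      calc D = (D ^ (1 / 5 : ℝ)) ^ 5 := hr5.symm
        _ < (p : ℝ) ^ 5 := pow_lt_pow_left₀ h4 (by positivity) (by norm_num)
    have hQP : Q ⊆ P w z' := by
      intro p hp
      have hp4 := hQ4 p hp
      have hp5 := hQ5 p hp
      obtain ⟨h1, h2, h3⟩ := mem_P.1 hp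
      refine mem_P.2 ⟨?_, ?_, h3⟩
      · have h4 : (w : ℝ) < p :=
          lt_of_pow_lt_pow_left₀ 5 (by positivity) ((hDw 5 (by norm_num)).trans_lt hp5)
        exact_mod_cast h4.le
      · refine lt_min ?_ ?_
        · have h5 : (p : ℝ) < z := lt_of_pow_lt_pow_left₀ 4 (by positivity) (hp4.trans hz4)
          exact_mod_cast h5
        · rw [lt_zs hDpos.le]
          have h51 : (1 : ℝ) ≤ p := by exact_mod_cast h3.one_lt.le
          exact (pow_le_pow_right₀ h51 (by norm_num)).trans hp4.le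
    have hbig : ∀ p ∈ Q, ell D * c7 / 10 * (D / (Real.log D) ^ 2) * (1 / (p : ℝ)) ≤
        (ell (D / p) - ell D) * Gm (D / p) p := by
      intro p hp
      have hpP := hQP hp
      exact m23_big h hD4 (hP p hpP).1 (hQ4 p hp).le (hQ5 p hp)
        (hBD0.trans (hP p hpP).2.2.2)
    have hL0 : 0 < Real.log D := by linarith
    have hM : ell D * c7 / 10 * (D / (Real.log D) ^ 2) * c13 - ell D * (C5 * SJ) ≤ Mg := by
      have hsplit : Mg = ∑ p ∈ Q, (ell (D / p) - ell D) * Gm (D / p) p +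
          ∑ p ∈ P w z' \ Q, (ell (D / p) - ell D) * Gm (D / p) p := by
        rw [hMg, add_comm]
        exact (Finset.sum_sdiff hQP).symm
      have c1 : ell D * c7 / 10 * (D / (Real.log D) ^ 2) * c13 ≤
          ∑ p ∈ Q, (ell (D / p) - ell D) * Gm (D / p) p := by
        calc ell D * c7 / 10 * (D / (Real.log D) ^ 2) * c13 ≤
              ell D * c7 / 10 * (D / (Real.log D) ^ 2) * ∑ p ∈ Q, 1 / (p : ℝ) := by
              refine mul_le_mul_of_nonneg_left h13 ?_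
              have := hell.1
              positivity
          _ ≤ _ := by
              rw [Finset.mul_sum]
              exact Finset.sum_le_sum hbig
      have c2 : -(ell D * (C5 * SJ)) ≤
          ∑ p ∈ P w z' \ Q, (ell (D / p) - ell D) * Gm (D / p) p := by
        have d1 : ∑ p ∈ P w z' \ Q, JJ (D / p) p ≤ SJ := by
          rw [hSJ]
          exact Finset.sum_le_sum_of_subset_of_nonneg Finset.sdiff_subset fun p hp _ => hJ0 p hp
        calc -(ell D * (C5 * SJ)) ≤ -(ell D * (C5 * ∑ p ∈ P w z' \ Q, JJ (D / p) p)) := by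
              have := mul_le_mul_of_nonneg_left (mul_le_mul_of_nonneg_left d1 pC5.le) hell.1.le
              linarith
          _ = ∑ p ∈ P w z' \ Q, -(ell D * (C5 * JJ (D / p) p)) := by
              rw [Finset.sum_neg_distrib, Finset.mul_sum, Finset.mul_sum]
          _ ≤ _ := Finset.sum_le_sum fun p hp => hterm p (Finset.mem_sdiff.1 hp).1
      linarith
    -- the final inequality
    have h10' := h10.1
    set L := Real.log D with hLdef
    have hs : Real.sqrt L * Real.sqrt L = L := Real.mul_self_sqrt hL0.le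
    have hs0 : 0 < Real.sqrt L := Real.sqrt_pos.2 hL0
    have hellv : ell D = 1 / Real.sqrt L := by rw [hLdef]; rfl
    set s := Real.sqrt L with hsdef
    have hsB : Real.sqrt (Real.log B) ≤ s := Real.sqrt_le_sqrt (by linarith)
    have hs1 : 1 ≤ s := by
      rw [hsdef]
      exact Real.one_le_sqrt.2 (by linarith)
    have hkey : (K + 1) * Cw * s / L ^ 4 + 3 / 2 * K * C9 * s / L + C2 * C6 * s / L +
        K * (C5 * C6) / L ≤ K * (c7 * c13) / 10 := by
      have k1 : C2 * C6 * s / L ≤ K * (c7 * c13) / 40 := by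
        have e1 : C2 * C6 * s / L = C2 * C6 / s := by
          rw [← hs]
          field_simp
        rw [e1, div_le_iff₀ hs0]
        calc C2 * C6 ≤ (K * (c7 * c13 / (40 * C6)) * Real.sqrt (Real.log B)) * C6 :=
              mul_le_mul_of_nonneg_right ha pC6.le
          _ = K * (c7 * c13) / 40 * Real.sqrt (Real.log B) := by
              field_simp
          _ ≤ K * (c7 * c13) / 40 * s := mul_le_mul_of_nonneg_left hsB (by positivity)
      have k5 : 3 / 2 * K * C9 * s / L ≤ K * (c7 * c13) / 40 := by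
        have e1 : 3 / 2 * K * C9 * s / L = 3 / 2 * K * C9 / s := by
          rw [← hs]
          field_simp
        have e2 : 60 * C9 / (c7 * c13) ≤ s := by
          refine le_trans ?_ hsB
          exact Real.le_sqrt_of_sq_le hlB3
        rw [div_le_iff₀ hm0] at e2
        rw [e1, div_le_iff₀ hs0]
        have e3 := mul_le_mul_of_nonneg_left e2 (show 0 ≤ K / 40 by linarith)
        calc 3 / 2 * K * C9 = K / 40 * (60 * C9) := by ring
          _ ≤ K / 40 * (s * (c7 * c13)) := e3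
          _ = K * (c7 * c13) / 40 * s := by ring
      have k0 : 40 * (C5 * C6 + 2 * Cw) ≤ L * (c7 * c13) := by
        rw [div_le_iff₀ hm0] at hlB2
        exact hlB2.trans (mul_le_mul_of_nonneg_right (by linarith) hm0.le)
      have k2 : K * (C5 * C6) / L + 2 * K * Cw / L ≤ K * (c7 * c13) / 40 := by
        rw [← add_div, div_le_iff₀ hL0]
        have := mul_le_mul_of_nonneg_left k0 (show 0 ≤ K by linarith)
        linarith
      have k3 : (K + 1) * Cw * s / L ^ 4 ≤ 2 * K * Cw / L := by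
        rw [div_le_div_iff₀ (by positivity) hL0]
        have l1 : s ≤ L := by
          rw [← hs]
          exact le_mul_of_one_le_left hs0.le hs1
        have l2 : (1 : ℝ) ≤ L := by linarith
        have l3 : s * L ≤ L ^ 4 := by
          have l4 : L ^ 2 ≤ L ^ 4 := pow_le_pow_right₀ l2 (by norm_num)
          calc s * L ≤ L * L := mul_le_mul_of_nonneg_right l1 hL0.le
            _ = L ^ 2 := by ring
            _ ≤ L ^ 4 := l4
        calc (K + 1) * Cw * s * L = ((K + 1) * Cw) * (s * L) := by ring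
          _ ≤ (2 * K * Cw) * (L ^ 4) := by
              refine mul_le_mul ?_ l3 (by positivity) (by positivity)
              exact mul_le_mul_of_nonneg_right (by linarith) pCw.le
      have k4 : 0 ≤ K * (c7 * c13) / 40 := by positivity
      linarith
    have e1 : (K + 1) * (Cw * D / L ^ 6) = (D / (s * L ^ 2)) * ((K + 1) * Cw * s / L ^ 4) := by
      field_simp
    have e11 : 3 / 2 * K * (C9 * D / L ^ 3) =
        (D / (s * L ^ 2)) * (3 / 2 * K * C9 * s / L) := by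
      field_simp
    have e2 : C2 * (C6 * D / L ^ 3) = (D / (s * L ^ 2)) * (C2 * C6 * s / L) := by
      field_simp
    have e3 : K * (ell D * (C5 * (C6 * D / L ^ 3))) =
        (D / (s * L ^ 2)) * (K * (C5 * C6) / L) := by
      rw [hellv]
      field_simp
    have e4 : K * (ell D * c7 / 10 * (D / L ^ 2) * c13) =
        (D / (s * L ^ 2)) * (K * (c7 * c13) / 10) := by
      rw [hellv]
      field_simp
    have e5 : 0 ≤ D / (s * L ^ 2) := by positivity
    have e6 := mul_le_mul_of_nonneg_left hkey e5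
    rw [mul_add, mul_add, mul_add, ← e1, ← e11, ← e2, ← e3, ← e4] at e6
    have e7 : C2 * SJ ≤ C2 * (C6 * D / L ^ 3) := mul_le_mul_of_nonneg_left h8 hC2
    have e12 : 3 / 2 * K * Sp ≤ 3 / 2 * K * (C9 * D / L ^ 3) :=
      mul_le_mul_of_nonneg_left h10' (by linarith)
    have e8 : K * (ell D * (C5 * SJ)) ≤ K * (ell D * (C5 * (C6 * D / L ^ 3))) := by
      refine mul_le_mul_of_nonneg_left ?_ (by linarith)
      refine mul_le_mul_of_nonneg_left ?_ hell.1.le
      exact mul_le_mul_of_nonneg_left h8 pC5.le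
    have e9 := mul_le_mul_of_nonneg_left hM (show 0 ≤ K by linarith)
    rw [mul_sub] at e9
    have e10 : 0 ≤ C2 * JJ D z := mul_nonneg hC2 hJD
    linarith

end Pool.Agent.Lib.MP_45349e_nt.JG
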