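import Pool.Agent.Lib.MP_45349e_nt.JG.Bas

/-!
# JG-M24 (75 min): the base of the induction

`B ≤ D < B^2`, `L = log D ∈ [log B, 2 log B]`, `b = log B`. Conditions: `K ≥ b^6` and `C2 ≥ b^6 + ...` see the
statement. PROOF. `0 < ell D ≤ 1/2`.
`hb1` (`z^2 ≤ D`): (i) `z^4 ≤ D`: `Gm D z ≥ -C5 JJ D z` (`f12m`): `Um ≥ (C2 - K C5) JJ ≥ (C2/2) JJ ≥
(C2/2) D/L^6 ≥ (C2/2) D/(2 b)^6 ≥ 2 D` as `C2 ≥ 256 b^6`. (ii) `z^4 > D`, `kap z^2 ≤ D`: `f2b`: `Um ≥ K (1/2) c7
D/L^2 ≥ K c7 D/(8 b^2) ≥ 2 D` as `K ≥ b^6`, `b` large (`JJ ≥ 0`). (iii) `z^4 > D`, `D < kap z^2`: `f2a`: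
`Gm ≥ -1`, `(1 - ell D) Gm ≥ -1`; `f15` (`2 z^2 ≥ D0`): `piw w z ≥ z/(2 log z) ≥ z/L` (`log z ≤ L/2`), so
`(piw w z)^2 ≥ D/(kap L^2) ≥ D/(5 b^2) ≥ 2`: `Um ≥ K (-1 + (3/2) (piw w z)^2) ≥ K (piw w z)^2 ≥ 2 D`.
`hb2`: `z' = min z (zs D)`. If `z < zs D`: `f12p`: `Gp D z ≥ -C5 JJ D z`; `Up ≥ (C2 - K C5) JJ D z ≥ (C2/2) JJ D z`, and
`JJ D z ≥ D/L^6` if `z^4 ≤ D`, `JJ D z = eta D/L^3` if not (`eta/2 (256 b^6)/(2 b)^3 ≥ 1` for `b ≥ 1`).
If `z ≥ zs D`: `f4`: `Gp D (zs D) ≥ 0`: `Up ≥ C2 JJ D z`, `z^4 ≥ (zs D)^4 > D`: `JJ D z = eta D/L^3`.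
-/

open Finset

namespace Pool.Agent.Lib.MP_45349e_nt.JG

open Pool.Agent.Lib.MP_45349e_nt.LS (P lam Lsum V)

/-- lower bound of `JJ` in the range `L ≤ 2 b` -/
theorem JJ_low24 {w z : ℕ} (hw : 3 ≤ w) (hz : w ≤ z) {D b : ℝ} (hb : 3 ≤ b) (hD : 0 < D)
    (hL0 : 0 < Real.log D) (hL : Real.log D ≤ 2 * b) : D / (64 * b ^ 6) ≤ JJ D z := by
  have hz1 : 1 ≤ Real.log z := by
    have h3 : (3 : ℝ) ≤ z := by exact_mod_cast hw.trans hz
    have : Real.exp 1 ≤ z := by linarith [Real.exp_one_lt_d9]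
    calc (1 : ℝ) = Real.log (Real.exp 1) := (Real.log_exp 1).symm
      _ ≤ Real.log z := Real.log_le_log (Real.exp_pos 1) this
  have hb0 : 0 < b := by linarith
  unfold JJ
  split_ifs with hc
  · have h1 : (Real.log D) ^ 6 ≤ 64 * b ^ 6 := by
      calc (Real.log D) ^ 6 ≤ (2 * b) ^ 6 := pow_le_pow_left₀ hL0.le hL 6
        _ = 64 * b ^ 6 := by ring
    calc D / (64 * b ^ 6) ≤ D / (Real.log D) ^ 6 :=
          div_le_div_of_nonneg_left hD.le (by positivity) h1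
      _ ≤ D * (Real.log z) ^ 3 / (Real.log D) ^ 6 := by
          apply div_le_div_of_nonneg_right _ (by positivity)
          have : 1 ≤ (Real.log z) ^ 3 := one_le_pow₀ hz1
          nlinarith
  · have h1 : (Real.log D) ^ 3 ≤ 8 * b ^ 3 := by
      calc (Real.log D) ^ 3 ≤ (2 * b) ^ 3 := pow_le_pow_left₀ hL0.le hL 3
        _ = 8 * b ^ 3 := by ring
    have h2 : eta * D / (8 * b ^ 3) ≤ eta * D / (Real.log D) ^ 3 := by
      apply div_le_div_of_nonneg_left _ (by positivity) h1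
      unfold eta; positivity
    refine le_trans ?_ h2
    rw [div_le_div_iff₀ (by positivity) (by positivity)]
    unfold eta
    have hb3 : 27 ≤ b ^ 3 := by
      calc (27 : ℝ) = 3 ^ 3 := by norm_num
        _ ≤ b ^ 3 := pow_le_pow_left₀ (by norm_num) hb 3
    have h3 : 0 ≤ D * (8 * b ^ 3) * (72 / 1000 * b ^ 3 - 1) :=
      mul_nonneg (by positivity) (by linarith)
    have h4 : 9 / 1000 * D * (64 * b ^ 6) - D * (8 * b ^ 3) =
        D * (8 * b ^ 3) * (72 / 1000 * b ^ 3 - 1) := by ring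
    linarith

theorem baseI {w : ℕ} {Cw c7 C8 eps C5 C6 C9 c13 D0 : ℝ}
    (h : Facts w Cw c7 C8 eps C5 C6 C9 c13 D0) :
    ∃ B0 : ℝ, D0 ≤ B0 ∧ ∀ B : ℝ, B0 ≤ B → ∀ K C2 : ℝ, (Real.log B) ^ 6 ≤ K →
      100 * K * C5 ≤ C2 → 256 * (Real.log B) ^ 6 ≤ C2 →
      (∀ D : ℝ, B ≤ D → D < B ^ 2 → ∀ z : ℕ, w ≤ z → (z : ℝ) ^ 2 ≤ D → 2 * D ≤ Um w K C2 D z) ∧
      (∀ D : ℝ, B ≤ D → D < B ^ 2 → ∀ z : ℕ, w ≤ z → D ≤ Up w K C2 D z) := by
  obtain ⟨hCw, hc7, hC8, heps, heps1, hC5, hC6, hC9, hc13⟩ := h.pos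
  -- thresholds
  have hlim : ∃ B1 : ℝ, ∀ B : ℝ, B1 ≤ B → 16 ≤ (Real.log B) ^ 4 * c7 ∧
      10 * (Real.log B) ^ 2 ≤ B := by
    have h1 : ∀ᶠ B : ℝ in Filter.atTop, 16 ≤ (Real.log B) ^ 4 * c7 := by
      have : Filter.Tendsto (fun B : ℝ => (Real.log B) ^ 4 * c7) Filter.atTop Filter.atTop :=
        ((Filter.tendsto_pow_atTop (by norm_num)).comp Real.tendsto_log_atTop).atTop_mul_const hc7
      exact this.eventually_ge_atTop 16
    have h2 : ∀ᶠ B : ℝ in Filter.atTop, 10 * (Real.log B) ^ 2 ≤ B := by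
      have := (isLittleO_log_rpow_atTop (r := 1 / 2) (by norm_num)).bound
        (c := 1 / 4) (by norm_num)
      filter_upwards [this, Filter.eventually_ge_atTop 1] with B hB hB1
      have hl : 0 ≤ Real.log B := Real.log_nonneg hB1
      rw [Real.norm_of_nonneg hl, Real.norm_of_nonneg (by positivity)] at hB
      have h3 : (B ^ (1 / 2 : ℝ)) ^ 2 = B := by
        rw [← Real.rpow_natCast, ← Real.rpow_mul (by linarith)]; norm_num
      have h4 : (Real.log B) ^ 2 ≤ (1 / 4 * B ^ (1 / 2 : ℝ)) ^ 2 :=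
        pow_le_pow_left₀ hl hB 2
      rw [mul_pow, h3] at h4
      nlinarith
    obtain ⟨B1, hB1⟩ := Filter.eventually_atTop.mp (h1.and h2)
    exact ⟨B1, hB1⟩
  obtain ⟨B1, hB1⟩ := hlim
  refine ⟨max (max D0 B1) (Real.exp 16), le_trans (le_max_left _ _) (le_max_left _ _), ?_⟩
  intro B hB K C2 hK hC25 hC26
  have hBD0 : D0 ≤ B := le_trans (le_trans (le_max_left _ _) (le_max_left _ _)) hB
  have hBB1 : B1 ≤ B := le_trans (le_trans (le_max_right _ _) (le_max_left _ _)) hB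
  have hB16 : Real.exp 16 ≤ B := le_trans (le_max_right _ _) hB
  have hBpos : 0 < B := lt_of_lt_of_le (Real.exp_pos _) hB16
  obtain ⟨hb4, hb2⟩ := hB1 B hBB1
  set b := Real.log B with hbdef
  have hb16 : 16 ≤ b := by
    calc (16 : ℝ) = Real.log (Real.exp 16) := (Real.log_exp 16).symm
      _ ≤ b := Real.log_le_log (Real.exp_pos _) hB16
  have hb0 : 0 < b := by linarith
  have hb6 : 0 < b ^ 6 := by positivity
  have hK0 : 0 < K := lt_of_lt_of_le hb6 hK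
  have hC20 : 0 < C2 := lt_of_lt_of_le (by positivity) hC26
  -- facts on `D`
  have hfacts : ∀ D : ℝ, B ≤ D → D < B ^ 2 → 0 < D ∧ b ≤ Real.log D ∧ Real.log D ≤ 2 * b ∧
      D0 ≤ D ∧ Real.exp 4 ≤ D ∧ 10 * b ^ 2 ≤ D := by
    intro D h1 h2
    have hD0 : 0 < D := lt_of_lt_of_le hBpos h1
    refine ⟨hD0, Real.log_le_log hBpos h1, ?_, hBD0.trans h1, ?_, hb2.trans h1⟩
    · have := Real.log_le_log hD0 h2.le
      rwa [Real.log_pow, Nat.cast_ofNat] at this
    · exact le_trans (Real.exp_le_exp.mpr (by norm_num)) (hB16.trans h1)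
  -- the key estimate
  have hkey : ∀ D : ℝ, B ≤ D → D < B ^ 2 → ∀ z : ℕ, w ≤ z →
      3 * D ≤ C2 * JJ D z - K * (C5 * JJ D z) := by
    intro D h1 h2 z hz
    obtain ⟨hD0, hL1, hL2, -, -, -⟩ := hfacts D h1 h2
    have hJ := JJ_low24 h.hw hz (by linarith : 3 ≤ b) hD0 (by linarith) hL2
    have hJ0 : 0 ≤ JJ D z := le_trans (by positivity) hJ
    have h3 : K * (C5 * JJ D z) ≤ C2 / 100 * JJ D z := by
      have : K * C5 ≤ C2 / 100 := by linarith
      calc K * (C5 * JJ D z) = K * C5 * JJ D z := by ring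
        _ ≤ C2 / 100 * JJ D z := mul_le_mul_of_nonneg_right this hJ0
    have h4 : 4 * D ≤ C2 * JJ D z := by
      calc 4 * D = 256 * b ^ 6 * (D / (64 * b ^ 6)) := by field_simp; ring
        _ ≤ C2 * JJ D z := mul_le_mul hC26 hJ (by positivity) hC20.le
    nlinarith
  have hell : ∀ D : ℝ, B ≤ D → D < B ^ 2 → 0 < ell D ∧ ell D ≤ 1 / 2 := by
    intro D h1 h2
    exact ell_bd (hfacts D h1 h2).2.2.2.2.1
  have hlowG : ∀ D : ℝ, B ≤ D → D < B ^ 2 → ∀ G c : ℝ, 0 ≤ c → -c ≤ G →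
      -c ≤ (1 - ell D) * G := by
    intro D h1 h2 G c hc hG
    obtain ⟨h3, h4⟩ := hell D h1 h2
    have h5 : (1 - ell D) * (-c) ≤ (1 - ell D) * G :=
      mul_le_mul_of_nonneg_left hG (by linarith)
    nlinarith
  constructor
  · intro D h1 h2 z hz hz2
    obtain ⟨hD0, hL1, hL2, hDD0, hD4, hDb⟩ := hfacts D h1 h2
    have hD1 : 1 ≤ D := by nlinarith
    have hJ0 : 0 ≤ JJ D z := JJ_nonneg hD1
    have hpi : 0 ≤ (piw w z) ^ 2 := sq_nonneg _
    obtain ⟨he0, he1⟩ := hell D h1 h2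
    unfold Um
    by_cases hz4 : (z : ℝ) ^ 4 ≤ D
    · have h3 := hlowG D h1 h2 (Gm D z) (C5 * JJ D z) (by positivity)
        (h.f12m D hDD0 z hz hz2)
      have h4 := hkey D h1 h2 z hz
      have h5 : K * (-(C5 * JJ D z)) ≤ K * ((1 - ell D) * Gm D z + 3 / 2 * (piw w z) ^ 2) :=
        mul_le_mul_of_nonneg_left (by linarith) hK0.le
      linarith
    · push Not at hz4
      by_cases hkz : kap * (z : ℝ) ^ 2 ≤ D
      · have h3 := h.f2b D hDD0 z hkz hz4
        have hL0 : 0 < Real.log D := by linarith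
        have h4 : c7 * D / (4 * b ^ 2) ≤ c7 * D / (Real.log D) ^ 2 := by
          apply div_le_div_of_nonneg_left (by positivity) (by positivity)
          calc (Real.log D) ^ 2 ≤ (2 * b) ^ 2 := pow_le_pow_left₀ hL0.le hL2 2
            _ = 4 * b ^ 2 := by ring
        have h5 : 1 / 2 * (c7 * D / (4 * b ^ 2)) ≤ (1 - ell D) * Gm D z := by
          have hG : c7 * D / (4 * b ^ 2) ≤ Gm D z := h4.trans h3
          exact mul_le_mul (by linarith) hG (by positivity) (by linarith)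
        have h6 : b ^ 6 * (1 / 2 * (c7 * D / (4 * b ^ 2))) ≤
            K * ((1 - ell D) * Gm D z + 3 / 2 * (piw w z) ^ 2) :=
          mul_le_mul hK (by linarith) (by positivity) hK0.le
        have h7 : b ^ 6 * (1 / 2 * (c7 * D / (4 * b ^ 2))) = b ^ 4 * c7 * D / 8 := by
          field_simp; ring
        have h8 : 2 * D ≤ b ^ 4 * c7 * D / 8 := by nlinarith
        nlinarith [mul_nonneg hC20.le hJ0]
      · push Not at hkz
        have h3 := hlowG D h1 h2 (Gm D z) 1 zero_le_one (h.f2a D hDD0 z hz2 hz4)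
        have hz3 : (3 : ℝ) ≤ z := by exact_mod_cast h.hw.trans hz
        have h4 : D0 ≤ 2 * (z : ℝ) ^ 2 := by
          unfold kap at hkz
          nlinarith
        have h5 := h.f15 z h4
        have hlz : 0 < Real.log z := Real.log_pos (by linarith)
        have hlz2 : 2 * Real.log z ≤ 2 * b := by
          have : Real.log ((z : ℝ) ^ 2) ≤ Real.log D := Real.log_le_log (by positivity) hz2
          rw [Real.log_pow, Nat.cast_ofNat] at this
          linarith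
        have h6 : (z : ℝ) / (2 * b) ≤ piw w z :=
          le_trans (div_le_div_of_nonneg_left (by positivity) (by positivity) hlz2) h5
        have h7 : ((z : ℝ) / (2 * b)) ^ 2 ≤ (piw w z) ^ 2 :=
          pow_le_pow_left₀ (by positivity) h6 2
        have h8 : D / (5 * b ^ 2) ≤ ((z : ℝ) / (2 * b)) ^ 2 := by
          rw [div_pow, div_le_div_iff₀ (by positivity) (by positivity)]
          unfold kap at hkz
          nlinarith [mul_pos hb0 hb0]
        have h9 : D / (5 * b ^ 2) ≤ (piw w z) ^ 2 := h8.trans h7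
        have h10 : 2 ≤ D / (5 * b ^ 2) := by
          rw [le_div_iff₀ (by positivity)]; linarith
        have h11 : b ^ 6 * (D / (5 * b ^ 2)) ≤
            K * ((1 - ell D) * Gm D z + 3 / 2 * (piw w z) ^ 2) :=
          mul_le_mul hK (by linarith) (by positivity) hK0.le
        have h12 : b ^ 6 * (D / (5 * b ^ 2)) = b ^ 4 * D / 5 := by
          field_simp
        have h13 : 2 * D ≤ b ^ 4 * D / 5 := by
          have : (16 : ℝ) ^ 4 ≤ b ^ 4 := pow_le_pow_left₀ (by norm_num) hb16 4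
          nlinarith
        nlinarith [mul_nonneg hC20.le hJ0]
  · intro D h1 h2 z hz
    obtain ⟨hD0, hL1, hL2, hDD0, hD4, hDb⟩ := hfacts D h1 h2
    have h4 := hkey D h1 h2 z hz
    have hD1 : 1 ≤ D := by nlinarith
    have hJ0 : 0 ≤ JJ D z := JJ_nonneg hD1
    unfold Up
    rcases le_total z (zs D) with hzz | hzz
    · rw [min_eq_left hzz]
      have h3 := hlowG D h1 h2 (Gp D z) (C5 * JJ D z) (by positivity)
        (h.f12p D hDD0 z hz hzz)
      have h5 : K * (-(C5 * JJ D z)) ≤ K * ((1 - ell D) * Gp D z) :=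
        mul_le_mul_of_nonneg_left h3 hK0.le
      linarith
    · rw [min_eq_right hzz]
      have h3 := h.f4 D hDD0
      have hc4 : 0 ≤ c4 := by
        unfold c4 kap
        have : 0 ≤ Real.log (21 / 20) := Real.log_nonneg (by norm_num)
        linarith
      have hG : 0 ≤ Gp D (zs D) := le_trans (by positivity) h3
      obtain ⟨he0, he1⟩ := hell D h1 h2
      have h5 : 0 ≤ K * ((1 - ell D) * Gp D (zs D)) :=
        mul_nonneg hK0.le (mul_nonneg (by linarith) hG)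
      have h6 : 0 ≤ K * (C5 * JJ D z) := by positivity
      linarith

end Pool.Agent.Lib.MP_45349e_nt.JG
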