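import Pool.Agent.Lib.MP_45349e_nt.JG.M06
import Pool.Agent.Lib.MP_45349e_nt.JG.M21
import Pool.Agent.Lib.MP_45349e_nt.JG.M22
import Pool.Agent.Lib.MP_45349e_nt.JG.M23
import Pool.Agent.Lib.MP_45349e_nt.JG.M24

/-!
# JG-M25 (45 min): the lower bound of the sieve between `D^(1/4)` and `D^(1/2)`

PROOF. `facts`; `a0` the minimum of the two constants of `Rminus`, `Rplus`, `B` large, `K = (log B)^6`,
`C2 = K a0 √(log B)`: for `B` large `a0 √(log B) ≥ max (100 C5) (256, 200 Cw ...)`. `indI` with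
`src D = Cw D/(log D)^6`. For `D ≥ B` (`D ≥ D0`), `w ≤ z`, `z^2 ≤ D < z^4`: `Um ≤ K (Gm + (3/2) (piw w z)^2) +
C2 JJ` (`f3` for the positive part: `(1 - ell) Gm ≤ max Gm 0 ≤ C8 D/L^2`), `piw w z ≤ C9 z/log z ≤ 4 C9 √D/L`
(`f16`), `JJ = eta D/L^3`. So `Um ≤ C12 D/L^2`.
-/

open Finset

namespace Pool.Agent.Lib.MP_45349e_nt.JG

open Pool.Agent.Lib.MP_45349e_nt.LS (P lam Lsum V)

theorem lower : ∃ C12 D0 : ℝ, 0 < C12 ∧ ∀ D : ℝ, D0 ≤ D → ∀ z : ℕ,
    (z : ℝ) ^ 2 ≤ D → D < (z : ℝ) ^ 4 → ∀ c : ℕ → ℤ,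
    2 * EE D z - C12 * D / (Real.log D) ^ 2 ≤ Tc ⌊D⌋₊ z c := by
  obtain ⟨w, Cw, c7, C8, eps, C5, C6, C9, c13, D0, h, hs⟩ := facts
  obtain ⟨a1, B1, ha1, hB1, hRm⟩ := Rminus h
  obtain ⟨a2, B2, ha2, hB2, hRp⟩ := Rplus h
  obtain ⟨B3, hB3, hbase⟩ := baseI h
  obtain ⟨hCw, hc7, hC8, heps, heps1, hC5, hC6, hC9, hc13⟩ := h.pos
  obtain ⟨hw12, hexp⟩ := h.hD0
  have hw3 := h.hw
  obtain ⟨a0, ha0, ha01, ha02⟩ : ∃ a0 : ℝ, 0 < a0 ∧ a0 ≤ a1 ∧ a0 ≤ a2 :=
    ⟨min a1 a2, lt_min ha1 ha2, min_le_left _ _, min_le_right _ _⟩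
  set t : ℝ := (100 * C5 + 456 + 200 * Cw) / a0 with ht
  have ht0 : 0 < t := by positivity
  obtain ⟨B, hBB1, hBB2, hBB3, hBt, hBe⟩ : ∃ B : ℝ, B1 ≤ B ∧ B2 ≤ B ∧ B3 ≤ B ∧
      Real.exp (t ^ 2) ≤ B ∧ Real.exp 1 ≤ B :=
    ⟨max (max (max B1 B2) (max B3 (Real.exp (t ^ 2)))) (Real.exp 1),
      ((le_max_left _ _).trans (le_max_left _ _)).trans (le_max_left _ _),
      ((le_max_right _ _).trans (le_max_left _ _)).trans (le_max_left _ _),
      ((le_max_left _ _).trans (le_max_right _ _)).trans (le_max_left _ _),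
      ((le_max_right _ _).trans (le_max_right _ _)).trans (le_max_left _ _), le_max_right _ _⟩
  have hD0B : D0 ≤ B := hB1.trans hBB1
  have hBpos : 0 < B := (Real.exp_pos _).trans_le hBe
  have hlB1 : 1 ≤ Real.log B := (Real.le_log_iff_exp_le hBpos).mpr hBe
  have hlBt : t ^ 2 ≤ Real.log B := (Real.le_log_iff_exp_le hBpos).mpr hBt
  set q : ℝ := Real.sqrt (Real.log B) with hq
  have hqt : t ≤ q := by
    rw [hq]
    exact Real.le_sqrt_of_sq_le hlBt
  have hq0 : 0 < q := ht0.trans_le hqt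
  have haq : 100 * C5 + 456 + 200 * Cw ≤ a0 * q := by
    have h1 : a0 * t ≤ a0 * q := mul_le_mul_of_nonneg_left hqt ha0.le
    have h2 : a0 * t = 100 * C5 + 456 + 200 * Cw := by
      rw [ht]
      field_simp
    linarith
  set K : ℝ := (Real.log B) ^ 6 with hK
  have hK1 : 1 ≤ K := one_le_pow₀ hlB1
  have hK0 : 0 < K := by linarith
  set C2 : ℝ := K * a0 * q with hC2
  have hC2K : K * (100 * C5 + 456 + 200 * Cw) ≤ C2 := by
    have h1 : K * (100 * C5 + 456 + 200 * Cw) ≤ K * (a0 * q) := mul_le_mul_of_nonneg_left haq hK0.le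
    rw [hC2]
    linarith
  have hKC5 : 0 < K * C5 := mul_pos hK0 hC5
  have hKCw : 0 < K * Cw := mul_pos hK0 hCw
  have k1 : 100 * K * C5 ≤ C2 := by nlinarith
  have k2 : 100 * (K + 1) * Cw ≤ C2 := by
    have h1 : Cw ≤ K * Cw := by nlinarith
    nlinarith
  have k3 : 200 * K ≤ C2 := by nlinarith
  have k4 : 256 * (Real.log B) ^ 6 ≤ C2 := by
    rw [← hK]
    nlinarith
  have k5 : C2 ≤ K * a1 * Real.sqrt (Real.log B) := by
    rw [← hq, hC2]
    exact mul_le_mul_of_nonneg_right (mul_le_mul_of_nonneg_left ha01 hK0.le) hq0.le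
  have k6 : C2 ≤ K * a2 * Real.sqrt (Real.log B) := by
    rw [← hq, hC2]
    exact mul_le_mul_of_nonneg_right (mul_le_mul_of_nonneg_left ha02 hK0.le) hq0.le
  have hC20 : 0 < C2 := by nlinarith
  obtain ⟨hb1, hb2⟩ := hbase B hBB3 K C2 le_rfl k1 k4
  have hw1r : (1 : ℝ) ≤ w := by exact_mod_cast (by omega : 1 ≤ w)
  have hwB : (w : ℝ) ^ 6 ≤ B := by
    have h1 : (w : ℝ) ^ 6 ≤ (w : ℝ) ^ 12 := pow_le_pow_right₀ hw1r (by norm_num)
    linarith
  have hmain := indI (w := w) (by omega) hwB (fun D => Cw * D / (Real.log D) ^ 6)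
    (fun D z => Um w K C2 D z) (fun D z => Up w K C2 D z)
    (fun D hD c => hs D (hD0B.trans hD) c)
    (hRm B hBB1 K C2 hK1 k1 k2 k5) (hRp B hBB2 K C2 hK1 k1 k2 k3 k6) hb1 hb2
  refine ⟨K * (C8 + 24 * C9 ^ 2) + C2 * eta, B, ?_, fun D hD z hz2 hz4 c => ?_⟩
  · have : 0 < eta := by unfold eta; norm_num
    positivity
  · have hDD0 : D0 ≤ D := hD0B.trans hD
    have hDe : Real.exp 16 ≤ D := hexp.trans hDD0
    have hDpos : 0 < D := (Real.exp_pos _).trans_le hDe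
    have hL16 : 16 ≤ Real.log D := (Real.le_log_iff_exp_le hDpos).mpr hDe
    have hwz : w ≤ z := by
      by_contra hcon
      have h1 : z ≤ w := by omega
      have h2 : (z : ℝ) ≤ w := by exact_mod_cast h1
      have h3 : (z : ℝ) ^ 4 ≤ (w : ℝ) ^ 4 := pow_le_pow_left₀ (Nat.cast_nonneg z) h2 4
      have h4 : (w : ℝ) ^ 4 ≤ (w : ℝ) ^ 12 := pow_le_pow_right₀ hw1r (by norm_num)
      linarith
    have h1 := (hmain D hD z hwz c).2 hz2
    have hzr : (3 : ℝ) ≤ z := by exact_mod_cast (hw3.trans hwz)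
    have hz0 : (0 : ℝ) < z := by linarith
    set L : ℝ := Real.log D with hL
    have hL0 : 0 < L := by linarith
    have hlz : L / 4 ≤ Real.log z := by
      have h2 : L ≤ Real.log ((z : ℝ) ^ 4) := Real.log_le_log hDpos hz4.le
      rw [Real.log_pow] at h2
      push_cast at h2
      linarith
    have hlz0 : 0 < Real.log z := by linarith
    have hDL : 0 < D / L ^ 2 := by positivity
    have hell : 0 < ell D ∧ ell D ≤ 1 / 2 := ell_bd (by
      refine le_trans ?_ hDe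
      exact Real.exp_le_exp.mpr (by norm_num))
    have hG := h.f3 D hDD0 z hz2 hz4
    have g1 : (1 - ell D) * Gm D z ≤ C8 * (D / L ^ 2) := by
      have h2 : C8 * D / L ^ 2 = C8 * (D / L ^ 2) := by ring
      rw [h2] at hG
      have h3 : (1 - ell D) * Gm D z ≤ (1 - ell D) * (C8 * (D / L ^ 2)) :=
        mul_le_mul_of_nonneg_left hG (by linarith [hell.2])
      have h4 : 0 ≤ ell D * (C8 * (D / L ^ 2)) := mul_nonneg hell.1.le (by positivity)
      linarith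
    have g2 : (piw w z) ^ 2 ≤ 16 * C9 ^ 2 * (D / L ^ 2) := by
      have h2 : piw w z ≤ C9 * z / Real.log z := h.f16 z (by
        have : D ≤ 2 * (z : ℝ) ^ 4 := by linarith
        linarith)
      have h3 : 0 ≤ piw w z := piw_nonneg w z
      have h4 : C9 * z / Real.log z ≤ C9 * z / (L / 4) :=
        div_le_div_of_nonneg_left (by positivity) (by positivity) hlz
      have h5 : (piw w z) ^ 2 ≤ (C9 * z / (L / 4)) ^ 2 := pow_le_pow_left₀ h3 (h2.trans h4) 2
      refine h5.trans ?_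
      have h6 : (C9 * z / (L / 4)) ^ 2 = 16 * C9 ^ 2 * ((z : ℝ) ^ 2 / L ^ 2) := by
        field_simp
        ring
      rw [h6]
      refine mul_le_mul_of_nonneg_left ?_ (by positivity)
      exact div_le_div_of_nonneg_right hz2 (by positivity)
    have g3 : JJ D z ≤ eta * (D / L ^ 2) := by
      unfold JJ
      rw [if_neg (not_le.mpr hz4)]
      have h2 : eta * D / Real.log D ^ 3 = eta * (D / L ^ 3) := by ring
      rw [h2]
      refine mul_le_mul_of_nonneg_left ?_ (by unfold eta; norm_num)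
      exact div_le_div_of_nonneg_left hDpos.le (by positivity)
        (pow_le_pow_right₀ (by linarith) (by norm_num))
    have g4 : Um w K C2 D z ≤ (K * (C8 + 24 * C9 ^ 2) + C2 * eta) * D / L ^ 2 := by
      unfold Um
      have h2 : (K * (C8 + 24 * C9 ^ 2) + C2 * eta) * D / L ^ 2 =
          K * (C8 * (D / L ^ 2) + 3 / 2 * (16 * C9 ^ 2 * (D / L ^ 2))) + C2 * (eta * (D / L ^ 2)) := by
        ring
      rw [h2]
      refine add_le_add (mul_le_mul_of_nonneg_left ?_ hK0.le) (mul_le_mul_of_nonneg_left g3 hC20.le)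
      linarith
    linarith

end Pool.Agent.Lib.MP_45349e_nt.JG
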