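import Pool.Agent.Lib.MP_45349e_nt.JG.M09
import Pool.Agent.Lib.MP_45349e_nt.JG.M07
import Pool.Agent.Lib.MP_45349e_nt.LS.PSum

/-!
# JG-M26 (60 min): lower bound of the model

`L = log D`. PROOF. `E_formula`; restrict the sum to the primes `q ∈ [z, √D/2)` (other terms are `≥ 0`,
`term_pos`): `D/q ≥ 4 q`, `pc (D/q) - pc q ≥ pc (D/q) - pc ((D/q)/4)`; `y = D/q ≥ √D`: `pc y - pc (y/4) ≥
y/log y - (y/4)/log(y/4) - C y/(log y)^2 ≥ y/(2 log y) ≥ y/(2 L)`. So `EE ≥ (D/(2 L)) ∑_{z ≤ q < √D/2} 1/q`, and by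
`LS.psum3`: `∑ 1/q ≥ log (log (√D/2)/log z) - C/log z`; `log (√D/2)/log z = 1 + x`, `x = log(√D/(2 z))/log z ∈
[0, 1]` (`√D ≤ z^2`), `log (1+x) ≥ x/2`. So `∑ 1/q ≥ (log (√D/(2z))/2 - C)/log z ≥ (log (D/z^2)/8)/log z` if
`log (D/z^2) ≥ log H0` large, and `log z ≤ L/2`.
-/

open Finset

namespace Pool.Agent.Lib.MP_45349e_nt.JG

open Pool.Agent.Lib.MP_45349e_nt.LS (P lam Lsum V)

theorem M26_pc_mono {a b : ℝ} (h : a ≤ b) : pc a ≤ pc b := by
  unfold pc
  have h1 : (Finset.Icc 1 ⌊a⌋₊).filter Nat.Prime ⊆ (Finset.Icc 1 ⌊b⌋₊).filter Nat.Prime :=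
    Finset.filter_subset_filter _ (Finset.Icc_subset_Icc le_rfl (Nat.floor_le_floor h))
  exact_mod_cast Finset.card_le_card h1

theorem M26_diff : ∃ y0 : ℝ, 1 < y0 ∧ ∀ y : ℝ, y0 ≤ y →
    y / (2 * Real.log y) ≤ pc y - pc (y / 4) := by
  obtain ⟨C, hC0, hC⟩ := pc_up
  obtain ⟨t0, ht0, hlow⟩ := pc_low
  refine ⟨max (max t0 8) (Real.exp (max (4 * Real.log 4) (8 * C))), ?_, fun y hy => ?_⟩
  · exact lt_of_lt_of_le (by norm_num : (1 : ℝ) < 8) ((le_max_right _ _).trans (le_max_left _ _))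
  have h1 : t0 ≤ y := ((le_max_left _ _).trans (le_max_left _ _)).trans hy
  have h2 : (8 : ℝ) ≤ y := ((le_max_right _ _).trans (le_max_left _ _)).trans hy
  have hy0 : 0 < y := by linarith
  have h3 : max (4 * Real.log 4) (8 * C) ≤ Real.log y := by
    rw [Real.le_log_iff_exp_le hy0]
    exact (le_max_right _ _).trans hy
  have h4 : 4 * Real.log 4 ≤ Real.log y := (le_max_left _ _).trans h3
  have h5 : 8 * C ≤ Real.log y := (le_max_right _ _).trans h3
  have hl4 : 0 < Real.log 4 := Real.log_pos (by norm_num)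
  have hL : 0 < Real.log y := by linarith
  have h6 := hlow y h1
  have h7 := (hC (y / 4) (by linarith)).1
  have h8 : Real.log (y / 4) = Real.log y - Real.log 4 := Real.log_div hy0.ne' (by norm_num)
  have h9 : 3 / 4 * Real.log y ≤ Real.log (y / 4) := by rw [h8]; linarith
  have h10 : y / 4 / Real.log (y / 4) ≤ y / 4 / (3 / 4 * Real.log y) :=
    div_le_div_of_nonneg_left (by positivity) (by positivity) h9
  have h11 : C * (y / 4) / Real.log (y / 4) ^ 2 ≤ C * (y / 4) / (3 / 4 * Real.log y) ^ 2 :=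
    div_le_div_of_nonneg_left (by positivity) (by positivity)
      (pow_le_pow_left₀ (by positivity) h9 2)
  have h12 : y / 4 / (3 / 4 * Real.log y) = 1 / 3 * (y / Real.log y) := by
    field_simp
  have h13 : C * (y / 4) / (3 / 4 * Real.log y) ^ 2 = (4 / 9 * C / Real.log y) * (y / Real.log y) := by
    field_simp
    ring
  have h14 : 4 / 9 * C / Real.log y ≤ 1 / 18 := by
    rw [div_le_iff₀ hL]
    linarith
  have h15 : 0 < y / Real.log y := by positivity
  have h16 : y / (2 * Real.log y) = 1 / 2 * (y / Real.log y) := by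
    field_simp
  have h17 : (4 / 9 * C / Real.log y) * (y / Real.log y) ≤ 1 / 18 * (y / Real.log y) :=
    mul_le_mul_of_nonneg_right h14 h15.le
  rw [h16]
  linarith

theorem EE_low : ∃ c26 H0 D0 : ℝ, 0 < c26 ∧ 1 ≤ H0 ∧ ∀ D : ℝ, D0 ≤ D → ∀ z : ℕ,
    H0 * (z : ℝ) ^ 2 ≤ D → D < (z : ℝ) ^ 4 →
    c26 * D * Real.log (D / (z : ℝ) ^ 2) / (Real.log D) ^ 2 ≤ EE D z := by
  obtain ⟨y0, hy0, hdiff⟩ := M26_diff
  obtain ⟨C, hC0, hC⟩ := LS.psum3
  refine ⟨1 / 8, max 4 (Real.exp (8 * C + 8)), max 4 (y0 ^ 2), by norm_num,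
    le_trans (by norm_num) (le_max_left _ _), fun D hD z hz1 hz4 => ?_⟩
  have hD4 : 4 ≤ D := (le_max_left _ _).trans hD
  have hD0 : y0 ^ 2 ≤ D := (le_max_right _ _).trans hD
  have hz2 : 2 ≤ z := by
    by_contra hcon
    have h1 : (z : ℝ) ≤ 1 := by exact_mod_cast (show z ≤ 1 by omega)
    have h2 : (z : ℝ) ^ 4 ≤ 1 := pow_le_one₀ (Nat.cast_nonneg z) h1
    linarith
  have hzR : (2 : ℝ) ≤ z := by exact_mod_cast hz2
  have hz0 : (0 : ℝ) < z := by linarith
  have hDpos : 0 < D := by linarith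
  have hL : 0 < Real.log D := Real.log_pos (by linarith)
  have hlz : 0 < Real.log z := Real.log_pos (by linarith)
  have hsq : 0 < Real.sqrt D := Real.sqrt_pos.mpr hDpos
  have hsq2 : Real.sqrt D ^ 2 = D := Real.sq_sqrt hDpos.le
  have hy0s : y0 ≤ Real.sqrt D := Real.le_sqrt_of_sq_le hD0
  have hz4' : 4 * (z : ℝ) ^ 2 ≤ D :=
    (mul_le_mul_of_nonneg_right (le_max_left _ _) (by positivity)).trans hz1
  have huv : (z : ℝ) ≤ Real.sqrt D / 2 := by
    have h1 : 2 * (z : ℝ) ≤ Real.sqrt D := Real.le_sqrt_of_sq_le (by nlinarith)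
    linarith
  have hh : 8 * C + 8 ≤ Real.log (D / (z : ℝ) ^ 2) := by
    have h1 : 0 < D / (z : ℝ) ^ 2 := by positivity
    rw [Real.le_log_iff_exp_le h1, le_div_iff₀ (by positivity)]
    exact (mul_le_mul_of_nonneg_right (le_max_right _ _) (by positivity)).trans hz1
  rw [E_formula hz2 (by linarith) hz4]
  -- the primes below half the square root
  set S := (Finset.Ico ⌈(z : ℝ)⌉₊ ⌈Real.sqrt D / 2⌉₊).filter Nat.Prime with hS
  have hmem : ∀ q ∈ S, q.Prime ∧ z ≤ q ∧ (q : ℝ) < Real.sqrt D / 2 := by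
    intro q hq
    rw [hS, Finset.mem_filter, Finset.mem_Ico, Nat.ceil_natCast] at hq
    exact ⟨hq.2, hq.1.1, Nat.lt_ceil.mp hq.1.2⟩
  have hsub : S ⊆ P z (⌊Real.sqrt D⌋₊ + 1) := by
    intro q hq
    obtain ⟨h1, h2, h3⟩ := hmem q hq
    unfold LS.P
    rw [Finset.mem_filter, Finset.mem_Ico]
    refine ⟨⟨h2, ?_⟩, h1⟩
    have h4 : q ≤ ⌊Real.sqrt D⌋₊ := Nat.le_floor (by linarith)
    omega
  have hP2 : ∀ q ∈ P z (⌊Real.sqrt D⌋₊ + 1), q ∈ P 2 (⌊Real.sqrt D⌋₊ + 1) := by
    intro q hq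
    unfold LS.P at hq ⊢
    rw [Finset.mem_filter, Finset.mem_Ico] at hq ⊢
    exact ⟨⟨by omega, hq.1.2⟩, hq.2⟩
  have h1 : ∑ q ∈ S, (pc (D / q) - pc q + 1) ≤
      ∑ q ∈ P z (⌊Real.sqrt D⌋₊ + 1), (pc (D / q) - pc q + 1) := by
    refine Finset.sum_le_sum_of_subset_of_nonneg hsub fun q hq _ => ?_
    have := term_pos hDpos.le (hP2 q hq)
    linarith
  have h2 : D / (2 * Real.log D) * ∑ q ∈ S, 1 / (q : ℝ) ≤ ∑ q ∈ S, (pc (D / q) - pc q + 1) := by
    rw [Finset.mul_sum]
    refine Finset.sum_le_sum fun q hq => ?_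
    obtain ⟨hq1, hq2, hq3⟩ := hmem q hq
    have hq0 : (0 : ℝ) < q := by exact_mod_cast hq1.pos
    have hq1' : (1 : ℝ) ≤ q := by exact_mod_cast hq1.one_lt.le
    have h3 : Real.sqrt D ≤ D / q := by
      rw [le_div_iff₀ hq0]
      nlinarith
    have h4 : (q : ℝ) ≤ D / q / 4 := by
      rw [div_div, le_div_iff₀ (by positivity)]
      nlinarith
    have h5 : y0 ≤ D / q := hy0s.trans h3
    have h6 := hdiff (D / q) h5
    have h7 : pc (q : ℝ) ≤ pc (D / q / 4) := M26_pc_mono h4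
    have h8 : 0 < Real.log (D / q) := Real.log_pos (by linarith)
    have h9 : Real.log (D / q) ≤ Real.log D := by
      apply Real.log_le_log (by positivity)
      exact div_le_self hDpos.le hq1'
    have h10 : D / q / (2 * Real.log D) ≤ D / q / (2 * Real.log (D / q)) :=
      div_le_div_of_nonneg_left (by positivity) (by positivity) (by linarith)
    have h11 : D / (2 * Real.log D) * (1 / (q : ℝ)) = D / q / (2 * Real.log D) := by
      field_simp
    rw [h11]
    linarith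
  -- Mertens
  have h3 := hC (z : ℝ) (Real.sqrt D / 2) hzR huv
  rw [← hS] at h3
  have hv : 0 < Real.sqrt D / 2 := by positivity
  have hlv : Real.log (Real.sqrt D / 2) = Real.log D / 2 - Real.log 2 := by
    rw [Real.log_div hsq.ne' (by norm_num), Real.log_sqrt hDpos.le]
  have hlh : Real.log (D / (z : ℝ) ^ 2) = Real.log D - 2 * Real.log z := by
    rw [Real.log_div hDpos.ne' (by positivity), Real.log_pow]
    norm_num
  have hl2 : Real.log 2 < 1 := by
    have := Real.log_two_lt_d9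
    linarith
  have hl2' : 0 < Real.log 2 := Real.log_pos (by norm_num)
  have hDz : Real.log D < 4 * Real.log z := by
    have h4 := Real.log_lt_log hDpos hz4
    rw [Real.log_pow] at h4
    norm_num at h4
    exact h4
  rw [hlh] at hh ⊢
  have hlvz : Real.log z ≤ Real.log (Real.sqrt D / 2) := Real.log_le_log hz0 huv
  have hlv0 : 0 < Real.log (Real.sqrt D / 2) := hlz.trans_le hlvz
  have h4 : (Real.log D - 2 * Real.log z) / 4 / Real.log z - 1 / Real.log z ≤
      Real.log (Real.log (Real.sqrt D / 2) / Real.log z) := by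
    have h5 := Real.one_sub_inv_le_log_of_pos
      (show 0 < Real.log (Real.sqrt D / 2) / Real.log z by positivity)
    refine le_trans ?_ h5
    rw [inv_div, ← sub_nonneg]
    have h6 : 1 - Real.log z / Real.log (Real.sqrt D / 2) -
        ((Real.log D - 2 * Real.log z) / 4 / Real.log z - 1 / Real.log z) =
        (4 * Real.log z * (Real.log (Real.sqrt D / 2) - Real.log z) -
          (Real.log D - 2 * Real.log z - 4) * Real.log (Real.sqrt D / 2)) /
          (4 * Real.log z * Real.log (Real.sqrt D / 2)) := by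
      field_simp
    rw [h6]
    apply div_nonneg _ (by positivity)
    rw [hlv]
    rw [hlv] at hlvz hlv0
    nlinarith
  have h5 : (Real.log D - 2 * Real.log z) / (4 * Real.log D) ≤ ∑ q ∈ S, 1 / (q : ℝ) := by
    refine le_trans ?_ h3
    have h6 : (Real.log D - 2 * Real.log z) / 8 / Real.log z ≤
        (Real.log D - 2 * Real.log z) / 4 / Real.log z - 1 / Real.log z - C / Real.log z := by
      rw [← sub_nonneg]
      have h7 : (Real.log D - 2 * Real.log z) / 4 / Real.log z - 1 / Real.log z - C / Real.log z -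
          (Real.log D - 2 * Real.log z) / 8 / Real.log z =
          ((Real.log D - 2 * Real.log z) / 8 - 1 - C) / Real.log z := by
        ring
      rw [h7]
      apply div_nonneg _ hlz.le
      linarith
    have h8 : (Real.log D - 2 * Real.log z) / (4 * Real.log D) ≤
        (Real.log D - 2 * Real.log z) / 8 / Real.log z := by
      rw [div_div]
      apply div_le_div_of_nonneg_left (by linarith) (by positivity)
      linarith
    linarith
  have h6 : D / (2 * Real.log D) * ((Real.log D - 2 * Real.log z) / (4 * Real.log D)) ≤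
      D / (2 * Real.log D) * ∑ q ∈ S, 1 / (q : ℝ) :=
    mul_le_mul_of_nonneg_left h5 (by positivity)
  have h7 : 1 / 8 * D * (Real.log D - 2 * Real.log z) / Real.log D ^ 2 =
      D / (2 * Real.log D) * ((Real.log D - 2 * Real.log z) / (4 * Real.log D)) := by
    field_simp
    ring
  rw [h7]
  linarith

end Pool.Agent.Lib.MP_45349e_nt.JG
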