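import Pool.Agent.Lib.MP_45349e_nt.JG.M25
import Pool.Agent.Lib.MP_45349e_nt.JG.M26

/-!
# JG-M27 (45 min): Theorem S, the sharp linear sieve

PROOF. `L = log n`. Case `z^4 > n`: `lower` and `EE_low` at `D = n` (`⌊n⌋ = n`): `Tc ≥ 2 c26 n log(n/z^2)/L^2 -
C12 n/L^2 ≥ c26 n log(n/z^2)/L^2` if `log H ≥ C12/c26` (`n/z^2 ≥ H`). Case `z^4 ≤ n`: `z' = ⌈n^(1/4)⌉ + 1 > z`,
`z'^4 > n`, `H z'^2 ≤ n`, `Tc n z c ≥ Tc n z' c ≥ c26 n log (n/z'^2)/L^2`, `z' ≤ 3 n^(1/4)`, `log (n/z'^2) ≥ L/2 - log 9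
≥ L/4 ≥ log (n/z^2)/4`. So `c1 = c26/4`.
-/

open Finset

namespace Pool.Agent.Lib.MP_45349e_nt.JG

open Pool.Agent.Lib.MP_45349e_nt.LS (P lam Lsum V)

/-- the statement of Theorem S -/
def ThmS : Prop := ∃ c1 H : ℝ, ∃ n0 : ℕ, 0 < c1 ∧ 1 ≤ H ∧ ∀ n z : ℕ, n0 ≤ n → 2 ≤ z →
    H * (z : ℝ) ^ 2 ≤ n → ∀ c : ℕ → ℤ,
    c1 * n * Real.log (n / (z : ℝ) ^ 2) / (Real.log n) ^ 2 ≤ Tc n z c

theorem thmS : ThmS := by
  obtain ⟨C12, D1, hC12, h1⟩ := lower
  obtain ⟨c26, H0, D2, hc26, hH0, h2⟩ := EE_low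
  obtain ⟨H, hHH, hH1, hHe⟩ : ∃ H : ℝ, H0 ≤ H ∧ 1 ≤ H ∧ Real.exp (C12 / c26) ≤ H :=
    ⟨max H0 (Real.exp (C12 / c26)), le_max_left _ _, hH0.trans (le_max_left _ _), le_max_right _ _⟩
  have hHpos : 0 < H := by linarith
  have hlH : C12 / c26 ≤ Real.log H := (Real.le_log_iff_exp_le hHpos).mpr hHe
  -- the first case
  have main : ∀ n z : ℕ, D1 ≤ n → D2 ≤ n → 3 ≤ n → 2 ≤ z → H * (z : ℝ) ^ 2 ≤ n →
      (n : ℝ) < (z : ℝ) ^ 4 → ∀ c : ℕ → ℤ,
      c26 * n * Real.log (n / (z : ℝ) ^ 2) / (Real.log n) ^ 2 ≤ Tc n z c := by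
    intro n z hn1 hn2 hn3 hz hzn hz4 c
    have hz2r : (2 : ℝ) ≤ z := by exact_mod_cast hz
    have hz20 : 0 < (z : ℝ) ^ 2 := by positivity
    have hn0 : (0 : ℝ) < n := by exact_mod_cast (by omega : 0 < n)
    have hl : C12 / c26 ≤ Real.log (n / (z : ℝ) ^ 2) := by
      refine hlH.trans (Real.log_le_log hHpos ?_)
      rw [le_div_iff₀ hz20]
      exact hzn
    have e1 := h1 n hn1 z (by nlinarith) hz4 c
    rw [Nat.floor_natCast] at e1
    have e2 := h2 n hn2 z (by nlinarith) hz4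
    have e3 : C12 * n / (Real.log n) ^ 2 ≤
        c26 * n * Real.log (n / (z : ℝ) ^ 2) / (Real.log n) ^ 2 := by
      refine div_le_div_of_nonneg_right ?_ (sq_nonneg _)
      rw [div_le_iff₀ hc26] at hl
      nlinarith
    linarith
  obtain ⟨n0, hn0⟩ : ∃ n0 : ℕ, max (max D1 D2) (max ((9 * H) ^ 2) (Real.exp 9)) ≤ n0 :=
    exists_nat_ge _
  refine ⟨c26 / 4, H, max n0 3, by positivity, hH1, fun n z hn hz hzn c => ?_⟩
  have hn1 : n0 ≤ n := (le_max_left _ _).trans hn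
  have hn3 : 3 ≤ n := (le_max_right _ _).trans hn
  have hnr : (n0 : ℝ) ≤ n := by exact_mod_cast hn1
  have a1 : D1 ≤ n := (((le_max_left _ _).trans (le_max_left _ _)).trans hn0).trans hnr
  have a2 : D2 ≤ n := (((le_max_right _ _).trans (le_max_left _ _)).trans hn0).trans hnr
  have a3 : (9 * H) ^ 2 ≤ n := (((le_max_left _ _).trans (le_max_right _ _)).trans hn0).trans hnr
  have a4 : Real.exp 9 ≤ n := (((le_max_right _ _).trans (le_max_right _ _)).trans hn0).trans hnr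
  have hnpos : (0 : ℝ) < n := (Real.exp_pos _).trans_le a4
  set L : ℝ := Real.log n with hL
  have hL9 : 9 ≤ L := (Real.le_log_iff_exp_le hnpos).mpr a4
  have hL0 : 0 < L := by linarith
  have hz2r : (2 : ℝ) ≤ z := by exact_mod_cast hz
  have hz20 : 0 < (z : ℝ) ^ 2 := by positivity
  have hl0 : 0 ≤ Real.log (n / (z : ℝ) ^ 2) := by
    refine Real.log_nonneg ?_
    rw [le_div_iff₀ hz20]
    nlinarith
  rcases lt_or_ge (n : ℝ) ((z : ℝ) ^ 4) with hz4 | hz4
  · have e1 := main n z a1 a2 hn3 hz hzn hz4 c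
    refine le_trans ?_ e1
    refine div_le_div_of_nonneg_right ?_ (sq_nonneg _)
    have : 0 ≤ c26 * n * Real.log (n / (z : ℝ) ^ 2) := by positivity
    nlinarith
  · -- small z
    set u : ℝ := (n : ℝ) ^ (1 / 4 : ℝ) with hu
    have hu0 : 0 < u := Real.rpow_pos_of_pos hnpos _
    have hu4 : u ^ 4 = n := by
      rw [hu, ← Real.rpow_natCast, ← Real.rpow_mul hnpos.le]
      norm_num
    have hu1 : 1 ≤ u := Real.one_le_rpow (by exact_mod_cast (by omega : 1 ≤ n)) (by norm_num)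
    have hzu : (z : ℝ) ≤ u := by
      by_contra hcon
      push Not at hcon
      have h3 := pow_lt_pow_left₀ hcon hu0.le (n := 4) (by norm_num)
      linarith
    set z' : ℕ := ⌈u⌉₊ + 1 with hz'
    have hz'1 : u + 1 ≤ (z' : ℝ) := by
      rw [hz']
      push_cast
      linarith [Nat.le_ceil u]
    have hz'2 : (z' : ℝ) ≤ 3 * u := by
      rw [hz']
      push_cast
      have := Nat.ceil_lt_add_one hu0.le
      linarith
    have hzz' : z ≤ z' := by
      have : (z : ℝ) ≤ z' := by linarith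
      exact_mod_cast this
    have hz'4 : (n : ℝ) < (z' : ℝ) ^ 4 := by
      rw [← hu4]
      exact pow_lt_pow_left₀ (by linarith) hu0.le (by norm_num)
    have hz'sq : (z' : ℝ) ^ 2 ≤ 9 * u ^ 2 := by
      have := pow_le_pow_left₀ (Nat.cast_nonneg z') hz'2 2
      calc (z' : ℝ) ^ 2 ≤ (3 * u) ^ 2 := this
        _ = 9 * u ^ 2 := by ring
    have hHu : 9 * H ≤ u ^ 2 := by
      by_contra hcon
      push Not at hcon
      have h3 := pow_lt_pow_left₀ hcon (by positivity) (n := 2) (by norm_num)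
      have h4 : (u ^ 2) ^ 2 = n := by rw [← hu4]; ring
      linarith
    have hz'n : H * (z' : ℝ) ^ 2 ≤ n := by
      have h3 : H * (z' : ℝ) ^ 2 ≤ H * (9 * u ^ 2) := mul_le_mul_of_nonneg_left hz'sq hHpos.le
      have h4 : (9 * H) * u ^ 2 ≤ u ^ 2 * u ^ 2 := mul_le_mul_of_nonneg_right hHu (by positivity)
      have h5 : u ^ 2 * u ^ 2 = n := by rw [← hu4]; ring
      linarith
    have e1 := main n z' a1 a2 hn3 (hz.trans hzz') hz'n hz'4 c
    have e2 : Tc n z' c ≤ Tc n z c := Tc_anti hzz' n c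
    have hz'0 : 0 < (z' : ℝ) ^ 2 := by
      have : 0 < (z' : ℝ) := by linarith
      positivity
    have e3 : L / 4 ≤ Real.log (n / (z' : ℝ) ^ 2) := by
      have h3 : u ^ 2 / 9 ≤ n / (z' : ℝ) ^ 2 := by
        rw [div_le_div_iff₀ (by norm_num) hz'0]
        have h5 : u ^ 2 * u ^ 2 = n := by rw [← hu4]; ring
        have h6 : u ^ 2 * (z' : ℝ) ^ 2 ≤ u ^ 2 * (9 * u ^ 2) :=
          mul_le_mul_of_nonneg_left hz'sq (by positivity)
        linarith
      have h4 : Real.log (u ^ 2 / 9) ≤ Real.log (n / (z' : ℝ) ^ 2) :=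
        Real.log_le_log (by positivity) h3
      rw [Real.log_div (by positivity) (by norm_num), Real.log_pow, hu, Real.log_rpow hnpos] at h4
      have h5 : Real.log 9 ≤ 9 / 4 := by
        have h6 : Real.log 9 = 2 * Real.log 3 := by
          rw [show (9 : ℝ) = 3 ^ 2 by norm_num, Real.log_pow]
          push_cast
          ring
        have h7 : Real.log 3 ≤ 9 / 8 := by
          rw [Real.log_le_iff_le_exp (by norm_num)]
          have h8 : (3 : ℝ) ^ 8 ≤ Real.exp 9 := by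
            have h9 : Real.exp 9 = Real.exp 1 ^ 9 := by
              rw [← Real.exp_nat_mul]
              norm_num
            rw [h9]
            have h10 : (2.7182818283 : ℝ) < Real.exp 1 := Real.exp_one_gt_d9
            calc (3 : ℝ) ^ 8 ≤ 2.7182818283 ^ 9 := by norm_num
              _ ≤ Real.exp 1 ^ 9 := pow_le_pow_left₀ (by norm_num) h10.le 9
          have h11 : Real.exp (9 / 8) ^ 8 = Real.exp 9 := by
            rw [← Real.exp_nat_mul]
            norm_num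
          by_contra hcon
          push Not at hcon
          have h12 := pow_lt_pow_left₀ hcon (Real.exp_pos _).le (n := 8) (by norm_num)
          linarith
        linarith
      push_cast at h4
      rw [← hL] at h4
      linarith
    refine le_trans ?_ (e1.trans e2)
    refine div_le_div_of_nonneg_right ?_ (sq_nonneg _)
    have h3 : Real.log (n / (z : ℝ) ^ 2) ≤ L := by
      refine Real.log_le_log (by positivity) ?_
      exact div_le_self hnpos.le (by nlinarith)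
    have h4 : c26 * n * (L / 4) ≤ c26 * n * Real.log (n / (z' : ℝ) ^ 2) :=
      mul_le_mul_of_nonneg_left e3 (by positivity)
    have h5 : c26 * n * Real.log (n / (z : ℝ) ^ 2) ≤ c26 * n * L :=
      mul_le_mul_of_nonneg_left h3 (by positivity)
    linarith

end Pool.Agent.Lib.MP_45349e_nt.JG
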