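import Pool.Agent.Lib.MP_45349e_nt.JG.DefsE

/-!
# JG-N02 (120 min): the convolution bound

`M` squarefree, `den M g = M / gcd(g, M)`. PROOF of `convW` by induction on the number of primes of `M`, for
all `R`, `x`. Write `A_M(x; R)` for the left side and `G_M(R) = ∑_{m ∣ M, m ≤ R} 1/φ(m)`, `q = den M x`; claim
`A_M(x; R) ≤ G_M(R) ∏_{p ∣ q} 3/(p-1)`. `M = p M'`, `p` prime to `M'`; `g ∈ range M` corresponds to `(u, g')`,
`u ∈ range p`, `g' ∈ range M'` by `g/M ≡ u/p + g'/M'` mod 1 (`g ≡ u M' + g' p mod M`); `den M g = (if u = 0 then 1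
else p) * den M' g'`, the correspondence is additive; let `x ↔ (v, x')`.
If `v = 0`: `A_M(x; R) = A_{M'}(x'; R) + (p-1) (1/(p-1)^2) A_{M'}(x'; R/p) ≤ [G_{M'}(R) + G_{M'}(R/p)/(p-1)] ∏ =
G_M(R) ∏`. If `v ≠ 0`: `u = 0`: `A_{M'}(x'; R)/(p-1)`; `u = v`: `A_{M'}(x'; R/p)/(p-1)`; the others:
`(p-2)/(p-1)^2 A_{M'}(x'; R/p)`; total `≤ [2/(p-1) + (p-2)/(p-1)^2] A_{M'}(x'; R) ≤ (3/(p-1)) G_{M'}(R) ∏'` and
`G_{M'}(R) ≤ G_M(R)`. (`A`, `G` are nondecreasing in `R`.) The index set can be changed at will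
(e.g. `ZMod M` with `ZMod.chineseRemainder`, or functions on the set of primes).
`den_sub`: `x = g - g'` mod `M`: `x/M` is a difference of fractions with denominators `den M g`,
`den M g'`, so `den M x` divides their product (`den M y ∣ d` iff `M ∣ d y`).
`sum_den`: the `g ∈ range M` with `den M g = q` are `b (M/q)`, `b ∈ rr q`; `(g/M) = b/q`.
-/

open Finset

namespace Pool.Agent.Lib.MP_45349e_nt.JG

open Pool.Agent.Lib.GT (e)

private theorem n02_den_pos {M g : ℕ} (hM : 0 < M) : 0 < den M g :=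
  Nat.div_pos (Nat.gcd_le_right _ hM) (Nat.gcd_pos_of_pos_right _ hM)

private theorem n02_den_dvd (M g : ℕ) : den M g ∣ M :=
  Nat.div_dvd_of_dvd (Nat.gcd_dvd_right g M)

private theorem n02_dvd_iff {M : ℕ} (hM : 0 < M) (y d : ℕ) : den M y ∣ d ↔ M ∣ d * y := by
  have h1 : den M y * Nat.gcd y M = M := Nat.div_mul_cancel (Nat.gcd_dvd_right y M)
  have h0 : 0 < Nat.gcd y M := Nat.gcd_pos_of_pos_right _ hM
  constructor
  · intro h
    calc M = den M y * Nat.gcd y M := h1.symm
      _ ∣ d * y := Nat.mul_dvd_mul h (Nat.gcd_dvd_left y M)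
  · intro h
    have h2 : M ∣ d * Nat.gcd y M := by
      rw [← Nat.gcd_mul_left]
      exact Nat.dvd_gcd h (Nat.dvd_mul_left M d)
    apply Nat.dvd_of_mul_dvd_mul_right h0
    rw [h1]
    exact h2

/-- the sum over the residues of a product of coprime moduli -/
private theorem n02_crt {p N : ℕ} (hp : 0 < p) (hN : 0 < N) (co : Nat.Coprime p N)
    (F : ℕ → ℕ → ℝ) :
    ∑ g ∈ Finset.range (p * N), F (g % p) (g % N) =
      ∑ a ∈ Finset.range p, ∑ b ∈ Finset.range N, F a b := by
  rw [← Finset.sum_product']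
  refine Finset.sum_nbij' (fun g => (g % p, g % N))
    (fun c => ((Nat.chineseRemainder co c.1 c.2 : ℕ))) ?_ ?_ ?_ ?_ ?_
  · intro g _
    rw [Finset.mem_product, Finset.mem_range, Finset.mem_range]
    exact ⟨Nat.mod_lt _ hp, Nat.mod_lt _ hN⟩
  · intro c _
    rw [Finset.mem_range]
    exact Nat.chineseRemainder_lt_mul co c.1 c.2 hp.ne' hN.ne'
  · intro g hg
    rw [Finset.mem_range] at hg
    have h1 := (Nat.chineseRemainder co (g % p) (g % N)).prop
    have h2 := Nat.chineseRemainder_lt_mul co (g % p) (g % N) hp.ne' hN.ne'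
    have h3 : (Nat.chineseRemainder co (g % p) (g % N) : ℕ) ≡ g [MOD p * N] := by
      rw [← Nat.modEq_and_modEq_iff_modEq_mul co]
      exact ⟨h1.1.trans (Nat.mod_modEq g p), h1.2.trans (Nat.mod_modEq g N)⟩
    exact Nat.ModEq.eq_of_lt_of_lt h3 h2 hg
  · intro c hc
    rw [Finset.mem_product, Finset.mem_range, Finset.mem_range] at hc
    have h1 := (Nat.chineseRemainder co c.1 c.2).prop
    have h2 : (Nat.chineseRemainder co c.1 c.2 : ℕ) % p = c.1 := by
      rw [h1.1, Nat.mod_eq_of_lt hc.1]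
    have h3 : (Nat.chineseRemainder co c.1 c.2 : ℕ) % N = c.2 := by
      rw [h1.2, Nat.mod_eq_of_lt hc.2]
    exact Prod.ext h2 h3
  · intro g _
    rfl

private theorem n02_gcd_mod (g N : ℕ) : Nat.gcd (g % N) N = Nat.gcd g N := by
  exact (Nat.gcd_rec N g).symm.trans (Nat.gcd_comm N g)

private theorem n02_den_mul {p N : ℕ} (hp : p.Prime) (_hN : 0 < N) (co : Nat.Coprime p N) (g : ℕ) :
    den (p * N) g = (if g % p = 0 then 1 else p) * den N (g % N) := by
  unfold den
  rw [n02_gcd_mod, Nat.Coprime.gcd_mul g co]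
  by_cases h : g % p = 0
  · rw [if_pos h, Nat.gcd_eq_right (Nat.dvd_of_mod_eq_zero h),
      Nat.mul_div_mul_left _ _ hp.pos, one_mul]
  · have h1 : Nat.gcd g p = 1 := by
      rw [Nat.gcd_comm]
      exact (Nat.Prime.coprime_iff_not_dvd hp).mpr fun hd => h (Nat.mod_eq_zero_of_dvd hd)
    rw [if_neg h, h1, one_mul, Nat.mul_div_assoc _ (Nat.gcd_dvd_right g N)]

private theorem n02_sub_mod {M n g x : ℕ} (hn : 0 < n) (hd : n ∣ M) (hx : x < M) :
    ((g + (M - x)) % M) % n = (g % n + (n - x % n)) % n := by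
  rw [Nat.mod_mod_of_dvd _ hd]
  obtain ⟨k, rfl⟩ := hd
  have hxn : x % n < n := Nat.mod_lt _ hn
  apply Nat.ModEq.add (Nat.mod_modEq g n).symm
  have h1 : (n * k - x) + x ≡ (n - x % n) + x % n [MOD n] := by
    rw [Nat.sub_add_cancel hx.le, Nat.sub_add_cancel hxn.le]
    exact (Nat.modEq_zero_iff_dvd.mpr (Nat.dvd_mul_right n k)).trans
      (Nat.modEq_zero_iff_dvd.mpr (Nat.dvd_refl n)).symm
  exact Nat.ModEq.add_right_cancel (Nat.mod_modEq x n).symm h1

/-- the left side of the convolution bound -/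
private noncomputable def n02A (M R x : ℕ) : ℝ :=
  ∑ g ∈ (Finset.range M).filter (fun g => den M g ≤ R),
      1 / ((Nat.totient (den M g) : ℝ) * (Nat.totient (den M ((g + (M - x)) % M)) : ℝ))

private noncomputable def n02G (M R : ℕ) : ℝ :=
  ∑ m ∈ M.divisors.filter (fun m => m ≤ R), 1 / (Nat.totient m : ℝ)

private theorem n02G_nonneg (M R : ℕ) : 0 ≤ n02G M R :=
  Finset.sum_nonneg fun _ _ => by positivity

private theorem n02G_mono (M : ℕ) {R R' : ℕ} (h : R ≤ R') : n02G M R ≤ n02G M R' := by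
  refine Finset.sum_le_sum_of_subset_of_nonneg ?_ fun _ _ _ => by positivity
  intro m hm
  rw [Finset.mem_filter] at hm ⊢
  exact ⟨hm.1, hm.2.trans h⟩

private theorem n02G_mul {p N : ℕ} (hp : p.Prime) (hN : 0 < N) (co : Nat.Coprime p N) (R : ℕ) :
    n02G (p * N) R = n02G N R + 1 / ((p : ℝ) - 1) * n02G N (R / p) := by
  have hpN : ¬ p ∣ N := (Nat.Prime.coprime_iff_not_dvd hp).mp co
  have hdis : Disjoint N.divisors (N.divisors.image (fun m => p * m)) := by
    rw [Finset.disjoint_left]
    intro m hm hm'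
    rw [Finset.mem_image] at hm'
    obtain ⟨a, _, rfl⟩ := hm'
    exact hpN ((Nat.dvd_mul_right p a).trans (Nat.dvd_of_mem_divisors hm))
  have hdiv : (p * N).divisors = N.divisors ∪ N.divisors.image (fun m => p * m) := by
    ext m
    rw [Finset.mem_union, Finset.mem_image, Nat.mem_divisors, Nat.mem_divisors]
    constructor
    · rintro ⟨h, _⟩
      by_cases hpm : p ∣ m
      · obtain ⟨a, rfl⟩ := hpm
        right
        exact ⟨a, Nat.mem_divisors.mpr ⟨Nat.dvd_of_mul_dvd_mul_left hp.pos h, hN.ne'⟩, rfl⟩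
      · left
        exact ⟨((Nat.Prime.coprime_iff_not_dvd hp).mpr hpm).symm.dvd_of_dvd_mul_left h, hN.ne'⟩
    · rintro (⟨h, _⟩ | ⟨a, ha, rfl⟩)
      · exact ⟨h.mul_left p, (Nat.mul_pos hp.pos hN).ne'⟩
      · exact ⟨Nat.mul_dvd_mul_left p (Nat.dvd_of_mem_divisors ha), (Nat.mul_pos hp.pos hN).ne'⟩
  unfold n02G
  rw [hdiv, Finset.filter_union, Finset.sum_union (Finset.disjoint_filter_filter hdis)]
  congr 1
  rw [Finset.filter_image, Finset.sum_image (fun a _ b _ h => Nat.eq_of_mul_eq_mul_left hp.pos h),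
    Finset.mul_sum]
  refine Finset.sum_congr ?_ ?_
  · ext a
    rw [Finset.mem_filter, Finset.mem_filter, Nat.le_div_iff_mul_le hp.pos, mul_comm a p]
  · intro a ha
    rw [Finset.mem_filter] at ha
    have hco : Nat.Coprime p a := co.coprime_dvd_right (Nat.dvd_of_mem_divisors ha.1)
    rw [Nat.totient_mul hco, Nat.totient_prime hp, Nat.cast_mul, Nat.cast_sub hp.one_lt.le,
      Nat.cast_one, one_div_mul_one_div]

/-- the weight of the residue `a` modulo `p` -/
private noncomputable def n02w (p v a : ℕ) : ℝ :=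
  1 / ((Nat.totient (if a = 0 then 1 else p) : ℝ) *
    (Nat.totient (if (a + (p - v)) % p = 0 then 1 else p) : ℝ))

private theorem n02A_mul {p N : ℕ} (hp : p.Prime) (hN : 0 < N) (co : Nat.Coprime p N) (R x : ℕ)
    (hx : x < p * N) :
    n02A (p * N) R x = ∑ a ∈ Finset.range p,
      n02w p (x % p) a * n02A N (R / (if a = 0 then 1 else p)) (x % N) := by
  have hlhs : n02A (p * N) R x = ∑ g ∈ Finset.range (p * N),
      (fun a b : ℕ => if (if a = 0 then 1 else p) * den N b ≤ R then
        n02w p (x % p) a * (1 / ((Nat.totient (den N b) : ℝ) *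
          (Nat.totient (den N ((b + (N - x % N)) % N)) : ℝ))) else 0) (g % p) (g % N) := by
    unfold n02A
    rw [Finset.sum_filter]
    refine Finset.sum_congr rfl fun g _ => ?_
    simp only
    rw [n02_den_mul hp hN co g]
    by_cases hc : (if g % p = 0 then 1 else p) * den N (g % N) ≤ R
    · rw [if_pos hc, if_pos hc, n02_den_mul hp hN co ((g + (p * N - x)) % (p * N)),
        n02_sub_mod hp.pos (Nat.dvd_mul_right p N) hx,
        n02_sub_mod hN (Nat.dvd_mul_left N p) hx]
      have hco : ∀ (c : Prop) [Decidable c] (b : ℕ),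
          Nat.Coprime (if c then 1 else p) (den N b) := by
        intro c _ b
        split_ifs
        · exact Nat.coprime_one_left _
        · exact co.coprime_dvd_right (n02_den_dvd N b)
      rw [Nat.totient_mul (hco _ _), Nat.totient_mul (hco _ _)]
      unfold n02w
      push_cast
      rw [one_div_mul_one_div]
      congr 1
      ring
    · rw [if_neg hc, if_neg hc]
  refine hlhs.trans ((n02_crt hp.pos hN co (fun a b : ℕ =>
    if (if a = 0 then 1 else p) * den N b ≤ R then
        n02w p (x % p) a * (1 / ((Nat.totient (den N b) : ℝ) *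
          (Nat.totient (den N ((b + (N - x % N)) % N)) : ℝ))) else 0)).trans ?_)
  refine Finset.sum_congr rfl fun a _ => ?_
  unfold n02A
  rw [Finset.sum_filter, Finset.mul_sum]
  refine Finset.sum_congr rfl fun b _ => ?_
  have h1 : 0 < (if a = 0 then 1 else p) := by
    split_ifs
    · exact Nat.one_pos
    · exact hp.pos
  have h2 : (if a = 0 then 1 else p) * den N b ≤ R ↔ den N b ≤ R / (if a = 0 then 1 else p) := by
    rw [Nat.le_div_iff_mul_le h1, mul_comm]
  by_cases hc : (if a = 0 then 1 else p) * den N b ≤ R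
  · rw [if_pos hc, if_pos (h2.mp hc)]
  · rw [if_neg hc, if_neg (fun h => hc (h2.mpr h)), mul_zero]

private theorem n02w_nonneg (p v a : ℕ) : 0 ≤ n02w p v a := by
  unfold n02w
  positivity

private theorem n02w_sum {p v : ℕ} (hp : p.Prime) (hv : v < p) (hv0 : v ≠ 0) :
    ∑ a ∈ Finset.range p, n02w p v a ≤ 3 / ((p : ℝ) - 1) := by
  have hp1 : (1 : ℝ) < p := by exact_mod_cast hp.one_lt
  have hp0 : (0 : ℝ) < (p : ℝ) - 1 := by linarith
  have htp : ((Nat.totient p : ℕ) : ℝ) = (p : ℝ) - 1 := by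
    rw [Nat.totient_prime hp, Nat.cast_sub hp.one_lt.le, Nat.cast_one]
  have h1 : ∀ a ∈ Finset.range p, n02w p v a ≤
      ((if a = 0 then 1 / ((p : ℝ) - 1) else 0) + (if a = v then 1 / ((p : ℝ) - 1) else 0)) +
        (if a = 0 then 0 else 1 / ((p : ℝ) - 1) ^ 2) := by
    intro a ha
    rw [Finset.mem_range] at ha
    unfold n02w
    by_cases ha0 : a = 0
    · subst ha0
      have h2 : (0 + (p - v)) % p ≠ 0 := by
        rw [zero_add, Nat.mod_eq_of_lt (by omega)]
        omega
      rw [if_pos rfl, if_neg h2, if_pos rfl, if_neg (Ne.symm hv0), if_pos rfl, htp,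
        Nat.totient_one, Nat.cast_one, one_mul, add_zero, add_zero]
    · by_cases hav : a = v
      · subst hav
        have h2 : (a + (p - a)) % p = 0 := by
          rw [Nat.add_sub_cancel' ha.le, Nat.mod_self]
        rw [if_neg ha0, if_pos h2, if_neg ha0, if_pos rfl, if_neg ha0, htp, Nat.totient_one,
          Nat.cast_one, mul_one, zero_add]
        have : 0 ≤ 1 / ((p : ℝ) - 1) ^ 2 := by positivity
        linarith
      · have h2 : (a + (p - v)) % p ≠ 0 := by
          intro h
          rcases Nat.lt_or_ge a v with hlt | hge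
          · rw [Nat.mod_eq_of_lt (by omega)] at h
            omega
          · have h3 : a + (p - v) = (a - v) + p := by omega
            rw [h3, Nat.add_mod_right, Nat.mod_eq_of_lt (by omega)] at h
            omega
        rw [if_neg ha0, if_neg h2, if_neg ha0, if_neg hav, if_neg ha0, htp, zero_add, zero_add,
          sq]
  refine (Finset.sum_le_sum h1).trans ?_
  rw [Finset.sum_add_distrib, Finset.sum_add_distrib, Finset.sum_ite_eq' , Finset.sum_ite_eq',
    if_pos (Finset.mem_range.mpr hp.pos), if_pos (Finset.mem_range.mpr hv)]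
  have h4 : ∑ a ∈ Finset.range p, (if a = 0 then (0 : ℝ) else 1 / ((p : ℝ) - 1) ^ 2) =
      1 / ((p : ℝ) - 1) := by
    obtain ⟨n, hn⟩ : ∃ n, p = n + 1 := ⟨p - 1, by have := hp.pos; omega⟩
    have hpn : (p : ℝ) - 1 = n := by
      rw [hn]
      push_cast
      ring
    rw [hpn] at hp0 ⊢
    rw [hn, Finset.sum_range_succ', if_pos rfl, add_zero]
    have h5 : ∀ a ∈ Finset.range n, (if a + 1 = 0 then (0 : ℝ) else 1 / (n : ℝ) ^ 2) =
        1 / (n : ℝ) ^ 2 := fun a _ => if_neg (Nat.succ_ne_zero a)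
    rw [Finset.sum_congr rfl h5, Finset.sum_const, Finset.card_range, nsmul_eq_mul]
    field_simp
  rw [h4]
  apply le_of_eq
  ring

private theorem n02_main (s : Finset ℕ) : (∀ p ∈ s, p.Prime) → ∀ R x : ℕ, x < ∏ p ∈ s, p →
    n02A (∏ p ∈ s, p) R x ≤ n02G (∏ p ∈ s, p) R * f3 (den (∏ p ∈ s, p) x) := by
  classical
  induction s using Finset.induction_on with
  | empty =>
    intro _ R x hx
    rw [Finset.prod_empty] at hx ⊢
    have hx0 : x = 0 := by omega
    subst hx0
    have hd : den 1 0 = 1 := rfl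
    have hf : f3 1 = 1 := by
      unfold f3
      simp
    unfold n02A n02G
    rw [hd, hf, mul_one, Finset.sum_filter, Finset.range_one, Finset.sum_singleton,
      Nat.divisors_one, Finset.sum_filter, Finset.sum_singleton]
    have hd2 : den 1 ((0 + (1 - 0)) % 1) = 1 := rfl
    rw [hd, hd2]
    split_ifs
    · rw [Nat.totient_one, Nat.cast_one, mul_one]
    · exact le_rfl
  | insert p s hps ih =>
    intro hpr R x hx
    have hp : p.Prime := hpr p (Finset.mem_insert_self p s)
    have hs : ∀ q ∈ s, q.Prime := fun q hq => hpr q (Finset.mem_insert_of_mem hq)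
    have hN : 0 < ∏ q ∈ s, q := Finset.prod_pos fun q hq => (hs q hq).pos
    have co : Nat.Coprime p (∏ q ∈ s, q) := by
      rw [Nat.coprime_prod_right_iff]
      intro q hq
      exact (Nat.coprime_primes hp (hs q hq)).mpr fun h => hps (h ▸ hq)
    rw [Finset.prod_insert hps] at hx ⊢
    have ih' := ih hs
    generalize (∏ q ∈ s, q) = N at hN co hx ih'
    have hxN : x % N < N := Nat.mod_lt _ hN
    have hp1 : (1 : ℝ) < p := by exact_mod_cast hp.one_lt
    have hp0 : (0 : ℝ) < (p : ℝ) - 1 := by linarith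
    have hf0 : 0 ≤ f3 (den N (x % N)) := by
      unfold f3
      positivity
    rw [n02A_mul hp hN co R x hx, n02G_mul hp hN co R, n02_den_mul hp hN co x]
    by_cases hv : x % p = 0
    · rw [if_pos hv, one_mul, hv]
      obtain ⟨n, hn⟩ : ∃ n, p = n + 1 := ⟨p - 1, by have := hp.pos; omega⟩
      have hpn : (p : ℝ) - 1 = n := by
        rw [hn]
        push_cast
        ring
      have hw0 : n02w p 0 0 = 1 := by
        unfold n02w
        rw [if_pos rfl, Nat.sub_zero, zero_add, Nat.mod_self, if_pos rfl, Nat.totient_one,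
          Nat.cast_one, mul_one, div_one]
      have hwa : ∀ a ∈ Finset.range n, n02w p 0 (a + 1) *
          n02A N (R / (if a + 1 = 0 then 1 else p)) (x % N) =
          1 / (n : ℝ) ^ 2 * n02A N (R / p) (x % N) := by
        intro a ha
        rw [Finset.mem_range] at ha
        have h2 : (a + 1 + (p - 0)) % p ≠ 0 := by
          rw [Nat.sub_zero, Nat.add_mod_right, Nat.mod_eq_of_lt (by omega)]
          omega
        unfold n02w
        rw [if_neg (Nat.succ_ne_zero a), if_neg h2, Nat.totient_prime hp,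
          Nat.cast_sub hp.one_lt.le, Nat.cast_one, hpn, sq]
      have hsum : ∑ a ∈ Finset.range p, n02w p 0 a *
          n02A N (R / (if a = 0 then 1 else p)) (x % N) =
          n02A N R (x % N) + 1 / ((p : ℝ) - 1) * n02A N (R / p) (x % N) := by
        have h3 : Finset.range p = Finset.range (n + 1) := by rw [← hn]
        rw [h3, Finset.sum_range_succ', Finset.sum_congr rfl hwa, hw0, if_pos rfl, Nat.div_one,
          one_mul, Finset.sum_const, Finset.card_range, nsmul_eq_mul, hpn, add_comm]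
        congr 1
        rw [hpn] at hp0
        field_simp
      rw [hsum, add_mul]
      refine add_le_add (ih' R (x % N) hxN) ?_
      rw [mul_assoc]
      exact mul_le_mul_of_nonneg_left (ih' (R / p) (x % N) hxN) (by positivity)
    · rw [if_neg hv]
      have hf3 : f3 (p * den N (x % N)) = 3 / ((p : ℝ) - 1) * f3 (den N (x % N)) := by
        have hco : Nat.Coprime p (den N (x % N)) := co.coprime_dvd_right (n02_den_dvd N _)
        have hd0 : den N (x % N) ≠ 0 := (n02_den_pos hN).ne'
        unfold f3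
        rw [Nat.totient_mul hco, Nat.Coprime.primeFactors_mul hco, Finset.card_union_of_disjoint
          hco.disjoint_primeFactors, hp.primeFactors, Finset.card_singleton, pow_add, pow_one,
          Nat.totient_prime hp, Nat.cast_mul, Nat.cast_sub hp.one_lt.le, Nat.cast_one,
          div_mul_div_comm]
      rw [hf3]
      have hA : ∀ a ∈ Finset.range p, n02w p (x % p) a *
          n02A N (R / (if a = 0 then 1 else p)) (x % N) ≤
          n02w p (x % p) a * (n02G N R * f3 (den N (x % N))) := by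
        intro a _
        refine mul_le_mul_of_nonneg_left ?_ (n02w_nonneg _ _ _)
        refine (ih' _ (x % N) hxN).trans (mul_le_mul_of_nonneg_right ?_ hf0)
        exact n02G_mono N (Nat.div_le_self _ _)
      refine (Finset.sum_le_sum hA).trans ?_
      rw [← Finset.sum_mul]
      have hw := n02w_sum hp (Nat.mod_lt x hp.pos) hv
      have hG : n02G N R ≤ n02G N R + 1 / ((p : ℝ) - 1) * n02G N (R / p) :=
        le_add_of_nonneg_right (mul_nonneg (by positivity) (n02G_nonneg _ _))
      have hG0 := n02G_nonneg N R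
      calc (∑ a ∈ Finset.range p, n02w p (x % p) a) * (n02G N R * f3 (den N (x % N)))
          ≤ 3 / ((p : ℝ) - 1) * (n02G N R * f3 (den N (x % N))) :=
            mul_le_mul_of_nonneg_right hw (mul_nonneg hG0 hf0)
        _ = n02G N R * (3 / ((p : ℝ) - 1) * f3 (den N (x % N))) := by ring
        _ ≤ (n02G N R + 1 / ((p : ℝ) - 1) * n02G N (R / p)) *
              (3 / ((p : ℝ) - 1) * f3 (den N (x % N))) :=
            mul_le_mul_of_nonneg_right hG (mul_nonneg (by positivity) hf0)

theorem convW {M : ℕ} (hM : Squarefree M) (R x : ℕ) (hx : x < M) :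
    ∑ g ∈ (Finset.range M).filter (fun g => den M g ≤ R),
      1 / ((Nat.totient (den M g) : ℝ) * (Nat.totient (den M ((g + (M - x)) % M)) : ℝ)) ≤
      (∑ m ∈ M.divisors.filter (fun m => m ≤ R), 1 / (Nat.totient m : ℝ)) * f3 (den M x) := by
  have h1 : ∏ p ∈ M.primeFactors, p = M := Nat.prod_primeFactors_of_squarefree hM
  have h2 := n02_main M.primeFactors (fun p hp => Nat.prime_of_mem_primeFactors hp) R x
    (by rw [h1]; exact hx)
  rw [h1] at h2
  exact h2

theorem den_sub {M g g' : ℕ} (hM : 0 < M) (hg : g < M) (hg' : g' < M) :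
    den M ((g + (M - g')) % M) ∣ den M g * den M g' := by
  rw [n02_dvd_iff hM]
  have h1 : M ∣ den M g * den M g' * g := by
    have h := (n02_dvd_iff hM g (den M g)).mp dvd_rfl
    rw [mul_assoc, mul_comm (den M g') g, ← mul_assoc]
    exact h.mul_right _
  have h2 : M ∣ den M g * den M g' * g' := by
    have h := (n02_dvd_iff hM g' (den M g')).mp dvd_rfl
    rw [mul_assoc]
    exact h.mul_left _
  have h3 : M ∣ den M g * den M g' * (g + (M - g')) := by
    rw [mul_add, Nat.mul_sub]
    exact dvd_add h1 (Nat.dvd_sub (Dvd.dvd.mul_left dvd_rfl _) h2)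
  have h4 : den M g * den M g' * (g + (M - g')) = den M g * den M g' * ((g + (M - g')) % M) +
      M * (den M g * den M g' * ((g + (M - g')) / M)) := by
    conv_lhs => rw [← Nat.mod_add_div (g + (M - g')) M]
    ring
  rw [h4] at h3
  exact (Nat.dvd_add_left (Nat.dvd_mul_right _ _)).mp h3

theorem sum_den {E : Type*} [AddCommMonoid E] {M : ℕ} (hM : 0 < M) (F : ℕ → ℝ → E) (R : ℕ) :
    ∑ g ∈ (Finset.range M).filter (fun g => den M g ≤ R), F (den M g) ((g : ℝ) / M) =
      ∑ q ∈ M.divisors.filter (fun q => q ≤ R), ∑ b ∈ rr q, F q ((b : ℝ) / q) := by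
  rw [Finset.sum_sigma']
  have hgp : ∀ g, 0 < Nat.gcd g M := fun g => Nat.gcd_pos_of_pos_right _ hM
  have h1 : ∀ g, den M g * Nat.gcd g M = M := fun g => Nat.div_mul_cancel (Nat.gcd_dvd_right g M)
  have h2 : ∀ g, g / Nat.gcd g M * Nat.gcd g M = g := fun g =>
    Nat.div_mul_cancel (Nat.gcd_dvd_left g M)
  have h3 : ∀ q b, q ∣ M → b.Coprime q → Nat.gcd (b * (M / q)) M = M / q := by
    intro q b hq hb
    have h4 : M = q * (M / q) := (Nat.mul_div_cancel' hq).symm
    conv_lhs => rw [h4]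
    rw [Nat.mul_div_cancel_left _ (Nat.pos_of_dvd_of_pos hq hM), Nat.gcd_mul_right, hb, one_mul]
  refine Finset.sum_nbij' (fun g => (⟨den M g, g / Nat.gcd g M⟩ : (_ : ℕ) × ℕ))
    (fun c => c.2 * (M / c.1)) ?_ ?_ ?_ ?_ ?_
  · intro g hg
    rw [Finset.mem_filter, Finset.mem_range] at hg
    rw [Finset.mem_sigma, Finset.mem_filter, Nat.mem_divisors, rr, Finset.mem_filter,
      Finset.mem_range]
    refine ⟨⟨⟨n02_den_dvd M g, hM.ne'⟩, hg.2⟩, ?_, Nat.coprime_div_gcd_div_gcd (hgp g)⟩
    apply Nat.lt_of_mul_lt_mul_right (a := Nat.gcd g M)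
    change g / Nat.gcd g M * Nat.gcd g M < den M g * Nat.gcd g M
    rw [h2, h1]
    exact hg.1
  · rintro ⟨q, b⟩ hc
    rw [Finset.mem_sigma, Finset.mem_filter, Nat.mem_divisors, rr, Finset.mem_filter,
      Finset.mem_range] at hc
    obtain ⟨⟨⟨hq, _⟩, hqR⟩, hb, hco⟩ := hc
    rw [Finset.mem_filter, Finset.mem_range]
    have hMq : 0 < M / q := Nat.div_pos (Nat.le_of_dvd hM hq) (Nat.pos_of_dvd_of_pos hq hM)
    constructor
    · calc b * (M / q) < q * (M / q) := Nat.mul_lt_mul_of_pos_right hb hMq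
        _ = M := Nat.mul_div_cancel' hq
    · unfold den
      rw [h3 q b hq hco, Nat.div_div_self hq hM.ne']
      exact hqR
  · intro g _
    change g / Nat.gcd g M * (M / den M g) = g
    have h5 : M / den M g = Nat.gcd g M := Nat.div_div_self (Nat.gcd_dvd_right g M) hM.ne'
    rw [h5, h2]
  · rintro ⟨q, b⟩ hc
    rw [Finset.mem_sigma, Finset.mem_filter, Nat.mem_divisors, rr, Finset.mem_filter,
      Finset.mem_range] at hc
    obtain ⟨⟨⟨hq, _⟩, hqR⟩, hb, hco⟩ := hc
    have hMq : 0 < M / q := Nat.div_pos (Nat.le_of_dvd hM hq) (Nat.pos_of_dvd_of_pos hq hM)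
    have h6 : den M (b * (M / q)) = q := by
      unfold den
      rw [h3 q b hq hco, Nat.div_div_self hq hM.ne']
    have h7 : b * (M / q) / Nat.gcd (b * (M / q)) M = b := by
      rw [h3 q b hq hco, Nat.mul_div_cancel _ hMq]
    simp only [h6, h7]
  · intro g _
    have h8 : (0 : ℝ) < (Nat.gcd g M : ℝ) := by exact_mod_cast hgp g
    have h9 : (g : ℝ) = ((g / Nat.gcd g M : ℕ) : ℝ) * (Nat.gcd g M : ℝ) := by
      exact_mod_cast (h2 g).symm
    have h10 : (M : ℝ) = ((den M g : ℕ) : ℝ) * (Nat.gcd g M : ℝ) := by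
      exact_mod_cast (h1 g).symm
    have h11 : (g : ℝ) / M = ((g / Nat.gcd g M : ℕ) : ℝ) / ((den M g : ℕ) : ℝ) := by
      rw [h9, h10, mul_div_mul_right _ _ h8.ne']
    rw [h11]

end Pool.Agent.Lib.MP_45349e_nt.JG
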