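import Pool.Agent.Lib.MP_45349e_nt.JG.DefsE

/-!
# JG-N03 (120 min): the dual sieve inequality

PROOF. Let `S = SQ Q R`, `G = GQ Q R > 0` (`1 ∈ S`), `a ∈ ℕ` with `a ≡ c q mod q` for all primes `q ∈ (Q, R]`
(CRT). `Lam(t) = (1/G) ∑_{m ∈ S} (μ(m)/φ(m)) ∑_{b' ∈ rr m} e(b' (t - a)/m)`. For `t ∈ A`: `gcd(t - a, m) = 1` for
all `m ∈ S`, the inner sum is `μ(m)` (`GT.ramanujan`, `Lib/MP_7b7e48_nt/GT/ExpTools.lean`), so `Lam(t) = 1`. So
the left side is `≤ ∑_{t ∈ [1, N], p ∣ t - b} |Lam(t) ∑_f d f e(t f)|^2`. Those `t` are `t = b0 + p j`, with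
`b0 ∈ (-p, 0]`, `b0 ≡ b mod p`, `j ∈ [1, N']`, `N' ≤ N/p + 1`. `Lam(t) ∑_f d f e(t f) = ∑_{i = (m, b', q, b)} β_i
e(j (p x_i))`, `x_i = b'/m + b/q`, `|β_i| = |d (q,b)|/(φ(m) G)`. SPACING: for different `i`, `i'` and every
integer `k`: `|p x_i - p x_i' - k| ≥ 1/(R Q)^2`: it is `h/(m m1 q q1)` with an integer `h`, and `h = 0` would give
`p (x_i - x_i') ∈ ℤ`; since `p` is prime to `m m1 q q1` (all prime factors are `≤ R < p`), `x_i - x_i' ∈ ℤ`;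
`x_i` is a reduced fraction with denominator `m q` (`(m, q) = 1`: the primes of `m` are `> Q ≥ q`), so `m q =
m1 q1`, `m = m1` and `q = q1` (parts with primes `> Q`, `≤ Q`), and `b' q + b m ≡ b1' q + b1 m mod m q` gives
`b' = b1'`, `b = b1`. BV `quad_form` with `δ = 1/(R Q)^2`: the sum over `j` is `≤ 6 (N' + R^2 Q^2) ∑ |β_i|^2`, and
`∑ |β_i|^2 = (∑_m φ(m)/(φ(m)^2 G^2)) ∑ |d f|^2 = (1/G) ∑ |d f|^2`.
`dual1` is the case `Q = 1`, `FQ 1 = {(1, 0)}`, `d = 1`.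
-/

open Finset

namespace Pool.Agent.Lib.MP_45349e_nt.JG

open Pool.Agent.Lib.GT (e)

private theorem n03_mem_SQ {Q R m : ℕ} : m ∈ SQ Q R ↔
    (1 ≤ m ∧ m ≤ R) ∧ Squarefree m ∧ ∀ q : ℕ, q.Prime → q ∣ m → Q < q := by
  classical
  unfold SQ
  rw [Finset.mem_filter, Finset.mem_Icc]

private theorem n03_mem_rr {m b : ℕ} : b ∈ rr m ↔ b < m ∧ b.Coprime m := by
  unfold rr
  rw [Finset.mem_filter, Finset.mem_range]

theorem GQ_pos {Q R : ℕ} (hR : 1 ≤ R) : 0 < GQ Q R := by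
  unfold GQ
  have h1 : (1 : ℕ) ∈ SQ Q R := by
    rw [n03_mem_SQ]
    refine ⟨⟨le_refl 1, hR⟩, squarefree_one, fun q hq h => ?_⟩
    exact absurd (Nat.dvd_one.mp h) hq.one_lt.ne'
  refine Finset.sum_pos' (fun m _ => by positivity) ⟨1, h1, ?_⟩
  rw [Nat.totient_one]
  norm_num

private theorem n03_cop {Q m q : ℕ} (hm : ∀ r : ℕ, r.Prime → r ∣ m → Q < r) (hq1 : 1 ≤ q)
    (hq : q ≤ Q) : m.Coprime q := by
  rw [Nat.coprime_iff_gcd_eq_one]
  by_contra h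
  obtain ⟨r, hr, hrd⟩ := Nat.exists_prime_and_dvd h
  have h1 := hm r hr (hrd.trans (Nat.gcd_dvd_left _ _))
  have h2 := Nat.le_of_dvd (by omega) (hrd.trans (Nat.gcd_dvd_right _ _))
  omega

private theorem n03_arith {Q R p m q m' q' b c b' c' : ℕ} (hQR : Q ≤ R) (hp : p.Prime)
    (hRp : R < p) (hm : m ∈ SQ Q R) (hm' : m' ∈ SQ Q R) (hb : b ∈ rr m) (hb' : b' ∈ rr m')
    (hq : q ∈ Finset.Icc 1 Q) (hq' : q' ∈ Finset.Icc 1 Q) (hc : c ∈ rr q) (hc' : c' ∈ rr q')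
    (k : ℤ) (h : (p : ℤ) * (b * q + c * m) * (m' * q') - p * (b' * q' + c' * m') * (m * q) -
      k * (m * q * (m' * q')) = 0) : m = m' ∧ b = b' ∧ q = q' ∧ c = c' := by
  rw [n03_mem_SQ] at hm hm'
  rw [n03_mem_rr] at hb hb' hc hc'
  rw [Finset.mem_Icc] at hq hq'
  obtain ⟨⟨hm1, hmR⟩, -, hmp⟩ := hm
  obtain ⟨⟨hm1', hmR'⟩, -, hmp'⟩ := hm'
  have cmq := n03_cop hmp hq.1 hq.2
  have cmq' := n03_cop hmp hq'.1 hq'.2
  have cm'q := n03_cop hmp' hq.1 hq.2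
  have cm'q' := n03_cop hmp' hq'.1 hq'.2
  -- `p` divides `k`
  have hpn : ∀ x : ℕ, 1 ≤ x → x ≤ R → ¬ (p : ℤ) ∣ (x : ℤ) := by
    intro x h1 h2 h3
    have h4 := Nat.le_of_dvd (by omega) (Int.natCast_dvd_natCast.mp h3)
    omega
  have hpi : Prime (p : ℤ) := Nat.prime_iff_prime_int.mp hp
  have hpk : (p : ℤ) ∣ k := by
    have h1 : (p : ℤ) ∣ k * (m * q * (m' * q')) := by
      refine ⟨(b * q + c * m) * (m' * q') - (b' * q' + c' * m') * (m * q), ?_⟩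
      linear_combination -h
    rcases hpi.dvd_or_dvd h1 with h2 | h2
    · exact h2
    · exfalso
      rcases hpi.dvd_or_dvd h2 with h3 | h3
      · rcases hpi.dvd_or_dvd h3 with h4 | h4
        · exact hpn m hm1 hmR h4
        · exact hpn q hq.1 (by omega) h4
      · rcases hpi.dvd_or_dvd h3 with h4 | h4
        · exact hpn m' hm1' hmR' h4
        · exact hpn q' hq'.1 (by omega) h4
  obtain ⟨l, rfl⟩ := hpk
  have hp0 : (p : ℤ) ≠ 0 := by exact_mod_cast hp.pos.ne'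
  have h2 : ((b : ℤ) * q + c * m) * (m' * q') - (b' * q' + c' * m') * (m * q) -
      l * (m * q * (m' * q')) = 0 := by
    apply mul_left_cancel₀ hp0
    linear_combination h
  -- coprimality
  have hA : ∀ {x y u v : ℕ}, u.Coprime x → v.Coprime y → x.Coprime y →
      IsCoprime ((u : ℤ) * y + v * x) ((x : ℤ) * y) := by
    intro x y u v hu hv hxy
    have e1 : IsCoprime (u : ℤ) (x : ℤ) := Nat.isCoprime_iff_coprime.mpr hu
    have e2 : IsCoprime (v : ℤ) (y : ℤ) := Nat.isCoprime_iff_coprime.mpr hv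
    have e3 : IsCoprime (x : ℤ) (y : ℤ) := Nat.isCoprime_iff_coprime.mpr hxy
    refine IsCoprime.mul_right ?_ ?_
    · have e4 : IsCoprime ((u : ℤ) * y) (x : ℤ) := IsCoprime.mul_left e1 e3.symm
      have e5 := IsCoprime.add_mul_right_left e4 (v : ℤ)
      exact e5
    · have e4 : IsCoprime ((v : ℤ) * x) (y : ℤ) := IsCoprime.mul_left e2 e3
      have e5 := IsCoprime.add_mul_right_left e4 (u : ℤ)
      rw [add_comm] at e5
      exact e5
  have d1 : (m : ℤ) * q ∣ (m' : ℤ) * q' := by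
    refine (hA hb.2 hc.2 cmq).symm.dvd_of_dvd_mul_left
      ⟨(b' * q' + c' * m') + l * (m' * q'), ?_⟩
    linear_combination h2
  have d2 : (m' : ℤ) * q' ∣ (m : ℤ) * q := by
    refine (hA hb'.2 hc'.2 cm'q').symm.dvd_of_dvd_mul_left
      ⟨(b * q + c * m) - l * (m * q), ?_⟩
    linear_combination -h2
  have d1' : m * q ∣ m' * q' := by exact_mod_cast d1
  have d2' : m' * q' ∣ m * q := by exact_mod_cast d2
  have hmm : m = m' := Nat.dvd_antisymm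
    (cmq'.dvd_of_dvd_mul_right ((Nat.dvd_mul_right m q).trans d1'))
    (cm'q.dvd_of_dvd_mul_right ((Nat.dvd_mul_right m' q').trans d2'))
  subst hmm
  have hqq : q = q' := by
    have h3 := Nat.dvd_antisymm d1' d2'
    exact Nat.eq_of_mul_eq_mul_left (by omega) h3
  subst hqq
  have hmq0 : ((m : ℤ) * q) ≠ 0 := by
    have h3 : (m : ℤ) ≠ 0 := by omega
    have h4 : (q : ℤ) ≠ 0 := by omega
    exact mul_ne_zero h3 h4
  have h3 : ((b : ℤ) - b') * q + (c - c') * m = l * (m * q) := by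
    apply mul_left_cancel₀ hmq0
    linear_combination h2
  have hbb : b = b' := by
    have e3 : IsCoprime (m : ℤ) (q : ℤ) := Nat.isCoprime_iff_coprime.mpr cmq
    have h4 : (m : ℤ) ∣ (b : ℤ) - b' := by
      refine e3.dvd_of_dvd_mul_right ⟨l * q - (c - c'), ?_⟩
      linear_combination h3
    have h5 := Int.eq_zero_of_abs_lt_dvd h4 (by
      rw [abs_lt]
      omega)
    omega
  subst hbb
  have h4 : ((c : ℤ) - c') = l * q := by
    have hm0 : (m : ℤ) ≠ 0 := by omega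
    apply mul_right_cancel₀ hm0
    linear_combination h3
  have h5 := Int.eq_zero_of_abs_lt_dvd (Dvd.intro_left l h4.symm) (by
    rw [abs_lt]
    omega)
  exact ⟨rfl, rfl, rfl, by omega⟩

private theorem n03_spacing {Q R p m q m' q' b c b' c' : ℕ} (hQR : Q ≤ R) (hp : p.Prime)
    (hRp : R < p) (hm : m ∈ SQ Q R) (hm' : m' ∈ SQ Q R) (hb : b ∈ rr m) (hb' : b' ∈ rr m')
    (hq : q ∈ Finset.Icc 1 Q) (hq' : q' ∈ Finset.Icc 1 Q) (hc : c ∈ rr q) (hc' : c' ∈ rr q')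
    (hne : ¬ (m = m' ∧ b = b' ∧ q = q' ∧ c = c')) (k : ℤ) :
    1 / ((R : ℝ) * Q) ^ 2 ≤
      |(p : ℝ) * ((b : ℝ) / m + (c : ℝ) / q) - p * ((b' : ℝ) / m' + (c' : ℝ) / q') - k| := by
  have e1 := (n03_mem_SQ.mp hm).1
  have e2 := (n03_mem_SQ.mp hm').1
  have e3 := Finset.mem_Icc.mp hq
  have e4 := Finset.mem_Icc.mp hq'
  obtain ⟨h, hh⟩ : ∃ h : ℤ, h = (p : ℤ) * (b * q + c * m) * (m' * q') -
      p * (b' * q' + c' * m') * (m * q) - k * (m * q * (m' * q')) := ⟨_, rfl⟩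
  have hh0 : h ≠ 0 := by
    intro h0
    exact hne (n03_arith hQR hp hRp hm hm' hb hb' hq hq' hc hc' k (by rw [← hh, h0]))
  have hm0 : (0 : ℝ) < m := by exact_mod_cast e1.1
  have hm0' : (0 : ℝ) < m' := by exact_mod_cast e2.1
  have hq0 : (0 : ℝ) < q := by exact_mod_cast e3.1
  have hq0' : (0 : ℝ) < q' := by exact_mod_cast e4.1
  have hR : (m : ℝ) ≤ R := by exact_mod_cast e1.2
  have hR' : (m' : ℝ) ≤ R := by exact_mod_cast e2.2
  have hQ : (q : ℝ) ≤ Q := by exact_mod_cast e3.2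
  have hQ' : (q' : ℝ) ≤ Q := by exact_mod_cast e4.2
  have heq : (p : ℝ) * ((b : ℝ) / m + (c : ℝ) / q) - p * ((b' : ℝ) / m' + (c' : ℝ) / q') - k =
      (h : ℝ) / (m * q * (m' * q')) := by
    rw [hh]
    push_cast
    field_simp
  rw [heq, abs_div, abs_of_pos (by positivity : (0 : ℝ) < m * q * (m' * q'))]
  have h1 : (1 : ℝ) ≤ |(h : ℝ)| := by
    have h2 := Int.one_le_abs hh0
    exact_mod_cast h2
  refine div_le_div₀ (abs_nonneg _) h1 (by positivity) ?_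
  calc (m : ℝ) * q * (m' * q') ≤ (R * Q) * (R * Q) :=
        mul_le_mul (mul_le_mul hR hQ hq0.le (hm0.le.trans hR))
          (mul_le_mul hR' hQ' hq0'.le (hm0.le.trans hR)) (by positivity)
          (mul_nonneg (hm0.le.trans hR) (hq0.le.trans hQ))
    _ = ((R : ℝ) * Q) ^ 2 := by ring

private theorem n03_crt (Q R : ℕ) (c : ℕ → ℤ) :
    ∃ a : ℤ, ∀ q : ℕ, q.Prime → Q < q → q ≤ R → (q : ℤ) ∣ a - c q := by
  classical
  set T := (Finset.Icc 1 R).filter Nat.Prime with hT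
  have hTp : ∀ r ∈ T, r.Prime := fun r hr => (Finset.mem_filter.mp hr).2
  obtain ⟨N, hN⟩ := Nat.chineseRemainderOfFinset (fun q => (c q % q).toNat) (fun r => r) T
    (fun r hr => (hTp r hr).ne_zero) (by
      intro p hp q hq hpq
      exact (Nat.coprime_primes (hTp p hp) (hTp q hq)).mpr hpq)
  refine ⟨N, fun q hq _ hqR => ?_⟩
  have h1 := hN q (Finset.mem_filter.mpr ⟨Finset.mem_Icc.mpr ⟨hq.one_le, hqR⟩, hq⟩)
  have h2 : (q : ℤ) ∣ ((c q % q).toNat : ℤ) - N := (Nat.modEq_iff_dvd).mp h1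
  have hq0 : (q : ℤ) ≠ 0 := by exact_mod_cast hq.ne_zero
  rw [Int.toNat_of_nonneg (Int.emod_nonneg _ hq0)] at h2
  have h3 : (q : ℤ) ∣ c q - c q % q := Int.dvd_self_sub_emod
  have h4 := (h2.add h3).neg_right
  have h5 : -(c q % q - N + (c q - c q % q)) = N - c q := by ring
  rw [h5] at h4
  exact h4

private theorem n03_card (m : ℕ) : (rr m).card = Nat.totient m := by
  unfold rr Nat.totient
  congr 1
  ext b
  simp only [Finset.mem_filter, Nat.coprime_comm]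

private theorem n03_lam {Q R : ℕ} (hR : 1 ≤ R) (n : ℤ)
    (hn : ∀ q : ℕ, q.Prime → Q < q → q ≤ R → ¬ (q : ℤ) ∣ n) :
    ∑ i ∈ (SQ Q R).sigma rr, (((ArithmeticFunction.moebius i.1 : ℤ) : ℂ) /
      ((Nat.totient i.1 : ℂ) * (GQ Q R : ℂ))) * e ((n : ℝ) / i.1 * i.2) = 1 := by
  have hG := GQ_pos (Q := Q) hR
  have hG' : (GQ Q R : ℂ) ≠ 0 := by exact_mod_cast hG.ne'
  rw [Finset.sum_sigma]
  have h1 : ∀ m ∈ SQ Q R, ∑ b ∈ rr m, (((ArithmeticFunction.moebius m : ℤ) : ℂ) /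
      ((Nat.totient m : ℂ) * (GQ Q R : ℂ))) * e ((n : ℝ) / m * b) =
      (1 / (Nat.totient m : ℂ)) / (GQ Q R : ℂ) := by
    intro m hm
    obtain ⟨⟨hm1, hmR⟩, hsq, hmp⟩ := n03_mem_SQ.mp hm
    have hcop : IsCoprime n (m : ℤ) := by
      rw [Int.isCoprime_iff_gcd_eq_one]
      by_contra hcon
      obtain ⟨r, hr, hrd⟩ := Nat.exists_prime_and_dvd hcon
      have h2 : (r : ℤ) ∣ n := (Int.natCast_dvd_natCast.mpr hrd).trans (Int.gcd_dvd_left _ _)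
      have h3 : (r : ℤ) ∣ (m : ℤ) :=
        (Int.natCast_dvd_natCast.mpr hrd).trans (Int.gcd_dvd_right _ _)
      have h4 : r ∣ m := Int.natCast_dvd_natCast.mp h3
      exact hn r hr (hmp r hr h4) ((Nat.le_of_dvd hm1 h4).trans hmR) h2
    rw [← Finset.mul_sum]
    have h2 : ∑ b ∈ rr m, e ((n : ℝ) / m * b) = ((ArithmeticFunction.moebius m : ℤ) : ℂ) :=
      Pool.Agent.Lib.GT.RE.ramanujan m hm1 n hcop
    rw [h2]
    have h3 : ((ArithmeticFunction.moebius m : ℤ) : ℂ) * ((ArithmeticFunction.moebius m : ℤ) : ℂ) = 1 := by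
      have h4 : (ArithmeticFunction.moebius m : ℤ) * ArithmeticFunction.moebius m = 1 := by
        have h5 := ArithmeticFunction.moebius_sq_eq_one_of_squarefree hsq
        rw [← h5]
        ring
      exact_mod_cast h4
    have hφ : (Nat.totient m : ℂ) ≠ 0 := by
      have := Nat.totient_pos.mpr hm1
      exact_mod_cast this.ne'
    rw [div_mul_eq_mul_div, h3]
    field_simp
  refine (Finset.sum_congr rfl h1).trans ?_
  rw [← Finset.sum_div]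
  have h3 : ∑ m ∈ SQ Q R, 1 / (Nat.totient m : ℂ) = (GQ Q R : ℂ) := by
    unfold GQ
    push_cast
    rfl
  rw [h3, div_self hG']

theorem dual {N Q R p : ℕ} (hQ : 1 ≤ Q) (hQR : Q ≤ R) (hp : p.Prime) (hRp : R < p) (b : ℤ)
    (c : ℕ → ℤ) (A : Finset ℕ) (hA : A ⊆ Finset.Icc 1 N) (hAb : ∀ t ∈ A, (p : ℤ) ∣ (t : ℤ) - b)
    (hAc : ∀ t ∈ A, ∀ q : ℕ, q.Prime → Q < q → q ≤ R → ¬ (q : ℤ) ∣ (t : ℤ) - c q)
    (d : ((_ : ℕ) × ℕ) → ℂ) :
    ∑ t ∈ A, ‖∑ f ∈ FQ Q, d f * e ((t : ℝ) * ((f.2 : ℝ) / f.1))‖ ^ 2 ≤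
      6 / GQ Q R * ((N : ℝ) / p + 2 + (R : ℝ) ^ 2 * (Q : ℝ) ^ 2) * ∑ f ∈ FQ Q, ‖d f‖ ^ 2 := by
  classical
  have hR : 1 ≤ R := hQ.trans hQR
  have hG := GQ_pos (Q := Q) hR
  obtain ⟨a, ha⟩ := n03_crt Q R c
  obtain ⟨b0, hb0⟩ : ∃ b0 : ℤ, b0 = -((-b) % p) := ⟨_, rfl⟩
  have hpp : (0 : ℤ) < p := by exact_mod_cast hp.pos
  have hb0l : -(p : ℤ) < b0 := by
    have := Int.emod_lt_of_pos (-b) hpp
    omega
  have hb0u : b0 ≤ 0 := by
    have := Int.emod_nonneg (-b) hpp.ne'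
    omega
  have hb0d : (p : ℤ) ∣ b - b0 := by
    have h1 : (p : ℤ) ∣ -b - (-b) % p := Int.dvd_self_sub_emod
    have h2 : b - b0 = -(-b - (-b) % p) := by
      rw [hb0]
      ring
    rw [h2]
    exact h1.neg_right
  -- the index `j`
  have hj : ∀ t ∈ A, ∃ j : ℕ, j ∈ Finset.Icc 1 (N / p + 1) ∧ (t : ℤ) = b0 + p * j := by
    intro t ht
    have ht1 := Finset.mem_Icc.mp (hA ht)
    have h1 : (p : ℤ) ∣ (t : ℤ) - b0 := by
      have h2 := (hAb t ht).add hb0d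
      have h3 : (t : ℤ) - b + (b - b0) = t - b0 := by ring
      rwa [h3] at h2
    obtain ⟨j, hj⟩ := h1
    have hj1 : 0 < j := by
      by_contra hcon
      push Not at hcon
      have h2 : (p : ℤ) * j ≤ 0 := mul_nonpos_of_nonneg_of_nonpos hpp.le hcon
      omega
    obtain ⟨j', rfl⟩ := Int.eq_ofNat_of_zero_le hj1.le
    refine ⟨j', Finset.mem_Icc.mpr ⟨by omega, ?_⟩, by linarith⟩
    have h2 : (j' - 1) * p ≤ N := by
      have h3 : ((j' : ℤ) - 1) * p ≤ N := by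
        have h4 : ((j' : ℤ) - 1) * p = p * j' - p := by ring
        rw [h4]
        have h5 : (t : ℤ) ≤ N := by exact_mod_cast ht1.2
        have h6 : (p : ℤ) * (j' : ℕ) = (p : ℤ) * ((j' : ℕ) : ℤ) := rfl
        omega
      have h4 : ((j' - 1 : ℕ) : ℤ) = (j' : ℤ) - 1 := by
        have : 1 ≤ j' := by omega
        push_cast [this]
        ring
      rw [← h4] at h3
      exact_mod_cast h3
    have h3 := (Nat.le_div_iff_mul_le hp.pos).mpr h2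
    omega
  choose! J hJm hJe using hj
  -- the coefficients
  let s : Finset (((_ : ℕ) × ℕ) × ((_ : ℕ) × ℕ)) := (SQ Q R).sigma rr ×ˢ FQ Q
  let x : (((_ : ℕ) × ℕ) × ((_ : ℕ) × ℕ)) → ℝ := fun i =>
    (i.1.2 : ℝ) / i.1.1 + (i.2.2 : ℝ) / i.2.1
  let w : ((_ : ℕ) × ℕ) → ℂ := fun i => ((ArithmeticFunction.moebius i.1 : ℤ) : ℂ) /
      ((Nat.totient i.1 : ℂ) * (GQ Q R : ℂ))
  let β : (((_ : ℕ) × ℕ) × ((_ : ℕ) × ℕ)) → ℂ := fun i =>
    w i.1 * e (-((a : ℝ) / i.1.1 * i.1.2)) * e ((b0 : ℝ) * x i) * d i.2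
  have key : ∀ t ∈ A, ∑ f ∈ FQ Q, d f * e ((t : ℝ) * ((f.2 : ℝ) / f.1)) =
      ∑ i ∈ s, β i * e (((J t : ℕ) : ℝ) * ((p : ℝ) * x i)) := by
    intro t ht
    have h1 := n03_lam (Q := Q) hR ((t : ℤ) - a) (by
      intro q hq hqQ hqR hd
      refine hAc t ht q hq hqQ hqR ?_
      have h2 := hd.add (ha q hq hqQ hqR)
      have h3 : (t : ℤ) - a + (a - c q) = t - c q := by ring
      rwa [h3] at h2)
    have hte : (t : ℝ) = (b0 : ℝ) + p * (J t : ℕ) := by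
      have h2 := hJe t ht
      have h3 : ((t : ℤ) : ℝ) = ((b0 + p * (J t : ℕ) : ℤ) : ℝ) := by rw [h2]
      push_cast at h3
      exact h3
    calc ∑ f ∈ FQ Q, d f * e ((t : ℝ) * ((f.2 : ℝ) / f.1)) =
          (∑ i ∈ (SQ Q R).sigma rr, w i * e ((((t : ℤ) - a : ℤ) : ℝ) / i.1 * i.2)) *
            ∑ f ∈ FQ Q, d f * e ((t : ℝ) * ((f.2 : ℝ) / f.1)) := by
          rw [h1, one_mul]
      _ = ∑ i ∈ s, (w i.1 * e ((((t : ℤ) - a : ℤ) : ℝ) / i.1.1 * i.1.2)) *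
            (d i.2 * e ((t : ℝ) * ((i.2.2 : ℝ) / i.2.1))) := by
          rw [Finset.sum_mul_sum, ← Finset.sum_product']
      _ = _ := by
          refine Finset.sum_congr rfl fun i _ => ?_
          have h2 : e ((((t : ℤ) - a : ℤ) : ℝ) / i.1.1 * i.1.2) *
              e ((t : ℝ) * ((i.2.2 : ℝ) / i.2.1)) =
              e (-((a : ℝ) / i.1.1 * i.1.2)) * e ((b0 : ℝ) * x i) *
                e (((J t : ℕ) : ℝ) * ((p : ℝ) * x i)) := by
            rw [← Pool.Agent.Lib.GT.e_add, ← Pool.Agent.Lib.GT.e_add,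
              ← Pool.Agent.Lib.GT.e_add]
            congr 1
            push_cast
            rw [hte]
            simp only [x]
            ring
          calc (w i.1 * e ((((t : ℤ) - a : ℤ) : ℝ) / i.1.1 * i.1.2)) *
                (d i.2 * e ((t : ℝ) * ((i.2.2 : ℝ) / i.2.1))) =
                w i.1 * d i.2 * (e ((((t : ℤ) - a : ℤ) : ℝ) / i.1.1 * i.1.2) *
                  e ((t : ℝ) * ((i.2.2 : ℝ) / i.2.1))) := by ring
            _ = _ := by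
                rw [h2]
                simp only [β]
                ring
  have hJinj : Set.InjOn J (A : Set ℕ) := by
    intro t ht t' ht' h
    have h1 := hJe t ht
    have h2 := hJe t' ht'
    rw [h] at h1
    omega
  have hstep1 : ∑ t ∈ A, ‖∑ f ∈ FQ Q, d f * e ((t : ℝ) * ((f.2 : ℝ) / f.1))‖ ^ 2 ≤
      ∑ j ∈ Finset.Icc 1 (N / p + 1), ‖∑ i ∈ s, β i * e ((j : ℝ) * ((p : ℝ) * x i))‖ ^ 2 := by
    calc ∑ t ∈ A, ‖∑ f ∈ FQ Q, d f * e ((t : ℝ) * ((f.2 : ℝ) / f.1))‖ ^ 2 =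
          ∑ t ∈ A, ‖∑ i ∈ s, β i * e (((J t : ℕ) : ℝ) * ((p : ℝ) * x i))‖ ^ 2 :=
          Finset.sum_congr rfl fun t ht => by rw [key t ht]
      _ = ∑ j ∈ A.image J, ‖∑ i ∈ s, β i * e ((j : ℝ) * ((p : ℝ) * x i))‖ ^ 2 :=
          (Finset.sum_image (f := fun j : ℕ =>
            ‖∑ i ∈ s, β i * e ((j : ℝ) * ((p : ℝ) * x i))‖ ^ 2) hJinj).symm
      _ ≤ _ := by
          refine Finset.sum_le_sum_of_subset_of_nonneg ?_ fun _ _ _ => by positivity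
          intro j hj
          obtain ⟨t, ht, rfl⟩ := Finset.mem_image.mp hj
          exact hJm t ht
  have hRQ : (0 : ℝ) < (R : ℝ) * Q := by
    have h1 : (0 : ℝ) < R := by exact_mod_cast hR
    have h2 : (0 : ℝ) < Q := by exact_mod_cast hQ
    exact mul_pos h1 h2
  have hquad := Pool.Agent.Lib.BV.quad_form s (fun i => (p : ℝ) * x i) (1 / ((R : ℝ) * Q) ^ 2)
    (by positivity) (by
      intro i hi i' hi' hne k
      rw [Finset.mem_product, Finset.mem_sigma] at hi hi'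
      obtain ⟨⟨hm, hb⟩, hf⟩ := hi
      obtain ⟨⟨hm', hb'⟩, hf'⟩ := hi'
      unfold FQ at hf hf'
      rw [Finset.mem_sigma] at hf hf'
      refine n03_spacing hQR hp hRp hm hm' hb hb' hf.1 hf'.1 hf.2 hf'.2 ?_ k
      rintro ⟨h1, h2, h3, h4⟩
      apply hne
      obtain ⟨⟨m, b1⟩, ⟨q, c1⟩⟩ := i
      obtain ⟨⟨m', b1'⟩, ⟨q', c1'⟩⟩ := i'
      simp only at h1 h2 h3 h4
      rw [h1, h2, h3, h4]) (N / p + 1) β
  have hβ : ∑ i ∈ s, ‖β i‖ ^ 2 ≤ 1 / GQ Q R * ∑ f ∈ FQ Q, ‖d f‖ ^ 2 := by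
    have h1 : ∀ i ∈ s, ‖β i‖ ^ 2 ≤ (1 / ((Nat.totient i.1.1 : ℝ) * GQ Q R)) ^ 2 * ‖d i.2‖ ^ 2 := by
      intro i _
      simp only [β, w]
      rw [norm_mul, norm_mul, norm_mul, Pool.Agent.Lib.GT.norm_e, Pool.Agent.Lib.GT.norm_e,
        mul_one, mul_one, mul_pow]
      refine mul_le_mul_of_nonneg_right ?_ (by positivity)
      refine pow_le_pow_left₀ (norm_nonneg _) ?_ 2
      rw [norm_div, norm_mul, Complex.norm_natCast, Complex.norm_real, Real.norm_eq_abs,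
        abs_of_pos hG]
      refine div_le_div_of_nonneg_right ?_ (by positivity)
      rw [Complex.norm_intCast]
      exact_mod_cast ArithmeticFunction.abs_moebius_le_one
    refine (Finset.sum_le_sum h1).trans ?_
    rw [Finset.sum_product]
    simp only [← Finset.mul_sum]
    rw [← Finset.sum_mul]
    refine mul_le_mul_of_nonneg_right ?_ (Finset.sum_nonneg fun _ _ => by positivity)
    rw [Finset.sum_sigma]
    have h2 : ∀ m ∈ SQ Q R, ∑ _b ∈ rr m, (1 / ((Nat.totient m : ℝ) * GQ Q R)) ^ 2 =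
        (1 / (Nat.totient m : ℝ)) * (1 / GQ Q R) ^ 2 := by
      intro m hm
      have hφ : (0 : ℝ) < (Nat.totient m : ℝ) := by
        have := Nat.totient_pos.mpr (n03_mem_SQ.mp hm).1.1
        exact_mod_cast this
      rw [Finset.sum_const, n03_card, nsmul_eq_mul]
      field_simp
    refine le_of_eq ((Finset.sum_congr rfl h2).trans ?_)
    rw [← Finset.sum_mul]
    have h3 : ∑ m ∈ SQ Q R, 1 / (Nat.totient m : ℝ) = GQ Q R := rfl
    rw [h3]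
    field_simp
  refine hstep1.trans (hquad.trans ?_)
  have hNp : (((N / p + 1 : ℕ) : ℕ) : ℝ) ≤ (N : ℝ) / p + 2 := by
    push_cast
    have := Nat.cast_div_le (α := ℝ) (m := N) (n := p)
    linarith
  have hone : 1 / (1 / ((R : ℝ) * Q) ^ 2) = (R : ℝ) ^ 2 * (Q : ℝ) ^ 2 := by
    rw [one_div_one_div, mul_pow]
  rw [hone]
  have hX : 6 * (((N / p + 1 : ℕ) : ℝ) + (R : ℝ) ^ 2 * (Q : ℝ) ^ 2) ≤
      6 * ((N : ℝ) / p + 2 + (R : ℝ) ^ 2 * (Q : ℝ) ^ 2) := by linarith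
  calc 6 * (((N / p + 1 : ℕ) : ℝ) + (R : ℝ) ^ 2 * (Q : ℝ) ^ 2) * ∑ i ∈ s, ‖β i‖ ^ 2 ≤
        6 * ((N : ℝ) / p + 2 + (R : ℝ) ^ 2 * (Q : ℝ) ^ 2) *
          (1 / GQ Q R * ∑ f ∈ FQ Q, ‖d f‖ ^ 2) :=
        mul_le_mul hX hβ (Finset.sum_nonneg fun _ _ => by positivity) (by positivity)
    _ = _ := by ring

theorem dual1 {N R p : ℕ} (hR : 1 ≤ R) (hp : p.Prime) (hRp : R < p) (b : ℤ)
    (c : ℕ → ℤ) (A : Finset ℕ) (hA : A ⊆ Finset.Icc 1 N) (hAb : ∀ t ∈ A, (p : ℤ) ∣ (t : ℤ) - b)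
    (hAc : ∀ t ∈ A, ∀ q : ℕ, q.Prime → q ≤ R → ¬ (q : ℤ) ∣ (t : ℤ) - c q) :
    (A.card : ℝ) ≤ 6 / GQ 1 R * ((N : ℝ) / p + 2 + (R : ℝ) ^ 2) := by
  have h1 := dual (Q := 1) (le_refl 1) hR hp hRp b c A hA hAb
    (fun t ht q hq _ hqR => hAc t ht q hq hqR) (fun _ => 1)
  have hF : FQ 1 = {⟨1, 0⟩} := by
    ext ⟨q, c1⟩
    unfold FQ
    rw [Finset.mem_sigma, Finset.mem_Icc, n03_mem_rr, Finset.mem_singleton]
    constructor
    · rintro ⟨⟨h2, h3⟩, h4, -⟩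
      have h5 : q = 1 := by
        simp only at h2 h3
        omega
      subst h5
      have h6 : c1 = 0 := by
        simp only at h4
        omega
      rw [h6]
    · intro h
      obtain ⟨rfl, h2⟩ := Sigma.mk.inj_iff.mp h
      have h3 : c1 = 0 := eq_of_heq h2
      subst h3
      exact ⟨⟨le_refl 1, le_refl 1⟩, Nat.one_pos, Nat.coprime_one_right 0⟩
  rw [hF] at h1
  simp only [Finset.sum_singleton, one_mul, Pool.Agent.Lib.GT.norm_e, norm_one, one_pow,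
    Finset.sum_const, nsmul_eq_mul, mul_one, Nat.cast_one, Finset.card_singleton] at h1
  exact h1

end Pool.Agent.Lib.MP_45349e_nt.JG
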