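import Pool.Agent.Lib.MP_45349e_nt.JG.DefsE
import Pool.Agent.Lib.Sieve.Mertens
import Pool.Agent.Lib.Sieve.Lower

/-!
# JG-N04 (75 min): lower bounds for `GQ`, bounds for `f3`

PROOF of `G1_low`: `∑_{m ≤ R sqfree} 1/φ(m) ≥ ∑_{n ≤ R} 1/n ≥ log R`: the kernel `m` of `n ≤ R` is `≤ R`,
`∑_{n : kernel m} 1/n = 1/φ(m)` (look into `Sieve/Selberg.lean` for an existing version).
`GQ_low`: `GQ 1 R ≤ (∏_{p ≤ Q} (1 - 1/p)⁻¹) GQ Q R`: each squarefree `m ≤ R` is `m1 m2`, `m1 ∣ ∏_{p ≤ Q} p`,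
`m2 ∈ SQ Q R`; `∑_{m1} 1/φ(m1) = ∏ (1 + 1/(p-1)) = ∏ (1 - 1/p)⁻¹ ≤ C log (2 Q)` (`Sieve.mertens_product_upper` for
`Q ≥ 2`, the product is 1 for `Q = 1`).
`f3_le`: `3^ω(q)/φ(q) ≤ C q^(-3/4)`: multiplicative on squarefree `q`: `3/(p-1) ≤ p^(-3/4)` for `p ≥ 1000`, and
for the finitely many smaller primes the product of `3 p^(3/4)/(p-1)` is a constant. (`f3 q = ∏_{p ∣ q} 3/(p-1)` for
squarefree `q`.)
-/

open Finset

namespace Pool.Agent.Lib.MP_45349e_nt.JG

private theorem n04_totient {m : ℕ} (hm : Squarefree m) :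
    (Nat.totient m : ℝ) = ∏ p ∈ m.primeFactors, ((p : ℝ) - 1) := by
  have hm0 : m ≠ 0 := hm.ne_zero
  have h1 : Nat.totient m = ∏ p ∈ m.primeFactors, (p - 1) := by
    have h2 := Nat.totient_mul_prod_primeFactors m
    have h3 : ∏ p ∈ m.primeFactors, p = m := Nat.prod_primeFactors_of_squarefree hm
    rw [h3, mul_comm] at h2
    exact Nat.eq_of_mul_eq_mul_left (Nat.pos_of_ne_zero hm0) h2
  rw [h1, Nat.cast_prod]
  refine Finset.prod_congr rfl fun p hp => ?_
  have := (Nat.prime_of_mem_primeFactors hp).one_lt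
  rw [Nat.cast_sub (by omega), Nat.cast_one]

private theorem n04_sqf (S : Finset ℕ) (hS : ∀ p ∈ S, p.Prime) : Squarefree (∏ p ∈ S, p) := by
  classical
  induction S using Finset.induction_on with
  | empty => simp
  | insert a S ha ih =>
    rw [Finset.prod_insert ha, Nat.squarefree_mul]
    · exact ⟨(hS a (Finset.mem_insert_self _ _)).prime.squarefree,
        ih fun p hp => hS p (Finset.mem_insert_of_mem hp)⟩
    · apply Nat.Coprime.prod_right
      intro p hp
      rw [Nat.coprime_primes (hS a (Finset.mem_insert_self _ _))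
        (hS p (Finset.mem_insert_of_mem hp))]
      rintro rfl
      exact ha hp

theorem G1_low {R : ℕ} (hR : 1 ≤ R) : Real.log R ≤ GQ 1 R := by
  classical
  have h1 : Real.log R ≤ ∑ m ∈ Finset.Icc 1 R, 1 / (m : ℝ) := by
    have h2 := log_add_one_le_harmonic R
    have h3 : ((harmonic R : ℚ) : ℝ) = ∑ m ∈ Finset.Icc 1 R, 1 / (m : ℝ) := by
      rw [harmonic_eq_sum_Icc]
      push_cast
      refine Finset.sum_congr rfl fun m _ => ?_
      rw [one_div]
    rw [h3] at h2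
    refine le_trans ?_ h2
    have hR0 : (0 : ℝ) < R := by exact_mod_cast hR
    exact Real.log_le_log hR0 (by push_cast; linarith)
  refine h1.trans ?_
  unfold GQ
  have hmaps : ∀ m ∈ Finset.Icc 1 R, (∏ p ∈ m.primeFactors, p) ∈ SQ 1 R := by
    intro m hm
    have hm1 := (Finset.mem_Icc.mp hm).1
    have hm2 := (Finset.mem_Icc.mp hm).2
    unfold SQ
    rw [Finset.mem_filter, Finset.mem_Icc]
    refine ⟨⟨?_, (Nat.le_of_dvd hm1 (Nat.prod_primeFactors_dvd m)).trans hm2⟩,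
      n04_sqf _ fun p hp => Nat.prime_of_mem_primeFactors hp, fun q hq _ => hq.one_lt⟩
    exact Nat.pos_of_ne_zero
      (Finset.prod_ne_zero_iff.mpr fun p hp => (Nat.prime_of_mem_primeFactors hp).ne_zero)
  rw [← Finset.sum_fiberwise_of_maps_to hmaps]
  refine Finset.sum_le_sum fun l hl => ?_
  have hl' : Squarefree l := (Finset.mem_filter.mp hl).2.1
  have h2 : ∑ m ∈ Finset.Icc 1 R with (∏ p ∈ m.primeFactors, p) = l, 1 / (m : ℝ)
      ≤ ∑ m ∈ Finset.Icc 1 R with m.primeFactors = l.primeFactors, 1 / (m : ℝ) := by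
    apply Finset.sum_le_sum_of_subset_of_nonneg
    · intro m hm
      have hm := Finset.mem_filter.mp hm
      refine Finset.mem_filter.mpr ⟨hm.1, ?_⟩
      rw [← hm.2, Nat.primeFactors_prod]
      intro p hp; exact Nat.prime_of_mem_primeFactors hp
    · intro _ _ _; positivity
  refine h2.trans ?_
  refine (Sieve.sum_primeFactors_eq_le (fun m : ℕ => 1 / (m : ℝ)) (fun n => by positivity)
    (by simp) (fun m n => by push_cast; rw [one_div_mul_one_div]) R l.primeFactors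
    (fun p hp => Nat.prime_of_mem_primeFactors hp) ?_).trans ?_
  · intro p hp
    have : (1 : ℝ) < p := by exact_mod_cast (Nat.prime_of_mem_primeFactors hp).one_lt
    rw [div_lt_one (by linarith)]
    exact this
  · apply le_of_eq
    rw [n04_totient hl', one_div, ← Finset.prod_inv_distrib]
    refine Finset.prod_congr rfl fun p hp => ?_
    have : (1 : ℝ) < p := by exact_mod_cast (Nat.prime_of_mem_primeFactors hp).one_lt
    have h3 : (p : ℝ) - 1 ≠ 0 := by linarith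
    have h4 : (p : ℝ) ≠ 0 := by linarith
    field_simp

private theorem n04_main (Q R : ℕ) : GQ 1 R ≤
    (∏ p ∈ (Finset.Icc 1 Q).filter Nat.Prime, (1 - (1 : ℝ) / p)⁻¹) * GQ Q R := by
  classical
  set B := (Finset.Icc 1 Q).filter Nat.Prime with hB
  have hBp : ∀ p ∈ B, p.Prime := fun p hp => (Finset.mem_filter.mp hp).2
  have hfac : ∏ p ∈ B, (1 - (1 : ℝ) / p)⁻¹ = ∑ A ∈ B.powerset, ∏ p ∈ A, 1 / ((p : ℝ) - 1) := by
    rw [← Finset.prod_one_add]
    refine Finset.prod_congr rfl fun p hp => ?_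
    have : (1 : ℝ) < p := by exact_mod_cast (hBp p hp).one_lt
    have h3 : (p : ℝ) - 1 ≠ 0 := by linarith
    have h4 : (p : ℝ) ≠ 0 := by linarith
    field_simp
    ring
  rw [hfac]
  unfold GQ
  rw [Finset.sum_mul_sum, ← Finset.sum_product']
  set g : ℕ → Finset ℕ × ℕ := fun m => (m.primeFactors ∩ B, ∏ p ∈ m.primeFactors \ B, p) with hg
  have hsplit : ∀ m ∈ SQ 1 R, (∏ p ∈ m.primeFactors ∩ B, p) * (∏ p ∈ m.primeFactors \ B, p) = m := by
    intro m hm
    have hsq : Squarefree m := (Finset.mem_filter.mp hm).2.1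
    rw [Finset.prod_inter_mul_prod_sdiff, Nat.prod_primeFactors_of_squarefree hsq]
  have hinj : Set.InjOn g (SQ 1 R : Finset ℕ) := by
    intro a ha b hb hab
    simp only [hg, Prod.mk.injEq] at hab
    rw [← hsplit a ha, ← hsplit b hb, hab.1, hab.2]
  have hval : ∀ m ∈ SQ 1 R, 1 / (Nat.totient m : ℝ) =
      (∏ p ∈ (g m).1, 1 / ((p : ℝ) - 1)) * (1 / (Nat.totient (g m).2 : ℝ)) := by
    intro m hm
    have hsq : Squarefree m := (Finset.mem_filter.mp hm).2.1
    have hpf : (∏ p ∈ m.primeFactors \ B, p).primeFactors = m.primeFactors \ B := by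
      rw [Nat.primeFactors_prod]
      intro p hp
      exact Nat.prime_of_mem_primeFactors (Finset.mem_sdiff.mp hp).1
    have hsq2 : Squarefree (∏ p ∈ m.primeFactors \ B, p) :=
      n04_sqf _ fun p hp => Nat.prime_of_mem_primeFactors (Finset.mem_sdiff.mp hp).1
    simp only [hg]
    rw [n04_totient hsq, n04_totient hsq2, hpf]
    simp only [one_div]
    rw [← Finset.prod_inv_distrib, ← Finset.prod_inv_distrib, Finset.prod_inter_mul_prod_sdiff]
  rw [Finset.sum_congr rfl hval,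
    ← Finset.sum_image (f := fun x : Finset ℕ × ℕ => (∏ p ∈ x.1, 1 / ((p : ℝ) - 1)) *
      (1 / (Nat.totient x.2 : ℝ))) hinj]
  apply Finset.sum_le_sum_of_subset_of_nonneg
  · intro x hx
    obtain ⟨m, hm, rfl⟩ := Finset.mem_image.mp hx
    have hm' := Finset.mem_filter.mp hm
    have hm1 := (Finset.mem_Icc.mp hm'.1).1
    have hm2 := (Finset.mem_Icc.mp hm'.1).2
    have hpr : ∀ p ∈ m.primeFactors \ B, p.Prime := fun p hp =>
      Nat.prime_of_mem_primeFactors (Finset.mem_sdiff.mp hp).1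
    have hdvd : (∏ p ∈ m.primeFactors \ B, p) ∣ m := by
      refine Dvd.intro_left _ (hsplit m hm)
    rw [Finset.mem_product, Finset.mem_powerset]
    refine ⟨Finset.inter_subset_right, ?_⟩
    simp only [hg]
    unfold SQ
    rw [Finset.mem_filter, Finset.mem_Icc]
    refine ⟨⟨Nat.pos_of_dvd_of_pos hdvd hm1, (Nat.le_of_dvd hm1 hdvd).trans hm2⟩, n04_sqf _ hpr, ?_⟩
    intro q hq hqd
    have hq2 : q ∈ (∏ p ∈ m.primeFactors \ B, p).primeFactors :=
      Nat.mem_primeFactors.mpr ⟨hq, hqd, (Nat.pos_of_dvd_of_pos hdvd hm1).ne'⟩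
    rw [Nat.primeFactors_prod hpr] at hq2
    have hq3 := (Finset.mem_sdiff.mp hq2).2
    by_contra hcon
    exact hq3 (Finset.mem_filter.mpr ⟨Finset.mem_Icc.mpr ⟨hq.one_lt.le, by omega⟩, hq⟩)
  · intro x hx _
    have hx1 := Finset.mem_powerset.mp (Finset.mem_product.mp hx).1
    refine mul_nonneg (Finset.prod_nonneg fun p hp => ?_) (by positivity)
    have : (1 : ℝ) < p := by exact_mod_cast (hBp p (hx1 hp)).one_lt
    exact div_nonneg zero_le_one (by linarith)

theorem GQ_low : ∃ c : ℝ, 0 < c ∧ ∀ Q R : ℕ, 1 ≤ Q → 1 ≤ R →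
    c * Real.log R / Real.log (2 * Q) ≤ GQ Q R := by
  obtain ⟨C, hC, hM⟩ := Sieve.mertens_product_upper
  have hl2 : 0 < Real.log 2 := Real.log_pos (by norm_num)
  refine ⟨min (Real.log 2) (1 / C), lt_min hl2 (by positivity), fun Q R hQ hR => ?_⟩
  have hQr : (1 : ℝ) ≤ Q := by exact_mod_cast hQ
  have hRr : (1 : ℝ) ≤ R := by exact_mod_cast hR
  have hlR : 0 ≤ Real.log R := Real.log_nonneg hRr
  have hmain := (G1_low hR).trans (n04_main Q R)
  have hG : 0 ≤ GQ Q R := Finset.sum_nonneg fun _ _ => by positivity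
  have hlQ : 0 < Real.log (2 * Q) := Real.log_pos (by linarith)
  rw [div_le_iff₀ hlQ]
  rcases Nat.lt_or_ge Q 2 with h | h
  · have hQ1 : Q = 1 := by omega
    subst hQ1
    have hone : (∏ p ∈ (Finset.Icc 1 1).filter Nat.Prime, (1 - (1 : ℝ) / p)⁻¹) = 1 := by
      apply Finset.prod_eq_one
      intro p hp
      have hp' := Finset.mem_filter.mp hp
      have h1 := Finset.mem_Icc.mp hp'.1
      have h2 := hp'.2.one_lt
      omega
    rw [hone, one_mul] at hmain
    have h1 : Real.log (2 * ((1 : ℕ) : ℝ)) = Real.log 2 := by norm_num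
    rw [h1, mul_comm (GQ 1 R)]
    exact mul_le_mul (min_le_left _ _) hmain hlR hl2.le
  · have h2 := hM Q h
    have hQ2 : (2 : ℝ) ≤ Q := by exact_mod_cast h
    have hl3 : Real.log Q ≤ Real.log (2 * Q) := Real.log_le_log (by linarith) (by linarith)
    have h3 : Real.log R ≤ C * Real.log (2 * Q) * GQ Q R := by
      refine hmain.trans (mul_le_mul_of_nonneg_right (h2.trans ?_) hG)
      exact mul_le_mul_of_nonneg_left hl3 hC.le
    calc min (Real.log 2) (1 / C) * Real.log R ≤ 1 / C * Real.log R :=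
          mul_le_mul_of_nonneg_right (min_le_right _ _) hlR
      _ ≤ 1 / C * (C * Real.log (2 * Q) * GQ Q R) :=
          mul_le_mul_of_nonneg_left h3 (by positivity)
      _ = GQ Q R * Real.log (2 * Q) := by field_simp

private theorem n04_big {p : ℕ} (hp : 1000 ≤ p) :
    3 / ((p : ℝ) - 1) * (p : ℝ) ^ (3 / 4 : ℝ) ≤ 1 := by
  have hpr : (1000 : ℝ) ≤ p := by exact_mod_cast hp
  have hp0 : (0 : ℝ) < p := by linarith
  have h1 : (p : ℝ) ^ (1 / 4 : ℝ) * (p : ℝ) ^ (3 / 4 : ℝ) = p := by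
    rw [← Real.rpow_add hp0]; norm_num
  have h2 : (4 : ℝ) ≤ (p : ℝ) ^ (1 / 4 : ℝ) := by
    have h3 : (4 : ℝ) = (256 : ℝ) ^ (1 / 4 : ℝ) := by
      rw [show (256 : ℝ) = 4 ^ (4 : ℝ) by norm_num, ← Real.rpow_mul (by norm_num)]
      norm_num
    have h5 : (256 : ℝ) ^ (1 / 4 : ℝ) ≤ (p : ℝ) ^ (1 / 4 : ℝ) :=
      Real.rpow_le_rpow (by norm_num) (by linarith) (by norm_num)
    exact h3.le.trans h5
  have h4 : 0 < (p : ℝ) ^ (3 / 4 : ℝ) := Real.rpow_pos_of_pos hp0 _
  rw [div_mul_eq_mul_div, div_le_one (by linarith)]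
  nlinarith

theorem f3_le : ∃ C : ℝ, 0 < C ∧ ∀ q : ℕ, Squarefree q → f3 q ≤ C * (q : ℝ) ^ (-(3 / 4) : ℝ) := by
  classical
  set h : ℕ → ℝ := fun p => 3 / ((p : ℝ) - 1) * (p : ℝ) ^ (3 / 4 : ℝ) with hh
  have h0 : ∀ p : ℕ, p.Prime → 0 ≤ h p := by
    intro p hp
    have : (1 : ℝ) < p := by exact_mod_cast hp.one_lt
    refine mul_nonneg (div_nonneg (by norm_num) (by linarith)) (by positivity)
  refine ⟨∏ p ∈ Finset.range 1000, max 1 (h p),
    Finset.prod_pos fun p _ => lt_of_lt_of_le one_pos (le_max_left _ _), fun q hq => ?_⟩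
  have hq0 : (0 : ℝ) < q := by exact_mod_cast Nat.pos_of_ne_zero hq.ne_zero
  have hqp : (q : ℝ) = ∏ p ∈ q.primeFactors, (p : ℝ) := by
    rw [← Nat.cast_prod, Nat.prod_primeFactors_of_squarefree hq]
  have h1 : f3 q * (q : ℝ) ^ (3 / 4 : ℝ) = ∏ p ∈ q.primeFactors, h p := by
    unfold f3
    rw [n04_totient hq]
    have h2 : (q : ℝ) ^ (3 / 4 : ℝ) = ∏ p ∈ q.primeFactors, (p : ℝ) ^ (3 / 4 : ℝ) := by
      conv_lhs => rw [hqp]
      rw [Real.finsetProd_rpow]
      intro p _; positivity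
    rw [h2, ← Finset.prod_const, ← Finset.prod_div_distrib, ← Finset.prod_mul_distrib]
  have h3 : ∏ p ∈ q.primeFactors, h p ≤ ∏ p ∈ q.primeFactors, (if p < 1000 then max 1 (h p) else 1) := by
    apply Finset.prod_le_prod
    · intro p hp; exact h0 p (Nat.prime_of_mem_primeFactors hp)
    · intro p hp
      split_ifs with hp2
      · exact le_max_right _ _
      · exact n04_big (by omega)
  have h4 : ∏ p ∈ q.primeFactors, (if p < 1000 then max 1 (h p) else 1) ≤
      ∏ p ∈ Finset.range 1000, max 1 (h p) := by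
    rw [← Finset.prod_filter]
    apply Finset.prod_le_prod_of_subset_of_one_le
    · intro p hp
      exact Finset.mem_range.mpr (Finset.mem_filter.mp hp).2
    · intro p _; exact zero_le_one.trans (le_max_left _ _)
    · intro p _ _; exact le_max_left _ _
  have h5 : f3 q * (q : ℝ) ^ (3 / 4 : ℝ) ≤ ∏ p ∈ Finset.range 1000, max 1 (h p) := by
    rw [h1]; exact h3.trans h4
  calc f3 q = f3 q * (q : ℝ) ^ (3 / 4 : ℝ) * (q : ℝ) ^ (-(3 / 4) : ℝ) := by
        rw [mul_assoc, ← Real.rpow_add hq0]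
        norm_num
    _ ≤ (∏ p ∈ Finset.range 1000, max 1 (h p)) * (q : ℝ) ^ (-(3 / 4) : ℝ) :=
        mul_le_mul_of_nonneg_right h5 (by positivity)

end Pool.Agent.Lib.MP_45349e_nt.JG
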