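import Pool.Agent.Lib.MP_45349e_nt.JG.N03
import Pool.Agent.Lib.MP_45349e_nt.JG.N04

/-!
# JG-N05 (75 min): the large sieve inequality for `T`

PROOF of `lsT`. `X = ∑_{f ∈ FQ Q} |Th T f|^2 = ∑_{t ∈ T} C(t)`, `C(t) = ∑_f conj (Th T f) e(t f)`. Cauchy:
`X^2 ≤ |T| ∑_{t ∈ T} |C(t)|^2 ≤ |T| ∑_{p ∈ PP} ∑_{t ∈ T, p ∣ t - c p} |C(t)|^2` (`cov`) `≤ |T| ∑_p (6/GQ Q R)(N/p + 2 +
R^2 Q^2) X` (`dual` with `b = c p`, `R < p` from `R^3 < p`). `R^2 Q^2 ≤ N^(1/10 + 1/50)`, `N/p ≥ N^(2/5)`: the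
bracket is `≤ 3 N/p`. So `X ≤ |T| (18/GQ Q R) N sg PP`, `GQ Q R ≥ c log R/log (2 Q)`, `log R ≥ log N/21`.
`BT`: `dual1` for `A = T.filter (p ∣ t - c p)`, `GQ 1 R ≥ log R`.
`mass_ge`: `|T| ≤ ∑_p |A_p| ≤ C3 sg PP N/log N`.
-/

open Finset

namespace Pool.Agent.Lib.MP_45349e_nt.JG

open Pool.Agent.Lib.GT (e)

theorem n05_size {N R : ℕ} (hN : 2 ^ 420 ≤ N) (hR : R = ⌊(N : ℝ) ^ (1 / 20 : ℝ)⌋₊) :
    1 ≤ R ∧ 0 < Real.log N ∧ Real.log N / 21 ≤ Real.log R := by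
  have hN' : (2 : ℝ) ^ 420 ≤ (N : ℝ) := by exact_mod_cast hN
  have hN0 : (0 : ℝ) < N := lt_of_lt_of_le (by positivity) hN'
  have hlog : 420 * Real.log 2 ≤ Real.log N := by
    have := Real.log_le_log (by positivity) hN'
    rw [Real.log_pow] at this
    exact_mod_cast this
  have hl2 : 0 < Real.log 2 := Real.log_pos (by norm_num)
  have h2 : (2 : ℝ) ≤ (N : ℝ) ^ (1 / 20 : ℝ) := by
    have h1 : ((2 : ℝ) ^ (420 : ℕ)) ^ (1 / 20 : ℝ) ≤ (N : ℝ) ^ (1 / 20 : ℝ) :=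
      Real.rpow_le_rpow (by positivity) hN' (by norm_num)
    have h3 : ((2 : ℝ) ^ (420 : ℕ)) ^ (1 / 20 : ℝ) = 2 ^ (21 : ℝ) := by
      rw [← Real.rpow_natCast, ← Real.rpow_mul (by norm_num)]
      norm_num
    have h4 : (2 : ℝ) ^ (21 : ℝ) = 2097152 := by
      have : (21 : ℝ) = ((21 : ℕ) : ℝ) := by norm_num
      rw [this, Real.rpow_natCast]
      norm_num
    rw [h3, h4] at h1
    linarith
  have hfl : (N : ℝ) ^ (1 / 20 : ℝ) / 2 ≤ R := by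
    have := Nat.lt_floor_add_one ((N : ℝ) ^ (1 / 20 : ℝ))
    rw [← hR] at this
    linarith
  have hR1 : (1 : ℝ) ≤ R := by linarith
  refine ⟨by exact_mod_cast hR1, by linarith, ?_⟩
  have h5 : Real.log ((N : ℝ) ^ (1 / 20 : ℝ) / 2) ≤ Real.log R :=
    Real.log_le_log (by positivity) hfl
  rw [Real.log_div (by positivity) (by norm_num), Real.log_rpow hN0] at h5
  linarith

theorem n05_br {N R Q p : ℕ} (hN : 2 ^ 420 ≤ N) (hR : R = ⌊(N : ℝ) ^ (1 / 20 : ℝ)⌋₊)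
    (hQ : (Q : ℝ) ≤ (N : ℝ) ^ (1 / 100 : ℝ)) (hp0 : 0 < p) (hp : (p : ℝ) ≤ (N : ℝ) ^ (3 / 5 : ℝ)) :
    (N : ℝ) / p + 2 + (R : ℝ) ^ 2 * (Q : ℝ) ^ 2 ≤ 3 * (N / p) ∧ Q ≤ R := by
  have hN' : (2 : ℝ) ^ 420 ≤ (N : ℝ) := by exact_mod_cast hN
  have hN0 : (0 : ℝ) < N := lt_of_lt_of_le (by positivity) hN'
  have hN1 : (1 : ℝ) ≤ N := le_trans (one_le_pow₀ (by norm_num)) hN'
  obtain ⟨y, hy⟩ : ∃ y : ℝ, y = (N : ℝ) ^ (1 / 100 : ℝ) := ⟨_, rfl⟩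
  have hy0 : 0 < y := by rw [hy]; positivity
  have hy2 : 2 ≤ y := by
    have h1 : ((2 : ℝ) ^ (420 : ℕ)) ^ (1 / 100 : ℝ) ≤ y := by
      rw [hy]; exact Real.rpow_le_rpow (by positivity) hN' (by norm_num)
    have h3 : ((2 : ℝ) ^ (420 : ℕ)) ^ (1 / 100 : ℝ) = 2 ^ (21 / 5 : ℝ) := by
      rw [← Real.rpow_natCast, ← Real.rpow_mul (by norm_num)]
      norm_num
    have h4 : (2 : ℝ) ^ (1 : ℝ) ≤ 2 ^ (21 / 5 : ℝ) :=
      Real.rpow_le_rpow_of_exponent_le (by norm_num) (by norm_num)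
    rw [Real.rpow_one] at h4
    linarith
  have e5 : (N : ℝ) ^ (1 / 20 : ℝ) = y ^ 5 := by
    rw [hy, ← Real.rpow_natCast, ← Real.rpow_mul hN0.le]
    norm_num
  have e60 : (N : ℝ) ^ (3 / 5 : ℝ) = y ^ 60 := by
    rw [hy, ← Real.rpow_natCast, ← Real.rpow_mul hN0.le]
    norm_num
  have e100 : (N : ℝ) = y ^ 100 := by
    rw [hy, ← Real.rpow_natCast, ← Real.rpow_mul hN0.le]
    norm_num
  have hRle : (R : ℝ) ≤ y ^ 5 := by
    rw [hR, ← e5]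
    exact Nat.floor_le (by positivity)
  have hp0' : (0 : ℝ) < p := by exact_mod_cast hp0
  rw [← hy] at hQ
  rw [e60] at hp
  have hNp : y ^ 40 ≤ (N : ℝ) / p := by
    rw [le_div_iff₀ hp0', e100]
    calc y ^ 40 * p ≤ y ^ 40 * y ^ 60 := by gcongr
      _ = y ^ 100 := by ring
  have hRQ : (R : ℝ) ^ 2 * (Q : ℝ) ^ 2 ≤ y ^ 12 := by
    calc (R : ℝ) ^ 2 * (Q : ℝ) ^ 2 ≤ (y ^ 5) ^ 2 * y ^ 2 := by gcongr
      _ = y ^ 12 := by ring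
  have h12 : y ^ 12 ≤ y ^ 40 := pow_le_pow_right₀ (by linarith) (by norm_num)
  have h2' : 2 ≤ y ^ 40 := by
    calc (2 : ℝ) ≤ y ^ 1 := by rw [pow_one]; exact hy2
      _ ≤ y ^ 40 := pow_le_pow_right₀ (by linarith) (by norm_num)
  refine ⟨by linarith, ?_⟩
  rw [hR]
  apply Nat.le_floor
  rw [e5]
  calc (Q : ℝ) ≤ y ^ 1 := by rw [pow_one]; exact hQ
    _ ≤ y ^ 5 := pow_le_pow_right₀ (by linarith) (by norm_num)

theorem n05_sum_le {T PP : Finset ℕ} {c : ℕ → ℤ}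
    (hcov : ∀ t ∈ T, ∃ p ∈ PP, (p : ℤ) ∣ (t : ℤ) - c p) (g : ℕ → ℝ) (hg : ∀ t, 0 ≤ g t) :
    ∑ t ∈ T, g t ≤ ∑ p ∈ PP, ∑ t ∈ T.filter (fun t : ℕ => (p : ℤ) ∣ (t : ℤ) - c p), g t := by
  classical
  have h1 : ∑ p ∈ PP, ∑ t ∈ T.filter (fun t : ℕ => (p : ℤ) ∣ (t : ℤ) - c p), g t =
      ∑ t ∈ T, ∑ p ∈ PP, if (p : ℤ) ∣ (t : ℤ) - c p then g t else 0 := by
    rw [Finset.sum_comm]
    apply Finset.sum_congr rfl
    intro p _
    rw [Finset.sum_filter]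
  rw [h1]
  apply Finset.sum_le_sum
  intro t ht
  obtain ⟨p, hp, hpt⟩ := hcov t ht
  have h2 : (if (p : ℤ) ∣ (t : ℤ) - c p then g t else 0) ≤
      ∑ p ∈ PP, if (p : ℤ) ∣ (t : ℤ) - c p then g t else 0 := by
    apply Finset.single_le_sum (f := fun p : ℕ => if (p : ℤ) ∣ (t : ℤ) - c p then g t else 0) _ hp
    intro i _
    split_ifs
    · exact hg t
    · exact le_rfl
  rw [if_pos hpt] at h2
  exact h2

theorem n05_R_lt {R p : ℕ} (h : R ^ 3 < p) : R < p := by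
  rcases Nat.eq_zero_or_pos R with h0 | h0
  · subst h0; simpa using h
  · calc R = R ^ 1 := (pow_one R).symm
      _ ≤ R ^ 3 := Nat.pow_le_pow_right h0 (by norm_num)
      _ < p := h

theorem lsT : ∃ C : ℝ, ∃ N0 : ℕ, 0 < C ∧ ∀ N R : ℕ, N0 ≤ N → ∀ c : ℕ → ℤ, ∀ PP T : Finset ℕ,
    ∀ z x : ℝ, Dat N R c PP T z x → ∀ Q : ℕ, 1 ≤ Q → (Q : ℝ) ≤ (N : ℝ) ^ (1 / 100 : ℝ) →
    ∑ f ∈ FQ Q, ‖Th T ((f.2 : ℝ) / f.1)‖ ^ 2 ≤
      C * Real.log (2 * Q) * (sg PP * N / Real.log N) * (T.card : ℝ) := by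
  obtain ⟨c0, hc0, hGQ⟩ := GQ_low
  refine ⟨18 * 21 / c0, 2 ^ 420, by positivity, ?_⟩
  intro N R hN c PP T z x hD Q hQ1 hQN
  obtain ⟨hR1, hlN, hlR⟩ := n05_size hN hD.hR
  have hG := hGQ Q R hQ1 hR1
  have hG0 : 0 < GQ Q R := GQ_pos hR1
  have hl2Q : 0 < Real.log (2 * Q) := by
    apply Real.log_pos
    have : (1 : ℝ) ≤ Q := by exact_mod_cast hQ1
    linarith
  obtain ⟨X, hX⟩ : ∃ X : ℝ, X = ∑ f ∈ FQ Q, ‖Th T ((f.2 : ℝ) / f.1)‖ ^ 2 := ⟨_, rfl⟩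
  have hX0 : 0 ≤ X := by rw [hX]; positivity
  obtain ⟨d, hd⟩ : ∃ d : ((_ : ℕ) × ℕ) → ℂ, d = fun f => (starRingEnd ℂ) (Th T ((f.2 : ℝ) / f.1)) :=
    ⟨_, rfl⟩
  have hdn : ∑ f ∈ FQ Q, ‖d f‖ ^ 2 = X := by
    rw [hX, hd]
    simp
  have hsum : (X : ℂ) = ∑ t ∈ T, ∑ f ∈ FQ Q, d f * e ((t : ℝ) * ((f.2 : ℝ) / f.1)) := by
    rw [Finset.sum_comm, hX]
    push_cast
    apply Finset.sum_congr rfl
    intro f _
    rw [← Finset.mul_sum]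
    have h1 : (∑ t ∈ T, e ((t : ℝ) * ((f.2 : ℝ) / f.1))) = Th T ((f.2 : ℝ) / f.1) := rfl
    rw [h1, hd]
    dsimp only
    rw [mul_comm, Complex.mul_conj, Complex.normSq_eq_norm_sq]
    push_cast
    rfl
  obtain ⟨Ct, hCt⟩ : ∃ Ct : ℕ → ℂ, Ct = fun t : ℕ => ∑ f ∈ FQ Q, d f * e ((t : ℝ) * ((f.2 : ℝ) / f.1)) :=
    ⟨_, rfl⟩
  have hX2 : X ^ 2 ≤ T.card * ∑ t ∈ T, ‖Ct t‖ ^ 2 := by
    have h1 : X ≤ ∑ t ∈ T, ‖Ct t‖ := by
      calc X = ‖(X : ℂ)‖ := by rw [Complex.norm_real, Real.norm_eq_abs, abs_of_nonneg hX0]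
        _ = ‖∑ t ∈ T, Ct t‖ := by rw [hsum, hCt]
        _ ≤ _ := norm_sum_le _ _
    calc X ^ 2 ≤ (∑ t ∈ T, ‖Ct t‖) ^ 2 := by gcongr
      _ ≤ _ := sq_sum_le_card_mul_sum_sq
  have hcov := n05_sum_le hD.cov (fun t => ‖Ct t‖ ^ 2) (fun t => by positivity)
  have hp : ∀ p ∈ PP, ∑ t ∈ T.filter (fun t : ℕ => (p : ℤ) ∣ (t : ℤ) - c p), ‖Ct t‖ ^ 2 ≤
      18 / GQ Q R * (N / p) * X := by
    intro p hp
    obtain ⟨hpp, hRp, hzp, hpx⟩ := hD.pr p hp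
    obtain ⟨hbr, hQR⟩ := n05_br hN hD.hR hQN hpp.pos (hpx.trans hD.hx)
    have h1 := dual hQ1 hQR hpp (n05_R_lt hRp) (c p) c
      (T.filter (fun t : ℕ => (p : ℤ) ∣ (t : ℤ) - c p))
      ((Finset.filter_subset _ _).trans hD.sub)
      (fun t ht => (Finset.mem_filter.mp ht).2)
      (fun t ht q hq _ hqR => hD.av t (Finset.mem_filter.mp ht).1 q hq hqR) d
    rw [hdn] at h1
    rw [hCt]
    refine h1.trans ?_
    calc 6 / GQ Q R * ((N : ℝ) / p + 2 + (R : ℝ) ^ 2 * (Q : ℝ) ^ 2) * X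
        ≤ 6 / GQ Q R * (3 * (N / p)) * X := by gcongr
      _ = 18 / GQ Q R * (N / p) * X := by ring
  have hfin : X ^ 2 ≤ (T.card * (18 / GQ Q R * (N * sg PP))) * X := by
    calc X ^ 2 ≤ T.card * ∑ t ∈ T, ‖Ct t‖ ^ 2 := hX2
      _ ≤ T.card * ∑ p ∈ PP, (18 / GQ Q R * (N / p) * X) := by
          gcongr
          exact hcov.trans (Finset.sum_le_sum hp)
      _ = (T.card * (18 / GQ Q R * (N * sg PP))) * X := by
          rw [← Finset.sum_mul, sg, Finset.mul_sum, Finset.mul_sum]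
          have : ∑ i ∈ PP, 18 / GQ Q R * ((N : ℝ) / i) =
              ∑ i ∈ PP, 18 / GQ Q R * (N * (1 / (i : ℝ))) := by
            apply Finset.sum_congr rfl
            intro i _
            ring
          rw [this]
          ring
  have hsg : 0 ≤ sg PP := by unfold sg; positivity
  have hX1 : X ≤ T.card * (18 / GQ Q R * (N * sg PP)) := by
    rcases hX0.eq_or_lt with h0 | h0
    · rw [← h0]; positivity
    · rw [pow_two] at hfin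
      exact le_of_mul_le_mul_right hfin h0
  have hGi : 18 / GQ Q R ≤ 18 * 21 / c0 * (Real.log (2 * Q) / Real.log N) := by
    rw [div_le_iff₀ hG0]
    have h1 : c0 * (Real.log N / 21) / Real.log (2 * Q) ≤ GQ Q R := by
      refine le_trans ?_ hG
      gcongr
    calc (18 : ℝ) = 18 * 21 / c0 * (Real.log (2 * Q) / Real.log N) *
          (c0 * (Real.log N / 21) / Real.log (2 * Q)) := by
            field_simp
      _ ≤ 18 * 21 / c0 * (Real.log (2 * Q) / Real.log N) * GQ Q R := by gcongr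
  rw [← hX]
  calc X ≤ T.card * (18 / GQ Q R * (N * sg PP)) := hX1
    _ ≤ T.card * (18 * 21 / c0 * (Real.log (2 * Q) / Real.log N) * (N * sg PP)) := by gcongr
    _ = 18 * 21 / c0 * Real.log (2 * Q) * (sg PP * N / Real.log N) * (T.card : ℝ) := by ring

theorem BT : ∃ C3 : ℝ, ∃ N0 : ℕ, 0 < C3 ∧ ∀ N R : ℕ, N0 ≤ N → ∀ c : ℕ → ℤ, ∀ PP T : Finset ℕ,
    ∀ z x : ℝ, Dat N R c PP T z x → ∀ p ∈ PP,
    ((T.filter (fun t : ℕ => (p : ℤ) ∣ (t : ℤ) - c p)).card : ℝ) ≤ C3 * N / (p * Real.log N) := by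
  refine ⟨18 * 21, 2 ^ 420, by norm_num, ?_⟩
  intro N R hN c PP T z x hD p hp
  obtain ⟨hR1, hlN, hlR⟩ := n05_size hN hD.hR
  obtain ⟨hpp, hRp, hzp, hpx⟩ := hD.pr p hp
  have hN1 : (1 : ℝ) ≤ N := by
    have : (2 : ℝ) ^ 420 ≤ (N : ℝ) := by exact_mod_cast hN
    exact le_trans (one_le_pow₀ (by norm_num)) this
  obtain ⟨hbr, -⟩ := n05_br (Q := 1) hN hD.hR
    (by rw [Nat.cast_one]; exact Real.one_le_rpow hN1 (by norm_num)) hpp.pos (hpx.trans hD.hx)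
  have h1 := dual1 (N := N) hR1 hpp (n05_R_lt hRp) (c p) c
    (T.filter (fun t : ℕ => (p : ℤ) ∣ (t : ℤ) - c p))
    ((Finset.filter_subset _ _).trans hD.sub)
    (fun t ht => (Finset.mem_filter.mp ht).2)
    (fun t ht q hq hqR => hD.av t (Finset.mem_filter.mp ht).1 q hq hqR)
  have hG0 : 0 < GQ 1 R := GQ_pos hR1
  have hG1 := G1_low hR1
  have hp0 : (0 : ℝ) < p := by exact_mod_cast hpp.pos
  have hGi : 6 / GQ 1 R ≤ 6 * 21 / Real.log N := by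
    rw [div_le_div_iff₀ hG0 hlN]
    nlinarith
  refine h1.trans ?_
  calc 6 / GQ 1 R * ((N : ℝ) / p + 2 + (R : ℝ) ^ 2) ≤ 6 * 21 / Real.log N * (3 * (N / p)) := by
        have h3 : (N : ℝ) / p + 2 + (R : ℝ) ^ 2 ≤ 3 * (N / p) := by
          have := hbr
          simpa using this
        gcongr
    _ = 18 * 21 * N / (p * Real.log N) := by
        field_simp
        ring

theorem mass_ge : ∃ C3 : ℝ, ∃ N0 : ℕ, 0 < C3 ∧ ∀ N R : ℕ, N0 ≤ N → ∀ c : ℕ → ℤ,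
    ∀ PP T : Finset ℕ, ∀ z x : ℝ, Dat N R c PP T z x →
    (T.card : ℝ) ≤ C3 * (sg PP * N / Real.log N) := by
  obtain ⟨C3, N0, hC3, hBT⟩ := BT
  refine ⟨C3, N0, hC3, ?_⟩
  intro N R hN c PP T z x hD
  have hcov := n05_sum_le hD.cov (fun _ => (1 : ℝ)) (fun _ => zero_le_one)
  rw [Finset.sum_const, nsmul_eq_mul, mul_one] at hcov
  refine hcov.trans ?_
  calc ∑ p ∈ PP, ∑ t ∈ T.filter (fun t : ℕ => (p : ℤ) ∣ (t : ℤ) - c p), (1 : ℝ)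
      ≤ ∑ p ∈ PP, C3 * N / (p * Real.log N) := by
        apply Finset.sum_le_sum
        intro p hp
        rw [Finset.sum_const, nsmul_eq_mul, mul_one]
        exact hBT N R hN c PP T z x hD p hp
    _ = C3 * (sg PP * N / Real.log N) := by
        rw [sg, Finset.sum_mul, Finset.sum_div, Finset.mul_sum]
        apply Finset.sum_congr rfl
        intro p _
        rw [mul_div_assoc, ← div_div]
        ring

end Pool.Agent.Lib.MP_45349e_nt.JG
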