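import Pool.Agent.Lib.MP_45349e_nt.JG.N06a

/-!
# JG-N06 (90 min): the expansion of the energy

PROOF. `E4 T = #{(t2, t3, t4) ∈ T^3 : s := t2 + t3 - t4 ∈ T}`. Let `a` be with `a ≡ c q mod q` for all primes
`q ≤ R` (CRT). If `s ∈ T`: `p ∣ s - c p` for some `p ∈ PP` (`cov`) and `LamR R (s - a) = 1` (`LamR_one`, `av`). So
`E4 T ≤ ∑_{p ∈ PP} ∑_{(t2,t3,t4) ∈ T^3} 1[p ∣ s - c p] |LamR R (s - a)|^2`. And `1[p ∣ s - c p] =
(1/p) ∑_{h < p} e(h (s - c p)/p)` (`GT.sum_e_div_range`). So `E4 T ≤ ∑_p (1/p) ∑_h |∑_{(t2,t3,t4)} e(h s/p)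
|LamR R (s - a)|^2|`, and by `LamR_sq` (`I = T^3`, `u = e(h s/p)`) the inner absolute value is
`≤ (1/G) ∑_q f3 q ∑_{b ∈ rr q} |∑_{(t2,t3,t4)} e(s (h/p + b/q))|`, and `∑_{T^3} e(s α) = (Th T α)^2 conj (Th T α)`, of
absolute value `|Th T α|^3`.
-/

open Finset

namespace Pool.Agent.Lib.MP_45349e_nt.JG

open Pool.Agent.Lib.GT (e)


/-- the class `a` with `a ≡ c q` mod `q` for all primes `q ≤ R` -/
theorem exists_crt (R : ℕ) (c : ℕ → ℤ) :
    ∃ a : ℤ, ∀ q : ℕ, q.Prime → q ≤ R → (q : ℤ) ∣ a - c q := by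
  classical
  have hpp : Set.Pairwise (((Finset.range (R + 1)).filter Nat.Prime : Finset ℕ) : Set ℕ)
      (Function.onFun Nat.Coprime (fun q : ℕ => q)) := by
    intro p hp q hq hpq
    rw [Finset.mem_coe, Finset.mem_filter] at hp hq
    exact (Nat.coprime_primes hp.2 hq.2).mpr hpq
  have hs : ∀ q ∈ (Finset.range (R + 1)).filter Nat.Prime, (fun q : ℕ => q) q ≠ 0 := by
    intro q hq
    rw [Finset.mem_filter] at hq
    exact hq.2.ne_zero
  obtain ⟨k, hk⟩ := Nat.chineseRemainderOfFinset (fun q : ℕ => (c q % q).toNat) (fun q : ℕ => q)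
    ((Finset.range (R + 1)).filter Nat.Prime) hs hpp
  refine ⟨k, fun q hq hqR => ?_⟩
  have h1 := hk q (by rw [Finset.mem_filter, Finset.mem_range]; exact ⟨by omega, hq⟩)
  have h2 : ((c q % q).toNat : ℤ) = c q % q :=
    Int.toNat_of_nonneg (Int.emod_nonneg _ (by exact_mod_cast hq.ne_zero))
  have h3 : (k : ℤ) ≡ ((c q % q).toNat : ℤ) [ZMOD q] := by
    exact_mod_cast (Int.natCast_modEq_iff.mpr h1)
  rw [h2] at h3
  have h4 : (k : ℤ) ≡ c q [ZMOD q] := h3.trans (Int.mod_modEq _ _)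
  exact (Int.modEq_iff_dvd.mp h4.symm)

/-- detection of divisibility by additive characters -/
theorem sum_e_dvd {p : ℕ} (hp : 0 < p) (m : ℤ) :
    (if (p : ℤ) ∣ m then (1 : ℂ) else 0) =
      (1 / (p : ℝ) : ℝ) * ∑ h ∈ Finset.range p, e ((h : ℝ) * m / p) := by
  have hp' : (p : ℝ) ≠ 0 := by positivity
  split_ifs with h
  · obtain ⟨k, hk⟩ := h
    have h1 : ∀ j ∈ Finset.range p, e ((j : ℝ) * m / p) = 1 := by
      intro j _
      have : (j : ℝ) * m / p = ((j * k : ℤ) : ℝ) := by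
        rw [hk]
        push_cast
        field_simp
      rw [this, Pool.Agent.Lib.GT.e_int]
    rw [Finset.sum_congr rfl h1, Finset.sum_const, Finset.card_range, nsmul_eq_mul, mul_one]
    push_cast
    have : (p : ℂ) ≠ 0 := by exact_mod_cast hp.ne'
    field_simp
  · have h1 := Pool.Agent.Lib.GT.RE.sum_e_div_range p hp m h
    have h2 : ∑ h ∈ Finset.range p, e ((h : ℝ) * m / p) =
        ∑ c ∈ Finset.range p, e ((m : ℝ) / p * c) := by
      apply Finset.sum_congr rfl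
      intro j _
      congr 1
      ring
    rw [h2, h1, mul_zero]

/-- the sum over `T ^ 3` of `e ((t2 + t3 - t4) α)` -/
theorem sum_cube (T : Finset ℕ) (α : ℝ) :
    ‖∑ i ∈ T ×ˢ (T ×ˢ T), e ((((i.1 : ℤ) + i.2.1 - i.2.2 : ℤ) : ℝ) * α)‖ = ‖Th T α‖ ^ 3 := by
  have h1 : ∑ i ∈ T ×ˢ (T ×ˢ T), e ((((i.1 : ℤ) + i.2.1 - i.2.2 : ℤ) : ℝ) * α) =
      Th T α * (Th T α * ∑ t ∈ T, e (-((t : ℝ) * α))) := by
    rw [Finset.sum_product]
    unfold Th
    rw [Finset.sum_mul]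
    apply Finset.sum_congr rfl
    intro t _
    rw [Finset.sum_product, Finset.sum_mul, Finset.mul_sum]
    apply Finset.sum_congr rfl
    intro t' _
    rw [Finset.mul_sum, Finset.mul_sum]
    apply Finset.sum_congr rfl
    intro t'' _
    rw [← Pool.Agent.Lib.GT.e_add, ← Pool.Agent.Lib.GT.e_add]
    congr 1
    push_cast
    ring
  have h2 : ‖∑ t ∈ T, e (-((t : ℝ) * α))‖ = ‖Th T α‖ := by
    have h3 : ∑ t ∈ T, e (-((t : ℝ) * α)) = (starRingEnd ℂ) (Th T α) := by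
      unfold Th
      rw [map_sum]
      apply Finset.sum_congr rfl
      intro t _
      unfold Pool.Agent.Lib.GT.e
      rw [← Complex.exp_conj]
      congr 1
      simp only [map_mul, Complex.conj_I, Complex.conj_ofReal, map_ofNat]
      push_cast
      ring
    rw [h3, Complex.norm_conj]
  rw [h1, norm_mul, norm_mul, h2]
  ring

/-- one prime `p`: the weighted number of the `i` with `p ∣ s i - c` -/
theorem one_prime {R : ℕ} (hR : 1 ≤ R) (a : ℤ) (T : Finset ℕ) {p : ℕ} (hp : 0 < p) (c : ℤ) :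
    ∑ i ∈ T ×ˢ (T ×ˢ T), (if (p : ℤ) ∣ ((i.1 : ℤ) + i.2.1 - i.2.2) - c then
        ‖LamR R (((i.1 : ℤ) + i.2.1 - i.2.2) - a)‖ ^ 2 else 0) ≤
      1 / (p : ℝ) * ∑ h ∈ Finset.range p, (1 / GQ 1 R *
        ∑ q ∈ (Finset.Icc 1 (R ^ 2)).filter Squarefree, f3 q *
          ∑ b ∈ rr q, ‖Th T ((h : ℝ) / p + (b : ℝ) / q)‖ ^ 3) := by
  set s : ℕ × (ℕ × ℕ) → ℤ := fun i => (i.1 : ℤ) + i.2.1 - i.2.2 with hs
  set I := T ×ˢ (T ×ˢ T) with hI
  have h0 : 0 ≤ ∑ i ∈ I, (if (p : ℤ) ∣ s i - c then ‖LamR R (s i - a)‖ ^ 2 else 0) := by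
    apply Finset.sum_nonneg
    intro i _
    split_ifs <;> positivity
  have h1 : ((∑ i ∈ I, (if (p : ℤ) ∣ s i - c then ‖LamR R (s i - a)‖ ^ 2 else 0) : ℝ) : ℂ) =
      (1 / (p : ℝ) : ℝ) * ∑ h ∈ Finset.range p, e (-((h : ℝ) * c / p)) *
        ∑ i ∈ I, e ((s i : ℝ) * ((h : ℝ) / p)) * ((‖LamR R (s i - a)‖ ^ 2 : ℝ) : ℂ) := by
    have h2 : ∀ i ∈ I, (((if (p : ℤ) ∣ s i - c then ‖LamR R (s i - a)‖ ^ 2 else 0 : ℝ)) : ℂ) =
        (1 / (p : ℝ) : ℝ) * ∑ h ∈ Finset.range p, e (-((h : ℝ) * c / p)) *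
          (e ((s i : ℝ) * ((h : ℝ) / p)) * ((‖LamR R (s i - a)‖ ^ 2 : ℝ) : ℂ)) := by
      intro i _
      have h3 : (((if (p : ℤ) ∣ s i - c then ‖LamR R (s i - a)‖ ^ 2 else 0 : ℝ)) : ℂ) =
          (if (p : ℤ) ∣ s i - c then (1 : ℂ) else 0) * ((‖LamR R (s i - a)‖ ^ 2 : ℝ) : ℂ) := by
        split_ifs <;> simp
      rw [h3, sum_e_dvd hp, mul_assoc, Finset.sum_mul]
      congr 1
      apply Finset.sum_congr rfl
      intro h _
      rw [← mul_assoc, ← Pool.Agent.Lib.GT.e_add]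
      congr 2
      push_cast
      ring
    rw [Complex.ofReal_sum, Finset.sum_congr rfl h2, ← Finset.mul_sum, Finset.sum_comm]
    congr 1
    apply Finset.sum_congr rfl
    intro h _
    rw [Finset.mul_sum]
  have h4 : ∑ i ∈ I, (if (p : ℤ) ∣ s i - c then ‖LamR R (s i - a)‖ ^ 2 else 0) =
      ‖((∑ i ∈ I, (if (p : ℤ) ∣ s i - c then ‖LamR R (s i - a)‖ ^ 2 else 0) : ℝ) : ℂ)‖ := by
    rw [Complex.norm_real, Real.norm_of_nonneg h0]
  rw [h4, h1, norm_mul, Complex.norm_real, Real.norm_of_nonneg (by positivity)]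
  apply mul_le_mul_of_nonneg_left _ (by positivity)
  refine (norm_sum_le _ _).trans (Finset.sum_le_sum fun h _ => ?_)
  rw [norm_mul, Pool.Agent.Lib.GT.norm_e, one_mul]
  refine (LamR_sq hR a I s (fun i => e ((s i : ℝ) * ((h : ℝ) / p)))).trans (le_of_eq ?_)
  congr 1
  apply Finset.sum_congr rfl
  intro q _
  congr 1
  apply Finset.sum_congr rfl
  intro b _
  rw [← sum_cube]
  congr 1
  apply Finset.sum_congr rfl
  intro i _
  rw [← Pool.Agent.Lib.GT.e_add]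
  congr 1
  ring

theorem energy_le {N R : ℕ} {c : ℕ → ℤ} {PP T : Finset ℕ} {z x : ℝ} (h : Dat N R c PP T z x)
    (hR : 1 ≤ R) :
    (E4 T : ℝ) ≤ 1 / GQ 1 R * ∑ p ∈ PP, 1 / (p : ℝ) * ∑ h ∈ Finset.range p,
      ∑ q ∈ (Finset.Icc 1 (R ^ 2)).filter Squarefree, f3 q *
        ∑ b ∈ rr q, ‖Th T ((h : ℝ) / p + (b : ℝ) / q)‖ ^ 3 := by
  classical
  obtain ⟨a, ha⟩ := exists_crt R c
  set s : ℕ × (ℕ × ℕ) → ℤ := fun i => (i.1 : ℤ) + i.2.1 - i.2.2 with hs
  -- step 1: the energy counts the triples with `s ∈ T`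
  have h1 : E4 T ≤ ((T ×ˢ (T ×ˢ T)).filter (fun i => ∃ t ∈ T, (t : ℤ) = s i)).card := by
    unfold E4
    apply Finset.card_le_card_of_injOn (fun u => (u.1.2, (u.2.1, u.2.2)))
    · intro u hu
      rw [Finset.mem_coe, Finset.mem_filter, Finset.mem_product, Finset.mem_product,
        Finset.mem_product] at hu
      rw [Finset.mem_coe, Finset.mem_filter, Finset.mem_product, Finset.mem_product]
      refine ⟨⟨hu.1.1.2, hu.1.2.1, hu.1.2.2⟩, u.1.1, hu.1.1.1, ?_⟩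
      have := hu.2
      simp only [hs]
      omega
    · intro u hu v hv huv
      rw [Finset.mem_coe, Finset.mem_filter] at hu hv
      simp only [Prod.mk.injEq] at huv
      obtain ⟨h2, h3, h4⟩ := huv
      have h5 := hu.2
      have h6 := hv.2
      have h7 : u.1.1 = v.1.1 := by omega
      exact Prod.ext (Prod.ext h7 h2) (Prod.ext h3 h4)
  -- step 2
  have h2 : (E4 T : ℝ) ≤ ∑ i ∈ T ×ˢ (T ×ˢ T), ∑ p ∈ PP,
      (if (p : ℤ) ∣ s i - c p then ‖LamR R (s i - a)‖ ^ 2 else 0) := by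
    have h3 : (E4 T : ℝ) ≤
        (((T ×ˢ (T ×ˢ T)).filter (fun i => ∃ t ∈ T, (t : ℤ) = s i)).card : ℝ) := by
      exact_mod_cast h1
    refine h3.trans ?_
    rw [Finset.card_filter, Nat.cast_sum]
    apply Finset.sum_le_sum
    intro i _
    have hnn : ∀ p ∈ PP, 0 ≤ (if (p : ℤ) ∣ s i - c p then ‖LamR R (s i - a)‖ ^ 2 else 0) := by
      intro p _
      split_ifs <;> positivity
    split_ifs with h4
    · obtain ⟨t, ht, hts⟩ := h4
      obtain ⟨p, hp, hpt⟩ := h.cov t ht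
      have h5 : LamR R (s i - a) = 1 := by
        apply LamR_one hR
        intro q hq hqR hd
        apply h.av t ht q hq hqR
        rw [hts]
        have h6 := ha q hq hqR
        have h7 : s i - c q = (s i - a) + (a - c q) := by ring
        rw [h7]
        exact dvd_add hd h6
      have h6 := Finset.single_le_sum hnn hp
      have h8 : (if (p : ℤ) ∣ s i - c p then ‖LamR R (s i - a)‖ ^ 2 else 0) = 1 := by
        rw [if_pos (by rw [← hts]; exact hpt), h5, norm_one, one_pow]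
      rw [h8] at h6
      rw [Nat.cast_one]
      exact h6
    · push_cast
      exact Finset.sum_nonneg hnn
  refine h2.trans ?_
  rw [Finset.sum_comm, Finset.mul_sum]
  apply Finset.sum_le_sum
  intro p hp
  have hp0 : 0 < p := (h.pr p hp).1.pos
  refine (one_prime hR a T hp0 (c p)).trans (le_of_eq ?_)
  rw [← Finset.mul_sum]
  ring

end Pool.Agent.Lib.MP_45349e_nt.JG
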