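import Pool.Agent.Lib.MP_45349e_nt.JG.N02

/-!
# JG-N06a: Selberg's function

PROOF of `LamR_one`: `GQ 1 R * LamR R s = ∑_{g, den g ≤ R} (μ(den g)/φ(den g)) e(g s/M)`, `M = PR R`; by
`sum_den` (its complex version: regroup `g = b (M/q)`) `= ∑_{q ∣ M, q ≤ R} (μ(q)/φ(q)) ∑_{b ∈ rr q} e(b s/q) =
∑ μ(q)^2/φ(q) = GQ 1 R` (`GT.ramanujan`, `s` is prime to `q`); the squarefree `q ≤ R` are the divisors `q ≤ R`
of `M` (`SQ 1 R = M.divisors.filter (≤ R)`, this is `SQ_eq`).
PROOF of `LamR_sq`: expand the square, group by `x = (g - g') mod M` and use `convW`, `den_sub`, `sum_den`.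
-/

open Finset

namespace Pool.Agent.Lib.MP_45349e_nt.JG

open Pool.Agent.Lib.GT (e)

private theorem PR_eq (R : ℕ) : PR R = primorial R := by
  unfold PR primorial
  refine Finset.prod_congr ?_ fun _ _ => rfl
  ext p
  simp only [Finset.mem_filter, Finset.mem_Icc, Finset.mem_range]
  constructor
  · rintro ⟨⟨_, h2⟩, h3⟩
    exact ⟨by omega, h3⟩
  · rintro ⟨h1, h3⟩
    exact ⟨⟨h3.one_lt.le, by omega⟩, h3⟩

private theorem PR_sqf (R : ℕ) : Squarefree (PR R) := by
  rw [PR_eq]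
  exact squarefree_primorial R

private theorem PR_pos (R : ℕ) : 0 < PR R := by
  rw [PR_eq]
  exact primorial_pos R

private theorem mem_SQ {Q R m : ℕ} : m ∈ SQ Q R ↔
    (1 ≤ m ∧ m ≤ R) ∧ Squarefree m ∧ ∀ q : ℕ, q.Prime → q ∣ m → Q < q := by
  classical
  unfold SQ
  rw [Finset.mem_filter, Finset.mem_Icc]

theorem SQ_eq (R : ℕ) : SQ 1 R = (PR R).divisors.filter (fun q => q ≤ R) := by
  ext m
  rw [mem_SQ, Finset.mem_filter, Nat.mem_divisors]
  constructor
  · rintro ⟨⟨h1, h2⟩, h3, _⟩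
    refine ⟨⟨?_, (PR_pos R).ne'⟩, h2⟩
    have h4 : m = ∏ p ∈ m.primeFactors, p := (Nat.prod_primeFactors_of_squarefree h3).symm
    rw [h4]
    unfold PR
    apply Finset.prod_dvd_prod_of_subset
    intro p hp
    have h5 := Nat.prime_of_mem_primeFactors hp
    have h6 := Nat.le_of_dvd (by omega) (Nat.dvd_of_mem_primeFactors hp)
    rw [Finset.mem_filter, Finset.mem_Icc]
    exact ⟨⟨h5.one_lt.le, by omega⟩, h5⟩
  · rintro ⟨⟨h1, _⟩, h2⟩
    have h3 := (PR_sqf R).squarefree_of_dvd h1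
    exact ⟨⟨Nat.pos_of_ne_zero h3.ne_zero, h2⟩, h3, fun q hq _ => hq.one_lt⟩

private theorem GQ_pos {R : ℕ} (hR : 1 ≤ R) : 0 < GQ 1 R := by
  unfold GQ
  apply Finset.sum_pos
  · intro m hm
    rw [mem_SQ] at hm
    have := Nat.totient_pos.2 (by omega : 0 < m)
    positivity
  · refine ⟨1, ?_⟩
    rw [mem_SQ]
    exact ⟨⟨le_refl _, hR⟩, squarefree_one, fun q hq _ => hq.one_lt⟩

private theorem GQ_eq (R : ℕ) :
    GQ 1 R = ∑ m ∈ (PR R).divisors.filter (fun m => m ≤ R), 1 / (Nat.totient m : ℝ) := by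
  unfold GQ
  rw [SQ_eq]

theorem LamR_one {R : ℕ} (hR : 1 ≤ R) {s : ℤ} (hs : ∀ q : ℕ, q.Prime → q ≤ R → ¬ (q : ℤ) ∣ s) :
    LamR R s = 1 := by
  have hG := GQ_pos hR
  unfold LamR
  have h1 := sum_den (PR_pos R) (fun (q : ℕ) (y : ℝ) =>
    (((((ArithmeticFunction.moebius q : ℤ) : ℝ) / (Nat.totient q : ℝ) : ℝ) : ℂ)) * e (y * s)) R
  have h2 : ∑ g ∈ (Finset.range (PR R)).filter (fun g => den (PR R) g ≤ R),
      (((((ArithmeticFunction.moebius (den (PR R) g) : ℤ) : ℝ) /
        (Nat.totient (den (PR R) g) : ℝ) : ℝ) : ℂ)) * e ((g : ℝ) * s / (PR R : ℕ)) =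
      ((GQ 1 R : ℝ) : ℂ) := by
    calc _ = ∑ g ∈ (Finset.range (PR R)).filter (fun g => den (PR R) g ≤ R),
        (((((ArithmeticFunction.moebius (den (PR R) g) : ℤ) : ℝ) /
        (Nat.totient (den (PR R) g) : ℝ) : ℝ) : ℂ)) * e ((g : ℝ) / (PR R : ℕ) * s) := by
          refine Finset.sum_congr rfl fun g _ => ?_
          congr 2
          ring
      _ = _ := h1
      _ = ((GQ 1 R : ℝ) : ℂ) := by
          rw [GQ_eq, Complex.ofReal_sum]
          refine Finset.sum_congr rfl fun q hq => ?_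
          rw [Finset.mem_filter, Nat.mem_divisors] at hq
          have hqs := (PR_sqf R).squarefree_of_dvd hq.1.1
          have hq0 : 0 < q := Nat.pos_of_ne_zero hqs.ne_zero
          have hco : IsCoprime s (q : ℤ) := by
            rw [Int.isCoprime_iff_gcd_eq_one]
            by_contra hne
            obtain ⟨p, hp, hpd⟩ := Nat.exists_prime_and_dvd hne
            have h4 : (p : ℤ) ∣ s := by
              rw [← Int.natCast_dvd_natCast] at hpd
              exact hpd.trans (Int.gcd_dvd_left _ _)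
            have h5 : p ∣ q := by
              rw [← Int.natCast_dvd_natCast] at hpd
              exact Int.natCast_dvd_natCast.1 (hpd.trans (Int.gcd_dvd_right _ _))
            exact hs p hp ((Nat.le_of_dvd hq0 h5).trans hq.2) h4
          have h6 := Pool.Agent.Lib.GT.RE.ramanujan q hq0 s hco
          have h7 : ∑ b ∈ rr q, e ((b : ℝ) / q * s) = (ArithmeticFunction.moebius q : ℂ) := by
            rw [← h6]
            unfold rr
            refine Finset.sum_congr rfl fun b _ => ?_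
            congr 1
            ring
          rw [← Finset.mul_sum, h7]
          have h8 : ((ArithmeticFunction.moebius q : ℤ) : ℂ) * ((ArithmeticFunction.moebius q : ℤ) : ℂ) = 1 := by
            have : (ArithmeticFunction.moebius q : ℤ) ^ 2 = 1 := by
              rw [ArithmeticFunction.moebius_sq_eq_one_of_squarefree hqs]
            rw [← sq]
            exact_mod_cast this
          push_cast
          rw [div_mul_eq_mul_div, h8]
  rw [h2, ← Complex.ofReal_mul]
  rw [one_div, inv_mul_cancel₀ hG.ne', Complex.ofReal_one]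

private theorem e_neg_conj (x : ℝ) : (starRingEnd ℂ) (e x) = e (-x) := by
  unfold e
  rw [← Complex.exp_conj]
  congr 1
  simp only [map_mul, Complex.conj_ofReal, Complex.conj_I, map_ofNat]
  push_cast
  ring

private theorem e_shift {M g g' : ℕ} (hM : 0 < M) (hg' : g' < M) (t : ℤ) :
    e ((g : ℝ) * t / M) * e (-((g' : ℝ) * t / M)) =
      e ((((g + (M - g')) % M : ℕ) : ℝ) * t / M) := by
  have hM' : (M : ℝ) ≠ 0 := by positivity
  set k := (g + (M - g')) / M with hk
  have h1 : (g + (M - g')) % M + M * k = g + (M - g') := Nat.mod_add_div _ _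
  have h2 : (((g + (M - g')) % M : ℕ) : ℝ) = g + (M - g') - M * k := by
    have h3 : (((g + (M - g')) % M + M * k : ℕ) : ℝ) = ((g + (M - g') : ℕ) : ℝ) := by rw [h1]
    rw [Nat.cast_add, Nat.cast_add, Nat.cast_sub hg'.le, Nat.cast_mul] at h3
    linarith
  rw [h2, ← Pool.Agent.Lib.GT.e_add]
  have h4 : (g : ℝ) * t / M + -((g' : ℝ) * t / M) =
      ((g : ℝ) + (M - g') - M * k) * t / M + (((k - 1) * t : ℤ) : ℝ) := by
    push_cast
    field_simp
    ring
  rw [h4, Pool.Agent.Lib.GT.e_add_int]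

theorem LamR_sq {R : ℕ} (hR : 1 ≤ R) (a : ℤ) {ι : Type*} (I : Finset ι) (s : ι → ℤ) (u : ι → ℂ) :
    ‖∑ i ∈ I, u i * ((‖LamR R (s i - a)‖ ^ 2 : ℝ) : ℂ)‖ ≤
      1 / GQ 1 R * ∑ q ∈ (Finset.Icc 1 (R ^ 2)).filter Squarefree, f3 q *
        ∑ b ∈ rr q, ‖∑ i ∈ I, u i * e ((s i : ℝ) * ((b : ℝ) / q))‖ := by
  have hG := GQ_pos hR
  set M := PR R with hMdef
  have hM : 0 < M := PR_pos R
  have hMs : Squarefree M := PR_sqf R
  set A := (Finset.range M).filter (fun g => den M g ≤ R) with hA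
  set w : ℕ → ℝ := fun g => ((ArithmeticFunction.moebius (den M g) : ℤ) : ℝ) / (Nat.totient (den M g) : ℝ)
    with hw
  set al : ℕ → ℝ := fun g => 1 / (Nat.totient (den M g) : ℝ) with hal
  set X : ℕ → ℕ → ℕ := fun g g' => (g + (M - g')) % M with hX
  set S : ℕ → ℝ := fun x => ‖∑ i ∈ I, u i * e ((s i : ℝ) * ((x : ℝ) / M))‖ with hS
  have hal0 : ∀ g, 0 ≤ al g := fun g => by
    rw [hal]
    positivity
  have hS0 : ∀ x, 0 ≤ S x := fun x => norm_nonneg _
  have hwal : ∀ g, |w g| ≤ al g := by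
    intro g
    rw [hw, hal]
    simp only
    rw [abs_div, Nat.abs_cast]
    refine div_le_div_of_nonneg_right ?_ (Nat.cast_nonneg _)
    exact_mod_cast ArithmeticFunction.abs_moebius_le_one
  -- the square of `LamR`
  have hL : ∀ t : ℤ, ((‖LamR R t‖ ^ 2 : ℝ) : ℂ) = ((1 / (GQ 1 R) ^ 2 : ℝ) : ℂ) *
      ∑ g ∈ A, ∑ g' ∈ A, ((w g * w g' : ℝ) : ℂ) * e (((X g g' : ℕ) : ℝ) * t / M) := by
    intro t
    have h1 : LamR R t = ((1 / GQ 1 R : ℝ) : ℂ) * ∑ g ∈ A, ((w g : ℝ) : ℂ) * e ((g : ℝ) * t / M) := rfl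
    have h2 : (starRingEnd ℂ) (LamR R t) =
        ((1 / GQ 1 R : ℝ) : ℂ) * ∑ g ∈ A, ((w g : ℝ) : ℂ) * e (-((g : ℝ) * t / M)) := by
      rw [h1, map_mul, map_sum, Complex.conj_ofReal]
      congr 1
      refine Finset.sum_congr rfl fun g _ => ?_
      rw [map_mul, Complex.conj_ofReal, e_neg_conj]
    have h3 : ((‖LamR R t‖ ^ 2 : ℝ) : ℂ) = LamR R t * (starRingEnd ℂ) (LamR R t) := by
      rw [Complex.mul_conj, Complex.normSq_eq_norm_sq]
    rw [h3, h2, h1, mul_mul_mul_comm, ← Complex.ofReal_mul, Finset.sum_mul_sum]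
    congr 1
    · congr 1
      field_simp
    · refine Finset.sum_congr rfl fun g _ => Finset.sum_congr rfl fun g' hg' => ?_
      rw [hA, Finset.mem_filter, Finset.mem_range] at hg'
      rw [mul_mul_mul_comm, e_shift hM hg'.1, ← Complex.ofReal_mul]
  -- the sum over `i`
  have hsum : ∑ i ∈ I, u i * ((‖LamR R (s i - a)‖ ^ 2 : ℝ) : ℂ) = ((1 / (GQ 1 R) ^ 2 : ℝ) : ℂ) *
      ∑ g ∈ A, ∑ g' ∈ A, ((w g * w g' : ℝ) : ℂ) * (e (-(((X g g' : ℕ) : ℝ) * a / M)) *
        ∑ i ∈ I, u i * e ((s i : ℝ) * (((X g g' : ℕ) : ℝ) / M))) := by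
    calc _ = ∑ i ∈ I, ((1 / (GQ 1 R) ^ 2 : ℝ) : ℂ) * ∑ g ∈ A, ∑ g' ∈ A,
          ((w g * w g' : ℝ) : ℂ) * (e (-(((X g g' : ℕ) : ℝ) * a / M)) *
            (u i * e ((s i : ℝ) * (((X g g' : ℕ) : ℝ) / M)))) := by
          refine Finset.sum_congr rfl fun i _ => ?_
          rw [hL, mul_left_comm]
          congr 1
          rw [Finset.mul_sum]
          refine Finset.sum_congr rfl fun g _ => ?_
          rw [Finset.mul_sum]
          refine Finset.sum_congr rfl fun g' _ => ?_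
          have h1 : e (((X g g' : ℕ) : ℝ) * ((s i - a : ℤ) : ℝ) / M) =
              e (-(((X g g' : ℕ) : ℝ) * a / M)) * e ((s i : ℝ) * (((X g g' : ℕ) : ℝ) / M)) := by
            rw [← Pool.Agent.Lib.GT.e_add]
            congr 1
            push_cast
            ring
          rw [h1]
          ring
      _ = _ := by
          rw [← Finset.mul_sum]
          congr 1
          rw [Finset.sum_comm]
          refine Finset.sum_congr rfl fun g _ => ?_
          rw [Finset.sum_comm]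
          refine Finset.sum_congr rfl fun g' _ => ?_
          rw [Finset.mul_sum, Finset.mul_sum]
  rw [hsum, norm_mul]
  have hn1 : ‖((1 / (GQ 1 R) ^ 2 : ℝ) : ℂ)‖ = 1 / (GQ 1 R) ^ 2 := by
    rw [Complex.norm_real, Real.norm_of_nonneg (by positivity)]
  rw [hn1]
  -- the double sum
  have h1 : ‖∑ g ∈ A, ∑ g' ∈ A, ((w g * w g' : ℝ) : ℂ) * (e (-(((X g g' : ℕ) : ℝ) * a / M)) *
        ∑ i ∈ I, u i * e ((s i : ℝ) * (((X g g' : ℕ) : ℝ) / M)))‖ ≤
      ∑ g ∈ A, ∑ g' ∈ A, al g * al g' * S (X g g') := by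
    refine (norm_sum_le _ _).trans (Finset.sum_le_sum fun g _ => ?_)
    refine (norm_sum_le _ _).trans (Finset.sum_le_sum fun g' _ => ?_)
    rw [norm_mul, norm_mul, Pool.Agent.Lib.GT.norm_e, one_mul, Complex.norm_real, Real.norm_eq_abs,
      abs_mul]
    exact mul_le_mul_of_nonneg_right (mul_le_mul (hwal g) (hwal g') (abs_nonneg _) (hal0 g)) (hS0 _)
  have h2 : ∀ g ∈ A, ∑ g' ∈ A, al g * al g' * S (X g g') ≤
      ∑ x ∈ (Finset.range M).filter (fun x => den M x ≤ R ^ 2), al g * al (X g x) * S x := by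
    intro g hg
    rw [hA, Finset.mem_filter, Finset.mem_range] at hg
    have hinv : ∀ y, y < M → X g (X g y) = y := by
      intro y hy
      simp only [hX]
      rcases Nat.lt_or_ge y (g + 1) with hyg | hyg
      · -- y ≤ g
        have h5 : (g + (M - y)) % M = g - y := by
          rw [show g + (M - y) = (g - y) + M by omega, Nat.add_mod_right,
            Nat.mod_eq_of_lt (by omega)]
        rw [h5]
        rw [show g + (M - (g - y)) = y + M by omega, Nat.add_mod_right, Nat.mod_eq_of_lt hy]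
      · have h5 : (g + (M - y)) % M = g + (M - y) := Nat.mod_eq_of_lt (by omega)
        rw [h5]
        rw [show g + (M - (g + (M - y))) = y by omega, Nat.mod_eq_of_lt hy]
    have hlt : ∀ y, X g y < M := fun y => Nat.mod_lt _ hM
    -- image of `A` under `X g`
    have h5 : ∑ g' ∈ A, al g * al g' * S (X g g') =
        ∑ x ∈ A.image (X g), al g * al (X g x) * S x := by
      rw [Finset.sum_image]
      · refine Finset.sum_congr rfl fun g' hg' => ?_
        rw [hA, Finset.mem_filter, Finset.mem_range] at hg'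
        rw [hinv g' hg'.1]
      · intro x hx y hy hxy
        have hx' := (Finset.mem_filter.1 (Finset.mem_coe.1 hx)).1
        have hy' := (Finset.mem_filter.1 (Finset.mem_coe.1 hy)).1
        rw [Finset.mem_range] at hx' hy'
        have := congrArg (X g) hxy
        rwa [hinv x hx', hinv y hy'] at this
    rw [h5]
    refine Finset.sum_le_sum_of_subset_of_nonneg ?_ ?_
    · intro x hx
      rw [Finset.mem_image] at hx
      obtain ⟨g', hg', rfl⟩ := hx
      rw [hA, Finset.mem_filter, Finset.mem_range] at hg'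
      rw [Finset.mem_filter, Finset.mem_range]
      refine ⟨hlt _, ?_⟩
      have h6 := den_sub hM hg.1 hg'.1
      have h7 : 0 < den M g * den M g' := by
        have h8 : ∀ y, 0 < den M y := fun y => by
          unfold den
          exact Nat.div_pos (Nat.le_of_dvd hM (Nat.gcd_dvd_right _ _)) (Nat.gcd_pos_of_pos_right _ hM)
        exact Nat.mul_pos (h8 _) (h8 _)
      calc den M (X g g') ≤ den M g * den M g' := Nat.le_of_dvd h7 h6
        _ ≤ R * R := Nat.mul_le_mul hg.2 hg'.2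
        _ = R ^ 2 := (sq R).symm
    · intro x _ _
      exact mul_nonneg (mul_nonneg (hal0 _) (hal0 _)) (hS0 _)
  have h3 : ∑ g ∈ A, ∑ g' ∈ A, al g * al g' * S (X g g') ≤
      ∑ x ∈ (Finset.range M).filter (fun x => den M x ≤ R ^ 2), GQ 1 R * (f3 (den M x) * S x) := by
    refine (Finset.sum_le_sum h2).trans ?_
    rw [Finset.sum_comm]
    refine Finset.sum_le_sum fun x hx => ?_
    rw [Finset.mem_filter, Finset.mem_range] at hx
    rw [← Finset.sum_mul, ← mul_assoc]
    refine mul_le_mul_of_nonneg_right ?_ (hS0 x)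
    have h4 := convW hMs R x hx.1
    rw [← GQ_eq] at h4
    refine le_trans (le_of_eq ?_) h4
    refine Finset.sum_congr rfl fun g _ => ?_
    rw [hal, one_div_mul_one_div]
  have h4 : ∑ x ∈ (Finset.range M).filter (fun x => den M x ≤ R ^ 2), f3 (den M x) * S x ≤
      ∑ q ∈ (Finset.Icc 1 (R ^ 2)).filter Squarefree, f3 q *
        ∑ b ∈ rr q, ‖∑ i ∈ I, u i * e ((s i : ℝ) * ((b : ℝ) / q))‖ := by
    have h5 := sum_den hM (fun (q : ℕ) (y : ℝ) => f3 q * ‖∑ i ∈ I, u i * e ((s i : ℝ) * y)‖) (R ^ 2)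
    refine (le_of_eq h5).trans ?_
    have hf3 : ∀ q, 0 ≤ f3 q := fun q => by
      unfold f3
      positivity
    calc _ = ∑ q ∈ M.divisors.filter (fun q => q ≤ R ^ 2), f3 q *
        ∑ b ∈ rr q, ‖∑ i ∈ I, u i * e ((s i : ℝ) * ((b : ℝ) / q))‖ := by
          refine Finset.sum_congr rfl fun q _ => ?_
          rw [Finset.mul_sum]
      _ ≤ _ := by
          refine Finset.sum_le_sum_of_subset_of_nonneg ?_ ?_
          · intro q hq
            rw [Finset.mem_filter, Nat.mem_divisors] at hq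
            have hqs := hMs.squarefree_of_dvd hq.1.1
            rw [Finset.mem_filter, Finset.mem_Icc]
            exact ⟨⟨Nat.pos_of_ne_zero hqs.ne_zero, hq.2⟩, hqs⟩
          · intro q _ _
            exact mul_nonneg (hf3 q) (Finset.sum_nonneg fun _ _ => norm_nonneg _)
  calc 1 / (GQ 1 R) ^ 2 * _ ≤ 1 / (GQ 1 R) ^ 2 *
      (GQ 1 R * ∑ q ∈ (Finset.Icc 1 (R ^ 2)).filter Squarefree, f3 q *
        ∑ b ∈ rr q, ‖∑ i ∈ I, u i * e ((s i : ℝ) * ((b : ℝ) / q))‖) := by
        refine mul_le_mul_of_nonneg_left ?_ (by positivity)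
        refine h1.trans (h3.trans ?_)
        rw [← Finset.mul_sum]
        exact mul_le_mul_of_nonneg_left h4 hG.le
    _ = _ := by
        rw [← mul_assoc]
        congr 1
        field_simp

end Pool.Agent.Lib.MP_45349e_nt.JG
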