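import Pool.Agent.Lib.MP_45349e_nt.JG.N05

/-!
# JG-N07 (90 min): the term `h = 0`

PROOF. `mass = sg PP * N/log N`. `|Th T| ≤ |T|`, so `|Th T|^3 ≤ |T| |Th T|^2`; `f3 q ≤ C q^(-3/4)` (`f3_le`). Blocks
`2^j ≤ q < 2^(j+1)`, `f3 q ≤ C 2^(-3j/4)`: if `2^(j+1) ≤ N^(1/100)`: `lsT` with `Q = 2^(j+1)`: the block
is `≤ C 2^(-3j/4) (j+2) mass |T|^2` and `∑_j (j+2) 2^(-3j/4)` converges. The others (`2^(j+1) > N^(1/100)`,
`2^j ≤ R^2 ≤ N^(1/10)`): `BV.farey_sieve` with `Q = 2^(j+1)` (`Q^2 ≤ N`), coefficients the indicator of `T`: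
`∑ |Th T|^2 ≤ 12 N |T|`, the block is `≤ C 2^(-3j/4) 12 N |T|^2 ≤ C N^(1 - 3/400 + ..) |T|^2`; at most `log N`
such `j`; `N^(1 - 1/200) ≤ N/(log N)^3 ≤ mass` for large `N`.
-/

open Finset

namespace Pool.Agent.Lib.MP_45349e_nt.JG

open Pool.Agent.Lib.GT (e)

private theorem Th_norm_le7 (T : Finset ℕ) (α : ℝ) : ‖Th T α‖ ≤ (T.card : ℝ) := by
  unfold Th
  refine (norm_sum_le _ _).trans ?_
  refine (Finset.sum_le_card_nsmul T _ 1 (fun t _ => (Pool.Agent.Lib.GT.norm_e _).le)).trans ?_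
  simp

private theorem farey_T7 {N : ℕ} {T : Finset ℕ} (hT : T ⊆ Icc 1 N) (Q : ℕ) :
    ∑ q ∈ Icc 1 Q, ∑ b ∈ rr q, ‖Th T ((b : ℝ) / q)‖ ^ 2 ≤
      6 * (N + (Q : ℝ) ^ 2) * (T.card : ℝ) := by
  classical
  have h := Pool.Agent.Lib.BV.farey_sieve Q N (fun n => if n ∈ T then (1 : ℂ) else 0)
  have h1 : ∀ α : ℝ, ∑ n ∈ Icc 1 N, (if n ∈ T then (1 : ℂ) else 0) * e ((n : ℝ) * α) = Th T α := by
    intro α
    unfold Th
    simp only [ite_mul, one_mul, zero_mul]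
    rw [Finset.sum_ite_mem, Finset.inter_eq_right.mpr hT]
  have h2 : ∑ n ∈ Icc 1 N, ‖(if n ∈ T then (1 : ℂ) else 0)‖ ^ 2 = (T.card : ℝ) := by
    have h3 : ∀ n ∈ Icc 1 N, ‖(if n ∈ T then (1 : ℂ) else 0)‖ ^ 2 = if n ∈ T then (1 : ℝ) else 0 := by
      intro n _
      split_ifs <;> simp
    rw [Finset.sum_congr rfl h3, Finset.sum_ite_mem, Finset.inter_eq_right.mpr hT]
    simp
  simp only [h1] at h
  rw [h2] at h
  exact h

private theorem block7 (a : ℕ → ℝ) (ha : ∀ q, 0 ≤ a q) (M : ℕ) :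
    ∑ q ∈ Icc 1 M, (q : ℝ) ^ (-(3 / 4) : ℝ) * a q ≤
      ∑ j ∈ range (Nat.log 16 M + 1), (1 / 8 : ℝ) ^ j * ∑ q ∈ Icc 1 (16 ^ (j + 1)), a q := by
  have h1 : ∀ q ∈ Icc 1 M, (q : ℝ) ^ (-(3 / 4) : ℝ) * a q ≤
      ∑ j ∈ range (Nat.log 16 M + 1), (1 / 8 : ℝ) ^ j *
        (if q ∈ Icc 1 (16 ^ (j + 1)) then a q else 0) := by
    intro q hq
    rw [mem_Icc] at hq
    have hj : Nat.log 16 q ∈ range (Nat.log 16 M + 1) := by
      rw [mem_range]
      have := Nat.log_mono_right (b := 16) hq.2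
      omega
    refine le_trans ?_ (Finset.single_le_sum (f := fun j => (1 / 8 : ℝ) ^ j *
        (if q ∈ Icc 1 (16 ^ (j + 1)) then a q else 0)) ?_ hj)
    · have h2 : q ∈ Icc 1 (16 ^ (Nat.log 16 q + 1)) := by
        rw [mem_Icc]
        exact ⟨hq.1, (Nat.lt_pow_succ_log_self (by norm_num) q).le⟩
      simp only [h2, if_true]
      refine mul_le_mul_of_nonneg_right ?_ (ha q)
      have h3 : (16 : ℕ) ^ (Nat.log 16 q) ≤ q := Nat.pow_log_le_self 16 (by omega)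
      have h4 : ((16 : ℝ) ^ (Nat.log 16 q)) ≤ (q : ℝ) := by exact_mod_cast h3
      have h5 : (q : ℝ) ^ (-(3 / 4) : ℝ) ≤ ((16 : ℝ) ^ (Nat.log 16 q)) ^ (-(3 / 4) : ℝ) :=
        Real.rpow_le_rpow_of_nonpos (by positivity) h4 (by norm_num)
      refine h5.trans (le_of_eq ?_)
      rw [← Real.rpow_natCast, ← Real.rpow_mul (by norm_num), mul_comm, Real.rpow_mul (by norm_num),
        Real.rpow_natCast]
      congr 1
      rw [show (16 : ℝ) = 2 ^ (4 : ℝ) by norm_num, ← Real.rpow_mul (by norm_num),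
        show (4 : ℝ) * (-(3 / 4)) = -3 by norm_num, Real.rpow_neg (by norm_num)]
      norm_num
    · intro j _
      refine mul_nonneg (by positivity) ?_
      split_ifs
      · exact ha q
      · exact le_rfl
  refine (Finset.sum_le_sum h1).trans ?_
  rw [Finset.sum_comm]
  refine Finset.sum_le_sum fun j _ => ?_
  rw [← Finset.mul_sum]
  refine mul_le_mul_of_nonneg_left ?_ (by positivity)
  rw [Finset.sum_ite_mem]
  exact Finset.sum_le_sum_of_subset_of_nonneg Finset.inter_subset_right (fun q _ _ => ha q)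

private theorem log_ev7 : ∃ N2 : ℕ, ∀ N : ℕ, N2 ≤ N →
    3 ≤ N ∧ (Real.log N) ^ 3 ≤ (N : ℝ) ^ (1 / 200 : ℝ) := by
  have h1 := (isLittleO_log_rpow_rpow_atTop (s := (1 / 200 : ℝ)) 3 (by norm_num)).bound
    (c := 1) one_pos
  have h2 := tendsto_natCast_atTop_atTop (R := ℝ) |>.eventually h1
  obtain ⟨N2, h3⟩ := Filter.eventually_atTop.mp (h2.and (Filter.eventually_ge_atTop 3))
  refine ⟨N2, fun N hN => ?_⟩
  obtain ⟨h4, h5⟩ := h3 N hN
  refine ⟨h5, ?_⟩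
  have h6 : 0 ≤ Real.log (N : ℝ) := Real.log_natCast_nonneg N
  rw [one_mul, Real.norm_of_nonneg (Real.rpow_nonneg h6 _),
    Real.norm_of_nonneg (by positivity)] at h4
  rw [← Real.rpow_natCast]
  exact_mod_cast h4

theorem hzero : ∃ C : ℝ, ∃ N0 : ℕ, 0 < C ∧ ∀ N R : ℕ, N0 ≤ N → ∀ c : ℕ → ℤ, ∀ PP T : Finset ℕ,
    ∀ z x : ℝ, Dat N R c PP T z x → (N : ℝ) / (Real.log N) ^ 3 ≤ sg PP * N / Real.log N →
    ∑ q ∈ (Finset.Icc 1 (R ^ 2)).filter Squarefree, f3 q *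
      ∑ b ∈ rr q, ‖Th T ((b : ℝ) / q)‖ ^ 3 ≤
      C * (T.card : ℝ) ^ 2 * (sg PP * N / Real.log N) := by
  obtain ⟨C1, N1, hC1, hls⟩ := lsT
  obtain ⟨Cf, hCf, hf3⟩ := f3_le
  obtain ⟨N2, hlog⟩ := log_ev7
  refine ⟨2 * Cf * (5 * C1 + 6168), max N1 N2, by positivity, ?_⟩
  intro N R hN c PP T z x hD hmass
  obtain ⟨hN3, hlogN⟩ := hlog N (le_trans (le_max_right _ _) hN)
  have hls' := hls N R (le_trans (le_max_left _ _) hN) c PP T z x hD
  set mass : ℝ := sg PP * N / Real.log N with hmassdef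
  have hNr : (3 : ℝ) ≤ (N : ℝ) := by exact_mod_cast hN3
  have hN1 : (1 : ℝ) ≤ (N : ℝ) := by linarith
  have hN0 : (0 : ℝ) < (N : ℝ) := by linarith
  have hlN : 0 < Real.log (N : ℝ) := Real.log_pos (by linarith)
  have hm0 : 0 ≤ mass := le_trans (by positivity) hmass
  have hT0 : (0 : ℝ) ≤ (T.card : ℝ) := Nat.cast_nonneg _
  set a : ℕ → ℝ := fun q => ∑ b ∈ rr q, ‖Th T ((b : ℝ) / q)‖ ^ 2 with ha
  have ha0 : ∀ q, 0 ≤ a q := fun q => Finset.sum_nonneg fun b _ => by positivity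
  -- step 1
  have h1 : ∑ q ∈ (Finset.Icc 1 (R ^ 2)).filter Squarefree, f3 q *
      ∑ b ∈ rr q, ‖Th T ((b : ℝ) / q)‖ ^ 3 ≤
      Cf * (T.card : ℝ) * ∑ q ∈ Icc 1 (R ^ 2), (q : ℝ) ^ (-(3 / 4) : ℝ) * a q := by
    have h2 : ∀ q ∈ (Finset.Icc 1 (R ^ 2)).filter Squarefree, f3 q *
        ∑ b ∈ rr q, ‖Th T ((b : ℝ) / q)‖ ^ 3 ≤
        Cf * (T.card : ℝ) * ((q : ℝ) ^ (-(3 / 4) : ℝ) * a q) := by
      intro q hq
      rw [mem_filter] at hq
      have h3 : ∑ b ∈ rr q, ‖Th T ((b : ℝ) / q)‖ ^ 3 ≤ (T.card : ℝ) * a q := by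
        rw [ha]
        simp only
        rw [Finset.mul_sum]
        refine Finset.sum_le_sum fun b _ => ?_
        rw [pow_succ' _ 2]
        exact mul_le_mul_of_nonneg_right (Th_norm_le7 T _) (by positivity)
      have h4 : 0 ≤ f3 q := by
        unfold f3
        positivity
      have h5 := hf3 q hq.2
      calc f3 q * ∑ b ∈ rr q, ‖Th T ((b : ℝ) / q)‖ ^ 3
          ≤ (Cf * (q : ℝ) ^ (-(3 / 4) : ℝ)) * ((T.card : ℝ) * a q) :=
            mul_le_mul h5 h3 (Finset.sum_nonneg fun b _ => by positivity) (h4.trans h5)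
        _ = Cf * (T.card : ℝ) * ((q : ℝ) ^ (-(3 / 4) : ℝ) * a q) := by ring
    refine (Finset.sum_le_sum h2).trans ?_
    rw [← Finset.mul_sum]
    refine mul_le_mul_of_nonneg_left ?_ (by positivity)
    refine Finset.sum_le_sum_of_subset_of_nonneg (Finset.filter_subset _ _) fun q _ _ => ?_
    exact mul_nonneg (Real.rpow_nonneg (Nat.cast_nonneg _) _) (ha0 q)
  -- R
  have hRle : (R : ℝ) ≤ (N : ℝ) ^ (1 / 20 : ℝ) := by
    rw [hD.hR]
    exact Nat.floor_le (by positivity)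
  have hR1 : 1 ≤ R := by
    rw [hD.hR]
    apply Nat.le_floor
    rw [Nat.cast_one]
    exact Real.one_le_rpow hN1 (by norm_num)
  have hR2 : ((R ^ 2 : ℕ) : ℝ) ≤ (N : ℝ) ^ (1 / 10 : ℝ) := by
    push_cast
    calc (R : ℝ) ^ 2 ≤ ((N : ℝ) ^ (1 / 20 : ℝ)) ^ 2 := pow_le_pow_left₀ (Nat.cast_nonneg _) hRle 2
      _ = (N : ℝ) ^ (1 / 10 : ℝ) := by
        rw [← Real.rpow_natCast, ← Real.rpow_mul hN0.le]
        norm_num
  -- step 2: every block
  have h2 : ∀ j ∈ range (Nat.log 16 (R ^ 2) + 1), (1 / 8 : ℝ) ^ j * ∑ q ∈ Icc 1 (16 ^ (j + 1)), a q ≤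
      (1 / 2 : ℝ) ^ j * ((5 * C1 + 6168) * mass * (T.card : ℝ)) := by
    intro j hj
    rw [mem_range] at hj
    have hj1 : (16 : ℕ) ^ j ≤ R ^ 2 := by
      refine (Nat.pow_le_pow_right (by norm_num) (by omega : j ≤ Nat.log 16 (R ^ 2))).trans ?_
      exact Nat.pow_log_le_self 16 (by positivity)
    have hj2 : (16 : ℝ) ^ j ≤ (N : ℝ) ^ (1 / 10 : ℝ) := by
      refine le_trans ?_ hR2
      exact_mod_cast hj1
    by_cases hcase : ((16 : ℝ) ^ (j + 1)) ≤ (N : ℝ) ^ (1 / 100 : ℝ)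
    · have h3 := hls' (16 ^ (j + 1)) (Nat.one_le_pow _ _ (by norm_num)) (by push_cast; exact hcase)
      have h4 : ∑ f ∈ FQ (16 ^ (j + 1)), ‖Th T ((f.2 : ℝ) / f.1)‖ ^ 2 =
          ∑ q ∈ Icc 1 (16 ^ (j + 1)), a q := by
        unfold FQ
        rw [Finset.sum_sigma]
      rw [h4] at h3
      have h5 : Real.log (2 * ((16 ^ (j + 1) : ℕ) : ℝ)) ≤ 4 * j + 5 := by
        push_cast
        rw [show (2 : ℝ) * 16 ^ (j + 1) = 2 ^ (4 * j + 5) by
          rw [show (16 : ℝ) = 2 ^ 4 by norm_num, ← pow_mul]; ring]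
        rw [Real.log_pow]
        push_cast
        have h6 : Real.log 2 ≤ 1 := by
          have := Real.log_two_lt_d9
          linarith
        nlinarith [(Nat.cast_nonneg j : (0 : ℝ) ≤ j)]
      have h6 : (4 * j + 5 : ℝ) ≤ 5 * 4 ^ j := by
        have h7 := one_add_mul_le_pow (a := (3 : ℝ)) (by norm_num) j
        have h8 : (1 + 3 : ℝ) = 4 := by norm_num
        rw [h8] at h7
        nlinarith [(Nat.cast_nonneg j : (0 : ℝ) ≤ j)]
      have h7 : C1 * Real.log (2 * ((16 ^ (j + 1) : ℕ) : ℝ)) * mass * (T.card : ℝ) ≤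
          C1 * (5 * 4 ^ j) * mass * (T.card : ℝ) := by
        gcongr
        exact h5.trans h6
      calc (1 / 8 : ℝ) ^ j * ∑ q ∈ Icc 1 (16 ^ (j + 1)), a q
          ≤ (1 / 8 : ℝ) ^ j * (C1 * (5 * 4 ^ j) * mass * (T.card : ℝ)) :=
            mul_le_mul_of_nonneg_left (h3.trans h7) (by positivity)
        _ = ((1 / 8 : ℝ) ^ j * 4 ^ j) * (5 * C1 * mass * (T.card : ℝ)) := by ring
        _ = (1 / 2 : ℝ) ^ j * (5 * C1 * mass * (T.card : ℝ)) := by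
            rw [← mul_pow]
            norm_num
        _ ≤ (1 / 2 : ℝ) ^ j * ((5 * C1 + 6168) * mass * (T.card : ℝ)) := by
            gcongr
            linarith
    · push Not at hcase
      have h3 := farey_T7 hD.sub (16 ^ (j + 1))
      have h4 : ((((16 ^ (j + 1) : ℕ)) : ℝ)) ^ 2 ≤ 256 * N := by
        push_cast
        have h5 : ((16 : ℝ) ^ (j + 1)) ^ 2 = 256 * ((16 : ℝ) ^ j) ^ 2 := by ring
        rw [h5]
        have h6 : ((16 : ℝ) ^ j) ^ 2 ≤ ((N : ℝ) ^ (1 / 10 : ℝ)) ^ 2 :=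
          pow_le_pow_left₀ (by positivity) hj2 2
        have h7 : ((N : ℝ) ^ (1 / 10 : ℝ)) ^ 2 ≤ N := by
          rw [← Real.rpow_natCast, ← Real.rpow_mul hN0.le]
          calc (N : ℝ) ^ ((1 / 10 : ℝ) * ((2 : ℕ) : ℝ)) ≤ (N : ℝ) ^ (1 : ℝ) :=
                Real.rpow_le_rpow_of_exponent_le hN1 (by norm_num)
            _ = N := Real.rpow_one _
        linarith
      have h5 : ∑ q ∈ Icc 1 (16 ^ (j + 1)), a q ≤ 1542 * N * (T.card : ℝ) := by
        refine h3.trans ?_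
        refine mul_le_mul_of_nonneg_right ?_ hT0
        linarith
      -- `4 ^ j` is large
      have h6 : (N : ℝ) ^ (1 / 200 : ℝ) ≤ 4 * 4 ^ j := by
        have h7 : ((N : ℝ) ^ (1 / 200 : ℝ)) ^ 2 ≤ (4 * 4 ^ j) ^ 2 := by
          have h8 : ((N : ℝ) ^ (1 / 200 : ℝ)) ^ 2 = (N : ℝ) ^ (1 / 100 : ℝ) := by
            rw [← Real.rpow_natCast, ← Real.rpow_mul hN0.le]
            norm_num
          have h9 : ((4 : ℝ) * 4 ^ j) ^ 2 = 16 ^ (j + 1) := by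
            rw [mul_pow, ← pow_mul, mul_comm j 2, pow_mul]
            norm_num
            ring
          rw [h8, h9]
          exact hcase.le
        exact le_of_sq_le_sq h7 (by positivity)
      have h7 : (N : ℝ) ≤ 4 * 4 ^ j * mass := by
        have h8 : (N : ℝ) = (Real.log N) ^ 3 * ((N : ℝ) / (Real.log N) ^ 3) := by
          field_simp
        calc (N : ℝ) = (Real.log N) ^ 3 * ((N : ℝ) / (Real.log N) ^ 3) := h8
          _ ≤ (4 * 4 ^ j) * mass :=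
            mul_le_mul (hlogN.trans h6) hmass (by positivity) (by positivity)
      calc (1 / 8 : ℝ) ^ j * ∑ q ∈ Icc 1 (16 ^ (j + 1)), a q
          ≤ (1 / 8 : ℝ) ^ j * (1542 * N * (T.card : ℝ)) :=
            mul_le_mul_of_nonneg_left h5 (by positivity)
        _ ≤ (1 / 8 : ℝ) ^ j * (1542 * (4 * 4 ^ j * mass) * (T.card : ℝ)) := by
            gcongr
        _ = ((1 / 8 : ℝ) ^ j * 4 ^ j) * (6168 * mass * (T.card : ℝ)) := by ring
        _ = (1 / 2 : ℝ) ^ j * (6168 * mass * (T.card : ℝ)) := by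
            rw [← mul_pow]
            norm_num
        _ ≤ (1 / 2 : ℝ) ^ j * ((5 * C1 + 6168) * mass * (T.card : ℝ)) := by
            gcongr
            linarith
  -- step 3
  have h3 : ∑ q ∈ Icc 1 (R ^ 2), (q : ℝ) ^ (-(3 / 4) : ℝ) * a q ≤
      2 * ((5 * C1 + 6168) * mass * (T.card : ℝ)) := by
    refine (block7 a ha0 (R ^ 2)).trans ((Finset.sum_le_sum h2).trans ?_)
    rw [← Finset.sum_mul]
    refine mul_le_mul_of_nonneg_right ?_ (by positivity)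
    have h4 := geom_sum_eq (x := (1 / 2 : ℝ)) (by norm_num) (Nat.log 16 (R ^ 2) + 1)
    rw [h4]
    have h5 : (0 : ℝ) ≤ (1 / 2 : ℝ) ^ (Nat.log 16 (R ^ 2) + 1) := by positivity
    rw [div_le_iff_of_neg (by norm_num)]
    linarith
  refine h1.trans ?_
  calc Cf * (T.card : ℝ) * ∑ q ∈ Icc 1 (R ^ 2), (q : ℝ) ^ (-(3 / 4) : ℝ) * a q
      ≤ Cf * (T.card : ℝ) * (2 * ((5 * C1 + 6168) * mass * (T.card : ℝ))) :=
        mul_le_mul_of_nonneg_left h3 (by positivity)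
    _ = 2 * Cf * (5 * C1 + 6168) * (T.card : ℝ) ^ 2 * mass := by ring

end Pool.Agent.Lib.MP_45349e_nt.JG
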