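import Pool.Agent.Lib.MP_45349e_nt.JG.N04

/-!
# JG-N08 (90 min): the terms `h > 0`

PROOF. `1/p ≤ 1/z`, `f3 q ≤ C`, `|Th T|^3 ≤ |T| |Th T|^2`: the left side is `≤ (C/z) |T| ∑_{(p,h,q,b)}
|Th T (h/p + b/q)|^2`, over `p ∈ PP`, `1 ≤ h < p`, `q ≤ R^2`, `b ∈ rr q`. SPACING: `p ∤ q` as `q ≤ R^2 < p` (`R^3 < p`,
`R ≥ 1`); `h/p + b/q` is a reduced fraction with denominator `p q`; for two different index tuples the
difference minus any integer is `≠ 0`: if equal mod 1 then `p q = p' q'`; `p ∣ p' q'`, `p > R^2 ≥ q'`, so `p = p'`,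
`q = q'`, and then `h = h'`, `b = b'` (mod `p` and mod `q`). So the distance is `≥ 1/(p q p' q') ≥ 1/(x R^2)^2`.
`BV.large_sieve_add` with `δ = (x^2 R^4)⁻¹`, coefficients the indicator of `T` on `[1, N]`:
`≤ 6 (N + x^2 R^4) |T|`. (`x > 0` if `PP` is nonempty; for empty `PP` the left side is 0.)
-/

open Finset

namespace Pool.Agent.Lib.MP_45349e_nt.JG

open Pool.Agent.Lib.GT (e)

private theorem n08_farey {q c q' c' : ℕ} (k : ℤ) (hc : c < q) (hc' : c' < q') (h : c.Coprime q)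
    (h' : c'.Coprime q') (h0 : (c : ℤ) * q' - c' * q - k * q * q' = 0) : q = q' ∧ c = c' := by
  have hco : IsCoprime (q : ℤ) (c : ℤ) := (Nat.isCoprime_iff_coprime.mpr h).symm
  have hco' : IsCoprime (q' : ℤ) (c' : ℤ) := (Nat.isCoprime_iff_coprime.mpr h').symm
  have h1 : (q : ℤ) ∣ (c : ℤ) * q' := ⟨c' + k * q', by linarith⟩
  have h2 : (q' : ℤ) ∣ (c' : ℤ) * q := ⟨c - k * q, by linarith⟩
  have h3 : (q : ℤ) ∣ q' := hco.dvd_of_dvd_mul_left h1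
  have h4 : (q' : ℤ) ∣ q := hco'.dvd_of_dvd_mul_left h2
  have h5 : q = q' := Nat.dvd_antisymm (Int.natCast_dvd_natCast.mp h3) (Int.natCast_dvd_natCast.mp h4)
  subst h5
  refine ⟨rfl, ?_⟩
  have hq : (q : ℤ) ≠ 0 := by
    have : 0 < q := by omega
    exact_mod_cast this.ne'
  have h6 : (q : ℤ) * ((c : ℤ) - c' - k * q) = 0 := by linarith
  have h7 : (c : ℤ) - c' - k * q = 0 := by
    rcases mul_eq_zero.mp h6 with h8 | h8
    · exact absurd h8 hq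
    · exact h8
  have h8 : (q : ℤ) ∣ (c : ℤ) - c' := ⟨k, by linarith⟩
  have h9 : (c : ℤ) - c' = 0 := by
    apply Int.eq_zero_of_abs_lt_dvd h8
    rw [abs_lt]
    constructor <;> omega
  omega

private theorem n08_num {L p h q b p' h' q' b' : ℕ} (k : ℤ) (hp : p.Prime) (hp' : p'.Prime)
    (hL : L < p) (h1 : 1 ≤ h) (h2 : h < p) (h1' : 1 ≤ h') (h2' : h' < p')
    (hq : 1 ≤ q) (hq2 : q ≤ L) (hq' : 1 ≤ q') (hq2' : q' ≤ L) (hb : b < q) (hb' : b' < q')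
    (hc : b.Coprime q) (hc' : b'.Coprime q')
    (h0 : ((h : ℤ) * q + b * p) * (p' * q') - (h' * q' + b' * p') * (p * q) -
      k * (p * q) * (p' * q') = 0) : p = p' ∧ h = h' ∧ q = q' ∧ b = b' := by
  have hnq : ¬ p ∣ q := fun hd => by
    have := Nat.le_of_dvd (by omega) hd
    omega
  have hnq' : ¬ p ∣ q' := fun hd => by
    have := Nat.le_of_dvd (by omega) hd
    omega
  have hnh : ¬ p ∣ h := fun hd => by
    have := Nat.le_of_dvd (by omega) hd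
    omega
  have hpp : p = p' := by
    by_contra hne
    have hd : (p : ℤ) ∣ (h : ℤ) * q * p' * q' :=
      ⟨(h' * q' + b' * p') * q + k * q * (p' * q') - b * (p' * q'), by linarith⟩
    have hd' : p ∣ h * q * p' * q' := by exact_mod_cast hd
    rcases hp.dvd_mul.1 hd' with h3 | h3
    · rcases hp.dvd_mul.1 h3 with h4 | h4
      · rcases hp.dvd_mul.1 h4 with h5 | h5
        · exact hnh h5
        · exact hnq h5
      · exact hne ((Nat.prime_dvd_prime_iff_eq hp hp').1 h4)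
    · exact hnq' h3
  subst hpp
  have hp0 : (p : ℤ) ≠ 0 := by exact_mod_cast hp.pos.ne'
  have h3 : ((h : ℤ) * q + b * p) * q' - (h' * q' + b' * p) * q - k * p * q * q' = 0 := by
    have h4 : (p : ℤ) * (((h : ℤ) * q + b * p) * q' - (h' * q' + b' * p) * q -
        k * p * q * q') = 0 := by linarith
    rcases mul_eq_zero.mp h4 with h5 | h5
    · exact absurd h5 hp0
    · exact h5
  have h4 : (p : ℤ) ∣ ((h : ℤ) - h') * ((q * q' : ℕ) : ℤ) :=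
    ⟨k * q * q' + b' * q - b * q', by push_cast; linarith⟩
  have hhh : h = h' := by
    rcases (Nat.prime_iff_prime_int.1 hp).dvd_or_dvd h4 with h5 | h5
    · have h6 : (h : ℤ) - h' = 0 := by
        apply Int.eq_zero_of_abs_lt_dvd h5
        rw [abs_lt]
        constructor <;> omega
      omega
    · exfalso
      have h6 : p ∣ q * q' := by exact_mod_cast h5
      rcases hp.dvd_mul.1 h6 with h7 | h7
      · exact hnq h7
      · exact hnq' h7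
  subst hhh
  have h5 : (b : ℤ) * q' - b' * q - k * q * q' = 0 := by
    have h6 : (p : ℤ) * ((b : ℤ) * q' - b' * q - k * q * q') = 0 := by linarith
    rcases mul_eq_zero.mp h6 with h7 | h7
    · exact absurd h7 hp0
    · exact h7
  obtain ⟨h6, h7⟩ := n08_farey k hb hb' hc hc' h5
  exact ⟨rfl, rfl, h6, h7⟩

private theorem n08_norm_Th (T : Finset ℕ) (α : ℝ) : ‖Th T α‖ ≤ (T.card : ℝ) := by
  unfold Th
  refine (norm_sum_le _ _).trans ?_
  have h1 : ∀ t ∈ T, ‖e ((t : ℝ) * α)‖ = 1 := by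
    intro t _
    have h := Complex.norm_exp_ofReal_mul_I (2 * Real.pi * ((t : ℝ) * α))
    unfold e
    rw [← h]
    congr 2
    push_cast
    ring
  rw [Finset.sum_congr rfl h1]
  simp

private theorem n08_sieve {N R : ℕ} {c : ℕ → ℤ} {PP T : Finset ℕ} {z x : ℝ} (hR : 1 ≤ R)
    (hD : Dat N R c PP T z x) (hne : PP.Nonempty) :
    ∑ p ∈ PP, ∑ h ∈ Finset.Ico 1 p, ∑ q ∈ (Finset.Icc 1 (R ^ 2)).filter Squarefree,
      ∑ b ∈ rr q, ‖Th T ((h : ℝ) / p + (b : ℝ) / q)‖ ^ 2 ≤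
      6 * (N + x ^ 2 * (R : ℝ) ^ 4) * T.card := by
  classical
  have hR0 : (0 : ℝ) < (R : ℝ) := by exact_mod_cast hR
  have hx0 : 0 < x := by
    obtain ⟨p, hp⟩ := hne
    have h := hD.pr p hp
    have h1 : (0 : ℝ) < (p : ℝ) := by exact_mod_cast h.1.pos
    linarith [h.2.2.2]
  set S : Finset (((_ : ℕ) × ℕ) × ((_ : ℕ) × ℕ)) :=
    (PP.sigma (fun p => Finset.Ico 1 p)) ×ˢ
      (((Finset.Icc 1 (R ^ 2)).filter Squarefree).sigma (fun q => rr q)) with hS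
  set y : (((_ : ℕ) × ℕ) × ((_ : ℕ) × ℕ)) → ℝ :=
    fun i => (i.1.2 : ℝ) / i.1.1 + (i.2.2 : ℝ) / i.2.1 with hy
  have e1 : ∑ p ∈ PP, ∑ h ∈ Finset.Ico 1 p, ∑ q ∈ (Finset.Icc 1 (R ^ 2)).filter Squarefree,
      ∑ b ∈ rr q, ‖Th T ((h : ℝ) / p + (b : ℝ) / q)‖ ^ 2 = ∑ i ∈ S, ‖Th T (y i)‖ ^ 2 := by
    rw [hS, Finset.sum_product, Finset.sum_sigma]
    refine Finset.sum_congr rfl fun p _ => Finset.sum_congr rfl fun h _ => ?_
    rw [Finset.sum_sigma]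
  set a : ℕ → ℂ := fun n => if n ∈ T then 1 else 0 with ha
  have e2 : ∀ α : ℝ, Th T α = ∑ n ∈ Finset.Icc 1 N, a n * e ((n : ℝ) * α) := by
    intro α
    unfold Th
    rw [ha]
    simp only [ite_mul, one_mul, zero_mul]
    rw [← Finset.sum_filter]
    congr 1
    ext n
    simp only [Finset.mem_filter]
    exact ⟨fun h => ⟨hD.sub h, h⟩, fun h => h.2⟩
  have e3 : ∑ n ∈ Finset.Icc 1 N, ‖a n‖ ^ 2 = (T.card : ℝ) := by
    have h1 : ∀ n ∈ Finset.Icc 1 N, ‖a n‖ ^ 2 = if n ∈ T then (1 : ℝ) else 0 := by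
      intro n _
      rw [ha]
      simp only
      split_ifs <;> simp
    rw [Finset.sum_congr rfl h1, ← Finset.sum_filter, Finset.sum_const, nsmul_eq_mul, mul_one]
    congr 2
    ext n
    simp only [Finset.mem_filter]
    exact ⟨fun h => h.2, fun h => ⟨hD.sub h, h⟩⟩
  have hδ : (0 : ℝ) < 1 / (x ^ 2 * (R : ℝ) ^ 4) := by positivity
  have main := Pool.Agent.Lib.BV.large_sieve_add S y (1 / (x ^ 2 * (R : ℝ) ^ 4)) hδ (by
    intro i hi j hj hij k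
    rw [hS, Finset.mem_product, Finset.mem_sigma, Finset.mem_sigma, Finset.mem_filter,
      Finset.mem_Icc, Finset.mem_Ico, rr, Finset.mem_filter, Finset.mem_range] at hi hj
    obtain ⟨⟨hp, h1, h2⟩, ⟨⟨hq1, hq2⟩, -⟩, hb, hco⟩ := hi
    obtain ⟨⟨hp', h1', h2'⟩, ⟨⟨hq1', hq2'⟩, -⟩, hb', hco'⟩ := hj
    obtain ⟨hpp, hpR, -, hpx⟩ := hD.pr _ hp
    obtain ⟨hpp', hpR', -, hpx'⟩ := hD.pr _ hp'
    have hRR : R ^ 2 ≤ R ^ 3 := Nat.pow_le_pow_right hR (by norm_num)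
    have hp0 : (0 : ℝ) < (i.1.1 : ℝ) := by exact_mod_cast hpp.pos
    have hp0' : (0 : ℝ) < (j.1.1 : ℝ) := by exact_mod_cast hpp'.pos
    have hq0 : (0 : ℝ) < (i.2.1 : ℝ) := by exact_mod_cast hq1
    have hq0' : (0 : ℝ) < (j.2.1 : ℝ) := by exact_mod_cast hq1'
    have hnum : ((i.1.2 : ℤ) * i.2.1 + i.2.2 * i.1.1) * (j.1.1 * j.2.1) -
        (j.1.2 * j.2.1 + j.2.2 * j.1.1) * (i.1.1 * i.2.1) -
        k * (i.1.1 * i.2.1) * (j.1.1 * j.2.1) ≠ 0 := by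
      intro h0
      obtain ⟨g1, g2, g3, g4⟩ := n08_num (L := R ^ 2) k hpp hpp' (by omega) h1 h2 h1' h2' hq1 hq2
        hq1' hq2' hb hb' hco hco' h0
      apply hij
      exact Prod.ext (Sigma.ext g1 (heq_of_eq g2)) (Sigma.ext g3 (heq_of_eq g4))
    have g1 := Int.one_le_abs hnum
    have g2 : (1 : ℝ) ≤ |((i.1.2 : ℝ) * i.2.1 + i.2.2 * i.1.1) * (j.1.1 * j.2.1) -
        (j.1.2 * j.2.1 + j.2.2 * j.1.1) * (i.1.1 * i.2.1) -
        k * (i.1.1 * i.2.1) * (j.1.1 * j.2.1)| := by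
      exact_mod_cast g1
    have g3 : y i - y j - k = (((i.1.2 : ℝ) * i.2.1 + i.2.2 * i.1.1) * (j.1.1 * j.2.1) -
        (j.1.2 * j.2.1 + j.2.2 * j.1.1) * (i.1.1 * i.2.1) -
        k * (i.1.1 * i.2.1) * (j.1.1 * j.2.1)) / ((i.1.1 * i.2.1) * (j.1.1 * j.2.1)) := by
      rw [hy]
      simp only
      field_simp
    rw [g3, abs_div, abs_of_pos (by positivity : (0 : ℝ) < (i.1.1 * i.2.1) * (j.1.1 * j.2.1))]
    have g4 : (i.2.1 : ℝ) ≤ (R : ℝ) ^ 2 := by exact_mod_cast hq2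
    have g5 : (j.2.1 : ℝ) ≤ (R : ℝ) ^ 2 := by exact_mod_cast hq2'
    have g6 : ((i.1.1 : ℝ) * i.2.1) * (j.1.1 * j.2.1) ≤ x ^ 2 * (R : ℝ) ^ 4 := by
      have g7 : (i.1.1 : ℝ) * i.2.1 ≤ x * (R : ℝ) ^ 2 := mul_le_mul hpx g4 hq0.le hx0.le
      have g8 : (j.1.1 : ℝ) * j.2.1 ≤ x * (R : ℝ) ^ 2 := mul_le_mul hpx' g5 hq0'.le hx0.le
      calc ((i.1.1 : ℝ) * i.2.1) * (j.1.1 * j.2.1) ≤ (x * (R : ℝ) ^ 2) * (x * (R : ℝ) ^ 2) :=
            mul_le_mul g7 g8 (by positivity) (by positivity)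
        _ = x ^ 2 * (R : ℝ) ^ 4 := by ring
    exact div_le_div₀ (by positivity) g2 (by positivity) g6) N a
  rw [one_div_one_div, e3] at main
  rw [e1]
  refine le_trans (le_of_eq (Finset.sum_congr rfl fun i _ => ?_)) main
  rw [e2]

theorem hpos : ∃ C : ℝ, 0 < C ∧ ∀ N R : ℕ, 1 ≤ N → 1 ≤ R → ∀ c : ℕ → ℤ,
    ∀ PP T : Finset ℕ, ∀ z x : ℝ, Dat N R c PP T z x →
    ∑ p ∈ PP, 1 / (p : ℝ) * ∑ h ∈ Finset.Ico 1 p,
      ∑ q ∈ (Finset.Icc 1 (R ^ 2)).filter Squarefree, f3 q *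
        ∑ b ∈ rr q, ‖Th T ((h : ℝ) / p + (b : ℝ) / q)‖ ^ 3 ≤
      C / z * (T.card : ℝ) ^ 2 * (N + x ^ 2 * (R : ℝ) ^ 4) := by
  obtain ⟨C3, hC3, hf⟩ := f3_le
  refine ⟨6 * C3, by positivity, ?_⟩
  intro N R hN hR c PP T z x hD
  have hz0 : 0 < z := by
    have h1 : (0 : ℝ) < (N : ℝ) ^ (3 / 20 : ℝ) := Real.rpow_pos_of_pos (by exact_mod_cast hN) _
    linarith [hD.hz]
  rcases PP.eq_empty_or_nonempty with hE | hne
  · rw [hE, Finset.sum_empty]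
    positivity
  have hfq : ∀ q ∈ (Finset.Icc 1 (R ^ 2)).filter Squarefree, f3 q ≤ C3 := by
    intro q hq
    rw [Finset.mem_filter, Finset.mem_Icc] at hq
    refine (hf q hq.2).trans ?_
    have h1 : (q : ℝ) ^ (-(3 / 4) : ℝ) ≤ 1 :=
      Real.rpow_le_one_of_one_le_of_nonpos (by exact_mod_cast hq.1.1) (by norm_num)
    nlinarith
  have hsieve := n08_sieve hR hD hne
  calc ∑ p ∈ PP, 1 / (p : ℝ) * ∑ h ∈ Finset.Ico 1 p,
      ∑ q ∈ (Finset.Icc 1 (R ^ 2)).filter Squarefree, f3 q *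
        ∑ b ∈ rr q, ‖Th T ((h : ℝ) / p + (b : ℝ) / q)‖ ^ 3
      ≤ ∑ p ∈ PP, 1 / z * ∑ h ∈ Finset.Ico 1 p,
      ∑ q ∈ (Finset.Icc 1 (R ^ 2)).filter Squarefree, C3 *
        ∑ b ∈ rr q, ((T.card : ℝ) * ‖Th T ((h : ℝ) / p + (b : ℝ) / q)‖ ^ 2) := by
        refine Finset.sum_le_sum fun p hp => ?_
        obtain ⟨-, -, hzp, -⟩ := hD.pr p hp
        refine mul_le_mul (one_div_le_one_div_of_le hz0 hzp) ?_ ?_ (by positivity)
        · refine Finset.sum_le_sum fun h _ => Finset.sum_le_sum fun q hq => ?_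
          refine mul_le_mul (hfq q hq) ?_ (Finset.sum_nonneg fun _ _ => by positivity) hC3.le
          refine Finset.sum_le_sum fun b _ => ?_
          have h1 := n08_norm_Th T ((h : ℝ) / p + (b : ℝ) / q)
          have h2 : 0 ≤ ‖Th T ((h : ℝ) / p + (b : ℝ) / q)‖ ^ 2 := by positivity
          calc ‖Th T ((h : ℝ) / p + (b : ℝ) / q)‖ ^ 3
              = ‖Th T ((h : ℝ) / p + (b : ℝ) / q)‖ * ‖Th T ((h : ℝ) / p + (b : ℝ) / q)‖ ^ 2 := by
                ring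
            _ ≤ (T.card : ℝ) * ‖Th T ((h : ℝ) / p + (b : ℝ) / q)‖ ^ 2 :=
                mul_le_mul_of_nonneg_right h1 h2
        · refine Finset.sum_nonneg fun h _ => Finset.sum_nonneg fun q _ => ?_
          refine mul_nonneg ?_ (Finset.sum_nonneg fun _ _ => by positivity)
          unfold f3
          positivity
    _ = C3 * (T.card : ℝ) / z * ∑ p ∈ PP, ∑ h ∈ Finset.Ico 1 p,
        ∑ q ∈ (Finset.Icc 1 (R ^ 2)).filter Squarefree,
          ∑ b ∈ rr q, ‖Th T ((h : ℝ) / p + (b : ℝ) / q)‖ ^ 2 := by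
        rw [Finset.mul_sum]
        refine Finset.sum_congr rfl fun p _ => ?_
        rw [Finset.mul_sum, Finset.mul_sum]
        refine Finset.sum_congr rfl fun h _ => ?_
        rw [Finset.mul_sum, Finset.mul_sum]
        refine Finset.sum_congr rfl fun q _ => ?_
        rw [← Finset.mul_sum]
        ring
    _ ≤ C3 * (T.card : ℝ) / z * (6 * (N + x ^ 2 * (R : ℝ) ^ 4) * T.card) :=
        mul_le_mul_of_nonneg_left hsieve (by positivity)
    _ = 6 * C3 / z * (T.card : ℝ) ^ 2 * (N + x ^ 2 * (R : ℝ) ^ 4) := by ring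

end Pool.Agent.Lib.MP_45349e_nt.JG
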