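import Pool.Agent.Lib.MP_45349e_nt.JG.N06
import Pool.Agent.Lib.MP_45349e_nt.JG.N07
import Pool.Agent.Lib.MP_45349e_nt.JG.N08

/-!
# JG-N09 (60 min): the bound of the additive energy, and differences

PROOF of `energy`. `energy_le`; split `h = 0`, `h ≥ 1`. `h = 0`: `(1/G) sg PP C |T|^2 mass`, `G ≥ log R ≥ log N/21`
(`G1_low`), `sg PP/log N = mass/N`. `h ≥ 1`: `(1/G)(C/z) |T|^2 (N + x^2 R^4) ≤ C |T|^2 (N/z + x^2 R^4/z) ≤
C |T|^2 (N^(17/20) + N^(9/10)) ≤ |T|^2 N^(19/20)`.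
PROOF of `diffs`. `r(d) = #{(t, t') ∈ T'^2 : t' - t = d}`, `d > 0`: `∑_d r(d) = |T'|(|T'|-1)/2 ≥ |T'|^2/4`; Cauchy:
`(∑ r(d))^2 ≤ |D| ∑ r(d)^2` and `∑_{d > 0} r(d)^2 ≤ E4 T' ≤ E4 T`.
-/

open Finset

namespace Pool.Agent.Lib.MP_45349e_nt.JG

open Pool.Agent.Lib.GT (e)

theorem N09_pairs {T' T : Finset ℕ} (hT : T' ⊆ T) :
    ∑ d ∈ ((T' ×ˢ T').filter (fun u : ℕ × ℕ => u.1 < u.2)).image (fun u : ℕ × ℕ => u.2 - u.1),
      ((((T' ×ˢ T').filter (fun u : ℕ × ℕ => u.1 < u.2)).filter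
        (fun u : ℕ × ℕ => u.2 - u.1 = d)).card : ℝ) ^ 2 ≤ (E4 T : ℝ) := by
  classical
  set Pr := (T' ×ˢ T').filter (fun u : ℕ × ℕ => u.1 < u.2) with hPr
  set D := Pr.image (fun u : ℕ × ℕ => u.2 - u.1) with hD
  have h1 : ∑ d ∈ D, ((Pr.filter (fun u : ℕ × ℕ => u.2 - u.1 = d)).card) ^ 2 =
      (D.sigma (fun d => (Pr.filter (fun u : ℕ × ℕ => u.2 - u.1 = d)) ×ˢ
        (Pr.filter (fun u : ℕ × ℕ => u.2 - u.1 = d)))).card := by
    rw [Finset.card_sigma]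
    refine Finset.sum_congr rfl fun d _ => ?_
    rw [Finset.card_product, pow_two]
  have h2 : (D.sigma (fun d => (Pr.filter (fun u : ℕ × ℕ => u.2 - u.1 = d)) ×ˢ
        (Pr.filter (fun u : ℕ × ℕ => u.2 - u.1 = d)))).card ≤ E4 T := by
    unfold E4
    refine Finset.card_le_card_of_injOn (fun x => ((x.2.1.2, x.2.1.1), (x.2.2.2, x.2.2.1))) ?_ ?_
    · rintro ⟨d, ⟨⟨a, b⟩, ⟨a', b'⟩⟩⟩ hx
      rw [Finset.mem_coe, Finset.mem_sigma, Finset.mem_product, Finset.mem_filter,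
        Finset.mem_filter, hPr, Finset.mem_filter, Finset.mem_filter, Finset.mem_product,
        Finset.mem_product] at hx
      simp only at hx
      obtain ⟨-, ⟨⟨⟨ha, hb⟩, hab⟩, hd⟩, ⟨⟨ha', hb'⟩, hab'⟩, hd'⟩ := hx
      rw [Finset.mem_coe, Finset.mem_filter, Finset.mem_product, Finset.mem_product,
        Finset.mem_product]
      refine ⟨⟨⟨hT hb, hT ha⟩, ⟨hT hb', hT ha'⟩⟩, ?_⟩
      show b + a' = a + b'
      omega
    · rintro ⟨d, ⟨⟨a, b⟩, ⟨a', b'⟩⟩⟩ hx ⟨e, ⟨⟨f, g⟩, ⟨f', g'⟩⟩⟩ hy hxy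
      rw [Finset.mem_coe, Finset.mem_sigma, Finset.mem_product, Finset.mem_filter] at hx hy
      have hd : b - a = d := hx.2.1.2
      have he : g - f = e := hy.2.1.2
      simp only [Prod.mk.injEq] at hxy
      obtain ⟨⟨h3, h4⟩, ⟨h5, h6⟩⟩ := hxy
      subst h3 h4 h5 h6 hd he
      rfl
  have h3 : ((∑ d ∈ D, ((Pr.filter (fun u : ℕ × ℕ => u.2 - u.1 = d)).card) ^ 2 : ℕ) : ℝ) ≤
      (E4 T : ℝ) := by
    exact_mod_cast h1.trans_le h2
  push_cast at h3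
  exact h3

theorem N09_card {T' : Finset ℕ} (h2 : 2 ≤ T'.card) :
    (T'.card : ℝ) ^ 2 ≤ 4 * (((T' ×ˢ T').filter (fun u : ℕ × ℕ => u.1 < u.2)).card : ℝ) := by
  classical
  set Pr := (T' ×ˢ T').filter (fun u : ℕ × ℕ => u.1 < u.2) with hPr
  set Pr' := (T' ×ˢ T').filter (fun u : ℕ × ℕ => u.2 < u.1) with hPr'
  have h3 : Pr'.card = Pr.card := by
    refine Finset.card_bij (fun u _ => (u.2, u.1)) ?_ ?_ ?_
    · rintro ⟨a, b⟩ h
      rw [hPr', Finset.mem_filter, Finset.mem_product] at h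
      rw [hPr, Finset.mem_filter, Finset.mem_product]
      exact ⟨⟨h.1.2, h.1.1⟩, h.2⟩
    · rintro ⟨a, b⟩ _ ⟨a', b'⟩ _ h
      simp only [Prod.mk.injEq] at h ⊢
      exact ⟨h.2, h.1⟩
    · rintro ⟨a, b⟩ h
      rw [hPr, Finset.mem_filter, Finset.mem_product] at h
      refine ⟨(b, a), ?_, rfl⟩
      rw [hPr', Finset.mem_filter, Finset.mem_product]
      exact ⟨⟨h.1.2, h.1.1⟩, h.2⟩
  have h4 : T'.offDiag ⊆ Pr ∪ Pr' := by
    rintro ⟨a, b⟩ h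
    rw [Finset.mem_offDiag] at h
    rw [Finset.mem_union, hPr, hPr', Finset.mem_filter, Finset.mem_filter, Finset.mem_product]
    rcases lt_or_gt_of_ne h.2.2 with h5 | h5
    · exact Or.inl ⟨⟨h.1, h.2.1⟩, h5⟩
    · exact Or.inr ⟨⟨h.1, h.2.1⟩, h5⟩
  have h5 : T'.card * T'.card - T'.card ≤ Pr.card + Pr.card := by
    rw [← Finset.offDiag_card]
    refine (Finset.card_le_card h4).trans ((Finset.card_union_le _ _).trans ?_)
    rw [h3]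
  have h6 : T'.card * T'.card ≤ T'.card + 2 * Pr.card := by omega
  have h7 : (T'.card : ℝ) * T'.card ≤ T'.card + 2 * Pr.card := by exact_mod_cast h6
  have h8 : (2 : ℝ) ≤ T'.card := by exact_mod_cast h2
  nlinarith

theorem diffs {T' T : Finset ℕ} (hT : T' ⊆ T) (h2 : 2 ≤ T'.card) :
    (T'.card : ℝ) ^ 4 ≤ 16 * (E4 T : ℝ) *
      ((((T' ×ˢ T').filter (fun u : ℕ × ℕ => u.1 < u.2)).image
        (fun u : ℕ × ℕ => u.2 - u.1)).card : ℝ) := by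
  classical
  have h3 := N09_pairs hT
  have h4 := N09_card h2
  set Pr := (T' ×ˢ T').filter (fun u : ℕ × ℕ => u.1 < u.2) with hPr
  set D := Pr.image (fun u : ℕ × ℕ => u.2 - u.1) with hD
  have h5 : (Pr.card : ℝ) = ∑ d ∈ D, ((Pr.filter (fun u : ℕ × ℕ => u.2 - u.1 = d)).card : ℝ) := by
    have h6 := Finset.card_eq_sum_card_image (fun u : ℕ × ℕ => u.2 - u.1) Pr
    rw [h6]
    push_cast
    rfl
  have h7 : (Pr.card : ℝ) ^ 2 ≤ D.card * (E4 T : ℝ) := by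
    rw [h5]
    refine (sq_sum_le_card_mul_sum_sq).trans ?_
    exact mul_le_mul_of_nonneg_left h3 (Nat.cast_nonneg _)
  calc (T'.card : ℝ) ^ 4 = ((T'.card : ℝ) ^ 2) ^ 2 := by ring
    _ ≤ (4 * (Pr.card : ℝ)) ^ 2 := pow_le_pow_left₀ (by positivity) h4 2
    _ = 16 * (Pr.card : ℝ) ^ 2 := by ring
    _ ≤ 16 * (D.card * (E4 T : ℝ)) := mul_le_mul_of_nonneg_left h7 (by norm_num)
    _ = _ := by ring

theorem N09_split {N R : ℕ} {c : ℕ → ℤ} {PP T : Finset ℕ} {z x : ℝ} (h : Dat N R c PP T z x)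
    (hR : 1 ≤ R) :
    (E4 T : ℝ) ≤ 1 / GQ 1 R * (sg PP * (∑ q ∈ (Finset.Icc 1 (R ^ 2)).filter Squarefree, f3 q *
      ∑ b ∈ rr q, ‖Th T ((b : ℝ) / q)‖ ^ 3) +
      ∑ p ∈ PP, 1 / (p : ℝ) * ∑ h ∈ Finset.Ico 1 p,
      ∑ q ∈ (Finset.Icc 1 (R ^ 2)).filter Squarefree, f3 q *
        ∑ b ∈ rr q, ‖Th T ((h : ℝ) / p + (b : ℝ) / q)‖ ^ 3) := by
  refine (energy_le h hR).trans (le_of_eq ?_)
  congr 1
  unfold sg
  rw [Finset.sum_mul, ← Finset.sum_add_distrib]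
  refine Finset.sum_congr rfl fun p hp => ?_
  rw [← mul_add]
  congr 1
  have hp0 : 0 < p := (h.pr p hp).1.pos
  have h1 : Finset.range p = insert 0 (Finset.Ico 1 p) := by
    ext i
    rw [Finset.mem_range, Finset.mem_insert, Finset.mem_Ico]
    omega
  rw [h1, Finset.sum_insert (by rw [Finset.mem_Ico]; omega)]
  congr 1
  refine Finset.sum_congr rfl fun q _ => ?_
  congr 1
  refine Finset.sum_congr rfl fun b _ => ?_
  rw [Nat.cast_zero, zero_div, zero_add]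

theorem N09_G {N : ℕ} (hN : 2 ^ 420 ≤ N) :
    1 ≤ ⌊(N : ℝ) ^ (1 / 20 : ℝ)⌋₊ ∧ 1 ≤ GQ 1 ⌊(N : ℝ) ^ (1 / 20 : ℝ)⌋₊ ∧
    Real.log N / 21 ≤ GQ 1 ⌊(N : ℝ) ^ (1 / 20 : ℝ)⌋₊ := by
  have hNR : (2 : ℝ) ^ 420 ≤ (N : ℝ) := by exact_mod_cast hN
  have hN0 : (0 : ℝ) < N := lt_of_lt_of_le (by positivity) hNR
  have hlog : 420 * Real.log 2 ≤ Real.log N := by
    have h1 := Real.log_le_log (by positivity) hNR
    rw [Real.log_pow] at h1
    push_cast at h1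
    exact h1
  have h20 : (2 : ℝ) ^ 21 ≤ (N : ℝ) ^ (1 / 20 : ℝ) := by
    calc (2 : ℝ) ^ 21 = ((2 : ℝ) ^ 420) ^ (1 / 20 : ℝ) := by
          rw [← Real.rpow_natCast, ← Real.rpow_natCast, ← Real.rpow_mul (by norm_num)]
          norm_num
      _ ≤ _ := Real.rpow_le_rpow (by positivity) hNR (by norm_num)
  set y := (N : ℝ) ^ (1 / 20 : ℝ) with hy
  have hy2 : (2 : ℝ) ≤ y := le_trans (by norm_num) h20
  have hR1 : 1 ≤ ⌊y⌋₊ := by
    rw [Nat.one_le_floor_iff]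
    linarith
  have hRy : y / 2 ≤ (⌊y⌋₊ : ℝ) := by
    have h1 := Nat.lt_floor_add_one y
    linarith
  have hlR : Real.log N / 21 ≤ Real.log (⌊y⌋₊ : ℝ) := by
    have h1 : Real.log (y / 2) ≤ Real.log (⌊y⌋₊ : ℝ) := Real.log_le_log (by linarith) hRy
    have h2 : Real.log (y / 2) = 1 / 20 * Real.log N - Real.log 2 := by
      rw [Real.log_div (by linarith) (by norm_num), hy, Real.log_rpow hN0]
    rw [h2] at h1
    linarith
  have hG := G1_low hR1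
  refine ⟨hR1, ?_, hlR.trans hG⟩
  have h3 : 1 ≤ Real.log N / 21 := by
    have h4 := Real.log_two_gt_d9
    linarith
  exact (h3.trans hlR).trans hG

theorem energy : ∃ C : ℝ, ∃ N0 : ℕ, 0 < C ∧ ∀ N R : ℕ, N0 ≤ N → ∀ c : ℕ → ℤ, ∀ PP T : Finset ℕ,
    ∀ z x : ℝ, Dat N R c PP T z x → (N : ℝ) / (Real.log N) ^ 3 ≤ sg PP * N / Real.log N →
    (E4 T : ℝ) ≤ C * (T.card : ℝ) ^ 2 * (sg PP * N / Real.log N) ^ 2 / N +
      (T.card : ℝ) ^ 2 * (N : ℝ) ^ (19 / 20 : ℝ) := by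
  obtain ⟨C1, N1, hC1, h1⟩ := hzero
  obtain ⟨C2, hC2, h2⟩ := hpos
  refine ⟨21 * C1, max N1 (max (2 ^ 420) ⌈(2 * C2) ^ 20⌉₊), by positivity, ?_⟩
  intro N R hN c PP T z x hD hm
  have hN1 : N1 ≤ N := (le_max_left _ _).trans hN
  have hN2 : 2 ^ 420 ≤ N := ((le_max_left _ _).trans (le_max_right _ _)).trans hN
  have hN3 : (2 * C2) ^ 20 ≤ (N : ℝ) := by
    have h3 : ⌈(2 * C2) ^ 20⌉₊ ≤ N := ((le_max_right _ _).trans (le_max_right _ _)).trans hN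
    exact (Nat.le_ceil _).trans (by exact_mod_cast h3)
  have hNR : (2 : ℝ) ^ 420 ≤ (N : ℝ) := by exact_mod_cast hN2
  have hN0 : (0 : ℝ) < N := lt_of_lt_of_le (by positivity) hNR
  have hN1' : (1 : ℝ) ≤ N := le_trans (one_le_pow₀ (by norm_num)) hNR
  obtain ⟨hR1, hG1, hGl⟩ := N09_G hN2
  rw [← hD.hR] at hR1 hG1 hGl
  have hL : 0 < Real.log N := by
    apply Real.log_pos
    exact lt_of_lt_of_le (one_lt_pow₀ (by norm_num) (by norm_num)) hNR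
  have h3 := N09_split hD hR1
  have h4 := h1 N R hN1 c PP T z x hD hm
  have h5 := h2 N R (by exact_mod_cast hN1') hR1 c PP T z x hD
  set X0 := ∑ q ∈ (Finset.Icc 1 (R ^ 2)).filter Squarefree, f3 q *
      ∑ b ∈ rr q, ‖Th T ((b : ℝ) / q)‖ ^ 3 with hX0
  set X1 := ∑ p ∈ PP, 1 / (p : ℝ) * ∑ h ∈ Finset.Ico 1 p,
      ∑ q ∈ (Finset.Icc 1 (R ^ 2)).filter Squarefree, f3 q *
        ∑ b ∈ rr q, ‖Th T ((h : ℝ) / p + (b : ℝ) / q)‖ ^ 3 with hX1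
  set G := GQ 1 R with hG
  set t := (T.card : ℝ) with ht
  have hG0 : 0 < G := by linarith
  have hsg : 0 ≤ sg PP := Finset.sum_nonneg fun p _ => by positivity
  have ht0 : 0 ≤ t := Nat.cast_nonneg _
  have hz0 : 0 < z := lt_of_lt_of_le (Real.rpow_pos_of_pos hN0 _) hD.hz
  -- first term
  have hA : 1 / G * (sg PP * X0) ≤ 21 * C1 * t ^ 2 * (sg PP * N / Real.log N) ^ 2 / N := by
    have h6 : sg PP * X0 ≤ sg PP * (C1 * t ^ 2 * (sg PP * N / Real.log N)) :=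
      mul_le_mul_of_nonneg_left h4 hsg
    have h7 : 1 / G ≤ 21 / Real.log N := by
      rw [div_le_div_iff₀ hG0 hL]
      linarith
    have h8 : 0 ≤ sg PP * (C1 * t ^ 2 * (sg PP * N / Real.log N)) := by positivity
    calc 1 / G * (sg PP * X0) ≤ 1 / G * (sg PP * (C1 * t ^ 2 * (sg PP * N / Real.log N))) :=
          mul_le_mul_of_nonneg_left h6 (by positivity)
      _ ≤ 21 / Real.log N * (sg PP * (C1 * t ^ 2 * (sg PP * N / Real.log N))) :=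
          mul_le_mul_of_nonneg_right h7 h8
      _ = _ := by
          field_simp
  -- second term
  have hB : 1 / G * X1 ≤ t ^ 2 * (N : ℝ) ^ (19 / 20 : ℝ) := by
    have h6 : 1 / G ≤ 1 := by
      rw [div_le_one hG0]
      exact hG1
    have h9 : 0 ≤ C2 / z * t ^ 2 * (N + x ^ 2 * (R : ℝ) ^ 4) := by positivity
    have h10 : 1 / G * X1 ≤ C2 / z * t ^ 2 * (N + x ^ 2 * (R : ℝ) ^ 4) := by
      calc 1 / G * X1 ≤ 1 / G * (C2 / z * t ^ 2 * (N + x ^ 2 * (R : ℝ) ^ 4)) :=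
            mul_le_mul_of_nonneg_left h5 (by positivity)
        _ ≤ 1 * (C2 / z * t ^ 2 * (N + x ^ 2 * (R : ℝ) ^ 4)) :=
            mul_le_mul_of_nonneg_right h6 h9
        _ = _ := one_mul _
    refine h10.trans ?_
    have h11 : (N : ℝ) / z ≤ (N : ℝ) ^ (9 / 10 : ℝ) := by
      rw [div_le_iff₀ hz0]
      calc (N : ℝ) = (N : ℝ) ^ (17 / 20 : ℝ) * (N : ℝ) ^ (3 / 20 : ℝ) := by
            rw [← Real.rpow_add hN0]
            norm_num
        _ ≤ (N : ℝ) ^ (9 / 10 : ℝ) * z :=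
            mul_le_mul (Real.rpow_le_rpow_of_exponent_le hN1' (by norm_num)) hD.hz
              (by positivity) (by positivity)
    have h12 : x ^ 2 * (R : ℝ) ^ 4 / z ≤ (N : ℝ) ^ (9 / 10 : ℝ) := by
      rw [div_le_iff₀ hz0]
      linarith [hD.hxz]
    have h13 : 2 * C2 ≤ (N : ℝ) ^ (1 / 20 : ℝ) := by
      calc 2 * C2 = ((2 * C2) ^ 20) ^ (1 / 20 : ℝ) := by
            rw [← Real.rpow_natCast, ← Real.rpow_mul (by positivity)]
            norm_num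
        _ ≤ _ := Real.rpow_le_rpow (by positivity) hN3 (by norm_num)
    calc C2 / z * t ^ 2 * (N + x ^ 2 * (R : ℝ) ^ 4)
        = C2 * t ^ 2 * (N / z + x ^ 2 * (R : ℝ) ^ 4 / z) := by
          field_simp
      _ ≤ C2 * t ^ 2 * ((N : ℝ) ^ (9 / 10 : ℝ) + (N : ℝ) ^ (9 / 10 : ℝ)) :=
          mul_le_mul_of_nonneg_left (add_le_add h11 h12) (by positivity)
      _ = t ^ 2 * ((2 * C2) * (N : ℝ) ^ (9 / 10 : ℝ)) := by ring
      _ ≤ t ^ 2 * ((N : ℝ) ^ (1 / 20 : ℝ) * (N : ℝ) ^ (9 / 10 : ℝ)) :=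
          mul_le_mul_of_nonneg_left (mul_le_mul_of_nonneg_right h13 (by positivity))
            (by positivity)
      _ = _ := by
          rw [← Real.rpow_add hN0]
          norm_num
  rw [mul_add] at h3
  linarith

end Pool.Agent.Lib.MP_45349e_nt.JG
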