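import Pool.Agent.Lib.MP_45349e_nt.AA.Step
import Pool.Agent.Lib.MP_45349e_nt.AA.Poly
import Pool.Agent.Lib.MP_45349e_nt.JG.M07

/-!
# JG-Q01 (75 min): moving the primes which cover two points, and the size of `p_k`

PROOF of `gap_of_pair`. `d = t' - t`, `0 < d`, even since `2 = pn 0`: `t` and `t'` avoid the class `a 0` mod 2.
New classes: for `i < k` with `pn i ∤ t - a i` and `pn i ∤ t' - a i`: `a' i = a i - t`. For the other `i` (set
`I`): `pn i ≥ z ≥ 3` by `hav`, take a class which avoids `0` and `d` (`AA.exists_avoid`). `E`: the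
`j ∈ (0, d)` for which `j + t` is a lost point, i.e. `j + t ∈ Lost`. If `0 < j < d`, `j ∉ E`: `j + t ∈ (0, N)` is
covered by some `i < k`, and if it is covered only by `i ∈ I`, it is in `Lost`. So `Qd k s d`;
`AA.mem_gaps_of_holes` with `d < N ≤ (pn k)^2`.
PROOF of `gaps_mono`: `AA.cov`-free: `d ∈ gaps k`, `k ≥ 3`: `Qd k 0 d` (`AA.mem_gaps`: classes `-a`), then
`mem_gaps_of_holes` with `s = 0` (needs `d < pn k ^ 2`) or directly `Qd.mono` and `mem_gaps_of_Qd` for `d ≥ 3`,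
`two_mem_gaps` for `d = 2` (`d = 1` is impossible: parity).
PROOF of `pn_size2`: number of primes `≤ pn (k-1)` is `k` (`AA.primeCounting_pn`), `x = pn (k-1)`: `k ≥ x/log x`
(`pc_low`), so `√x ≤ k`, `log x ≤ 2 log k`, `x ≤ 2 k log k`; `k ≤ x/log x + C x/(log x)^2 ≤ 2 x/log x` (`pc_up`),
`x ≥ (k/2) log x ≥ (k/2) log k`.
-/

open Finset

namespace Pool.Agent.Lib.MP_45349e_nt.JG

open Pool.Agent.Lib.MP_45349e_nt.AA (pn Cov Qd gaps)

open Classical in
theorem gap_of_pair {k N r s z : ℕ} (hk : 3 ≤ k) (hz : 3 ≤ z) {a : ℕ → ℤ}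
    (hcov : ∀ j : ℕ, 0 < j → j < N → ∃ i < k, (pn i : ℤ) ∣ (j : ℤ) - a i)
    {t t' : ℕ} (ht0 : 0 < t) (htt : t < t') (ht' : t' < N)
    (hav : ∀ i : ℕ, i < k → ((pn i : ℤ) ∣ (t : ℤ) - a i ∨ (pn i : ℤ) ∣ (t' : ℤ) - a i) → z ≤ pn i)
    (hs : ((Finset.Ico 1 N).filter (fun j : ℕ =>
      (∀ i < k, (pn i : ℤ) ∣ (j : ℤ) - a i →
        ((pn i : ℤ) ∣ (t : ℤ) - a i ∨ (pn i : ℤ) ∣ (t' : ℤ) - a i)))).card ≤ s)
    (h3 : 3 * s ≤ r) (hN : N ≤ pn k ^ 2) : t' - t ∈ gaps (k + r) := by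
  have hev : Even (t' - t) := by
    have h0 : ¬ ((pn 0 : ℤ) ∣ (t : ℤ) - a 0 ∨ (pn 0 : ℤ) ∣ (t' : ℤ) - a 0) := by
      intro h
      have h1 := hav 0 (by omega) h
      rw [AA.pn_zero] at h1
      omega
    rw [AA.pn_zero] at h0
    push Not at h0
    obtain ⟨h1, h2⟩ := h0
    rw [Nat.even_iff]
    push_cast at h1 h2
    omega
  refine AA.mem_gaps_of_holes hk hev (by omega) (by omega) ?_ h3
  have hex : ∀ i : ℕ, ∃ c : ℤ, 3 ≤ pn i →
      ¬ (pn i : ℤ) ∣ 0 - c ∧ ¬ (pn i : ℤ) ∣ ((t' - t : ℕ) : ℤ) - c := by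
    intro i
    by_cases h : 3 ≤ pn i
    · obtain ⟨c, hc⟩ := AA.exists_avoid (pn i) h ((t' - t : ℕ) : ℤ)
      exact ⟨c, fun _ => hc⟩
    · exact ⟨0, fun h' => absurd h' h⟩
  choose c hc using hex
  refine ⟨fun i => if (pn i : ℤ) ∣ (t : ℤ) - a i ∨ (pn i : ℤ) ∣ (t' : ℤ) - a i then c i
    else a i - t, ?_, ((Finset.Ico 1 N).filter (fun j : ℕ =>
      (∀ i < k, (pn i : ℤ) ∣ (j : ℤ) - a i →
        ((pn i : ℤ) ∣ (t : ℤ) - a i ∨ (pn i : ℤ) ∣ (t' : ℤ) - a i)))).image (fun j => j - t),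
    Finset.card_image_le.trans hs, ?_⟩
  · intro i hi
    by_cases h : (pn i : ℤ) ∣ (t : ℤ) - a i ∨ (pn i : ℤ) ∣ (t' : ℤ) - a i
    · simp only [if_pos h]
      exact hc i (hz.trans (hav i hi h))
    · simp only [if_neg h]
      push Not at h
      refine ⟨?_, ?_⟩
      · have e1 : (0 : ℤ) - (a i - t) = (t : ℤ) - a i := by ring
        rw [e1]
        exact h.1
      · have e1 : ((t' - t : ℕ) : ℤ) - (a i - t) = (t' : ℤ) - a i := by
          rw [Nat.cast_sub htt.le]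
          ring
        rw [e1]
        exact h.2
  · intro j hj0 hjd hjE
    have h1 : j + t ∉ (Finset.Ico 1 N).filter (fun j : ℕ =>
      (∀ i < k, (pn i : ℤ) ∣ (j : ℤ) - a i →
        ((pn i : ℤ) ∣ (t : ℤ) - a i ∨ (pn i : ℤ) ∣ (t' : ℤ) - a i))) := by
      intro h
      apply hjE
      rw [Finset.mem_image]
      exact ⟨j + t, h, by omega⟩
    rw [Finset.mem_filter, Finset.mem_Ico] at h1
    have h2 : ¬ (∀ i < k, (pn i : ℤ) ∣ ((j + t : ℕ) : ℤ) - a i →
        ((pn i : ℤ) ∣ (t : ℤ) - a i ∨ (pn i : ℤ) ∣ (t' : ℤ) - a i)) := by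
      intro h
      exact h1 ⟨⟨by omega, by omega⟩, h⟩
    push Not at h2
    obtain ⟨i, hi, h4, h5⟩ := h2
    refine ⟨i, hi, ?_⟩
    have h6 : ¬ ((pn i : ℤ) ∣ (t : ℤ) - a i ∨ (pn i : ℤ) ∣ (t' : ℤ) - a i) := by
      push Not
      exact h5
    simp only [if_neg h6]
    have e1 : (j : ℤ) - (a i - t) = ((j + t : ℕ) : ℤ) - a i := by
      push_cast
      ring
    rw [e1]
    exact h4

theorem gaps_mono {k k' : ℕ} (hk : 3 ≤ k) (h : k ≤ k') : gaps k ⊆ gaps k' := by
  intro d hd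
  rw [AA.mem_gaps] at hd
  obtain ⟨h0, a, h1, h2, h3, h4, h5⟩ := hd
  rw [AA.coprime_pml] at h3 h4
  have h6 := h3 0 (by omega)
  have h7 := h4 0 (by omega)
  rw [AA.pn_zero] at h6 h7
  rcases Nat.lt_or_ge d 3 with hd3 | hd3
  · have : d = 2 := by omega
    subst this
    exact AA.two_mem_gaps (by omega)
  · have hQ : Qd k 0 d := by
      refine ⟨fun _ => -(a : ℤ), ?_, ∅, by simp, ?_⟩
      · intro i hi
        refine ⟨?_, ?_⟩
        · have e1 : (0 : ℤ) - -(a : ℤ) = ((a : ℕ) : ℤ) := by ring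
          rw [e1, Int.natCast_dvd_natCast]
          exact h3 i hi
        · have e1 : (d : ℤ) - -(a : ℤ) = ((a + d : ℕ) : ℤ) := by
            push_cast
            ring
          rw [e1, Int.natCast_dvd_natCast]
          exact h4 i hi
      · intro j hj0 hjd _
        have h8 := h5 (a + j) (by omega) (by omega)
        rw [AA.coprime_pml] at h8
        push Not at h8
        obtain ⟨i, hi, h9⟩ := h8
        refine ⟨i, hi, ?_⟩
        have e1 : (j : ℤ) - -(a : ℤ) = ((a + j : ℕ) : ℤ) := by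
          push_cast
          ring
        rw [e1, Int.natCast_dvd_natCast]
        exact h9
    have h8 := AA.Qd.mono (by omega) hQ (k' - k)
    rw [Nat.add_sub_cancel' h] at h8
    exact AA.mem_gaps_of_Qd (by omega) hd3 h8

private lemma q01_pc (k : ℕ) : pc (pn k : ℝ) = (k : ℝ) + 1 := by
  have h := AA.primeCounting_pn k
  unfold pc
  rw [Nat.floor_natCast]
  have h1 : ((Finset.Icc 1 (pn k)).filter Nat.Prime).card = Nat.primeCounting (pn k) := by
    rw [Nat.primeCounting, Nat.primeCounting', Nat.count_eq_card_filter_range]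
    congr 1
    ext n
    simp only [Finset.mem_filter, Finset.mem_Icc, Finset.mem_range]
    constructor
    · rintro ⟨⟨_, h3⟩, h4⟩
      exact ⟨by omega, h4⟩
    · rintro ⟨h3, h4⟩
      exact ⟨⟨h4.one_lt.le, by omega⟩, h4⟩
  rw [h1, h]
  push_cast
  ring

theorem pn_size2 : ∃ k0 : ℕ, 2 ≤ k0 ∧ ∀ k : ℕ, k0 ≤ k →
    (k : ℝ) * Real.log k / 2 ≤ pn (k - 1) ∧ (pn (k - 1) : ℝ) ≤ 2 * (k * Real.log k) := by
  obtain ⟨t0, ht0, hlow⟩ := pc_low
  obtain ⟨C, hC, hup⟩ := pc_up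
  refine ⟨⌈max t0 (Real.exp C)⌉₊ + 256, by omega, fun k hk => ?_⟩
  have hkr : max t0 (Real.exp C) + 256 ≤ (k : ℝ) := by
    have h1 : (((⌈max t0 (Real.exp C)⌉₊ + 256 : ℕ) : ℕ) : ℝ) ≤ (k : ℝ) := by exact_mod_cast hk
    push_cast at h1
    have h2 := Nat.le_ceil (max t0 (Real.exp C))
    linarith
  have hk1 : t0 ≤ k := by linarith [le_max_left t0 (Real.exp C), hkr]
  have hk2 : Real.exp C ≤ k := by linarith [le_max_right t0 (Real.exp C), hkr]
  have hk3 : (256 : ℝ) ≤ k := by linarith [le_max_left t0 (Real.exp C), hkr]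
  have hkn : 256 ≤ k := by omega
  set x : ℝ := (pn (k - 1) : ℝ) with hx
  have hxk : (k : ℝ) ≤ x := by
    have h1 := AA.add_two_le_pn (k - 1)
    have h2 : k ≤ pn (k - 1) := by omega
    rw [hx]
    exact_mod_cast h2
  have hpc : pc x = (k : ℝ) := by
    rw [hx, q01_pc, Nat.cast_sub (by omega)]
    push_cast
    ring
  have hx0 : 0 < x := by linarith
  have hlx : 0 < Real.log x := Real.log_pos (by linarith)
  have hl1 := hlow x (by linarith)
  rw [hpc] at hl1
  have hu1 := (hup x (by linarith)).1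
  rw [hpc] at hu1
  have hsq : Real.log x ≤ √x := by
    have h1 := AA.log_le_two_sqrt' (√x) (by
      rw [Real.one_le_sqrt]
      linarith)
    rw [Real.log_sqrt hx0.le] at h1
    have h2 : 4 ≤ √(√x) := by
      apply Real.le_sqrt_of_sq_le
      apply Real.le_sqrt_of_sq_le
      norm_num
      linarith
    have h3 : √(√x) * √(√x) = √x := Real.mul_self_sqrt (Real.sqrt_nonneg x)
    nlinarith
  have hsx : √x * √x = x := Real.mul_self_sqrt hx0.le
  have hs0 : 0 < √x := Real.sqrt_pos.2 hx0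
  have hsk : √x ≤ k := by
    refine le_trans ?_ hl1
    rw [le_div_iff₀ hlx]
    calc √x * Real.log x ≤ √x * √x := mul_le_mul_of_nonneg_left hsq hs0.le
      _ = x := hsx
  have hlk : Real.log x ≤ 2 * Real.log k := by
    have h1 := Real.log_le_log hs0 hsk
    rw [Real.log_sqrt hx0.le] at h1
    linarith
  rw [div_le_iff₀ hlx] at hl1
  constructor
  · have h1 : C ≤ Real.log x := by
      rw [Real.le_log_iff_exp_le hx0]
      linarith
    have h2 : C * x / (Real.log x) ^ 2 ≤ x / Real.log x := by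
      rw [div_le_div_iff₀ (by positivity) hlx]
      have h3 : x * Real.log x ^ 2 = (Real.log x * x) * Real.log x := by ring
      rw [h3]
      exact mul_le_mul_of_nonneg_right (mul_le_mul_of_nonneg_right h1 hx0.le) hlx.le
    have h3 : (k : ℝ) ≤ 2 * (x / Real.log x) := by linarith
    have h4 : (k : ℝ) * Real.log x ≤ 2 * x := by
      have h5 := mul_le_mul_of_nonneg_right h3 hlx.le
      have h6 : 2 * (x / Real.log x) * Real.log x = 2 * x := by
        field_simp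
      linarith
    have h5 : Real.log k ≤ Real.log x := Real.log_le_log (by linarith) hxk
    have h6 : (k : ℝ) * Real.log k ≤ k * Real.log x :=
      mul_le_mul_of_nonneg_left h5 (by linarith)
    linarith
  · have h1 : (k : ℝ) * Real.log x ≤ k * (2 * Real.log k) :=
      mul_le_mul_of_nonneg_left hlk (by linarith)
    linarith

end Pool.Agent.Lib.MP_45349e_nt.JG
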