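import Pool.Agent.Lib.MP_45349e_nt.JG.Q02n
import Pool.Agent.Lib.MP_45349e_nt.JG.M27
import Pool.Agent.Lib.MP_45349e_nt.JG.N09
import Pool.Agent.Lib.MP_45349e_nt.LS.PSum

/-!
# JG-Q02: the core theorem

PROOF. `a` the classes of the covering (`Cov`), `c p := a (Nat.count Nat.Prime p)`, `x = pn (k-1)`,
`z = ⌈Cz N/(r log N)⌉₊`, `R = ⌊N^(1/20)⌋₊`, `PP = P z (x + 1)`,
`T = {t ∈ [1, N-1] : p ∤ t - c p, all primes p < z}`, `|T| = Tc (N-1) z c`; `Dat N R c PP T z x`.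
`L = log N`, `l = log ((N-1)/z^2) ≥ 1`. `hS`: `|T| ≥ (c1/2) N l/L^2`; `sg PP ≤ C' l/L`; so with
`m = sg PP N/L`: `m ≤ C'' |T|`, and `|T| ≤ C3 m` (`mass_ge`). `∑_{t ∈ T} |P_t| = ∑_{p ∈ PP} |A_p| ≤
C3 m` (`BT`); `T' = {t ∈ T : |P_t| ≤ B}`, `|T'| ≥ |T|/2`. `energy`: `E4 T ≤ C''' |T|^4/N`; `diffs`; each
difference is in `gaps (k+r)` by `gap_of_pair`.
-/

open Finset

namespace Pool.Agent.Lib.MP_45349e_nt.JG

open Pool.Agent.Lib.MP_45349e_nt.AA (pn Cov Qd gaps)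
open Pool.Agent.Lib.MP_45349e_nt.LS (P)

/-- the class of the prime `p` -/
noncomputable def Q02_c (a : ℕ → ℤ) (p : ℕ) : ℤ := a (Nat.count Nat.Prime p)

theorem Q02_c_pn (a : ℕ → ℤ) (i : ℕ) : Q02_c a (pn i) = a i := by
  unfold Q02_c pn
  rw [Nat.count_nth_of_infinite Nat.infinite_setOfPred_prime]

open Classical in
/-- the unsifted set -/
noncomputable def Q02_T (N z : ℕ) (c : ℕ → ℤ) : Finset ℕ :=
  (Finset.Icc 1 (N - 1)).filter (fun j : ℕ => ∀ p ∈ P 2 z, ¬ (p : ℤ) ∣ (j : ℤ) - c p)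

theorem Q02_T_card (N z : ℕ) (c : ℕ → ℤ) : ((Q02_T N z c).card : ℝ) = Tc (N - 1) z c := rfl

theorem Q02_mem_T {N z : ℕ} {c : ℕ → ℤ} {t : ℕ} : t ∈ Q02_T N z c ↔
    (1 ≤ t ∧ t ≤ N - 1) ∧ ∀ p : ℕ, p.Prime → p < z → ¬ (p : ℤ) ∣ (t : ℤ) - c p := by
  unfold Q02_T P
  rw [Finset.mem_filter, Finset.mem_Icc]
  refine and_congr_right fun _ => ⟨fun h p hp hpz => h p ?_, fun h p hp => ?_⟩
  · rw [Finset.mem_filter, Finset.mem_Ico]
    exact ⟨⟨hp.two_le, hpz⟩, hp⟩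
  · rw [Finset.mem_filter, Finset.mem_Ico] at hp
    exact h p hp.2 hp.1.2

theorem Q02_mem_P {z x p : ℕ} : p ∈ P z (x + 1) ↔ (z ≤ p ∧ p ≤ x) ∧ p.Prime := by
  unfold P
  rw [Finset.mem_filter, Finset.mem_Ico]
  constructor
  · rintro ⟨⟨h1, h2⟩, h3⟩
    exact ⟨⟨h1, by omega⟩, h3⟩
  · rintro ⟨⟨h1, h2⟩, h3⟩
    exact ⟨⟨h1, by omega⟩, h3⟩

/-- every prime `≤ pn (k - 1)` is one of the first `k` primes -/
theorem Q02_idx {k p : ℕ} (hk : 1 ≤ k) (hp : p.Prime) (h : p ≤ pn (k - 1)) :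
    ∃ i < k, pn i = p := by
  refine ⟨Nat.count Nat.Prime p, ?_, Nat.nth_count hp⟩
  have h1 : pn (Nat.count Nat.Prime p) ≤ pn (k - 1) := by
    unfold pn at h ⊢
    rw [Nat.nth_count hp]
    exact h
  have h2 := Pool.Agent.Lib.MP_45349e_nt.AA.pn_strictMono.le_iff_le.mp h1
  omega

theorem Q02_pn_le {k i : ℕ} (hi : i < k) : pn i ≤ pn (k - 1) :=
  Pool.Agent.Lib.MP_45349e_nt.AA.pn_strictMono.monotone (by omega)

/-- each element of `T` is covered by a prime of `PP` -/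
theorem Q02_cov {k N z : ℕ} {a : ℕ → ℤ}
    (hcov : ∀ j : ℕ, 0 < j → j < N → ∃ i < k, (pn i : ℤ) ∣ (j : ℤ) - a i) {t : ℕ}
    (ht : t ∈ Q02_T N z (Q02_c a)) :
    ∃ p ∈ P z (pn (k - 1) + 1), (p : ℤ) ∣ (t : ℤ) - Q02_c a p := by
  rw [Q02_mem_T] at ht
  obtain ⟨⟨h1, h2⟩, h3⟩ := ht
  obtain ⟨i, hi, hd⟩ := hcov t (by omega) (by omega)
  have hd' : (pn i : ℤ) ∣ (t : ℤ) - Q02_c a (pn i) := by rwa [Q02_c_pn]
  refine ⟨pn i, Q02_mem_P.mpr ⟨⟨?_, Q02_pn_le hi⟩, Pool.Agent.Lib.MP_45349e_nt.AA.pn_prime i⟩, hd'⟩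
  by_contra hlt
  exact h3 (pn i) (Pool.Agent.Lib.MP_45349e_nt.AA.pn_prime i) (not_le.mp hlt) hd'

theorem Q02_dat {k N z R : ℕ} {a : ℕ → ℤ}
    (hcov : ∀ j : ℕ, 0 < j → j < N → ∃ i < k, (pn i : ℤ) ∣ (j : ℤ) - a i)
    (hR : R = ⌊(N : ℝ) ^ (1 / 20 : ℝ)⌋₊) (hN : 1 ≤ N)
    (hz : (N : ℝ) ^ (9 / 20 : ℝ) ≤ z)
    (hx : (pn (k - 1) : ℝ) ≤ (N : ℝ) ^ (3 / 5 : ℝ))
    (hxz : (pn (k - 1) : ℝ) ^ 2 * (R : ℝ) ^ 4 ≤ z * (N : ℝ) ^ (9 / 10 : ℝ)) (hRz : R ^ 3 < z) :
    Dat N R (Q02_c a) (P z (pn (k - 1) + 1)) (Q02_T N z (Q02_c a)) z (pn (k - 1)) where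
  sub := by
    intro t ht
    rw [Q02_mem_T] at ht
    rw [Finset.mem_Icc]
    exact ⟨ht.1.1, by omega⟩
  av := by
    intro t ht q hq hqR
    rw [Q02_mem_T] at ht
    refine ht.2 q hq ?_
    have : R ≤ R ^ 3 := Nat.le_self_pow (by norm_num) R
    omega
  cov := fun t ht => Q02_cov hcov ht
  pr := by
    intro p hp
    rw [Q02_mem_P] at hp
    exact ⟨hp.2, by omega, by exact_mod_cast hp.1.1, by exact_mod_cast hp.1.2⟩
  hR := hR
  hz := by
    refine le_trans (Real.rpow_le_rpow_of_exponent_le (by exact_mod_cast hN) ?_) hz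
    norm_num
  hx := hx
  hxz := hxz

/-- bound of the sum of `1/p` over `PP` -/
theorem Q02_sg : ∃ C' : ℝ, 0 < C' ∧ ∀ N z x : ℕ, ∀ l : ℝ, 3 ≤ z → 2 ≤ N →
    (N : ℝ) ^ (9 / 20 : ℝ) ≤ z → 1 ≤ l → Real.log ((x : ℝ) / z) ≤ 2 * l →
    sg (P z (x + 1)) ≤ C' * l / Real.log N := by
  obtain ⟨C, hC, hP⟩ := Pool.Agent.Lib.MP_45349e_nt.LS.psum2
  refine ⟨20 / 9 * (2 + C), by positivity, fun N z x l hz hN hNz hl hxz => ?_⟩
  have hNr : (2 : ℝ) ≤ N := by exact_mod_cast hN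
  have hL : 0 < Real.log N := Real.log_pos (by linarith)
  have hzr : (3 : ℝ) ≤ z := by exact_mod_cast hz
  rcases (P z (x + 1)).eq_empty_or_nonempty with he | ⟨p₀, hp₀⟩
  · rw [he]
    unfold sg
    rw [Finset.sum_empty]
    positivity
  · rw [Q02_mem_P] at hp₀
    have hzx : (z : ℝ) ≤ x := by exact_mod_cast hp₀.1.1.trans hp₀.1.2
    have h1 := hP z x (by linarith) hzx (P z (x + 1)) (by
      intro p hp
      rw [Q02_mem_P] at hp
      exact ⟨hp.2, by exact_mod_cast hp.1.1, by exact_mod_cast hp.1.2⟩)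
    have hlz : 9 / 20 * Real.log N ≤ Real.log z := by
      rw [← Real.log_rpow (by linarith)]
      exact Real.log_le_log (by positivity) hNz
    have hlz0 : 0 < Real.log z := Real.log_pos (by linarith)
    have hlx0 : 0 < Real.log x := Real.log_pos (by linarith)
    have h2 : Real.log (Real.log x / Real.log z) ≤ Real.log ((x : ℝ) / z) / Real.log z := by
      have h3 := Real.log_le_sub_one_of_pos (show 0 < Real.log x / Real.log z by positivity)
      have h4 : Real.log ((x : ℝ) / z) = Real.log x - Real.log z :=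
        Real.log_div (by linarith) (by linarith)
      rw [h4, sub_div, div_self hlz0.ne']
      exact h3
    have h5 : sg (P z (x + 1)) ≤ (2 + C) * l / Real.log z := by
      have h6 : (2 * l + C) / Real.log z ≤ (2 + C) * l / Real.log z := by
        apply div_le_div_of_nonneg_right _ hlz0.le
        nlinarith
      have h7 : Real.log ((x : ℝ) / z) / Real.log z ≤ 2 * l / Real.log z :=
        div_le_div_of_nonneg_right hxz hlz0.le
      unfold sg
      calc ∑ p ∈ P z (x + 1), 1 / (p : ℝ)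
          ≤ Real.log (Real.log x / Real.log z) + C / Real.log z := h1
        _ ≤ 2 * l / Real.log z + C / Real.log z := by linarith
        _ = (2 * l + C) / Real.log z := by ring
        _ ≤ _ := h6
    have h8 : (2 + C) * l / Real.log z ≤ (2 + C) * l / (9 / 20 * Real.log N) :=
      div_le_div_of_nonneg_left (by positivity) (by positivity) hlz
    calc sg (P z (x + 1)) ≤ (2 + C) * l / (9 / 20 * Real.log N) := h5.trans h8
      _ = 20 / 9 * (2 + C) * l / Real.log N := by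
        field_simp

/-- double counting of the pairs `(t, p)` -/
theorem Q02_double (c : ℕ → ℤ) (PP T : Finset ℕ) :
    ∑ t ∈ T, ((PP.filter (fun p : ℕ => (p : ℤ) ∣ (t : ℤ) - c p)).card : ℝ) =
      ∑ p ∈ PP, ((T.filter (fun t : ℕ => (p : ℤ) ∣ (t : ℤ) - c p)).card : ℝ) := by
  simp only [Finset.card_filter, Nat.cast_sum]
  rw [Finset.sum_comm]

/-- at least one half of the elements have few representations -/
theorem Q02_half (T : Finset ℕ) (f : ℕ → ℝ) (hf : ∀ t, 0 ≤ f t) (B : ℝ) (hB : 0 < B)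
    (h : ∑ t ∈ T, f t ≤ B / 2 * T.card) :
    (T.card : ℝ) / 2 ≤ ((T.filter (fun t => f t ≤ B)).card : ℝ) := by
  have h1 := Finset.card_filter_add_card_filter_not (s := T) (fun t => f t ≤ B)
  have h1' : ((T.filter (fun t => f t ≤ B)).card : ℝ) +
      ((T.filter (fun t => ¬ f t ≤ B)).card : ℝ) = T.card := by exact_mod_cast h1
  have h2 : B * ((T.filter (fun t => ¬ f t ≤ B)).card : ℝ) ≤ ∑ t ∈ T, f t := by
    calc B * ((T.filter (fun t => ¬ f t ≤ B)).card : ℝ)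
        = ∑ _t ∈ T.filter (fun t => ¬ f t ≤ B), B := by
          rw [Finset.sum_const, nsmul_eq_mul, mul_comm]
      _ ≤ ∑ t ∈ T.filter (fun t => ¬ f t ≤ B), f t := by
          refine Finset.sum_le_sum fun t ht => ?_
          rw [Finset.mem_filter] at ht
          exact (not_le.mp ht.2).le
      _ ≤ ∑ t ∈ T, f t :=
          Finset.sum_le_sum_of_subset_of_nonneg (Finset.filter_subset _ _) fun t _ _ => hf t
  have h3 : ((T.filter (fun t => ¬ f t ≤ B)).card : ℝ) ≤ T.card / 2 := by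
    have h4 : B * ((T.filter (fun t => ¬ f t ≤ B)).card : ℝ) ≤ B * (T.card / 2) := by
      calc _ ≤ _ := h2.trans h
        _ = _ := by ring
    exact le_of_mul_le_mul_left h4 hB
  linarith

/-- a lost point lies in `T` and in the class of a prime which covers `t` or `t'` -/
theorem Q02_lost {k N z : ℕ} {a : ℕ → ℤ} (hk : 1 ≤ k) (hzx : z ≤ pn (k - 1))
    (hcov : ∀ j : ℕ, 0 < j → j < N → ∃ i < k, (pn i : ℤ) ∣ (j : ℤ) - a i) {t t' : ℕ}
    (ht : t ∈ Q02_T N z (Q02_c a)) (ht' : t' ∈ Q02_T N z (Q02_c a)) {j : ℕ}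
    (hj : j ∈ Finset.Ico 1 N)
    (hl : ∀ i < k, (pn i : ℤ) ∣ (j : ℤ) - a i →
        ((pn i : ℤ) ∣ (t : ℤ) - a i ∨ (pn i : ℤ) ∣ (t' : ℤ) - a i)) :
    j ∈ ((P z (pn (k - 1) + 1)).filter (fun p : ℕ => (p : ℤ) ∣ (t : ℤ) - Q02_c a p) ∪
      (P z (pn (k - 1) + 1)).filter (fun p : ℕ => (p : ℤ) ∣ (t' : ℤ) - Q02_c a p)).biUnion
        (fun p : ℕ => (Q02_T N z (Q02_c a)).filter
          (fun s : ℕ => (p : ℤ) ∣ (s : ℤ) - Q02_c a p)) := by
  rw [Finset.mem_Ico] at hj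
  have hjT : j ∈ Q02_T N z (Q02_c a) := by
    rw [Q02_mem_T]
    refine ⟨by omega, fun p hp hpz hd => ?_⟩
    obtain ⟨i, hi, rfl⟩ := Q02_idx hk hp (by omega)
    rw [Q02_c_pn] at hd
    rw [Q02_mem_T] at ht ht'
    rcases hl i hi hd with h | h
    · exact ht.2 _ hp hpz (by rwa [Q02_c_pn])
    · exact ht'.2 _ hp hpz (by rwa [Q02_c_pn])
  obtain ⟨p, hp, hd⟩ := Q02_cov hcov hjT
  rw [Finset.mem_biUnion]
  refine ⟨p, ?_, Finset.mem_filter.mpr ⟨hjT, hd⟩⟩
  have hp' := Q02_mem_P.mp hp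
  obtain ⟨i, hi, hip⟩ := Q02_idx hk hp'.2 hp'.1.2
  have hd' : (pn i : ℤ) ∣ (j : ℤ) - a i := by
    rw [← Q02_c_pn a i, hip]
    exact hd
  rw [Finset.mem_union, Finset.mem_filter, Finset.mem_filter]
  rcases hl i hi hd' with h | h
  · left
    refine ⟨hp, ?_⟩
    rw [← hip, Q02_c_pn]
    exact h
  · right
    refine ⟨hp, ?_⟩
    rw [← hip, Q02_c_pn]
    exact h

/-- large `N` -/
theorem Q02_large (c1 C3 : ℝ) (hc1 : 0 < c1) (n0 n1 : ℕ) :
    ∃ N0 : ℕ, ∀ N : ℕ, N0 ≤ N → n0 ≤ N - 1 ∧ n1 ≤ N ∧ 3 ≤ N ∧ 2 * C3 / c1 ≤ Real.log N ∧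
      4 ≤ c1 / 2 * N / (Real.log N) ^ 2 ∧
      (N : ℝ) ^ (19 / 20 : ℝ) ≤ (c1 / 2 * N / (Real.log N) ^ 2) ^ 2 / N := by
  set A : ℝ := 1 + 4 / c1 ^ 2 + 8 / c1 with hA
  have hA0 : 0 < A := by positivity
  have hA1 : 1 ≤ A := by
    have h1 : 0 < 4 / c1 ^ 2 := by positivity
    have h2 : 0 < 8 / c1 := by positivity
    linarith
  have hA2 : 8 / c1 ≤ A ^ 2 := by
    have h1 : 0 < 4 / c1 ^ 2 := by positivity
    nlinarith
  have hA4 : 4 / c1 ^ 2 ≤ A ^ 4 := by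
    have h1 : 0 < 8 / c1 := by positivity
    have h2 : A ≤ A ^ 4 := by
      have h3 := pow_le_pow_right₀ hA1 (show 1 ≤ 4 by norm_num)
      simpa using h3
    linarith
  have h1 := Pool.Agent.Lib.MP_45349e_nt.AA.ev_log A (1 / 80) hA0 (by norm_num)
  have h2 : Filter.Tendsto (fun N : ℕ => Real.log (N : ℝ)) Filter.atTop Filter.atTop :=
    Real.tendsto_log_atTop.comp tendsto_natCast_atTop_atTop
  have h3 := h2.eventually_ge_atTop (2 * C3 / c1)
  obtain ⟨N0, hN0⟩ := Filter.eventually_atTop.mp (h1.and h3)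
  refine ⟨N0 + n0 + n1 + 3, fun N hN => ?_⟩
  obtain ⟨h4, h5⟩ := hN0 N (by omega)
  have hNr : (3 : ℝ) ≤ N := by exact_mod_cast (show 3 ≤ N by omega)
  have hN0' : (0 : ℝ) < N := by linarith
  have hL : 0 < Real.log N := Real.log_pos (by linarith)
  have h6 : A * Real.log N ≤ (N : ℝ) ^ (1 / 80 : ℝ) := by nlinarith
  have h6' : Real.log N ≤ (N : ℝ) ^ (1 / 80 : ℝ) / A := by
    rw [le_div_iff₀ hA0]
    linarith
  have e2 : ((N : ℝ) ^ (1 / 80 : ℝ)) ^ 2 = (N : ℝ) ^ (1 / 40 : ℝ) := by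
    rw [← Real.rpow_natCast, ← Real.rpow_mul hN0'.le]
    norm_num
  have e4 : ((N : ℝ) ^ (1 / 80 : ℝ)) ^ 4 = (N : ℝ) ^ (1 / 20 : ℝ) := by
    rw [← Real.rpow_natCast, ← Real.rpow_mul hN0'.le]
    norm_num
  have h7 : (Real.log N) ^ 2 ≤ c1 / 8 * N := by
    have i1 : (Real.log N) ^ 2 ≤ ((N : ℝ) ^ (1 / 80 : ℝ) / A) ^ 2 :=
      pow_le_pow_left₀ hL.le h6' 2
    rw [div_pow, e2] at i1
    have i2 : (N : ℝ) ^ (1 / 40 : ℝ) ≤ N := by
      calc (N : ℝ) ^ (1 / 40 : ℝ) ≤ (N : ℝ) ^ (1 : ℝ) :=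
            Real.rpow_le_rpow_of_exponent_le (by linarith) (by norm_num)
        _ = N := Real.rpow_one _
    have i3 : (N : ℝ) ^ (1 / 40 : ℝ) / A ^ 2 ≤ N / (8 / c1) :=
      div_le_div₀ hN0'.le i2 (by positivity) hA2
    have i4 : (N : ℝ) / (8 / c1) = c1 / 8 * N := by
      field_simp
    linarith
  have h8 : (Real.log N) ^ 4 ≤ c1 ^ 2 / 4 * (N : ℝ) ^ (1 / 20 : ℝ) := by
    have i1 : (Real.log N) ^ 4 ≤ ((N : ℝ) ^ (1 / 80 : ℝ) / A) ^ 4 :=
      pow_le_pow_left₀ hL.le h6' 4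
    rw [div_pow, e4] at i1
    have i3 : (N : ℝ) ^ (1 / 20 : ℝ) / A ^ 4 ≤ (N : ℝ) ^ (1 / 20 : ℝ) / (4 / c1 ^ 2) :=
      div_le_div_of_nonneg_left (by positivity) (by positivity) hA4
    have i4 : (N : ℝ) ^ (1 / 20 : ℝ) / (4 / c1 ^ 2) = c1 ^ 2 / 4 * (N : ℝ) ^ (1 / 20 : ℝ) := by
      field_simp
    linarith
  refine ⟨by omega, by omega, by omega, h5, ?_, ?_⟩
  · rw [le_div_iff₀ (by positivity)]
    linarith
  · have j1 : (c1 / 2 * N / (Real.log N) ^ 2) ^ 2 / N = c1 ^ 2 / 4 * N / (Real.log N) ^ 4 := by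
      field_simp
      ring
    rw [j1, le_div_iff₀ (by positivity)]
    have j2 : (N : ℝ) ^ (19 / 20 : ℝ) * (N : ℝ) ^ (1 / 20 : ℝ) = N := by
      rw [← Real.rpow_add hN0']
      norm_num
    calc (N : ℝ) ^ (19 / 20 : ℝ) * (Real.log N) ^ 4
        ≤ (N : ℝ) ^ (19 / 20 : ℝ) * (c1 ^ 2 / 4 * (N : ℝ) ^ (1 / 20 : ℝ)) :=
          mul_le_mul_of_nonneg_left h8 (by positivity)
      _ = c1 ^ 2 / 4 * ((N : ℝ) ^ (19 / 20 : ℝ) * (N : ℝ) ^ (1 / 20 : ℝ)) := by ring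
      _ = c1 ^ 2 / 4 * N := by rw [j2]

theorem coreJ2 (hS : ThmS) : ∃ c0 C1 : ℝ, ∃ k0 : ℕ, 0 < c0 ∧ 4 ≤ C1 ∧ ∀ k : ℕ, k0 ≤ k →
    ∀ N r : ℕ, (k : ℝ) ^ (79 / 40 : ℝ) ≤ N → C1 * N ≤ (k * Real.log k) ^ 2 → Cov k N →
      C1 * ((k * Real.log k) ^ 2 / N) ^ (-(1 / 4) : ℝ) * k ≤ r → r ≤ k →
      c0 * N ≤ ((gaps (k + r)).card : ℝ) := by
  obtain ⟨c1, H, n0, hc1, hH, hS⟩ := hS
  obtain ⟨CE, NE, hCE, hE⟩ := energy
  obtain ⟨C3, NB, hC3, hB⟩ := BT
  obtain ⟨CM, NM, hCM, hM⟩ := mass_ge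
  obtain ⟨C', hC', hsg⟩ := Q02_sg
  obtain ⟨N1, hN1⟩ := Q02_large c1 CM hc1 n0 (NE + NB + NM)
  set C2 : ℝ := 2 * C' / c1 with hC2
  have hC20 : 0 < C2 := by positivity
  set B : ℝ := 2 * C3 * C2 with hBdef
  have hB0 : 0 < B := by positivity
  set Cz : ℝ := 6 * B * C3 + 6 with hCz
  have hCz6 : 6 ≤ Cz := by
    have : 0 < 6 * B * C3 := by positivity
    linarith
  obtain ⟨C1, k0, hC1, hnum⟩ := numQ Cz H N1 hCz6 hH
  refine ⟨1 / (256 * (CE * C2 ^ 2 + 1)), C1, k0, by positivity, hC1,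
    fun k hk N r hkN hN hcov hr1 hr2 => ?_⟩
  obtain ⟨a, hcov⟩ := hcov
  obtain ⟨z, hzdef⟩ : ∃ z : ℕ, z = ⌈Cz * N / (r * Real.log N)⌉₊ := ⟨_, rfl⟩
  obtain ⟨R, hRdef⟩ : ∃ R : ℕ, R = ⌊(N : ℝ) ^ (1 / 20 : ℝ)⌋₊ := ⟨_, rfl⟩
  obtain ⟨hk3, hNN, hz3, hr0, hR1, hz9, hHz, hl1, hlx, hx, hxz, hRz, hNk⟩ :=
    hnum k hk N r hkN hN hr1 hr2 z R hzdef hRdef
  obtain ⟨g1, g2, g3, g4, g5, g6⟩ := hN1 N hNN
  have hNr : (3 : ℝ) ≤ N := by exact_mod_cast g3
  have hN0 : (0 : ℝ) < N := by linarith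
  have hL : 0 < Real.log N := Real.log_pos (by linarith)
  have hzr : (3 : ℝ) ≤ z := by exact_mod_cast hz3
  have hrr : (1 : ℝ) ≤ r := by exact_mod_cast hr0
  set l : ℝ := Real.log ((N - 1 : ℕ) / (z : ℝ) ^ 2) with hl
  set c := Q02_c a with hc
  set PP := P z (pn (k - 1) + 1) with hPP
  set T := Q02_T N z c with hT
  have hdat : Dat N R c PP T z (pn (k - 1)) :=
    Q02_dat hcov hRdef (by omega) hz9 hx hxz hRz
  set m : ℝ := sg PP * N / Real.log N with hm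
  -- lower bound of the cardinality of `T`
  have hT1 : c1 / 2 * N * l / (Real.log N) ^ 2 ≤ (T.card : ℝ) := by
    have h1 := hS (N - 1) z g1 (by omega) hHz c
    rw [← Q02_T_card] at h1
    refine le_trans ?_ h1
    have h2 : ((N - 1 : ℕ) : ℝ) = N - 1 := by
      rw [Nat.cast_sub (by omega)]
      simp
    have h3 : 0 < Real.log ((N - 1 : ℕ) : ℝ) := by
      rw [h2]
      exact Real.log_pos (by linarith)
    have h4 : Real.log ((N - 1 : ℕ) : ℝ) ≤ Real.log N := by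
      rw [h2]
      exact Real.log_le_log (by linarith) (by linarith)
    apply div_le_div₀ (by positivity) _ (by positivity) (pow_le_pow_left₀ h3.le h4 2)
    have h5 : c1 / 2 * N ≤ c1 * (N - 1 : ℕ) := by
      rw [h2]
      nlinarith
    exact mul_le_mul_of_nonneg_right h5 (by linarith)
  have hT2 : c1 / 2 * N / (Real.log N) ^ 2 ≤ (T.card : ℝ) := by
    refine le_trans ?_ hT1
    apply div_le_div_of_nonneg_right _ (by positivity)
    have : 0 < c1 / 2 * N := by positivity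
    nlinarith
  have hT4 : 4 ≤ (T.card : ℝ) := g5.trans hT2
  -- the mass
  have hsg1 : sg PP ≤ C' * l / Real.log N :=
    hsg N z (pn (k - 1)) l hz3 (by omega) hz9 hl1 hlx
  have hmT : m ≤ C2 * T.card := by
    calc m ≤ C' * l / Real.log N * N / Real.log N := by
          rw [hm]
          apply div_le_div_of_nonneg_right _ hL.le
          exact mul_le_mul_of_nonneg_right hsg1 hN0.le
      _ = C2 * (c1 / 2 * N * l / (Real.log N) ^ 2) := by
          rw [hC2]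
          field_simp
      _ ≤ C2 * T.card := mul_le_mul_of_nonneg_left hT1 hC20.le
  have hTm : (T.card : ℝ) ≤ CM * m := hM N R (by omega) c PP T z _ hdat
  have hm0 : 0 < m := by
    by_contra h
    have : CM * m ≤ 0 := mul_nonpos_of_nonneg_of_nonpos hCM.le (not_lt.mp h)
    linarith
  have hmN : (N : ℝ) / (Real.log N) ^ 3 ≤ m := by
    have h1 : c1 / 2 * N / (Real.log N) ^ 2 ≤ CM * m := hT2.trans hTm
    have h2 : c1 / (2 * CM) * N / (Real.log N) ^ 2 ≤ m := by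
      have h3 : c1 / (2 * CM) * N / (Real.log N) ^ 2 =
          (c1 / 2 * N / (Real.log N) ^ 2) / CM := by
        field_simp
      rw [h3, div_le_iff₀ hCM]
      linarith
    refine le_trans ?_ h2
    rw [div_le_div_iff₀ (by positivity) (by positivity)]
    have h4 : 1 ≤ c1 / (2 * CM) * Real.log N := by
      have h5 : c1 / (2 * CM) * (2 * CM / c1) = 1 := by
        field_simp
      have h6 : c1 / (2 * CM) * (2 * CM / c1) ≤ c1 / (2 * CM) * Real.log N :=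
        mul_le_mul_of_nonneg_left g4 (by positivity)
      linarith
    have h7 : 0 < N * (Real.log N) ^ 2 := by positivity
    nlinarith
  -- few representations
  have hrep : ∑ t ∈ T, ((PP.filter (fun p : ℕ => (p : ℤ) ∣ (t : ℤ) - c p)).card : ℝ) ≤
      B / 2 * T.card := by
    rw [Q02_double]
    calc ∑ p ∈ PP, ((T.filter (fun t : ℕ => (p : ℤ) ∣ (t : ℤ) - c p)).card : ℝ)
        ≤ ∑ p ∈ PP, C3 * N / (p * Real.log N) :=
          Finset.sum_le_sum fun p hp => hB N R (by omega) c PP T z _ hdat p hp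
      _ = C3 * m := by
          rw [hm]
          unfold sg
          rw [Finset.sum_mul, Finset.sum_div, Finset.mul_sum]
          refine Finset.sum_congr rfl fun p _ => ?_
          ring
      _ ≤ C3 * (C2 * T.card) := mul_le_mul_of_nonneg_left hmT hC3.le
      _ = B / 2 * T.card := by
          rw [hBdef]
          ring
  set T' := T.filter (fun t : ℕ =>
    ((PP.filter (fun p : ℕ => (p : ℤ) ∣ (t : ℤ) - c p)).card : ℝ) ≤ B) with hT'
  have hhalf : (T.card : ℝ) / 2 ≤ (T'.card : ℝ) :=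
    Q02_half T _ (fun t => Nat.cast_nonneg _) B hB0 hrep
  have hT'2 : 2 ≤ T'.card := by
    have : (2 : ℝ) ≤ T'.card := by linarith
    exact_mod_cast this
  have hT'T : T' ⊆ T := Finset.filter_subset _ _
  -- the energy
  have hEn := hE N R (by omega) c PP T z _ hdat hmN
  have hEn2 : (E4 T : ℝ) ≤ (CE * C2 ^ 2 + 1) * (T.card : ℝ) ^ 4 / N := by
    have h1 : m ^ 2 ≤ (C2 * T.card) ^ 2 := pow_le_pow_left₀ hm0.le hmT 2
    have h2 : (N : ℝ) ^ (19 / 20 : ℝ) ≤ (T.card : ℝ) ^ 2 / N := by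
      refine g6.trans ?_
      apply div_le_div_of_nonneg_right _ hN0.le
      exact pow_le_pow_left₀ (by positivity) hT2 2
    calc (E4 T : ℝ) ≤ CE * (T.card : ℝ) ^ 2 * m ^ 2 / N +
          (T.card : ℝ) ^ 2 * (N : ℝ) ^ (19 / 20 : ℝ) := hEn
      _ ≤ CE * (T.card : ℝ) ^ 2 * (C2 * T.card) ^ 2 / N +
          (T.card : ℝ) ^ 2 * ((T.card : ℝ) ^ 2 / N) := by
          apply add_le_add
          · apply div_le_div_of_nonneg_right _ hN0.le
            exact mul_le_mul_of_nonneg_left h1 (by positivity)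
          · exact mul_le_mul_of_nonneg_left h2 (by positivity)
      _ = (CE * C2 ^ 2 + 1) * (T.card : ℝ) ^ 4 / N := by
          ring
  set DD := ((T' ×ˢ T').filter (fun u : ℕ × ℕ => u.1 < u.2)).image
        (fun u : ℕ × ℕ => u.2 - u.1) with hDD
  have hdiff := diffs hT'T hT'2
  rw [← hDD] at hdiff
  -- each difference is a gap
  have hTne : T.Nonempty := by
    rw [← Finset.card_pos]
    have : (0 : ℝ) < T.card := by linarith
    exact_mod_cast this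
  have hzx : z ≤ pn (k - 1) := by
    obtain ⟨t, ht⟩ := hTne
    obtain ⟨p, hp, _⟩ := Q02_cov hcov ht
    rw [Q02_mem_P] at hp
    omega
  have hsub : DD ⊆ gaps (k + r) := by
    intro d hd
    rw [hDD, Finset.mem_image] at hd
    obtain ⟨⟨t, t'⟩, hu, rfl⟩ := hd
    rw [Finset.mem_filter, Finset.mem_product] at hu
    obtain ⟨⟨hu1, hu2⟩, hu3⟩ := hu
    simp only at hu1 hu2 hu3 ⊢
    have ht := hT'T hu1
    have ht' := hT'T hu2
    have hb := (Finset.mem_filter.mp hu1).2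
    have hb' := (Finset.mem_filter.mp hu2).2
    have hm1 := Q02_mem_T.mp ht
    have hm2 := Q02_mem_T.mp ht'
    have hzL : 0 < (z : ℝ) * Real.log N := by positivity
    have hs0 : 0 ≤ 2 * B * (C3 * N / (z * Real.log N)) := by positivity
    refine gap_of_pair (s := ⌊2 * B * (C3 * N / (z * Real.log N))⌋₊) (z := z) hk3 hz3 hcov
      (by omega) hu3 (by omega) ?_ ?_ ?_ hNk
    · intro i hi h
      by_contra hlt
      rcases h with h | h
      · exact hm1.2 (pn i) (Pool.Agent.Lib.MP_45349e_nt.AA.pn_prime i) (not_le.mp hlt)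
          (by rwa [hc, Q02_c_pn])
      · exact hm2.2 (pn i) (Pool.Agent.Lib.MP_45349e_nt.AA.pn_prime i) (not_le.mp hlt)
          (by rwa [hc, Q02_c_pn])
    · refine (Finset.card_le_card (fun j hj => Q02_lost (by omega) hzx hcov ht ht'
        (Finset.mem_filter.mp hj).1 (Finset.mem_filter.mp hj).2)).trans ?_
      apply Nat.le_floor
      refine le_trans (Nat.cast_le.mpr Finset.card_biUnion_le) ?_
      rw [Nat.cast_sum]
      have hone : ∀ p ∈ PP, ((T.filter (fun t : ℕ => (p : ℤ) ∣ (t : ℤ) - c p)).card : ℝ) ≤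
          C3 * N / (z * Real.log N) := by
        intro p hp
        refine (hB N R (by omega) c PP T z _ hdat p hp).trans ?_
        apply div_le_div_of_nonneg_left (by positivity) hzL
        have : (z : ℝ) ≤ p := by exact_mod_cast (Q02_mem_P.mp hp).1.1
        exact mul_le_mul_of_nonneg_right this hL.le
      refine le_trans (Finset.sum_le_card_nsmul _ _ (C3 * N / (z * Real.log N)) ?_) ?_
      · intro p hp
        apply hone
        rw [Finset.mem_union, Finset.mem_filter, Finset.mem_filter] at hp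
        rcases hp with hp | hp
        · exact hp.1
        · exact hp.1
      · rw [nsmul_eq_mul]
        apply mul_le_mul_of_nonneg_right _ (by positivity)
        refine le_trans (Nat.cast_le.mpr (Finset.card_union_le _ _)) ?_
        rw [Nat.cast_add]
        linarith
    · have h1 : ((3 * ⌊2 * B * (C3 * N / (z * Real.log N))⌋₊ : ℕ) : ℝ) ≤ r := by
        rw [Nat.cast_mul]
        have h2 := Nat.floor_le hs0
        have h3 : Cz * N / (r * Real.log N) ≤ z := by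
          rw [hzdef]
          exact Nat.le_ceil _
        have h4 : Cz * N ≤ z * (r * Real.log N) := by
          rwa [div_le_iff₀ (by positivity)] at h3
        have h5 : 6 * B * C3 * N ≤ r * (z * Real.log N) := by
          have : 6 * B * C3 * N ≤ Cz * N := by
            rw [hCz]
            nlinarith
          linarith
        have h6 : 3 * (2 * B * (C3 * N / (z * Real.log N))) ≤ r := by
          have h7 : 3 * (2 * B * (C3 * N / (z * Real.log N))) =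
              6 * B * C3 * N / (z * Real.log N) := by ring
          rw [h7, div_le_iff₀ hzL]
          exact h5
        push_cast
        linarith
      exact_mod_cast h1
  have hcard : (DD.card : ℝ) ≤ ((gaps (k + r)).card : ℝ) := by
    exact_mod_cast Finset.card_le_card hsub
  refine le_trans ?_ hcard
  have hT0 : 0 < (T.card : ℝ) := by linarith
  have hK : 0 < CE * C2 ^ 2 + 1 := by positivity
  have h1 : (T.card : ℝ) ^ 4 / 16 ≤ (T'.card : ℝ) ^ 4 := by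
    have := pow_le_pow_left₀ (by positivity) hhalf 4
    calc (T.card : ℝ) ^ 4 / 16 = ((T.card : ℝ) / 2) ^ 4 := by ring
      _ ≤ _ := this
  have h2 : (T.card : ℝ) ^ 4 / 16 ≤
      16 * ((CE * C2 ^ 2 + 1) * (T.card : ℝ) ^ 4 / N) * DD.card := by
    refine h1.trans (hdiff.trans ?_)
    apply mul_le_mul_of_nonneg_right _ (Nat.cast_nonneg _)
    linarith
  have h3 : (T.card : ℝ) ^ 4 * (1 / (256 * (CE * C2 ^ 2 + 1)) * N) ≤
      (T.card : ℝ) ^ 4 * DD.card := by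
    have h4 := mul_le_mul_of_nonneg_left h2
      (show 0 ≤ N / (16 * (CE * C2 ^ 2 + 1)) by positivity)
    calc (T.card : ℝ) ^ 4 * (1 / (256 * (CE * C2 ^ 2 + 1)) * N)
        = N / (16 * (CE * C2 ^ 2 + 1)) * ((T.card : ℝ) ^ 4 / 16) := by
          field_simp
          norm_num
      _ ≤ N / (16 * (CE * C2 ^ 2 + 1)) *
          (16 * ((CE * C2 ^ 2 + 1) * (T.card : ℝ) ^ 4 / N) * DD.card) := h4
      _ = (T.card : ℝ) ^ 4 * DD.card := by
          field_simp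
  exact le_of_mul_le_mul_left h3 (by positivity)

end Pool.Agent.Lib.MP_45349e_nt.JG
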