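import Pool.Agent.Lib.MP_45349e_nt.JG.Q01

/-!
# JG-Q02n (75 min): the sizes of the parameters in the core theorem

`x = pn (k-1)`, `a = k log k`, `Y = a^2/N ≥ C1`, `a/2 ≤ x ≤ 2 a` (`pn_size2`). PROOF. `log k ≤ log N ≤ 3 log k`
(`N ≤ a^2`). `z ≥ Cz N/(r log N) ≥ 6 N/(3 k log k) = 2 N/a = 2 √(N/Y)`; `Y ≤ k^(1/40) (log k)^2 ≤ N^(1/60)`
(`N ≥ k^(79/40)`, `79/2400 > 1/40`), so `z ≥ 2 N^(1/2 - 1/120) ≥ N^(9/20)`. `z ≤ 2 Cz N/(r log N)`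
(`Cz N/(r log N) ≥ 1`), so `N/z^2 ≥ (r log N)^2/(4 Cz^2 N) ≥ (r/k)^2 Y/(4 Cz^2) ≥ C1^2 Y^(1/2)/(4 Cz^2)`
(`r/k ≥ C1 Y^(-1/4)`). `C1` large: `N/z^2 ≥ 2 H' Y^(1/2) + 2..`, so `H' z^2 ≤ N - 1`, `(N-1)/z^2 ≥ N/(2 z^2) ≥
max (e, Y^(1/2))`: `log ((N-1)/z^2) ≥ 1` and `≥ (1/2) log Y`. `x/z ≤ 2 a r log N/(Cz N) ≤ 6 a^2 (r/k)/(Cz N) ≤ Y`,
so `log (x/z) ≤ log Y ≤ 2 log ((N-1)/z^2)` (if `x/z ≤ 0`.. `x, z > 0`). `x ≤ 2 a = 2 √(N Y) ≤ 2 N^(1/2 + 1/120) ≤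
N^(3/5)`. `x^2 R^4 ≤ 4 N Y N^(1/5) ≤ 4 N^(1 + 1/60 + 1/5) ≤ N^(9/20 + 9/10) ≤ z N^(9/10)`.
`N ≤ a^2/C1 ≤ a^2/4 ≤ x^2 ≤ (pn k)^2`.
-/

open Finset

namespace Pool.Agent.Lib.MP_45349e_nt.JG

open Pool.Agent.Lib.MP_45349e_nt.AA (pn Cov Qd gaps)

/-- all the inequalities, for real variables -/
theorem numQ_real {Cz H' C1 K l N L r z x U M R q a : ℝ} (hCz : 6 ≤ Cz) (hH : 1 ≤ H')
    (hC1 : C1 = 24 * Cz ^ 2 * H') (hU : 1 ≤ U) (hU2 : 2 ≤ U ^ 40) (hK : K = U ^ 800)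
    (hl1 : 1 ≤ l) (hl : l ≤ U ^ 40) (hM : N = M ^ 20) (hUM : U ^ 79 ≤ M)
    (hL : l ≤ L) (hL3 : L ≤ 3 * l) (ha : a = K * l) (hN : C1 * N ≤ a ^ 2) (hq : 0 < q)
    (hq4 : N * q ^ 4 = a ^ 2) (hr : C1 * K ≤ r * q) (hrk : r ≤ K)
    (hz1 : Cz * N / (r * L) ≤ z) (hz2 : z ≤ Cz * N / (r * L) + 1)
    (hx1 : a / 2 ≤ x) (hx2 : x ≤ 2 * a) (hR0 : 0 ≤ R) (hR : R ≤ M) :
    0 < r ∧ M ^ 9 ≤ z ∧ 144 ≤ N ∧ H' * z ^ 2 ≤ N - 1 ∧ 72 ≤ (N - 1) / z ^ 2 ∧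
      x / z ≤ ((N - 1) / z ^ 2) ^ 2 ∧ 0 < x ∧ x ≤ M ^ 12 ∧ x ^ 2 * R ^ 4 ≤ z * M ^ 18 ∧
      R ^ 3 < z ∧ N ≤ x ^ 2 := by
  have hU0 : 0 < U := by linarith
  have hUpos : ∀ n : ℕ, 0 < U ^ n := fun n => pow_pos hU0 n
  have hK0 : 0 < K := hK ▸ hUpos 800
  have hl0 : 0 < l := by linarith
  have ha0 : 0 < a := by rw [ha]; positivity
  have hM0 : 0 < M := lt_of_lt_of_le (hUpos 79) hUM
  have hM2 : 2 ≤ M := by
    have h1 : U ^ 40 ≤ U ^ 79 := pow_le_pow_right₀ hU (by norm_num)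
    linarith
  have hM1 : 1 ≤ M := by linarith
  have hN0 : 0 < N := by rw [hM]; positivity
  have hL0 : 0 < L := by linarith
  have hCz2 : 36 ≤ Cz ^ 2 := by nlinarith
  have hC14 : 864 ≤ C1 := by rw [hC1]; nlinarith
  have hr0 : 0 < r := by
    have h1 : 0 < r * q := lt_of_lt_of_le (by positivity) hr
    exact pos_of_mul_pos_left h1 hq.le
  have hrL0 : 0 < r * L := mul_pos hr0 hL0
  have hz0 : 0 < z := lt_of_lt_of_le (by positivity) hz1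
  have haU : a ≤ U ^ 840 := by
    rw [ha, hK, show (840 : ℕ) = 800 + 40 from rfl, pow_add]
    exact mul_le_mul_of_nonneg_left hl (hUpos 800).le
  have hpw : ∀ n : ℕ, U ^ (79 * n) ≤ M ^ n := fun n => by
    rw [pow_mul]
    exact pow_le_pow_left₀ (hUpos 79).le hUM n
  have haM : a ≤ M ^ 11 := by
    have h1 : U ^ 840 ≤ U ^ (79 * 11) := pow_le_pow_right₀ hU (by norm_num)
    linarith [hpw 11]
  have hrL : r * L ≤ 3 * a := by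
    rw [ha]
    calc r * L ≤ K * (3 * l) := mul_le_mul hrk hL3 hL0.le hK0.le
      _ = 3 * (K * l) := by ring
  have hza : 2 * N ≤ z * a := by
    have h1 : Cz * N ≤ z * (r * L) := (div_le_iff₀ hrL0).1 hz1
    have h2 : z * (r * L) ≤ z * (3 * a) := mul_le_mul_of_nonneg_left hrL hz0.le
    have h3 : 6 * N ≤ Cz * N := mul_le_mul_of_nonneg_right hCz hN0.le
    linarith
  have hMz : M ^ 9 ≤ z := by
    have h1 : M ^ 9 * a ≤ M ^ 9 * M ^ 11 := mul_le_mul_of_nonneg_left haM (by positivity)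
    have h2 : M ^ 9 * M ^ 11 = N := by rw [hM]; ring
    have h3 : M ^ 9 * a ≤ z * a := by linarith
    exact le_of_mul_le_mul_right h3 ha0
  have hz1' : 1 ≤ z := le_trans (one_le_pow₀ hM1) hMz
  have hzrL : z * (r * L) ≤ 2 * (Cz * N) := by
    have h1 : r * L ≤ Cz * N := by
      have h2 : M ^ 11 ≤ M ^ 20 := pow_le_pow_right₀ hM1 (by norm_num)
      have h3 : 6 * N ≤ Cz * N := mul_le_mul_of_nonneg_right hCz hN0.le
      rw [← hM] at h2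
      linarith
    have h2 : z * (r * L) ≤ (Cz * N / (r * L) + 1) * (r * L) :=
      mul_le_mul_of_nonneg_right hz2 hrL0.le
    have h3 : (Cz * N / (r * L) + 1) * (r * L) = Cz * N + r * L := by
      field_simp
    linarith
  have hkey : z * (C1 * a) ≤ 2 * (Cz * N) * q := by
    have h1 : C1 * a ≤ r * L * q := by
      calc C1 * a = C1 * K * l := by rw [ha]; ring
        _ ≤ r * q * l := mul_le_mul_of_nonneg_right hr hl0.le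
        _ ≤ r * q * L := mul_le_mul_of_nonneg_left hL (by positivity)
        _ = r * L * q := by ring
    calc z * (C1 * a) ≤ z * (r * L * q) := mul_le_mul_of_nonneg_left h1 hz0.le
      _ = z * (r * L) * q := by ring
      _ ≤ 2 * (Cz * N) * q := mul_le_mul_of_nonneg_right hzrL hq.le
  have hq1 : 1 ≤ q := by
    by_contra hcon
    push Not at hcon
    have h1 : q ^ 4 ≤ 1 := pow_le_one₀ hq.le hcon.le
    have h2 : N * q ^ 4 ≤ N * 1 := mul_le_mul_of_nonneg_left h1 hN0.le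
    have h3 : 864 * N ≤ C1 * N := mul_le_mul_of_nonneg_right hC14 hN0.le
    linarith
  have hq2 : 1 ≤ q ^ 2 := one_le_pow₀ hq1
  have hsq : 144 * H' * q ^ 2 * z ^ 2 ≤ N := by
    have h1 : (z * (C1 * a)) ^ 2 ≤ (2 * (Cz * N) * q) ^ 2 :=
      pow_le_pow_left₀ (by positivity) hkey 2
    have h2 : (z * (C1 * a)) ^ 2 = (z ^ 2 * C1 ^ 2 * q ^ 2) * (N * q ^ 2) := by
      calc (z * (C1 * a)) ^ 2 = z ^ 2 * C1 ^ 2 * a ^ 2 := by ring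
        _ = z ^ 2 * C1 ^ 2 * (N * q ^ 4) := by rw [hq4]
        _ = _ := by ring
    have h3 : (2 * (Cz * N) * q) ^ 2 = (4 * Cz ^ 2 * N) * (N * q ^ 2) := by ring
    rw [h2, h3] at h1
    have h4 : z ^ 2 * C1 ^ 2 * q ^ 2 ≤ 4 * Cz ^ 2 * N := le_of_mul_le_mul_right h1 (by positivity)
    have h5 : z ^ 2 * C1 ^ 2 * q ^ 2 = (144 * Cz ^ 2 * H' ^ 2 * q ^ 2 * z ^ 2) * (4 * Cz ^ 2) := by
      rw [hC1]; ring
    have h6 : (144 * Cz ^ 2 * H' ^ 2 * q ^ 2 * z ^ 2) * (4 * Cz ^ 2) ≤ N * (4 * Cz ^ 2) := by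
      rw [← h5]; linarith
    have h7 : 144 * Cz ^ 2 * H' ^ 2 * q ^ 2 * z ^ 2 ≤ N :=
      le_of_mul_le_mul_right h6 (by positivity)
    have h8 : 144 * H' * q ^ 2 * z ^ 2 ≤ 144 * Cz ^ 2 * H' ^ 2 * q ^ 2 * z ^ 2 := by
      have h9 : H' ≤ Cz ^ 2 * H' ^ 2 := by nlinarith
      have h10 : 0 ≤ 144 * (q ^ 2 * z ^ 2) := by positivity
      calc 144 * H' * q ^ 2 * z ^ 2 = 144 * (q ^ 2 * z ^ 2) * H' := by ring
        _ ≤ 144 * (q ^ 2 * z ^ 2) * (Cz ^ 2 * H' ^ 2) := mul_le_mul_of_nonneg_left h9 h10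
        _ = _ := by ring
    linarith
  have hzz : 1 ≤ z ^ 2 := one_le_pow₀ hz1'
  have hz20 : 0 < z ^ 2 := by positivity
  have hHq : 1 ≤ H' * q ^ 2 := by nlinarith
  have hN144 : 144 ≤ N := by
    have h1 : 1 ≤ H' * q ^ 2 * z ^ 2 := by nlinarith
    have h2 : 144 * H' * q ^ 2 * z ^ 2 = 144 * (H' * q ^ 2 * z ^ 2) := by ring
    linarith
  have hhalf : 72 * (H' * q ^ 2) * z ^ 2 ≤ N - 1 := by
    have h2 : 144 * H' * q ^ 2 * z ^ 2 = 2 * (72 * (H' * q ^ 2) * z ^ 2) := by ring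
    linarith
  have hrat : 72 * (H' * q ^ 2) ≤ (N - 1) / z ^ 2 := by
    rw [le_div_iff₀ hz20]
    exact hhalf
  have hratq : q ^ 2 ≤ (N - 1) / z ^ 2 := by
    have h1 : q ^ 2 ≤ H' * q ^ 2 := by nlinarith
    have h2 : 0 ≤ H' * q ^ 2 := by positivity
    linarith
  have hx0 : 0 < x := by linarith
  refine ⟨hr0, hMz, hN144, ?_, ?_, ?_, hx0, ?_, ?_, ?_, ?_⟩
  · have h1 : H' * z ^ 2 ≤ 72 * (H' * q ^ 2) * z ^ 2 := by
      apply mul_le_mul_of_nonneg_right _ hz20.le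
      nlinarith
    linarith
  · linarith
  · have h1 : x / z ≤ q ^ 4 := by
      rw [div_le_iff₀ hz0]
      have h2 : N * (2 * a) ≤ N * (q ^ 4 * z) := by
        calc N * (2 * a) = 2 * N * a := by ring
          _ ≤ z * a * a := mul_le_mul_of_nonneg_right hza ha0.le
          _ = a ^ 2 * z := by ring
          _ = N * q ^ 4 * z := by rw [hq4]
          _ = N * (q ^ 4 * z) := by ring
      have h3 : 2 * a ≤ q ^ 4 * z := le_of_mul_le_mul_left h2 hN0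
      linarith
    have h2 : (q ^ 2) ^ 2 ≤ ((N - 1) / z ^ 2) ^ 2 := pow_le_pow_left₀ (by positivity) hratq 2
    have h3 : (q ^ 2) ^ 2 = q ^ 4 := by ring
    linarith
  · have h1 : 2 * U ^ 840 ≤ U ^ 40 * U ^ 840 := mul_le_mul_of_nonneg_right hU2 (hUpos 840).le
    have h2 : U ^ 40 * U ^ 840 = U ^ 880 := by rw [← pow_add]
    have h3 : U ^ 880 ≤ U ^ (79 * 12) := pow_le_pow_right₀ hU (by norm_num)
    linarith [hpw 12]
  · have hx2' : x ^ 2 ≤ 4 * a ^ 2 := by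
      have := pow_le_pow_left₀ hx0.le hx2 2
      calc x ^ 2 ≤ (2 * a) ^ 2 := this
        _ = 4 * a ^ 2 := by ring
    have hR4 : R ^ 4 ≤ M ^ 4 := pow_le_pow_left₀ hR0 hR 4
    have ha3 : 2 * a ^ 3 ≤ M ^ 34 := by
      have h1 : a ^ 3 ≤ (U ^ 840) ^ 3 := pow_le_pow_left₀ ha0.le haU 3
      have h2 : (U ^ 840) ^ 3 = U ^ 2520 := by rw [← pow_mul]
      have h3 : 2 * U ^ 2520 ≤ U ^ 40 * U ^ 2520 := mul_le_mul_of_nonneg_right hU2 (hUpos 2520).le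
      have h4 : U ^ 40 * U ^ 2520 = U ^ 2560 := by rw [← pow_add]
      have h5 : U ^ 2560 ≤ U ^ (79 * 34) := pow_le_pow_right₀ hU (by norm_num)
      linarith [hpw 34]
    have h1 : x ^ 2 * R ^ 4 ≤ 4 * a ^ 2 * M ^ 4 :=
      mul_le_mul hx2' hR4 (by positivity) (by positivity)
    have h2 : (x ^ 2 * R ^ 4) * a ≤ (z * M ^ 18) * a := by
      calc (x ^ 2 * R ^ 4) * a ≤ (4 * a ^ 2 * M ^ 4) * a := mul_le_mul_of_nonneg_right h1 ha0.le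
        _ = 2 * (2 * a ^ 3) * M ^ 4 := by ring
        _ ≤ 2 * (M ^ 34) * M ^ 4 := by
            apply mul_le_mul_of_nonneg_right _ (by positivity)
            exact mul_le_mul_of_nonneg_left ha3 (by norm_num)
        _ = (2 * M ^ 20) * M ^ 18 := by ring
        _ = (2 * N) * M ^ 18 := by rw [hM]
        _ ≤ (z * a) * M ^ 18 := mul_le_mul_of_nonneg_right hza (by positivity)
        _ = (z * M ^ 18) * a := by ring
    exact le_of_mul_le_mul_right h2 ha0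
  · have h1 : R ^ 3 ≤ M ^ 3 := pow_le_pow_left₀ hR0 hR 3
    have h2 : M ^ 3 < M ^ 9 := pow_lt_pow_right₀ (by linarith) (by norm_num)
    linarith
  · have h1 : 4 * N ≤ C1 * N := by
      apply mul_le_mul_of_nonneg_right _ hN0.le
      linarith
    have h2 : (a / 2) ^ 2 ≤ x ^ 2 := pow_le_pow_left₀ (by positivity) hx1 2
    have h3 : (a / 2) ^ 2 = a ^ 2 / 4 := by ring
    linarith

/-- the facts which hold for all large `k` -/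
theorem numQ_large (N0 : ℕ) : ∃ k0 : ℕ, ∀ k : ℕ, k0 ≤ k →
    3 ≤ k ∧ N0 ≤ k ∧ Real.log k ≤ (k : ℝ) ^ (1 / 20 : ℝ) ∧ 2 ≤ (k : ℝ) ^ (1 / 20 : ℝ) := by
  have h1 : ∀ᶠ x : ℝ in Filter.atTop, ‖Real.log x‖ ≤ 1 * ‖x ^ (1 / 20 : ℝ)‖ :=
    (isLittleO_log_rpow_atTop (by norm_num : (0 : ℝ) < 1 / 20)).def one_pos
  have h2 : ∀ᶠ x : ℝ in Filter.atTop, 2 ≤ x ^ (1 / 20 : ℝ) :=
    (tendsto_rpow_atTop (by norm_num : (0 : ℝ) < 1 / 20)).eventually_ge_atTop 2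
  have h3 := tendsto_natCast_atTop_atTop (R := ℝ)
  have h4 : ∀ᶠ k : ℕ in Filter.atTop, 3 ≤ k ∧ N0 ≤ k ∧ Real.log k ≤ (k : ℝ) ^ (1 / 20 : ℝ) ∧
      2 ≤ (k : ℝ) ^ (1 / 20 : ℝ) := by
    filter_upwards [h3.eventually h1, h3.eventually h2, Filter.eventually_ge_atTop 3,
      Filter.eventually_ge_atTop N0] with k a b c d
    refine ⟨c, d, ?_, b⟩
    rw [one_mul, Real.norm_eq_abs, Real.norm_eq_abs, abs_of_nonneg (Real.rpow_nonneg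
      (Nat.cast_nonneg k) _)] at a
    exact le_trans (le_abs_self _) a
  exact Filter.eventually_atTop.1 h4

theorem numQ (Cz H' : ℝ) (N0 : ℕ) (hCz : 6 ≤ Cz) (hH : 1 ≤ H') :
    ∃ C1 : ℝ, ∃ k0 : ℕ, 4 ≤ C1 ∧ ∀ k : ℕ, k0 ≤ k → ∀ N r : ℕ, (k : ℝ) ^ (79 / 40 : ℝ) ≤ N →
      C1 * N ≤ (k * Real.log k) ^ 2 →
      C1 * ((k * Real.log k) ^ 2 / N) ^ (-(1 / 4) : ℝ) * k ≤ r → r ≤ k →
      ∀ z R : ℕ, z = ⌈Cz * N / (r * Real.log N)⌉₊ → R = ⌊(N : ℝ) ^ (1 / 20 : ℝ)⌋₊ →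
      3 ≤ k ∧ N0 ≤ N ∧ 3 ≤ z ∧ 1 ≤ r ∧ 1 ≤ R ∧ (N : ℝ) ^ (9 / 20 : ℝ) ≤ z ∧
      H' * (z : ℝ) ^ 2 ≤ (N - 1 : ℕ) ∧ 1 ≤ Real.log ((N - 1 : ℕ) / (z : ℝ) ^ 2) ∧
      Real.log (pn (k - 1) / z) ≤ 2 * Real.log ((N - 1 : ℕ) / (z : ℝ) ^ 2) ∧
      (pn (k - 1) : ℝ) ≤ (N : ℝ) ^ (3 / 5 : ℝ) ∧
      (pn (k - 1) : ℝ) ^ 2 * (R : ℝ) ^ 4 ≤ z * (N : ℝ) ^ (9 / 10 : ℝ) ∧
      R ^ 3 < z ∧ N ≤ pn k ^ 2 := by
  obtain ⟨k1, hk1, hpn⟩ := pn_size2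
  obtain ⟨k2, hlarge⟩ := numQ_large N0
  refine ⟨24 * Cz ^ 2 * H', max k1 k2, by nlinarith, ?_⟩
  intro k hk N r hkN hCN hr hrk z R hz hR
  obtain ⟨hk3, hkN0, hlogk, hT2⟩ := hlarge k (le_trans (le_max_right _ _) hk)
  obtain ⟨hx1, hx2⟩ := hpn k (le_trans (le_max_left _ _) hk)
  have hk3' : (3 : ℝ) ≤ k := by exact_mod_cast hk3
  have hk0 : (0 : ℝ) < k := by linarith
  have hk1' : (1 : ℝ) ≤ k := by linarith
  have hl1 : 1 ≤ Real.log k := by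
    rw [Real.le_log_iff_exp_le hk0]
    have := Real.exp_one_lt_d9
    linarith
  have hkN1 : (k : ℝ) ≤ N := by
    refine le_trans ?_ hkN
    calc (k : ℝ) = (k : ℝ) ^ (1 : ℝ) := (Real.rpow_one _).symm
      _ ≤ (k : ℝ) ^ (79 / 40 : ℝ) := Real.rpow_le_rpow_of_exponent_le hk1' (by norm_num)
  have hN0 : (0 : ℝ) < N := by linarith
  have hN1 : (1 : ℝ) ≤ N := by linarith
  -- the variables `U` and `M`
  set U : ℝ := (k : ℝ) ^ (1 / 800 : ℝ) with hUdef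
  set M : ℝ := (N : ℝ) ^ (1 / 20 : ℝ) with hMdef
  have hU1 : 1 ≤ U := Real.one_le_rpow hk1' (by norm_num)
  have hU40 : U ^ 40 = (k : ℝ) ^ (1 / 20 : ℝ) := by
    rw [hUdef, ← Real.rpow_natCast, ← Real.rpow_mul hk0.le]; norm_num
  have hU800 : (k : ℝ) = U ^ 800 := by
    rw [hUdef, ← Real.rpow_natCast, ← Real.rpow_mul hk0.le]; norm_num
  have hM20 : (N : ℝ) = M ^ 20 := by
    rw [hMdef, ← Real.rpow_natCast, ← Real.rpow_mul hN0.le]; norm_num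
  have hUM : U ^ 79 ≤ M := by
    have h1 : U ^ 79 = ((k : ℝ) ^ (79 / 40 : ℝ)) ^ (1 / 20 : ℝ) := by
      rw [hUdef, ← Real.rpow_natCast, ← Real.rpow_mul hk0.le, ← Real.rpow_mul hk0.le]; norm_num
    rw [h1]
    exact Real.rpow_le_rpow (Real.rpow_nonneg hk0.le _) hkN (by norm_num)
  have hM9 : (N : ℝ) ^ (9 / 20 : ℝ) = M ^ 9 := by
    rw [hMdef, ← Real.rpow_natCast, ← Real.rpow_mul hN0.le]; norm_num
  have hM12 : (N : ℝ) ^ (3 / 5 : ℝ) = M ^ 12 := by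
    rw [hMdef, ← Real.rpow_natCast, ← Real.rpow_mul hN0.le]; norm_num
  have hM18 : (N : ℝ) ^ (9 / 10 : ℝ) = M ^ 18 := by
    rw [hMdef, ← Real.rpow_natCast, ← Real.rpow_mul hN0.le]; norm_num
  have hM1 : 1 ≤ M := Real.one_le_rpow hN1 (by norm_num)
  have hl40 : Real.log k ≤ U ^ 40 := by rw [hU40]; exact hlogk
  have hU40' : 2 ≤ U ^ 40 := by rw [hU40]; exact hT2
  have hLl : Real.log k ≤ Real.log N := Real.log_le_log hk0 hkN1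
  have hC1 : (1 : ℝ) ≤ 24 * Cz ^ 2 * H' := by nlinarith
  have hL3 : Real.log N ≤ 3 * Real.log k := by
    have h1 : (N : ℝ) ≤ (k : ℝ) ^ 3 := by
      have h2 : (N : ℝ) ≤ 24 * Cz ^ 2 * H' * N := le_mul_of_one_le_left hN0.le hC1
      have h3 : (Real.log k) ^ 2 ≤ k := by
        have h4 : (Real.log k) ^ 2 ≤ (U ^ 40) ^ 2 := pow_le_pow_left₀ (by linarith) hl40 2
        have h5 : (U ^ 40) ^ 2 = U ^ 80 := by rw [← pow_mul]
        have h6 : U ^ 80 ≤ U ^ 800 := pow_le_pow_right₀ hU1 (by norm_num)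
        rw [hU800, ← hU800]
        linarith
      calc (N : ℝ) ≤ (k * Real.log k) ^ 2 := le_trans h2 hCN
        _ = (k : ℝ) ^ 2 * (Real.log k) ^ 2 := by ring
        _ ≤ (k : ℝ) ^ 2 * k := mul_le_mul_of_nonneg_left h3 (by positivity)
        _ = (k : ℝ) ^ 3 := by ring
    calc Real.log N ≤ Real.log ((k : ℝ) ^ 3) := Real.log_le_log hN0 h1
      _ = 3 * Real.log k := by rw [Real.log_pow]; norm_num
  have ha0 : 0 < (k : ℝ) * Real.log k := mul_pos hk0 (by linarith)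
  have hY0 : 0 < ((k : ℝ) * Real.log k) ^ 2 / N := by positivity
  set q : ℝ := (((k : ℝ) * Real.log k) ^ 2 / N) ^ (1 / 4 : ℝ) with hqdef
  have hq0 : 0 < q := Real.rpow_pos_of_pos hY0 _
  have hq4 : (N : ℝ) * q ^ 4 = ((k : ℝ) * Real.log k) ^ 2 := by
    have h1 : q ^ 4 = ((k : ℝ) * Real.log k) ^ 2 / N := by
      rw [hqdef, ← Real.rpow_natCast, ← Real.rpow_mul hY0.le]; norm_num
    rw [h1]; field_simp
  have hrq : 24 * Cz ^ 2 * H' * (k : ℝ) ≤ r * q := by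
    have h1 : (((k : ℝ) * Real.log k) ^ 2 / N) ^ (-(1 / 4) : ℝ) = q⁻¹ := by
      rw [hqdef, ← Real.rpow_neg hY0.le]
    rw [h1] at hr
    calc 24 * Cz ^ 2 * H' * (k : ℝ) = (24 * Cz ^ 2 * H' * q⁻¹ * k) * q := by field_simp
      _ ≤ r * q := mul_le_mul_of_nonneg_right hr hq0.le
  have hrk' : (r : ℝ) ≤ k := by exact_mod_cast hrk
  have hzle : Cz * N / (r * Real.log N) ≤ (z : ℝ) := by rw [hz]; exact Nat.le_ceil _
  have hzge : (z : ℝ) ≤ Cz * N / (r * Real.log N) + 1 := by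
    rw [hz]
    refine (Nat.ceil_lt_add_one ?_).le
    have : 0 ≤ Real.log N := by linarith
    positivity
  have hRM : (R : ℝ) ≤ M := by rw [hR]; exact Nat.floor_le (by linarith)
  obtain ⟨c1, c2, c3, c4, c5, c6, c7, c8, c9, c10, c11⟩ :=
    numQ_real (K := (k : ℝ)) (l := Real.log k) (N := (N : ℝ)) (L := Real.log N) (r := (r : ℝ))
      (z := (z : ℝ)) (x := (pn (k - 1) : ℝ)) (U := U) (M := M) (R := (R : ℝ)) (q := q)
      (a := (k : ℝ) * Real.log k) hCz hH rfl hU1 hU40' hU800 hl1 hl40 hM20 hUM hLl hL3 rfl hCN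
      hq0 hq4 hrq hrk' hzle hzge hx1 hx2 (Nat.cast_nonneg R) hRM
  have hNn : 1 ≤ N := by exact_mod_cast hN1
  have hcast : ((N - 1 : ℕ) : ℝ) = (N : ℝ) - 1 := by push_cast [hNn]; ring
  have hz0 : (0 : ℝ) < z := lt_of_lt_of_le (by positivity) c2
  rw [hcast, hM9, hM12, hM18]
  refine ⟨hk3, ?_, ?_, ?_, ?_, c2, c4, ?_, ?_, c8, c9, ?_, ?_⟩
  · exact le_trans hkN0 (by exact_mod_cast hkN1)
  · have h2 : (2 : ℝ) ≤ M := by
      have h3 : U ^ 40 ≤ U ^ 79 := pow_le_pow_right₀ hU1 (by norm_num)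
      linarith
    have h3 : (2 : ℝ) ^ 9 ≤ M ^ 9 := pow_le_pow_left₀ (by norm_num) h2 9
    have h4 : (3 : ℝ) ≤ z := by
      have : (3 : ℝ) ≤ 2 ^ 9 := by norm_num
      linarith
    exact_mod_cast h4
  · have : 0 < r := by exact_mod_cast c1
    omega
  · rw [hR]
    exact (Nat.one_le_floor_iff _).2 hM1
  · rw [Real.le_log_iff_exp_le (by linarith)]
    have := Real.exp_one_lt_d9
    linarith
  · have h1 : 2 * Real.log (((N : ℝ) - 1) / (z : ℝ) ^ 2) =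
        Real.log ((((N : ℝ) - 1) / (z : ℝ) ^ 2) ^ 2) := by
      rw [Real.log_pow]; norm_num
    rw [h1]
    exact Real.log_le_log (div_pos c7 hz0) c6
  · exact_mod_cast c10
  · have h1 : (N : ℝ) ≤ (pn k : ℝ) ^ 2 := by
      have h2 : (pn (k - 1) : ℝ) ≤ pn k := by
        exact_mod_cast Pool.Agent.Lib.MP_45349e_nt.AA.pn_strictMono.monotone (by omega)
      have h3 : (pn (k - 1) : ℝ) ^ 2 ≤ (pn k : ℝ) ^ 2 := pow_le_pow_left₀ (by positivity) h2 2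
      linarith
    exact_mod_cast h1

end Pool.Agent.Lib.MP_45349e_nt.JG
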