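import Pool.Agent.Lib.MP_45349e_nt.JG.Q02
import Pool.Agent.Lib.MP_45349e_nt.LS.CoreT
import Pool.Agent.Lib.MP_45349e_nt.LS.Lin

/-!
# JG-Q03: Iwaniec's bound, and statement (a)
-/

open Finset

namespace Pool.Agent.Lib.MP_45349e_nt.JG

open Pool.Agent.Lib.MP_45349e_nt.AA (pn Cov Qd gaps Jf)
open Pool.Agent.Lib.MP_45349e_nt.LS (P)

private theorem Tc_zero {k N : ℕ} (a : ℕ → ℤ)
    (hcov : ∀ j : ℕ, 0 < j → j < N → ∃ i < k, (pn i : ℤ) ∣ (j : ℤ) - a i) :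
    Tc (N - 1) (pn (k - 1) + 1) (fun p => a (Nat.count Nat.Prime p)) = 0 := by
  classical
  unfold Tc
  rw [Nat.cast_eq_zero, Finset.card_eq_zero, Finset.filter_eq_empty_iff]
  intro j hj hall
  rw [Finset.mem_Icc] at hj
  obtain ⟨i, hi, hd⟩ := hcov j (by omega) (by omega)
  have hle : pn i ≤ pn (k - 1) := AA.pn_strictMono.monotone (by omega)
  have hmem : pn i ∈ P 2 (pn (k - 1) + 1) := by
    unfold P
    rw [Finset.mem_filter, Finset.mem_Ico]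
    exact ⟨⟨(AA.pn_prime i).two_le, by omega⟩, AA.pn_prime i⟩
  apply hall (pn i) hmem
  have h1 : Nat.count Nat.Prime (pn i) = i :=
    Nat.count_nth_of_infinite Nat.infinite_setOfPred_prime i
  show (pn i : ℤ) ∣ (j : ℤ) - a (Nat.count Nat.Prime (pn i))
  rw [h1]
  exact hd

theorem covS (hS : ThmS) : ∃ CI : ℝ, 1 ≤ CI ∧ ∀ k N : ℕ, 2 ≤ k → Cov k N →
    (N : ℝ) ≤ CI * (k * Real.log k) ^ 2 := by
  obtain ⟨c1, H, n0, hc1, hH, hS⟩ := hS
  obtain ⟨k0, hk0, hpn⟩ := pn_size2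
  have hn0 : (0 : ℝ) ≤ n0 := Nat.cast_nonneg _
  have hJ0 : (0 : ℝ) ≤ Jf k0 := Nat.cast_nonneg _
  refine ⟨n0 + 2 + 18 * H + Jf k0, by linarith, fun k N hk hcov => ?_⟩
  have hk2 : (2 : ℝ) ≤ k := by exact_mod_cast hk
  have hlog2 : (0.6931471803 : ℝ) < Real.log 2 := Real.log_two_gt_d9
  have hlog : Real.log 2 ≤ Real.log k := Real.log_le_log (by norm_num) hk2
  obtain ⟨y, hy⟩ : ∃ y : ℝ, y = (k : ℝ) * Real.log k := ⟨_, rfl⟩
  have hy1 : 1 ≤ y := by rw [hy]; nlinarith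
  have hy2 : 1 ≤ y ^ 2 := one_le_pow₀ hy1
  rw [← hy]
  by_cases hkk : k0 ≤ k
  · have hx := (hpn k hkk).2
    rw [← hy] at hx
    by_contra hcon
    push Not at hcon
    have h1 : (n0 : ℝ) + 2 + 18 * H * y ^ 2 < N := by
      have : (n0 : ℝ) + 2 + 18 * H * y ^ 2 ≤ (n0 + 2 + 18 * H + Jf k0) * y ^ 2 := by
        have h2 : (n0 : ℝ) + 2 ≤ (n0 + 2) * y ^ 2 := by nlinarith
        have h3 : 0 ≤ (Jf k0 : ℝ) * y ^ 2 := by positivity
        nlinarith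
      linarith
    have hHy : 1 ≤ H * y ^ 2 := by nlinarith
    have hN1 : 1 ≤ N := by
      have : (0 : ℝ) < N := by linarith
      exact_mod_cast this
    have hNc : ((N - 1 : ℕ) : ℝ) = (N : ℝ) - 1 := by push_cast [hN1]; ring
    have hn : n0 ≤ N - 1 := by
      have : (n0 : ℝ) ≤ ((N - 1 : ℕ) : ℝ) := by rw [hNc]; linarith
      exact_mod_cast this
    obtain ⟨a, ha⟩ := hcov
    have hz0 : (((pn (k - 1) + 1 : ℕ)) : ℝ) ≤ 3 * y := by push_cast; linarith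
    have hzpos : (2 : ℝ) ≤ ((pn (k - 1) + 1 : ℕ) : ℝ) := by
      have := (AA.pn_prime (k - 1)).two_le
      have h2 : 2 ≤ pn (k - 1) + 1 := by omega
      exact_mod_cast h2
    have hz2 : (((pn (k - 1) + 1 : ℕ)) : ℝ) ^ 2 ≤ 9 * y ^ 2 := by nlinarith
    have hHz : 2 * (H * (((pn (k - 1) + 1 : ℕ)) : ℝ) ^ 2) ≤ ((N - 1 : ℕ) : ℝ) := by
      rw [hNc]
      have := mul_le_mul_of_nonneg_left hz2 (show (0 : ℝ) ≤ 2 * H by linarith)
      nlinarith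
    have hzz : 0 < (((pn (k - 1) + 1 : ℕ)) : ℝ) ^ 2 := by positivity
    have hHzz : 0 < H * (((pn (k - 1) + 1 : ℕ)) : ℝ) ^ 2 := by positivity
    have key := hS (N - 1) (pn (k - 1) + 1) hn (by
      have := (AA.pn_prime (k - 1)).two_le
      omega) (by linarith) (fun p => a (Nat.count Nat.Prime p))
    rw [Tc_zero a ha] at key
    have hNbig : (2 : ℝ) ≤ ((N - 1 : ℕ) : ℝ) := by rw [hNc]; linarith
    have hl1 : 0 < Real.log ((N - 1 : ℕ) : ℝ) := Real.log_pos (by linarith)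
    have hl2 : 0 < Real.log (((N - 1 : ℕ) : ℝ) / (((pn (k - 1) + 1 : ℕ)) : ℝ) ^ 2) := by
      apply Real.log_pos
      rw [lt_div_iff₀ hzz, one_mul]
      nlinarith
    have : 0 < c1 * ((N - 1 : ℕ) : ℝ) *
        Real.log (((N - 1 : ℕ) : ℝ) / (((pn (k - 1) + 1 : ℕ)) : ℝ) ^ 2) /
        (Real.log ((N - 1 : ℕ) : ℝ)) ^ 2 := by
      have : (0 : ℝ) < ((N - 1 : ℕ) : ℝ) := by linarith
      positivity
    linarith
  · have h1 : N ≤ Jf k0 := AA.le_Jf (hcov.mono_k (by omega))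
    have h2 : (N : ℝ) ≤ Jf k0 := by exact_mod_cast h1
    have h3 : (Jf k0 : ℝ) ≤ (Jf k0 : ℝ) * y ^ 2 := by nlinarith
    have h4 : 0 ≤ ((n0 : ℝ) + 2 + 18 * H) * y ^ 2 := by positivity
    nlinarith

theorem finA2 (hS : ThmS) (θ : ℝ) (hθ : 0 < θ) : ∃ c : ℝ, ∃ k0 : ℕ, 0 < c ∧ ∀ k : ℕ, k0 ≤ k →
    ∀ r : ℕ, θ * k ≤ r → c * (Jf k : ℝ) ≤ ((gaps (k + r)).card : ℝ) := by
  obtain ⟨CI, hCI, hcovS⟩ := covS hS
  obtain ⟨c0, C1, k1, hc0, hC1, hcore⟩ := coreJ2 hS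
  obtain ⟨cL, hcL, kL, hL⟩ := LS.coreT LS.linSieve (1 / 200) (by norm_num) (by norm_num)
  obtain ⟨τ, hτ⟩ : ∃ τ : ℝ, τ = min θ 1 := ⟨_, rfl⟩
  have hτ0 : 0 < τ := by rw [hτ]; exact lt_min hθ one_pos
  have hτ1 : τ ≤ 1 := by rw [hτ]; exact min_le_right _ _
  have hτθ : τ ≤ θ := by rw [hτ]; exact min_le_left _ _
  obtain ⟨Ct, hCt⟩ : ∃ Ct : ℝ, Ct = max C1 ((C1 / τ) ^ 4) := ⟨_, rfl⟩
  have hCt1 : C1 ≤ Ct := by rw [hCt]; exact le_max_left _ _
  have hCt2 : (C1 / τ) ^ 4 ≤ Ct := by rw [hCt]; exact le_max_right _ _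
  have hCt4 : 4 ≤ Ct := hC1.trans hCt1
  have hC10 : 0 < C1 := by linarith
  have E1 := AA.ev_pow (1 / τ) (397 / 400) 1 (by norm_num)
  have E2 := AA.ev_pow (2 * Ct) (79 / 40) 2 (by norm_num)
  obtain ⟨k2, hk2⟩ := Filter.eventually_atTop.mp (E1.and E2)
  have hcc : 0 < c0 / (2 * CI * Ct) := by positivity
  refine ⟨min cL (c0 / (2 * CI * Ct)), k1 + kL + k2 + 3, lt_min hcL hcc, fun k hk r hr => ?_⟩
  obtain ⟨e1, e2⟩ := hk2 k (by omega)
  have hk3 : (3 : ℝ) ≤ k := by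
    have : 3 ≤ k := by omega
    exact_mod_cast this
  have hk0 : (0 : ℝ) < k := by linarith
  have hJ0 : (0 : ℝ) ≤ Jf k := Nat.cast_nonneg _
  rw [Real.rpow_one] at e1
  have hsucc := AA.succ_le_Jf k
  have hτr : τ * k ≤ r := (mul_le_mul_of_nonneg_right hτθ hk0.le).trans hr
  by_cases hJ : (Jf k : ℝ) ≤ (k : ℝ) ^ (79 / 40 : ℝ)
  · have hNk : Jf k ≤ k ^ 2 := by
      have h1 : (k : ℝ) ^ (79 / 40 : ℝ) ≤ (k : ℝ) ^ (2 : ℝ) :=
        Real.rpow_le_rpow_of_exponent_le (by linarith) (by norm_num)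
      have h2 : (Jf k : ℝ) ≤ (k : ℝ) ^ 2 := by
        rw [← Real.rpow_natCast]
        push_cast
        linarith
      exact_mod_cast h2
    have h1 := hL k (by omega) (Jf k) (by omega) hNk (AA.cov_Jf k) r (by
      have h2 : (Jf k : ℝ) ^ (1 / 2 : ℝ) ≤ (k : ℝ) ^ (79 / 80 : ℝ) := by
        calc (Jf k : ℝ) ^ (1 / 2 : ℝ) ≤ ((k : ℝ) ^ (79 / 40 : ℝ)) ^ (1 / 2 : ℝ) :=
              Real.rpow_le_rpow hJ0 hJ (by norm_num)
          _ = (k : ℝ) ^ (79 / 80 : ℝ) := by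
              rw [← Real.rpow_mul hk0.le]
              norm_num
      have h3 : (Jf k : ℝ) ^ (1 / 2 : ℝ) * (k : ℝ) ^ (1 / 200 : ℝ) ≤ (k : ℝ) ^ (397 / 400 : ℝ) := by
        calc (Jf k : ℝ) ^ (1 / 2 : ℝ) * (k : ℝ) ^ (1 / 200 : ℝ)
            ≤ (k : ℝ) ^ (79 / 80 : ℝ) * (k : ℝ) ^ (1 / 200 : ℝ) :=
              mul_le_mul_of_nonneg_right h2 (Real.rpow_nonneg hk0.le _)
          _ = (k : ℝ) ^ (397 / 400 : ℝ) := by
              rw [← Real.rpow_add hk0]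
              norm_num
      have h4 : (k : ℝ) ^ (397 / 400 : ℝ) ≤ τ * k := by
        have h5 := mul_le_mul_of_nonneg_left e1 hτ0.le
        have h6 : τ * (1 / τ * (k : ℝ) ^ (397 / 400 : ℝ)) = (k : ℝ) ^ (397 / 400 : ℝ) := by
          field_simp
        linarith
      linarith)
    refine le_trans ?_ h1
    exact mul_le_mul_of_nonneg_right (min_le_left _ _) hJ0
  · push Not at hJ
    obtain ⟨Y, hY⟩ : ∃ Y : ℝ, Y = ((k : ℝ) * Real.log k) ^ 2 := ⟨_, rfl⟩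
    have hlogk : 1 ≤ Real.log k := by
      rw [Real.le_log_iff_exp_le hk0]
      have := Real.exp_one_lt_d9
      linarith
    have hYk : (k : ℝ) ^ (2 : ℝ) ≤ Y := by
      rw [hY]
      have h1 : (k : ℝ) ≤ (k : ℝ) * Real.log k := by nlinarith
      have h2 : (k : ℝ) ^ (2 : ℝ) = (k : ℝ) ^ (2 : ℕ) := by
        rw [← Real.rpow_natCast]
        norm_num
      rw [h2]
      exact pow_le_pow_left₀ hk0.le h1 2
    have hk79 : 1 ≤ (k : ℝ) ^ (79 / 40 : ℝ) := Real.one_le_rpow (by linarith) (by norm_num)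
    have hYCt : 2 * (k : ℝ) ^ (79 / 40 : ℝ) ≤ Y / Ct := by
      rw [le_div_iff₀ (by linarith)]
      linarith
    have hY0 : 0 < Y := by
      have := Real.rpow_pos_of_pos hk0 2
      linarith
    have hfl : Y / Ct < ((⌊Y / Ct⌋₊ : ℕ) : ℝ) + 1 := Nat.lt_floor_add_one _
    have hfl2 : ((⌊Y / Ct⌋₊ : ℕ) : ℝ) ≤ Y / Ct := Nat.floor_le (by positivity)
    obtain ⟨N, hN⟩ : ∃ N : ℕ, N = min (Jf k) ⌊Y / Ct⌋₊ := ⟨_, rfl⟩
    have hNr : (N : ℝ) = min (Jf k : ℝ) ((⌊Y / Ct⌋₊ : ℕ) : ℝ) := by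
      rw [hN]
      push_cast
      rfl
    have hNge : (k : ℝ) ^ (79 / 40 : ℝ) ≤ N := by
      rw [hNr]
      refine le_min hJ.le (by linarith)
    have hN0 : (0 : ℝ) < N := by linarith
    have hNle : (N : ℝ) ≤ Y / Ct := by
      rw [hNr]
      exact (min_le_right _ _).trans hfl2
    have hCtN : Ct * N ≤ Y := by
      rw [le_div_iff₀ (by linarith)] at hNle
      linarith
    have hC1N : C1 * N ≤ Y := (mul_le_mul_of_nonneg_right hCt1 hN0.le).trans hCtN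
    have hcovN : Cov k N := (AA.cov_Jf k).mono (by rw [hN]; exact min_le_left _ _)
    have hr1 : ⌈τ * (k : ℝ)⌉₊ ≤ k := by
      rw [Nat.ceil_le]
      nlinarith
    have hr2 : ⌈τ * (k : ℝ)⌉₊ ≤ r := by
      rw [Nat.ceil_le]
      exact hτr
    have hr3 : τ * (k : ℝ) ≤ ((⌈τ * (k : ℝ)⌉₊ : ℕ) : ℝ) := Nat.le_ceil _
    have hYN : Ct ≤ Y / N := by
      rw [le_div_iff₀ hN0]
      exact hCtN
    have hpow : (Y / N) ^ (-(1 / 4) : ℝ) ≤ τ / C1 := by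
      have h1 : (C1 / τ) ^ 4 ≤ Y / N := hCt2.trans hYN
      have h2 : 0 < (C1 / τ) ^ 4 := by positivity
      calc (Y / N) ^ (-(1 / 4) : ℝ) ≤ ((C1 / τ) ^ 4) ^ (-(1 / 4) : ℝ) :=
            Real.rpow_le_rpow_of_nonpos h2 h1 (by norm_num)
        _ = τ / C1 := by
            rw [← Real.rpow_natCast, ← Real.rpow_mul (by positivity)]
            norm_num
            rw [Real.rpow_neg_one, inv_div]
    have hmain : C1 * (Y / N) ^ (-(1 / 4) : ℝ) * k ≤ ((⌈τ * (k : ℝ)⌉₊ : ℕ) : ℝ) := by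
      refine le_trans ?_ hr3
      refine mul_le_mul_of_nonneg_right ?_ hk0.le
      have h1 := mul_le_mul_of_nonneg_left hpow hC10.le
      have h2 : C1 * (τ / C1) = τ := by field_simp
      linarith
    have hcr := hcore k (by omega) N ⌈τ * (k : ℝ)⌉₊ hNge (by rw [← hY]; exact hC1N) hcovN
      (by rw [← hY]; exact hmain) hr1
    have hmono := gaps_mono (k := k + ⌈τ * (k : ℝ)⌉₊) (k' := k + r) (by omega) (by omega)
    have hcard : ((gaps (k + ⌈τ * (k : ℝ)⌉₊)).card : ℝ) ≤ ((gaps (k + r)).card : ℝ) := by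
      exact_mod_cast Finset.card_le_card hmono
    refine le_trans ?_ (hcr.trans hcard)
    refine (mul_le_mul_of_nonneg_right (min_le_right _ _) hJ0).trans ?_
    -- `Jf k ≤ 2 CI Ct N`
    have hJN : (Jf k : ℝ) ≤ 2 * CI * Ct * N := by
      have h1 : (1 : ℝ) ≤ 2 * CI * Ct := by nlinarith
      rcases le_total (Jf k : ℝ) ((⌊Y / Ct⌋₊ : ℕ) : ℝ) with h | h
      · rw [min_eq_left h] at hNr
        have h9 := mul_le_mul_of_nonneg_right h1 (show (0 : ℝ) ≤ (Jf k : ℝ) from hJ0)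
        calc (Jf k : ℝ) = 1 * (Jf k : ℝ) := (one_mul _).symm
          _ ≤ 2 * CI * Ct * (Jf k : ℝ) := h9
          _ = 2 * CI * Ct * (N : ℝ) := by rw [hNr]
      · rw [min_eq_right h] at hNr
        have h2 : Y / (2 * Ct) ≤ N := by
          have h3 : Y / (2 * Ct) = Y / Ct / 2 := by
            field_simp
          rw [h3, hNr]
          linarith
        have h4 := hcovS k (Jf k) (by omega) (AA.cov_Jf k)
        rw [← hY] at h4
        have h5 : Y ≤ 2 * Ct * N := by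
          rw [div_le_iff₀ (by linarith)] at h2
          linarith
        have h6 := mul_le_mul_of_nonneg_left h5 (show 0 ≤ CI by linarith)
        linarith
    have h7 : c0 / (2 * CI * Ct) * (Jf k : ℝ) ≤ c0 / (2 * CI * Ct) * (2 * CI * Ct * N) :=
      mul_le_mul_of_nonneg_left hJN hcc.le
    have h8 : c0 / (2 * CI * Ct) * (2 * CI * Ct * N) = c0 * N := by
      have hD : 2 * CI * Ct ≠ 0 := by positivity
      rw [← mul_assoc, div_mul_cancel₀ _ hD]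
    exact h7.trans h8.le

end Pool.Agent.Lib.MP_45349e_nt.JG
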