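import Mathlib

/-!
# JG-Q04 (30 min): the greedy covering

PROOF by induction on `S.card`. `k1 = S.max'`. `S ⊆ Ioc (k1 - r k1) k1 ∪ S'`, `S' = S.filter (· ≤ k1 - r k1)`; for
`k ∈ S'`: `M k ≤ M (k1 - r k1) ≤ M k1/16`. So `|S| ≤ r k1 + |S'|`, induction with `M0' = M k1/16`:
`|S'| ≤ 2 A (M k1/16)^(1/4) = A (M k1)^(1/4)`, `r k1 ≤ A (M k1)^(1/4)`. (If `S'` is empty, clear.)
-/

open Finset

namespace Pool.Agent.Lib.MP_45349e_nt.JG

theorem greedy (M : ℕ → ℝ) (hM : Monotone M) (hM0 : ∀ k, 0 ≤ M k) (r : ℕ → ℕ) (A : ℝ) (hA : 0 ≤ A)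
    (S : Finset ℕ) (h1 : ∀ k ∈ S, 16 * M (k - r k) ≤ M k)
    (h2 : ∀ k ∈ S, (r k : ℝ) ≤ A * (M k) ^ (1 / 4 : ℝ)) (hr : ∀ k ∈ S, 1 ≤ r k)
    (M0 : ℝ) (h3 : ∀ k ∈ S, M k ≤ M0) (hM00 : 0 ≤ M0) :
    (S.card : ℝ) ≤ 2 * A * M0 ^ (1 / 4 : ℝ) := by
  classical
  induction hn : S.card using Nat.strong_induction_on generalizing S M0 with
  | _ n ih =>
    rcases S.eq_empty_or_nonempty with hS | hS
    · rw [hS, Finset.card_empty] at hn
      rw [← hn, Nat.cast_zero]
      positivity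
    · set k1 := S.max' hS with hk1
      have hk1S : k1 ∈ S := S.max'_mem hS
      have hk10 : 0 < k1 := by
        by_contra h
        have h0 : k1 = 0 := by omega
        have h4 := h1 k1 hk1S
        rw [h0, Nat.zero_sub] at h4
        have h5 : M 0 = 0 := le_antisymm (by linarith) (hM0 0)
        have h6 := h2 k1 hk1S
        have h7 := hr k1 hk1S
        rw [h0, h5, Real.zero_rpow (by norm_num), mul_zero] at h6
        rw [h0] at h7
        have h8 : (1 : ℝ) ≤ (r 0 : ℝ) := by exact_mod_cast h7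
        linarith
      set S' := S.filter (fun k => k ≤ k1 - r k1) with hS'
      have hsub : S ⊆ Finset.Ioc (k1 - r k1) k1 ∪ S' := by
        intro k hk
        rw [Finset.mem_union, Finset.mem_Ioc, hS', Finset.mem_filter]
        by_cases h : k ≤ k1 - r k1
        · exact Or.inr ⟨hk, h⟩
        · exact Or.inl ⟨not_le.1 h, S.le_max' k hk⟩
      have hcard : S.card ≤ r k1 + S'.card := by
        refine (Finset.card_le_card hsub).trans ((Finset.card_union_le _ _).trans ?_)
        rw [Nat.card_Ioc]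
        omega
      have hk1S' : k1 ∉ S' := by
        rw [hS', Finset.mem_filter]
        rintro ⟨-, h⟩
        have h7 := hr k1 hk1S
        omega
      have hlt : S'.card < n := by
        rw [← hn]
        apply Finset.card_lt_card
        refine ⟨Finset.filter_subset _ _, fun h => hk1S' (h hk1S)⟩
      have hmem : ∀ k ∈ S', k ∈ S := fun k hk => (Finset.mem_filter.1 hk).1
      have h4 := h1 k1 hk1S
      have hMk : 0 ≤ M k1 := hM0 k1
      have hb := ih S'.card hlt S' (fun k hk => h1 k (hmem k hk)) (fun k hk => h2 k (hmem k hk))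
        (fun k hk => hr k (hmem k hk)) (M k1 / 16) (by
          intro k hk
          have h5 : M k ≤ M (k1 - r k1) := hM (Finset.mem_filter.1 hk).2
          linarith) (by positivity) rfl
      have h16 : (M k1 / 16) ^ (1 / 4 : ℝ) = (M k1) ^ (1 / 4 : ℝ) / 2 := by
        rw [Real.div_rpow hMk (by norm_num)]
        congr 1
        rw [show (16 : ℝ) = 2 ^ (4 : ℝ) by norm_num, ← Real.rpow_mul (by norm_num)]
        norm_num
      rw [h16] at hb
      have h6 := h2 k1 hk1S
      have h7 : (M k1) ^ (1 / 4 : ℝ) ≤ M0 ^ (1 / 4 : ℝ) :=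
        Real.rpow_le_rpow hMk (h3 k1 hk1S) (by norm_num)
      have h8 : (n : ℝ) ≤ (r k1 : ℝ) + (S'.card : ℝ) := by
        rw [← hn]
        exact_mod_cast hcard
      have h9 : A * (M k1) ^ (1 / 4 : ℝ) ≤ A * M0 ^ (1 / 4 : ℝ) := mul_le_mul_of_nonneg_left h7 hA
      linarith

end Pool.Agent.Lib.MP_45349e_nt.JG
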