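import Pool.Agent.Lib.MP_45349e_nt.JG.Q03
import Pool.Agent.Lib.MP_45349e_nt.JG.Q04
import Pool.Agent.Lib.MP_45349e_nt.LS.Except

/-!
# JG-Q05: statement (b)

Everything with `J = Jf` (nondecreasing, `Cov k (Jf k)`, `k + 1 ≤ Jf k`, `Cov k N → N ≤ Jf k`). `covS`: `Jf k ≤
CI (k log k)^2`. PROOF. Let `X = c0/(2 c) ≥ X0` and `K` be large (depending on `c`, `η`). Split the
`k ∈ [1, K]` with `|gaps k| < c Jf k`:
(0) `k ≤ K^(99/100)`: at most `K^(99/100)`.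
(1) `Jf k ≤ k^(α)`, `α = 79/40 + 1/1000`: `LS.except` with `δ = 1/400`: at most `K^(0.993)`.
(2) the set `S` of the other `k`: `k > K^(99/100)`, `J := Jf k > k^α`. `N = ⌈J/X⌉₊`, `J/X ≤ N ≤ 2 J/X`;
`Y = (k log k)^2/N ≥ X/(2 CI)`, `θ = 2 C1 Y^(-1/4) ≤ 1/4`, `r = r k = ⌈θ k⌉₊ ≤ k/2`, `r ≥ 1`.
CLAIM `Jf (k - r) < N`, by `coreJ2`. So `Jf (k - r) ≤ 2 J/X ≤ J/16` and `greedy` applies.
-/

open Finset Filter

namespace Pool.Agent.Lib.MP_45349e_nt.JG

open Pool.Agent.Lib.MP_45349e_nt.AA (pn Cov Qd gaps Jf)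

/-- fourth roots -/
theorem q05_root {a N : ℝ} (ha : 0 < a) (hN : 0 < N) :
    0 < (a ^ 2 / N) ^ (-(1 / 4) : ℝ) ∧ ((a ^ 2 / N) ^ (-(1 / 4) : ℝ)) ^ 4 = N / a ^ 2 := by
  have h1 : 0 < a ^ 2 / N := by positivity
  refine ⟨Real.rpow_pos_of_pos h1 _, ?_⟩
  rw [← Real.rpow_natCast, ← Real.rpow_mul h1.le]
  have h2 : (-(1 / 4) : ℝ) * ((4 : ℕ) : ℝ) = -1 := by norm_num
  rw [h2, Real.rpow_neg_one, inv_div]

theorem q05_le {x y : ℝ} (hy : 0 ≤ y) (h : x ^ 4 ≤ y ^ 4) : x ≤ y := by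
  by_contra hcon
  push Not at hcon
  have := pow_lt_pow_left₀ hcon hy (n := 4) (by norm_num)
  linarith

theorem q05_log_half {k k1 : ℕ} (hk : 4 ≤ k) (h : k ≤ 2 * k1) :
    ((k : ℝ) * Real.log k) ^ 2 ≤ 16 * ((k1 : ℝ) * Real.log k1) ^ 2 := by
  have hkr : (4 : ℝ) ≤ k := by exact_mod_cast hk
  have h1 : (k : ℝ) ≤ 2 * k1 := by exact_mod_cast h
  have h2 : (k : ℝ) ≤ (k1 : ℝ) ^ 2 := by nlinarith
  have hk1 : (0 : ℝ) < k1 := by linarith
  have h3 : Real.log k ≤ 2 * Real.log k1 := by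
    have h4 := Real.log_le_log (by linarith : (0 : ℝ) < k) h2
    rw [Real.log_pow] at h4
    push_cast at h4
    exact h4
  have h5 : 0 ≤ Real.log k := Real.log_natCast_nonneg k
  have h6 : (k : ℝ) * Real.log k ≤ 4 * (k1 * Real.log k1) := by
    calc (k : ℝ) * Real.log k ≤ (2 * k1) * (2 * Real.log k1) :=
          mul_le_mul h1 h3 h5 (by positivity)
      _ = 4 * (k1 * Real.log k1) := by ring
  have h7 : 0 ≤ (k : ℝ) * Real.log k := by positivity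
  calc ((k : ℝ) * Real.log k) ^ 2 ≤ (4 * (k1 * Real.log k1)) ^ 2 := pow_le_pow_left₀ h7 h6 2
    _ = _ := by ring

/-- the main step: for an exceptional `k` the function `Jf` has a jump -/
theorem q05_jump {c0 C1 CI X c : ℝ} {k0 : ℕ} (hc0 : 0 < c0) (hC1 : 4 ≤ C1) (hCI : 1 ≤ CI)
    (hcore : ∀ k : ℕ, k0 ≤ k → ∀ N r : ℕ, (k : ℝ) ^ (79 / 40 : ℝ) ≤ N →
      C1 * N ≤ (k * Real.log k) ^ 2 → Cov k N →
      C1 * ((k * Real.log k) ^ 2 / N) ^ (-(1 / 4) : ℝ) * k ≤ r → r ≤ k →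
      c0 * N ≤ ((gaps (k + r)).card : ℝ))
    (hcov : ∀ k : ℕ, 2 ≤ k → (Jf k : ℝ) ≤ CI * (k * Real.log k) ^ 2)
    (hX : 32 + 2 * CI * (8 * C1) ^ 4 + 32 * CI * C1 ≤ X) (hcX : 2 * c * X = c0)
    {k : ℕ} (hk0 : 2 * k0 + 9 ≤ k) (hkX : X ≤ (k : ℝ) ^ (1 / 1000 : ℝ))
    (hJ : (k : ℝ) ^ (79 / 40 + 1 / 1000 : ℝ) ≤ (Jf k : ℝ))
    (hexc : ((gaps k).card : ℝ) < c * (Jf k : ℝ)) :
    ∃ r : ℕ, 1 ≤ r ∧ r ≤ k ∧ 16 * (Jf (k - r) : ℝ) ≤ (Jf k : ℝ) ∧
      (r : ℝ) ^ 4 ≤ (4 * C1) ^ 4 * (2 / X * (Jf k : ℝ) * (k / Real.log k) ^ 2) := by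
  have hC1p : 0 < C1 := by linarith
  have hCIp : 0 < CI := by linarith
  have hX32 : 32 ≤ X := by
    have h1 : 0 < CI * (8 * C1) ^ 4 := by positivity
    have h2 : 0 < CI * C1 := by positivity
    linarith
  have hX0 : 0 < X := by linarith
  have hk9 : 9 ≤ k := by omega
  have hkr : (9 : ℝ) ≤ k := by exact_mod_cast hk9
  have hkpos : (0 : ℝ) < k := by linarith
  set J : ℝ := (Jf k : ℝ) with hJdef
  set a : ℝ := (k : ℝ) * Real.log k with ha
  have hlog1 : 1 ≤ Real.log k := by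
    rw [Real.le_log_iff_exp_le hkpos]
    have := Real.exp_one_lt_d9
    linarith
  have ha0 : 0 < a := by positivity
  have hak : (k : ℝ) ≤ a := by nlinarith
  have hJk : (k : ℝ) + 1 ≤ J := by
    have := AA.succ_le_Jf k
    rw [hJdef]
    exact_mod_cast this
  have hkX2 : X ≤ (k : ℝ) := by
    refine hkX.trans ?_
    conv_rhs => rw [← Real.rpow_one (k : ℝ)]
    exact Real.rpow_le_rpow_of_exponent_le (by linarith) (by norm_num)
  set N : ℕ := ⌈J / X⌉₊ with hN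
  have hJX : 1 ≤ J / X := by
    rw [le_div_iff₀ hX0]
    linarith
  have hN1 : J / X ≤ N := Nat.le_ceil _
  have hN2 : (N : ℝ) ≤ 2 * (J / X) := by
    have := Nat.ceil_lt_add_one (show 0 ≤ J / X by linarith)
    linarith
  have hN0 : (0 : ℝ) < N := by linarith
  have hJa : J ≤ CI * a ^ 2 := hcov k (by omega)
  -- Y
  have hY : X / (2 * CI) ≤ a ^ 2 / N := by
    rw [div_le_div_iff₀ (by positivity) hN0]
    have h1 : X * N ≤ 2 * J := by
      have h2 : X * N ≤ X * (2 * (J / X)) := mul_le_mul_of_nonneg_left hN2 hX0.le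
      have h3 : X * (2 * (J / X)) = 2 * J := by field_simp
      linarith
    nlinarith
  obtain ⟨ht0, ht4⟩ := q05_root ha0 hN0
  set t : ℝ := (a ^ 2 / N) ^ (-(1 / 4) : ℝ) with ht
  -- `2 C1 t ≤ 1/4`
  have ht8 : 8 * C1 * t ≤ 1 := by
    refine q05_le zero_le_one ?_
    have h1 : (8 * C1 * t) ^ 4 = (8 * C1) ^ 4 * t ^ 4 := by ring
    rw [h1, ht4, one_pow]
    have h2 : (8 * C1) ^ 4 ≤ a ^ 2 / N := by
      refine le_trans ?_ hY
      rw [le_div_iff₀ (by positivity)]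
      have h3 : 0 < CI * C1 := by positivity
      linarith
    rw [le_div_iff₀ hN0] at h2
    rw [← mul_div_assoc, div_le_one (by positivity)]
    exact h2
  set r : ℕ := ⌈2 * C1 * t * k⌉₊ with hr
  have hs0 : 0 < 2 * C1 * t * k := by positivity
  have hr1 : 2 * C1 * t * k ≤ r := Nat.le_ceil _
  have hr2 : (r : ℝ) < 2 * C1 * t * k + 1 := Nat.ceil_lt_add_one hs0.le
  have hrk4 : (r : ℝ) < k / 4 + 1 := by
    have h1 : 8 * C1 * t * k ≤ 1 * k := mul_le_mul_of_nonneg_right ht8 hkpos.le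
    linarith
  have hr4 : 4 * r < k + 4 := by
    have h1 : (4 : ℝ) * r < k + 4 := by linarith
    exact_mod_cast h1
  have hrk : 2 * r ≤ k := by omega
  have hrpos : 1 ≤ r := by
    rw [hr]
    exact Nat.one_le_iff_ne_zero.mpr (Nat.ceil_pos.mpr hs0).ne'
  set k1 : ℕ := k - r with hk1
  have hkk1 : k1 + r = k := by omega
  have hk2 : k ≤ 2 * k1 := by omega
  have hk1k : k1 ≤ k := by omega
  have hk1r : (k1 : ℝ) ≤ k := by exact_mod_cast hk1k
  -- the claim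
  have hclaim : Jf (k - r) < N := by
    by_contra hcon
    push Not at hcon
    have hc1 : Cov k1 N := (AA.cov_Jf k1).mono hcon
    have hlh := q05_log_half (k := k) (k1 := k1) (by omega) hk2
    rw [← ha] at hlh
    set b : ℝ := (k1 : ℝ) * Real.log k1 with hb
    have hk1pos : 0 < k1 := by omega
    have hk1rp : (1 : ℝ) < k1 := by exact_mod_cast (by omega : 1 < k1)
    have hb0 : 0 < b := mul_pos (by linarith) (Real.log_pos hk1rp)
    have hba : b ≤ a := by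
      rw [hb, ha]
      exact mul_le_mul hk1r (Real.log_le_log (by linarith) hk1r)
        (Real.log_natCast_nonneg k1) hkpos.le
    have e1 : (k1 : ℝ) ^ (79 / 40 : ℝ) ≤ N := by
      refine le_trans ?_ hN1
      rw [le_div_iff₀ hX0]
      calc (k1 : ℝ) ^ (79 / 40 : ℝ) * X ≤ (k : ℝ) ^ (79 / 40 : ℝ) * (k : ℝ) ^ (1 / 1000 : ℝ) :=
            mul_le_mul (Real.rpow_le_rpow (Nat.cast_nonneg k1) hk1r (by norm_num)) hkX hX0.le
              (by positivity)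
        _ = (k : ℝ) ^ (79 / 40 + 1 / 1000 : ℝ) := by rw [← Real.rpow_add hkpos]
        _ ≤ J := hJ
    have e2 : C1 * N ≤ b ^ 2 := by
      have h1 : 16 * C1 ≤ a ^ 2 / N := by
        refine le_trans ?_ hY
        rw [le_div_iff₀ (by positivity)]
        have h3 : 0 < CI * (8 * C1) ^ 4 := by positivity
        linarith
      rw [le_div_iff₀ hN0] at h1
      linarith
    obtain ⟨ht0', ht4'⟩ := q05_root hb0 hN0
    set t' : ℝ := (b ^ 2 / N) ^ (-(1 / 4) : ℝ) with ht'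
    have e3 : t' ≤ 2 * t := by
      refine q05_le (by positivity) ?_
      have h1 : (2 * t) ^ 4 = 16 * t ^ 4 := by ring
      rw [h1, ht4, ht4', ← mul_div_assoc, div_le_div_iff₀ (by positivity) (by positivity)]
      nlinarith
    have e4 : C1 * t' * k1 ≤ r := by
      calc C1 * t' * k1 ≤ C1 * (2 * t) * k := by
            refine mul_le_mul (mul_le_mul_of_nonneg_left e3 hC1p.le) hk1r (Nat.cast_nonneg k1)
              (by positivity)
        _ = 2 * C1 * t * k := by ring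
        _ ≤ r := hr1
    have h1 := hcore k1 (by omega) N r e1 e2 hc1 e4 (by omega)
    rw [hkk1] at h1
    have h2 : c0 * (J / X) ≤ c0 * N := mul_le_mul_of_nonneg_left hN1 hc0.le
    have h3 : c0 * (J / X) = 2 * c * J := by
      rw [← hcX]
      field_simp
    have h4 : 0 ≤ c * J := by
      by_contra hneg
      push Not at hneg
      have : (0 : ℝ) ≤ ((gaps k).card : ℝ) := Nat.cast_nonneg _
      linarith
    linarith
  refine ⟨r, hrpos, by omega, ?_, ?_⟩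
  · have h1 : (Jf (k - r) : ℝ) ≤ N := by exact_mod_cast hclaim.le
    have h2 : 2 * (J / X) ≤ J / 16 := by
      rw [← mul_div_assoc, div_le_div_iff₀ hX0 (by norm_num)]
      nlinarith
    linarith
  · -- `r ≤ 4 C1 t k`
    have hsk : 1 ≤ 2 * C1 * t * k := by
      refine q05_le hs0.le ?_
      have h1 : (2 * C1 * t * k) ^ 4 = (2 * C1) ^ 4 * k ^ 4 * t ^ 4 := by ring
      rw [h1, ht4, one_pow]
      have h2 : a ^ 2 ≤ (k : ℝ) ^ 4 := by
        have h3 : Real.log k ≤ k := by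
          have := Real.log_le_sub_one_of_pos hkpos
          linarith
        have h4 : a ≤ (k : ℝ) ^ 2 := by
          rw [ha]
          nlinarith
        calc a ^ 2 ≤ ((k : ℝ) ^ 2) ^ 2 := pow_le_pow_left₀ ha0.le h4 2
          _ = (k : ℝ) ^ 4 := by ring
      have h5 : (1 : ℝ) ≤ N := by linarith
      have h6 : (1 : ℝ) ≤ (2 * C1) ^ 4 := one_le_pow₀ (by linarith)
      rw [← mul_div_assoc, le_div_iff₀ (by positivity), one_mul]
      calc a ^ 2 ≤ 1 * (k : ℝ) ^ 4 * 1 := by linarith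
        _ ≤ (2 * C1) ^ 4 * (k : ℝ) ^ 4 * N :=
            mul_le_mul (mul_le_mul_of_nonneg_right h6 (by positivity)) h5 zero_le_one
              (by positivity)
    have hr5 : (r : ℝ) ≤ 4 * C1 * t * k := by linarith
    calc (r : ℝ) ^ 4 ≤ (4 * C1 * t * k) ^ 4 := pow_le_pow_left₀ (Nat.cast_nonneg r) hr5 4
      _ = (4 * C1) ^ 4 * (t ^ 4 * k ^ 4) := by ring
      _ ≤ (4 * C1) ^ 4 * (2 / X * J * (k / Real.log k) ^ 2) := by
          refine mul_le_mul_of_nonneg_left ?_ (by positivity)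
          rw [ht4]
          have h1 : (N : ℝ) / a ^ 2 * k ^ 4 = N * (k / Real.log k) ^ 2 := by
            rw [ha]
            field_simp
          rw [h1]
          refine mul_le_mul_of_nonneg_right ?_ (by positivity)
          calc (N : ℝ) ≤ 2 * (J / X) := hN2
            _ = 2 / X * J := by ring

/-- the exceptional set of the third kind -/
theorem q05_third {c0 C1 CI X c η : ℝ} {k0 : ℕ} (hc0 : 0 < c0) (hC1 : 4 ≤ C1) (hCI : 1 ≤ CI)
    (hcore : ∀ k : ℕ, k0 ≤ k → ∀ N r : ℕ, (k : ℝ) ^ (79 / 40 : ℝ) ≤ N →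
      C1 * N ≤ (k * Real.log k) ^ 2 → Cov k N →
      C1 * ((k * Real.log k) ^ 2 / N) ^ (-(1 / 4) : ℝ) * k ≤ r → r ≤ k →
      c0 * N ≤ ((gaps (k + r)).card : ℝ))
    (hcov : ∀ k : ℕ, 2 ≤ k → (Jf k : ℝ) ≤ CI * (k * Real.log k) ^ 2)
    (hX : 32 + 2 * CI * (8 * C1) ^ 4 + 32 * CI * C1 ≤ X) (hcX : 2 * c * X = c0) (hη : 0 < η)
    {K kl : ℕ} (hK : 3 ≤ K) (hkl : 2 * k0 + 9 ≤ kl) (hklX : X ≤ (kl : ℝ) ^ (1 / 1000 : ℝ))
    (hklK : Real.log K ≤ 2 * Real.log kl) (S : Finset ℕ)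
    (hS : ∀ k ∈ S, kl ≤ k ∧ k ≤ K ∧ (k : ℝ) ^ (79 / 40 + 1 / 1000 : ℝ) ≤ (Jf k : ℝ) ∧
      (Jf k : ℝ) ≤ η * (k * Real.log k) ^ 2 ∧ ((gaps k).card : ℝ) < c * (Jf k : ℝ)) :
    (S.card : ℝ) ≤ 32 * C1 * (η / X) ^ (1 / 4 : ℝ) * K := by
  have hC1p : 0 < C1 := by linarith
  have hX0 : 0 < X := by
    have h1 : 0 < CI * (8 * C1) ^ 4 := by positivity
    have h2 : 0 < CI * C1 := by positivity
    linarith
  have hKr : (3 : ℝ) ≤ K := by exact_mod_cast hK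
  have hKpos : (0 : ℝ) < K := by linarith
  have hlK : 0 < Real.log K := Real.log_pos (by linarith)
  have key : ∀ k ∈ S, ∃ r : ℕ, 1 ≤ r ∧ r ≤ k ∧ 16 * (Jf (k - r) : ℝ) ≤ (Jf k : ℝ) ∧
      (r : ℝ) ^ 4 ≤ (4 * C1) ^ 4 * (2 / X * (Jf k : ℝ) * (k / Real.log k) ^ 2) := by
    intro k hk
    obtain ⟨h1, h2, h3, h4, h5⟩ := hS k hk
    have h6 : (kl : ℝ) ≤ k := by exact_mod_cast h1
    exact q05_jump hc0 hC1 hCI hcore hcov hX hcX (by omega)
      (hklX.trans (Real.rpow_le_rpow (Nat.cast_nonneg kl) h6 (by norm_num))) h3 h5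
  classical
  choose! r hr using key
  set A : ℝ := 4 * C1 * (8 / X * (K / Real.log K) ^ 2) ^ (1 / 4 : ℝ) with hA
  have hA0 : 0 ≤ A := by positivity
  have hmono : Monotone (fun k : ℕ => (Jf k : ℝ)) := by
    intro a b hab
    show (Jf a : ℝ) ≤ (Jf b : ℝ)
    exact_mod_cast AA.Jf_mono hab
  have h4th : ∀ x : ℝ, 0 ≤ x → (x ^ (1 / 4 : ℝ)) ^ 4 = x := by
    intro x hx
    rw [← Real.rpow_natCast, ← Real.rpow_mul hx]
    norm_num
  have hg := greedy (fun k : ℕ => (Jf k : ℝ)) hmono (fun k => Nat.cast_nonneg _) r A hA0 S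
    (fun k hk => (hr k hk).2.2.1) (by
      intro k hk
      obtain ⟨h1, h2, h3, h4, h5⟩ := hS k hk
      have h6 := (hr k hk).2.2.2
      have hkl2 : (kl : ℝ) ≤ k := by exact_mod_cast h1
      have hkK : (k : ℝ) ≤ K := by exact_mod_cast h2
      have hkl9 : (9 : ℝ) ≤ kl := by exact_mod_cast (by omega : 9 ≤ kl)
      have hlk : 0 < Real.log k := Real.log_pos (by linarith)
      have hlk2 : Real.log K ≤ 2 * Real.log k := by
        have := Real.log_le_log (by linarith : (0 : ℝ) < kl) hkl2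
        linarith
      have h7 : (k : ℝ) / Real.log k ≤ 2 * (K / Real.log K) := by
        rw [← mul_div_assoc, div_le_div_iff₀ hlk hlK]
        have h8 : (k : ℝ) * Real.log K ≤ K * Real.log K := mul_le_mul_of_nonneg_right hkK hlK.le
        have h9 : (K : ℝ) * Real.log K ≤ K * (2 * Real.log k) :=
          mul_le_mul_of_nonneg_left hlk2 hKpos.le
        linarith
      have h8 : ((k : ℝ) / Real.log k) ^ 2 ≤ 4 * (K / Real.log K) ^ 2 := by
        have h9 : 0 ≤ (k : ℝ) / Real.log k := by positivity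
        calc ((k : ℝ) / Real.log k) ^ 2 ≤ (2 * (K / Real.log K)) ^ 2 := pow_le_pow_left₀ h9 h7 2
          _ = _ := by ring
      refine q05_le (mul_nonneg hA0 (by positivity)) ?_
      have h9 : (A * (Jf k : ℝ) ^ (1 / 4 : ℝ)) ^ 4 =
          (4 * C1) ^ 4 * (8 / X * (K / Real.log K) ^ 2) * (Jf k : ℝ) := by
        rw [hA, mul_pow, mul_pow, h4th _ (by positivity), h4th _ (Nat.cast_nonneg _)]
      show (r k : ℝ) ^ 4 ≤ (A * (Jf k : ℝ) ^ (1 / 4 : ℝ)) ^ 4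
      rw [h9]
      refine h6.trans ?_
      have h10 : 2 / X * (Jf k : ℝ) * (k / Real.log k) ^ 2 ≤
          2 / X * (Jf k : ℝ) * (4 * (K / Real.log K) ^ 2) :=
        mul_le_mul_of_nonneg_left h8 (by positivity)
      have h11 : (4 * C1) ^ 4 * (2 / X * (Jf k : ℝ) * (k / Real.log k) ^ 2) ≤
          (4 * C1) ^ 4 * (2 / X * (Jf k : ℝ) * (4 * (K / Real.log K) ^ 2)) :=
        mul_le_mul_of_nonneg_left h10 (by positivity)
      refine h11.trans (le_of_eq ?_)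
      ring)
    (fun k hk => (hr k hk).1) (η * (K * Real.log K) ^ 2) (by
      intro k hk
      obtain ⟨h1, h2, h3, h4, h5⟩ := hS k hk
      refine h4.trans ?_
      have hkl9 : (9 : ℝ) ≤ kl := by exact_mod_cast (by omega : 9 ≤ kl)
      have hkl2 : (kl : ℝ) ≤ k := by exact_mod_cast h1
      have hkK : (k : ℝ) ≤ K := by exact_mod_cast h2
      refine mul_le_mul_of_nonneg_left ?_ hη.le
      refine pow_le_pow_left₀ (mul_nonneg (by linarith) (Real.log_natCast_nonneg k)) ?_ 2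
      exact mul_le_mul hkK (Real.log_le_log (by linarith) hkK) (Real.log_natCast_nonneg k) hKpos.le)
    (by positivity)
  refine hg.trans ?_
  refine q05_le (by positivity) ?_
  have h1 : (2 * A * (η * (K * Real.log K) ^ 2) ^ (1 / 4 : ℝ)) ^ 4 =
      16 * (4 * C1) ^ 4 * (8 / X * (K / Real.log K) ^ 2) * (η * (K * Real.log K) ^ 2) := by
    rw [hA, mul_pow, mul_pow, mul_pow, h4th _ (by positivity), h4th _ (by positivity)]
    ring
  have h2 : (32 * C1 * (η / X) ^ (1 / 4 : ℝ) * K) ^ 4 = (32 * C1) ^ 4 * (η / X) * K ^ 4 := by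
    rw [mul_pow, mul_pow, h4th _ (by positivity)]
  rw [h1, h2]
  have h3 : 16 * (4 * C1) ^ 4 * (8 / X * (K / Real.log K) ^ 2) * (η * (K * Real.log K) ^ 2) =
      32768 * C1 ^ 4 * (η / X) * K ^ 4 := by
    field_simp
    ring
  rw [h3]
  have h4 : (32 * C1) ^ 4 * (η / X) * (K : ℝ) ^ 4 = 1048576 * C1 ^ 4 * (η / X) * K ^ 4 := by ring
  rw [h4]
  have h5 : 0 ≤ C1 ^ 4 * (η / X) * (K : ℝ) ^ 4 := by positivity
  linarith

open Classical in
/-- the count of the exceptional `k` with `Jf k ≤ η (k log k)^2` -/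
theorem finB3 (hS : ThmS) : ∃ C cs : ℝ, 0 < C ∧ 0 < cs ∧ ∀ c η : ℝ, 0 < c → c ≤ cs → 0 < η →
    ∃ K0 : ℕ, ∀ K : ℕ, K0 ≤ K →
    (((Finset.Icc 1 K).filter (fun k : ℕ => (Jf k : ℝ) ≤ η * (k * Real.log k) ^ 2 ∧
      ((gaps k).card : ℝ) < c * (Jf k : ℝ))).card : ℝ) ≤ C * (c * η) ^ (1 / 4 : ℝ) * K := by
  obtain ⟨c0, C1, k0, hc0, hC1, hcore⟩ := coreJ2 hS
  obtain ⟨CI, hCI, hcovS⟩ := covS hS
  have hcov : ∀ k : ℕ, 2 ≤ k → (Jf k : ℝ) ≤ CI * (k * Real.log k) ^ 2 :=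
    fun k hk => hcovS k (Jf k) hk (AA.cov_Jf k)
  obtain ⟨ct, hct, kt, hT⟩ := LS.coreT LS.linSieve (1 / 400) (by norm_num) (by norm_num)
  obtain ⟨Ke, hKe⟩ := LS.except (1 / 400) ct (by norm_num) hct kt
    (fun k hk N hkN hN hc r hr => hT k hk N (by omega) hN hc r hr)
  set X0 : ℝ := 32 + 2 * CI * (8 * C1) ^ 4 + 32 * CI * C1 with hX0
  have hCIp : 0 < CI := by linarith
  have hC1p : 0 < C1 := by linarith
  have hX0p : 0 < X0 := by
    have h1 : 0 < CI * (8 * C1) ^ 4 := by positivity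
    have h2 : 0 < CI * C1 := by positivity
    rw [hX0]
    linarith
  refine ⟨32 * C1 * (2 / c0) ^ (1 / 4 : ℝ) + 2, min (c0 / (2 * X0)) (ct / 4), by positivity,
    lt_min (by positivity) (by positivity), fun c η hc hcs hη => ?_⟩
  have hc1 : c ≤ c0 / (2 * X0) := hcs.trans (min_le_left _ _)
  have hc2 : c ≤ ct / 4 := hcs.trans (min_le_right _ _)
  set X : ℝ := c0 / (2 * c) with hX
  have hXX : X0 ≤ X := by
    rw [hX, le_div_iff₀ (by positivity)]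
    rw [le_div_iff₀ (by positivity)] at hc1
    linarith
  have hXp : 0 < X := by linarith
  have hcX : 2 * c * X = c0 := by
    rw [hX]
    field_simp
  -- large `K`
  set μ : ℝ := (c * η) ^ (1 / 4 : ℝ) with hμ
  have hμ0 : 0 < μ := Real.rpow_pos_of_pos (by positivity) _
  obtain ⟨Z, hZ⟩ : ∃ Z : ℝ, Z = X ^ 1000 := ⟨_, rfl⟩
  have hZ0 : 0 < Z := by
    rw [hZ]
    positivity
  have hZX : X = Z ^ (1 / 1000 : ℝ) := by
    rw [hZ, ← Real.rpow_natCast, ← Real.rpow_mul hXp.le]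
    norm_num
  have E1 : ∀ᶠ K : ℕ in atTop, 2 * k0 + 9 + Z ≤ (K : ℝ) ^ (99 / 100 : ℝ) :=
    AA.ev_ge _ _ (by norm_num)
  have E2 : ∀ᶠ K : ℕ in atTop, μ⁻¹ * 2 * (K : ℝ) ^ (99 / 100 : ℝ) ≤ (K : ℝ) ^ (1 : ℝ) :=
    AA.ev_pow _ _ _ (by norm_num)
  have E3 : ∀ᶠ K : ℕ in atTop, μ⁻¹ * (K : ℝ) ^ (993 / 1000 : ℝ) ≤ (K : ℝ) ^ (1 : ℝ) :=
    AA.ev_pow _ _ _ (by norm_num)
  obtain ⟨K1, hK1⟩ := Filter.eventually_atTop.mp (E1.and (E2.and E3))
  refine ⟨max K1 (max Ke 3), fun K hK => ?_⟩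
  obtain ⟨e1, e2, e3⟩ := hK1 K ((le_max_left _ _).trans hK)
  have hKe' : Ke ≤ K := ((le_max_left _ _).trans (le_max_right _ _)).trans hK
  have hK3 : 3 ≤ K := ((le_max_right _ _).trans (le_max_right _ _)).trans hK
  have hKr : (3 : ℝ) ≤ K := by exact_mod_cast hK3
  have hKpos : (0 : ℝ) < K := by linarith
  rw [Real.rpow_one] at e2 e3
  set u : ℝ := (K : ℝ) ^ (99 / 100 : ℝ) with hu
  have hu1 : 1 ≤ u := Real.one_le_rpow (by linarith) (by norm_num)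
  set kl : ℕ := ⌈u⌉₊ with hkl
  have hukl : u ≤ kl := Nat.le_ceil u
  have hklu : (kl : ℝ) < u + 1 := Nat.ceil_lt_add_one (by linarith)
  set A0 : Finset ℕ := (Finset.Icc 1 K).filter (fun k : ℕ => (Jf k : ℝ) ≤ η * (k * Real.log k) ^ 2 ∧
      ((gaps k).card : ℝ) < c * (Jf k : ℝ)) with hA0
  set A1 : Finset ℕ := Finset.Icc 1 kl with hA1
  set A2 : Finset ℕ := (Finset.Icc 1 K).filter (fun k : ℕ =>
      ((gaps k).card : ℝ) < ct / 4 * min (Jf k : ℝ) ((k : ℝ) ^ (79 / 40 + 1 / 1000 : ℝ))) with hA2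
  set A3 : Finset ℕ := A0.filter (fun k : ℕ => kl ≤ k ∧
    (k : ℝ) ^ (79 / 40 + 1 / 1000 : ℝ) ≤ (Jf k : ℝ)) with hA3
  have hsub : A0 ⊆ A1 ∪ (A2 ∪ A3) := by
    intro k hk
    rw [Finset.mem_union, Finset.mem_union]
    by_cases h1 : k ≤ kl
    · left
      rw [hA1, Finset.mem_Icc]
      rw [hA0, Finset.mem_filter, Finset.mem_Icc] at hk
      exact ⟨hk.1.1, h1⟩
    right
    by_cases h2 : (k : ℝ) ^ (79 / 40 + 1 / 1000 : ℝ) ≤ (Jf k : ℝ)
    · right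
      rw [hA3, Finset.mem_filter]
      exact ⟨hk, by omega, h2⟩
    · left
      push Not at h2
      rw [hA0, Finset.mem_filter] at hk
      rw [hA2, Finset.mem_filter]
      refine ⟨hk.1, lt_of_lt_of_le hk.2.2 ?_⟩
      rw [min_eq_left h2.le]
      exact mul_le_mul_of_nonneg_right hc2 (Nat.cast_nonneg _)
  have hcard : (A0.card : ℝ) ≤ (A1.card : ℝ) + ((A2.card : ℝ) + (A3.card : ℝ)) := by
    have h1 := Finset.card_le_card hsub
    have h2 := Finset.card_union_le A1 (A2 ∪ A3)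
    have h3 := Finset.card_union_le A2 A3
    have h4 : A0.card ≤ A1.card + (A2.card + A3.card) := by omega
    exact_mod_cast h4
  have b1 : (A1.card : ℝ) ≤ μ * K := by
    rw [hA1, Nat.card_Icc, Nat.add_sub_cancel]
    have h1 : μ * (μ⁻¹ * 2 * u) ≤ μ * K := mul_le_mul_of_nonneg_left e2 hμ0.le
    have h2 : μ * (μ⁻¹ * 2 * u) = 2 * u := by field_simp
    linarith
  have b2 : (A2.card : ℝ) ≤ μ * K := by
    have h1 := hKe K hKe' (79 / 40 + 1 / 1000) (by norm_num) (by norm_num)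
    have h2 : ((79 / 40 + 1 / 1000 : ℝ) / 2 + 2 * (1 / 400)) = 993 / 1000 := by norm_num
    rw [h2] at h1
    have h3 : μ * (μ⁻¹ * (K : ℝ) ^ (993 / 1000 : ℝ)) ≤ μ * K := mul_le_mul_of_nonneg_left e3 hμ0.le
    have h4 : μ * (μ⁻¹ * (K : ℝ) ^ (993 / 1000 : ℝ)) = (K : ℝ) ^ (993 / 1000 : ℝ) := by field_simp
    have h5 : (A2.card : ℝ) ≤ (K : ℝ) ^ (993 / 1000 : ℝ) := by
      rw [hA2]
      convert h1
    linarith
  have b3 : (A3.card : ℝ) ≤ 32 * C1 * (2 / c0) ^ (1 / 4 : ℝ) * μ * K := by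
    have hkl1 : 2 * (k0 : ℝ) + 9 + Z ≤ kl := e1.trans hukl
    have hkl2 : 2 * k0 + 9 ≤ kl := by
      have h1 : 2 * (k0 : ℝ) + 9 ≤ kl := by linarith
      exact_mod_cast h1
    have hkl3 : X ≤ (kl : ℝ) ^ (1 / 1000 : ℝ) := by
      have h1 : Z ≤ (kl : ℝ) := by
        have : (0 : ℝ) ≤ k0 := Nat.cast_nonneg k0
        linarith
      rw [hZX]
      exact Real.rpow_le_rpow hZ0.le h1 (by norm_num)
    have hkl4 : Real.log K ≤ 2 * Real.log kl := by
      have h1 : Real.log u ≤ Real.log kl := Real.log_le_log (by linarith) hukl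
      rw [hu, Real.log_rpow hKpos] at h1
      have h2 : 0 ≤ Real.log K := Real.log_natCast_nonneg K
      linarith
    have h1 := q05_third hc0 hC1 hCI hcore hcov hXX hcX hη hK3 hkl2 hkl3 hkl4 A3 (by
      intro k hk
      rw [hA3, Finset.mem_filter] at hk
      obtain ⟨h1, h2, h3⟩ := hk
      rw [hA0, Finset.mem_filter, Finset.mem_Icc] at h1
      exact ⟨h2, h1.1.2, h3, h1.2.1, h1.2.2⟩)
    refine h1.trans (le_of_eq ?_)
    have h2 : η / X = 2 / c0 * (c * η) := by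
      rw [hX]
      field_simp
    rw [h2, Real.mul_rpow (by positivity) (by positivity), ← hμ]
    ring
  calc (A0.card : ℝ) ≤ (A1.card : ℝ) + ((A2.card : ℝ) + (A3.card : ℝ)) := hcard
    _ ≤ μ * K + (μ * K + 32 * C1 * (2 / c0) ^ (1 / 4 : ℝ) * μ * K) :=
        add_le_add b1 (add_le_add b2 b3)
    _ = (32 * C1 * (2 / c0) ^ (1 / 4 : ℝ) + 2) * μ * K := by ring

open Classical in
theorem finB2 (hS : ThmS) : ∃ C : ℝ, 0 < C ∧ ∀ c : ℝ, 0 < c → ∃ K0 : ℕ, ∀ K : ℕ, K0 ≤ K →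
    (((Finset.Icc 1 K).filter (fun k : ℕ =>
      ((gaps k).card : ℝ) < c * (Jf k : ℝ))).card : ℝ) ≤ C * c ^ (1 / 4 : ℝ) * K := by
  obtain ⟨C, cs, hC, hcs, h⟩ := finB3 hS
  obtain ⟨CI, hCI, hcovS⟩ := covS hS
  have hCIp : 0 < CI := by linarith
  have hr1 : 0 < CI ^ (1 / 4 : ℝ) := Real.rpow_pos_of_pos hCIp _
  have hr2 : 0 < cs ^ (1 / 4 : ℝ) := Real.rpow_pos_of_pos hcs _
  refine ⟨C * CI ^ (1 / 4 : ℝ) + 1 + (cs ^ (1 / 4 : ℝ))⁻¹, by positivity, fun c hc => ?_⟩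
  have hr3 : 0 < c ^ (1 / 4 : ℝ) := Real.rpow_pos_of_pos hc _
  rcases le_total c cs with h1 | h1
  · obtain ⟨K0, hK0⟩ := h c CI hc h1 hCIp
    obtain ⟨K1, hK1⟩ := exists_nat_ge (c ^ (1 / 4 : ℝ))⁻¹
    refine ⟨max K0 K1, fun K hK => ?_⟩
    have h2 := hK0 K ((le_max_left _ _).trans hK)
    have h3 : ((K1 : ℕ) : ℝ) ≤ K := by exact_mod_cast (le_max_right _ _).trans hK
    have h4 : 1 ≤ c ^ (1 / 4 : ℝ) * K := by
      have h5 : (c ^ (1 / 4 : ℝ))⁻¹ ≤ K := hK1.trans h3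
      rw [inv_le_iff_one_le_mul₀ hr3] at h5
      linarith
    have hsub : (Finset.Icc 1 K).filter (fun k : ℕ => ((gaps k).card : ℝ) < c * (Jf k : ℝ)) ⊆
        insert 1 ((Finset.Icc 1 K).filter (fun k : ℕ => (Jf k : ℝ) ≤ CI * (k * Real.log k) ^ 2 ∧
          ((gaps k).card : ℝ) < c * (Jf k : ℝ))) := by
      intro k hk
      rw [Finset.mem_filter, Finset.mem_Icc] at hk
      rw [Finset.mem_insert, Finset.mem_filter, Finset.mem_Icc]
      by_cases h5 : k = 1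
      · exact Or.inl h5
      · exact Or.inr ⟨hk.1, hcovS k (Jf k) (by omega) (AA.cov_Jf k), hk.2⟩
    have h5 := (Finset.card_le_card hsub).trans (Finset.card_insert_le _ _)
    have h6 : (((Finset.Icc 1 K).filter (fun k : ℕ =>
        ((gaps k).card : ℝ) < c * (Jf k : ℝ))).card : ℝ) ≤
        (((Finset.Icc 1 K).filter (fun k : ℕ => (Jf k : ℝ) ≤ CI * (k * Real.log k) ^ 2 ∧
          ((gaps k).card : ℝ) < c * (Jf k : ℝ))).card : ℝ) + 1 := by exact_mod_cast h5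
    rw [Real.mul_rpow hc.le hCIp.le] at h2
    have h7 : 0 ≤ (cs ^ (1 / 4 : ℝ))⁻¹ * (c ^ (1 / 4 : ℝ) * K) := by positivity
    calc _ ≤ _ := h6
      _ ≤ C * (c ^ (1 / 4 : ℝ) * CI ^ (1 / 4 : ℝ)) * K + c ^ (1 / 4 : ℝ) * K := add_le_add h2 h4
      _ ≤ C * (c ^ (1 / 4 : ℝ) * CI ^ (1 / 4 : ℝ)) * K + c ^ (1 / 4 : ℝ) * K +
          (cs ^ (1 / 4 : ℝ))⁻¹ * (c ^ (1 / 4 : ℝ) * K) := by linarith
      _ = _ := by ring
  · refine ⟨0, fun K _ => ?_⟩
    have h2 : (((Finset.Icc 1 K).filter (fun k : ℕ =>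
        ((gaps k).card : ℝ) < c * (Jf k : ℝ))).card : ℝ) ≤ K := by
      have h3 := Finset.card_filter_le (Finset.Icc 1 K)
        (fun k : ℕ => ((gaps k).card : ℝ) < c * (Jf k : ℝ))
      rw [Nat.card_Icc, Nat.add_sub_cancel] at h3
      exact_mod_cast h3
    have h3 : 1 ≤ (cs ^ (1 / 4 : ℝ))⁻¹ * c ^ (1 / 4 : ℝ) := by
      have h4 : cs ^ (1 / 4 : ℝ) ≤ c ^ (1 / 4 : ℝ) := Real.rpow_le_rpow hcs.le h1 (by norm_num)
      rw [inv_mul_eq_div, le_div_iff₀ hr2]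
      linarith
    have hK0 : (0 : ℝ) ≤ K := Nat.cast_nonneg K
    calc _ ≤ (K : ℝ) := h2
      _ ≤ (cs ^ (1 / 4 : ℝ))⁻¹ * c ^ (1 / 4 : ℝ) * K := by nlinarith
      _ ≤ (C * CI ^ (1 / 4 : ℝ) + 1) * c ^ (1 / 4 : ℝ) * K +
          (cs ^ (1 / 4 : ℝ))⁻¹ * c ^ (1 / 4 : ℝ) * K := by
          have : 0 ≤ (C * CI ^ (1 / 4 : ℝ) + 1) * c ^ (1 / 4 : ℝ) * K := by positivity
          linarith
      _ = _ := by ring

/-- the extremal function is the largest gap -/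
theorem Jf_mem_gaps {k : ℕ} (hk : 2 ≤ k) : Jf k ∈ gaps k := by
  have hJ : k + 1 ≤ Jf k := AA.succ_le_Jf k
  obtain ⟨a, ha⟩ := AA.cov_Jf k
  refine AA.mem_gaps_of_Qd (by omega) (by omega) ⟨a, ?_, ∅, by simp, fun j h1 h2 _ => ha j h1 h2⟩
  intro i hi
  constructor
  · intro hd
    have h1 : Cov k (Jf k + 1) := by
      refine ⟨fun i => a i + 1, fun j hj1 hj2 => ?_⟩
      rcases Nat.eq_or_lt_of_le hj1 with h | h
      · refine ⟨i, hi, ?_⟩
        have h2 : (j : ℤ) - (a i + 1) = 0 - a i := by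
          rw [← h]
          push_cast
          ring
        rw [h2]
        exact hd
      · obtain ⟨i', hi', hd'⟩ := ha (j - 1) (by omega) (by omega)
        refine ⟨i', hi', ?_⟩
        have h2 : (j : ℤ) - (a i' + 1) = ((j - 1 : ℕ) : ℤ) - a i' := by
          rw [Nat.cast_sub (by omega)]
          push_cast
          ring
        rw [h2]
        exact hd'
    have := AA.le_Jf h1
    omega
  · intro hd
    have h1 : Cov k (Jf k + 1) := by
      refine ⟨a, fun j hj1 hj2 => ?_⟩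
      rcases Nat.lt_or_ge j (Jf k) with h | h
      · exact ha j hj1 h
      · have h2 : j = Jf k := by omega
        exact ⟨i, hi, by rw [h2]; exact hd⟩
    have := AA.le_Jf h1
    omega

end Pool.Agent.Lib.MP_45349e_nt.JG
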